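import Mathlib

/-!
String links, abstract part: definitions. Systems of closures.
-/

set_option autoImplicit false

namespace SLC

/-- term number k (k = 0 and 1: everything) of the lower central series of a group -/
def Gm (G : Type) [Group G] (k : ℕ) : Subgroup G := (⊤ : Subgroup G).lowerCentralSeries (k - 1)

/-- a system of closures S l of the groups P l (pure braid groups) in a monoid M (tangles) -/
structure CSys (M : Type) [Monoid M] where
  Lev : Type
  P : Lev → Type
  grp : ∀ l, Group (P l)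
  S : ∀ l, P l → M
  S_one : ∀ l, S l 1 = 1
  cmp : Lev → Lev → Lev
  lo : ∀ l' l, P l →* P (cmp l' l)
  up : ∀ l' l, P l' →* P (cmp l' l)
  S_cmp : ∀ l' l (x : P l') (y : P l), S (cmp l' l) (up l' l x * lo l' l y) = S l' x * S l y
  iso : ∀ l k (γ : P l), 1 ≤ k → γ ∈ Gm (P l) k → ∃ h h' q : P (cmp l l), h ∈ Gm (P (cmp l l)) k ∧
    h' ∈ Gm (P (cmp l l)) k ∧ q ∈ Gm (P (cmp l l)) (k + 1) ∧ lo l l γ = h * up l l γ * h' * q ∧
    (∀ x, S (cmp l l) (h * x) = S (cmp l l) x) ∧ (∀ x, S (cmp l l) (x * h') = S (cmp l l) x)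

attribute [instance] CSys.grp

namespace CSys

variable {M : Type} [Monoid M] (Q : CSys M)

/-- the closures -/
def IsCl (x : M) : Prop := ∃ (l : Q.Lev) (g : Q.P l), x = Q.S l g

/-- C_k-equivalence -/
def Ceq (k : ℕ) : M → M → Prop :=
  Relation.EqvGen fun x y => ∃ (l : Q.Lev) (g γ : Q.P l), γ ∈ Gm (Q.P l) k ∧ x = Q.S l g ∧ y = Q.S l (g * γ)

/-- alternating sum of v over the closures of g a_1^(e_1) a_2^(e_2) ... -/
def alt {A : Type} [AddCommGroup A] (v : M → A) (l : Q.Lev) : Q.P l → List (Q.P l) → A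
  | g, [] => v (Q.S l g)
  | g, a :: as => alt v l (g * a) as - alt v l g as

/-- finite type of degree < d -/
def FT {A : Type} [AddCommGroup A] (d : ℕ) (v : M → A) : Prop :=
  ∀ (l : Q.Lev) (g : Q.P l) (as : List (Q.P l)), as.length = d → Q.alt v l g as = 0

/-- torsion in degree k: C_k-trivial closures modulo C_(k+1)-equivalence have no torsion -/
def TorsionFree (k : ℕ) : Prop :=
  ∀ x, Q.IsCl x → Q.Ceq k x 1 → ∀ n : ℕ, 1 ≤ n → Q.Ceq (k + 1) (x ^ n) 1 → Q.Ceq (k + 1) x 1

end CSys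

end SLC
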