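import Pool.Agent.SLC.ActT

/-!
The action of tangles on functions of the states: the moves.
-/

set_option autoImplicit false

namespace SLC

section st

theorem upd2_i (i : ℕ) (s : ℕ → Sta) (z w : Sta) : upd2 i s z w i = z := by simp [upd2]
theorem upd2_i1 (i : ℕ) (s : ℕ → Sta) (z w : Sta) : upd2 i s z w (i + 1) = w := by simp [upd2]
theorem upd2_ne {i k : ℕ} (s : ℕ → Sta) (z w : Sta) (h : k ≠ i) (h' : k ≠ i + 1) : upd2 i s z w k = s k := by
  simp [upd2, h, h']
theorem upd2_upd2 (i : ℕ) (s : ℕ → Sta) (z w z' w' : Sta) : upd2 i (upd2 i s z w) z' w' = upd2 i s z' w' := by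
  funext k
  simp only [upd2]
  split_ifs <;> rfl
theorem upd2_self (i : ℕ) (s : ℕ → Sta) : upd2 i s (s i) (s (i + 1)) = s := by
  funext k
  simp only [upd2]
  split_ifs with h1 h2
  · rw [h1]
  · rw [h2]
  · rfl
theorem upd2_comm {i k : ℕ} (h : i + 2 ≤ k) (s : ℕ → Sta) (z w z' w' : Sta) :
    upd2 i (upd2 k s z w) z' w' = upd2 k (upd2 i s z' w') z w := by
  funext j
  simp only [upd2]
  split_ifs <;> first | rfl | omega

/-- replace three states -/
def upd3 (i : ℕ) (s : ℕ → Sta) (x y z : Sta) : ℕ → Sta :=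
  fun k => if k = i then x else if k = i + 1 then y else if k = i + 2 then z else s k

theorem upd3_l (i : ℕ) (s : ℕ → Sta) (p q r z x y : Sta) :
    upd2 i (upd2 (i + 1) (upd2 i s p q) r z) x y = upd3 i s x y z := by
  funext j
  simp only [upd2, upd3]
  split_ifs <;> first | rfl | omega
theorem upd3_r (i : ℕ) (s : ℕ → Sta) (p q r x y z : Sta) :
    upd2 (i + 1) (upd2 i (upd2 (i + 1) s p q) x r) y z = upd3 i s x y z := by
  funext j
  simp only [upd2, upd3]
  split_ifs <;> first | rfl | omega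

theorem del2_upd2 (i : ℕ) (s : ℕ → Sta) (z w : Sta) : del2 i (upd2 i s z w) = del2 i s := by
  funext j
  simp only [upd2, del2]
  split_ifs <;> first | rfl | omega
theorem upd2_ins2 (i : ℕ) (s : ℕ → Sta) (z w z' w' : Sta) : upd2 i (ins2 i s z w) z' w' = ins2 i s z' w' := by
  funext j
  simp only [upd2, ins2]
  split_ifs <;> first | rfl | omega
theorem ins2_i (i : ℕ) (s : ℕ → Sta) (z w : Sta) : ins2 i s z w i = z := by simp [ins2]
theorem ins2_i1 (i : ℕ) (s : ℕ → Sta) (z w : Sta) : ins2 i s z w (i + 1) = w := by simp [ins2]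
theorem ins2_lt {i k : ℕ} (s : ℕ → Sta) (z w : Sta) (h : k < i) : ins2 i s z w k = s k := by simp [ins2, h]
theorem ins2_ge {i k : ℕ} (s : ℕ → Sta) (z w : Sta) (h : i ≤ k) : ins2 i s z w (k + 2) = s k := by
  have h1 : ¬ k + 2 < i := by omega
  have h2 : ¬ k + 2 = i := by omega
  have h3 : ¬ k + 2 = i + 1 := by omega
  simp [ins2, h1, h2, h3]
theorem del2_lt {i k : ℕ} (s : ℕ → Sta) (h : k < i) : del2 i s k = s k := by simp [del2, h]
theorem del2_ge {i k : ℕ} (s : ℕ → Sta) (h : i ≤ k) : del2 i s k = s (k + 2) := by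
  have h1 : ¬ k < i := by omega
  simp [del2, h1]

/-- replace one state -/
def upd1 (i : ℕ) (s : ℕ → Sta) (z : Sta) : ℕ → Sta := fun k => if k = i then z else s k

theorem upd1_self (i : ℕ) (s : ℕ → Sta) : upd1 i s (s i) = s := by
  funext k
  simp only [upd1]
  split_ifs with h
  · rw [h]
  · rfl
theorem zig_st (i : ℕ) (s : ℕ → Sta) (z w : Sta) : del2 i (ins2 (i + 1) s z w) = upd1 i s w := by
  funext k
  simp only [upd1, del2, ins2]
  split_ifs <;> first | rfl | omega | (congr 1)
theorem zag_st (i : ℕ) (s : ℕ → Sta) (z w : Sta) : del2 (i + 1) (ins2 i s z w) = upd1 i s z := by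
  funext k
  simp only [upd1, del2, ins2]
  split_ifs <;> first | rfl | omega | (congr 1)

/-- one strand in place of three -/
def st1 (i : ℕ) (s : ℕ → Sta) (z : Sta) : ℕ → Sta := fun k => if k < i then s k else if k = i then z else s (k + 2)

theorem slc_l (i : ℕ) (s : ℕ → Sta) (z w : Sta) : del2 i (upd2 (i + 1) s z w) = st1 i s w := by
  funext k
  simp only [upd2, del2, st1]
  split_ifs <;> first | rfl | omega
theorem slc_r (i : ℕ) (s : ℕ → Sta) (z w : Sta) : del2 (i + 1) (upd2 i s z w) = st1 i s z := by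
  funext k
  simp only [upd2, del2, st1]
  split_ifs <;> first | rfl | omega

/-- three strands in place of one -/
def st3 (i : ℕ) (s : ℕ → Sta) (x y z : Sta) : ℕ → Sta :=
  fun k => if k < i then s k else if k = i then x else if k = i + 1 then y else if k = i + 2 then z else s (k - 2)

theorem slu_l (i : ℕ) (s : ℕ → Sta) (x w y z : Sta) : upd2 (i + 1) (ins2 i s x w) y z = st3 i s x y z := by
  funext k
  simp only [upd2, ins2, st3]
  split_ifs <;> first | rfl | omega
theorem slu_r (i : ℕ) (s : ℕ → Sta) (u z x y : Sta) : upd2 i (ins2 (i + 1) s u z) x y = st3 i s x y z := by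
  funext k
  simp only [upd2, ins2, st3]
  split_ifs <;> first | rfl | omega

theorem far_su_r {i k : ℕ} (h : i ≤ k) (s : ℕ → Sta) (z w z' w' : Sta) :
    upd2 (k + 2) (ins2 i s z w) z' w' = ins2 i (upd2 k s z' w') z w := by
  funext j
  simp only [upd2, ins2]
  split_ifs <;> first | rfl | omega
theorem far_su_l {i k : ℕ} (h : k + 2 ≤ i) (s : ℕ → Sta) (z w z' w' : Sta) :
    upd2 k (ins2 i s z w) z' w' = ins2 i (upd2 k s z' w') z w := by
  funext j
  simp only [upd2, ins2]
  split_ifs <;> first | rfl | omega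
theorem far_cs_r {i k : ℕ} (h : i ≤ k) (s : ℕ → Sta) (z w : Sta) :
    del2 i (upd2 (k + 2) s z w) = upd2 k (del2 i s) z w := by
  funext j
  simp only [upd2, del2]
  split_ifs <;> first | rfl | omega
theorem far_cs_l {i k : ℕ} (h : k + 2 ≤ i) (s : ℕ → Sta) (z w : Sta) :
    del2 i (upd2 k s z w) = upd2 k (del2 i s) z w := by
  funext j
  simp only [upd2, del2]
  split_ifs <;> first | rfl | omega
theorem far_uu {i k : ℕ} (h : i ≤ k) (s : ℕ → Sta) (z w z' w' : Sta) :
    ins2 (k + 2) (ins2 i s z w) z' w' = ins2 i (ins2 k s z' w') z w := by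
  funext j
  simp only [ins2]
  split_ifs <;> first | rfl | omega | (congr 1; omega)
theorem far_cc {i k : ℕ} (h : i ≤ k) (s : ℕ → Sta) : del2 i (del2 (k + 2) s) = del2 k (del2 i s) := by
  funext j
  simp only [del2]
  split_ifs <;> first | rfl | omega | (congr 1; omega)
theorem far_cu {i k : ℕ} (h : i ≤ k) (s : ℕ → Sta) (z w : Sta) :
    del2 (k + 2) (ins2 i s z w) = ins2 i (del2 k s) z w := by
  funext j
  simp only [del2, ins2]
  split_ifs <;> first | rfl | omega | (congr 1; omega)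
theorem far_uc {i k : ℕ} (h : i ≤ k) (s : ℕ → Sta) (z w : Sta) :
    del2 i (ins2 (k + 2) s z w) = ins2 k (del2 i s) z w := by
  funext j
  simp only [del2, ins2]
  split_ifs <;> first | rfl | omega | (congr 1; omega)

end st

section sums

variable {K : Type} [CommRing K] {Q : Type} [Fintype Q]

theorem fub {I J : Type} [Fintype I] [Fintype J] (a : I → K) (d : I → J → K) (f : J → K) :
    ∑ i, a i * ∑ j, d i j * f j = ∑ j, (∑ i, a i * d i j) * f j := by
  simp only [Finset.mul_sum, Finset.sum_mul]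
  rw [Finset.sum_comm]
  refine Finset.sum_congr rfl fun j _ => Finset.sum_congr rfl fun i _ => ?_
  ring

theorem fub22 (a : Q → Q → K) (d : Q → Q → Q → Q → K) (f : Q → Q → K) :
    ∑ z, ∑ w, a z w * ∑ x, ∑ y, d z w x y * f x y = ∑ x, ∑ y, (∑ z, ∑ w, a z w * d z w x y) * f x y := by
  have := fub (I := Q × Q) (J := Q × Q) (fun i => a i.1 i.2) (fun i j => d i.1 i.2 j.1 j.2) (fun j => f j.1 j.2)
  simpa only [Fintype.sum_prod_type] using this

theorem fub12 (a : Q → K) (d : Q → Q → Q → K) (f : Q → Q → K) :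
    ∑ z, a z * ∑ x, ∑ y, d z x y * f x y = ∑ x, ∑ y, (∑ z, a z * d z x y) * f x y := by
  have := fub (I := Q) (J := Q × Q) a (fun i j => d i j.1 j.2) (fun j => f j.1 j.2)
  simpa only [Fintype.sum_prod_type] using this

theorem fub23 (a : Q → Q → K) (d : Q → Q → Q → Q → Q → K) (f : Q → Q → Q → K) :
    ∑ z, ∑ w, a z w * ∑ x, ∑ y, ∑ u, d z w x y u * f x y u =
      ∑ x, ∑ y, ∑ u, (∑ z, ∑ w, a z w * d z w x y u) * f x y u := by
  have := fub (I := Q × Q) (J := Q × Q × Q) (fun i => a i.1 i.2) (fun i j => d i.1 i.2 j.1 j.2.1 j.2.2)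
    (fun j => f j.1 j.2.1 j.2.2)
  simpa only [Fintype.sum_prod_type] using this

/-- sums over z outside, then x, y: put z last -/
theorem rot3 (T : Q → Q → Q → K) : ∑ z, ∑ x, ∑ y, T z x y = ∑ x, ∑ y, ∑ z, T z x y := by
  rw [Finset.sum_comm]
  refine Finset.sum_congr rfl fun x _ => ?_
  rw [Finset.sum_comm]

theorem braid_l (A B C : Q → Q → Q → Q → K) (a b c : Q) (f : Q → Q → Q → K) :
    ∑ p, ∑ q, A a b p q * ∑ r, ∑ z, B q c r z * ∑ x, ∑ y, C p r x y * f x y z =
      ∑ x, ∑ y, ∑ z, (∑ p, ∑ q, ∑ r, A a b p q * B q c r z * C p r x y) * f x y z := by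
  have h1 : ∀ p q, ∑ r, ∑ z, B q c r z * ∑ x, ∑ y, C p r x y * f x y z =
      ∑ x, ∑ y, ∑ z, (∑ r, B q c r z * C p r x y) * f x y z := by
    intro p q
    rw [Finset.sum_comm]
    have h2 : ∀ z, ∑ r, B q c r z * ∑ x, ∑ y, C p r x y * f x y z =
        ∑ x, ∑ y, (∑ r, B q c r z * C p r x y) * f x y z := fun z =>
      fub12 (fun r => B q c r z) (fun r x y => C p r x y) (fun x y => f x y z)
    rw [Finset.sum_congr rfl fun z _ => h2 z]
    exact rot3 (fun z x y => (∑ r, B q c r z * C p r x y) * f x y z)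
  rw [Finset.sum_congr rfl fun p _ => Finset.sum_congr rfl fun q _ => by rw [h1 p q]]
  rw [fub23 (fun p q => A a b p q) (fun p q x y z => ∑ r, B q c r z * C p r x y) f]
  refine Finset.sum_congr rfl fun x _ => Finset.sum_congr rfl fun y _ => Finset.sum_congr rfl fun z _ => ?_
  congr 1
  refine Finset.sum_congr rfl fun p _ => Finset.sum_congr rfl fun q _ => ?_
  rw [Finset.mul_sum]
  refine Finset.sum_congr rfl fun r _ => ?_
  ring

theorem braid_r (A B C : Q → Q → Q → Q → K) (a b c : Q) (f : Q → Q → Q → K) :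
    ∑ p, ∑ q, A b c p q * ∑ x, ∑ r, B a p x r * ∑ y, ∑ z, C r q y z * f x y z =
      ∑ x, ∑ y, ∑ z, (∑ p, ∑ q, ∑ r, A b c p q * B a p x r * C r q y z) * f x y z := by
  have h1 : ∀ p q, ∑ x, ∑ r, B a p x r * ∑ y, ∑ z, C r q y z * f x y z =
      ∑ x, ∑ y, ∑ z, (∑ r, B a p x r * C r q y z) * f x y z := by
    intro p q
    refine Finset.sum_congr rfl fun x _ => ?_
    exact fub12 (fun r => B a p x r) (fun r y z => C r q y z) (fun y z => f x y z)
  rw [Finset.sum_congr rfl fun p _ => Finset.sum_congr rfl fun q _ => by rw [h1 p q]]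
  rw [fub23 (fun p q => A b c p q) (fun p q x y z => ∑ r, B a p x r * C r q y z) f]
  refine Finset.sum_congr rfl fun x _ => Finset.sum_congr rfl fun y _ => Finset.sum_congr rfl fun z _ => ?_
  congr 1
  refine Finset.sum_congr rfl fun p _ => Finset.sum_congr rfl fun q _ => ?_
  rw [Finset.mul_sum]
  refine Finset.sum_congr rfl fun r _ => ?_
  ring

/-- two independent double sums commute -/
theorem comm22 (a b : Q → Q → K) (f : Q → Q → Q → Q → K) :
    ∑ z, ∑ w, a z w * ∑ x, ∑ y, b x y * f z w x y = ∑ x, ∑ y, b x y * ∑ z, ∑ w, a z w * f z w x y := by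
  have : ∑ i : Q × Q, a i.1 i.2 * ∑ j : Q × Q, b j.1 j.2 * f i.1 i.2 j.1 j.2 =
      ∑ j : Q × Q, b j.1 j.2 * ∑ i : Q × Q, a i.1 i.2 * f i.1 i.2 j.1 j.2 := by
    simp only [Finset.mul_sum]
    rw [Finset.sum_comm]
    refine Finset.sum_congr rfl fun j _ => Finset.sum_congr rfl fun i _ => ?_
    ring
  simpa only [Fintype.sum_prod_type] using this

theorem sum_delta2 [DecidableEq Q] (a b : Q) (f : Q → Q → K) :
    ∑ x, ∑ y, (if x = a ∧ y = b then (1 : K) else 0) * f x y = f a b := by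
  simp [ite_and]

end sums

section ops

variable {K : Type} [CommRing K]

/-- functions of the states -/
abbrev Sp (K : Type) : Type := (ℕ → Sta) → K

def opR (R : Sta → Sta → Sta → Sta → K) (i : ℕ) : Sp K →ₗ[K] Sp K where
  toFun F := fun s => ∑ z, ∑ w, R (s i) (s (i + 1)) z w * F (upd2 i s z w)
  map_add' F G := by
    funext s
    simp only [Pi.add_apply, mul_add, Finset.sum_add_distrib]
  map_smul' a F := by
    funext s
    simp only [Pi.smul_apply, smul_eq_mul, RingHom.id_apply, Finset.mul_sum]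
    refine Finset.sum_congr rfl fun z _ => Finset.sum_congr rfl fun w _ => ?_
    ring

def opC (c : Sta → Sta → K) (i : ℕ) : Sp K →ₗ[K] Sp K where
  toFun F := fun s => c (s i) (s (i + 1)) * F (del2 i s)
  map_add' F G := by
    funext s
    simp only [Pi.add_apply, mul_add]
  map_smul' a F := by
    funext s
    simp only [Pi.smul_apply, smul_eq_mul, RingHom.id_apply]
    ring

def opU (u : Sta → Sta → K) (i : ℕ) : Sp K →ₗ[K] Sp K where
  toFun F := fun s => ∑ z, ∑ w, u z w * F (ins2 i s z w)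
  map_add' F G := by
    funext s
    simp only [Pi.add_apply, mul_add, Finset.sum_add_distrib]
  map_smul' a F := by
    funext s
    simp only [Pi.smul_apply, smul_eq_mul, RingHom.id_apply, Finset.mul_sum]
    refine Finset.sum_congr rfl fun z _ => Finset.sum_congr rfl fun w _ => ?_
    ring

theorem opR_apply (R : Sta → Sta → Sta → Sta → K) (i : ℕ) (F : Sp K) (s : ℕ → Sta) :
    opR R i F s = ∑ z, ∑ w, R (s i) (s (i + 1)) z w * F (upd2 i s z w) := rfl
theorem opC_apply (c : Sta → Sta → K) (i : ℕ) (F : Sp K) (s : ℕ → Sta) :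
    opC c i F s = c (s i) (s (i + 1)) * F (del2 i s) := rfl
theorem opU_apply (u : Sta → Sta → K) (i : ℕ) (F : Sp K) (s : ℕ → Sta) :
    opU u i F s = ∑ z, ∑ w, u z w * F (ins2 i s z w) := rfl

variable {R R' : Sta → Sta → Sta → Sta → K} {c u : Sta → Sta → K}

theorem op_inv {R₁ R₂ : Sta → Sta → Sta → Sta → K}
    (h : ∀ a b c d, ∑ z, ∑ w, R₁ a b z w * R₂ z w c d = if c = a ∧ d = b then 1 else 0) (i : ℕ) (F : Sp K) :
    opR R₁ i (opR R₂ i F) = F := by
  funext s
  rw [opR_apply]
  simp only [opR_apply, upd2_i, upd2_i1, upd2_upd2]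
  rw [fub22 (fun z w => R₁ (s i) (s (i + 1)) z w) (fun z w x y => R₂ z w x y) (fun x y => F (upd2 i s x y))]
  simp only [h]
  rw [sum_delta2, upd2_self]

theorem op_far (R₁ R₂ : Sta → Sta → Sta → Sta → K) {i k : ℕ} (h : i + 2 ≤ k) (F : Sp K) :
    opR R₂ k (opR R₁ i F) = opR R₁ i (opR R₂ k F) := by
  funext s
  rw [opR_apply, opR_apply]
  simp only [opR_apply]
  have e1 : ∀ z w, upd2 k s z w i = s i := fun z w => upd2_ne s z w (by omega) (by omega)
  have e2 : ∀ z w, upd2 k s z w (i + 1) = s (i + 1) := fun z w => upd2_ne s z w (by omega) (by omega)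
  have e3 : ∀ z w, upd2 i s z w k = s k := fun z w => upd2_ne s z w (by omega) (by omega)
  have e4 : ∀ z w, upd2 i s z w (k + 1) = s (k + 1) := fun z w => upd2_ne s z w (by omega) (by omega)
  simp only [e1, e2, e3, e4, upd2_comm h]
  exact comm22 (fun z w => R₂ (s k) (s (k + 1)) z w) (fun x y => R₁ (s i) (s (i + 1)) x y)
    (fun z w x y => F (upd2 k (upd2 i s x y) z w))

theorem op_braid (h : TOk R R' c u 1) (i : ℕ) (F : Sp K) :
    opR R i (opR R (i + 1) (opR R i F)) = opR R (i + 1) (opR R i (opR R (i + 1) F)) := by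
  funext s
  have e1 : ∀ p q, upd2 i s p q (i + 1 + 1) = s (i + 1 + 1) := fun p q => upd2_ne s p q (by omega) (by omega)
  have e2 : ∀ p q r z, upd2 (i + 1) (upd2 i s p q) r z i = p := fun p q r z => by
    rw [upd2_ne _ _ _ (by omega) (by omega), upd2_i]
  have e3 : ∀ p q, upd2 (i + 1) s p q i = s i := fun p q => upd2_ne s p q (by omega) (by omega)
  have e4 : ∀ p q x r, upd2 i (upd2 (i + 1) s p q) x r (i + 1 + 1) = q := fun p q x r => by
    rw [upd2_ne _ _ _ (by omega) (by omega), upd2_i1]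
  have l : opR R i (opR R (i + 1) (opR R i F)) s = ∑ p, ∑ q, R (s i) (s (i + 1)) p q *
      ∑ r, ∑ z, R q (s (i + 1 + 1)) r z * ∑ x, ∑ y, R p r x y * F (upd3 i s x y z) := by
    simp only [opR_apply, upd2_i, upd2_i1, e1, e2, upd3_l]
  have rr : opR R (i + 1) (opR R i (opR R (i + 1) F)) s = ∑ p, ∑ q, R (s (i + 1)) (s (i + 1 + 1)) p q *
      ∑ x, ∑ r, R (s i) p x r * ∑ y, ∑ z, R r q y z * F (upd3 i s x y z) := by
    simp only [opR_apply, upd2_i, upd2_i1, e3, e4, upd3_r]
  rw [l, rr, braid_l, braid_r]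
  refine Finset.sum_congr rfl fun x _ => Finset.sum_congr rfl fun y _ => Finset.sum_congr rfl fun z _ => ?_
  rw [h.braid]

theorem op_cs (h : TOk R R' c u 1) (i : ℕ) (F : Sp K) : opR R i (opC c i F) = opC c i F := by
  funext s
  rw [opR_apply, opC_apply]
  simp only [opC_apply, upd2_i, upd2_i1, del2_upd2]
  have := h.cs (s i) (s (i + 1))
  rw [one_mul] at this
  rw [← this, Finset.sum_mul]
  refine Finset.sum_congr rfl fun z _ => ?_
  rw [Finset.sum_mul]
  refine Finset.sum_congr rfl fun w _ => ?_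
  ring

theorem op_su (h : TOk R R' c u 1) (i : ℕ) (F : Sp K) : opU u i (opR R i F) = opU u i F := by
  funext s
  rw [opU_apply, opU_apply]
  simp only [opR_apply, ins2_i, ins2_i1, upd2_ins2]
  rw [fub22 (fun z w => u z w) (fun z w x y => R z w x y) (fun x y => F (ins2 i s x y))]
  simp only [h.su, one_mul]

theorem op_zig (h : TOk R R' c u 1) (i : ℕ) (F : Sp K) : opU u (i + 1) (opC c i F) = F := by
  funext s
  rw [opU_apply]
  simp only [opC_apply, ins2_i, zig_st, ins2_lt s _ _ (Nat.lt_succ_self i)]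
  rw [Finset.sum_comm]
  have h1 : ∀ w, ∑ z, u z w * (c (s i) z * F (upd1 i s w)) = (if w = s i then 1 else 0) * F (upd1 i s w) := by
    intro w
    rw [← h.zig, Finset.sum_mul]
    refine Finset.sum_congr rfl fun z _ => ?_
    ring
  rw [Finset.sum_congr rfl fun w _ => h1 w]
  simp [upd1_self]

theorem op_zag (h : TOk R R' c u 1) (i : ℕ) (F : Sp K) : opU u i (opC c (i + 1) F) = F := by
  funext s
  rw [opU_apply]
  have e1 : ∀ z w, ins2 i s z w (i + 1 + 1) = s i := fun z w => ins2_ge s z w le_rfl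
  simp only [opC_apply, ins2_i1, zag_st, e1]
  have h1 : ∀ z, ∑ w, u z w * (c w (s i) * F (upd1 i s z)) = (if z = s i then 1 else 0) * F (upd1 i s z) := by
    intro z
    rw [← h.zag, Finset.sum_mul]
    refine Finset.sum_congr rfl fun w _ => ?_
    ring
  rw [Finset.sum_congr rfl fun z _ => h1 z]
  simp [upd1_self]

theorem op_slc {R₁ R₂ : Sta → Sta → Sta → Sta → K}
    (h : ∀ a b d x, ∑ z, R₁ b d z x * c a z = ∑ w, R₂ a b x w * c w d) (i : ℕ) (F : Sp K) :
    opR R₁ (i + 1) (opC c i F) = opR R₂ i (opC c (i + 1) F) := by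
  funext s
  rw [opR_apply, opR_apply]
  have e1 : ∀ z w, upd2 (i + 1) s z w i = s i := fun z w => upd2_ne s z w (by omega) (by omega)
  have e2 : ∀ z w, upd2 i s z w (i + 1 + 1) = s (i + 1 + 1) := fun z w => upd2_ne s z w (by omega) (by omega)
  simp only [opC_apply, upd2_i, upd2_i1, e1, e2, slc_l, slc_r]
  rw [Finset.sum_comm]
  refine Finset.sum_congr rfl fun x _ => ?_
  have h1 := congrArg (fun t => t * F (st1 i s x)) (h (s i) (s (i + 1)) (s (i + 1 + 1)) x)
  simp only [Finset.sum_mul] at h1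
  refine Eq.trans ?_ (h1.trans ?_)
  · refine Finset.sum_congr rfl fun z _ => ?_
    ring
  · refine Finset.sum_congr rfl fun z _ => ?_
    ring

theorem op_slu {R₁ R₂ : Sta → Sta → Sta → Sta → K}
    (h : ∀ a x y z, ∑ w, u x w * R₁ w a y z = ∑ v, u v z * R₂ a v x y) (i : ℕ) (F : Sp K) :
    opU u i (opR R₁ (i + 1) F) = opU u (i + 1) (opR R₂ i F) := by
  funext s
  rw [opU_apply, opU_apply]
  have e1 : ∀ z w, ins2 i s z w (i + 1 + 1) = s i := fun z w => ins2_ge s z w le_rfl
  have e2 : ∀ z w, ins2 (i + 1) s z w i = s i := fun z w => ins2_lt s z w (by omega)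
  simp only [opR_apply, ins2_i, ins2_i1, e1, e2, slu_l, slu_r]
  have l : ∀ x, ∑ w, u x w * ∑ y, ∑ z, R₁ w (s i) y z * F (st3 i s x y z) =
      ∑ y, ∑ z, (∑ w, u x w * R₁ w (s i) y z) * F (st3 i s x y z) := fun x =>
    fub12 (fun w => u x w) (fun w y z => R₁ w (s i) y z) (fun y z => F (st3 i s x y z))
  have r : ∀ z, ∑ v, u v z * ∑ x, ∑ y, R₂ (s i) v x y * F (st3 i s x y z) =
      ∑ x, ∑ y, (∑ v, u v z * R₂ (s i) v x y) * F (st3 i s x y z) := fun z =>
    fub12 (fun v => u v z) (fun v x y => R₂ (s i) v x y) (fun x y => F (st3 i s x y z))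
  rw [Finset.sum_congr rfl fun x _ => l x]
  rw [Finset.sum_comm (s := Finset.univ) (t := Finset.univ)
    (f := fun v z => u v z * ∑ x, ∑ y, R₂ (s i) v x y * F (st3 i s x y z))]
  rw [Finset.sum_congr rfl fun z _ => r z]
  rw [rot3 (fun z x y => (∑ v, u v z * R₂ (s i) v x y) * F (st3 i s x y z))]
  refine Finset.sum_congr rfl fun x _ => Finset.sum_congr rfl fun y _ => Finset.sum_congr rfl fun z _ => ?_
  rw [h]

theorem op_su_r (R₁ : Sta → Sta → Sta → Sta → K) (u : Sta → Sta → K) {i k : ℕ} (h : i ≤ k) (F : Sp K) :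
    opU u i (opR R₁ (k + 2) F) = opR R₁ k (opU u i F) := by
  funext s
  rw [opU_apply, opR_apply]
  have e1 : ∀ z w, ins2 i s z w (k + 2) = s k := fun z w => ins2_ge s z w h
  have e2 : ∀ z w, ins2 i s z w (k + 2 + 1) = s (k + 1) := fun z w => ins2_ge (k := k + 1) s z w (by omega)
  simp only [opR_apply, opU_apply, e1, e2, far_su_r h]
  exact comm22 (fun z w => u z w) (fun x y => R₁ (s k) (s (k + 1)) x y)
    (fun z w x y => F (ins2 i (upd2 k s x y) z w))

theorem op_su_l (R₁ : Sta → Sta → Sta → Sta → K) (u : Sta → Sta → K) {i k : ℕ} (h : k + 2 ≤ i) (F : Sp K) :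
    opU u i (opR R₁ k F) = opR R₁ k (opU u i F) := by
  funext s
  rw [opU_apply, opR_apply]
  have e1 : ∀ z w, ins2 i s z w k = s k := fun z w => ins2_lt s z w (by omega)
  have e2 : ∀ z w, ins2 i s z w (k + 1) = s (k + 1) := fun z w => ins2_lt s z w (by omega)
  simp only [opR_apply, opU_apply, e1, e2, far_su_l h]
  exact comm22 (fun z w => u z w) (fun x y => R₁ (s k) (s (k + 1)) x y)
    (fun z w x y => F (ins2 i (upd2 k s x y) z w))

theorem op_cs_r (R₁ : Sta → Sta → Sta → Sta → K) (c : Sta → Sta → K) {i k : ℕ} (h : i ≤ k) (F : Sp K) :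
    opR R₁ (k + 2) (opC c i F) = opC c i (opR R₁ k F) := by
  funext s
  rw [opR_apply, opC_apply]
  have e1 : ∀ z w, upd2 (k + 2) s z w i = s i := fun z w => upd2_ne s z w (by omega) (by omega)
  have e2 : ∀ z w, upd2 (k + 2) s z w (i + 1) = s (i + 1) := fun z w => upd2_ne s z w (by omega) (by omega)
  have e3 : del2 i s k = s (k + 2) := del2_ge s h
  have e4 : del2 i s (k + 1) = s (k + 2 + 1) := del2_ge s (by omega)
  simp only [opR_apply, opC_apply, e1, e2, e3, e4, far_cs_r h, Finset.mul_sum]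
  refine Finset.sum_congr rfl fun z _ => Finset.sum_congr rfl fun w _ => ?_
  ring

theorem op_cs_l (R₁ : Sta → Sta → Sta → Sta → K) (c : Sta → Sta → K) {i k : ℕ} (h : k + 2 ≤ i) (F : Sp K) :
    opR R₁ k (opC c i F) = opC c i (opR R₁ k F) := by
  funext s
  rw [opR_apply, opC_apply]
  have e1 : ∀ z w, upd2 k s z w i = s i := fun z w => upd2_ne s z w (by omega) (by omega)
  have e2 : ∀ z w, upd2 k s z w (i + 1) = s (i + 1) := fun z w => upd2_ne s z w (by omega) (by omega)
  have e3 : del2 i s k = s k := del2_lt s (by omega)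
  have e4 : del2 i s (k + 1) = s (k + 1) := del2_lt s (by omega)
  simp only [opR_apply, opC_apply, e1, e2, e3, e4, far_cs_l h, Finset.mul_sum]
  refine Finset.sum_congr rfl fun z _ => Finset.sum_congr rfl fun w _ => ?_
  ring

theorem op_uu (u : Sta → Sta → K) {i k : ℕ} (h : i ≤ k) (F : Sp K) :
    opU u i (opU u (k + 2) F) = opU u k (opU u i F) := by
  funext s
  rw [opU_apply, opU_apply]
  simp only [opU_apply, far_uu h]
  exact comm22 (fun z w => u z w) (fun x y => u x y) (fun z w x y => F (ins2 i (ins2 k s x y) z w))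

theorem op_cc (c : Sta → Sta → K) {i k : ℕ} (h : i ≤ k) (F : Sp K) :
    opC c (k + 2) (opC c i F) = opC c i (opC c k F) := by
  funext s
  rw [opC_apply, opC_apply]
  have e1 : del2 (k + 2) s i = s i := del2_lt s (by omega)
  have e2 : del2 (k + 2) s (i + 1) = s (i + 1) := del2_lt s (by omega)
  have e3 : del2 i s k = s (k + 2) := del2_ge s h
  have e4 : del2 i s (k + 1) = s (k + 2 + 1) := del2_ge s (by omega)
  simp only [opC_apply, e1, e2, e3, e4, far_cc h]
  ring

theorem op_cu (c u : Sta → Sta → K) {i k : ℕ} (h : i ≤ k) (F : Sp K) :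
    opU u i (opC c (k + 2) F) = opC c k (opU u i F) := by
  funext s
  rw [opU_apply, opC_apply]
  have e1 : ∀ z w, ins2 i s z w (k + 2) = s k := fun z w => ins2_ge s z w h
  have e2 : ∀ z w, ins2 i s z w (k + 2 + 1) = s (k + 1) := fun z w => ins2_ge (k := k + 1) s z w (by omega)
  simp only [opC_apply, opU_apply, e1, e2, far_cu h, Finset.mul_sum]
  refine Finset.sum_congr rfl fun z _ => Finset.sum_congr rfl fun w _ => ?_
  ring

theorem op_uc (c u : Sta → Sta → K) {i k : ℕ} (h : i ≤ k) (F : Sp K) :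
    opU u (k + 2) (opC c i F) = opC c i (opU u k F) := by
  funext s
  rw [opU_apply, opC_apply]
  have e1 : ∀ z w, ins2 (k + 2) s z w i = s i := fun z w => ins2_lt s z w (by omega)
  have e2 : ∀ z w, ins2 (k + 2) s z w (i + 1) = s (i + 1) := fun z w => ins2_lt s z w (by omega)
  simp only [opC_apply, opU_apply, e1, e2, far_uc h, Finset.mul_sum]
  refine Finset.sum_congr rfl fun z _ => Finset.sum_congr rfl fun w _ => ?_
  ring

/-- the operator of an elementary tangle -/
def opE (R R' : Sta → Sta → Sta → Sta → K) (c u : Sta → Sta → K) : Elem → (Sp K →ₗ[K] Sp K)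
  | Elem.s i => opR R i
  | Elem.t i => opR R' i
  | Elem.u i => opU u i
  | Elem.c i => opC c i

/-- words act from the top to the bottom -/
def opW (R R' : Sta → Sta → Sta → Sta → K) (c u : Sta → Sta → K) : FreeMonoid Elem →* (Module.End K (Sp K))ᵐᵒᵖ :=
  FreeMonoid.lift fun e => MulOpposite.op (opE R R' c u e)

theorem opW_wd (R R' : Sta → Sta → Sta → Sta → K) (c u : Sta → Sta → K) (l : List Elem) (F : Sp K) :
    (opW R R' c u (wd l)).unop F = l.foldl (fun G e => opE R R' c u e G) F := by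
  have h : ∀ (l : List Elem) (F : Sp K), (opW R R' c u (FreeMonoid.ofList l)).unop F =
      l.foldl (fun G e => opE R R' c u e G) F := by
    intro l
    induction l with
    | nil => intro F; rfl
    | cons e l ih =>
      intro F
      rw [List.foldl_cons, ← ih, FreeMonoid.ofList_cons, map_mul, MulOpposite.unop_mul, Module.End.mul_apply]
      congr 1
  exact h l F

theorem opW_move (h : TOk R R' c u 1) {a b : FreeMonoid Elem} (hm : Move a b) : opW R R' c u a = opW R R' c u b := by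
  apply MulOpposite.unop_injective
  refine LinearMap.ext fun F => ?_
  cases hm with
  | st i => rw [opW_wd, opW_wd]; exact op_inv h.st i F
  | ts i => rw [opW_wd, opW_wd]; exact op_inv h.ts i F
  | far i k hik => rw [opW_wd, opW_wd]; exact op_far R R hik F
  | braid i => rw [opW_wd, opW_wd]; exact op_braid h i F
  | cs i => rw [opW_wd, opW_wd]; exact op_cs h i F
  | su i => rw [opW_wd, opW_wd]; exact op_su h i F
  | zig i => rw [opW_wd, opW_wd]; exact op_zig h i F
  | zag i => rw [opW_wd, opW_wd]; exact op_zag h i F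
  | slide_cs i => rw [opW_wd, opW_wd]; exact op_slc h.slc1 i F
  | slide_ct i => rw [opW_wd, opW_wd]; exact op_slc h.slc2 i F
  | slide_su i => rw [opW_wd, opW_wd]; exact op_slu h.slu1 i F
  | slide_tu i => rw [opW_wd, opW_wd]; exact op_slu h.slu2 i F
  | su_right i k hik => rw [opW_wd, opW_wd]; exact op_su_r R u hik F
  | su_left i k hik => rw [opW_wd, opW_wd]; exact op_su_l R u hik F
  | cs_right i k hik => rw [opW_wd, opW_wd]; exact op_cs_r R c hik F
  | cs_left i k hik => rw [opW_wd, opW_wd]; exact op_cs_l R c hik F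
  | uu i k hik => rw [opW_wd, opW_wd]; exact op_uu u hik F
  | cc i k hik => rw [opW_wd, opW_wd]; exact op_cc c hik F
  | cu i k hik => rw [opW_wd, opW_wd]; exact op_cu c u hik F
  | uc i k hik => rw [opW_wd, opW_wd]; exact op_uc c u hik F

end ops

/-- the action of tangles exists -/
theorem exists_act {K : Type} [CommRing K] (A A' : K) (h : A * A' = 1) :
    ∃ Φ : Tangle → ((ℕ → Sta) → K) → ((ℕ → Sta) → K), IsAct A A' Φ := by
  have hok := okt h
  let f : Elem → (Module.End K (Sp K))ᵐᵒᵖ := fun e =>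
    MulOpposite.op (opE (Rt A A') (Rt' A A') (capt A) (cupt A') e)
  let Ψ : Tangle →* (Module.End K (Sp K))ᵐᵒᵖ := PresentedMonoid.lift f (fun a b hab => opW_move hok hab)
  refine ⟨fun x F => (Ψ x).unop F, ?_, ?_, ?_, ?_, ?_, ?_, ?_, ?_⟩
  · intro F
    rw [map_one]
    rfl
  · intro x y F
    rw [map_mul]
    rfl
  · intro x F G
    exact map_add _ F G
  · intro x a F
    exact map_smul _ a F
  · intro i F s
    rfl
  · intro i F s
    rfl
  · intro i F s
    rfl
  · intro i F s
    rfl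

end SLC
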