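import Pool.Agent.SLC.Top1

/-!
State sums on tangles: Kauffman bracket times mirror bracket, with forgotten strands. Definitions.
-/

set_option autoImplicit false

namespace SLC

/-- states of a strand: forgotten (none), or two spins -/
abbrev Sta : Type := Option (Bool × Bool)

section tensors

variable {K : Type} [CommRing K] (A A' : K)

/-- matrix of A + A' U (coefficient of the last two spins in the image of the first two) -/
def k1 : Bool → Bool → Bool → Bool → K
  | false, false, false, false => A
  | true, true, true, true => A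
  | false, true, true, false => A'
  | true, false, false, true => A'
  | true, false, true, false => A - A' ^ 3
  | _, _, _, _ => 0

/-- matrix of A' + A U -/
def k2 : Bool → Bool → Bool → Bool → K
  | false, false, false, false => A'
  | true, true, true, true => A'
  | false, true, false, true => A' - A ^ 3
  | false, true, true, false => A
  | true, false, false, true => A
  | _, _, _, _ => 0

def cap1 : Bool → Bool → K
  | false, true => - A ^ 2
  | true, false => 1
  | _, _ => 0

def cup1 : Bool → Bool → K
  | false, true => 1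
  | true, false => - A' ^ 2
  | _, _ => 0

/-- the crossing -/
def Rt : Sta → Sta → Sta → Sta → K
  | some p, some q, some u, some v => k1 A A' p.1 q.1 u.1 v.1 * k2 A A' p.2 q.2 u.2 v.2
  | some _, some _, _, _ => 0
  | x, y, z, w => if z = y ∧ w = x then 1 else 0

/-- the opposite crossing -/
def Rt' : Sta → Sta → Sta → Sta → K
  | some p, some q, some u, some v => k2 A A' p.1 q.1 u.1 v.1 * k1 A A' p.2 q.2 u.2 v.2
  | some _, some _, _, _ => 0
  | x, y, z, w => if z = y ∧ w = x then 1 else 0

/-- the maximum -/
def capt : Sta → Sta → K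
  | none, none => 1
  | some p, some q => cap1 A p.1 q.1 * cap1 A p.2 q.2
  | _, _ => 0

/-- the minimum -/
def cupt : Sta → Sta → K
  | none, none => 1
  | some p, some q => cup1 A' p.1 q.1 * cup1 A' p.2 q.2
  | _, _ => 0

end tensors

/-- replace the states of the strands i, i + 1 -/
def upd2 (i : ℕ) (s : ℕ → Sta) (z w : Sta) : ℕ → Sta := fun k => if k = i then z else if k = i + 1 then w else s k

/-- remove the strands i, i + 1 -/
def del2 (i : ℕ) (s : ℕ → Sta) : ℕ → Sta := fun k => if k < i then s k else s (k + 2)

/-- insert two strands at i, i + 1 -/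
def ins2 (i : ℕ) (s : ℕ → Sta) (z w : Sta) : ℕ → Sta :=
  fun k => if k < i then s k else if k = i then z else if k = i + 1 then w else s (k - 2)

/-- the action of tangles on functions of the states (contravariant: x * y acts by x, then y) -/
structure IsAct {K : Type} [CommRing K] (A A' : K) (Φ : Tangle → ((ℕ → Sta) → K) → ((ℕ → Sta) → K)) : Prop where
  one : ∀ F, Φ 1 F = F
  mul : ∀ x y F, Φ (x * y) F = Φ y (Φ x F)
  add : ∀ x F G, Φ x (F + G) = Φ x F + Φ x G
  smul : ∀ x (a : K) F, Φ x (a • F) = a • Φ x F
  Ts : ∀ i F s, Φ (Ts i) F s = ∑ z, ∑ w, Rt A A' (s i) (s (i + 1)) z w * F (upd2 i s z w)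
  Tt : ∀ i F s, Φ (Tt i) F s = ∑ z, ∑ w, Rt' A A' (s i) (s (i + 1)) z w * F (upd2 i s z w)
  C : ∀ i F s, Φ (C i) F s = capt A (s i) (s (i + 1)) * F (del2 i s)
  U : ∀ i F s, Φ (U i) F s = ∑ z, ∑ w, cupt A' z w * F (ins2 i s z w)

end SLC
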