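import Pool.Agent.SLC.ActDefs

/-!
The identities of the local tensors of the state sum: Kauffman bracket on two spins, products, forgotten strands.
-/

set_option autoImplicit false

namespace SLC

section bool

variable {K : Type} [CommRing K] (A A' : K) (h : A * A' = 1)
include h

theorem k_st (a b c d : Bool) : ∑ z, ∑ w, k2 A A' a b z w * k1 A A' z w c d = if c = a ∧ d = b then 1 else 0 := by
  cases a <;> cases b <;> cases c <;> cases d <;> simp [k1, k2] <;> grind

theorem k_ts (a b c d : Bool) : ∑ z, ∑ w, k1 A A' a b z w * k2 A A' z w c d = if c = a ∧ d = b then 1 else 0 := by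
  cases a <;> cases b <;> cases c <;> cases d <;> simp [k1, k2] <;> grind

theorem k_braid1 (a b c x y z : Bool) : ∑ p, ∑ q, ∑ r, k1 A A' a b p q * k1 A A' q c r z * k1 A A' p r x y =
    ∑ p, ∑ q, ∑ r, k1 A A' b c p q * k1 A A' a p x r * k1 A A' r q y z := by
  cases a <;> cases b <;> cases c <;> cases x <;> cases y <;> cases z <;>
    simp only [Fintype.sum_bool, k1, mul_zero, zero_mul, add_zero, zero_add] <;> grind

theorem k_braid2 (a b c x y z : Bool) : ∑ p, ∑ q, ∑ r, k2 A A' a b p q * k2 A A' q c r z * k2 A A' p r x y =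
    ∑ p, ∑ q, ∑ r, k2 A A' b c p q * k2 A A' a p x r * k2 A A' r q y z := by
  cases a <;> cases b <;> cases c <;> cases x <;> cases y <;> cases z <;>
    simp only [Fintype.sum_bool, k2, mul_zero, zero_mul, add_zero, zero_add] <;> grind

theorem k_cs1 (a b : Bool) : ∑ z, ∑ w, k1 A A' a b z w * cap1 A z w = (- A' ^ 3) * cap1 A a b := by
  cases a <;> cases b <;> simp [k1, cap1] <;> grind

theorem k_cs2 (a b : Bool) : ∑ z, ∑ w, k2 A A' a b z w * cap1 A z w = (- A ^ 3) * cap1 A a b := by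
  cases a <;> cases b <;> simp [k2, cap1] <;> grind

theorem k_su1 (a b : Bool) : ∑ z, ∑ w, cup1 A' z w * k1 A A' z w a b = (- A' ^ 3) * cup1 A' a b := by
  cases a <;> cases b <;> simp [k1, cup1] <;> grind

theorem k_su2 (a b : Bool) : ∑ z, ∑ w, cup1 A' z w * k2 A A' z w a b = (- A ^ 3) * cup1 A' a b := by
  cases a <;> cases b <;> simp [k2, cup1] <;> grind

theorem k_zig (a b : Bool) : ∑ z, cup1 A' z b * cap1 A a z = if b = a then 1 else 0 := by
  cases a <;> cases b <;> simp [cap1, cup1] <;> grind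

theorem k_zag (a b : Bool) : ∑ z, cup1 A' b z * cap1 A z a = if b = a then 1 else 0 := by
  cases a <;> cases b <;> simp [cap1, cup1] <;> grind

theorem k_slc1 (a b c x : Bool) : ∑ z, k1 A A' b c z x * cap1 A a z = ∑ w, k2 A A' a b x w * cap1 A w c := by
  cases a <;> cases b <;> cases c <;> cases x <;> simp [k1, k2, cap1] <;> grind

theorem k_slc2 (a b c x : Bool) : ∑ z, k2 A A' b c z x * cap1 A a z = ∑ w, k1 A A' a b x w * cap1 A w c := by
  cases a <;> cases b <;> cases c <;> cases x <;> simp [k1, k2, cap1] <;> grind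

theorem k_slu1 (a x y z : Bool) : ∑ w, cup1 A' x w * k1 A A' w a y z = ∑ u, cup1 A' u z * k2 A A' a u x y := by
  cases a <;> cases x <;> cases y <;> cases z <;> simp [k1, k2, cup1] <;> grind

theorem k_slu2 (a x y z : Bool) : ∑ w, cup1 A' x w * k2 A A' w a y z = ∑ u, cup1 A' u z * k1 A A' a u x y := by
  cases a <;> cases x <;> cases y <;> cases z <;> simp [k1, k2, cup1] <;> grind

end bool

/-- the identities of local tensors, with framing factors -/
structure TOk {K : Type} [CommRing K] {Q : Type} [Fintype Q] [DecidableEq Q] (R R' : Q → Q → Q → Q → K)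
    (cap cup : Q → Q → K) (φ : K) : Prop where
  st : ∀ a b c d, ∑ z, ∑ w, R' a b z w * R z w c d = if c = a ∧ d = b then 1 else 0
  ts : ∀ a b c d, ∑ z, ∑ w, R a b z w * R' z w c d = if c = a ∧ d = b then 1 else 0
  braid : ∀ a b c x y z, ∑ p, ∑ q, ∑ r, R a b p q * R q c r z * R p r x y =
    ∑ p, ∑ q, ∑ r, R b c p q * R a p x r * R r q y z
  cs : ∀ a b, ∑ z, ∑ w, R a b z w * cap z w = φ * cap a b
  su : ∀ a b, ∑ z, ∑ w, cup z w * R z w a b = φ * cup a b
  zig : ∀ a b, ∑ z, cup z b * cap a z = if b = a then 1 else 0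
  zag : ∀ a b, ∑ z, cup b z * cap z a = if b = a then 1 else 0
  slc1 : ∀ a b c x, ∑ z, R b c z x * cap a z = ∑ w, R' a b x w * cap w c
  slc2 : ∀ a b c x, ∑ z, R' b c z x * cap a z = ∑ w, R a b x w * cap w c
  slu1 : ∀ a x y z, ∑ w, cup x w * R w a y z = ∑ u, cup u z * R' a u x y
  slu2 : ∀ a x y z, ∑ w, cup x w * R' w a y z = ∑ u, cup u z * R a u x y

theorem ok1 {K : Type} [CommRing K] {A A' : K} (h : A * A' = 1) :
    TOk (k1 A A') (k2 A A') (cap1 A) (cup1 A') (- A' ^ 3) :=
  ⟨k_st A A' h, k_ts A A' h, k_braid1 A A' h, k_cs1 A A' h, k_su1 A A' h, k_zig A A' h, k_zag A A' h, k_slc1 A A' h,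
    k_slc2 A A' h, k_slu1 A A' h, k_slu2 A A' h⟩

theorem ok2 {K : Type} [CommRing K] {A A' : K} (h : A * A' = 1) :
    TOk (k2 A A') (k1 A A') (cap1 A) (cup1 A') (- A ^ 3) :=
  ⟨k_ts A A' h, k_st A A' h, k_braid2 A A' h, k_cs2 A A' h, k_su2 A A' h, k_zig A A' h, k_zag A A' h, k_slc2 A A' h,
    k_slc1 A A' h, k_slu2 A A' h, k_slu1 A A' h⟩

section prod

variable {K : Type} [CommRing K] {P Q : Type} [Fintype P] [Fintype Q]

theorem sum1 (f : P → K) (g : Q → K) : ∑ z : P × Q, f z.1 * g z.2 = (∑ z, f z) * ∑ z, g z := by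
  rw [Fintype.sum_prod_type, Finset.sum_mul_sum]

theorem sum2 (f : P → P → K) (g : Q → Q → K) :
    ∑ z : P × Q, ∑ w : P × Q, f z.1 w.1 * g z.2 w.2 = (∑ z, ∑ w, f z w) * ∑ z, ∑ w, g z w := by
  rw [← sum1 (fun z => ∑ w, f z w) (fun z => ∑ w, g z w)]
  refine Finset.sum_congr rfl fun z _ => ?_
  exact sum1 (f z.1) (g z.2)

theorem sum3 (f : P → P → P → K) (g : Q → Q → Q → K) :
    ∑ z : P × Q, ∑ w : P × Q, ∑ u : P × Q, f z.1 w.1 u.1 * g z.2 w.2 u.2 =
      (∑ z, ∑ w, ∑ u, f z w u) * ∑ z, ∑ w, ∑ u, g z w u := by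
  rw [← sum1 (fun z => ∑ w, ∑ u, f z w u) (fun z => ∑ w, ∑ u, g z w u)]
  refine Finset.sum_congr rfl fun z _ => ?_
  exact sum2 (f z.1) (g z.2)

omit [Fintype P] [Fintype Q] in
theorem ite_mul_ite (p q : Prop) [Decidable p] [Decidable q] :
    (if p then (1 : K) else 0) * (if q then 1 else 0) = if p ∧ q then 1 else 0 := by
  split_ifs <;> simp_all

variable [DecidableEq P] [DecidableEq Q] {R₁ R₁' : P → P → P → P → K} {c₁ u₁ : P → P → K} {φ₁ : K}
  {R₂ R₂' : Q → Q → Q → Q → K} {c₂ u₂ : Q → Q → K} {φ₂ : K}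

theorem TOk.prod (h₁ : TOk R₁ R₁' c₁ u₁ φ₁) (h₂ : TOk R₂ R₂' c₂ u₂ φ₂) :
    TOk (fun a b c d : P × Q => R₁ a.1 b.1 c.1 d.1 * R₂ a.2 b.2 c.2 d.2)
      (fun a b c d => R₁' a.1 b.1 c.1 d.1 * R₂' a.2 b.2 c.2 d.2)
      (fun a b => c₁ a.1 b.1 * c₂ a.2 b.2) (fun a b => u₁ a.1 b.1 * u₂ a.2 b.2) (φ₁ * φ₂) where
  st a b c d := by
    have e := sum2 (fun z w => R₁' a.1 b.1 z w * R₁ z w c.1 d.1) (fun z w => R₂' a.2 b.2 z w * R₂ z w c.2 d.2)
    rw [h₁.st, h₂.st] at e
    have e2 : ∑ z : P × Q, ∑ w : P × Q, R₁' a.1 b.1 z.1 w.1 * R₂' a.2 b.2 z.2 w.2 * (R₁ z.1 w.1 c.1 d.1 * R₂ z.2 w.2 c.2 d.2) =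
        ∑ z : P × Q, ∑ w : P × Q, R₁' a.1 b.1 z.1 w.1 * R₁ z.1 w.1 c.1 d.1 * (R₂' a.2 b.2 z.2 w.2 * R₂ z.2 w.2 c.2 d.2) := by
      refine Finset.sum_congr rfl fun z _ => Finset.sum_congr rfl fun w _ => ?_
      ring
    rw [e2, e, ite_mul_ite]
    refine if_congr ?_ rfl rfl
    rw [Prod.ext_iff, Prod.ext_iff]
    tauto
  ts a b c d := by
    have e := sum2 (fun z w => R₁ a.1 b.1 z w * R₁' z w c.1 d.1) (fun z w => R₂ a.2 b.2 z w * R₂' z w c.2 d.2)
    rw [h₁.ts, h₂.ts] at e
    have e2 : ∑ z : P × Q, ∑ w : P × Q, R₁ a.1 b.1 z.1 w.1 * R₂ a.2 b.2 z.2 w.2 * (R₁' z.1 w.1 c.1 d.1 * R₂' z.2 w.2 c.2 d.2) =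
        ∑ z : P × Q, ∑ w : P × Q, R₁ a.1 b.1 z.1 w.1 * R₁' z.1 w.1 c.1 d.1 * (R₂ a.2 b.2 z.2 w.2 * R₂' z.2 w.2 c.2 d.2) := by
      refine Finset.sum_congr rfl fun z _ => Finset.sum_congr rfl fun w _ => ?_
      ring
    rw [e2, e, ite_mul_ite]
    refine if_congr ?_ rfl rfl
    rw [Prod.ext_iff, Prod.ext_iff]
    tauto
  braid a b c x y z := by
    have e := sum3 (fun p q r => R₁ a.1 b.1 p q * R₁ q c.1 r z.1 * R₁ p r x.1 y.1)
      (fun p q r => R₂ a.2 b.2 p q * R₂ q c.2 r z.2 * R₂ p r x.2 y.2)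
    have e' := sum3 (fun p q r => R₁ b.1 c.1 p q * R₁ a.1 p x.1 r * R₁ r q y.1 z.1)
      (fun p q r => R₂ b.2 c.2 p q * R₂ a.2 p x.2 r * R₂ r q y.2 z.2)
    rw [h₁.braid, h₂.braid, ← e'] at e
    refine Eq.trans ?_ (e.trans ?_)
    · refine Finset.sum_congr rfl fun p _ => Finset.sum_congr rfl fun q _ => Finset.sum_congr rfl fun r _ => ?_
      ring
    · refine Finset.sum_congr rfl fun p _ => Finset.sum_congr rfl fun q _ => Finset.sum_congr rfl fun r _ => ?_
      ring
  cs a b := by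
    have e := sum2 (fun z w => R₁ a.1 b.1 z w * c₁ z w) (fun z w => R₂ a.2 b.2 z w * c₂ z w)
    rw [h₁.cs, h₂.cs] at e
    refine Eq.trans ?_ (e.trans (by ring))
    refine Finset.sum_congr rfl fun p _ => Finset.sum_congr rfl fun q _ => ?_
    ring
  su a b := by
    have e := sum2 (fun z w => u₁ z w * R₁ z w a.1 b.1) (fun z w => u₂ z w * R₂ z w a.2 b.2)
    rw [h₁.su, h₂.su] at e
    refine Eq.trans ?_ (e.trans (by ring))
    refine Finset.sum_congr rfl fun p _ => Finset.sum_congr rfl fun q _ => ?_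
    ring
  zig a b := by
    have e := sum1 (fun z => u₁ z b.1 * c₁ a.1 z) (fun z => u₂ z b.2 * c₂ a.2 z)
    rw [h₁.zig, h₂.zig, ite_mul_ite] at e
    refine Eq.trans ?_ (e.trans ?_)
    · refine Finset.sum_congr rfl fun p _ => ?_
      ring
    · refine if_congr ?_ rfl rfl
      rw [Prod.ext_iff]
  zag a b := by
    have e := sum1 (fun z => u₁ b.1 z * c₁ z a.1) (fun z => u₂ b.2 z * c₂ z a.2)
    rw [h₁.zag, h₂.zag, ite_mul_ite] at e
    refine Eq.trans ?_ (e.trans ?_)
    · refine Finset.sum_congr rfl fun p _ => ?_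
      ring
    · refine if_congr ?_ rfl rfl
      rw [Prod.ext_iff]
  slc1 a b c x := by
    have e := sum1 (fun z => R₁ b.1 c.1 z x.1 * c₁ a.1 z) (fun z => R₂ b.2 c.2 z x.2 * c₂ a.2 z)
    have e' := sum1 (fun w => R₁' a.1 b.1 x.1 w * c₁ w c.1) (fun w => R₂' a.2 b.2 x.2 w * c₂ w c.2)
    rw [h₁.slc1, h₂.slc1, ← e'] at e
    refine Eq.trans ?_ (e.trans ?_)
    · refine Finset.sum_congr rfl fun p _ => ?_
      ring
    · refine Finset.sum_congr rfl fun p _ => ?_
      ring
  slc2 a b c x := by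
    have e := sum1 (fun z => R₁' b.1 c.1 z x.1 * c₁ a.1 z) (fun z => R₂' b.2 c.2 z x.2 * c₂ a.2 z)
    have e' := sum1 (fun w => R₁ a.1 b.1 x.1 w * c₁ w c.1) (fun w => R₂ a.2 b.2 x.2 w * c₂ w c.2)
    rw [h₁.slc2, h₂.slc2, ← e'] at e
    refine Eq.trans ?_ (e.trans ?_)
    · refine Finset.sum_congr rfl fun p _ => ?_
      ring
    · refine Finset.sum_congr rfl fun p _ => ?_
      ring
  slu1 a x y z := by
    have e := sum1 (fun w => u₁ x.1 w * R₁ w a.1 y.1 z.1) (fun w => u₂ x.2 w * R₂ w a.2 y.2 z.2)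
    have e' := sum1 (fun u => u₁ u z.1 * R₁' a.1 u x.1 y.1) (fun u => u₂ u z.2 * R₂' a.2 u x.2 y.2)
    rw [h₁.slu1, h₂.slu1, ← e'] at e
    refine Eq.trans ?_ (e.trans ?_)
    · refine Finset.sum_congr rfl fun p _ => ?_
      ring
    · refine Finset.sum_congr rfl fun p _ => ?_
      ring
  slu2 a x y z := by
    have e := sum1 (fun w => u₁ x.1 w * R₁' w a.1 y.1 z.1) (fun w => u₂ x.2 w * R₂' w a.2 y.2 z.2)
    have e' := sum1 (fun u => u₁ u z.1 * R₁ a.1 u x.1 y.1) (fun u => u₂ u z.2 * R₂ a.2 u x.2 y.2)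
    rw [h₁.slu2, h₂.slu2, ← e'] at e
    refine Eq.trans ?_ (e.trans ?_)
    · refine Finset.sum_congr rfl fun p _ => ?_
      ring
    · refine Finset.sum_congr rfl fun p _ => ?_
      ring

end prod

section opt
variable {K : Type} [CommRing K] {Q : Type} [Fintype Q] [DecidableEq Q]

/-- crossings with forgotten strands -/
def Ro (R : Q → Q → Q → Q → K) : Option Q → Option Q → Option Q → Option Q → K
  | some a, some b, some c, some d => R a b c d
  | some _, some _, some _, none => 0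
  | some _, some _, none, _ => 0
  | some a, none, z, w => if z = none ∧ w = some a then 1 else 0
  | none, y, z, w => if z = y ∧ w = none then 1 else 0

/-- maxima and minima with forgotten strands -/
def co (c : Q → Q → K) : Option Q → Option Q → K
  | some a, some b => c a b
  | some _, none => 0
  | none, some _ => 0
  | none, none => 1

variable {R R' : Q → Q → Q → Q → K} {c u : Q → Q → K}

theorem TOk.opt (h : TOk R R' c u 1) : TOk (Ro R) (Ro R') (co c) (co u) 1 where
  st a b c d := by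
    have := h.st
    rcases a with _ | a <;> rcases b with _ | b <;> rcases c with _ | c <;> rcases d with _ | d <;>
      simp [Fintype.sum_option, Ro, ite_and, this]
  ts a b c d := by
    have := h.ts
    rcases a with _ | a <;> rcases b with _ | b <;> rcases c with _ | c <;> rcases d with _ | d <;>
      simp [Fintype.sum_option, Ro, ite_and, this]
  braid a b c x y z := by
    have := h.braid
    rcases a with _ | a <;> rcases b with _ | b <;> rcases c with _ | c <;> rcases x with _ | x <;>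
      rcases y with _ | y <;> rcases z with _ | z <;>
      simp [Fintype.sum_option, Ro, ite_and, this]
  cs a b := by
    have := h.cs
    simp only [one_mul] at this
    rcases a with _ | a <;> rcases b with _ | b <;> simp [Fintype.sum_option, Ro, co, ite_and, this]
  su a b := by
    have := h.su
    simp only [one_mul] at this
    rcases a with _ | a <;> rcases b with _ | b <;> simp [Fintype.sum_option, Ro, co, ite_and, this]
  zig a b := by
    have := h.zig
    rcases a with _ | a <;> rcases b with _ | b <;> simp [Fintype.sum_option, co, this]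
  zag a b := by
    have := h.zag
    rcases a with _ | a <;> rcases b with _ | b <;> simp [Fintype.sum_option, co, this]
  slc1 a b c x := by
    have := h.slc1
    rcases a with _ | a <;> rcases b with _ | b <;> rcases c with _ | c <;> rcases x with _ | x <;>
      simp [Fintype.sum_option, Ro, co, ite_and, this]
  slc2 a b c x := by
    have := h.slc2
    rcases a with _ | a <;> rcases b with _ | b <;> rcases c with _ | c <;> rcases x with _ | x <;>
      simp [Fintype.sum_option, Ro, co, ite_and, this]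
  slu1 a x y z := by
    have := h.slu1
    rcases a with _ | a <;> rcases x with _ | x <;> rcases y with _ | y <;> rcases z with _ | z <;>
      simp [Fintype.sum_option, Ro, co, ite_and, this]
  slu2 a x y z := by
    have := h.slu2
    rcases a with _ | a <;> rcases x with _ | x <;> rcases y with _ | y <;> rcases z with _ | z <;>
      simp [Fintype.sum_option, Ro, co, ite_and, this]
end opt

/-- the tensors of the state sum satisfy all the local identities -/
theorem okt {K : Type} [CommRing K] {A A' : K} (h : A * A' = 1) :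
    TOk (Rt A A') (Rt' A A') (capt A) (cupt A') 1 := by
  have h3 : (- A' ^ 3) * (- A ^ 3) = 1 := by
    have e : (- A' ^ 3) * (- A ^ 3) = (A * A') ^ 3 := by ring
    rw [e, h, one_pow]
  have h1 := (ok1 h).prod (ok2 h)
  rw [h3] at h1
  have h2 := h1.opt
  have e1 : Rt A A' = Ro (fun a b c d : Bool × Bool => k1 A A' a.1 b.1 c.1 d.1 * k2 A A' a.2 b.2 c.2 d.2) := by
    funext a b c d
    rcases a with _ | a <;> rcases b with _ | b <;> rcases c with _ | c <;> rcases d with _ | d <;> simp [Rt, Ro]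
  have e2 : Rt' A A' = Ro (fun a b c d : Bool × Bool => k2 A A' a.1 b.1 c.1 d.1 * k1 A A' a.2 b.2 c.2 d.2) := by
    funext a b c d
    rcases a with _ | a <;> rcases b with _ | b <;> rcases c with _ | c <;> rcases d with _ | d <;> simp [Rt', Ro]
  have e3 : capt A = co (fun a b : Bool × Bool => cap1 A a.1 b.1 * cap1 A a.2 b.2) := by
    funext a b
    rcases a with _ | a <;> rcases b with _ | b <;> rfl
  have e4 : cupt A' = co (fun a b : Bool × Bool => cup1 A' a.1 b.1 * cup1 A' a.2 b.2) := by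
    funext a b
    rcases a with _ | a <;> rcases b with _ | b <;> rfl
  rw [e1, e2, e3, e4]
  exact h2

end SLC
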