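import Pool.Agent.SLC.Gen1

/-!
The second term of the lower central series of the pure braid groups, modulo the third one.
-/

set_option autoImplicit false

namespace SLC

/-- commutator of two elements of the braid group -/
def cm (a b : Br) : Br := a * b * a⁻¹ * b⁻¹

/-- the commutator of the squares of σ 0 and σ 1 -/
def cc2 : Br := cm (σ 0 ^ 2) (σ 1 ^ 2)

theorem cm_conj (c a b : Br) : cm (c * a * c⁻¹) (c * b * c⁻¹) = c * cm a b * c⁻¹ := by
  unfold cm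
  group

/-- a braid which moves the strands 0, 1 to i, i + 1 -/
def dv : ℕ → Br
  | 0 => 1
  | i + 1 => σ i * σ (i + 1) * dv i

theorem dv_mem {n : ℕ} (i : ℕ) (h : i + 1 < n) : dv i ∈ BN n := by
  induction i with
  | zero => exact one_mem _
  | succ i ih => exact mul_mem (mul_mem (σ_mem (by omega)) (σ_mem h)) (ih (by omega))

theorem dv_σ (i : ℕ) : dv i * σ 0 * (dv i)⁻¹ = σ i := by
  induction i with
  | zero => rw [dv, one_mul, inv_one, mul_one]
  | succ i ih =>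
    rw [dv]
    calc σ i * σ (i + 1) * dv i * σ 0 * (σ i * σ (i + 1) * dv i)⁻¹
        = σ i * σ (i + 1) * (dv i * σ 0 * (dv i)⁻¹) * (σ (i + 1))⁻¹ * (σ i)⁻¹ := by
          generalize dv i = d
          generalize σ i = s
          generalize σ (i + 1) = t
          generalize σ 0 = u
          group
      _ = (σ i * σ (i + 1) * σ i) * (σ (i + 1))⁻¹ * (σ i)⁻¹ := by rw [ih]
      _ = σ (i + 1) := by
          rw [σ_braid]
          generalize σ i = s
          generalize σ (i + 1) = t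
          group

theorem perm_dv (i : ℕ) : perm (dv i) 0 = i ∧ perm (dv i) 1 = i + 1 := by
  induction i with
  | zero =>
    rw [dv, map_one]
    exact ⟨rfl, rfl⟩
  | succ i ih =>
    rw [dv, map_mul, map_mul, Equiv.Perm.mul_apply, Equiv.Perm.mul_apply, Equiv.Perm.mul_apply, Equiv.Perm.mul_apply,
      ih.1, ih.2, perm_σ, perm_σ]
    simp only [Equiv.swap_apply_def]
    constructor <;> split_ifs <;> omega

theorem pow_conj (c a : Br) : c * a ^ 2 * c⁻¹ = (c * a * c⁻¹) ^ 2 := by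
  rw [pow_two, pow_two]
  group

theorem sq_rep {n i : ℕ} {c : Br} (hc : c ∈ BN n) (hi : i + 1 < n) : ∃ c' ∈ BN n,
    c * σ i ^ 2 * c⁻¹ = c' * σ 0 ^ 2 * c'⁻¹ ∧ perm c' 0 = perm c i ∧ perm c' 1 = perm c (i + 1) := by
  refine ⟨c * dv i, mul_mem hc (dv_mem i hi), ?_, ?_, ?_⟩
  · have h : dv i * σ 0 ^ 2 * (dv i)⁻¹ = σ i ^ 2 := by rw [pow_conj, dv_σ]
    rw [← h]
    generalize dv i = d
    generalize σ 0 ^ 2 = u
    group
  · rw [map_mul, Equiv.Perm.mul_apply, (perm_dv i).1]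
  · rw [map_mul, Equiv.Perm.mul_apply, (perm_dv i).2]

theorem PN_gen0 {n : ℕ} {g : Br} (hg : g ∈ PN n) :
    g ∈ Subgroup.closure {x | ∃ c ∈ BN n, 2 ≤ n ∧ x = c * σ 0 ^ 2 * c⁻¹} := by
  refine Subgroup.closure_mono ?_ (PN_gen n g hg)
  rintro x ⟨c, hc, i, hi, rfl⟩
  obtain ⟨c', hc', h, -⟩ := sq_rep hc hi
  exact ⟨c', hc', by omega, h⟩

theorem sq_mem_PN {n i : ℕ} (hi : i + 1 < n) : σ i ^ 2 ∈ PN n := by
  rw [PN, Subgroup.mem_inf, MonoidHom.mem_ker]
  refine ⟨pow_mem (σ_mem hi) _, ?_⟩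
  rw [map_pow, perm_σ, pow_two, Equiv.swap_mul_self]

theorem Gam_one {n : ℕ} : Gam 1 n = PN n := rfl

theorem sq_class {n : ℕ} (hn : 2 ≤ n) {c c' : Br} (hc : c ∈ BN n) (hc' : c' ∈ BN n)
    (h : (perm c 0 = perm c' 0 ∧ perm c 1 = perm c' 1) ∨ (perm c 0 = perm c' 1 ∧ perm c 1 = perm c' 0)) :
    ∃ q ∈ Gam 2 n, c * σ 0 ^ 2 * c⁻¹ = c' * σ 0 ^ 2 * c'⁻¹ * q := by
  have h0 : σ 0 ^ 2 ∈ Gam 1 2 := sq_mem_PN (by omega)
  rcases h with h | h
  · refine class_indep le_rfl hc hc' hn (fun x hx => ?_) h0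
    interval_cases x
    · exact h.1
    · exact h.2
  · have h1 := class_indep (c' := c' * σ 0) le_rfl hc (mul_mem hc' (σ_mem (by omega))) hn (fun x hx => ?_) h0
    · obtain ⟨q, hq, e⟩ := h1
      refine ⟨q, hq, ?_⟩
      rw [e, pow_two]
      generalize σ 0 = u
      group
    · rw [map_mul, Equiv.Perm.mul_apply, perm_σ]
      interval_cases x
      · rw [Equiv.swap_apply_left]
        exact h.1
      · rw [Equiv.swap_apply_right]
        exact h.2

theorem Gam_succ {k n : ℕ} (hk : 1 ≤ k) : Gam (k + 1) n = ⁅Gam k n, PN n⁆ := by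
  have : k + 1 - 1 = (k - 1) + 1 := by omega
  rw [Gam, this, Subgroup.lowerCentralSeries_succ]
  rfl

theorem cm_mem_left {k n : ℕ} (hk : 1 ≤ k) {p γ : Br} (hγ : γ ∈ Gam k n) (hp : p ∈ PN n) : cm γ p ∈ Gam (k + 1) n := by
  rw [Gam_succ hk]
  have h := Subgroup.commutator_mem_commutator hγ hp
  rw [commutatorElement_def] at h
  exact h

theorem cm_inv (a b : Br) : (cm a b)⁻¹ = cm b a := by
  unfold cm
  group

theorem cm_mem_right {k n : ℕ} (hk : 1 ≤ k) {p γ : Br} (hγ : γ ∈ Gam k n) (hp : p ∈ PN n) : cm p γ ∈ Gam (k + 1) n := by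
  rw [← cm_inv]
  exact inv_mem (cm_mem_left hk hγ hp)

/-- a subgroup which contains the commutators of generators -/
theorem comm_closure {P N : Subgroup Br} {S : Set Br} (hS : ∀ x ∈ P, x ∈ Subgroup.closure S)
    (hSP : ∀ s ∈ S, s ∈ P) (hN : ∀ p ∈ P, ∀ x ∈ N, p * x * p⁻¹ ∈ N) (h : ∀ s ∈ S, ∀ t ∈ S, cm s t ∈ N) :
    ∀ x ∈ P, ∀ y ∈ P, cm x y ∈ N := by
  have hcl : ∀ x ∈ Subgroup.closure S, x ∈ P := (Subgroup.closure_le _).2 hSP
  have h1 : ∀ s ∈ S, ∀ y ∈ Subgroup.closure S, cm s y ∈ N := by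
    intro s hs y hy
    induction hy using Subgroup.closure_induction with
    | mem y hy => exact h s hs y hy
    | one =>
      have e : cm s 1 = 1 := by
        unfold cm
        group
      rw [e]
      exact one_mem _
    | mul x y hx0 hy0 hx hy =>
      have e : cm s (x * y) = cm s x * (x * cm s y * x⁻¹) := by
        unfold cm
        group
      rw [e]
      exact mul_mem hx (hN x (hcl x hx0) _ hy)
    | inv x hx0 hx =>
      have e : cm s x⁻¹ = x⁻¹ * (cm s x)⁻¹ * x⁻¹⁻¹ := by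
        unfold cm
        group
      rw [e]
      exact hN _ (inv_mem (hcl x hx0)) _ (inv_mem hx)
  intro x hx y hy
  have hx' := hS x hx
  clear hx
  induction hx' using Subgroup.closure_induction with
  | mem x hx => exact h1 x hx y (hS y hy)
  | one =>
    have e : cm 1 y = 1 := by
      unfold cm
      group
    rw [e]
    exact one_mem _
  | mul x z hx0 hz0 hx hz =>
    have e : cm (x * z) y = (x * cm z y * x⁻¹) * cm x y := by
      unfold cm
      group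
    rw [e]
    exact mul_mem (hN x (hcl x hx0) _ hz) hx
  | inv x hx0 hx =>
    have e : cm x⁻¹ y = x⁻¹ * (cm x y)⁻¹ * x⁻¹⁻¹ := by
      unfold cm
      group
    rw [e]
    exact hN _ (inv_mem (hcl x hx0)) _ (inv_mem hx)

/-- the subgroup generated by the conjugates of cc2 and the third term -/
def N2 (n : ℕ) : Subgroup Br := Subgroup.closure {x | ∃ c ∈ BN n, 3 ≤ n ∧ x = c * cc2 * c⁻¹} ⊔ Gam 3 n

theorem N2_conj {n : ℕ} {c x : Br} (hc : c ∈ BN n) (hx : x ∈ N2 n) : c * x * c⁻¹ ∈ N2 n := by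
  have h : N2 n ≤ (N2 n).comap (MulAut.conj c).toMonoidHom := by
    unfold N2
    refine sup_le ?_ fun y hy => ?_
    · refine (Subgroup.closure_le _).2 ?_
      rintro y ⟨d, hd, hn, rfl⟩
      refine Subgroup.mem_sup_left (Subgroup.subset_closure ⟨c * d, mul_mem hc hd, hn, ?_⟩)
      change c * (d * cc2 * d⁻¹) * c⁻¹ = _
      group
    · exact Subgroup.mem_sup_right (Gam_conj hc hy)
  exact h hx

theorem cm_mod {n : ℕ} {N : Subgroup Br} (hN3 : Gam 3 n ≤ N) (hN : ∀ p ∈ PN n, ∀ x ∈ N, p * x * p⁻¹ ∈ N)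
    {s t q q' : Br} (hs : s ∈ PN n) (ht : t ∈ PN n) (hq : q ∈ Gam 2 n) (hq' : q' ∈ Gam 2 n) (h : cm s t ∈ N) :
    cm (s * q) (t * q') ∈ N := by
  have htq : t * q' ∈ PN n := mul_mem ht (Gam_le_PN hq')
  have e1 : cm (s * q) (t * q') = (s * cm q (t * q') * s⁻¹) * cm s (t * q') := by
    unfold cm
    group
  have e2 : cm s (t * q') = cm s t * (t * cm s q' * t⁻¹) := by
    unfold cm
    group
  rw [e1, e2]
  refine mul_mem (hN s hs _ (hN3 (cm_mem_left (by omega) hq htq))) (mul_mem h ?_)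
  exact hN t ht _ (hN3 (cm_mem_right (by omega) hq' hs))

theorem cm_sq_mem {n : ℕ} (hn : 2 ≤ n) {c c' : Br} (hc : c ∈ BN n) (hc' : c' ∈ BN n) :
    cm (c * σ 0 ^ 2 * c⁻¹) (c' * σ 0 ^ 2 * c'⁻¹) ∈ N2 n := by
  have hN3 : Gam 3 n ≤ N2 n := le_sup_right
  have hN : ∀ p ∈ PN n, ∀ x ∈ N2 n, p * x * p⁻¹ ∈ N2 n := fun p hp x hx => N2_conj (PN_iff.1 hp).1 hx
  have hsq : ∀ {e : Br} {i : ℕ}, e ∈ BN n → i + 1 < n → e * σ i ^ 2 * e⁻¹ ∈ PN n := fun he hi =>
    PN_conj he (sq_mem_PN hi)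
  -- general reduction
  have red : ∀ e ∈ BN n, ∀ i j : ℕ, i + 1 < n → j + 1 < n →
      ((perm c 0 = perm e i ∧ perm c 1 = perm e (i + 1)) ∨ (perm c 0 = perm e (i + 1) ∧ perm c 1 = perm e i)) →
      ((perm c' 0 = perm e j ∧ perm c' 1 = perm e (j + 1)) ∨ (perm c' 0 = perm e (j + 1) ∧ perm c' 1 = perm e j)) →
      cm (σ i ^ 2) (σ j ^ 2) ∈ N2 n → cm (c * σ 0 ^ 2 * c⁻¹) (c' * σ 0 ^ 2 * c'⁻¹) ∈ N2 n := by
    intro e he i j hi hj h h' hij
    obtain ⟨e1, he1, r1, p1, p1'⟩ := sq_rep he hi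
    obtain ⟨e2, he2, r2, p2, p2'⟩ := sq_rep he hj
    rw [← p1, ← p1'] at h
    rw [← p2, ← p2'] at h'
    obtain ⟨q, hq, hq1⟩ := sq_class hn hc he1 h
    obtain ⟨q', hq', hq1'⟩ := sq_class hn hc' he2 h'
    rw [hq1, hq1', ← r1, ← r2]
    refine cm_mod hN3 hN (hsq he hi) (hsq he hj) hq hq' ?_
    rw [cm_conj]
    exact N2_conj he hij
  have hinj : ∀ a b : ℕ, perm c a = perm c b → a = b := fun a b h => (perm c).injective h
  have hinj' : ∀ a b : ℕ, perm c' a = perm c' b → a = b := fun a b h => (perm c').injective h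
  have h01 : perm c 0 ≠ perm c 1 := fun h => by
    have := hinj _ _ h
    omega
  have h01' : perm c' 0 ≠ perm c' 1 := fun h => by
    have := hinj' _ _ h
    omega
  have hlt : ∀ x < n, perm c x < n := (perm_lt hc).1
  have hlt' : ∀ x < n, perm c' x < n := (perm_lt hc').1
  have one : cm (σ 0 ^ 2) (σ 0 ^ 2) = 1 := by
    unfold cm
    group
  have hcc : 3 ≤ n → cm (σ 0 ^ 2) (σ 1 ^ 2) ∈ N2 n := fun h3 =>
    Subgroup.mem_sup_left (Subgroup.subset_closure ⟨1, one_mem _, h3, by unfold cc2; group⟩)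
  have three : ∀ u s v : ℕ, u < n → s < n → v < n → u ≠ s → u ≠ v → s ≠ v → 3 ≤ n ∧ ∃ e ∈ BN n,
      perm e 0 = u ∧ perm e 1 = s ∧ perm e 2 = v := by
    intro u s v hu hs hv h1 h2 h3
    obtain ⟨e, he, h⟩ := exists_inj 3 n (fun i => if i = 0 then u else if i = 1 then s else v) (by
      intro x hx
      interval_cases x <;> simpa) (by
      intro x hx y hy hxy
      interval_cases x <;> interval_cases y <;> simp at hxy <;> omega)
    refine ⟨by omega, e, he, ?_, ?_, ?_⟩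
    · simpa using h 0 (by omega)
    · simpa using h 1 (by omega)
    · simpa using h 2 (by omega)
  have l0 := hlt 0 (by omega)
  have l1 := hlt 1 (by omega)
  have l0' := hlt' 0 (by omega)
  have l1' := hlt' 1 (by omega)
  by_cases a : perm c 0 = perm c' 0
  · by_cases b : perm c 1 = perm c' 1
    · exact red c hc 0 0 (by omega) (by omega) (Or.inl ⟨rfl, rfl⟩) (Or.inl ⟨a.symm, b.symm⟩) (by
        rw [one]
        exact one_mem _)
    · obtain ⟨h3, e, he, e0, e1, e2⟩ := three (perm c 1) (perm c 0) (perm c' 1) l1 l0 l1' h01.symm b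
        (by rw [a]; exact h01')
      exact red e he 0 1 (by omega) (by omega) (Or.inr ⟨e1.symm, e0.symm⟩) (Or.inl ⟨by rw [e1, a], e2.symm⟩) (hcc h3)
  · by_cases b : perm c 0 = perm c' 1
    · by_cases b' : perm c 1 = perm c' 0
      · exact red c hc 0 0 (by omega) (by omega) (Or.inl ⟨rfl, rfl⟩) (Or.inr ⟨b'.symm, b.symm⟩) (by
          rw [one]
          exact one_mem _)
      · obtain ⟨h3, e, he, e0, e1, e2⟩ := three (perm c 1) (perm c 0) (perm c' 0) l1 l0 l0' h01.symm b' a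
        exact red e he 0 1 (by omega) (by omega) (Or.inr ⟨e1.symm, e0.symm⟩) (Or.inr ⟨e2.symm, by rw [e1, b]⟩)
          (hcc h3)
    · by_cases d : perm c 1 = perm c' 0
      · obtain ⟨h3, e, he, e0, e1, e2⟩ := three (perm c 0) (perm c 1) (perm c' 1) l0 l1 l1' h01 b
          (by rw [d]; exact h01')
        exact red e he 0 1 (by omega) (by omega) (Or.inl ⟨e0.symm, e1.symm⟩) (Or.inl ⟨by rw [e1, d], e2.symm⟩)
          (hcc h3)
      · by_cases d' : perm c 1 = perm c' 1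
        · obtain ⟨h3, e, he, e0, e1, e2⟩ := three (perm c 0) (perm c 1) (perm c' 0) l0 l1 l0' h01 a d
          exact red e he 0 1 (by omega) (by omega) (Or.inl ⟨e0.symm, e1.symm⟩) (Or.inr ⟨e2.symm, by rw [e1, d']⟩)
            (hcc h3)
        · obtain ⟨e, he, h⟩ := exists_inj 4 n
            (fun i => if i = 0 then perm c 0 else if i = 1 then perm c 1 else if i = 2 then perm c' 0 else perm c' 1)
            (by
              intro x hx
              interval_cases x <;> simpa) (by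
              intro x hx y hy hxy
              interval_cases x <;> interval_cases y <;> simp at hxy <;> omega)
          have e0 : perm e 0 = perm c 0 := by simpa using h 0 (by omega)
          have e1 : perm e 1 = perm c 1 := by simpa using h 1 (by omega)
          have e2 : perm e 2 = perm c' 0 := by simpa using h 2 (by omega)
          have e3 : perm e 3 = perm c' 1 := by simpa using h 3 (by omega)
          have h4 : 4 ≤ n := by omega
          refine red e he 0 2 (by omega) (by omega) (Or.inl ⟨e0.symm, e1.symm⟩) (Or.inl ⟨e2.symm, e3.symm⟩) ?_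
          have hc02 : Commute (σ 0) (σ 2) := σ_far (i := 0) (k := 2) le_rfl
          have hcc0 : cm (σ 0 ^ 2) (σ 2 ^ 2) = 1 := by
            unfold cm
            rw [((hc02.pow_left 2).pow_right 2).eq]
            group
          rw [hcc0]
          exact one_mem _

/-- the second term of the lower central series is generated by the conjugates of cc2, modulo the third term -/
theorem Gam2_gen {n : ℕ} {q : Br} (hq : q ∈ Gam 2 n) : q ∈ N2 n := by
  have hN : ∀ p ∈ PN n, ∀ x ∈ N2 n, p * x * p⁻¹ ∈ N2 n := fun p hp x hx => N2_conj (PN_iff.1 hp).1 hx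
  have h := comm_closure (P := PN n) (N := N2 n) (S := {x | ∃ c ∈ BN n, 2 ≤ n ∧ x = c * σ 0 ^ 2 * c⁻¹})
    (fun x hx => PN_gen0 hx) (by
      rintro x ⟨c, hc, hn, rfl⟩
      exact PN_conj hc (sq_mem_PN (by omega))) hN (by
      rintro x ⟨c, hc, hn, rfl⟩ y ⟨c', hc', -, rfl⟩
      exact cm_sq_mem hn hc hc')
  rw [Gam_succ le_rfl] at hq
  have h2 : ⁅Gam 1 n, PN n⁆ ≤ N2 n := by
    rw [Subgroup.commutator_le]
    intro x hx y hy
    have := h x hx y hy
    unfold cm at this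
    rw [commutatorElement_def]
    exact this
  exact h2 hq

/-- the full twist on three strands -/
def tw3 : Br := σ 0 ^ 2 * (σ 1 * σ 0 ^ 2 * (σ 1)⁻¹) * σ 1 ^ 2

theorem br1 {a b : Br} (h : a * b * a = b * a * b) : a * (a * b * a) = (a * b * a) * b := by
  calc a * (a * b * a) = a * (b * a * b) := by rw [h]
    _ = (a * b * a) * b := by group

theorem br2 {a b : Br} (h : a * b * a = b * a * b) : b * (a * b * a) = (a * b * a) * a := by
  calc b * (a * b * a) = (b * a * b) * a := by group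
    _ = (a * b * a) * a := by rw [h]

theorem br3 {a b : Br} (h : a * b * a = b * a * b) :
    a ^ 2 * (b * a ^ 2 * b⁻¹) * b ^ 2 = a * b * a * (a * b * a) := by
  calc a ^ 2 * (b * a ^ 2 * b⁻¹) * b ^ 2 = a * ((a * b * a) * a) * b := by
        rw [pow_two, pow_two]
        group
    _ = a * (b * (a * b * a)) * b := by rw [br2 h]
    _ = a * b * ((a * b * a) * b) := by group
    _ = a * b * (a * (a * b * a)) := by rw [br1 h]
    _ = a * b * a * (a * b * a) := by group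

theorem braid01 : σ 0 * σ 1 * σ 0 = σ 1 * σ 0 * σ 1 := σ_braid 0

theorem tw3_comm0 : σ 0 * tw3 = tw3 * σ 0 := by
  unfold tw3
  rw [br3 braid01, ← mul_assoc, br1 braid01, mul_assoc, br2 braid01, ← mul_assoc]

theorem tw3_comm1 : σ 1 * tw3 = tw3 * σ 1 := by
  unfold tw3
  rw [br3 braid01, ← mul_assoc, br2 braid01, mul_assoc, br1 braid01, ← mul_assoc]

/-- congruence modulo the term k of the lower central series -/
def Eqm (k n : ℕ) (a b : Br) : Prop := a⁻¹ * b ∈ Gam k n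

theorem Eqm.refl {k n : ℕ} (a : Br) : Eqm k n a a := by
  unfold Eqm
  rw [inv_mul_cancel]
  exact one_mem _

theorem Eqm.symm {k n : ℕ} {a b : Br} (h : Eqm k n a b) : Eqm k n b a := by
  unfold Eqm at h ⊢
  have := inv_mem h
  rwa [mul_inv_rev, inv_inv] at this

theorem Eqm.trans {k n : ℕ} {a b c : Br} (h : Eqm k n a b) (h' : Eqm k n b c) : Eqm k n a c := by
  unfold Eqm at h h' ⊢
  have := mul_mem h h'
  have e : a⁻¹ * b * (b⁻¹ * c) = a⁻¹ * c := by group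
  rwa [e] at this

theorem Eqm.of_mul {k n : ℕ} {a b q : Br} (hq : q ∈ Gam k n) (h : a = b * q) : Eqm k n a b := by
  unfold Eqm
  rw [h, mul_inv_rev, mul_assoc, inv_mul_cancel, mul_one]
  exact inv_mem hq

theorem Eqm.mul_right {k n : ℕ} {a b c : Br} (hc : c ∈ PN n) (h : Eqm k n a b) : Eqm k n (a * c) (b * c) := by
  unfold Eqm at h ⊢
  have := Gam_conj (inv_mem (PN_iff.1 hc).1) h
  rw [inv_inv] at this
  have e : (a * c)⁻¹ * (b * c) = c⁻¹ * (a⁻¹ * b) * c := by group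
  rwa [e]

theorem Eqm.mul_left {k n : ℕ} {a b : Br} (c : Br) (h : Eqm k n a b) : Eqm k n (c * a) (c * b) := by
  unfold Eqm at h ⊢
  have e : (c * a)⁻¹ * (c * b) = a⁻¹ * b := by group
  rwa [e]

theorem Eqm.mul {k n : ℕ} {a b c d : Br} (hc : c ∈ PN n) (h : Eqm k n a b) (h' : Eqm k n c d) :
    Eqm k n (a * c) (b * d) := (h.mul_right hc).trans (h'.mul_left b)

theorem Eqm.conj {k n : ℕ} {a b c : Br} (hc : c ∈ BN n) (h : Eqm k n a b) :
    Eqm k n (c * a * c⁻¹) (c * b * c⁻¹) := by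
  unfold Eqm at h ⊢
  have e : (c * a * c⁻¹)⁻¹ * (c * b * c⁻¹) = c * (a⁻¹ * b) * c⁻¹ := by group
  rw [e]
  exact Gam_conj hc h

theorem Eqm.inv {k n : ℕ} {a b : Br} (ha : a ∈ PN n) (h : Eqm k n a b) : Eqm k n a⁻¹ b⁻¹ := by
  have := Gam_conj (PN_iff.1 ha).1 (inv_mem h)
  unfold Eqm
  have e : a * (a⁻¹ * b)⁻¹ * a⁻¹ = a⁻¹⁻¹ * b⁻¹ := by group
  rwa [e] at this

/-- elements of the term k are central modulo the term k + 1 -/
theorem Eqm.central {k n : ℕ} (hk : 1 ≤ k) {x p : Br} (hx : x ∈ Gam k n) (hp : p ∈ PN n) :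
    Eqm (k + 1) n (p * x * p⁻¹) x := by
  obtain ⟨q, hq, h⟩ := Gam_comm hk hp hx
  exact Eqm.of_mul hq h

theorem cm_eqm {n : ℕ} {s t s' t' : Br} (hs : s ∈ PN n) (ht : t ∈ PN n) (h : Eqm 2 n s s') (h' : Eqm 2 n t t') :
    Eqm 3 n (cm s t) (cm s' t') := by
  unfold Eqm at h h'
  have e1 : s' = s * (s⁻¹ * s') := by group
  have e2 : t' = t * (t⁻¹ * t') := by group
  generalize hq : s⁻¹ * s' = q at h e1
  generalize hq' : t⁻¹ * t' = q' at h' e2
  subst e1 e2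
  have e : (cm s t)⁻¹ * cm (s * q) (t * q') =
      ((cm s t)⁻¹ * (s * cm q (t * q') * s⁻¹) * (cm s t)⁻¹⁻¹) * (t * cm s q' * t⁻¹) := by
    unfold cm
    group
  unfold Eqm
  rw [e]
  have hc : cm s t ∈ BN n := by
    unfold cm
    exact mul_mem (mul_mem (mul_mem (PN_iff.1 hs).1 (PN_iff.1 ht).1) (inv_mem (PN_iff.1 hs).1))
      (inv_mem (PN_iff.1 ht).1)
  refine mul_mem (Gam_conj (inv_mem hc) (Gam_conj (PN_iff.1 hs).1 ?_)) (Gam_conj (PN_iff.1 ht).1 ?_)
  · exact cm_mem_left (by omega) h (mul_mem ht (Gam_le_PN h'))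
  · exact cm_mem_right (by omega) h' hs

theorem cm_mul_right {n : ℕ} {s t u : Br} (hs : s ∈ PN n) (ht : t ∈ PN n) (hu : u ∈ PN n) :
    Eqm 3 n (cm s (t * u)) (cm s t * cm s u) := by
  have e : cm s (t * u) = cm s t * (t * cm s u * t⁻¹) := by
    unfold cm
    group
  rw [e]
  refine Eqm.mul_left _ ?_
  exact Eqm.central (k := 2) (by omega) (cm_mem_left (k := 1) le_rfl hs hu) ht

theorem Eqm.of_prod {k n : ℕ} {x y : Br} (hx : x ∈ BN n) (h : Eqm k n 1 (x * y)) : Eqm k n x y⁻¹ := by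
  unfold Eqm at h ⊢
  rw [inv_one, one_mul] at h
  have h1 := inv_mem (Gam_conj (inv_mem hx) h)
  have e : (x⁻¹ * (x * y) * x⁻¹⁻¹)⁻¹ = x⁻¹ * y⁻¹ := by group
  rwa [e] at h1

/-- cc2 changes to its inverse under the exchange of the strands 0, 1 -/
theorem cc2_swap0 {n : ℕ} (hn : 3 ≤ n) : Eqm 3 n (σ 0 * cc2 * (σ 0)⁻¹) cc2⁻¹ := by
  have s0 : σ 0 ^ 2 ∈ PN n := sq_mem_PN (by omega)
  have s1 : σ 1 ^ 2 ∈ PN n := sq_mem_PN (by omega)
  have b0 : σ 0 ∈ BN n := σ_mem (by omega)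
  have b1 : σ 1 ∈ BN n := σ_mem (by omega)
  have s2 : σ 1 * σ 0 ^ 2 * (σ 1)⁻¹ ∈ PN n := PN_conj b1 s0
  -- the two braids between the strands 0 and 2
  have h1 : Eqm 2 n (σ 0 * σ 1 ^ 2 * (σ 0)⁻¹) (σ 1 * σ 0 ^ 2 * (σ 1)⁻¹) := by
    obtain ⟨c', hc', r, p, p'⟩ := sq_rep (n := n) b0 (show 1 + 1 < n by omega)
    obtain ⟨q, hq, h⟩ := sq_class (by omega) hc' b1 (Or.inl ⟨by rw [p, perm_σ, perm_σ]; decide,
      by rw [p', perm_σ, perm_σ]; decide⟩)
    rw [r]
    exact Eqm.of_mul hq h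
  have h2 : σ 0 * cc2 * (σ 0)⁻¹ = cm (σ 0 ^ 2) (σ 0 * σ 1 ^ 2 * (σ 0)⁻¹) := by
    unfold cc2
    rw [← cm_conj]
    congr 1
    rw [pow_two]
    group
  rw [h2]
  refine (cm_eqm s0 (PN_conj b0 s1) (Eqm.refl _) h1).trans ?_
  have h3 : cm (σ 0 ^ 2) ((σ 1 * σ 0 ^ 2 * (σ 1)⁻¹) * σ 1 ^ 2) = 1 := by
    have hc : Commute (σ 0 ^ 2) tw3 := Commute.pow_left tw3_comm0 2
    have hc2 : Commute (σ 0 ^ 2) ((σ 1 * σ 0 ^ 2 * (σ 1)⁻¹) * σ 1 ^ 2) := by
      have e : (σ 1 * σ 0 ^ 2 * (σ 1)⁻¹) * σ 1 ^ 2 = (σ 0 ^ 2)⁻¹ * tw3 := by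
        unfold tw3
        group
      rw [e]
      exact (Commute.refl _).inv_right.mul_right hc
    unfold cm
    rw [hc2.eq]
    group
  have h4 := cm_mul_right s0 s2 s1
  rw [h3] at h4
  exact Eqm.of_prod (PN_iff.1 (Gam_le_PN (k := 2) (cm_mem_left (k := 1) le_rfl s0 s2))).1 h4

/-- cc2 changes to its inverse under the exchange of the strands 1, 2 -/
theorem cc2_swap1 {n : ℕ} (hn : 3 ≤ n) : Eqm 3 n (σ 1 * cc2 * (σ 1)⁻¹) cc2⁻¹ := by
  have s0 : σ 0 ^ 2 ∈ PN n := sq_mem_PN (by omega)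
  have s1 : σ 1 ^ 2 ∈ PN n := sq_mem_PN (by omega)
  have b1 : σ 1 ∈ BN n := σ_mem (by omega)
  have s2 : σ 1 * σ 0 ^ 2 * (σ 1)⁻¹ ∈ PN n := PN_conj b1 s0
  have h2 : σ 1 * cc2 * (σ 1)⁻¹ = (cm (σ 1 ^ 2) (σ 1 * σ 0 ^ 2 * (σ 1)⁻¹))⁻¹ := by
    unfold cc2
    rw [← cm_conj, cm_inv]
    congr 1
    rw [pow_two]
    group
  have h3 : cm (σ 1 ^ 2) (σ 0 ^ 2 * (σ 1 * σ 0 ^ 2 * (σ 1)⁻¹)) = 1 := by
    have hc : Commute (σ 1 ^ 2) tw3 := Commute.pow_left tw3_comm1 2
    have hc2 : Commute (σ 1 ^ 2) (σ 0 ^ 2 * (σ 1 * σ 0 ^ 2 * (σ 1)⁻¹)) := by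
      have e : σ 0 ^ 2 * (σ 1 * σ 0 ^ 2 * (σ 1)⁻¹) = tw3 * (σ 1 ^ 2)⁻¹ := by
        unfold tw3
        group
      rw [e]
      exact hc.mul_right (Commute.refl _).inv_right
    unfold cm
    rw [hc2.eq]
    group
  have h4 := cm_mul_right s1 s0 s2
  rw [h3] at h4
  have h5 := Eqm.of_prod (PN_iff.1 (Gam_le_PN (k := 2) (cm_mem_left (k := 1) le_rfl s1 s0))).1 h4
  have h6 : cm (σ 1 ^ 2) (σ 0 ^ 2) = cc2⁻¹ := by
    unfold cc2
    rw [cm_inv]
  rw [h6] at h5
  rw [h2]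
  exact h5.symm

end SLC
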