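import Pool.Agent.SLC.Gen2

/-!
String links: generators in the degrees 1 and 2.
-/

set_option autoImplicit false

namespace SLC

/-- the string link with a clasp between the components i and j -/
def GT (m i j : ℕ) (x : Tangle) : Prop := ∃ c ∈ BN m, perm c 0 = i ∧ perm c 1 = j ∧ x = T (c * σ 0 ^ 2 * c⁻¹)

/-- Borromean string links of the components i, j, k -/
def GE (m i j k : ℕ) (x : Tangle) : Prop :=
  ∃ c ∈ BN m, perm c 0 = i ∧ perm c 1 = j ∧ perm c 2 = k ∧ x = T (c * cc2 * c⁻¹)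

/-- trefoils in the component i -/
def GC (m i : ℕ) (x : Tangle) : Prop :=
  ∃ c ∈ BN (m + 2), perm c 0 = i ∧ perm c 1 = i + 1 ∧ perm c 2 = i + 2 ∧ x = C i * T (c * cc2 * c⁻¹) * U (i + 1)

/-- Whitehead string links of the components i and j (i < j) -/
def GD (m i j : ℕ) (x : Tangle) : Prop :=
  ∃ c ∈ BN (m + 2), perm c 0 = i ∧ perm c 1 = i + 1 ∧ perm c 2 = j + 2 ∧ x = C i * T (c * cc2 * c⁻¹) * U (i + 1)

end SLC
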