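import Pool.Agent.SLC.ActDefs
import Pool.Agent.SLC.Gen2
import Pool.Agent.SLC.Gens

/-!
Expansion of the state sums at A = 1 + X.
-/

set_option autoImplicit false

open PowerSeries

namespace SLC

/-- functions of the states with values in the power series -/
abbrev Fn : Type := (ℕ → Sta) → PowerSeries ℤ

/-- constant coefficients -/
noncomputable def c0 (F : Fn) : (ℕ → Sta) → ℤ := fun t => constantCoeff (F t)

theorem c0_add (F G : Fn) : c0 (F + G) = c0 F + c0 G := by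
  ext t
  simp [c0]

theorem c0_sub (F G : Fn) : c0 (F - G) = c0 F - c0 G := by
  ext t
  simp [c0]

theorem c0_X_smul {k : ℕ} (hk : 1 ≤ k) (H : Fn) : c0 ((X : PowerSeries ℤ) ^ k • H) = 0 := by
  ext t
  simp only [c0, Pi.smul_apply, smul_eq_mul, map_mul, map_pow, constantCoeff_X, Pi.zero_apply]
  rw [zero_pow (by omega), zero_mul]

theorem coeff_X_smul (k : ℕ) (H : Fn) (s : ℕ → Sta) : coeff k (((X : PowerSeries ℤ) ^ k • H) s) = c0 H s := by
  rw [Pi.smul_apply, smul_eq_mul, c0, ← coeff_zero_eq_constantCoeff_apply]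
  have := coeff_X_pow_mul (H s) k 0
  rwa [Nat.zero_add] at this

section act

variable {A A' : PowerSeries ℤ} {Φ : Tangle → Fn → Fn} (hΦ : IsAct A A' Φ)

include hΦ

theorem IsAct.T_mul (g h : Br) (F : Fn) : Φ (T (g * h)) F = Φ (T h) (Φ (T g) F) := by
  rw [SLC.T_mul, hΦ.mul]

theorem IsAct.T_inv (g : Br) (F : Fn) : Φ (T g⁻¹) (Φ (T g) F) = F := by
  rw [← hΦ.mul, T_mul_inv, hΦ.one]

theorem IsAct.T_inv' (g : Br) (F : Fn) : Φ (T g) (Φ (T g⁻¹) F) = F := by
  rw [← hΦ.mul, T_inv_mul, hΦ.one]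

theorem IsAct.sub (x : Tangle) (F G : Fn) : Φ x (F - G) = Φ x F - Φ x G := by
  have e : F - G = F + (-1 : PowerSeries ℤ) • G := by
    rw [neg_one_smul, sub_eq_add_neg]
  rw [e, hΦ.add, hΦ.smul, neg_one_smul, sub_eq_add_neg]

omit hΦ

/-- the operator of g is the identity modulo X^k -/
def VV (Φ : Tangle → Fn → Fn) (k : ℕ) (x : Tangle) : Prop := ∀ F, ∃ H : Fn, Φ x F = F + (X : PowerSeries ℤ) ^ k • H

/-- the operator of g is the identity modulo X^k, with the coefficient D of X^k -/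
def Sym (Φ : Tangle → Fn → Fn) (k : ℕ) (x : Tangle) (D : ((ℕ → Sta) → ℤ) → ((ℕ → Sta) → ℤ)) : Prop :=
  ∀ F, ∃ H : Fn, Φ x F = F + (X : PowerSeries ℤ) ^ k • H ∧ c0 H = D (c0 F)

theorem Sym.vv {k : ℕ} {x : Tangle} {D : ((ℕ → Sta) → ℤ) → ((ℕ → Sta) → ℤ)} (h : Sym Φ k x D) : VV Φ k x := by
  intro F
  obtain ⟨H, h1, -⟩ := h F
  exact ⟨H, h1⟩

theorem VV.c0 {k : ℕ} (hk : 1 ≤ k) {x : Tangle} (h : VV Φ k x) (F : Fn) : c0 (Φ x F) = SLC.c0 F := by
  obtain ⟨H, h1⟩ := h F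
  rw [h1, c0_add, c0_X_smul hk, add_zero]

include hΦ

theorem VV.mul {k : ℕ} {x y : Tangle} (hx : VV Φ k x) (hy : VV Φ k y) : VV Φ k (x * y) := by
  intro F
  obtain ⟨H, h1⟩ := hx F
  obtain ⟨H', h2⟩ := hy F
  refine ⟨H' + Φ y H, ?_⟩
  rw [hΦ.mul, h1, hΦ.add, hΦ.smul, h2, smul_add, add_assoc]

theorem VV.one {k : ℕ} : VV Φ k 1 := fun F => ⟨0, by rw [hΦ.one, smul_zero, add_zero]⟩

theorem VV.inv {k : ℕ} {g : Br} (hx : VV Φ k (T g)) : VV Φ k (T g⁻¹) := by
  intro F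
  obtain ⟨H, h1⟩ := hx (Φ (T g⁻¹) F)
  rw [hΦ.T_inv'] at h1
  refine ⟨-H, ?_⟩
  rw [smul_neg, ← sub_eq_add_neg, eq_sub_iff_add_eq]
  exact h1.symm

/-- commutators -/
theorem comm_aux {j k : ℕ} {g g' : Br} {F H H' H'' L'' : Fn}
    (h1 : Φ (T g) F = F + (X : PowerSeries ℤ) ^ j • H) (h2 : Φ (T g') F = F + (X : PowerSeries ℤ) ^ k • H')
    (h3 : Φ (T g') H = H + (X : PowerSeries ℤ) ^ k • H'') (h4 : Φ (T g) H' = H' + (X : PowerSeries ℤ) ^ j • L'') :
    Φ (T (cm g g')) F = F + (X : PowerSeries ℤ) ^ (j + k) • Φ (T (g' * g)⁻¹) (H'' - L'') := by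
  have e1 : cm g g' = (g * g') * (g' * g)⁻¹ := by
    unfold cm
    group
  have e2 : Φ (T (g * g')) F = Φ (T (g' * g)) F + (X : PowerSeries ℤ) ^ (j + k) • (H'' - L'') := by
    rw [hΦ.T_mul, hΦ.T_mul, h1, h2, hΦ.add, hΦ.add, hΦ.smul, hΦ.smul, h1, h2, h3, h4, pow_add]
    ext1 s
    simp only [Pi.add_apply, Pi.smul_apply, Pi.sub_apply, smul_eq_mul]
    ring
  rw [e1, hΦ.T_mul, e2, hΦ.add, hΦ.smul, hΦ.T_inv]

theorem VV.comm {j k : ℕ} {g g' : Br} (h : VV Φ j (T g)) (h' : VV Φ k (T g')) : VV Φ (j + k) (T (cm g g')) := by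
  intro F
  obtain ⟨H, h1⟩ := h F
  obtain ⟨H', h2⟩ := h' F
  obtain ⟨H'', h3⟩ := h' H
  obtain ⟨L'', h4⟩ := h H'
  exact ⟨_, comm_aux hΦ h1 h2 h3 h4⟩

theorem Sym.comm {j k : ℕ} (hj : 1 ≤ j) (hk : 1 ≤ k) {g g' : Br} {D D' : ((ℕ → Sta) → ℤ) → ((ℕ → Sta) → ℤ)}
    (h : Sym Φ j (T g) D) (h' : Sym Φ k (T g') D') : Sym Φ (j + k) (T (cm g g')) (fun f => D' (D f) - D (D' f)) := by
  intro F
  obtain ⟨H, h1, e1⟩ := h F
  obtain ⟨H', h2, e2⟩ := h' F
  obtain ⟨H'', h3, e3⟩ := h' H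
  obtain ⟨L'', h4, e4⟩ := h H'
  refine ⟨_, comm_aux hΦ h1 h2 h3 h4, ?_⟩
  have h5 : ∀ W, c0 (Φ (T (g' * g)⁻¹) W) = c0 W := by
    intro W
    have h6 : c0 (Φ (T (g' * g)) (Φ (T (g' * g)⁻¹) W)) = c0 (Φ (T (g' * g)⁻¹) W) := by
      rw [hΦ.T_mul, h.vv.c0 hj, h'.vv.c0 hk]
    rw [hΦ.T_inv'] at h6
    exact h6.symm
  rw [h5, c0_sub, e3, e4, e1, e2]

/-! ### braids at X = 0 -/

theorem VV.conj_aux {k : ℕ} {c g : Br} {F H : Fn} (h : Φ (T g) (Φ (T c) F) = Φ (T c) F + (X : PowerSeries ℤ) ^ k • H) :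
    Φ (T (c * g * c⁻¹)) F = F + (X : PowerSeries ℤ) ^ k • Φ (T c⁻¹) H := by
  rw [hΦ.T_mul, hΦ.T_mul, h, hΦ.add, hΦ.smul, hΦ.T_inv]

end act

/-! ### the crossing modulo X^2 -/

/-- k1, k2 at X = 0 -/
def j0 : Bool → Bool → Bool → Bool → ℤ := fun a b c d => if c = b ∧ d = a then 1 else 0

/-- coefficient of X in k1 -/
def j1 : Bool → Bool → Bool → Bool → ℤ
  | false, false, false, false => 1
  | true, true, true, true => 1
  | false, true, true, false => -1
  | true, false, false, true => -1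
  | true, false, true, false => 4
  | _, _, _, _ => 0

/-- coefficient of X in k2 -/
def j2 : Bool → Bool → Bool → Bool → ℤ
  | false, false, false, false => -1
  | true, true, true, true => -1
  | false, true, false, true => -4
  | false, true, true, false => 1
  | true, false, false, true => 1
  | _, _, _, _ => 0

/-- the crossing at X = 0 -/
def r0 : Sta → Sta → Sta → Sta → ℤ := fun x y z w => if z = y ∧ w = x then 1 else 0

/-- coefficient of X in the crossing -/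
def r1 : Sta → Sta → Sta → Sta → ℤ
  | some p, some q, some u, some v =>
    j0 p.1 q.1 u.1 v.1 * j2 p.2 q.2 u.2 v.2 + j1 p.1 q.1 u.1 v.1 * j0 p.2 q.2 u.2 v.2
  | _, _, _, _ => 0

def cap0 : Sta → Sta → ℤ
  | none, none => 1
  | some p, some q => (if p.1 = q.1 then 0 else if p.1 = true then 1 else -1) *
      (if p.2 = q.2 then 0 else if p.2 = true then 1 else -1)
  | _, _ => 0

def cup0 : Sta → Sta → ℤ
  | none, none => 1
  | some p, some q => (if p.1 = q.1 then 0 else if p.1 = true then -1 else 1) *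
      (if p.2 = q.2 then 0 else if p.2 = true then -1 else 1)
  | _, _ => 0

section coeffs

variable {A A' : PowerSeries ℤ}

theorem coeff_one_mul (a b : PowerSeries ℤ) :
    coeff 1 (a * b) = constantCoeff a * coeff 1 b + coeff 1 a * constantCoeff b := by
  rw [coeff_mul, Finset.Nat.antidiagonal_succ]
  simp

theorem A_c0 (hA : A = 1 + X) : constantCoeff A = 1 := by
  rw [hA]
  simp

theorem A_c1 (hA : A = 1 + X) : coeff 1 A = 1 := by
  rw [hA, map_add, coeff_one_X, coeff_one]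
  simp

theorem A'_c0 (hA : A = 1 + X) (h : A * A' = 1) : constantCoeff A' = 1 := by
  have h1 := congrArg constantCoeff h
  rw [map_mul, A_c0 hA, one_mul, map_one] at h1
  exact h1

theorem A'_c1 (hA : A = 1 + X) (h : A * A' = 1) : coeff 1 A' = -1 := by
  have h1 := congrArg (coeff 1) h
  rw [coeff_one_mul, A_c0 hA, A_c1 hA, A'_c0 hA h, coeff_one] at h1
  simp at h1
  omega

theorem k1_c0 (hA : A = 1 + X) (h : A * A' = 1) (a b c d : Bool) : constantCoeff (k1 A A' a b c d) = j0 a b c d := by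
  cases a <;> cases b <;> cases c <;> cases d <;> simp [k1, j0, A_c0 hA, A'_c0 hA h]

theorem k2_c0 (hA : A = 1 + X) (h : A * A' = 1) (a b c d : Bool) : constantCoeff (k2 A A' a b c d) = j0 a b c d := by
  cases a <;> cases b <;> cases c <;> cases d <;> simp [k2, j0, A_c0 hA, A'_c0 hA h]

theorem pow3_c1 (a : PowerSeries ℤ) (ha : constantCoeff a = 1) : coeff 1 (a ^ 3) = 3 * coeff 1 a := by
  rw [pow_succ, pow_two, coeff_one_mul, coeff_one_mul, map_mul, ha]
  ring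

theorem k1_c1 (hA : A = 1 + X) (h : A * A' = 1) (a b c d : Bool) : coeff 1 (k1 A A' a b c d) = j1 a b c d := by
  cases a <;> cases b <;> cases c <;> cases d <;>
    simp [k1, j1, A_c1 hA, A'_c1 hA h, pow3_c1 A' (A'_c0 hA h), map_sub]

theorem k2_c1 (hA : A = 1 + X) (h : A * A' = 1) (a b c d : Bool) : coeff 1 (k2 A A' a b c d) = j2 a b c d := by
  cases a <;> cases b <;> cases c <;> cases d <;>
    simp [k2, j2, A_c1 hA, A'_c1 hA h, pow3_c1 A (A_c0 hA), map_sub]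

theorem Rt_c0 (hA : A = 1 + X) (h : A * A' = 1) : ∀ x y z w : Sta, constantCoeff (Rt A A' x y z w) = r0 x y z w
  | some (a, a'), some (b, b'), some (c, c'), some (d, d') => by
    simp only [Rt]
    rw [map_mul, k1_c0 hA h, k2_c0 hA h]
    revert a a' b b' c c' d d'
    decide
  | some p, some q, none, w => by
    simp [Rt, r0]
  | some p, some q, some u, none => by
    simp [Rt, r0]
  | none, none, z, w => by
    simp only [Rt, r0]
    split_ifs <;> simp
  | none, some q, z, w => by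
    simp only [Rt, r0]
    split_ifs <;> simp
  | some p, none, z, w => by
    simp only [Rt, r0]
    split_ifs <;> simp

theorem Rt_c1 (hA : A = 1 + X) (h : A * A' = 1) : ∀ x y z w : Sta, coeff 1 (Rt A A' x y z w) = r1 x y z w
  | some (a, a'), some (b, b'), some (c, c'), some (d, d') => by
    simp only [Rt]
    rw [coeff_one_mul, k1_c0 hA h, k2_c0 hA h, k1_c1 hA h, k2_c1 hA h]
    rfl
  | some p, some q, none, w => by
    simp [Rt, r1]
  | some p, some q, some u, none => by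
    simp [Rt, r1]
  | none, none, z, w => by
    simp only [Rt, r1]
    split_ifs <;> simp [coeff_one]
  | none, some q, z, w => by
    simp only [Rt, r1]
    split_ifs <;> simp [coeff_one]
  | some p, none, z, w => by
    simp only [Rt, r1]
    split_ifs <;> simp [coeff_one]

end coeffs

end SLC
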