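import Pool.Agent.SLC.ActVal

/-!
Values of the state sums at the generators.
-/

set_option autoImplicit false

open PowerSeries

namespace SLC

/-! ### finite sums over the states -/

theorem sum_r0 (x y : Sta) (f : Sta → Sta → ℤ) : ∑ z, ∑ w, r0 x y z w * f z w = f y x := by
  rw [Finset.sum_eq_single y, Finset.sum_eq_single x]
  · simp [r0]
  · intro w _ hw
    simp [r0, hw]
  · simp
  · intro z _ hz
    refine Finset.sum_eq_zero fun w _ => ?_
    simp [r0, hz]
  · simp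

theorem upd2_swap (i : ℕ) (s : ℕ → Sta) : upd2 i s (s (i + 1)) (s i) = fun x => s (Equiv.swap i (i + 1) x) := by
  ext1 x
  unfold upd2
  split_ifs with h1 h2
  · rw [h1, Equiv.swap_apply_left]
  · rw [h2, Equiv.swap_apply_right]
  · rw [Equiv.swap_apply_of_ne_of_ne h1 h2]

section act

variable {A A' : PowerSeries ℤ} {Φ : Tangle → Fn → Fn} (hΦ : IsAct A A' Φ) (hA : A = 1 + X) (h : A * A' = 1)

include hΦ hA h

theorem c0_σ (i : ℕ) (F : Fn) (s : ℕ → Sta) : c0 (Φ (T (σ i)) F) s = c0 F (fun x => s (Equiv.swap i (i + 1) x)) := by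
  rw [T_σ, c0, hΦ.Ts, map_sum]
  have e : ∀ z, constantCoeff (∑ w, Rt A A' (s i) (s (i + 1)) z w * F (upd2 i s z w)) =
      ∑ w, r0 (s i) (s (i + 1)) z w * constantCoeff (F (upd2 i s z w)) := by
    intro z
    rw [map_sum]
    refine Finset.sum_congr rfl fun w _ => ?_
    rw [map_mul, Rt_c0 hA h]
  simp_rw [e]
  rw [sum_r0 (s i) (s (i + 1)) (fun z w => constantCoeff (F (upd2 i s z w))), upd2_swap]
  rfl

/-- at X = 0 the braids permute the sites -/
theorem c0_T (g : Br) : ∀ (F : Fn) (s : ℕ → Sta), c0 (Φ (T g) F) s = c0 F (fun x => s ((perm g)⁻¹ x)) := by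
  have hg : g ∈ Subgroup.closure (Set.range (PresentedGroup.of (rels := braidRels))) := by
    rw [PresentedGroup.closure_range_of]
    exact Subgroup.mem_top g
  induction hg using Subgroup.closure_induction with
  | mem x hx =>
    obtain ⟨i, rfl⟩ := hx
    intro F s
    change c0 (Φ (T (σ i)) F) s = c0 F (fun x => s ((perm (σ i))⁻¹ x))
    rw [perm_σ, Equiv.swap_inv]
    exact c0_σ hΦ hA h i F s
  | one =>
    intro F s
    rw [T_one, hΦ.one, map_one]
    rfl
  | mul x y _ _ hx hy =>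
    intro F s
    rw [hΦ.T_mul, hy, hx, map_mul, mul_inv_rev]
    rfl
  | inv x _ hx =>
    intro F s
    have h1 := hx (Φ (T x⁻¹) F) (fun y => s (perm x y))
    rw [hΦ.T_inv'] at h1
    have e : (fun y => (fun y => s (perm x y)) ((perm x)⁻¹ y)) = s := by
      ext1 y
      exact congrArg s ((perm x).apply_symm_apply y)
    rw [e] at h1
    rw [← h1, map_inv, inv_inv]

theorem VV_PN {n : ℕ} {g : Br} (hg : g ∈ PN n) : VV Φ 1 (T g) := by
  intro F
  have h1 : ∀ s, ∃ b : PowerSeries ℤ, Φ (T g) F s = F s + X * b := by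
    intro s
    have h2 := c0_T hΦ hA h g F s
    have h3 : perm g = 1 := (Subgroup.mem_inf.1 hg).2
    rw [h3] at h2
    have h4 : constantCoeff (Φ (T g) F s - F s) = 0 := by
      rw [map_sub, sub_eq_zero]
      exact h2
    obtain ⟨b, hb⟩ := X_dvd_iff.2 h4
    exact ⟨b, by rw [← hb]; ring⟩
  choose H hH using h1
  refine ⟨H, ?_⟩
  ext1 s
  rw [hH, pow_one]
  rfl

theorem VV_Gam {n : ℕ} (k : ℕ) (hk : 1 ≤ k) : ∀ g ∈ Gam k n, VV Φ k (T g) := by
  induction k, hk using Nat.le_induction with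
  | base => exact fun g hg => VV_PN hΦ hA h hg
  | succ k hk ih =>
    let S : Subgroup Br :=
      { carrier := {g | VV Φ (k + 1) (T g)}
        mul_mem' := fun {a b} ha hb => by
          change VV Φ (k + 1) (T (a * b))
          rw [SLC.T_mul]
          exact VV.mul hΦ ha hb
        one_mem' := by
          change VV Φ (k + 1) (T 1)
          rw [T_one]
          exact VV.one hΦ
        inv_mem' := fun {a} ha => VV.inv hΦ ha }
    have h1 : Gam (k + 1) n ≤ S := by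
      rw [Gam_succ hk, Subgroup.commutator_le]
      intro a ha b hb
      exact VV.comm hΦ (ih a ha) (VV_PN hΦ hA h hb)
    exact fun g hg => h1 hg

omit hA h

/-- conjugation of the expansion -/
theorem Sym.conj (hA : A = 1 + X) (h : A * A' = 1) {k : ℕ} {g : Br} {D : ((ℕ → Sta) → ℤ) → ((ℕ → Sta) → ℤ)}
    (hD : Sym Φ k (T g) D) (c : Br) : Sym Φ k (T (c * g * c⁻¹))
      (fun f s => D (fun t => f (fun x => t ((perm c)⁻¹ x))) (fun x => s (perm c x))) := by
  intro F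
  obtain ⟨H, h1, h2⟩ := hD (Φ (T c) F)
  refine ⟨_, VV.conj_aux hΦ h1, ?_⟩
  ext1 s
  rw [c0_T hΦ hA h, h2, map_inv, inv_inv]
  congr 1
  ext1 t
  exact c0_T hΦ hA h c F t

end act

/-! ### the pure crossing -/

def dd (x y z w : Sta) : ℤ := r1 x y w z + r1 y x z w

theorem dd_none_left (y z w : Sta) : dd none y z w = 0 := by
  revert y z w
  decide

theorem dd_none_right (y z w : Sta) : dd y none z w = 0 := by
  revert y z w
  decide

/-- replace the states of two sites -/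
def up2 (i j : ℕ) (s : ℕ → Sta) (z w : Sta) : ℕ → Sta := fun k => if k = i then z else if k = j then w else s k

/-- replace the states of three sites -/
def up3 (i j l : ℕ) (s : ℕ → Sta) (u v w : Sta) : ℕ → Sta :=
  fun k => if k = i then u else if k = j then v else if k = l then w else s k

def L1 (f : Sta → Sta → ℤ) (x y : Sta) : ℤ := ∑ z, ∑ w, dd x y z w * f z w

def L01 (f : Sta → Sta → Sta → ℤ) (x y t : Sta) : ℤ := ∑ z, ∑ w, dd x y z w * f z w t

def L12 (f : Sta → Sta → Sta → ℤ) (x y t : Sta) : ℤ := ∑ z, ∑ w, dd y t z w * f x z w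

def Lc (f : Sta → Sta → Sta → ℤ) (x y t : Sta) : ℤ := L12 (L01 f) x y t - L01 (L12 f) x y t

theorem Lc_none0 (f : Sta → Sta → Sta → ℤ) (y t : Sta) : Lc f none y t = 0 := by
  simp [Lc, L12, L01, dd_none_left]

theorem Lc_none1 (f : Sta → Sta → Sta → ℤ) (x t : Sta) : Lc f x none t = 0 := by
  simp [Lc, L12, L01, dd_none_left, dd_none_right]

theorem Lc_none2 (f : Sta → Sta → Sta → ℤ) (x y : Sta) : Lc f x y none = 0 := by
  simp [Lc, L12, L01, dd_none_right]

section act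

variable {A A' : PowerSeries ℤ} {Φ : Tangle → Fn → Fn} (hΦ : IsAct A A' Φ) (hA : A = 1 + X) (h : A * A' = 1)

include hΦ hA h

theorem c1_σ (i : ℕ) (F : Fn) (s : ℕ → Sta) : coeff 1 (Φ (T (σ i)) F s) =
    coeff 1 (F (upd2 i s (s (i + 1)) (s i))) + ∑ z, ∑ w, r1 (s i) (s (i + 1)) z w * c0 F (upd2 i s z w) := by
  rw [T_σ, hΦ.Ts, map_sum]
  have e : ∀ z, coeff 1 (∑ w, Rt A A' (s i) (s (i + 1)) z w * F (upd2 i s z w)) =
      ∑ w, r0 (s i) (s (i + 1)) z w * coeff 1 (F (upd2 i s z w)) +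
      ∑ w, r1 (s i) (s (i + 1)) z w * c0 F (upd2 i s z w) := by
    intro z
    rw [map_sum, ← Finset.sum_add_distrib]
    refine Finset.sum_congr rfl fun w _ => ?_
    rw [coeff_one_mul, Rt_c0 hA h, Rt_c1 hA h]
    rfl
  simp_rw [e]
  rw [Finset.sum_add_distrib, sum_r0 (s i) (s (i + 1)) (fun z w => coeff 1 (F (upd2 i s z w)))]

omit hΦ hA h in
theorem upd2_at (i : ℕ) (s : ℕ → Sta) (z w : Sta) : upd2 i s z w i = z ∧ upd2 i s z w (i + 1) = w := by
  simp [upd2]

omit hΦ hA h in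
theorem upd2_twice (i : ℕ) (s : ℕ → Sta) (z w u v : Sta) : upd2 i (upd2 i s u v) z w = upd2 i s z w := by
  ext1 k
  unfold upd2
  split_ifs <;> rfl

omit hΦ hA h in
theorem upd2_eqs (i : ℕ) (s : ℕ → Sta) : upd2 i s (s i) (s (i + 1)) = s := by
  ext1 k
  unfold upd2
  split_ifs with h1 h2
  · rw [h1]
  · rw [h2]
  · rfl

theorem Sym_sq (i : ℕ) : Sym Φ 1 (T (σ i ^ 2)) (fun f s => L1 (fun z w => f (upd2 i s z w)) (s i) (s (i + 1))) := by
  intro F
  have hs : σ i ^ 2 ∈ PN (i + 2) := sq_mem_PN (by omega)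
  obtain ⟨H, hH⟩ := VV_PN hΦ hA h hs F
  refine ⟨H, hH, ?_⟩
  ext1 s
  have h1 := congrArg (coeff 1) (congrFun hH s)
  have h2 := coeff_X_smul 1 H s
  rw [Pi.add_apply, map_add, h2] at h1
  have h3 : coeff 1 (Φ (T (σ i ^ 2)) F s) = coeff 1 (F s) +
      L1 (fun z w => c0 F (upd2 i s z w)) (s i) (s (i + 1)) := by
    have h4 : ∀ z w, c0 (Φ (T (σ i)) F) (upd2 i s z w) = c0 F (upd2 i s w z) := by
      intro z w
      rw [c0_σ hΦ hA h, ← upd2_swap, (upd2_at i s z w).1, (upd2_at i s z w).2, upd2_twice]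
    rw [pow_two, hΦ.T_mul, c1_σ hΦ hA h, c1_σ hΦ hA h, (upd2_at i s _ _).1, (upd2_at i s _ _).2, upd2_twice, upd2_eqs]
    simp_rw [h4, upd2_twice, L1, dd, add_mul, Finset.sum_add_distrib]
    rw [Finset.sum_comm (f := fun z w => r1 (s i) (s (i + 1)) z w * c0 F (upd2 i s w z))]
    ring
  linarith

theorem Sym_GT {c : Br} {i j : ℕ} (hi : perm c 0 = i) (hj : perm c 1 = j) : Sym Φ 1 (T (c * σ 0 ^ 2 * c⁻¹))
    (fun f s => L1 (fun z w => f (up2 i j s z w)) (s i) (s j)) := by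
  have h1 := (Sym_sq hΦ hA h 0).conj hΦ hA h c
  have e : ∀ s z w, (fun x => upd2 0 (fun x => s (perm c x)) z w ((perm c)⁻¹ x)) = up2 i j s z w := by
    intro s z w
    ext1 x
    unfold upd2 up2
    have e0 : (perm c)⁻¹ x = 0 ↔ x = i := by
      rw [Equiv.Perm.inv_eq_iff_eq, hi]
    have e1 : (perm c)⁻¹ x = 0 + 1 ↔ x = j := by
      rw [Equiv.Perm.inv_eq_iff_eq, Nat.zero_add, hj]
    have e2 : perm c ((perm c)⁻¹ x) = x := (perm c).apply_symm_apply x
    simp only [e0, e1, e2]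
  simp only [e, hi, Nat.zero_add, hj] at h1
  exact h1

theorem Sym_cc2 : Sym Φ 2 (T cc2)
    (fun f s => Lc (fun x y t => f (up3 0 1 2 s x y t)) (s 0) (s 1) (s 2)) := by
  have h1 := Sym.comm hΦ le_rfl le_rfl (Sym_sq hΦ hA h 0) (Sym_sq hΦ hA h 1)
  have e : ∀ (f : (ℕ → Sta) → ℤ) (s : ℕ → Sta),
      L1 (fun z w => L1 (fun u v => f (upd2 0 (upd2 1 s z w) u v)) (upd2 1 s z w 0) (upd2 1 s z w (0 + 1)))
        (s 1) (s (1 + 1)) -
      L1 (fun z w => L1 (fun u v => f (upd2 1 (upd2 0 s z w) u v)) (upd2 0 s z w 1) (upd2 0 s z w (1 + 1)))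
        (s 0) (s (0 + 1)) = Lc (fun x y t => f (up3 0 1 2 s x y t)) (s 0) (s 1) (s 2) := by
    intro f s
    have e1 : ∀ z w u v, upd2 0 (upd2 1 s z w) u v = up3 0 1 2 s u v w := by
      intro z w u v
      ext1 k
      unfold upd2 up3
      split_ifs <;> rfl
    have e2 : ∀ z w u v, upd2 1 (upd2 0 s z w) u v = up3 0 1 2 s z u v := by
      intro z w u v
      ext1 k
      unfold upd2 up3
      split_ifs <;> first | rfl | omega
    simp only [e1, e2]
    rfl
  intro F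
  obtain ⟨H, h2, h3⟩ := h1 F
  refine ⟨H, h2, ?_⟩
  rw [h3]
  ext1 s
  exact e (c0 F) s

theorem Sym_cc {c : Br} {i j l : ℕ} (hi : perm c 0 = i) (hj : perm c 1 = j) (hl : perm c 2 = l) :
    Sym Φ 2 (T (c * cc2 * c⁻¹)) (fun f s => Lc (fun x y t => f (up3 i j l s x y t)) (s i) (s j) (s l)) := by
  have h1 := (Sym_cc2 hΦ hA h).conj hΦ hA h c
  have e : ∀ s x y t, (fun k => up3 0 1 2 (fun k => s (perm c k)) x y t ((perm c)⁻¹ k)) = up3 i j l s x y t := by
    intro s x y t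
    ext1 k
    unfold up3
    have e0 : (perm c)⁻¹ k = 0 ↔ k = i := by
      rw [Equiv.Perm.inv_eq_iff_eq, hi]
    have e1 : (perm c)⁻¹ k = 1 ↔ k = j := by
      rw [Equiv.Perm.inv_eq_iff_eq, hj]
    have e2 : (perm c)⁻¹ k = 2 ↔ k = l := by
      rw [Equiv.Perm.inv_eq_iff_eq, hl]
    have e3 : perm c ((perm c)⁻¹ k) = k := (perm c).apply_symm_apply k
    simp only [e0, e1, e2, e3]
  simp only [e, hi, hj, hl] at h1
  exact h1

end act

end SLC
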