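import Pool.Agent.SLC.ActVal2

/-!
Invariants of string links which separate the generators in the degrees 1 and 2.
-/

set_option autoImplicit false

open PowerSeries

namespace SLC

theorem capt_c0 {A : PowerSeries ℤ} (hA : A = 1 + X) : ∀ x y : Sta,
    constantCoeff (capt A x y) = cap0 x y
  | none, none => by simp [capt, cap0]
  | none, some _ => by simp [capt, cap0]
  | some _, none => by simp [capt, cap0]
  | some (a, a'), some (b, b') => by
    cases a <;> cases a' <;> cases b <;> cases b' <;> simp [capt, cap0, cap1, A_c0 hA]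

theorem cupt_c0 {A A' : PowerSeries ℤ} (hA : A = 1 + X) (h : A * A' = 1) : ∀ x y : Sta,
    constantCoeff (cupt A' x y) = cup0 x y
  | none, none => by simp [cupt, cup0]
  | none, some _ => by simp [cupt, cup0]
  | some _, none => by simp [cupt, cup0]
  | some (a, a'), some (b, b') => by
    cases a <;> cases a' <;> cases b <;> cases b' <;> simp [cupt, cup0, cup1, A'_c0 hA h]

/-- the indicator function of a state -/
noncomputable def indf (s : ℕ → Sta) : Fn := by
  classical
  exact fun t => if t = s then 1 else 0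

theorem coeff_indf {k : ℕ} (hk : 1 ≤ k) (s t : ℕ → Sta) : coeff k (indf s t) = 0 := by
  unfold indf
  split_ifs
  · rw [coeff_one, if_neg (by omega)]
  · simp

theorem c0_indf_self (s : ℕ → Sta) : c0 (indf s) s = 1 := by
  simp [c0, indf]

theorem c0_indf_ne {s t : ℕ → Sta} (h : t ≠ s) : c0 (indf s) t = 0 := by
  simp [c0, indf, h]

section act

variable {A A' : PowerSeries ℤ} {Φ : Tangle → Fn → Fn} (hΦ : IsAct A A' Φ)

/-- matrix coefficients of the state sums -/
noncomputable def lam (Φ : Tangle → Fn → Fn) (k : ℕ) (s s' : ℕ → Sta) (x : Tangle) : ℤ := coeff k (Φ x (indf s') s)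

theorem lam_Sym {k : ℕ} (hk : 1 ≤ k) {x : Tangle} {D : ((ℕ → Sta) → ℤ) → ((ℕ → Sta) → ℤ)} (hD : Sym Φ k x D)
    (s s' : ℕ → Sta) : lam Φ k s s' x = D (c0 (indf s')) s := by
  obtain ⟨H, h1, h2⟩ := hD (indf s')
  rw [lam, h1, Pi.add_apply, map_add, coeff_X_smul, coeff_indf hk, h2, zero_add]

/-- equality modulo X^k -/
def EqX (k : ℕ) (F G : Fn) : Prop := ∃ H : Fn, G = F + (X : PowerSeries ℤ) ^ k • H

theorem EqX.refl {k : ℕ} (F : Fn) : EqX k F F := ⟨0, by rw [smul_zero, add_zero]⟩

theorem EqX.symm {k : ℕ} {F G : Fn} (h : EqX k F G) : EqX k G F := by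
  obtain ⟨H, rfl⟩ := h
  exact ⟨-H, by rw [smul_neg, add_neg_cancel_right]⟩

theorem EqX.trans {k : ℕ} {F G L : Fn} (h : EqX k F G) (h' : EqX k G L) : EqX k F L := by
  obtain ⟨H, rfl⟩ := h
  obtain ⟨H', rfl⟩ := h'
  exact ⟨H + H', by rw [smul_add, add_assoc]⟩

theorem EqX.coeff {k : ℕ} {F G : Fn} (h : EqX (k + 1) F G) (s : ℕ → Sta) :
    PowerSeries.coeff k (F s) = PowerSeries.coeff k (G s) := by
  obtain ⟨H, rfl⟩ := h
  rw [Pi.add_apply, map_add, Pi.smul_apply, smul_eq_mul, coeff_X_pow_mul', if_neg (by omega), add_zero]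

include hΦ

theorem EqX.act {k : ℕ} {F G : Fn} (h : EqX k F G) (x : Tangle) : EqX k (Φ x F) (Φ x G) := by
  obtain ⟨H, rfl⟩ := h
  exact ⟨Φ x H, by rw [hΦ.add, hΦ.smul]⟩

theorem EqX_CEquiv (hA : A = 1 + X) (h : A * A' = 1) {m k : ℕ} (hk : 1 ≤ k) {x y : Tangle} (hxy : CEquiv m k x y)
    (F : Fn) : EqX k (Φ x F) (Φ y F) := by
  induction hxy with
  | rel x y hxy =>
    obtain ⟨r, -, g, -, γ, hγ, rfl, rfl⟩ := hxy
    have h1 := VV_Gam hΦ hA h k hk γ hγ (Φ (T g) (Φ (caps 0 r) F))
    have h2 : EqX k (Φ (T g) (Φ (caps 0 r) F)) (Φ (T γ) (Φ (T g) (Φ (caps 0 r) F))) := h1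
    have h3 := h2.act hΦ (cups 0 r)
    change EqX k (Φ (caps 0 r * T g * cups 0 r) F) (Φ (caps 0 r * T (g * γ) * cups 0 r) F)
    rw [SLC.T_mul, ← mul_assoc, hΦ.mul, hΦ.mul, hΦ.mul, hΦ.mul, hΦ.mul]
    exact h3
  | refl x => exact EqX.refl _
  | symm x y _ ih => exact ih.symm
  | trans x y z _ _ ih1 ih2 => exact ih1.trans ih2

theorem lam_inv (hA : A = 1 + X) (h : A * A' = 1) (m k : ℕ) (s s' : ℕ → Sta) (x y : Tangle)
    (hxy : CEquiv m (k + 1) x y) : lam Φ k s s' x = lam Φ k s s' y :=
  (EqX_CEquiv hΦ hA h (by omega) hxy (indf s')).coeff s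

theorem lam_add (hA : A = 1 + X) (h : A * A' = 1) (m : ℕ) {k : ℕ} (hk : 1 ≤ k) (s s' : ℕ → Sta) (x y : Tangle)
    (hx : CEquiv m k x 1) (hy : CEquiv m k y 1) : lam Φ k s s' (x * y) = lam Φ k s s' x + lam Φ k s s' y := by
  obtain ⟨H, h1⟩ := (EqX_CEquiv hΦ hA h hk hx (indf s')).symm
  obtain ⟨H', h2⟩ := (EqX_CEquiv hΦ hA h hk hy (indf s')).symm
  obtain ⟨H'', h3⟩ := (EqX_CEquiv hΦ hA h hk hy H).symm
  rw [hΦ.one] at h1 h2 h3
  have e1 : lam Φ k s s' x = c0 H s := by
    rw [lam, h1, Pi.add_apply, map_add, coeff_X_smul, coeff_indf hk, zero_add]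
  have e2 : lam Φ k s s' y = c0 H' s := by
    rw [lam, h2, Pi.add_apply, map_add, coeff_X_smul, coeff_indf hk, zero_add]
  have e3 : c0 (Φ y H) = c0 H := by
    rw [h3, c0_add, c0_X_smul hk, add_zero]
  rw [lam, hΦ.mul, h1, hΦ.add, hΦ.smul, h2, Pi.add_apply, Pi.add_apply, map_add, map_add, coeff_X_smul, coeff_X_smul,
    coeff_indf hk, e1, e2, e3]
  ring

theorem c0_C (hA : A = 1 + X) (i : ℕ) (F : Fn) (s : ℕ → Sta) :
    c0 (Φ (C i) F) s = cap0 (s i) (s (i + 1)) * c0 F (del2 i s) := by
  rw [c0, hΦ.C, map_mul, capt_c0 hA]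
  rfl

theorem c0_U (hA : A = 1 + X) (h : A * A' = 1) (i : ℕ) (F : Fn) (s : ℕ → Sta) :
    c0 (Φ (U i) F) s = ∑ z, ∑ w, cup0 z w * c0 F (ins2 i s z w) := by
  rw [c0, hΦ.U, map_sum]
  refine Finset.sum_congr rfl fun z _ => ?_
  rw [map_sum]
  refine Finset.sum_congr rfl fun w _ => ?_
  rw [map_mul, cupt_c0 hA h]
  rfl

/-- closures -/
theorem Sym_clo (hA : A = 1 + X) (h : A * A' = 1) {k i : ℕ} {γ : Br} {D : ((ℕ → Sta) → ℤ) → ((ℕ → Sta) → ℤ)}
    (hD : Sym Φ k (T γ) D) : Sym Φ k (C i * T γ * U (i + 1)) (fun f s => ∑ z, ∑ w, cup0 z w *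
      D (fun t => cap0 (t i) (t (i + 1)) * f (del2 i t)) (ins2 (i + 1) s z w)) := by
  intro F
  obtain ⟨H, h1, h2⟩ := hD (Φ (C i) F)
  refine ⟨Φ (U (i + 1)) H, ?_, ?_⟩
  · rw [hΦ.mul, hΦ.mul, h1, hΦ.add, hΦ.smul, ← hΦ.mul, zig, hΦ.one]
  · ext1 s
    rw [c0_U hΦ hA h, h2]
    have e : c0 (Φ (C i) F) = fun t => cap0 (t i) (t (i + 1)) * c0 F (del2 i t) := by
      ext1 t
      exact c0_C hΦ hA i F t
    rw [e]

end act

/-! ### values -/

/-- the spins -/
def q00 : Sta := some (false, false)
def q10 : Sta := some (true, false)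

theorem val_GT : dd q00 q10 q00 q10 = -4 := by
  decide +kernel

theorem val_GE : Lc (fun u v w => if u = q10 ∧ v = q00 ∧ w = q00 then 1 else 0) q00 q00 q10 ≠ 0 := by
  decide +kernel

theorem val_GC : ∑ z, ∑ w, cup0 z w * Lc (fun u v q => cap0 u v * (if q = q00 then 1 else 0)) q00 z w ≠ 0 := by
  decide +kernel

theorem val_GD : ∑ z, ∑ w, cup0 z w * Lc (fun u v q => cap0 u v * (if w = q00 ∧ q = q00 then 1 else 0)) q00 z q00 ≠ 0 := by
  decide +kernel

theorem val_GT' : L1 (fun z w => if z = q00 ∧ w = q10 then 1 else 0) q00 q10 ≠ 0 := by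
  decide +kernel

theorem L1_none0 (f : Sta → Sta → ℤ) (y : Sta) : L1 f none y = 0 := by
  simp [L1, dd_none_left]

theorem L1_none1 (f : Sta → Sta → ℤ) (x : Sta) : L1 f x none = 0 := by
  simp [L1, dd_none_right]

theorem c0_indf_iff {s t : ℕ → Sta} {p : Prop} [Decidable p] (h : t = s ↔ p) : c0 (indf s) t = if p then 1 else 0 := by
  by_cases hp : p
  · rw [if_pos hp, h.2 hp, c0_indf_self]
  · rw [if_neg hp, c0_indf_ne (fun e => hp (h.1 e))]

section act

variable {A A' : PowerSeries ℤ} {Φ : Tangle → Fn → Fn} (hΦ : IsAct A A' Φ) (hA : A = 1 + X) (h : A * A' = 1)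

include hΦ hA h

theorem lam_GT {m i j : ℕ} {x : Tangle} (hx : GT m i j x) (s s' : ℕ → Sta) :
    lam Φ 1 s s' x = L1 (fun z w => c0 (indf s') (up2 i j s z w)) (s i) (s j) := by
  obtain ⟨c, -, hi, hj, rfl⟩ := hx
  exact lam_Sym le_rfl (Sym_GT hΦ hA h hi hj) s s'

theorem lam_GE {m i j l : ℕ} {x : Tangle} (hx : GE m i j l x) (s s' : ℕ → Sta) :
    lam Φ 2 s s' x = Lc (fun u v w => c0 (indf s') (up3 i j l s u v w)) (s i) (s j) (s l) := by
  obtain ⟨c, -, hi, hj, hl, rfl⟩ := hx
  exact lam_Sym (by omega) (Sym_cc hΦ hA h hi hj hl) s s'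

theorem lam_clo {i l : ℕ} {c : Br} (hi : perm c 0 = i) (hj : perm c 1 = i + 1) (hl : perm c 2 = l) (s s' : ℕ → Sta) :
    lam Φ 2 s s' (C i * T (c * cc2 * c⁻¹) * U (i + 1)) = ∑ z, ∑ w, cup0 z w *
      Lc (fun u v q => cap0 u v * c0 (indf s') (del2 i (up3 i (i + 1) l (ins2 (i + 1) s z w) u v q)))
        (s i) z (ins2 (i + 1) s z w l) := by
  rw [lam_Sym (by omega) (Sym_clo hΦ hA h (Sym_cc hΦ hA h hi hj hl)) s s']
  refine Finset.sum_congr rfl fun z _ => Finset.sum_congr rfl fun w _ => ?_
  have e1 : ins2 (i + 1) s z w i = s i := by simp [ins2]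
  have e2 : ins2 (i + 1) s z w (i + 1) = z := by simp [ins2]
  have e3 : ∀ t u v q, up3 i (i + 1) l t u v q i = u := by simp [up3]
  have e4 : ∀ t u v q, up3 i (i + 1) l t u v q (i + 1) = v := by simp [up3]
  simp only [e1, e2, e3, e4]

theorem lam_GC {m i : ℕ} {x : Tangle} (hx : GC m i x) (s s' : ℕ → Sta) :
    lam Φ 2 s s' x = ∑ z, ∑ w, cup0 z w *
      Lc (fun u v q => cap0 u v * c0 (indf s') (fun n => if n = i then q else s n)) (s i) z w := by
  obtain ⟨c, -, hi, hj, hl, rfl⟩ := hx
  rw [lam_clo hΦ hA h hi hj hl]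
  refine Finset.sum_congr rfl fun z _ => Finset.sum_congr rfl fun w _ => ?_
  have e1 : ins2 (i + 1) s z w (i + 2) = w := by simp [ins2]
  have e2 : ∀ u v q, del2 i (up3 i (i + 1) (i + 2) (ins2 (i + 1) s z w) u v q) = fun n => if n = i then q else s n := by
    intro u v q
    ext1 n
    unfold del2 up3 ins2
    by_cases h1 : n < i
    · rw [if_pos h1, if_neg (by omega), if_neg (by omega), if_neg (by omega), if_pos (by omega), if_neg (by omega)]
    · by_cases h2 : n = i
      · rw [if_neg h1, if_neg (by omega), if_neg (by omega), if_pos (by omega), if_pos h2]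
      · rw [if_neg h1, if_neg (by omega), if_neg (by omega), if_neg (by omega), if_neg (by omega), if_neg (by omega),
          if_neg (by omega), if_neg h2, Nat.add_sub_cancel]
  simp only [e1, e2]

theorem lam_GD {m i j : ℕ} (hij : i < j) {x : Tangle} (hx : GD m i j x) (s s' : ℕ → Sta) :
    lam Φ 2 s s' x = ∑ z, ∑ w, cup0 z w *
      Lc (fun u v q => cap0 u v * c0 (indf s') (fun n => if n = i then w else if n = j then q else s n)) (s i) z (s j) := by
  obtain ⟨c, -, hi, hj, hl, rfl⟩ := hx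
  rw [lam_clo hΦ hA h hi hj hl]
  refine Finset.sum_congr rfl fun z _ => Finset.sum_congr rfl fun w _ => ?_
  have e1 : ins2 (i + 1) s z w (j + 2) = s j := by
    unfold ins2
    rw [if_neg (by omega), if_neg (by omega), if_neg (by omega), Nat.add_sub_cancel]
  have e2 : ∀ u v q, del2 i (up3 i (i + 1) (j + 2) (ins2 (i + 1) s z w) u v q) =
      fun n => if n = i then w else if n = j then q else s n := by
    intro u v q
    ext1 n
    unfold del2 up3 ins2
    by_cases h1 : n < i
    · rw [if_pos h1, if_neg (by omega), if_neg (by omega), if_neg (by omega), if_pos (by omega), if_neg (by omega),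
        if_neg (by omega)]
    · by_cases h2 : n = i
      · rw [if_neg h1, if_neg (by omega), if_neg (by omega), if_neg (by omega), if_neg (by omega), if_neg (by omega),
          if_pos (by omega), if_pos h2]
      · by_cases h3 : n = j
        · rw [if_neg h1, if_neg (by omega), if_neg (by omega), if_pos (by omega), if_neg h2, if_pos h3]
        · rw [if_neg h1, if_neg (by omega), if_neg (by omega), if_neg (by omega), if_neg (by omega), if_neg (by omega),
            if_neg (by omega), if_neg h2, if_neg h3, Nat.add_sub_cancel]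
  simp only [e1, e2]

/-- an invariant of degree 1 which detects exactly the clasps of the components i, j -/
theorem inv1_aux {m i j : ℕ} (hij : i < j) : ∃ l : Tangle → ℤ, (∀ x y, CEquiv m 2 x y → l x = l y) ∧
    (∀ x y, CEquiv m 1 x 1 → CEquiv m 1 y 1 → l (x * y) = l x + l y) ∧ (∀ x, GT m i j x → l x ≠ 0) ∧
    ∀ i' j', i' < j' → ¬(i' = i ∧ j' = j) → ∀ x, GT m i' j' x → l x = 0 := by
  let s : ℕ → Sta := fun n => if n = i then q00 else if n = j then q10 else none
  have si : s i = q00 := if_pos rfl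
  have sj : s j = q10 := by
    change (if j = i then q00 else if j = j then q10 else none) = q10
    rw [if_neg (by omega), if_pos rfl]
  have s0 : ∀ n, n ≠ i → n ≠ j → s n = none := fun n h1 h2 => by
    change (if n = i then q00 else if n = j then q10 else none) = none
    rw [if_neg h1, if_neg h2]
  refine ⟨lam Φ 1 s s, lam_inv hΦ hA h m 1 s s, lam_add hΦ hA h m le_rfl s s, fun x hx => ?_,
    fun i' j' hij' hne x hx => ?_⟩
  · rw [lam_GT hΦ hA h hx, si, sj]
    have e : ∀ z w, c0 (indf s) (up2 i j s z w) = if z = q00 ∧ w = q10 then 1 else 0 := by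
      intro z w
      refine c0_indf_iff ⟨fun e => ?_, fun e => ?_⟩
      · have e1 := congrFun e i
        have e2 := congrFun e j
        rw [si, up2, if_pos rfl] at e1
        rw [sj, up2, if_neg (by omega), if_pos rfl] at e2
        exact ⟨e1, e2⟩
      · rw [e.1, e.2]
        ext1 n
        unfold up2
        split_ifs with h1 h2
        · rw [h1, si]
        · rw [h2, sj]
        · rfl
    simp only [e]
    exact val_GT'
  · rw [lam_GT hΦ hA h hx]
    by_cases h1 : i' = i ∨ i' = j
    · by_cases h2 : j' = i ∨ j' = j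
      · omega
      · rw [s0 j' (by omega) (by omega), L1_none1]
    · rw [s0 i' (by omega) (by omega), L1_none0]

/-- an invariant of degree 2 which detects exactly the trefoils in the component i -/
theorem inv2c_aux {m : ℕ} (i : ℕ) : ∃ l : Tangle → ℤ, (∀ x y, CEquiv m 3 x y → l x = l y) ∧
    (∀ x y, CEquiv m 2 x 1 → CEquiv m 2 y 1 → l (x * y) = l x + l y) ∧ (∀ x, GC m i x → l x ≠ 0) ∧
    (∀ j, j ≠ i → ∀ x, GC m j x → l x = 0) ∧ (∀ j k, j < k → ∀ x, GD m j k x → l x = 0) ∧
    ∀ j k n, j < k → k < n → ∀ x, GE m j k n x → l x = 0 := by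
  let s : ℕ → Sta := fun n => if n = i then q00 else none
  have si : s i = q00 := if_pos rfl
  have s0 : ∀ n, n ≠ i → s n = none := fun n h1 => if_neg h1
  refine ⟨lam Φ 2 s s, lam_inv hΦ hA h m 2 s s, lam_add hΦ hA h m (by omega) s s, fun x hx => ?_,
    fun j hj x hx => ?_, fun j k hjk x hx => ?_, fun j k n hjk hkn x hx => ?_⟩
  · rw [lam_GC hΦ hA h hx, si]
    have e : ∀ q, c0 (indf s) (fun n => if n = i then q else s n) = if q = q00 then 1 else 0 := by
      intro q
      refine c0_indf_iff ⟨fun e => ?_, fun e => ?_⟩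
      · have e1 := congrFun e i
        simp only [if_true] at e1
        rw [e1, si]
      · rw [e]
        ext1 n
        by_cases h1 : n = i
        · rw [if_pos h1, h1, si]
        · rw [if_neg h1]
    simp only [e]
    exact val_GC
  · rw [lam_GC hΦ hA h hx, s0 j hj]
    simp only [Lc_none0, mul_zero, Finset.sum_const_zero]
  · rw [lam_GD hΦ hA h hjk hx]
    by_cases h1 : j = i
    · rw [s0 k (by omega)]
      simp only [Lc_none2, mul_zero, Finset.sum_const_zero]
    · rw [s0 j h1]
      simp only [Lc_none0, mul_zero, Finset.sum_const_zero]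
  · rw [lam_GE hΦ hA h hx]
    by_cases h1 : j = i
    · rw [s0 k (by omega), Lc_none1]
    · rw [s0 j h1, Lc_none0]

/-- an invariant of degree 2 which detects exactly the Whitehead string links of the components i, j, up to trefoils -/
theorem inv2d_aux {m i j : ℕ} (hij : i < j) : ∃ l : Tangle → ℤ, (∀ x y, CEquiv m 3 x y → l x = l y) ∧
    (∀ x y, CEquiv m 2 x 1 → CEquiv m 2 y 1 → l (x * y) = l x + l y) ∧ (∀ x, GD m i j x → l x ≠ 0) ∧
    (∀ i' j', i' < j' → ¬(i' = i ∧ j' = j) → ∀ x, GD m i' j' x → l x = 0) ∧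
    ∀ i' j' k', i' < j' → j' < k' → ∀ x, GE m i' j' k' x → l x = 0 := by
  let s : ℕ → Sta := fun n => if n = i then q00 else if n = j then q00 else none
  have si : s i = q00 := if_pos rfl
  have sj : s j = q00 := by
    change (if j = i then q00 else if j = j then q00 else none) = q00
    rw [if_neg (by omega), if_pos rfl]
  have s0 : ∀ n, n ≠ i → n ≠ j → s n = none := fun n h1 h2 => by
    change (if n = i then q00 else if n = j then q00 else none) = none
    rw [if_neg h1, if_neg h2]
  refine ⟨lam Φ 2 s s, lam_inv hΦ hA h m 2 s s, lam_add hΦ hA h m (by omega) s s, fun x hx => ?_,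
    fun i' j' hij' hne x hx => ?_, fun i' j' k' hij' hjk' x hx => ?_⟩
  · rw [lam_GD hΦ hA h hij hx, si, sj]
    have e : ∀ w q, c0 (indf s) (fun n => if n = i then w else if n = j then q else s n) =
        if w = q00 ∧ q = q00 then 1 else 0 := by
      intro w q
      refine c0_indf_iff ⟨fun e => ?_, fun e => ?_⟩
      · have e1 := congrFun e i
        have e2 := congrFun e j
        rw [si, if_pos rfl] at e1
        rw [sj, if_neg (by omega), if_pos rfl] at e2
        exact ⟨e1, e2⟩
      · rw [e.1, e.2]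
        ext1 n
        by_cases h1 : n = i
        · rw [if_pos h1, h1, si]
        · by_cases h2 : n = j
          · rw [if_neg h1, if_pos h2, h2, sj]
          · rw [if_neg h1, if_neg h2]
    simp only [e]
    exact val_GD
  · rw [lam_GD hΦ hA h hij' hx]
    by_cases h1 : i' = i ∨ i' = j
    · rw [s0 j' (by omega) (by omega)]
      simp only [Lc_none2, mul_zero, Finset.sum_const_zero]
    · rw [s0 i' (by omega) (by omega)]
      simp only [Lc_none0, mul_zero, Finset.sum_const_zero]
  · rw [lam_GE hΦ hA h hx]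
    by_cases h1 : i' = i ∨ i' = j
    · by_cases h2 : j' = i ∨ j' = j
      · rw [s0 k' (by omega) (by omega), Lc_none2]
      · rw [s0 j' (by omega) (by omega), Lc_none1]
    · rw [s0 i' (by omega) (by omega), Lc_none0]

/-- an invariant of degree 2 which detects exactly the Borromean string links of the components i, j, k, up to the
other generators -/
theorem inv2e_aux {m i j k : ℕ} (hij : i < j) (hjk : j < k) : ∃ l : Tangle → ℤ, (∀ x y, CEquiv m 3 x y → l x = l y) ∧
    (∀ x y, CEquiv m 2 x 1 → CEquiv m 2 y 1 → l (x * y) = l x + l y) ∧ (∀ x, GE m i j k x → l x ≠ 0) ∧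
    ∀ i' j' k', i' < j' → j' < k' → ¬(i' = i ∧ j' = j ∧ k' = k) → ∀ x, GE m i' j' k' x → l x = 0 := by
  let s : ℕ → Sta := fun n => if n = i then q00 else if n = j then q00 else if n = k then q10 else none
  let s' : ℕ → Sta := fun n => if n = i then q10 else if n = j then q00 else if n = k then q00 else none
  have si : s i = q00 := if_pos rfl
  have sj : s j = q00 := by
    change (if j = i then q00 else if j = j then q00 else if j = k then q10 else none) = q00
    rw [if_neg (by omega), if_pos rfl]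
  have sk : s k = q10 := by
    change (if k = i then q00 else if k = j then q00 else if k = k then q10 else none) = q10
    rw [if_neg (by omega), if_neg (by omega), if_pos rfl]
  have s0 : ∀ n, n ≠ i → n ≠ j → n ≠ k → s n = none := fun n h1 h2 h3 => by
    change (if n = i then q00 else if n = j then q00 else if n = k then q10 else none) = none
    rw [if_neg h1, if_neg h2, if_neg h3]
  refine ⟨lam Φ 2 s s', lam_inv hΦ hA h m 2 s s', lam_add hΦ hA h m (by omega) s s', fun x hx => ?_,
    fun i' j' k' hij' hjk' hne x hx => ?_⟩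
  · rw [lam_GE hΦ hA h hx, si, sj, sk]
    have e : ∀ u v w, c0 (indf s') (up3 i j k s u v w) = if u = q10 ∧ v = q00 ∧ w = q00 then 1 else 0 := by
      intro u v w
      refine c0_indf_iff ⟨fun e => ?_, fun e => ?_⟩
      · have e1 := congrFun e i
        have e2 := congrFun e j
        have e3 := congrFun e k
        simp only [up3, s', if_true] at e1
        simp only [up3, s', if_neg (show ¬(j = i) by omega), if_true] at e2
        simp only [up3, s', if_neg (show ¬(k = i) by omega), if_neg (show ¬(k = j) by omega), if_true] at e3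
        exact ⟨e1, e2, e3⟩
      · rw [e.1, e.2.1, e.2.2]
        ext1 n
        by_cases h1 : n = i
        · simp only [up3, s', if_pos h1]
        · by_cases h2 : n = j
          · simp only [up3, s', if_neg h1, if_pos h2]
          · by_cases h3 : n = k
            · simp only [up3, s', if_neg h1, if_neg h2, if_pos h3]
            · simp only [up3, s, s', if_neg h1, if_neg h2, if_neg h3]
    simp only [e]
    exact val_GE
  · rw [lam_GE hΦ hA h hx]
    by_cases h1 : i' = i ∨ i' = j ∨ i' = k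
    · by_cases h2 : j' = i ∨ j' = j ∨ j' = k
      · rw [s0 k' (by omega) (by omega) (by omega), Lc_none2]
      · rw [s0 j' (by omega) (by omega) (by omega), Lc_none1]
    · rw [s0 i' (by omega) (by omega) (by omega), Lc_none0]

end act

end SLC
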