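import Pool.Agent.SLC.Act

/-!
State sums on tangles: Kauffman bracket times a torus factor (framing and orientation), with forgotten strands.
-/

set_option autoImplicit false

namespace SLC

section tensors

variable {K : Type} [CommRing K] (A A' : K)

/-- the crossing swaps the second bits, with a factor which depends on their equality -/
def kw (a b c d : Bool) : K := if c = b ∧ d = a then (if a = b then A' ^ 3 else A ^ 3) else 0

def capw : Bool → Bool → K
  | false, true => -1
  | true, false => 1
  | _, _ => 0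

def cupw : Bool → Bool → K
  | false, true => 1
  | true, false => -1
  | _, _ => 0

/-- the crossing -/
def Rw : Sta → Sta → Sta → Sta → K
  | some p, some q, some u, some v => k1 A A' p.1 q.1 u.1 v.1 * kw A A' p.2 q.2 u.2 v.2
  | some _, some _, _, _ => 0
  | x, y, z, w => if z = y ∧ w = x then 1 else 0

/-- the opposite crossing -/
def Rw' : Sta → Sta → Sta → Sta → K
  | some p, some q, some u, some v => k2 A A' p.1 q.1 u.1 v.1 * kw A' A p.2 q.2 u.2 v.2
  | some _, some _, _, _ => 0
  | x, y, z, w => if z = y ∧ w = x then 1 else 0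

/-- the maximum -/
def capwt : Sta → Sta → K
  | none, none => 1
  | some p, some q => cap1 A p.1 q.1 * capw p.2 q.2
  | _, _ => 0

/-- the minimum -/
def cupwt : Sta → Sta → K
  | none, none => 1
  | some p, some q => cup1 A' p.1 q.1 * cupw p.2 q.2
  | _, _ => 0

end tensors

/-- the second action of tangles on functions of the states (contravariant: x * y acts by x, then y) -/
structure IsActW {K : Type} [CommRing K] (A A' : K) (Φ : Tangle → ((ℕ → Sta) → K) → ((ℕ → Sta) → K)) : Prop where
  one : ∀ F, Φ 1 F = F
  mul : ∀ x y F, Φ (x * y) F = Φ y (Φ x F)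
  add : ∀ x F G, Φ x (F + G) = Φ x F + Φ x G
  smul : ∀ x (a : K) F, Φ x (a • F) = a • Φ x F
  Ts : ∀ i F s, Φ (Ts i) F s = ∑ z, ∑ w, Rw A A' (s i) (s (i + 1)) z w * F (upd2 i s z w)
  Tt : ∀ i F s, Φ (Tt i) F s = ∑ z, ∑ w, Rw' A A' (s i) (s (i + 1)) z w * F (upd2 i s z w)
  C : ∀ i F s, Φ (C i) F s = capwt A (s i) (s (i + 1)) * F (del2 i s)
  U : ∀ i F s, Φ (U i) F s = ∑ z, ∑ w, cupwt A' z w * F (ins2 i s z w)

theorem okw {K : Type} [CommRing K] {A A' : K} (h : A * A' = 1) :
    TOk (kw A A') (kw A' A) (capw (K := K)) (cupw (K := K)) (- A ^ 3) where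
  st a b c d := by
    cases a <;> cases b <;> cases c <;> cases d <;> simp [kw] <;> grind
  ts a b c d := by
    cases a <;> cases b <;> cases c <;> cases d <;> simp [kw] <;> grind
  braid a b c x y z := by
    cases a <;> cases b <;> cases c <;> cases x <;> cases y <;> cases z <;> simp [kw] <;> grind
  cs a b := by
    cases a <;> cases b <;> simp [kw, capw]
  su a b := by
    cases a <;> cases b <;> simp [kw, cupw]
  zig a b := by
    cases a <;> cases b <;> simp [capw, cupw]
  zag a b := by
    cases a <;> cases b <;> simp [capw, cupw]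
  slc1 a b c x := by
    cases a <;> cases b <;> cases c <;> cases x <;> simp [kw, capw]
  slc2 a b c x := by
    cases a <;> cases b <;> cases c <;> cases x <;> simp [kw, capw]
  slu1 a x y z := by
    cases a <;> cases x <;> cases y <;> cases z <;> simp [kw, cupw]
  slu2 a x y z := by
    cases a <;> cases x <;> cases y <;> cases z <;> simp [kw, cupw]

/-- the tensors of the second state sum satisfy all the local identities -/
theorem okwt {K : Type} [CommRing K] {A A' : K} (h : A * A' = 1) :
    TOk (Rw A A') (Rw' A A') (capwt A) (cupwt A') 1 := by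
  have h3 : (- A' ^ 3) * (- A ^ 3) = 1 := by
    have e : (- A' ^ 3) * (- A ^ 3) = (A * A') ^ 3 := by ring
    rw [e, h, one_pow]
  have h1 := (ok1 h).prod (okw h)
  rw [h3] at h1
  have h2 := h1.opt
  have e1 : Rw A A' = Ro (fun a b c d : Bool × Bool => k1 A A' a.1 b.1 c.1 d.1 * kw A A' a.2 b.2 c.2 d.2) := by
    funext a b c d
    rcases a with _ | a <;> rcases b with _ | b <;> rcases c with _ | c <;> rcases d with _ | d <;> simp [Rw, Ro]
  have e2 : Rw' A A' = Ro (fun a b c d : Bool × Bool => k2 A A' a.1 b.1 c.1 d.1 * kw A' A a.2 b.2 c.2 d.2) := by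
    funext a b c d
    rcases a with _ | a <;> rcases b with _ | b <;> rcases c with _ | c <;> rcases d with _ | d <;> simp [Rw', Ro]
  have e3 : capwt A = co (fun a b : Bool × Bool => cap1 A a.1 b.1 * capw a.2 b.2) := by
    funext a b
    rcases a with _ | a <;> rcases b with _ | b <;> rfl
  have e4 : cupwt A' = co (fun a b : Bool × Bool => cup1 A' a.1 b.1 * cupw a.2 b.2) := by
    funext a b
    rcases a with _ | a <;> rcases b with _ | b <;> rfl
  rw [e1, e2, e3, e4]
  exact h2

/-- the second action of tangles exists -/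
theorem exists_actw {K : Type} [CommRing K] (A A' : K) (h : A * A' = 1) :
    ∃ Φ : Tangle → ((ℕ → Sta) → K) → ((ℕ → Sta) → K), IsActW A A' Φ := by
  have hok := okwt h
  let f : Elem → (Module.End K (Sp K))ᵐᵒᵖ := fun e =>
    MulOpposite.op (opE (Rw A A') (Rw' A A') (capwt A) (cupwt A') e)
  let Ψ : Tangle →* (Module.End K (Sp K))ᵐᵒᵖ := PresentedMonoid.lift f (fun a b hab => opW_move hok hab)
  refine ⟨fun x F => (Ψ x).unop F, ?_, ?_, ?_, ?_, ?_, ?_, ?_, ?_⟩
  · intro F
    rw [map_one]
    rfl
  · intro x y F
    rw [map_mul]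
    rfl
  · intro x F G
    exact map_add _ F G
  · intro x a F
    exact map_smul _ a F
  · intro i F s
    rfl
  · intro i F s
    rfl
  · intro i F s
    rfl
  · intro i F s
    rfl

end SLC
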