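import Pool.Agent.SLC.Gens3

/-!
String links: index set of the generators in degree 3.
-/

set_option autoImplicit false

namespace SLC

/-- indices of the generators of degree 3 -/
inductive Ix3 where
  /-- one component -/
  | o (i : ℕ)
  /-- two components, first generator -/
  | a (i j : ℕ)
  /-- two components, second generator -/
  | b (i j : ℕ)
  /-- three components, leaves p, q | p, q' -/
  | v (p q q' : ℕ)
  /-- three components, leaves i, i | j, k -/
  | u (i j k : ℕ)
  /-- four components, leaves i, j | k, l -/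
  | x (i j k l : ℕ)
  /-- four components, leaves i, k | j, l -/
  | y (i j k l : ℕ)

/-- the indices which occur for m components -/
def Ix3.ok (m : ℕ) : Ix3 → Prop
  | .o i => i < m
  | .a i j => i < j ∧ j < m
  | .b i j => i < j ∧ j < m
  | .v p q q' => q < q' ∧ q' < m ∧ p < m ∧ p ≠ q ∧ p ≠ q'
  | .u i j k => i < j ∧ j < k ∧ k < m
  | .x i j k l => i < j ∧ j < k ∧ k < l ∧ l < m
  | .y i j k l => i < j ∧ j < k ∧ k < l ∧ l < m

/-- the classes of the generators -/
def Ix3.G (m : ℕ) : Ix3 → Tangle → Prop
  | .o i => G31 m i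
  | .a i j => G32a m i j
  | .b i j => G32b m i j
  | .v p q q' => G33v m p q q'
  | .u i j k => G33u m i j k
  | .x i j k l => G34 m i j k l
  | .y i j k l => G34 m i k j l

/-- the order of the generators -/
def Ix3.rk : Ix3 → ℕ
  | .o _ => 0
  | .a _ _ => 1
  | .b _ _ => 1
  | .v _ _ _ => 2
  | .u _ _ _ => 3
  | .x _ _ _ _ => 4
  | .y _ _ _ _ => 4

end SLC
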