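import Pool.Agent.SLC.ActVal3
import Pool.Agent.SLC.ActW
import Pool.Agent.SLC.Ix3

/-!
Values of the second state sum: general lemmas.
-/

set_option autoImplicit false

open PowerSeries

namespace SLC

section

variable {A A' : PowerSeries ℤ} {Φ : Tangle → Fn → Fn} (hΦ : IsActW A A' Φ)

include hΦ

theorem IsActW.T_mul (g h : Br) (F : Fn) : Φ (T (g * h)) F = Φ (T h) (Φ (T g) F) := by
  rw [SLC.T_mul, hΦ.mul]

theorem IsActW.T_inv (g : Br) (F : Fn) : Φ (T g⁻¹) (Φ (T g) F) = F := by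
  rw [← hΦ.mul, T_mul_inv, hΦ.one]

theorem IsActW.T_inv' (g : Br) (F : Fn) : Φ (T g) (Φ (T g⁻¹) F) = F := by
  rw [← hΦ.mul, T_inv_mul, hΦ.one]

end

namespace W2

section act

variable {A A' : PowerSeries ℤ} {Φ : Tangle → Fn → Fn} (hΦ : IsActW A A' Φ)

include hΦ

theorem vv_mul {k : ℕ} {x y : Tangle} (hx : VV Φ k x) (hy : VV Φ k y) : VV Φ k (x * y) := by
  intro F
  obtain ⟨H, h1⟩ := hx F
  obtain ⟨H', h2⟩ := hy F
  refine ⟨H' + Φ y H, ?_⟩
  rw [hΦ.mul, h1, hΦ.add, hΦ.smul, h2, smul_add, add_assoc]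

theorem vv_one {k : ℕ} : VV Φ k 1 := fun F => ⟨0, by rw [hΦ.one, smul_zero, add_zero]⟩

theorem vv_inv {k : ℕ} {g : Br} (hx : VV Φ k (T g)) : VV Φ k (T g⁻¹) := by
  intro F
  obtain ⟨H, h1⟩ := hx (Φ (T g⁻¹) F)
  rw [hΦ.T_inv'] at h1
  refine ⟨-H, ?_⟩
  rw [smul_neg, ← sub_eq_add_neg, eq_sub_iff_add_eq]
  exact h1.symm

/-- commutators -/
theorem comm_aux {j k : ℕ} {g g' : Br} {F H H' H'' L'' : Fn}
    (h1 : Φ (T g) F = F + (X : PowerSeries ℤ) ^ j • H) (h2 : Φ (T g') F = F + (X : PowerSeries ℤ) ^ k • H')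
    (h3 : Φ (T g') H = H + (X : PowerSeries ℤ) ^ k • H'') (h4 : Φ (T g) H' = H' + (X : PowerSeries ℤ) ^ j • L'') :
    Φ (T (cm g g')) F = F + (X : PowerSeries ℤ) ^ (j + k) • Φ (T (g' * g)⁻¹) (H'' - L'') := by
  have e1 : cm g g' = (g * g') * (g' * g)⁻¹ := by
    unfold cm
    group
  have e2 : Φ (T (g * g')) F = Φ (T (g' * g)) F + (X : PowerSeries ℤ) ^ (j + k) • (H'' - L'') := by
    rw [hΦ.T_mul, hΦ.T_mul, h1, h2, hΦ.add, hΦ.add, hΦ.smul, hΦ.smul, h1, h2, h3, h4, pow_add]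
    ext1 s
    simp only [Pi.add_apply, Pi.smul_apply, Pi.sub_apply, smul_eq_mul]
    ring
  rw [e1, hΦ.T_mul, e2, hΦ.add, hΦ.smul, hΦ.T_inv]

theorem vv_comm {j k : ℕ} {g g' : Br} (h : VV Φ j (T g)) (h' : VV Φ k (T g')) : VV Φ (j + k) (T (cm g g')) := by
  intro F
  obtain ⟨H, h1⟩ := h F
  obtain ⟨H', h2⟩ := h' F
  obtain ⟨H'', h3⟩ := h' H
  obtain ⟨L'', h4⟩ := h H'
  exact ⟨_, comm_aux hΦ h1 h2 h3 h4⟩

theorem sym_comm {j k : ℕ} (hj : 1 ≤ j) (hk : 1 ≤ k) {g g' : Br} {D D' : ((ℕ → Sta) → ℤ) → ((ℕ → Sta) → ℤ)}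
    (h : Sym Φ j (T g) D) (h' : Sym Φ k (T g') D') : Sym Φ (j + k) (T (cm g g')) (fun f => D' (D f) - D (D' f)) := by
  intro F
  obtain ⟨H, h1, e1⟩ := h F
  obtain ⟨H', h2, e2⟩ := h' F
  obtain ⟨H'', h3, e3⟩ := h' H
  obtain ⟨L'', h4, e4⟩ := h H'
  refine ⟨_, comm_aux hΦ h1 h2 h3 h4, ?_⟩
  have h5 : ∀ W, c0 (Φ (T (g' * g)⁻¹) W) = c0 W := by
    intro W
    have h6 : c0 (Φ (T (g' * g)) (Φ (T (g' * g)⁻¹) W)) = c0 (Φ (T (g' * g)⁻¹) W) := by
      rw [hΦ.T_mul, h.vv.c0 hj, h'.vv.c0 hk]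
    rw [hΦ.T_inv'] at h6
    exact h6.symm
  rw [h5, c0_sub, e3, e4, e1, e2]

/-! ### braids at X = 0 -/

theorem vv_conj_aux {k : ℕ} {c g : Br} {F H : Fn} (h : Φ (T g) (Φ (T c) F) = Φ (T c) F + (X : PowerSeries ℤ) ^ k • H) :
    Φ (T (c * g * c⁻¹)) F = F + (X : PowerSeries ℤ) ^ k • Φ (T c⁻¹) H := by
  rw [hΦ.T_mul, hΦ.T_mul, h, hΦ.add, hΦ.smul, hΦ.T_inv]

end act

/-! ### the crossing modulo X^2 -/

/-- kw at X = 0 is j0; coefficient of X -/
def jw : Bool → Bool → Bool → Bool → ℤ := fun a b c d => if c = b ∧ d = a then (if a = b then -3 else 3) else 0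

/-- coefficient of X in the crossing -/
def r1w : Sta → Sta → Sta → Sta → ℤ
  | some p, some q, some u, some v =>
    j0 p.1 q.1 u.1 v.1 * jw p.2 q.2 u.2 v.2 + j1 p.1 q.1 u.1 v.1 * j0 p.2 q.2 u.2 v.2
  | _, _, _, _ => 0

section coeffs

variable {A A' : PowerSeries ℤ}

theorem kw_c0 (hA : A = 1 + X) (h : A * A' = 1) (a b c d : Bool) : constantCoeff (kw A A' a b c d) = j0 a b c d := by
  cases a <;> cases b <;> cases c <;> cases d <;> simp [kw, j0, A_c0 hA, A'_c0 hA h]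

theorem kw_c1 (hA : A = 1 + X) (h : A * A' = 1) (a b c d : Bool) : coeff 1 (kw A A' a b c d) = jw a b c d := by
  cases a <;> cases b <;> cases c <;> cases d <;>
    simp [kw, jw, A_c1 hA, A'_c1 hA h, pow3_c1 A (A_c0 hA), pow3_c1 A' (A'_c0 hA h)]

theorem Rw_c0 (hA : A = 1 + X) (h : A * A' = 1) : ∀ x y z w : Sta, constantCoeff (Rw A A' x y z w) = r0 x y z w
  | some (a, a'), some (b, b'), some (c, c'), some (d, d') => by
    simp only [Rw]
    rw [map_mul, k1_c0 hA h, kw_c0 hA h]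
    revert a a' b b' c c' d d'
    decide
  | some p, some q, none, w => by
    simp [Rw, r0]
  | some p, some q, some u, none => by
    simp [Rw, r0]
  | none, none, z, w => by
    simp only [Rw, r0]
    split_ifs <;> simp
  | none, some q, z, w => by
    simp only [Rw, r0]
    split_ifs <;> simp
  | some p, none, z, w => by
    simp only [Rw, r0]
    split_ifs <;> simp

theorem Rw_c1 (hA : A = 1 + X) (h : A * A' = 1) : ∀ x y z w : Sta, coeff 1 (Rw A A' x y z w) = r1w x y z w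
  | some (a, a'), some (b, b'), some (c, c'), some (d, d') => by
    simp only [Rw]
    rw [coeff_one_mul, k1_c0 hA h, kw_c0 hA h, k1_c1 hA h, kw_c1 hA h]
    rfl
  | some p, some q, none, w => by
    simp [Rw, r1w]
  | some p, some q, some u, none => by
    simp [Rw, r1w]
  | none, none, z, w => by
    simp only [Rw, r1w]
    split_ifs <;> simp [coeff_one]
  | none, some q, z, w => by
    simp only [Rw, r1w]
    split_ifs <;> simp [coeff_one]
  | some p, none, z, w => by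
    simp only [Rw, r1w]
    split_ifs <;> simp [coeff_one]

end coeffs

section act

variable {A A' : PowerSeries ℤ} {Φ : Tangle → Fn → Fn} (hΦ : IsActW A A' Φ) (hA : A = 1 + X) (h : A * A' = 1)

include hΦ hA h

theorem c0_σ (i : ℕ) (F : Fn) (s : ℕ → Sta) : c0 (Φ (T (σ i)) F) s = c0 F (fun x => s (Equiv.swap i (i + 1) x)) := by
  rw [T_σ, c0, hΦ.Ts, map_sum]
  have e : ∀ z, constantCoeff (∑ w, Rw A A' (s i) (s (i + 1)) z w * F (upd2 i s z w)) =
      ∑ w, r0 (s i) (s (i + 1)) z w * constantCoeff (F (upd2 i s z w)) := by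
    intro z
    rw [map_sum]
    refine Finset.sum_congr rfl fun w _ => ?_
    rw [map_mul, Rw_c0 hA h]
  simp_rw [e]
  rw [sum_r0 (s i) (s (i + 1)) (fun z w => constantCoeff (F (upd2 i s z w))), upd2_swap]
  rfl

/-- at X = 0 the braids permute the sites -/
theorem c0_T (g : Br) : ∀ (F : Fn) (s : ℕ → Sta), c0 (Φ (T g) F) s = c0 F (fun x => s ((perm g)⁻¹ x)) := by
  have hg : g ∈ Subgroup.closure (Set.range (PresentedGroup.of (rels := braidRels))) := by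
    rw [PresentedGroup.closure_range_of]
    exact Subgroup.mem_top g
  induction hg using Subgroup.closure_induction with
  | mem x hx =>
    obtain ⟨i, rfl⟩ := hx
    intro F s
    change c0 (Φ (T (σ i)) F) s = c0 F (fun x => s ((perm (σ i))⁻¹ x))
    rw [perm_σ, Equiv.swap_inv]
    exact c0_σ hΦ hA h i F s
  | one =>
    intro F s
    rw [T_one, hΦ.one, map_one]
    rfl
  | mul x y _ _ hx hy =>
    intro F s
    rw [hΦ.T_mul, hy, hx, map_mul, mul_inv_rev]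
    rfl
  | inv x _ hx =>
    intro F s
    have h1 := hx (Φ (T x⁻¹) F) (fun y => s (perm x y))
    rw [hΦ.T_inv'] at h1
    have e : (fun y => (fun y => s (perm x y)) ((perm x)⁻¹ y)) = s := by
      ext1 y
      exact congrArg s ((perm x).apply_symm_apply y)
    rw [e] at h1
    rw [← h1, map_inv, inv_inv]

theorem VV_PN {n : ℕ} {g : Br} (hg : g ∈ PN n) : VV Φ 1 (T g) := by
  intro F
  have h1 : ∀ s, ∃ b : PowerSeries ℤ, Φ (T g) F s = F s + X * b := by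
    intro s
    have h2 := c0_T hΦ hA h g F s
    have h3 : perm g = 1 := (Subgroup.mem_inf.1 hg).2
    rw [h3] at h2
    have h4 : constantCoeff (Φ (T g) F s - F s) = 0 := by
      rw [map_sub, sub_eq_zero]
      exact h2
    obtain ⟨b, hb⟩ := X_dvd_iff.2 h4
    exact ⟨b, by rw [← hb]; ring⟩
  choose H hH using h1
  refine ⟨H, ?_⟩
  ext1 s
  rw [hH, pow_one]
  rfl

theorem VV_Gam {n : ℕ} (k : ℕ) (hk : 1 ≤ k) : ∀ g ∈ Gam k n, VV Φ k (T g) := by
  induction k, hk using Nat.le_induction with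
  | base => exact fun g hg => VV_PN hΦ hA h hg
  | succ k hk ih =>
    let S : Subgroup Br :=
      { carrier := {g | VV Φ (k + 1) (T g)}
        mul_mem' := fun {a b} ha hb => by
          change VV Φ (k + 1) (T (a * b))
          rw [SLC.T_mul]
          exact vv_mul hΦ ha hb
        one_mem' := by
          change VV Φ (k + 1) (T 1)
          rw [T_one]
          exact vv_one hΦ
        inv_mem' := fun {a} ha => vv_inv hΦ ha }
    have h1 : Gam (k + 1) n ≤ S := by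
      rw [Gam_succ hk, Subgroup.commutator_le]
      intro a ha b hb
      exact vv_comm hΦ (ih a ha) (VV_PN hΦ hA h hb)
    exact fun g hg => h1 hg

omit hA h

/-- conjugation of the expansion -/
theorem sym_conj (hA : A = 1 + X) (h : A * A' = 1) {k : ℕ} {g : Br} {D : ((ℕ → Sta) → ℤ) → ((ℕ → Sta) → ℤ)}
    (hD : Sym Φ k (T g) D) (c : Br) : Sym Φ k (T (c * g * c⁻¹))
      (fun f s => D (fun t => f (fun x => t ((perm c)⁻¹ x))) (fun x => s (perm c x))) := by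
  intro F
  obtain ⟨H, h1, h2⟩ := hD (Φ (T c) F)
  refine ⟨_, vv_conj_aux hΦ h1, ?_⟩
  ext1 s
  rw [c0_T hΦ hA h, h2, map_inv, inv_inv]
  congr 1
  ext1 t
  exact c0_T hΦ hA h c F t

end act

/-! ### the pure crossing -/

def ddw (x y z w : Sta) : ℤ := r1w x y w z + r1w y x z w

def L1w (f : Sta → Sta → ℤ) (x y : Sta) : ℤ := ∑ z, ∑ w, ddw x y z w * f z w

def M01 (f : Sta → Sta → Sta → Sta → ℤ) (x y z w : Sta) : ℤ := ∑ u, ∑ v, ddw x y u v * f u v z w

def M12 (f : Sta → Sta → Sta → Sta → ℤ) (x y z w : Sta) : ℤ := ∑ u, ∑ v, ddw y z u v * f x u v w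

def M23 (f : Sta → Sta → Sta → Sta → ℤ) (x y z w : Sta) : ℤ := ∑ u, ∑ v, ddw z w u v * f x y u v

def Mc (f : Sta → Sta → Sta → Sta → ℤ) (x y z w : Sta) : ℤ := M12 (M01 f) x y z w - M01 (M12 f) x y z w

def Mq (f : Sta → Sta → Sta → Sta → ℤ) (x y z w : Sta) : ℤ := Mc (M23 f) x y z w - M23 (Mc f) x y z w

section act

variable {A A' : PowerSeries ℤ} {Φ : Tangle → Fn → Fn} (hΦ : IsActW A A' Φ) (hA : A = 1 + X) (h : A * A' = 1)

include hΦ hA h

theorem c1_σ (i : ℕ) (F : Fn) (s : ℕ → Sta) : coeff 1 (Φ (T (σ i)) F s) =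
    coeff 1 (F (upd2 i s (s (i + 1)) (s i))) + ∑ z, ∑ w, r1w (s i) (s (i + 1)) z w * c0 F (upd2 i s z w) := by
  rw [T_σ, hΦ.Ts, map_sum]
  have e : ∀ z, coeff 1 (∑ w, Rw A A' (s i) (s (i + 1)) z w * F (upd2 i s z w)) =
      ∑ w, r0 (s i) (s (i + 1)) z w * coeff 1 (F (upd2 i s z w)) +
      ∑ w, r1w (s i) (s (i + 1)) z w * c0 F (upd2 i s z w) := by
    intro z
    rw [map_sum, ← Finset.sum_add_distrib]
    refine Finset.sum_congr rfl fun w _ => ?_
    rw [coeff_one_mul, Rw_c0 hA h, Rw_c1 hA h]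
    rfl
  simp_rw [e]
  rw [Finset.sum_add_distrib, sum_r0 (s i) (s (i + 1)) (fun z w => coeff 1 (F (upd2 i s z w)))]

theorem Sym_sq (i : ℕ) : Sym Φ 1 (T (σ i ^ 2)) (fun f s => L1w (fun z w => f (upd2 i s z w)) (s i) (s (i + 1))) := by
  intro F
  have hs : σ i ^ 2 ∈ PN (i + 2) := sq_mem_PN (by omega)
  obtain ⟨H, hH⟩ := VV_PN hΦ hA h hs F
  refine ⟨H, hH, ?_⟩
  ext1 s
  have h1 := congrArg (coeff 1) (congrFun hH s)
  have h2 := coeff_X_smul 1 H s
  rw [Pi.add_apply, map_add, h2] at h1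
  have h3 : coeff 1 (Φ (T (σ i ^ 2)) F s) = coeff 1 (F s) +
      L1w (fun z w => c0 F (upd2 i s z w)) (s i) (s (i + 1)) := by
    have h4 : ∀ z w, c0 (Φ (T (σ i)) F) (upd2 i s z w) = c0 F (upd2 i s w z) := by
      intro z w
      rw [c0_σ hΦ hA h, ← upd2_swap, (upd2_at i s z w).1, (upd2_at i s z w).2, upd2_twice]
    rw [pow_two, hΦ.T_mul, c1_σ hΦ hA h, c1_σ hΦ hA h, (upd2_at i s _ _).1, (upd2_at i s _ _).2, upd2_twice, upd2_eqs]
    simp_rw [h4, upd2_twice, L1w, ddw, add_mul, Finset.sum_add_distrib]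
    rw [Finset.sum_comm (f := fun z w => r1w (s i) (s (i + 1)) z w * c0 F (upd2 i s w z))]
    ring
  linarith

theorem Sym_GT {c : Br} {i j : ℕ} (hi : perm c 0 = i) (hj : perm c 1 = j) : Sym Φ 1 (T (c * σ 0 ^ 2 * c⁻¹))
    (fun f s => L1w (fun z w => f (up2 i j s z w)) (s i) (s j)) := by
  have h1 := sym_conj hΦ hA h (Sym_sq hΦ hA h 0) c
  have e : ∀ s z w, (fun x => upd2 0 (fun x => s (perm c x)) z w ((perm c)⁻¹ x)) = up2 i j s z w := by
    intro s z w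
    ext1 x
    unfold upd2 up2
    have e0 : (perm c)⁻¹ x = 0 ↔ x = i := by
      rw [Equiv.Perm.inv_eq_iff_eq, hi]
    have e1 : (perm c)⁻¹ x = 0 + 1 ↔ x = j := by
      rw [Equiv.Perm.inv_eq_iff_eq, Nat.zero_add, hj]
    have e2 : perm c ((perm c)⁻¹ x) = x := (perm c).apply_symm_apply x
    simp only [e0, e1, e2]
  simp only [e, hi, Nat.zero_add, hj] at h1
  exact h1

end act

end W2

end SLC
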