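import Pool.Agent.SLC.ActValW

/-!
Values of the second state sum in degree 3.
-/

set_option autoImplicit false

open PowerSeries

namespace SLC

namespace W2

/-- replace the states of four sites -/
def up4 (i j l n : ℕ) (s : ℕ → Sta) (x y z w : Sta) : ℕ → Sta :=
  fun k => if k = i then x else if k = j then y else if k = l then z else if k = n then w else s k

/-- local operators on the sites 0, 1, 2, 3 -/
def lift4 (M : (Sta → Sta → Sta → Sta → ℤ) → (Sta → Sta → Sta → Sta → ℤ)) (f : (ℕ → Sta) → ℤ) (s : ℕ → Sta) : ℤ :=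
  M (fun x y z w => f (up4 0 1 2 3 s x y z w)) (s 0) (s 1) (s 2) (s 3)

theorem lift4_comp (M M' : (Sta → Sta → Sta → Sta → ℤ) → (Sta → Sta → Sta → Sta → ℤ)) (f : (ℕ → Sta) → ℤ)
    (s : ℕ → Sta) : lift4 M' (lift4 M f) s = lift4 (fun f => M' (M f)) f s := by
  unfold lift4
  have e1 : ∀ x y z w x' y' z' w', up4 0 1 2 3 (up4 0 1 2 3 s x y z w) x' y' z' w' = up4 0 1 2 3 s x' y' z' w' := by
    intro x y z w x' y' z' w'
    ext1 k
    unfold up4
    split_ifs <;> rfl
  have e2 : ∀ x y z w, up4 0 1 2 3 s x y z w 0 = x ∧ up4 0 1 2 3 s x y z w 1 = y ∧ up4 0 1 2 3 s x y z w 2 = z ∧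
      up4 0 1 2 3 s x y z w 3 = w := by
    intro x y z w
    simp [up4]
  simp only [e1, (e2 _ _ _ _).1, (e2 _ _ _ _).2.1, (e2 _ _ _ _).2.2.1, (e2 _ _ _ _).2.2.2]

section act

variable {A A' : PowerSeries ℤ} {Φ : Tangle → Fn → Fn} (hΦ : IsActW A A' Φ) (hA : A = 1 + X) (h : A * A' = 1)

include hΦ hA h

theorem Sym01 : Sym Φ 1 (T (σ 0 ^ 2)) (lift4 M01) := by
  intro F
  obtain ⟨H, h1, h2⟩ := Sym_sq hΦ hA h 0 F
  refine ⟨H, h1, ?_⟩
  rw [h2]
  ext1 s
  have e : ∀ z w, upd2 0 s z w = up4 0 1 2 3 s z w (s 2) (s 3) := by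
    intro z w
    ext1 k
    unfold upd2 up4
    split_ifs with h1 h2 h3 h4
    · rfl
    · rfl
    · rw [h3]
    · rw [h4]
    · rfl
  simp only [e]
  rfl

theorem Sym12 : Sym Φ 1 (T (σ 1 ^ 2)) (lift4 M12) := by
  intro F
  obtain ⟨H, h1, h2⟩ := Sym_sq hΦ hA h 1 F
  refine ⟨H, h1, ?_⟩
  rw [h2]
  ext1 s
  have e : ∀ z w, upd2 1 s z w = up4 0 1 2 3 s (s 0) z w (s 3) := by
    intro z w
    ext1 k
    unfold upd2 up4
    by_cases h0 : k = 0
    · rw [if_neg (by omega), if_neg (by omega), if_pos h0, h0]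
    · by_cases h1 : k = 1
      · rw [if_pos h1, if_neg h0, if_pos h1]
      · by_cases h2 : k = 2
        · rw [if_neg h1, if_pos (by omega), if_neg h0, if_neg h1, if_pos h2]
        · by_cases h3 : k = 3
          · rw [if_neg h1, if_neg (by omega), if_neg h0, if_neg h1, if_neg h2, if_pos h3, h3]
          · rw [if_neg h1, if_neg (by omega), if_neg h0, if_neg h1, if_neg h2, if_neg h3]
  simp only [e]
  rfl

theorem Sym23 : Sym Φ 1 (T (σ 2 ^ 2)) (lift4 M23) := by
  intro F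
  obtain ⟨H, h1, h2⟩ := Sym_sq hΦ hA h 2 F
  refine ⟨H, h1, ?_⟩
  rw [h2]
  ext1 s
  have e : ∀ z w, upd2 2 s z w = up4 0 1 2 3 s (s 0) (s 1) z w := by
    intro z w
    ext1 k
    unfold upd2 up4
    by_cases h0 : k = 0
    · rw [if_neg (by omega), if_neg (by omega), if_pos h0, h0]
    · by_cases h1 : k = 1
      · rw [if_neg (by omega), if_neg (by omega), if_neg h0, if_pos h1, h1]
      · by_cases h2 : k = 2
        · rw [if_pos h2, if_neg h0, if_neg h1]
        · by_cases h3 : k = 3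
          · rw [if_neg h2, if_pos (by omega), if_neg h0, if_neg h1]
          · rw [if_neg h2, if_neg (by omega), if_neg h0, if_neg h1]
  simp only [e]
  rfl

theorem Sym_cc2 : Sym Φ 2 (T cc2) (lift4 Mc) := by
  intro F
  obtain ⟨H, h1, h2⟩ := sym_comm hΦ le_rfl le_rfl (Sym01 hΦ hA h) (Sym12 hΦ hA h) F
  refine ⟨H, h1, ?_⟩
  rw [h2]
  ext1 s
  change lift4 M12 (lift4 M01 (c0 F)) s - lift4 M01 (lift4 M12 (c0 F)) s = _
  rw [lift4_comp, lift4_comp]
  rfl

theorem Sym_cc3 : Sym Φ 3 (T cc3) (lift4 Mq) := by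
  intro F
  obtain ⟨H, h1, h2⟩ := sym_comm hΦ le_rfl (by omega) (Sym23 hΦ hA h) (Sym_cc2 hΦ hA h) F
  refine ⟨H, h1, ?_⟩
  rw [h2]
  ext1 s
  change lift4 Mc (lift4 M23 (c0 F)) s - lift4 M23 (lift4 Mc (c0 F)) s = _
  rw [lift4_comp, lift4_comp]
  rfl

theorem Sym_cc {c : Br} {i j l n : ℕ} (hi : perm c 0 = i) (hj : perm c 1 = j) (hl : perm c 2 = l)
    (hn : perm c 3 = n) : Sym Φ 3 (T (c * cc3 * c⁻¹))
      (fun f s => Mq (fun x y z w => f (up4 i j l n s x y z w)) (s i) (s j) (s l) (s n)) := by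
  have h1 := sym_conj hΦ hA h (Sym_cc3 hΦ hA h) c
  have e : ∀ s x y z w, (fun k => up4 0 1 2 3 (fun k => s (perm c k)) x y z w ((perm c)⁻¹ k)) =
      up4 i j l n s x y z w := by
    intro s x y z w
    ext1 k
    unfold up4
    have e0 : (perm c)⁻¹ k = 0 ↔ k = i := by
      rw [Equiv.Perm.inv_eq_iff_eq, hi]
    have e1 : (perm c)⁻¹ k = 1 ↔ k = j := by
      rw [Equiv.Perm.inv_eq_iff_eq, hj]
    have e2 : (perm c)⁻¹ k = 2 ↔ k = l := by
      rw [Equiv.Perm.inv_eq_iff_eq, hl]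
    have e4 : (perm c)⁻¹ k = 3 ↔ k = n := by
      rw [Equiv.Perm.inv_eq_iff_eq, hn]
    have e3 : perm c ((perm c)⁻¹ k) = k := (perm c).apply_symm_apply k
    simp only [e0, e1, e2, e3, e4]
  simp only [lift4, e, hi, hj, hl, hn] at h1
  exact h1

end act

/-! ### closed form -/

/-- the second spins -/
def kap (a b : Bool) : ℤ := if a = b then 8 else -4

theorem ddw_val : ∀ (p q : Bool × Bool) (z w : Sta), ddw (some p) (some q) z w =
    4 * (if z = some (q.1, p.2) ∧ w = some (p.1, q.2) then 1 else 0) -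
      kap p.2 q.2 * (if z = some p ∧ w = some q then 1 else 0) := by
  decide

theorem sum_if2 (f : Sta → Sta → ℤ) (x y : Sta) : ∑ z, ∑ w, (if z = x ∧ w = y then (1 : ℤ) else 0) * f z w = f x y := by
  rw [Finset.sum_eq_single x, Finset.sum_eq_single y]
  · simp
  · intro w _ hw
    simp [hw]
  · simp
  · intro z _ hz
    refine Finset.sum_eq_zero fun w _ => ?_
    simp [hz]
  · simp

theorem sum_ddw (p q : Bool × Bool) (f : Sta → Sta → ℤ) : ∑ z, ∑ w, ddw (some p) (some q) z w * f z w =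
    4 * f (some (q.1, p.2)) (some (p.1, q.2)) - kap p.2 q.2 * f (some p) (some q) := by
  simp only [ddw_val, sub_mul, mul_assoc, Finset.sum_sub_distrib, ← Finset.mul_sum, sum_if2]

theorem ddw_none_left : ∀ y z w : Sta, ddw none y z w = 0 := by
  decide

theorem ddw_none_right : ∀ y z w : Sta, ddw y none z w = 0 := by
  decide

/-- the operator of cc3 -/
def Mq' (f : Sta → Sta → Sta → Sta → ℤ) : Sta → Sta → Sta → Sta → ℤ
  | some (a, a'), some (b, b'), some (c, c'), some (d, d') =>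
    64 * (f (some (c, a')) (some (a, b')) (some (d, c')) (some (b, d')) -
      f (some (b, a')) (some (c, b')) (some (d, c')) (some (a, d')) -
      f (some (d, a')) (some (a, b')) (some (b, c')) (some (c, d')) +
      f (some (b, a')) (some (d, b')) (some (a, c')) (some (c, d')))
  | _, _, _, _ => 0

theorem Mq_eq (f : Sta → Sta → Sta → Sta → ℤ) : ∀ x y z w : Sta, Mq f x y z w = Mq' f x y z w
  | some (a, a'), some (b, b'), some (c, c'), some (d, d') => by
    simp only [Mq, Mc, M01, M12, M23, sum_ddw, Mq']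
    ring
  | none, y, z, w => by
    simp [Mq, Mc, M01, M12, M23, Mq', ddw_none_left]
  | some _, none, z, w => by
    simp [Mq, Mc, M01, M12, M23, Mq', ddw_none_left, ddw_none_right]
  | some _, some _, none, w => by
    simp [Mq, Mc, M01, M12, M23, Mq', ddw_none_left, ddw_none_right]
  | some _, some _, some _, none => by
    simp [Mq, Mc, M01, M12, M23, Mq', ddw_none_left, ddw_none_right]

end W2

end SLC
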