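import Pool.Agent.SLC.ActValW2

/-!
Matrix coefficients of the second state sum at the generators of degree 3.
-/

set_option autoImplicit false

open PowerSeries

namespace SLC

namespace W2

theorem capwt_c0 {A : PowerSeries ℤ} (hA : A = 1 + X) : ∀ x y : Sta,
    constantCoeff (capwt A x y) = cap0 x y
  | none, none => by simp [capwt, cap0]
  | none, some _ => by simp [capwt, cap0]
  | some _, none => by simp [capwt, cap0]
  | some (a, a'), some (b, b') => by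
    cases a <;> cases a' <;> cases b <;> cases b' <;> simp [capwt, cap0, cap1, capw, A_c0 hA]

theorem cupwt_c0 {A A' : PowerSeries ℤ} (hA : A = 1 + X) (h : A * A' = 1) : ∀ x y : Sta,
    constantCoeff (cupwt A' x y) = cup0 x y
  | none, none => by simp [cupwt, cup0]
  | none, some _ => by simp [cupwt, cup0]
  | some _, none => by simp [cupwt, cup0]
  | some (a, a'), some (b, b') => by
    cases a <;> cases a' <;> cases b <;> cases b' <;> simp [cupwt, cup0, cup1, cupw, A'_c0 hA h]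

section act

variable {A A' : PowerSeries ℤ} {Φ : Tangle → Fn → Fn} (hΦ : IsActW A A' Φ)

include hΦ

theorem EqX_act {k : ℕ} {F G : Fn} (h : EqX k F G) (x : Tangle) : EqX k (Φ x F) (Φ x G) := by
  obtain ⟨H, rfl⟩ := h
  exact ⟨Φ x H, by rw [hΦ.add, hΦ.smul]⟩

theorem EqX_CEquiv (hA : A = 1 + X) (h : A * A' = 1) {m k : ℕ} (hk : 1 ≤ k) {x y : Tangle} (hxy : CEquiv m k x y)
    (F : Fn) : EqX k (Φ x F) (Φ y F) := by
  induction hxy with
  | rel x y hxy =>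
    obtain ⟨r, -, g, -, γ, hγ, rfl, rfl⟩ := hxy
    have h1 := VV_Gam hΦ hA h k hk γ hγ (Φ (T g) (Φ (caps 0 r) F))
    have h2 : EqX k (Φ (T g) (Φ (caps 0 r) F)) (Φ (T γ) (Φ (T g) (Φ (caps 0 r) F))) := h1
    have h3 := EqX_act hΦ h2 (cups 0 r)
    change EqX k (Φ (caps 0 r * T g * cups 0 r) F) (Φ (caps 0 r * T (g * γ) * cups 0 r) F)
    rw [SLC.T_mul, ← mul_assoc, hΦ.mul, hΦ.mul, hΦ.mul, hΦ.mul, hΦ.mul]
    exact h3
  | refl x => exact EqX.refl _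
  | symm x y _ ih => exact ih.symm
  | trans x y z _ _ ih1 ih2 => exact ih1.trans ih2

theorem lam_inv (hA : A = 1 + X) (h : A * A' = 1) (m k : ℕ) (s s' : ℕ → Sta) (x y : Tangle)
    (hxy : CEquiv m (k + 1) x y) : lam Φ k s s' x = lam Φ k s s' y :=
  (EqX_CEquiv hΦ hA h (by omega) hxy (indf s')).coeff s

theorem lam_add (hA : A = 1 + X) (h : A * A' = 1) (m : ℕ) {k : ℕ} (hk : 1 ≤ k) (s s' : ℕ → Sta) (x y : Tangle)
    (hx : CEquiv m k x 1) (hy : CEquiv m k y 1) : lam Φ k s s' (x * y) = lam Φ k s s' x + lam Φ k s s' y := by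
  obtain ⟨H, h1⟩ := (EqX_CEquiv hΦ hA h hk hx (indf s')).symm
  obtain ⟨H', h2⟩ := (EqX_CEquiv hΦ hA h hk hy (indf s')).symm
  obtain ⟨H'', h3⟩ := (EqX_CEquiv hΦ hA h hk hy H).symm
  rw [hΦ.one] at h1 h2 h3
  have e1 : lam Φ k s s' x = c0 H s := by
    rw [lam, h1, Pi.add_apply, map_add, coeff_X_smul, coeff_indf hk, zero_add]
  have e2 : lam Φ k s s' y = c0 H' s := by
    rw [lam, h2, Pi.add_apply, map_add, coeff_X_smul, coeff_indf hk, zero_add]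
  have e3 : c0 (Φ y H) = c0 H := by
    rw [h3, c0_add, c0_X_smul hk, add_zero]
  rw [lam, hΦ.mul, h1, hΦ.add, hΦ.smul, h2, Pi.add_apply, Pi.add_apply, map_add, map_add, coeff_X_smul, coeff_X_smul,
    coeff_indf hk, e1, e2, e3]
  ring

theorem c0_C (hA : A = 1 + X) (i : ℕ) (F : Fn) (s : ℕ → Sta) :
    c0 (Φ (C i) F) s = cap0 (s i) (s (i + 1)) * c0 F (del2 i s) := by
  rw [c0, hΦ.C, map_mul, capwt_c0 hA]
  rfl

theorem c0_U (hA : A = 1 + X) (h : A * A' = 1) (i : ℕ) (F : Fn) (s : ℕ → Sta) :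
    c0 (Φ (U i) F) s = ∑ z, ∑ w, cup0 z w * c0 F (ins2 i s z w) := by
  rw [c0, hΦ.U, map_sum]
  refine Finset.sum_congr rfl fun z _ => ?_
  rw [map_sum]
  refine Finset.sum_congr rfl fun w _ => ?_
  rw [map_mul, cupwt_c0 hA h]
  rfl

/-- closures -/
theorem Sym_clo {k : ℕ} {X' Y : Tangle} (hXY : X' * Y = 1) {γ : Br} {D : ((ℕ → Sta) → ℤ) → ((ℕ → Sta) → ℤ)}
    (hD : Sym Φ k (T γ) D) {P R : ((ℕ → Sta) → ℤ) → ((ℕ → Sta) → ℤ)} (hP : ∀ F, c0 (Φ X' F) = P (c0 F))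
    (hR : ∀ F, c0 (Φ Y F) = R (c0 F)) : Sym Φ k (X' * T γ * Y) (fun f => R (D (P f))) := by
  intro F
  obtain ⟨H, h1, h2⟩ := hD (Φ X' F)
  refine ⟨Φ Y H, ?_, ?_⟩
  · rw [hΦ.mul, hΦ.mul, h1, hΦ.add, hΦ.smul, ← hΦ.mul, hXY, hΦ.one]
  · rw [hR, h2, hP]

end act

end W2

end SLC
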