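import Pool.Agent.SLC.ActValW3

/-!
Matrix coefficients of the second state sum at the generators of degree 3.
-/

set_option autoImplicit false

open PowerSeries

namespace SLC

namespace W2

/-- two strands deleted at j + 2 -/
theorem del_up (i j : ℕ) (hij : i ≤ j) (t : ℕ → Sta) (z2 w2 a b c d : Sta) :
    del2 (j + 2) (up4 i (i + 1) (j + 2) (j + 3) (ins2 (j + 3) t z2 w2) a b c d) =
      fun n => if n = i then a else if n = i + 1 then b else if n = j + 2 then w2 else t n := by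
  ext1 n
  unfold del2
  by_cases h : n < j + 2
  · rw [if_pos h]
    unfold up4 ins2
    by_cases h1 : n = i
    · rw [if_pos h1, if_pos h1]
    · by_cases h2 : n = i + 1
      · rw [if_neg h1, if_pos h2, if_neg h1, if_pos h2]
      · rw [if_neg h1, if_neg h2, if_neg (by omega), if_neg (by omega), if_pos (by omega), if_neg h1, if_neg h2,
          if_neg (by omega)]
  · rw [if_neg h]
    unfold up4 ins2
    rw [if_neg (by omega), if_neg (by omega), if_neg (by omega), if_neg (by omega), if_neg (by omega),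
      if_neg (by omega)]
    by_cases h1 : n = j + 2
    · rw [if_pos (by omega), if_neg (by omega), if_neg (by omega), if_pos h1]
    · rw [if_neg (by omega), if_neg (by omega), if_neg (by omega), if_neg h1, Nat.add_sub_cancel]

theorem up4_swap (i j : ℕ) (t : ℕ → Sta) (a b c d : Sta) : up4 i (j + 2) (i + 1) (j + 3) t a b c d =
    if i = j + 2 then up4 i (j + 2) (i + 1) (j + 3) t a b c d else
      if i + 1 = j + 2 then up4 i (j + 2) (i + 1) (j + 3) t a b c d else up4 i (i + 1) (j + 2) (j + 3) t a c b d := by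
  split_ifs with h1 h2
  · rfl
  · rfl
  · ext1 n
    unfold up4
    by_cases h3 : n = i
    · rw [if_pos h3, if_pos h3]
    · by_cases h4 : n = j + 2
      · rw [if_neg h3, if_pos h4, if_neg h3, if_neg (by omega), if_pos h4]
      · by_cases h5 : n = i + 1
        · rw [if_neg h3, if_neg h4, if_pos h5, if_neg h3, if_pos h5]
        · rw [if_neg h3, if_neg h4, if_neg h5, if_neg h3, if_neg h5, if_neg h4]

/-- two strands deleted at i -/
theorem del_del (i j : ℕ) (hij : i ≤ j) (s : ℕ → Sta) (z1 w1 w2 a b : Sta) :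
    del2 i (fun n => if n = i then a else if n = i + 1 then b else if n = j + 2 then w2 else ins2 (i + 1) s z1 w1 n) =
      fun n => if n = j then w2 else if n = i then w1 else s n := by
  ext1 n
  unfold del2 ins2
  beta_reduce
  split_ifs <;> first | omega | rfl

section act

variable {A A' : PowerSeries ℤ} {Φ : Tangle → Fn → Fn} (hΦ : IsActW A A' Φ) (hA : A = 1 + X) (h : A * A' = 1)

include hΦ hA h

theorem lam_G34 {m x y z w : ℕ} {t : Tangle} (ht : G34 m x y z w t) (s s' : ℕ → Sta) :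
    lam Φ 3 s s' t = Mq' (fun a b c d => c0 (indf s') (up4 x y z w s a b c d)) (s x) (s y) (s z) (s w) := by
  obtain ⟨c, -, hx, hy, hz, hw, rfl⟩ := ht
  rw [one_mul, mul_one, lam_Sym (by omega) (Sym_cc hΦ hA h hx hy hz hw) s s', Mq_eq]

theorem lam_one {n p x y z w : ℕ} {t : Tangle} (ht : G3 n (C p) (U (p + 1)) x y z w t) (s s' : ℕ → Sta) :
    lam Φ 3 s s' t = ∑ z1, ∑ w1, cup0 z1 w1 * Mq' (fun a b c d =>
      cap0 (up4 x y z w (ins2 (p + 1) s z1 w1) a b c d p) (up4 x y z w (ins2 (p + 1) s z1 w1) a b c d (p + 1)) *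
        c0 (indf s') (del2 p (up4 x y z w (ins2 (p + 1) s z1 w1) a b c d)))
      (ins2 (p + 1) s z1 w1 x) (ins2 (p + 1) s z1 w1 y) (ins2 (p + 1) s z1 w1 z) (ins2 (p + 1) s z1 w1 w) := by
  obtain ⟨c, -, hx, hy, hz, hw, rfl⟩ := ht
  have hP : ∀ F, c0 (Φ (C p) F) = (fun f t => cap0 (t p) (t (p + 1)) * f (del2 p t)) (c0 F) := fun F => by
    ext1 s
    exact c0_C hΦ hA p F s
  have hR : ∀ F, c0 (Φ (U (p + 1)) F) = (fun f s => ∑ z, ∑ w, cup0 z w * f (ins2 (p + 1) s z w)) (c0 F) := fun F => by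
    ext1 s
    exact c0_U hΦ hA h (p + 1) F s
  rw [lam_Sym (by omega) (Sym_clo hΦ (zig p) (Sym_cc hΦ hA h hx hy hz hw)
    (P := fun f t => cap0 (t p) (t (p + 1)) * f (del2 p t))
    (R := fun f s => ∑ z, ∑ w, cup0 z w * f (ins2 (p + 1) s z w)) hP hR) s s']
  simp only [Mq_eq]

theorem lam_two {n i j x y z w : ℕ} {t : Tangle} (ht : G3 n (C i * C (j + 2)) (U (j + 3) * U (i + 1)) x y z w t)
    (s s' : ℕ → Sta) :
    lam Φ 3 s s' t = ∑ z1, ∑ w1, cup0 z1 w1 * ∑ z2, ∑ w2, cup0 z2 w2 * Mq' (fun a b c d =>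
      cap0 (up4 x y z w (ins2 (j + 3) (ins2 (i + 1) s z1 w1) z2 w2) a b c d (j + 2))
        (up4 x y z w (ins2 (j + 3) (ins2 (i + 1) s z1 w1) z2 w2) a b c d (j + 3)) *
      (cap0 (del2 (j + 2) (up4 x y z w (ins2 (j + 3) (ins2 (i + 1) s z1 w1) z2 w2) a b c d) i)
        (del2 (j + 2) (up4 x y z w (ins2 (j + 3) (ins2 (i + 1) s z1 w1) z2 w2) a b c d) (i + 1)) *
        c0 (indf s') (del2 i (del2 (j + 2) (up4 x y z w (ins2 (j + 3) (ins2 (i + 1) s z1 w1) z2 w2) a b c d)))))
      (ins2 (j + 3) (ins2 (i + 1) s z1 w1) z2 w2 x) (ins2 (j + 3) (ins2 (i + 1) s z1 w1) z2 w2 y)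
      (ins2 (j + 3) (ins2 (i + 1) s z1 w1) z2 w2 z) (ins2 (j + 3) (ins2 (i + 1) s z1 w1) z2 w2 w) := by
  obtain ⟨c, -, hx, hy, hz, hw, rfl⟩ := ht
  have hXY : C i * C (j + 2) * (U (j + 3) * U (i + 1)) = 1 := by
    have e1 : C (j + 2) * U (j + 3) = 1 := zig (j + 2)
    calc C i * C (j + 2) * (U (j + 3) * U (i + 1)) = C i * (C (j + 2) * U (j + 3)) * U (i + 1) := by
          simp only [mul_assoc]
      _ = 1 := by rw [e1, mul_one, zig]
  have hP : ∀ F, c0 (Φ (C i * C (j + 2)) F) = (fun f t => cap0 (t (j + 2)) (t (j + 3)) *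
      (cap0 (del2 (j + 2) t i) (del2 (j + 2) t (i + 1)) * f (del2 i (del2 (j + 2) t)))) (c0 F) := fun F => by
    ext1 s
    rw [hΦ.mul, c0_C hΦ hA, c0_C hΦ hA]
  have hR : ∀ F, c0 (Φ (U (j + 3) * U (i + 1)) F) = (fun f s => ∑ z1, ∑ w1, cup0 z1 w1 *
      ∑ z2, ∑ w2, cup0 z2 w2 * f (ins2 (j + 3) (ins2 (i + 1) s z1 w1) z2 w2)) (c0 F) := fun F => by
    ext1 s
    rw [hΦ.mul, c0_U hΦ hA h]
    simp only [c0_U hΦ hA h]
  rw [lam_Sym (by omega) (Sym_clo hΦ hXY (Sym_cc hΦ hA h hx hy hz hw)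
    (P := fun f t => cap0 (t (j + 2)) (t (j + 3)) *
      (cap0 (del2 (j + 2) t i) (del2 (j + 2) t (i + 1)) * f (del2 i (del2 (j + 2) t))))
    (R := fun f s => ∑ z1, ∑ w1, cup0 z1 w1 *
      ∑ z2, ∑ w2, cup0 z2 w2 * f (ins2 (j + 3) (ins2 (i + 1) s z1 w1) z2 w2)) hP hR) s s']
  simp only [Mq_eq]

theorem lam_G33u {m i j k : ℕ} (hij : i < j) (hjk : j < k) {t : Tangle} (ht : G33u m i j k t) (s s' : ℕ → Sta) :
    lam Φ 3 s s' t = ∑ z1, ∑ w1, cup0 z1 w1 * Mq' (fun a b c d => cap0 a b *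
      c0 (indf s') (fun n => if n = i then w1 else if n = j then c else if n = k then d else s n))
      (s i) z1 (s j) (s k) := by
  rw [lam_one hΦ hA h ht]
  refine Finset.sum_congr rfl fun z1 _ => Finset.sum_congr rfl fun w1 _ => ?_
  have e1 : ins2 (i + 1) s z1 w1 i = s i := by simp [ins2]
  have e2 : ins2 (i + 1) s z1 w1 (i + 1) = z1 := by simp [ins2]
  have e3 : ins2 (i + 1) s z1 w1 (j + 2) = s j := by
    unfold ins2
    rw [if_neg (by omega), if_neg (by omega), if_neg (by omega), Nat.add_sub_cancel]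
  have e4 : ins2 (i + 1) s z1 w1 (k + 2) = s k := by
    unfold ins2
    rw [if_neg (by omega), if_neg (by omega), if_neg (by omega), Nat.add_sub_cancel]
  have e5 : ∀ t a b c d, up4 i (i + 1) (j + 2) (k + 2) t a b c d i = a := by
    intro t a b c d
    simp [up4]
  have e6 : ∀ t a b c d, up4 i (i + 1) (j + 2) (k + 2) t a b c d (i + 1) = b := by
    intro t a b c d
    simp [up4]
  have e7 : ∀ a b c d, del2 i (up4 i (i + 1) (j + 2) (k + 2) (ins2 (i + 1) s z1 w1) a b c d) =
      fun n => if n = i then w1 else if n = j then c else if n = k then d else s n := by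
    intro a b c d
    ext1 n
    unfold del2 up4 ins2
    split_ifs <;> first | omega | rfl
  simp only [e1, e2, e3, e4, e5, e6, e7]

theorem lam_G33v {m p q q' : ℕ} (hq : q < q') (hp : p ≠ q) (hp' : p ≠ q') {t : Tangle} (ht : G33v m p q q' t)
    (s s' : ℕ → Sta) :
    lam Φ 3 s s' t = ∑ z1, ∑ w1, cup0 z1 w1 * Mq' (fun a b c d => cap0 a c *
      c0 (indf s') (fun n => if n = p then w1 else if n = q then b else if n = q' then d else s n))
      (s p) (s q) z1 (s q') := by
  rw [lam_one hΦ hA h ht]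
  refine Finset.sum_congr rfl fun z1 _ => Finset.sum_congr rfl fun w1 _ => ?_
  have e1 : ins2 (p + 1) s z1 w1 p = s p := by simp [ins2]
  have e2 : ins2 (p + 1) s z1 w1 (p + 1) = z1 := by simp [ins2]
  have e3 : ∀ r, r ≠ p → ins2 (p + 1) s z1 w1 (sh p r) = s r := by
    intro r hr
    unfold ins2 sh
    split_ifs <;> first | omega | rfl
  have e5 : ∀ t a b c d, up4 p (sh p q) (p + 1) (sh p q') t a b c d p = a := by
    intro t a b c d
    simp [up4]
  have e6 : ∀ t a b c d, up4 p (sh p q) (p + 1) (sh p q') t a b c d (p + 1) = c := by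
    intro t a b c d
    unfold up4 sh
    split_ifs <;> first | omega | rfl
  have e7 : ∀ a b c d, del2 p (up4 p (sh p q) (p + 1) (sh p q') (ins2 (p + 1) s z1 w1) a b c d) =
      fun n => if n = p then w1 else if n = q then b else if n = q' then d else s n := by
    intro a b c d
    ext1 n
    unfold del2 up4 ins2 sh
    split_ifs <;> first | omega | rfl
  simp only [e1, e2, e3 q hp.symm, e3 q' hp'.symm, e5, e6, e7]

theorem lam_G31 {m i : ℕ} {t : Tangle} (ht : G31 m i t) (s s' : ℕ → Sta) :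
    lam Φ 3 s s' t = ∑ z1, ∑ w1, cup0 z1 w1 * ∑ z2, ∑ w2, cup0 z2 w2 * Mq' (fun a b c d => cap0 c d * (cap0 a b *
      c0 (indf s') (fun n => if n = i then w2 else s n))) (s i) z1 w1 z2 := by
  rw [lam_two hΦ hA h ht]
  refine Finset.sum_congr rfl fun z1 _ => Finset.sum_congr rfl fun w1 _ => ?_
  congr 1
  refine Finset.sum_congr rfl fun z2 _ => Finset.sum_congr rfl fun w2 _ => ?_
  have e1 : ins2 (i + 3) (ins2 (i + 1) s z1 w1) z2 w2 i = s i := by simp [ins2]
  have e2 : ins2 (i + 3) (ins2 (i + 1) s z1 w1) z2 w2 (i + 1) = z1 := by simp [ins2]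
  have e3 : ins2 (i + 3) (ins2 (i + 1) s z1 w1) z2 w2 (i + 2) = w1 := by simp [ins2]
  have e4 : ins2 (i + 3) (ins2 (i + 1) s z1 w1) z2 w2 (i + 3) = z2 := by simp [ins2]
  have e5 : ∀ t a b c d, up4 i (i + 1) (i + 2) (i + 3) t a b c d (i + 2) = c := by
    intro t a b c d
    simp [up4]
  have e6 : ∀ t a b c d, up4 i (i + 1) (i + 2) (i + 3) t a b c d (i + 3) = d := by
    intro t a b c d
    simp [up4]
  have e7 : ∀ t a b c d, del2 (i + 2) (up4 i (i + 1) (i + 2) (i + 3) t a b c d) i = a := by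
    intro t a b c d
    simp [up4, del2]
  have e8 : ∀ t a b c d, del2 (i + 2) (up4 i (i + 1) (i + 2) (i + 3) t a b c d) (i + 1) = b := by
    intro t a b c d
    simp [up4, del2]
  have e9 : ∀ a b c d, del2 i (del2 (i + 2) (up4 i (i + 1) (i + 2) (i + 3)
      (ins2 (i + 3) (ins2 (i + 1) s z1 w1) z2 w2) a b c d)) = fun n => if n = i then w2 else s n := by
    intro a b c d
    rw [del_up i i le_rfl, del_del i i le_rfl]
    ext1 n
    by_cases h1 : n = i
    · rw [if_pos h1, if_pos h1]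
    · rw [if_neg h1, if_neg h1, if_neg h1]
  simp only [e1, e2, e3, e4, e5, e6, e7, e8, e9]

theorem lam_G32a {m i j : ℕ} (hij : i < j) {t : Tangle} (ht : G32a m i j t) (s s' : ℕ → Sta) :
    lam Φ 3 s s' t = ∑ z1, ∑ w1, cup0 z1 w1 * ∑ z2, ∑ w2, cup0 z2 w2 * Mq' (fun a b c d => cap0 c d * (cap0 a b *
      c0 (indf s') (fun n => if n = j then w2 else if n = i then w1 else s n))) (s i) z1 (s j) z2 := by
  rw [lam_two hΦ hA h ht]
  refine Finset.sum_congr rfl fun z1 _ => Finset.sum_congr rfl fun w1 _ => ?_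
  congr 1
  refine Finset.sum_congr rfl fun z2 _ => Finset.sum_congr rfl fun w2 _ => ?_
  have e1 : ins2 (j + 3) (ins2 (i + 1) s z1 w1) z2 w2 i = s i := by
    unfold ins2
    split_ifs <;> first | omega | rfl
  have e2 : ins2 (j + 3) (ins2 (i + 1) s z1 w1) z2 w2 (i + 1) = z1 := by
    unfold ins2
    split_ifs <;> first | omega | rfl
  have e3 : ins2 (j + 3) (ins2 (i + 1) s z1 w1) z2 w2 (j + 2) = s j := by
    unfold ins2
    split_ifs <;> first | omega | rfl
  have e4 : ins2 (j + 3) (ins2 (i + 1) s z1 w1) z2 w2 (j + 3) = z2 := by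
    unfold ins2
    split_ifs <;> first | omega | rfl
  have e5 : ∀ t a b c d, up4 i (i + 1) (j + 2) (j + 3) t a b c d (j + 2) = c := by
    intro t a b c d
    unfold up4
    split_ifs <;> first | omega | rfl
  have e6 : ∀ t a b c d, up4 i (i + 1) (j + 2) (j + 3) t a b c d (j + 3) = d := by
    intro t a b c d
    unfold up4
    split_ifs <;> first | omega | rfl
  have e7 : ∀ t a b c d, del2 (j + 2) (up4 i (i + 1) (j + 2) (j + 3) t a b c d) i = a := by
    intro t a b c d
    unfold del2 up4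
    split_ifs <;> first | omega | rfl
  have e8 : ∀ t a b c d, del2 (j + 2) (up4 i (i + 1) (j + 2) (j + 3) t a b c d) (i + 1) = b := by
    intro t a b c d
    unfold del2 up4
    split_ifs <;> first | omega | rfl
  have e9 : ∀ a b c d, del2 i (del2 (j + 2) (up4 i (i + 1) (j + 2) (j + 3)
      (ins2 (j + 3) (ins2 (i + 1) s z1 w1) z2 w2) a b c d)) =
      fun n => if n = j then w2 else if n = i then w1 else s n := by
    intro a b c d
    rw [del_up i j hij.le, del_del i j hij.le]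
  simp only [e1, e2, e3, e4, e5, e6, e7, e8, e9]

theorem lam_G32b {m i j : ℕ} (hij : i < j) {t : Tangle} (ht : G32b m i j t) (s s' : ℕ → Sta) :
    lam Φ 3 s s' t = ∑ z1, ∑ w1, cup0 z1 w1 * ∑ z2, ∑ w2, cup0 z2 w2 * Mq' (fun a b c d => cap0 b d * (cap0 a c *
      c0 (indf s') (fun n => if n = j then w2 else if n = i then w1 else s n))) (s i) (s j) z1 z2 := by
  rw [lam_two hΦ hA h ht]
  refine Finset.sum_congr rfl fun z1 _ => Finset.sum_congr rfl fun w1 _ => ?_
  congr 1
  refine Finset.sum_congr rfl fun z2 _ => Finset.sum_congr rfl fun w2 _ => ?_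
  have e1 : ins2 (j + 3) (ins2 (i + 1) s z1 w1) z2 w2 i = s i := by
    unfold ins2
    split_ifs <;> first | omega | rfl
  have e2 : ins2 (j + 3) (ins2 (i + 1) s z1 w1) z2 w2 (i + 1) = z1 := by
    unfold ins2
    split_ifs <;> first | omega | rfl
  have e3 : ins2 (j + 3) (ins2 (i + 1) s z1 w1) z2 w2 (j + 2) = s j := by
    unfold ins2
    split_ifs <;> first | omega | rfl
  have e4 : ins2 (j + 3) (ins2 (i + 1) s z1 w1) z2 w2 (j + 3) = z2 := by
    unfold ins2
    split_ifs <;> first | omega | rfl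
  have e5 : ∀ t a b c d, up4 i (j + 2) (i + 1) (j + 3) t a b c d (j + 2) = b := by
    intro t a b c d
    unfold up4
    split_ifs <;> first | omega | rfl
  have e6 : ∀ t a b c d, up4 i (j + 2) (i + 1) (j + 3) t a b c d (j + 3) = d := by
    intro t a b c d
    unfold up4
    split_ifs <;> first | omega | rfl
  have e7 : ∀ t a b c d, del2 (j + 2) (up4 i (j + 2) (i + 1) (j + 3) t a b c d) i = a := by
    intro t a b c d
    unfold del2 up4
    split_ifs <;> first | omega | rfl
  have e8 : ∀ t a b c d, del2 (j + 2) (up4 i (j + 2) (i + 1) (j + 3) t a b c d) (i + 1) = c := by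
    intro t a b c d
    unfold del2 up4
    split_ifs <;> first | omega | rfl
  have e9 : ∀ a b c d, del2 i (del2 (j + 2) (up4 i (j + 2) (i + 1) (j + 3)
      (ins2 (j + 3) (ins2 (i + 1) s z1 w1) z2 w2) a b c d)) =
      fun n => if n = j then w2 else if n = i then w1 else s n := by
    intro a b c d
    rw [up4_swap, if_neg (by omega), if_neg (by omega), del_up i j hij.le, del_del i j hij.le]
  simp only [e1, e2, e3, e4, e5, e6, e7, e8, e9]

end act

end W2

end SLC
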