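import Pool.Agent.SLC.ActValW4

/-!
Invariants of degree 3 which separate the generators.
-/

set_option autoImplicit false

open PowerSeries

namespace SLC

namespace W2

theorem Mq'_0 (f : Sta → Sta → Sta → Sta → ℤ) (y z w : Sta) : Mq' f none y z w = 0 := rfl

theorem Mq'_1 (f : Sta → Sta → Sta → Sta → ℤ) (x z w : Sta) : Mq' f x none z w = 0 := by
  cases x <;> rfl

theorem Mq'_2 (f : Sta → Sta → Sta → Sta → ℤ) (x y w : Sta) : Mq' f x y none w = 0 := by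
  cases x <;> cases y <;> rfl

theorem Mq'_3 (f : Sta → Sta → Sta → Sta → ℤ) (x y z : Sta) : Mq' f x y z none = 0 := by
  cases x <;> cases y <;> cases z <;> rfl

/-! ### numerical values -/

def V31 : ℤ := ∑ z1, ∑ w1, cup0 z1 w1 * ∑ z2, ∑ w2, cup0 z2 w2 * Mq' (fun a b c d => cap0 c d * (cap0 a b *
  (if w2 = q00 then 1 else 0))) q00 z1 w1 z2

theorem V31_ne : V31 ≠ 0 := by
  decide +kernel

def V32a (x y : Sta) : ℤ := ∑ z1, ∑ w1, cup0 z1 w1 * ∑ z2, ∑ w2, cup0 z2 w2 * Mq' (fun a b c d =>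
  cap0 c d * (cap0 a b * (if w1 = x ∧ w2 = y then 1 else 0))) q00 z1 q10 z2

def V32b (x y : Sta) : ℤ := ∑ z1, ∑ w1, cup0 z1 w1 * ∑ z2, ∑ w2, cup0 z2 w2 * Mq' (fun a b c d =>
  cap0 b d * (cap0 a c * (if w1 = x ∧ w2 = y then 1 else 0))) q00 q10 z1 z2

theorem V32 : V32a q00 q10 + 2 * V32a q10 q00 ≠ 0 ∧ V32b q00 q10 + 2 * V32b q10 q00 = 0 ∧
    2 * V32a q00 q10 + V32a q10 q00 = 0 ∧ 2 * V32b q00 q10 + V32b q10 q00 ≠ 0 := by
  decide +kernel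

def V33u (x y z x' y' z' : Sta) : ℤ := ∑ z1, ∑ w1, cup0 z1 w1 * Mq' (fun a b c d => cap0 a b *
  (if w1 = x' ∧ c = y' ∧ d = z' then 1 else 0)) x z1 y z

def V33v (x y z x' y' z' : Sta) : ℤ := ∑ z1, ∑ w1, cup0 z1 w1 * Mq' (fun a b c d => cap0 a c *
  (if w1 = x' ∧ b = y' ∧ d = z' then 1 else 0)) x y z1 z

theorem V33 : V33u q10 q00 q00 q10 q00 q00 = 0 ∧ V33u q00 q10 q00 q00 q10 q00 = 0 ∧
    V33u q00 q00 q10 q00 q00 q10 = 0 ∧ V33u q00 q00 q10 q00 q10 q00 ≠ 0 ∧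
    V33v q10 q00 q00 q10 q00 q00 + V33v q00 q10 q00 q00 q10 q00 = 0 ∧
    V33v q10 q00 q00 q10 q00 q00 + V33v q00 q00 q10 q00 q00 q10 = 0 ∧
    V33v q00 q10 q00 q00 q10 q00 + V33v q00 q00 q10 q00 q00 q10 ≠ 0 := by
  decide +kernel

def V34 (x y z w x' y' z' w' : Sta) : ℤ := Mq' (fun a b c d => if a = x' ∧ b = y' ∧ c = z' ∧ d = w' then 1 else 0) x y z w

theorem V34_val : V34 q00 q00 q00 q10 q00 q10 q00 q00 ≠ 0 ∧ V34 q00 q00 q00 q10 q00 q00 q10 q00 = 0 := by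
  decide +kernel

end W2

end SLC
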