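import Mathlib

/-!
Alternating forms on finitely generated abelian groups are differences of a bilinear form and its transpose.
-/

set_option autoImplicit false

open scoped DirectSum

namespace SLC

/-- M is a finite direct sum of cyclic groups (given by projections) -/
def CycDec (M : Type) [AddCommGroup M] : Prop :=
  ∃ (ι : Type) (_ : Fintype ι) (π : ι → (M →+ M)), (∀ a, ∑ i, π i a = a) ∧ ∀ i, ∃ e, ∀ a, ∃ z : ℤ, π i a = z • e

theorem CycDec.of_equiv {M M' : Type} [AddCommGroup M] [AddCommGroup M'] (h : CycDec M) (φ : M' ≃+ M) : CycDec M' := by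
  obtain ⟨ι, iι, π, h1, h2⟩ := h
  refine ⟨ι, iι, fun i => (φ.symm.toAddMonoidHom.comp (π i)).comp φ.toAddMonoidHom, ?_, ?_⟩
  · intro a
    have h3 := congrArg φ.symm (h1 (φ a))
    rw [map_sum, AddEquiv.symm_apply_apply] at h3
    exact h3
  · intro i
    obtain ⟨e, he⟩ := h2 i
    refine ⟨φ.symm e, ?_⟩
    intro a
    obtain ⟨z, hz⟩ := he (φ a)
    refine ⟨z, ?_⟩
    change φ.symm (π i (φ a)) = _
    rw [hz, map_zsmul]

theorem CycDec.prod {M M' : Type} [AddCommGroup M] [AddCommGroup M'] (h : CycDec M) (h' : CycDec M') :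
    CycDec (M × M') := by
  obtain ⟨ι, iι, π, h1, h2⟩ := h
  obtain ⟨ι', iι', π', h1', h2'⟩ := h'
  refine ⟨ι ⊕ ι', inferInstance, Sum.elim (fun i => ((AddMonoidHom.inl M M').comp (π i)).comp (AddMonoidHom.fst M M'))
    (fun i => ((AddMonoidHom.inr M M').comp (π' i)).comp (AddMonoidHom.snd M M')), ?_, ?_⟩
  · rintro ⟨a, b⟩
    rw [Fintype.sum_sum_type]
    simp only [Sum.elim_inl, Sum.elim_inr, AddMonoidHom.comp_apply, AddMonoidHom.coe_fst, AddMonoidHom.coe_snd]
    rw [← map_sum, ← map_sum, h1, h1']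
    simp
  · rintro (i | i)
    · obtain ⟨e, he⟩ := h2 i
      refine ⟨(e, 0), ?_⟩
      rintro ⟨a, b⟩
      obtain ⟨z, hz⟩ := he a
      refine ⟨z, ?_⟩
      simp [hz]
    · obtain ⟨e, he⟩ := h2' i
      refine ⟨(0, e), ?_⟩
      rintro ⟨a, b⟩
      obtain ⟨z, hz⟩ := he b
      refine ⟨z, ?_⟩
      simp [hz]

theorem CycDec.pi {ι : Type} [Fintype ι] (M : ι → Type) [∀ i, AddCommGroup (M i)] (u : ∀ i, M i)
    (h : ∀ i (a : M i), ∃ z : ℤ, a = z • u i) : CycDec (∀ i, M i) := by
  classical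
  refine ⟨ι, inferInstance, fun i => (AddMonoidHom.single M i).comp (Pi.evalAddMonoidHom M i), ?_, ?_⟩
  · intro a
    exact Finset.univ_sum_single a
  · intro i
    refine ⟨Pi.single i (u i), ?_⟩
    intro a
    obtain ⟨z, hz⟩ := h i (a i)
    refine ⟨z, ?_⟩
    change Pi.single i (a i) = _
    rw [hz]
    exact map_zsmul (AddMonoidHom.single M i) z (u i)

theorem cycDec_of_fg (M : Type) [AddCommGroup M] [AddGroup.FG M] : CycDec M := by
  classical
  obtain ⟨n, ι, fι, p, -, e, ⟨f⟩⟩ := AddCommGroup.equiv_free_prod_directSum_zmod M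
  have h1 : CycDec (Fin n → ℤ) := CycDec.pi (fun _ => ℤ) (fun _ => 1) fun i a => ⟨a, by simp⟩
  have h2 : CycDec (∀ i, ZMod (p i ^ e i)) := CycDec.pi (fun i => ZMod (p i ^ e i)) (fun _ => 1) fun i a => by
    obtain ⟨z, hz⟩ := ZMod.intCast_surjective a
    exact ⟨z, by rw [zsmul_one, hz]⟩
  have h3 : CycDec (Fin n →₀ ℤ) :=
    h1.of_equiv (Finsupp.linearEquivFunOnFinite ℤ ℤ (Fin n)).toAddEquiv
  have h4 : CycDec (⨁ i : ι, ZMod (p i ^ e i)) := h2.of_equiv (DirectSum.addEquivProd _)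
  exact (h3.prod h4).of_equiv f

/-- an alternating form on a finitely generated abelian group is the antisymmetrisation of a bilinear form -/
theorem exists_beta {M Z : Type} [AddCommGroup M] [AddCommGroup Z] (hM : CycDec M) (Λ : M → M → Z)
    (h1 : ∀ a b c, Λ (a + b) c = Λ a c + Λ b c) (h2 : ∀ a b c, Λ a (b + c) = Λ a b + Λ a c) (h0 : ∀ a, Λ a a = 0) :
    ∃ β : M → M → Z, (∀ a b c, β (a + b) c = β a c + β b c) ∧ (∀ a b c, β a (b + c) = β a b + β a c) ∧
      ∀ a b, β a b - β b a = Λ a b := by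
  classical
  obtain ⟨ι, iι, π, hπ, hcyc⟩ := hM
  let ε := Fintype.equivFin ι
  let L1 : M → M →+ Z := fun b => AddMonoidHom.mk' (fun a => Λ a b) (fun a a' => h1 a a' b)
  let L2 : M → M →+ Z := fun a => AddMonoidHom.mk' (fun b => Λ a b) (fun b b' => h2 a b b')
  have hanti : ∀ a b, Λ a b = - Λ b a := by
    intro a b
    have h3 := h0 (a + b)
    rw [h1, h2, h2, h0, h0, zero_add, add_zero] at h3
    exact eq_neg_of_add_eq_zero_left h3
  have hdiag : ∀ i a b, Λ (π i a) (π i b) = 0 := by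
    intro i a b
    obtain ⟨e, he⟩ := hcyc i
    obtain ⟨z, hz⟩ := he a
    obtain ⟨z', hz'⟩ := he b
    rw [hz, hz']
    have h3 : Λ (z • e) (z' • e) = z • Λ e (z' • e) := map_zsmul (L1 (z' • e)) z e
    have h4 : Λ e (z' • e) = z' • Λ e e := map_zsmul (L2 e) z' e
    rw [h3, h4, h0, smul_zero, smul_zero]
  refine ⟨fun a b => ∑ i, ∑ j, if ε i < ε j then Λ (π i a) (π j b) else 0, ?_, ?_, ?_⟩
  · intro a b c
    rw [← Finset.sum_add_distrib]
    refine Finset.sum_congr rfl fun i _ => ?_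
    rw [← Finset.sum_add_distrib]
    refine Finset.sum_congr rfl fun j _ => ?_
    split_ifs
    · rw [map_add, h1]
    · rw [add_zero]
  · intro a b c
    rw [← Finset.sum_add_distrib]
    refine Finset.sum_congr rfl fun i _ => ?_
    rw [← Finset.sum_add_distrib]
    refine Finset.sum_congr rfl fun j _ => ?_
    split_ifs
    · rw [map_add, h2]
    · rw [add_zero]
  · intro a b
    have e1 : Λ a b = ∑ i, ∑ j, Λ (π i a) (π j b) := by
      have e2 : Λ a b = Λ (∑ i, π i a) (∑ j, π j b) := by rw [hπ, hπ]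
      rw [e2]
      have e3 : Λ (∑ i, π i a) (∑ j, π j b) = ∑ i, Λ (π i a) (∑ j, π j b) := map_sum (L1 (∑ j, π j b)) _ _
      rw [e3]
      refine Finset.sum_congr rfl fun i _ => ?_
      exact map_sum (L2 (π i a)) _ _
    have e4 : (∑ i, ∑ j, if ε i < ε j then Λ (π i b) (π j a) else 0) =
        - ∑ i, ∑ j, if ε j < ε i then Λ (π i a) (π j b) else 0 := by
      rw [Finset.sum_comm, ← Finset.sum_neg_distrib]
      refine Finset.sum_congr rfl fun i _ => ?_
      rw [← Finset.sum_neg_distrib]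
      refine Finset.sum_congr rfl fun j _ => ?_
      split_ifs
      · exact hanti _ _
      · rw [neg_zero]
    dsimp only
    rw [e1, e4, sub_neg_eq_add, ← Finset.sum_add_distrib]
    refine Finset.sum_congr rfl fun i _ => ?_
    rw [← Finset.sum_add_distrib]
    refine Finset.sum_congr rfl fun j _ => ?_
    rcases lt_trichotomy (ε i) (ε j) with h | h | h
    · rw [if_pos h, if_neg (not_lt.mpr h.le), add_zero]
    · have hij : i = j := ε.injective h
      subst hij
      rw [if_neg (lt_irrefl _), add_zero, hdiag]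
    · rw [if_neg (not_lt.mpr h.le), if_pos h, zero_add]

end SLC
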