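import Pool.Agent.SLC.Red3

/-!
String links: levels with two returns.
-/

set_option autoImplicit false

namespace SLC

/-- one return of the component i and one of the component j (i ≤ j), two returns of i if i = j -/
def bb : ℕ → ℕ → ℕ → List ℕ
  | 0, _, _ => []
  | m + 1, 0, 0 => 2 :: bz m
  | m + 1, 0, j + 1 => 1 :: bu m j
  | m + 1, _ + 1, 0 => 0 :: bz m
  | m + 1, i + 1, j + 1 => 0 :: bb m i j

theorem bb_len (m : ℕ) : ∀ i j, (bb m i j).length = m := by
  induction m with
  | zero => intro i j; rfl
  | succ m ih =>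
    intro i j
    rcases i with _ | i <;> rcases j with _ | j
    · rw [bb, List.length_cons, bz_len]
    · rw [bb, List.length_cons, bu_len]
    · rw [bb, List.length_cons, bz_len]
    · rw [bb, List.length_cons, ih]

theorem width_bb (m : ℕ) : ∀ i j, i ≤ j → j < m → width (bb m i j) = m + 4 := by
  induction m with
  | zero => intro i j _ hj; exact absurd hj (Nat.not_lt_zero _)
  | succ m ih =>
    intro i j hij hj
    rcases i with _ | i <;> rcases j with _ | j
    · rw [bb, width, width_bz]; omega
    · rw [bb, width, width_bu m j (by omega)]; omega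
    · omega
    · rw [bb, width, ih i j (by omega) (by omega)]; omega

theorem W_bb (m : ℕ) : ∀ i j, i ≤ j → j < m → ∀ k, k ≤ m →
    W (bb m i j) k = if k ≤ i then k else if k ≤ j then k + 2 else k + 4 := by
  induction m with
  | zero => intro i j _ hj; exact absurd hj (Nat.not_lt_zero _)
  | succ m ih =>
    intro i j hij hj k hk
    rcases k with _ | k
    · rw [W_zero, if_pos (Nat.zero_le _)]
    rcases i with _ | i <;> rcases j with _ | j
    · rw [bb, W_succ, W_bz m k (by omega), if_neg (by omega), if_neg (by omega)]; omega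
    · rw [bb, W_succ, W_bu m j (by omega) k (by omega)]
      split_ifs <;> omega
    · omega
    · rw [bb, W_succ, ih i j (by omega) (by omega) k (by omega)]
      split_ifs <;> omega

theorem caps_bb (m : ℕ) : ∀ i j, i ≤ j → j < m → ∀ o, caps o (bb m i j) = C (o + i) * C (o + j + 2) := by
  induction m with
  | zero => intro i j _ hj; exact absurd hj (Nat.not_lt_zero _)
  | succ m ih =>
    intro i j hij hj o
    rcases i with _ | i <;> rcases j with _ | j
    · rw [bb, caps, caps_bz, capRow, capRow, capRow, mul_one, mul_one]; rfl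
    · rw [bb, caps, caps_bu m j (by omega), capRow, capRow, mul_one]
      congr 2
      omega
    · omega
    · rw [bb, caps, ih i j (by omega) (by omega), capRow, one_mul]
      congr 2 <;> omega

theorem cups_bb (m : ℕ) : ∀ i j, i ≤ j → j < m → ∀ o, cups o (bb m i j) = U (o + j + 3) * U (o + i + 1) := by
  induction m with
  | zero => intro i j _ hj; exact absurd hj (Nat.not_lt_zero _)
  | succ m ih =>
    intro i j hij hj o
    rcases i with _ | i <;> rcases j with _ | j
    · rw [bb, cups, cups_bz, cupRow, cupRow, cupRow, one_mul, one_mul]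
    · rw [bb, cups, cups_bu m j (by omega), cupRow, cupRow, one_mul]
      congr 2
      omega
    · omega
    · rw [bb, cups, ih i j (by omega) (by omega), cupRow, mul_one]
      congr 2 <;> omega

theorem cl_bb {m i j : ℕ} (hij : i ≤ j) (hj : j < m) (g : Br) :
    cl (bb m i j) g = C i * C (j + 2) * T g * (U (j + 3) * U (i + 1)) := by
  rw [cl_def, caps_bb m i j hij hj, cups_bb m i j hij hj, Nat.zero_add, Nat.zero_add]

theorem le_bu' : ∀ (r : List ℕ), (∀ a ∈ r, 2 ≤ a) → ∀ i, List.Forall₂ (· ≤ ·) (bu r.length i) r :=
  fun r h i => le_bu r (fun a ha => le_trans one_le_two (h a ha)) i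

theorem le_bb : ∀ (r : List ℕ), (∀ a ∈ r, 2 ≤ a) → ∀ i j, List.Forall₂ (· ≤ ·) (bb r.length i j) r
  | [], _, _, _ => List.Forall₂.nil
  | a :: r, h, 0, 0 => List.Forall₂.cons (h a List.mem_cons_self) (le_bz r)
  | a :: r, h, 0, j + 1 => List.Forall₂.cons (le_trans one_le_two (h a List.mem_cons_self))
      (le_bu' r (fun b hb => h b (List.mem_cons_of_mem _ hb)) j)
  | a :: r, _, _ + 1, 0 => List.Forall₂.cons (Nat.zero_le a) (le_bz r)
  | a :: r, h, i + 1, j + 1 => List.Forall₂.cons (Nat.zero_le a) (le_bb r (fun b hb => h b (List.mem_cons_of_mem _ hb)) i j)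

end SLC
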