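import Mathlib

/-!
String links, abstract part: cubes in a filtered group.
-/

set_option autoImplicit false

namespace SLC

/-- the cube of dimension r whose value is g on the face w and 1 elsewhere -/
def gen {G : Type} [Group G] {r : ℕ} (w : Finset (Fin r)) (g : G) : (Fin r → Bool) → G :=
  fun e => if ∀ i ∈ w, e i = true then g else 1

/-- the group of cubes of dimension r of the filtration F -/
def HK {G : Type} [Group G] (r : ℕ) (F : ℕ → Subgroup G) : Subgroup ((Fin r → Bool) → G) :=
  Subgroup.closure {c | ∃ (w : Finset (Fin r)) (g : G), g ∈ F w.card ∧ c = gen w g}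

/-- the sign (-1)^|e| -/
def sg {r : ℕ} (e : Fin r → Bool) : ℤ := ∏ i, if e i = true then -1 else 1

/-- alternating sum over the vertices of a cube -/
def asum {A : Type} [AddCommGroup A] {r : ℕ} (u : (Fin r → Bool) → A) : A := ∑ e, sg e • u e

/-- a filtration of a group which starts in degree 1 -/
structure Filt {G : Type} [Group G] (F : ℕ → Subgroup G) : Prop where
  top : F 1 = ⊤
  zero : F 0 = ⊤
  anti : ∀ i, F (i + 1) ≤ F i
  comm : ∀ i j, ⁅F i, F j⁆ ≤ F (i + j)

/-- statement of Theorem T (module III): a filtered group without torsion in the degrees k with 2 k < d, and with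
F d trivial, is separated by the maps to abelian groups which vanish on the cubes of dimension d -/
def TheoremT : Prop :=
  ∀ (G : Type) [Group G] (F : ℕ → Subgroup G), Filt F → ∀ d : ℕ, 1 ≤ d → F d = ⊥ →
    (∀ k, 1 ≤ k → 2 * k < d → ∀ x ∈ F k, ∀ n : ℕ, 1 ≤ n → x ^ n ∈ F (k + 1) → x ∈ F (k + 1)) →
    ∀ x : G, (∀ (A : Type) [AddCommGroup A] (f : G → A), (∀ c ∈ HK d F, asum (fun e => f (c e)) = 0) → f x = f 1) →
      x = 1

end SLC
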