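import Mathlib
import Pool.Agent.SLC.Cube

/-!
Cubes in a filtered group: derivatives, values under additive functions.
-/

set_option autoImplicit false

namespace SLC

open scoped commutatorElement

variable {G : Type} [Group G] {r : ℕ} {F : ℕ → Subgroup G}

theorem Filt.antitone (hF : Filt F) : Antitone F := antitone_nat_of_succ_le hF.anti

/-- cubes with the active coordinates S, of the filtration shifted by s -/
def HKS (F : ℕ → Subgroup G) (S : Finset (Fin r)) (s : ℕ) : Subgroup ((Fin r → Bool) → G) :=
  Subgroup.closure {c | ∃ (w : Finset (Fin r)) (g : G), w ⊆ S ∧ g ∈ F (w.card + s) ∧ c = gen w g}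

theorem HK_eq : HK r F = HKS F Finset.univ 0 := by
  unfold HK HKS
  congr 1
  ext c
  simp

theorem gen_mem {S w : Finset (Fin r)} {s : ℕ} {g : G} (hw : w ⊆ S) (hg : g ∈ F (w.card + s)) :
    gen w g ∈ HKS F S s :=
  Subgroup.subset_closure ⟨w, g, hw, hg, rfl⟩

theorem gen_inv (w : Finset (Fin r)) (g : G) : (gen w g)⁻¹ = gen w g⁻¹ := by
  ext e
  simp only [Pi.inv_apply, gen]
  split_ifs <;> simp

theorem gen_one (w : Finset (Fin r)) : gen w (1 : G) = 1 := by
  ext e
  simp [gen]

theorem gen_comm (w w' : Finset (Fin r)) (g g' : G) :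
    ⁅gen w g, gen w' g'⁆ = gen (w ∪ w') ⁅g, g'⁆ := by
  ext e
  simp only [commutatorElement_def, Pi.mul_apply, Pi.inv_apply, gen]
  by_cases h : ∀ i ∈ w, e i = true <;> by_cases h' : ∀ i ∈ w', e i = true
  · have h2 : ∀ i ∈ w ∪ w', e i = true := fun i hi => (Finset.mem_union.1 hi).elim (h i) (h' i)
    rw [if_pos h, if_pos h', if_pos h2]
  · have h2 : ¬ ∀ i ∈ w ∪ w', e i = true := fun h2 => h' fun i hi => h2 i (Finset.mem_union_right _ hi)
    rw [if_pos h, if_neg h', if_neg h2]
    simp
  · have h2 : ¬ ∀ i ∈ w ∪ w', e i = true := fun h2 => h fun i hi => h2 i (Finset.mem_union_left _ hi)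
    rw [if_neg h, if_pos h', if_neg h2]
    simp
  · have h2 : ¬ ∀ i ∈ w ∪ w', e i = true := fun h2 => h fun i hi => h2 i (Finset.mem_union_left _ hi)
    rw [if_neg h, if_neg h', if_neg h2]
    simp

theorem conj_gen (hF : Filt F) {S : Finset (Fin r)} {s : ℕ} {w : Finset (Fin r)} {g : G} (hw : w ⊆ S)
    (hg : g ∈ F w.card) {u : (Fin r → Bool) → G} (hu : u ∈ HKS F S s) :
    gen w g * u * (gen w g)⁻¹ ∈ HKS F S s := by
  induction hu using Subgroup.closure_induction with
  | mem u hu =>
    obtain ⟨w', g', hw', hg', rfl⟩ := hu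
    have e : gen w g * gen w' g' * (gen w g)⁻¹ = gen (w ∪ w') ⁅g, g'⁆ * gen w' g' := by
      rw [← gen_comm, commutatorElement_def]
      group
    rw [e]
    refine mul_mem (gen_mem (Finset.union_subset hw hw') ?_) (gen_mem hw' hg')
    have h1 : ⁅g, g'⁆ ∈ F (w.card + (w'.card + s)) := hF.comm _ _ (Subgroup.commutator_mem_commutator hg hg')
    refine hF.antitone ?_ h1
    have := Finset.card_union_le w w'
    omega
  | one => simp
  | mul x y _ _ hx hy =>
    have e : gen w g * (x * y) * (gen w g)⁻¹ = (gen w g * x * (gen w g)⁻¹) * (gen w g * y * (gen w g)⁻¹) := by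
      group
    rw [e]
    exact mul_mem hx hy
  | inv x _ hx =>
    have e : gen w g * x⁻¹ * (gen w g)⁻¹ = (gen w g * x * (gen w g)⁻¹)⁻¹ := by
      group
    rw [e]
    exact inv_mem hx

theorem HKS_mono (hF : Filt F) {S S' : Finset (Fin r)} {s s' : ℕ} (hS : S ⊆ S') (hs : s' ≤ s) :
    HKS F S s ≤ HKS F S' s' := by
  refine (Subgroup.closure_le _).2 ?_
  rintro c ⟨w, g, hw, hg, rfl⟩
  exact gen_mem (hw.trans hS) (hF.antitone (by omega) hg)

theorem conj_mem (hF : Filt F) {S : Finset (Fin r)} {s : ℕ} {c : (Fin r → Bool) → G} (hc : c ∈ HKS F S 0) :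
    (∀ u ∈ HKS F S s, c * u * c⁻¹ ∈ HKS F S s) ∧ (∀ u ∈ HKS F S s, c⁻¹ * u * c ∈ HKS F S s) := by
  induction hc using Subgroup.closure_induction with
  | mem c hc =>
    obtain ⟨w, g, hw, hg, rfl⟩ := hc
    refine ⟨fun u hu => conj_gen hF hw hg hu, fun u hu => ?_⟩
    have := conj_gen hF hw (inv_mem hg) hu
    rw [← gen_inv, inv_inv] at this
    exact this
  | one => simp
  | mul x y _ _ hx hy =>
    refine ⟨fun u hu => ?_, fun u hu => ?_⟩
    · have := hx.1 _ (hy.1 u hu)
      have e : x * y * u * (x * y)⁻¹ = x * (y * u * y⁻¹) * x⁻¹ := by group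
      rw [e]
      exact this
    · have := hy.2 _ (hx.2 u hu)
      have e : (x * y)⁻¹ * u * (x * y) = y⁻¹ * (x⁻¹ * u * x) * y := by group
      rw [e]
      exact this
  | inv x _ hx =>
    refine ⟨fun u hu => ?_, fun u hu => ?_⟩
    · rw [inv_inv]
      exact hx.2 u hu
    · rw [inv_inv]
      exact hx.1 u hu

/-- the value at the coordinate i = b -/
def rho (i : Fin r) (b : Bool) : ((Fin r → Bool) → G) →* ((Fin r → Bool) → G) where
  toFun c := fun e => c (Function.update e i b)
  map_one' := rfl
  map_mul' _ _ := rfl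

theorem rho_apply (i : Fin r) (b : Bool) (c : (Fin r → Bool) → G) (e : Fin r → Bool) :
    rho i b c e = c (Function.update e i b) := rfl

theorem rho_false_gen_of_mem {i : Fin r} {w : Finset (Fin r)} (hi : i ∈ w) (g : G) :
    rho i false (gen w g) = 1 := by
  ext e
  rw [rho_apply, gen, if_neg, Pi.one_apply]
  intro h
  have := h i hi
  simp at this

theorem rho_true_gen {i : Fin r} {w : Finset (Fin r)} (g : G) :
    rho i true (gen w g) = gen (w.erase i) g := by
  ext e
  rw [rho_apply, gen, gen]
  congr 1
  apply propext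
  constructor
  · intro h j hj
    have h1 := h j (Finset.mem_of_mem_erase hj)
    rwa [Function.update_of_ne (Finset.ne_of_mem_erase hj)] at h1
  · intro h j hj
    by_cases hij : j = i
    · rw [hij]
      simp
    · rw [Function.update_of_ne hij]
      exact h j (Finset.mem_erase.2 ⟨hij, hj⟩)

theorem rho_gen_of_notMem {i : Fin r} {w : Finset (Fin r)} (hi : i ∉ w) (b : Bool) (g : G) :
    rho i b (gen w g) = gen w g := by
  ext e
  rw [rho_apply, gen, gen]
  congr 1
  apply propext
  constructor
  · intro h j hj
    have h1 := h j hj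
    have hji : j ≠ i := fun h2 => hi (by rw [← h2]; exact hj)
    rwa [Function.update_of_ne hji] at h1
  · intro h j hj
    have hji : j ≠ i := fun h2 => hi (by rw [← h2]; exact hj)
    rw [Function.update_of_ne hji]
    exact h j hj

theorem rho_mem {S : Finset (Fin r)} {s : ℕ} (i : Fin r) {c : (Fin r → Bool) → G} (hc : c ∈ HKS F S s) :
    rho i false c ∈ HKS F (S.erase i) s := by
  induction hc using Subgroup.closure_induction with
  | mem c hc =>
    obtain ⟨w, g, hw, hg, rfl⟩ := hc
    by_cases hi : i ∈ w
    · rw [rho_false_gen_of_mem hi]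
      exact one_mem _
    · rw [rho_gen_of_notMem hi]
      exact gen_mem (Finset.subset_erase.2 ⟨hw, hi⟩) hg
  | one =>
    rw [map_one]
    exact one_mem _
  | mul x y _ _ hx hy =>
    rw [map_mul]
    exact mul_mem hx hy
  | inv x _ hx =>
    rw [map_inv]
    exact inv_mem hx

/-- the derivative in the direction i -/
def der (i : Fin r) (c : (Fin r → Bool) → G) : (Fin r → Bool) → G := (rho i false c)⁻¹ * rho i true c

theorem der_mem (hF : Filt F) {S : Finset (Fin r)} {s : ℕ} (i : Fin r) {c : (Fin r → Bool) → G}
    (hc : c ∈ HKS F S s) : der i c ∈ HKS F (S.erase i) (s + 1) := by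
  induction hc using Subgroup.closure_induction with
  | mem c hc =>
    obtain ⟨w, g, hw, hg, rfl⟩ := hc
    unfold der
    by_cases hi : i ∈ w
    · rw [rho_false_gen_of_mem hi, rho_true_gen, inv_one, one_mul]
      refine gen_mem (Finset.erase_subset_erase _ hw) ?_
      have := Finset.card_erase_add_one hi
      have e : (w.erase i).card + (s + 1) = w.card + s := by omega
      rw [e]
      exact hg
    · rw [rho_gen_of_notMem hi, rho_gen_of_notMem hi, inv_mul_cancel]
      exact one_mem _
  | one =>
    unfold der
    rw [map_one, map_one, inv_one, one_mul]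
    exact one_mem _
  | mul x y hx0 hy0 hx hy =>
    have e : der i (x * y) = ((rho i false y)⁻¹ * der i x * rho i false y) * der i y := by
      unfold der
      rw [map_mul, map_mul]
      group
    rw [e]
    have h1 : rho i false y ∈ HKS F (S.erase i) 0 :=
      HKS_mono hF (subset_refl _) (Nat.zero_le _) (rho_mem i hy0)
    exact mul_mem ((conj_mem hF h1).2 _ hx) hy
  | inv x hx0 hx =>
    have e : der i x⁻¹ = rho i false x * (der i x)⁻¹ * (rho i false x)⁻¹ := by
      unfold der
      rw [map_inv, map_inv]
      group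
    rw [e]
    have h1 : rho i false x ∈ HKS F (S.erase i) 0 :=
      HKS_mono hF (subset_refl _) (Nat.zero_le _) (rho_mem i hx0)
    exact (conj_mem hF h1).1 _ (inv_mem hx)

theorem val_mem (hF : Filt F) {S : Finset (Fin r)} {s : ℕ} {c : (Fin r → Bool) → G}
    (hc : c ∈ HKS F S s) (e : Fin r → Bool) : c e ∈ F s := by
  induction hc using Subgroup.closure_induction with
  | mem c hc =>
    obtain ⟨w, g, hw, hg, rfl⟩ := hc
    unfold gen
    split_ifs
    · exact hF.antitone (by omega) hg
    · exact one_mem _
  | one => exact one_mem _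
  | mul x y _ _ hx hy => exact mul_mem hx hy
  | inv x _ hx => exact inv_mem hx

/-- n is additive on K -/
def AddOn {A : Type} [AddCommGroup A] (K : Subgroup G) (n : G → A) : Prop :=
  ∀ a ∈ K, ∀ b ∈ K, n (a * b) = n a + n b

theorem AddOn.one {A : Type} [AddCommGroup A] {K : Subgroup G} {n : G → A} (h : AddOn K n) : n 1 = 0 := by
  have := h 1 (one_mem _) 1 (one_mem _)
  rw [mul_one] at this
  exact left_eq_add.1 this

theorem AddOn.inv {A : Type} [AddCommGroup A] {K : Subgroup G} {n : G → A} (h : AddOn K n) {a : G} (ha : a ∈ K) :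
    n a⁻¹ = - n a := by
  have := h a⁻¹ (inv_mem ha) a ha
  rw [inv_mul_cancel, h.one] at this
  exact eq_neg_of_add_eq_zero_left this.symm

theorem AddOn.zpow {A : Type} [AddCommGroup A] {K : Subgroup G} {n : G → A} (h : AddOn K n) {a : G} (ha : a ∈ K)
    (z : ℤ) : n (a ^ z) = z • n a := by
  let φ : K →* Multiplicative A :=
    { toFun := fun y => Multiplicative.ofAdd (n y)
      map_one' := by
        rw [OneMemClass.coe_one, h.one]
        rfl
      map_mul' := fun x y => by
        rw [Subgroup.coe_mul, h _ x.2 _ y.2]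
        rfl }
  have := map_zpow φ ⟨a, ha⟩ z
  exact congrArg Multiplicative.toAdd this

theorem AddOn.list {A : Type} [AddCommGroup A] {K : Subgroup G} {n : G → A} (h : AddOn K n) (l : List G)
    (hl : ∀ y ∈ l, y ∈ K) : n l.prod = (l.map n).sum := by
  induction l with
  | nil => simp [h.one]
  | cons a l ih =>
    rw [List.prod_cons, h _ (hl a (by simp)) _ (Subgroup.list_prod_mem _ fun y hy => hl y (by simp [hy])),
      ih fun y hy => hl y (by simp [hy])]
    simp

theorem empty_const {s : ℕ} {c : (Fin r → Bool) → G} (hc : c ∈ HKS F ∅ s) : ∀ e e', c e = c e' := by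
  intro e e'
  induction hc using Subgroup.closure_induction with
  | mem c hc =>
    obtain ⟨w, g, hw, hg, rfl⟩ := hc
    rw [Finset.subset_empty.1 hw]
    simp [gen]
  | one => rfl
  | mul x y _ _ hx hy => rw [Pi.mul_apply, Pi.mul_apply, hx, hy]
  | inv x _ hx => rw [Pi.inv_apply, Pi.inv_apply, hx]

/-- the values of a cube under an additive function are given by elements of the filtration -/
theorem moebius (hF : Filt F) (S : Finset (Fin r)) : ∀ (s : ℕ) (c : (Fin r → Bool) → G), c ∈ HKS F S s →
    ∀ K : Subgroup G, (∀ e, c e ∈ K) → ∃ g : Finset (Fin r) → G, (∀ w, g w ∈ K ∧ g w ∈ F (w.card + s)) ∧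
      ∀ (A : Type) [AddCommGroup A] (n : G → A), AddOn K n → ∀ e, n (c e) =
        ∑ w ∈ S.powerset, if ∀ i ∈ w, e i = true then n (g w) else 0 := by
  induction S using Finset.induction_on with
  | empty =>
    intro s c hc K hK
    have h0 := empty_const hc
    refine ⟨fun w => if w = ∅ then c (fun _ => false) else 1, fun w => ?_, fun A _ n hn e => ?_⟩
    · dsimp only
      split_ifs with h
      · rw [h]
        refine ⟨hK _, ?_⟩
        have := val_mem hF hc (fun _ => false)
        simpa using this
      · exact ⟨one_mem _, one_mem _⟩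
    · simp only [Finset.powerset_empty, Finset.sum_singleton, Finset.notMem_empty, false_implies, implies_true,
        if_true]
      rw [h0 e]
  | insert i S hi ih =>
    intro s c hc K hK
    have h0 : rho i false c ∈ HKS F S s := by
      have := rho_mem i hc
      rwa [Finset.erase_insert hi] at this
    have h1 : der i c ∈ HKS F S (s + 1) := by
      have := der_mem hF i hc
      rwa [Finset.erase_insert hi] at this
    obtain ⟨g0, hg0, hn0⟩ := ih s _ h0 K (fun e => hK _)
    obtain ⟨g1, hg1, hn1⟩ := ih (s + 1) _ h1 K (fun e => mul_mem (inv_mem (hK _)) (hK _))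
    refine ⟨fun w => if i ∈ w then g1 (w.erase i) else g0 w, fun w => ?_, fun A _ n hn e => ?_⟩
    · dsimp only
      split_ifs with h
      · refine ⟨(hg1 _).1, ?_⟩
        have := (hg1 (w.erase i)).2
        have h2 := Finset.card_erase_add_one h
        have e : (w.erase i).card + (s + 1) = w.card + s := by omega
        rwa [e] at this
      · exact hg0 w
    · rw [Finset.sum_powerset_insert hi]
      have e0 : ∑ w ∈ S.powerset, (if ∀ j ∈ w, e j = true then n (if i ∈ w then g1 (w.erase i) else g0 w) else 0) =
          n (rho i false c e) := by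
        rw [hn0 A n hn e]
        refine Finset.sum_congr rfl fun w hw => ?_
        have hiw : i ∉ w := fun h => hi (Finset.mem_powerset.1 hw h)
        rw [if_neg hiw]
      rw [e0]
      by_cases hei : e i = true
      · have e1 : ∑ w ∈ S.powerset, (if ∀ j ∈ insert i w, e j = true then
            n (if i ∈ insert i w then g1 ((insert i w).erase i) else g0 (insert i w)) else 0) =
            n (der i c e) := by
          rw [hn1 A n hn e]
          refine Finset.sum_congr rfl fun w hw => ?_
          have hiw : i ∉ w := fun h => hi (Finset.mem_powerset.1 hw h)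
          rw [if_pos (Finset.mem_insert_self i w), Finset.erase_insert hiw]
          congr 1
          simp [hei]
        have e3 : n (rho i false c e) + n (der i c e) = n (rho i false c e * der i c e) :=
          (hn _ (hK _) _ (mul_mem (inv_mem (hK _)) (hK _))).symm
        rw [e1, e3]
        congr 1
        have e2 : Function.update e i true = e := by
          rw [← hei, Function.update_eq_self]
        simp only [der, Pi.mul_apply, Pi.inv_apply, rho_apply, e2]
        group
      · have hei' : e i = false := by simpa using hei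
        have e1 : ∑ w ∈ S.powerset, (if ∀ j ∈ insert i w, e j = true then
            n (if i ∈ insert i w then g1 ((insert i w).erase i) else g0 (insert i w)) else 0) = 0 := by
          refine Finset.sum_eq_zero fun w hw => ?_
          rw [if_neg]
          intro h
          exact hei (h i (Finset.mem_insert_self i w))
        rw [e1, add_zero, rho_apply]
        congr 2
        rw [← hei', Function.update_eq_self]

end SLC
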