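import Mathlib
import Pool.Agent.SLC.CubeDer

/-!
Theorem T: a filtered group without torsion in the degrees k with 2 k < d is separated modulo the term number d by
the maps which vanish on the cubes of dimension d.
-/

set_option autoImplicit false

namespace SLC

open scoped commutatorElement

variable {G : Type} [Group G] {F : ℕ → Subgroup G}

theorem sign_sum {r : ℕ} (w : Finset (Fin r)) (hw : w ≠ Finset.univ) :
    ∑ e : Fin r → Bool, sg e * (if ∀ i ∈ w, e i = true then 1 else 0) = 0 := by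
  obtain ⟨i, hi⟩ : ∃ i, i ∉ w := by
    by_contra h
    push Not at h
    exact hw (Finset.eq_univ_of_forall h)
  have h1 : ∀ e : Fin r → Bool, sg e * (if ∀ i ∈ w, e i = true then 1 else 0) =
      ∏ j, ((if e j = true then -1 else 1) * (if j ∈ w → e j = true then 1 else 0)) := by
    intro e
    rw [Finset.prod_mul_distrib, sg]
    congr 1
    by_cases h : ∀ i ∈ w, e i = true
    · rw [if_pos h]
      exact (Finset.prod_eq_one fun j _ => if_pos (h j)).symm
    · rw [if_neg h]
      push Not at h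
      obtain ⟨j, hj, hej⟩ := h
      exact (Finset.prod_eq_zero (Finset.mem_univ j) (if_neg fun h => hej (h hj))).symm
  rw [Finset.sum_congr rfl fun e _ => h1 e]
  have h2 := Finset.prod_univ_sum (fun _ : Fin r => (Finset.univ : Finset Bool))
    (fun j b => ((if b = true then (-1 : ℤ) else 1) * (if j ∈ w → b = true then 1 else 0)))
  rw [Fintype.piFinset_univ] at h2
  rw [← h2]
  refine Finset.prod_eq_zero (Finset.mem_univ i) ?_
  simp [hi]

theorem asum_zero (hF : Filt F) {d : ℕ} {c : (Fin d → Bool) → G} (hc : c ∈ HK d F) {K : Subgroup G}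
    (hK : ∀ e, c e ∈ K) {A : Type} [AddCommGroup A] {n : G → A} (hn : AddOn K n)
    (h0 : ∀ y ∈ K, y ∈ F d → n y = 0) : asum (fun e => n (c e)) = 0 := by
  rw [HK_eq] at hc
  obtain ⟨g, hg, hgn⟩ := moebius hF Finset.univ 0 c hc K hK
  unfold asum
  have h1 : ∀ e, sg e • n (c e) = ∑ w ∈ (Finset.univ : Finset (Fin d)).powerset,
      (sg e * (if ∀ i ∈ w, e i = true then 1 else 0)) • n (g w) := by
    intro e
    rw [hgn A n hn e, Finset.smul_sum]
    refine Finset.sum_congr rfl fun w _ => ?_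
    split_ifs <;> simp
  rw [Finset.sum_congr rfl fun e _ => h1 e, Finset.sum_comm]
  refine Finset.sum_eq_zero fun w _ => ?_
  rw [← Finset.sum_smul]
  by_cases hw : w = Finset.univ
  · have h2 := hg w
    rw [hw, Finset.card_univ, Fintype.card_fin, add_zero] at h2
    rw [hw, h0 _ h2.1 h2.2, smul_zero]
  · rw [sign_sum w hw, zero_smul]

theorem exists_quot (K N : Subgroup G) (hKN : ⁅K, K⁆ ≤ N) :
    ∃ (A : Type) (_ : AddCommGroup A) (n : G → A), AddOn K n ∧ (∀ y ∈ K, n y = 0 ↔ y ∈ N) ∧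
      ∀ a, ∃ y ∈ K, n y = a := by
  classical
  have hn : (N.subgroupOf K).Normal := by
    refine ⟨fun a ha g => ?_⟩
    rw [Subgroup.mem_subgroupOf] at ha ⊢
    have e : ((g * a * g⁻¹ : K) : G) = ⁅(g : G), (a : G)⁆ * (a : G) := by
      rw [commutatorElement_def]
      push_cast
      group
    rw [e]
    exact mul_mem (hKN (Subgroup.commutator_mem_commutator g.2 a.2)) ha
  have hcomm : ∀ a b : K ⧸ N.subgroupOf K, a * b = b * a := by
    intro a b
    obtain ⟨a, rfl⟩ := QuotientGroup.mk_surjective a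
    obtain ⟨b, rfl⟩ := QuotientGroup.mk_surjective b
    rw [← QuotientGroup.mk_mul, ← QuotientGroup.mk_mul, QuotientGroup.eq, Subgroup.mem_subgroupOf]
    have e : (((a * b)⁻¹ * (b * a) : K) : G) = ⁅(b : G)⁻¹, (a : G)⁻¹⁆ := by
      rw [commutatorElement_def]
      push_cast
      group
    rw [e]
    exact hKN (Subgroup.commutator_mem_commutator (inv_mem b.2) (inv_mem a.2))
  let _ : CommGroup (K ⧸ N.subgroupOf K) := { (inferInstance : Group (K ⧸ N.subgroupOf K)) with mul_comm := hcomm }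
  refine ⟨Additive (K ⧸ N.subgroupOf K), inferInstance,
    fun y => if h : y ∈ K then Additive.ofMul (QuotientGroup.mk (⟨y, h⟩ : K)) else 0, ?_, ?_, ?_⟩
  · intro a ha b hb
    dsimp only
    rw [dif_pos ha, dif_pos hb, dif_pos (mul_mem ha hb)]
    rfl
  · intro y hy
    dsimp only
    rw [dif_pos hy]
    have h1 : (QuotientGroup.mk (⟨y, hy⟩ : K) : K ⧸ N.subgroupOf K) = 1 ↔ y ∈ N := by
      rw [QuotientGroup.eq_one_iff, Subgroup.mem_subgroupOf]
    exact h1
  · intro a
    obtain ⟨y, hy⟩ := QuotientGroup.mk_surjective (Additive.toMul a)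
    refine ⟨y, y.2, ?_⟩
    dsimp only
    rw [dif_pos y.2]
    exact congrArg Additive.ofMul hy

theorem pow_cube (hF : Filt F) {d j : ℕ} {c : (Fin d → Bool) → G} (hc : c ∈ HK d F) {K : Subgroup G}
    (hK : ∀ e, c e ∈ K) {m : G → ℤ} (hm : AddOn K m) {g : G} (hg : g ∈ F j)
    (h0 : ∀ y ∈ K, y ∈ F (j + 1) → m y = 0) : (fun e => g ^ m (c e)) ∈ HK d F := by
  have hc' := hc
  rw [HK_eq] at hc
  obtain ⟨γ, hγ, hγn⟩ := moebius hF Finset.univ 0 c hc K hK
  have h1 : ∀ W : Finset (Finset (Fin d)),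
      (fun e : Fin d → Bool => g ^ (∑ w ∈ W, if ∀ i ∈ w, e i = true then m (γ w) else 0)) ∈ HK d F := by
    intro W
    induction W using Finset.induction_on with
    | empty =>
      simp only [Finset.sum_empty, zpow_zero]
      exact one_mem _
    | insert w W hw ih =>
      have e1 : (fun e : Fin d → Bool => g ^ (∑ w ∈ insert w W, if ∀ i ∈ w, e i = true then m (γ w) else 0)) =
          gen w (g ^ m (γ w)) *
            (fun e : Fin d → Bool => g ^ (∑ w ∈ W, if ∀ i ∈ w, e i = true then m (γ w) else 0)) := by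
        ext e
        rw [Finset.sum_insert hw, zpow_add, Pi.mul_apply, gen]
        congr 1
        split_ifs <;> simp
      rw [e1]
      refine mul_mem ?_ ih
      by_cases hwj : w.card ≤ j
      · refine Subgroup.subset_closure ⟨w, _, ?_, rfl⟩
        exact zpow_mem (hF.antitone hwj hg) _
      · have h2 : m (γ w) = 0 := by
          refine h0 _ (hγ w).1 (hF.antitone ?_ (hγ w).2)
          omega
        rw [h2, zpow_zero, gen_one]
        exact one_mem _
  have h2 := h1 (Finset.univ : Finset (Fin d)).powerset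
  have e : (fun e => g ^ m (c e)) = (fun e : Fin d → Bool =>
      g ^ (∑ w ∈ (Finset.univ : Finset (Fin d)).powerset, if ∀ i ∈ w, e i = true then m (γ w) else 0)) := by
    ext e
    rw [hγn ℤ m hm e]
  rw [e]
  exact h2

theorem retract (hF : Filt F) {d j : ℕ} (hj : 1 ≤ j)
    (htf : ∀ x ∈ F j, ∀ n : ℕ, 1 ≤ n → x ^ n ∈ F (j + 1) → x ∈ F (j + 1)) {ι : Type} [Finite ι]
    (c : ι → (Fin d → Bool) → G) (hc : ∀ t, c t ∈ HK d F) (hcj : ∀ t e, c t e ∈ F j) :
    ∃ p : G → G, (∀ y ∈ F (j + 1), p y = y) ∧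
      ∀ t, (fun e => p (c t e)) ∈ HK d F ∧ ∀ e, p (c t e) ∈ F (j + 1) := by
  classical
  have hjj : F (j + 1) ≤ F j := hF.anti j
  obtain ⟨A, iA, n, hn, hker, hsurj⟩ := exists_quot (F j) (F (j + 1))
    ((hF.comm j j).trans (hF.antitone (by omega)))
  have htA : Module.IsTorsionFree ℤ A := by
    rw [Module.isTorsionFree_iff_smul_eq_zero]
    intro z a hza
    by_contra hcon
    push Not at hcon
    obtain ⟨hz, ha⟩ := hcon
    obtain ⟨y, hy, rfl⟩ := hsurj a
    apply ha
    have h1 : (z.natAbs : ℤ) • n y = 0 := by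
      rcases Int.natAbs_eq z with h | h
      · rw [← h]
        exact hza
      · rw [h, neg_smul, neg_eq_zero] at hza
        exact hza
    rw [hker y hy]
    refine htf y hy z.natAbs (Int.natAbs_pos.2 hz) ?_
    rw [← hker _ (pow_mem hy _), ← zpow_natCast, hn.zpow hy]
    exact h1
  let M0 : Submodule ℤ A := Submodule.span ℤ (Set.range fun q : ι × (Fin d → Bool) => n (c q.1 q.2))
  have : Module.Finite ℤ M0 := Module.Finite.span_of_finite ℤ (Set.finite_range _)
  let b := Module.finBasis ℤ M0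
  have hsec : ∀ l, ∃ y ∈ F j, n y = (b l : A) := fun l => hsurj _
  choose g hgj hgn using hsec
  let co : Fin (Module.finrank ℤ M0) → G → ℤ := fun l y => if h : n y ∈ M0 then b.repr ⟨n y, h⟩ l else 0
  let K0 : Subgroup G :=
    { carrier := {y | y ∈ F j ∧ n y ∈ M0}
      mul_mem' := fun {x y} hx hy => ⟨mul_mem hx.1 hy.1, by
        rw [hn _ hx.1 _ hy.1]
        exact add_mem hx.2 hy.2⟩
      one_mem' := ⟨one_mem _, by
        rw [hn.one]
        exact zero_mem _⟩
      inv_mem' := fun {x} hx => ⟨inv_mem hx.1, by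
        rw [hn.inv hx.1]
        exact neg_mem hx.2⟩ }
  have hco : ∀ l, AddOn K0 (fun y => - co l y) := by
    intro l x hx y hy
    have hxy : n (x * y) ∈ M0 := (mul_mem hx hy : x * y ∈ K0).2
    simp only [co]
    rw [dif_pos hx.2, dif_pos hy.2, dif_pos hxy]
    have e : (⟨n (x * y), hxy⟩ : M0) = ⟨n x, hx.2⟩ + ⟨n y, hy.2⟩ := by
      apply Subtype.ext
      exact hn _ hx.1 _ hy.1
    rw [e, map_add, Finsupp.add_apply, neg_add]
  have hco0 : ∀ l y, n y = 0 → co l y = 0 := by
    intro l y hy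
    simp only [co]
    have hy' : n y ∈ M0 := by
      rw [hy]
      exact zero_mem _
    rw [dif_pos hy']
    have e : (⟨n y, hy'⟩ : M0) = 0 := Subtype.ext hy
    rw [e, map_zero, Finsupp.zero_apply]
  refine ⟨fun y => y * (List.ofFn fun l => g l ^ (- co l y)).prod, fun y hy => ?_, fun t => ?_⟩
  · have h0 : n y = 0 := (hker y (hjj hy)).2 hy
    have h1 : (fun l => g l ^ (- co l y)) = fun _ => (1 : G) := by
      funext l
      rw [hco0 l y h0, neg_zero, zpow_zero]
    dsimp only
    rw [h1, List.ofFn_const, List.prod_replicate, one_pow, mul_one]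
  · have hK0 : ∀ e, c t e ∈ K0 := fun e => ⟨hcj t e, Submodule.subset_span ⟨(t, e), rfl⟩⟩
    refine ⟨?_, fun e => ?_⟩
    · have e1 : (fun e => c t e * (List.ofFn fun l => g l ^ (- co l (c t e))).prod) =
          c t * (List.ofFn fun l => (fun e => g l ^ (- co l (c t e)) : (Fin d → Bool) → G)).prod := by
        ext e
        rw [Pi.mul_apply, Pi.list_prod_apply, List.map_ofFn]
        rfl
      rw [e1]
      refine mul_mem (hc t) (Subgroup.list_prod_mem _ fun u hu => ?_)
      obtain ⟨l, rfl⟩ := (List.mem_ofFn' _ _).1 hu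
      refine pow_cube hF (hc t) hK0 (hco l) (hgj l) fun y hy hy1 => ?_
      rw [hco0 l y ((hker y hy.1).2 hy1), neg_zero]
    · have hmem : ∀ y ∈ List.ofFn fun l => g l ^ (- co l (c t e)), y ∈ F j := by
        intro y hy
        obtain ⟨l, rfl⟩ := (List.mem_ofFn' _ _).1 hy
        exact zpow_mem (hgj l) _
      have hp : (List.ofFn fun l => g l ^ (- co l (c t e))).prod ∈ F j := Subgroup.list_prod_mem _ hmem
      rw [← hker _ (mul_mem (hcj t e) hp), hn _ (hcj t e) _ hp, hn.list _ hmem, List.map_ofFn, List.sum_ofFn]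
      have hM : n (c t e) ∈ M0 := (hK0 e).2
      have e2 : ∀ l, (n ∘ fun l => g l ^ (- co l (c t e))) l = - (b.repr ⟨n (c t e), hM⟩ l • (b l : A)) := by
        intro l
        rw [Function.comp_apply, hn.zpow (hgj l), hgn, neg_smul]
        simp only [co]
        rw [dif_pos hM]
      rw [Finset.sum_congr rfl fun l _ => e2 l, Finset.sum_neg_distrib]
      have e3 := congrArg (Submodule.subtype M0) (b.sum_repr ⟨n (c t e), hM⟩)
      rw [map_sum] at e3
      simp only [map_smul, Submodule.subtype_apply] at e3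
      rw [e3, add_neg_cancel]

/-- delta functions -/
noncomputable abbrev dl (x : G) : G →₀ ℤ := Finsupp.single x 1

/-- span of the alternating sums of the cubes with values in K -/
noncomputable def JJd (d : ℕ) (F : ℕ → Subgroup G) (K : Subgroup G) : Submodule ℤ (G →₀ ℤ) :=
  Submodule.span ℤ {u | ∃ c ∈ HK d F, (∀ e, c e ∈ K) ∧ u = asum (fun e => dl (c e))}

theorem map_asum {A B : Type} [AddCommGroup A] [AddCommGroup B] (φ : A →ₗ[ℤ] B) {r : ℕ} (u : (Fin r → Bool) → A) :
    φ (asum u) = asum (fun e => φ (u e)) := by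
  unfold asum
  rw [map_sum]
  simp only [map_smul]

theorem stage_mem (hF : Filt F) {d : ℕ} {K N : Subgroup G} (hKN : ⁅K, K⁆ ≤ N) (hd : F d ≤ N) {x : G}
    (hx : x ∈ K) (h : dl x - dl 1 ∈ JJd d F K) : x ∈ N := by
  obtain ⟨A, iA, n, hn, hker, -⟩ := exists_quot K N hKN
  have h1 : JJd d F K ≤ LinearMap.ker (Finsupp.linearCombination ℤ n) := by
    refine Submodule.span_le.2 ?_
    rintro u ⟨c, hc, hcK, rfl⟩
    rw [SetLike.mem_coe, LinearMap.mem_ker, map_asum]
    simp only [Finsupp.linearCombination_single, one_smul]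
    exact asum_zero hF hc hcK hn fun y hy hyd => (hker y hy).2 (hd hyd)
  have h2 := h1 h
  rw [LinearMap.mem_ker, map_sub, Finsupp.linearCombination_single, Finsupp.linearCombination_single, one_smul,
    one_smul, hn.one, sub_zero] at h2
  exact (hker x hx).1 h2

theorem stage_step (hF : Filt F) {d j : ℕ} (hj : 1 ≤ j)
    (htf : ∀ x ∈ F j, ∀ n : ℕ, 1 ≤ n → x ^ n ∈ F (j + 1) → x ∈ F (j + 1)) {x : G} (hx : x ∈ F (j + 1))
    (h : dl x - dl 1 ∈ JJd d F (F j)) : dl x - dl 1 ∈ JJd d F (F (j + 1)) := by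
  obtain ⟨T, hT, hxT⟩ := Submodule.mem_span_finite_of_mem_span h
  have hch : ∀ u : T, ∃ c ∈ HK d F, (∀ e, c e ∈ F j) ∧ (u : G →₀ ℤ) = asum (fun e => dl (c e)) := fun u => hT u.2
  choose c hc hcj hcu using hch
  obtain ⟨p, hp, hpc⟩ := retract hF hj htf c hc hcj
  have h1 : Submodule.span ℤ (T : Set (G →₀ ℤ)) ≤ (JJd d F (F (j + 1))).comap (Finsupp.lmapDomain ℤ ℤ p) := by
    refine Submodule.span_le.2 fun u hu => ?_
    have hu1 : u = asum (fun e => dl (c ⟨u, hu⟩ e)) := hcu ⟨u, hu⟩
    rw [SetLike.mem_coe, Submodule.mem_comap, hu1, map_asum]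
    refine Submodule.subset_span ⟨_, (hpc ⟨u, hu⟩).1, (hpc ⟨u, hu⟩).2, ?_⟩
    simp only [Finsupp.lmapDomain_apply, Finsupp.mapDomain_single]
  have h2 := h1 hxT
  rw [Submodule.mem_comap, map_sub, Finsupp.lmapDomain_apply, Finsupp.lmapDomain_apply, Finsupp.mapDomain_single,
    Finsupp.mapDomain_single, hp x hx, hp 1 (one_mem _)] at h2
  exact h2

theorem loop (hF : Filt F) {d : ℕ} (hd : F d = ⊥)
    (htf : ∀ k, 1 ≤ k → 2 * k < d → ∀ x ∈ F k, ∀ n : ℕ, 1 ≤ n → x ^ n ∈ F (k + 1) → x ∈ F (k + 1)) {x : G} :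
    ∀ k j : ℕ, 1 ≤ j → d ≤ j + k → x ∈ F j → dl x - dl 1 ∈ JJd d F (F j) → x = 1 := by
  intro k
  have hfin : ∀ j : ℕ, d ≤ 2 * j → x ∈ F j → dl x - dl 1 ∈ JJd d F (F j) → x = 1 := by
    intro j hj hx h
    have h1 := stage_mem hF (N := ⊥) (by
      rw [← hd]
      exact (hF.comm j j).trans (hF.antitone (by omega))) (by rw [hd]) hx h
    exact Subgroup.mem_bot.1 h1
  induction k with
  | zero =>
    intro j hj hdj hx h
    exact hfin j (by omega) hx h
  | succ k ih =>
    intro j hj hdj hx h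
    by_cases h2 : d ≤ 2 * j
    · exact hfin j h2 hx h
    · push Not at h2
      have hx1 : x ∈ F (j + 1) := stage_mem hF ((hF.comm j j).trans (hF.antitone (by omega)))
        (hF.antitone (by omega)) hx h
      exact ih (j + 1) (by omega) (by omega) hx1 (stage_step hF hj (htf j hj h2) hx1 h)

theorem theoremT : TheoremT := by
  intro G _ F hF d hd1 hd htf x h
  have htop : ∀ y : G, y ∈ F 1 := fun y => by
    rw [hF.top]
    exact Subgroup.mem_top y
  refine loop hF hd htf d 1 le_rfl (by omega) (htop x) ?_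
  have h1 := h ((G →₀ ℤ) ⧸ JJd d F (F 1)) (fun y => Submodule.Quotient.mk (dl y)) (fun c hc => by
    have h2 : asum (fun e => (JJd d F (F 1)).mkQ (dl (c e))) = 0 := by
      rw [← map_asum, Submodule.mkQ_apply, Submodule.Quotient.mk_eq_zero]
      exact Submodule.subset_span ⟨c, hc, fun e => htop _, rfl⟩
    exact h2)
  exact (Submodule.Quotient.eq _).1 h1

end SLC
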