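import Pool.Agent.SLC.Struct
import Pool.Agent.SLC.Dim

/-!
String links, abstract part: finite type invariants separate closures modulo C_d-equivalence when there is no torsion
in the degrees k with 2 k < d.
-/

set_option autoImplicit false

open scoped commutatorElement

namespace SLC

section alt

/-- the cube t composed with the projection which forgets the first coordinate -/
theorem HK_tail {P : Type} [Group P] {r : ℕ} {F : ℕ → Subgroup P} {t : (Fin r → Bool) → P} (ht : t ∈ HK r F) :
    (fun e : Fin (r + 1) → Bool => t (Fin.tail e)) ∈ HK (r + 1) F := by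
  induction ht using Subgroup.closure_induction with
  | mem t ht =>
    obtain ⟨w, g, hg, rfl⟩ := ht
    have h1 : (fun e : Fin (r + 1) → Bool => gen w g (Fin.tail e)) = gen (w.map (Fin.succEmb r)) g := by
      ext e
      by_cases h : ∀ i ∈ w, Fin.tail e i = true
      · rw [gen_pos h, gen_pos]
        intro i hi
        obtain ⟨k, hk, rfl⟩ := Finset.mem_map.mp hi
        exact h k hk
      · rw [gen_neg h, gen_neg]
        intro h'
        exact h fun i hi => h' _ (Finset.mem_map.mpr ⟨i, hi, rfl⟩)
    rw [h1]
    refine gmem ?_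
    rwa [Finset.card_map]
  | one => exact one_mem _
  | mul a b _ _ ha hb => exact mul_mem ha hb
  | inv a _ ha => exact inv_mem ha

theorem sg_cons {r : ℕ} (b : Bool) (e : Fin r → Bool) :
    sg (Fin.cons b e : Fin (r + 1) → Bool) = (if b = true then -1 else 1) * sg e := by
  rw [sg, Fin.prod_univ_succ]
  simp [sg]

theorem asum_succ {A : Type} [AddCommGroup A] {r : ℕ} (u : (Fin (r + 1) → Bool) → A) :
    asum u = asum (fun e : Fin r → Bool => u (Fin.cons false e)) - asum (fun e : Fin r → Bool => u (Fin.cons true e)) := by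
  have h1 : asum u = ∑ p : Bool × (Fin r → Bool), sg (Fin.cons p.1 p.2 : Fin (r + 1) → Bool) • u (Fin.cons p.1 p.2) := by
    rw [asum]
    exact (Fintype.sum_equiv (Fin.consEquiv fun _ => Bool) _ _ (fun p => rfl)).symm
  rw [h1, Fintype.sum_prod_type, Fintype.sum_bool]
  simp only [sg_cons, asum]
  simp [Finset.sum_neg_distrib, sub_eq_add_neg, add_comm]

theorem asum_zero_dim {A : Type} [AddCommGroup A] (u : (Fin 0 → Bool) → A) : asum u = u default := by
  rw [asum, Fintype.sum_unique, sg, Finset.univ_eq_empty, Finset.prod_empty, one_smul]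
  exact congrArg u (Subsingleton.elim _ _)

namespace CSys

variable {M : Type} [Monoid M] (Q : CSys M)

/-- the alternating sums of the definition of finite type are alternating sums over cubes -/
theorem alt_eq (l : Q.Lev) : ∀ as : List (Q.P l), ∃ t ∈ HK as.length (Gm (Q.P l)), ∀ (g : Q.P l) (A : Type)
    [AddCommGroup A] (v : M → A), Q.alt v l g as = (-1 : ℤ) ^ as.length • asum (fun e => v (Q.S l (g * t e)))
  | [] => by
    refine ⟨1, one_mem _, ?_⟩
    intro g A _ v
    rw [alt, List.length_nil, pow_zero, one_smul, asum_zero_dim, Pi.one_apply, mul_one]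
  | a :: as => by
    obtain ⟨t, ht, h⟩ := alt_eq l as
    change ∃ t ∈ HK (as.length + 1) (Gm (Q.P l)), ∀ (g : Q.P l) (A : Type) [AddCommGroup A] (v : M → A),
      Q.alt v l g (a :: as) = (-1 : ℤ) ^ (as.length + 1) • asum (fun e => v (Q.S l (g * t e)))
    refine ⟨gen {0} a * (fun e => t (Fin.tail e)), mul_mem (gmem trivial) (HK_tail ht), ?_⟩
    intro g A _ v
    rw [alt, h, h, asum_succ, pow_succ]
    have h1 : ∀ e : Fin as.length → Bool, (gen {0} a * (fun e => t (Fin.tail e)) : (Fin (as.length + 1) → Bool) → Q.P l)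
        (Fin.cons false e) = t e := by
      intro e
      rw [Pi.mul_apply, gen_neg, one_mul, Fin.tail_cons]
      simp
    have h2 : ∀ e : Fin as.length → Bool, (gen {0} a * (fun e => t (Fin.tail e)) : (Fin (as.length + 1) → Bool) → Q.P l)
        (Fin.cons true e) = a * t e := by
      intro e
      rw [Pi.mul_apply, gen_pos, Fin.tail_cons]
      simp
    have h3 : asum (fun e : Fin as.length → Bool => v (Q.S l (g * (gen {0} a * (fun e => t (Fin.tail e)) :
        (Fin (as.length + 1) → Bool) → Q.P l) (Fin.cons false e)))) = asum (fun e => v (Q.S l (g * t e))) := by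
      simp only [h1]
    have h4 : asum (fun e : Fin as.length → Bool => v (Q.S l (g * (gen {0} a * (fun e => t (Fin.tail e)) :
        (Fin (as.length + 1) → Bool) → Q.P l) (Fin.cons true e)))) = asum (fun e => v (Q.S l (g * a * t e))) := by
      simp only [h2, mul_assoc]
    rw [h3, h4]
    module

end CSys

end alt

namespace CSys

variable {M : Type} [Monoid M] (Q : CSys M)

/-- the conclusion of Theorem T for filtrations with F d trivial and without torsion in the degrees k with p k -/
def Sep (d : ℕ) (p : ℕ → Prop) : Prop :=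
  ∀ (G : Type) [Group G] (F : ℕ → Subgroup G), Filt F → F d = ⊥ →
    (∀ k, 1 ≤ k → p k → ∀ x ∈ F k, ∀ n : ℕ, 1 ≤ n → x ^ n ∈ F (k + 1) → x ∈ F (k + 1)) →
    ∀ x : G, (∀ (A : Type) [AddCommGroup A] (f : G → A), (∀ c ∈ HK d F, asum (fun e => f (c e)) = 0) → f x = f 1) →
      x = 1

open Classical in
/-- finite type invariants of degree < d determine a closure modulo C_d-equivalence, from the group theoretic
statement Sep d p -/
theorem dim_of {d : ℕ} {p : ℕ → Prop} (hT : Sep d p) [Nonempty Q.Lev] (hd : 1 ≤ d) (hp : ∀ k, 1 ≤ k → p k → k + 1 ≤ d)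
    (htf : ∀ k, 1 ≤ k → p k → Q.TorsionFree k) (x y : M) (hx : Q.IsCl x) (hy : Q.IsCl y)
    (h : ∀ (A : Type) [AddCommGroup A] (v : M → A), Q.FT d v → v x = v y) : Q.Ceq d x y := by
  obtain ⟨G, iG, ⟨π⟩⟩ := Q.exists_quo hd
  refine (π.eq_iff x y hx hy).mp ?_
  have h1 : π.cls x * (π.cls y)⁻¹ = 1 := by
    refine hT G π.FF (π.FF_filt hd) (π.FF_bot le_rfl) ?_ _ ?_
    · intro k hk hpk g hg n hn hgn
      have hkd := hp k hk hpk
      obtain ⟨z, hz, rfl, hz1⟩ := π.exists_of_mem hd (by omega) hg
      have hpow : ∀ m : ℕ, π.cls (z ^ m) = π.cls z ^ m := by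
        intro m
        induction m with
        | zero => rw [pow_zero, pow_zero, π.cls_one]
        | succ m ihm => rw [pow_succ, pow_succ, π.cls_mul _ _ (hz.pow m) hz, ihm]
      rw [← hpow] at hgn
      have h2 := (π.mem_FF_iff hd (by omega) (by omega) (hz.pow n)).mp hgn
      exact (π.mem_FF_iff hd (by omega) (by omega) hz).mpr (htf k hk hpk z hz hz1 n hn h2)
    · intro A _ f hf
      have hf' : ∀ c ∈ HK d π.FF, asum (fun e => f (c e * (π.cls y)⁻¹)) = 0 := by
        intro c hc
        have h2 := hf (c * gen ∅ (π.cls y)⁻¹) (mul_mem hc (gmem (by rw [Finset.card_empty, π.FF_zero]; trivial)))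
        rw [← h2]
        congr 1
        ext e
        rw [Pi.mul_apply, gen_pos (by simp)]
      have h2 := h A (fun m => if Q.IsCl m then f (π.cls m * (π.cls y)⁻¹) else 0) ?_
      · simp only [if_pos hx, if_pos hy, mul_inv_cancel] at h2
        exact h2
      · intro l g as has
        obtain ⟨t, ht, hta⟩ := Q.alt_eq l as
        rw [hta]
        subst has
        have h3 : (fun e => π.cls (Q.S l (g * t e))) ∈ HK as.length π.FF := by
          have h6 : gen ∅ g * t ∈ HK as.length (Gm (Q.P l)) :=
            mul_mem (gmem (by rw [Finset.card_empty, Gm_zero]; trivial)) ht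
          have h7 := π.cube_cls hd h6
          have h8 : (fun e => π.cls (Q.S l ((gen ∅ g * t : (Fin as.length → Bool) → Q.P l) e))) = fun e => π.cls (Q.S l (g * t e)) := by
            ext e
            rw [Pi.mul_apply, gen_pos (by simp)]
          rwa [h8] at h7
        have h4 := hf' _ h3
        have h5 : (fun e => if Q.IsCl (Q.S l (g * t e)) then f (π.cls (Q.S l (g * t e)) * (π.cls y)⁻¹) else 0) =
            fun e => f (π.cls (Q.S l (g * t e)) * (π.cls y)⁻¹) := by
          ext e
          exact if_pos (Q.isCl_S _ _)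
        rw [h5, h4, smul_zero]
  exact mul_inv_eq_one.mp h1

/-- finite type invariants of degree < d determine a closure modulo C_d-equivalence, when there is no torsion in the
degrees k with 2 k < d -/
theorem dim_half [Nonempty Q.Lev] (d : ℕ) (hd : 1 ≤ d) (htf : ∀ k, 1 ≤ k → 2 * k < d → Q.TorsionFree k) (x y : M)
    (hx : Q.IsCl x) (hy : Q.IsCl y) (h : ∀ (A : Type) [AddCommGroup A] (v : M → A), Q.FT d v → v x = v y) :
    Q.Ceq d x y :=
  Q.dim_of (p := fun k => 2 * k < d) (fun G _ F hF hFd htf' => theoremT G F hF d hd hFd htf') hd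
    (fun k hk hkd => by omega) htf x y hx hy h

end CSys

end SLC
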