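import Pool.Agent.SLC.Gam
import Pool.Agent.SLC.Half

/-!
Cofinality, abstract part: maps which vanish on cubes, the alternating sum of a cube in a filtered ring.
-/

set_option autoImplicit false

open scoped commutatorElement

namespace SLC

section faces

variable {G : Type} [Group G] {F : ℕ → Subgroup G}

/-- faces of cubes are cubes -/
theorem HK_face (hF : Filt F) {r : ℕ} {c : (Fin (r + 1) → Bool) → G} (hc : c ∈ HK (r + 1) F) (b : Bool) :
    (fun e : Fin r → Bool => c (Fin.cons b e)) ∈ HK r F := by
  classical
  induction hc using Subgroup.closure_induction with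
  | mem c hc =>
    obtain ⟨w, g, hg, rfl⟩ := hc
    set w' : Finset (Fin r) := Finset.univ.filter fun i => i.succ ∈ w with hw'
    have hcard : w'.card ≤ w.card := by
      have h1 : w'.map (Fin.succEmb r) ⊆ w := by
        intro i hi
        obtain ⟨j, hj, rfl⟩ := Finset.mem_map.1 hi
        exact (Finset.mem_filter.1 hj).2
      have := Finset.card_le_card h1
      rwa [Finset.card_map] at this
    by_cases h : (0 : Fin (r + 1)) ∈ w ∧ b = false
    · have e1 : (fun e : Fin r → Bool => gen w g (Fin.cons b e)) = 1 := by
        funext e
        rw [gen_neg, Pi.one_apply]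
        intro h2
        have := h2 0 h.1
        rw [Fin.cons_zero, h.2] at this
        exact Bool.noConfusion this
      rw [e1]
      exact one_mem _
    · have e1 : (fun e : Fin r → Bool => gen w g (Fin.cons b e)) = gen w' g := by
        funext e
        simp only [gen]
        refine if_congr ?_ rfl rfl
        constructor
        · intro h2 i hi
          have := h2 i.succ (Finset.mem_filter.1 hi).2
          rwa [Fin.cons_succ] at this
        · intro h2 i hi
          rcases Fin.eq_zero_or_eq_succ i with rfl | ⟨j, rfl⟩
          · rw [Fin.cons_zero]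
            by_contra hb
            exact h ⟨hi, by simpa using hb⟩
          · rw [Fin.cons_succ]
            exact h2 j (Finset.mem_filter.2 ⟨Finset.mem_univ _, hi⟩)
      rw [e1]
      exact gmem (hF.anti' hcard hg)
  | one => exact one_mem _
  | mul a b _ _ ha hb => exact mul_mem ha hb
  | inv a _ ha => exact inv_mem ha

/-- f vanishes on the cubes of dimension N -/
def CPol (F : ℕ → Subgroup G) (N : ℕ) {A : Type} [AddCommGroup A] (f : G → A) : Prop :=
  ∀ c ∈ HK N F, asum (fun e => f (c e)) = 0

theorem CPol.succ (hF : Filt F) {N : ℕ} {A : Type} [AddCommGroup A] {f : G → A} (h : CPol F N f) : CPol F (N + 1) f := by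
  intro c hc
  rw [asum_succ]
  rw [h _ (HK_face hF hc false), h _ (HK_face hF hc true), sub_zero]

theorem CPol.mono (hF : Filt F) {N N' : ℕ} (hN : N ≤ N') {A : Type} [AddCommGroup A] {f : G → A} (h : CPol F N f) :
    CPol F N' f := by
  induction N', hN using Nat.le_induction with
  | base => exact h
  | succ n _ ih => exact ih.succ hF

theorem gen_empty {r : ℕ} (g : G) : (gen (∅ : Finset (Fin r)) g) = fun _ => g := by
  funext e
  rw [gen_pos]
  simp

theorem const_mem (hF : Filt F) (r : ℕ) (g : G) : (fun _ => g : (Fin r → Bool) → G) ∈ HK r F := by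
  have h : gen (∅ : Finset (Fin r)) g ∈ HK r F := by
    refine gmem ?_
    rw [Finset.card_empty, hF.zero]
    trivial
  have e := gen_empty (r := r) g
  exact e ▸ h

/-- the elements which are not separated from 1 by the maps which vanish on the cubes of dimension N -/
def DD (F : ℕ → Subgroup G) (hF : Filt F) (N : ℕ) : Subgroup G where
  carrier := {x | ∀ (A : Type) [AddCommGroup A] (f : G → A), CPol F N f → f x = f 1}
  one_mem' := fun _ _ _ _ => rfl
  mul_mem' := by
    intro x y hx hy A _ f hf
    have h1 : CPol F N (fun g => f (g * y)) := by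
      intro c hc
      exact hf (c * fun _ => y) (mul_mem hc (const_mem hF N y))
    have h2 := hx A _ h1
    rw [one_mul] at h2
    rw [h2]
    exact hy A f hf
  inv_mem' := by
    intro x hx A _ f hf
    have h1 : CPol F N (fun g => f (g * x⁻¹)) := by
      intro c hc
      exact hf (c * fun _ => x⁻¹) (mul_mem hc (const_mem hF N x⁻¹))
    have h2 := hx A _ h1
    rw [one_mul, mul_inv_cancel] at h2
    exact h2.symm

theorem DD_anti (hF : Filt F) {N N' : ℕ} (h : N ≤ N') : DD F hF N' ≤ DD F hF N :=
  fun _ hx A _ f hf => hx A f (hf.mono hF h)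

end faces

section good

variable {R : Type} [Ring R] (J : ℕ → AddSubgroup R)

/-- the differences of u in s directions are in J (n + s) -/
def Good : (r : ℕ) → ℕ → ((Fin r → Bool) → R) → Prop
  | 0, n, u => u default ∈ J n
  | r + 1, n, u => Good r n (fun e => u (Fin.cons false e)) ∧ Good r n (fun e => u (Fin.cons true e)) ∧
      Good r (n + 1) (fun e => u (Fin.cons false e) - u (Fin.cons true e))

variable {J}

theorem Good.add {r : ℕ} : ∀ {n : ℕ} {u v : (Fin r → Bool) → R}, Good J r n u → Good J r n v →
    Good J r n (fun e => u e + v e) := by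
  induction r with
  | zero => intro n u v hu hv; exact add_mem hu hv
  | succ r ih =>
    intro n u v hu hv
    refine ⟨ih hu.1 hv.1, ih hu.2.1 hv.2.1, ?_⟩
    have h := ih hu.2.2 hv.2.2
    have e : (fun e : Fin r → Bool => u (Fin.cons false e) - u (Fin.cons true e) +
        (v (Fin.cons false e) - v (Fin.cons true e))) = fun e => u (Fin.cons false e) + v (Fin.cons false e) -
        (u (Fin.cons true e) + v (Fin.cons true e)) := by
      funext e
      abel
    rw [e] at h
    exact h

theorem Good.zero {r : ℕ} : ∀ {n : ℕ}, Good J r n (fun _ => (0 : R)) := by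
  induction r with
  | zero => intro n; exact zero_mem (J n)
  | succ r ih =>
    intro n
    refine ⟨ih, ih, ?_⟩
    have h := ih (n := n + 1)
    have e : (fun _ : Fin r → Bool => (0 : R)) = fun _ => (0 : R) - 0 := by
      funext e
      rw [sub_zero]
    rw [e] at h
    exact h

theorem Good.neg {r : ℕ} : ∀ {n : ℕ} {u : (Fin r → Bool) → R}, Good J r n u → Good J r n (fun e => - u e) := by
  induction r with
  | zero => intro n u hu; exact neg_mem hu
  | succ r ih =>
    intro n u hu
    refine ⟨ih hu.1, ih hu.2.1, ?_⟩
    have h := ih hu.2.2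
    have e : (fun e : Fin r → Bool => -(u (Fin.cons false e) - u (Fin.cons true e))) =
        fun e => - u (Fin.cons false e) - - u (Fin.cons true e) := by
      funext e
      abel
    rw [e] at h
    exact h

theorem Good.mul (hJ : ∀ a b, ∀ x ∈ J a, ∀ y ∈ J b, x * y ∈ J (a + b)) {r : ℕ} : ∀ {a b : ℕ}
    {u v : (Fin r → Bool) → R}, Good J r a u → Good J r b v → Good J r (a + b) (fun e => u e * v e) := by
  induction r with
  | zero => intro a b u v hu hv; exact hJ a b _ hu _ hv
  | succ r ih =>
    intro a b u v hu hv
    refine ⟨ih hu.1 hv.1, ih hu.2.1 hv.2.1, ?_⟩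
    have h1 := ih hu.2.2 hv.1
    have h2 := ih hu.2.1 hv.2.2
    have e1 : a + 1 + b = a + b + 1 := by omega
    rw [e1] at h1
    have h := h1.add (show Good J r (a + b + 1) _ from h2)
    have e : (fun e : Fin r → Bool => (u (Fin.cons false e) - u (Fin.cons true e)) * v (Fin.cons false e) +
        u (Fin.cons true e) * (v (Fin.cons false e) - v (Fin.cons true e))) =
        fun e => u (Fin.cons false e) * v (Fin.cons false e) - u (Fin.cons true e) * v (Fin.cons true e) := by
      funext e
      noncomm_ring
    rw [e] at h
    exact h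

theorem Good.asum {r : ℕ} : ∀ {n : ℕ} {u : (Fin r → Bool) → R}, Good J r n u → asum u ∈ J (n + r) := by
  induction r with
  | zero =>
    intro n u hu
    rw [asum_zero_dim]
    exact hu
  | succ r ih =>
    intro n u hu
    have h := ih hu.2.2
    have e : SLC.asum (fun e : Fin r → Bool => u (Fin.cons false e) - u (Fin.cons true e)) = SLC.asum u := by
      rw [asum_succ, SLC.asum, SLC.asum, SLC.asum, ← Finset.sum_sub_distrib]
      refine Finset.sum_congr rfl fun e _ => ?_
      rw [smul_sub]
    rw [e] at h
    have e2 : n + 1 + r = n + (r + 1) := by omega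
    rwa [e2] at h

/-- indicator functions of faces -/
theorem Good.face {r : ℕ} : ∀ {n : ℕ} (w : Finset (Fin r)) {x : R}, x ∈ J (n + w.card) → (∀ k, J (k + 1) ≤ J k) →
    Good J r n (fun e => if ∀ i ∈ w, e i = true then x else 0) := by
  classical
  induction r with
  | zero =>
    intro n w x hx _
    have hw : w = ∅ := Finset.eq_empty_of_isEmpty w
    subst hw
    rw [Finset.card_empty, add_zero] at hx
    change (if ∀ i ∈ (∅ : Finset (Fin 0)), (default : Fin 0 → Bool) i = true then x else 0) ∈ J n
    rw [if_pos (by simp)]
    exact hx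
  | succ r ih =>
    intro n w x hx hJ
    have hJ' : ∀ a b, a ≤ b → J b ≤ J a := fun a b h => antitone_nat_of_succ_le hJ h
    set w' : Finset (Fin r) := Finset.univ.filter fun i => i.succ ∈ w with hw'
    have htrue : ∀ e : Fin r → Bool, (∀ i ∈ w, (Fin.cons true e : Fin (r + 1) → Bool) i = true) ↔ ∀ i ∈ w', e i = true := by
      intro e
      constructor
      · intro h2 i hi
        have := h2 i.succ (Finset.mem_filter.1 hi).2
        rwa [Fin.cons_succ] at this
      · intro h2 i hi
        rcases Fin.eq_zero_or_eq_succ i with rfl | ⟨j, rfl⟩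
        · rw [Fin.cons_zero]
        · rw [Fin.cons_succ]
          exact h2 j (Finset.mem_filter.2 ⟨Finset.mem_univ _, hi⟩)
    have et : (fun e : Fin r → Bool => if ∀ i ∈ w, (Fin.cons true e : Fin (r + 1) → Bool) i = true then x else 0) =
        fun e => if ∀ i ∈ w', e i = true then x else 0 := by
      funext e
      exact if_congr (htrue e) rfl rfl
    by_cases h0 : (0 : Fin (r + 1)) ∈ w
    · have hcard : w.card = w'.card + 1 := by
        have h1 : w = insert 0 (w'.map (Fin.succEmb r)) := by
          ext i
          rw [Finset.mem_insert, Finset.mem_map]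
          constructor
          · intro hi
            rcases Fin.eq_zero_or_eq_succ i with rfl | ⟨j, rfl⟩
            · exact Or.inl rfl
            · exact Or.inr ⟨j, Finset.mem_filter.2 ⟨Finset.mem_univ _, hi⟩, rfl⟩
          · rintro (rfl | ⟨j, hj, rfl⟩)
            · exact h0
            · exact (Finset.mem_filter.1 hj).2
        rw [h1, Finset.card_insert_of_notMem, Finset.card_map]
        intro h
        obtain ⟨j, _, hj⟩ := Finset.mem_map.1 h
        exact Fin.succ_ne_zero j hj
      have ef : (fun e : Fin r → Bool => if ∀ i ∈ w, (Fin.cons false e : Fin (r + 1) → Bool) i = true then x else 0) =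
          fun _ => 0 := by
        funext e
        rw [if_neg]
        intro h
        have := h 0 h0
        rw [Fin.cons_zero] at this
        exact Bool.noConfusion this
      have hxw : x ∈ J (n + 1 + w'.card) := by
        have e : n + 1 + w'.card = n + w.card := by omega
        rwa [e]
      have g1 : Good J r (n + 1) (fun e => if ∀ i ∈ w', e i = true then x else 0) := ih w' hxw hJ
      have g0 : Good J r n (fun e => if ∀ i ∈ w', e i = true then x else 0) :=
        ih w' (hJ' _ _ (by omega) hxw) hJ
      refine ⟨?_, ?_, ?_⟩
      · rw [ef]; exact Good.zero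
      · rw [et]; exact g0
      · have e3 : (fun e : Fin r → Bool => (if ∀ i ∈ w, (Fin.cons false e : Fin (r + 1) → Bool) i = true then x else 0) -
            (if ∀ i ∈ w, (Fin.cons true e : Fin (r + 1) → Bool) i = true then x else 0)) =
            fun e => - (if ∀ i ∈ w', e i = true then x else 0) := by
          funext e
          have a1 := congrFun ef e
          have a2 := congrFun et e
          rw [a1, a2, zero_sub]
        rw [e3]
        exact g1.neg
    · have hcard : w.card = w'.card := by
        have h1 : w = w'.map (Fin.succEmb r) := by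
          ext i
          rw [Finset.mem_map]
          constructor
          · intro hi
            rcases Fin.eq_zero_or_eq_succ i with rfl | ⟨j, rfl⟩
            · exact absurd hi h0
            · exact ⟨j, Finset.mem_filter.2 ⟨Finset.mem_univ _, hi⟩, rfl⟩
          · rintro ⟨j, hj, rfl⟩
            exact (Finset.mem_filter.1 hj).2
        rw [h1, Finset.card_map]
      have ef : (fun e : Fin r → Bool => if ∀ i ∈ w, (Fin.cons false e : Fin (r + 1) → Bool) i = true then x else 0) =
          fun e => if ∀ i ∈ w', e i = true then x else 0 := by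
        funext e
        refine if_congr ?_ rfl rfl
        constructor
        · intro h2 i hi
          have := h2 i.succ (Finset.mem_filter.1 hi).2
          rwa [Fin.cons_succ] at this
        · intro h2 i hi
          rcases Fin.eq_zero_or_eq_succ i with rfl | ⟨j, rfl⟩
          · exact absurd hi h0
          · rw [Fin.cons_succ]
            exact h2 j (Finset.mem_filter.2 ⟨Finset.mem_univ _, hi⟩)
      have g0 : Good J r n (fun e => if ∀ i ∈ w', e i = true then x else 0) := ih w' (by rwa [← hcard]) hJ
      refine ⟨?_, ?_, ?_⟩
      · rw [ef]; exact g0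
      · rw [et]; exact g0
      · have e3 : (fun e : Fin r → Bool => (if ∀ i ∈ w, (Fin.cons false e : Fin (r + 1) → Bool) i = true then x else 0) -
            (if ∀ i ∈ w, (Fin.cons true e : Fin (r + 1) → Bool) i = true then x else 0)) = fun _ => 0 := by
          funext e
          have a1 := congrFun ef e
          have a2 := congrFun et e
          rw [a1, a2, sub_self]
        rw [e3]
        exact Good.zero

/-- cubes of a filtered group which acts unipotently on a filtered ring have alternating sums in J r -/
theorem Good.of_HK {G : Type} [Group G] {F : ℕ → Subgroup G} (ρ : G →* R)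
    (hJ : ∀ a b, ∀ x ∈ J a, ∀ y ∈ J b, x * y ∈ J (a + b)) (hJa : ∀ k, J (k + 1) ≤ J k) (h1 : (1 : R) ∈ J 0)
    (hρ : ∀ k, ∀ g ∈ F k, ρ g - 1 ∈ J k) {r : ℕ} {c : (Fin r → Bool) → G} (hc : c ∈ HK r F) :
    Good J r 0 (fun e => ρ (c e)) := by
  have hgen : ∀ (w : Finset (Fin r)) (g : G), g ∈ F w.card → Good J r 0 (fun e => ρ (gen w g e)) := by
    intro w g hg
    have g1 : Good J r 0 (fun e => if ∀ i ∈ (∅ : Finset (Fin r)), e i = true then (1 : R) else 0) :=
      Good.face ∅ (by rwa [Finset.card_empty]) hJa
    have g2 : Good J r 0 (fun e => if ∀ i ∈ w, e i = true then ρ g - 1 else 0) :=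
      Good.face w (by rw [Nat.zero_add]; exact hρ _ g hg) hJa
    have e : (fun e : Fin r → Bool => ρ (gen w g e)) = fun e =>
        (if ∀ i ∈ (∅ : Finset (Fin r)), e i = true then (1 : R) else 0) +
          (if ∀ i ∈ w, e i = true then ρ g - 1 else 0) := by
      funext e
      rw [if_pos (by simp)]
      simp only [gen]
      split_ifs
      · abel
      · rw [map_one, add_zero]
    rw [e]
    exact g1.add g2
  have hone : Good J r 0 (fun _ : Fin r → Bool => (1 : R)) := by
    have g1 : Good J r 0 (fun e => if ∀ i ∈ (∅ : Finset (Fin r)), e i = true then (1 : R) else 0) :=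
      Good.face ∅ (by rwa [Finset.card_empty]) hJa
    have e : (fun _ : Fin r → Bool => (1 : R)) =
        fun e => if ∀ i ∈ (∅ : Finset (Fin r)), e i = true then (1 : R) else 0 := by
      funext e
      rw [if_pos (by simp)]
    rw [e]
    exact g1
  induction hc using Subgroup.closure_induction'' with
  | mem c hc =>
    obtain ⟨w, g, hg, rfl⟩ := hc
    exact hgen w g hg
  | inv_mem c hc =>
    obtain ⟨w, g, hg, rfl⟩ := hc
    rw [← ginv]
    exact hgen w g⁻¹ (inv_mem hg)
  | one =>
    have e : (fun e : Fin r → Bool => ρ ((1 : (Fin r → Bool) → G) e)) = fun _ => 1 := by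
      funext e
      rw [Pi.one_apply, map_one]
    rw [e]
    exact hone
  | mul a b _ _ ha hb =>
    have h := Good.mul hJ ha hb
    have e : (fun e : Fin r → Bool => ρ (a e) * ρ (b e)) = fun e => ρ ((a * b) e) := by
      funext e
      rw [Pi.mul_apply, map_mul]
    rw [e] at h
    exact h

end good

end SLC
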