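import Pool.Agent.SLC.Cof1

/-!
Cofinality, abstract part: functions on finite p-groups vanish on cubes of large dimension.
-/

set_option autoImplicit false

namespace SLC

section pgroup

variable {p : ℕ} {Q : Type} [Group Q]

/-- right translation of functions -/
def trn (p : ℕ) (g : Q) : (Q → ZMod p) →+ (Q → ZMod p) where
  toFun f := fun y => f (y * g)
  map_zero' := rfl
  map_add' _ _ := rfl

theorem trn_apply (g : Q) (f : Q → ZMod p) (y : Q) : trn p g f y = f (y * g) := rfl

theorem trn_mul (g h : Q) (f : Q → ZMod p) : trn p (g * h) f = trn p g (trn p h f) := by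
  funext y
  rw [trn_apply, trn_apply, trn_apply, mul_assoc]

theorem trn_one (f : Q → ZMod p) : trn p (1 : Q) f = f := by
  funext y
  rw [trn_apply, mul_one]

/-- functions of degree < j -/
def PPl (p : ℕ) (Q : Type) [Group Q] : ℕ → AddSubgroup (Q → ZMod p)
  | 0 => ⊥
  | j + 1 =>
    { carrier := {f | ∀ g, trn p g f - f ∈ PPl p Q j}
      zero_mem' := fun g => by
        rw [map_zero, sub_zero]
        exact zero_mem _
      add_mem' := fun {a b} ha hb g => by
        have e : trn p g (a + b) - (a + b) = (trn p g a - a) + (trn p g b - b) := by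
          rw [map_add]
          abel
        rw [e]
        exact add_mem (ha g) (hb g)
      neg_mem' := fun {a} ha g => by
        have e : trn p g (-a) - -a = -(trn p g a - a) := by
          rw [map_neg]
          abel
        rw [e]
        exact neg_mem (ha g) }

theorem mem_PP_succ {j : ℕ} {f : Q → ZMod p} : f ∈ PPl p Q (j + 1) ↔ ∀ g, trn p g f - f ∈ PPl p Q j := Iff.rfl

theorem PP_stable : ∀ (j : ℕ) (f : Q → ZMod p), f ∈ PPl p Q j → ∀ h, trn p h f ∈ PPl p Q j
  | 0, f, hf, h => by
    have : f = 0 := hf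
    rw [this, map_zero]
    exact zero_mem _
  | j + 1, f, hf, h => fun g => by
    have e : trn p g (trn p h f) - trn p h f = (trn p (g * h) f - f) - (trn p h f - f) := by
      rw [trn_mul]
      abel
    rw [e]
    exact sub_mem (hf _) (hf _)

theorem PP_le (j : ℕ) : PPl p Q j ≤ PPl p Q (j + 1) := fun f hf g => sub_mem (PP_stable j f hf g) hf

theorem PP_mono {i j : ℕ} (h : i ≤ j) : PPl p Q i ≤ PPl p Q j := monotone_nat_of_le_succ PP_le h

/-- the action on the functions modulo the functions of degree < j -/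
def qact (p : ℕ) (Q : Type) [Group Q] (j : ℕ) : MulAction Q ((Q → ZMod p) ⧸ PPl p Q j) where
  smul g := QuotientAddGroup.map _ _ (trn p g) (fun f hf => PP_stable j f hf g)
  one_smul v := by
    obtain ⟨f, rfl⟩ := QuotientAddGroup.mk_surjective v
    change QuotientAddGroup.mk (trn p 1 f) = _
    rw [trn_one]
  mul_smul g h v := by
    obtain ⟨f, rfl⟩ := QuotientAddGroup.mk_surjective v
    change QuotientAddGroup.mk (trn p (g * h) f) = QuotientAddGroup.mk (trn p g (trn p h f))
    rw [trn_mul]

theorem PP_step [hp : Fact p.Prime] [Finite Q] (hQ : IsPGroup p Q) (j : ℕ) (h : PPl p Q j ≠ ⊤) : PPl p Q j ≠ PPl p Q (j + 1) := by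
  intro heq
  let _ := qact p Q j
  have hsm : ∀ (g : Q) (f : Q → ZMod p), g • (QuotientAddGroup.mk f : (Q → ZMod p) ⧸ PPl p Q j) =
      QuotientAddGroup.mk (trn p g f) := fun g f => rfl
  have hcard : p ∣ Nat.card ((Q → ZMod p) ⧸ PPl p Q j) := by
    have h1 : Nat.card ((Q → ZMod p) ⧸ PPl p Q j) ∣ Nat.card (Q → ZMod p) :=
      AddSubgroup.card_quotient_dvd_card _
    have h2 : Nat.card (Q → ZMod p) = p ^ Nat.card Q := by
      rw [Nat.card_fun, Nat.card_zmod]
    rw [h2] at h1
    obtain ⟨k, _, hk⟩ := (Nat.dvd_prime_pow hp.out).1 h1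
    rw [hk]
    refine dvd_pow_self p ?_
    rintro rfl
    rw [pow_zero] at hk
    apply h
    rw [eq_top_iff]
    intro f _
    have h3 : (QuotientAddGroup.mk f : (Q → ZMod p) ⧸ PPl p Q j) = 0 := by
      have := (Nat.card_eq_one_iff_unique.1 hk).1
      exact Subsingleton.elim _ _
    exact (QuotientAddGroup.eq_zero_iff f).1 h3
  have hfix := hQ.card_modEq_card_fixedPoints ((Q → ZMod p) ⧸ PPl p Q j)
  have h4 : p ∣ Nat.card (MulAction.fixedPoints Q ((Q → ZMod p) ⧸ PPl p Q j)) :=
    (Nat.modEq_zero_iff_dvd).1 (hfix.symm.trans ((Nat.modEq_zero_iff_dvd).2 hcard))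
  have h0 : (0 : (Q → ZMod p) ⧸ PPl p Q j) ∈ MulAction.fixedPoints Q ((Q → ZMod p) ⧸ PPl p Q j) := by
    intro g
    have := hsm g 0
    rw [map_zero] at this
    exact this
  have h5 : ∀ v ∈ MulAction.fixedPoints Q ((Q → ZMod p) ⧸ PPl p Q j), v = 0 := by
    intro v hv
    obtain ⟨f, rfl⟩ := QuotientAddGroup.mk_surjective v
    rw [QuotientAddGroup.eq_zero_iff, heq, mem_PP_succ]
    intro g
    have h6 := hv g
    rw [hsm, QuotientAddGroup.eq] at h6
    have h7 := neg_mem h6
    have e : -(-trn p g f + f) = trn p g f - f := by abel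
    rwa [e] at h7
  have h8 : Nat.card (MulAction.fixedPoints Q ((Q → ZMod p) ⧸ PPl p Q j)) = 1 := by
    rw [Nat.card_eq_one_iff_unique]
    refine ⟨⟨fun a b => Subtype.ext ?_⟩, ⟨⟨0, h0⟩⟩⟩
    rw [h5 a a.2, h5 b b.2]
  rw [h8] at h4
  exact hp.out.one_lt.ne' (Nat.dvd_one.1 h4)

theorem exists_PP_top [hp : Fact p.Prime] [Finite Q] (hQ : IsPGroup p Q) : ∃ M, PPl p Q M = ⊤ := by
  by_contra hcon
  push Not at hcon
  have hmono : StrictMono (PPl p Q) := strictMono_nat_of_lt_succ fun j =>
    lt_of_le_of_ne (PP_le j) (PP_step hQ j (hcon j))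
  have : NeZero p := ⟨hp.out.ne_zero⟩
  have : Finite (AddSubgroup (Q → ZMod p)) := inferInstance
  exact not_injective_infinite_finite (PPl p Q) hmono.injective

/-- degrees in steps of d -/
def PS (p : ℕ) (Q : Type) [Group Q] (d s : ℕ) : AddSubgroup (Q → ZMod p) := PPl p Q ((s + d - 1) / d)

theorem PS_mono {d s t : ℕ} (h : s ≤ t) : PS p Q d s ≤ PS p Q d t :=
  PP_mono (Nat.div_le_div_right (by omega))

/-- endomorphisms which lower the degree by n -/
def JE (p : ℕ) (Q : Type) [Group Q] (d n : ℕ) : AddSubgroup (AddMonoid.End (Q → ZMod p)) where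
  carrier := {X | ∀ s, ∀ f ∈ PS p Q d s, X f ∈ PS p Q d (s - n)}
  zero_mem' := fun s f _ => zero_mem _
  add_mem' := fun {a b} ha hb s f hf => add_mem (ha s f hf) (hb s f hf)
  neg_mem' := fun {a} ha s f hf => neg_mem (ha s f hf)

/-- right translations as endomorphisms -/
def trnH (p : ℕ) (Q : Type) [Group Q] : Q →* AddMonoid.End (Q → ZMod p) where
  toFun g := trn p g
  map_one' := by
    ext f y
    exact congrFun (trn_one f) y
  map_mul' g h := by
    ext f y
    exact congrFun (trn_mul g h f) y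

theorem trnH_mem {d : ℕ} (hd : 1 ≤ d) {k : ℕ} (hk : k ≤ d) (g : Q) : trnH p Q g - 1 ∈ JE p Q d k := by
  intro s f hf
  have h1 : ∀ j, f ∈ PPl p Q j → trn p g f - f ∈ PPl p Q (j - 1) := by
    intro j hj
    rcases j with _ | j
    · have : f = 0 := hj
      rw [this, map_zero, sub_zero]
      exact zero_mem _
    · exact hj g
  have h2 := h1 _ hf
  refine PP_mono ?_ h2
  rcases Nat.lt_or_ge s k with h | h
  · have h3 : (s + d - 1) / d ≤ 1 := by
      have : s + d - 1 ≤ d * 1 + (d - 1) := by omega
      calc (s + d - 1) / d ≤ (d * 1 + (d - 1)) / d := Nat.div_le_div_right this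
        _ = 1 := by
          rw [Nat.mul_add_div (by omega), Nat.div_eq_of_lt (by omega)]
    exact (Nat.sub_le_iff_le_add.2 (h3.trans (Nat.le_add_left 1 _)))
  · have h3 : s + d - 1 = (s - k + d - 1) + k := by omega
    have h4 : (s + d - 1) / d ≤ (s - k + d - 1) / d + 1 := by
      calc (s + d - 1) / d ≤ ((s - k + d - 1) + d) / d := Nat.div_le_div_right (by omega)
        _ = (s - k + d - 1) / d + 1 := Nat.add_div_right _ (by omega)
    exact Nat.sub_le_iff_le_add.2 h4

/-- functions of a homomorphism to a finite p-group vanish on the cubes of large dimension -/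
theorem pol_pgroup [hp : Fact p.Prime] [Finite Q] (hQ : IsPGroup p Q) {G : Type} [Group G] {F : ℕ → Subgroup G} (hF : Filt F) {d : ℕ}
    (hd : 1 ≤ d) (hFd : F d = ⊥) (φ : G →* Q) : ∃ N, ∀ f : Q → ZMod p, CPol F N (fun g => f (φ g)) := by
  obtain ⟨M, hM⟩ := exists_PP_top (p := p) hQ
  refine ⟨M * d, fun f c hc => ?_⟩
  have hG : Good (JE p Q d) (M * d) 0 (fun e => ((trnH p Q).comp φ) (c e)) := by
    refine Good.of_HK ((trnH p Q).comp φ) ?_ ?_ ?_ ?_ hc
    · intro a b X hX Y hY s f hf
      have h1 := hX _ _ (hY s f hf)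
      have e : s - b - a = s - (a + b) := by omega
      rw [e] at h1
      exact h1
    · intro k X hX s f hf
      exact PS_mono (by omega) (hX s f hf)
    · intro s f hf
      exact hf
    · intro k g hg
      rcases Nat.lt_or_ge k d with h | h
      · exact trnH_mem hd h.le _
      · have h1 : g = 1 := by
          have := hF.anti' h hg
          rw [hFd] at this
          exact Subgroup.mem_bot.1 this
        rw [h1, map_one, sub_self]
        exact zero_mem _
  have h1 := hG.asum
  have hf : f ∈ PS p Q d (M * d) := by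
    have h2 : M ≤ (M * d + d - 1) / d := by
      rw [Nat.le_div_iff_mul_le (by omega)]
      omega
    refine PP_mono h2 ?_
    rw [hM]
    trivial
  have h3 := h1 (M * d) f hf
  have h4 : PS p Q d (M * d - (0 + M * d)) = ⊥ := by
    have e : (M * d - (0 + M * d) + d - 1) / d = 0 := Nat.div_eq_of_lt (by omega)
    rw [PS, e]
    rfl
  rw [h4] at h3
  have h5 : (asum (fun e => ((trnH p Q).comp φ) (c e))) f = 0 := h3
  have h6 := congrFun h5 1
  have h7 : (asum (fun e => ((trnH p Q).comp φ) (c e))) f (1 : Q) = asum (fun e => f (φ (c e))) := by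
    let ev : AddMonoid.End (Q → ZMod p) →+ ZMod p :=
      { toFun := fun X => X f 1
        map_zero' := rfl
        map_add' := fun _ _ => rfl }
    have h8 : ev (asum (fun e => ((trnH p Q).comp φ) (c e))) = asum (fun e => ev (((trnH p Q).comp φ) (c e))) := by
      rw [asum, asum, map_sum]
      refine Finset.sum_congr rfl fun e _ => ?_
      rw [map_zsmul]
    refine h8.trans ?_
    congr 1
    funext e
    change trn p (φ (c e)) f 1 = _
    rw [trn_apply, one_mul]
  rw [← h7]
  exact h6

end pgroup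

end SLC
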