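import Pool.Agent.SLC.Cof1

/-!
Cofinality, abstract part: the elements which are not separated from 1 in degree d are torsion and finitely many.
-/

set_option autoImplicit false

open scoped commutatorElement DirectSum

namespace SLC

section ab

/-- structure of finitely generated abelian groups, in the form needed here -/
theorem ab_struct (A : Type) [AddCommGroup A] [AddGroup.FG A] :
    (∃ (e : ℕ) (r : ℕ) (b : Fin r → A) (m : Fin r → A →+ ℤ), 1 ≤ e ∧ ∀ y, e • y = ∑ l, m l y • b l) ∧
      {y : A | ∃ n : ℕ, 1 ≤ n ∧ n • y = 0}.Finite := by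
  classical
  obtain ⟨n, ι, _, p, hp, e, ⟨φ⟩⟩ := AddCommGroup.equiv_free_prod_directSum_zmod A
  have hpe : ∀ i, NeZero (p i ^ e i) := fun i => ⟨pow_ne_zero _ (hp i).ne_zero⟩
  constructor
  · refine ⟨∏ i, p i ^ e i, n, fun l => φ.symm (Finsupp.single l 1, 0), fun l =>
      { toFun := fun y => ((∏ i, p i ^ e i : ℕ) : ℤ) * (φ y).1 l
        map_zero' := by simp
        map_add' := fun x y => by simp [mul_add] }, ?_, ?_⟩
    · exact Nat.one_le_iff_ne_zero.2 (Finset.prod_ne_zero_iff.2 fun i _ => pow_ne_zero _ (hp i).ne_zero)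
    · intro y
      apply φ.injective
      rw [map_nsmul, map_sum]
      simp only [AddMonoidHom.coe_mk, ZeroHom.coe_mk, map_zsmul, AddEquiv.apply_symm_apply]
      refine Prod.ext ?_ ?_
      · rw [Prod.smul_fst, Prod.fst_sum]
        ext l
        simp only [Prod.smul_fst, Finsupp.smul_apply, Finsupp.coe_finsetSum, Finset.sum_apply, Finsupp.single_apply,
          smul_eq_mul, nsmul_eq_mul]
        rw [Finset.sum_eq_single l]
        · simp
        · intro b _ hb
          simp [hb]
        · intro h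
          exact absurd (Finset.mem_univ l) h
      · rw [Prod.smul_snd, Prod.snd_sum]
        simp only [Prod.smul_snd, smul_zero, Finset.sum_const_zero]
        ext i
        change (∏ i, p i ^ e i) • ((φ y).2 i) = 0
        rw [nsmul_eq_mul]
        have h1 : ((∏ i, p i ^ e i : ℕ) : ZMod (p i ^ e i)) = 0 := by
          rw [ZMod.natCast_eq_zero_iff]
          exact Finset.dvd_prod_of_mem _ (Finset.mem_univ i)
        rw [h1, zero_mul]
  · have hfin : Finite (⨁ i : ι, ZMod (p i ^ e i)) := by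
      have : ∀ i, Fintype (ZMod (p i ^ e i)) := fun i => ZMod.fintype _
      have h : Finite (Π₀ i : ι, ZMod (p i ^ e i)) := Finite.of_fintype _
      exact h
    have h1 : {y : A | ∃ n : ℕ, 1 ≤ n ∧ n • y = 0} ⊆
        Set.range fun v : (⨁ i : ι, ZMod (p i ^ e i)) => φ.symm (0, v) := by
      rintro y ⟨k, hk, hky⟩
      refine ⟨(φ y).2, ?_⟩
      have h2 : (φ y).1 = 0 := by
        have h3 := congrArg (fun v => (φ v).1) hky
        rw [map_nsmul, map_zero, Prod.smul_fst, Prod.fst_zero] at h3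
        ext l
        have h4 := DFunLike.congr_fun h3 l
        rw [Finsupp.smul_apply, Finsupp.zero_apply, nsmul_eq_mul] at h4
        rcases mul_eq_zero.1 h4 with h5 | h5
        · have : k = 0 := by exact_mod_cast h5
          omega
        · exact h5
      apply φ.injective
      dsimp only
      rw [AddEquiv.apply_symm_apply]
      exact Prod.ext h2.symm rfl
    exact (Set.finite_range _).subset h1

end ab

section tors

variable {G : Type} [Group G] {F : ℕ → Subgroup G}

/-- the quotients F k / F (k + 1) are finitely generated abelian groups -/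
theorem quot_fg (hF : Filt F) {k : ℕ} (hk : 1 ≤ k) (hfg : ∃ S : Finset G, (∀ s ∈ S, s ∈ F k) ∧
    F k ≤ Subgroup.closure (S : Set G) ⊔ F (k + 1)) : ∃ (A : Type) (_ : AddCommGroup A) (n : G → A),
      AddGroup.FG A ∧ AddOn (F k) n ∧ (∀ y ∈ F k, n y = 0 ↔ y ∈ F (k + 1)) ∧ ∀ a, ∃ y ∈ F k, n y = a := by
  classical
  obtain ⟨A, iA, n, hn, hker, hsurj⟩ := exists_quot (F k) (F (k + 1)) ((hF.comm k k).trans (hF.anti' (by omega)))
  refine ⟨A, iA, n, ?_, hn, hker, hsurj⟩
  obtain ⟨S, hS, hSg⟩ := hfg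
  rw [AddGroup.fg_def]
  refine ⟨S.image n, ?_⟩
  rw [eq_top_iff]
  intro a _
  obtain ⟨y, hy, rfl⟩ := hsurj a
  let K : Subgroup G :=
    { carrier := {y | y ∈ F k ∧ n y ∈ AddSubgroup.closure ((S.image n : Finset A) : Set A)}
      one_mem' := ⟨one_mem _, by rw [hn.one]; exact zero_mem _⟩
      mul_mem' := fun {x y} hx hy => ⟨mul_mem hx.1 hy.1, by rw [hn _ hx.1 _ hy.1]; exact add_mem hx.2 hy.2⟩
      inv_mem' := fun {x} hx => ⟨inv_mem hx.1, by rw [hn.inv hx.1]; exact neg_mem hx.2⟩ }
  have hK : Subgroup.closure (S : Set G) ⊔ F (k + 1) ≤ K := by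
    refine sup_le ((Subgroup.closure_le _).2 fun s hs => ⟨hS s hs, AddSubgroup.subset_closure ?_⟩) ?_
    · rw [Finset.mem_coe, Finset.mem_image]
      exact ⟨s, hs, rfl⟩
    · intro y hy
      refine ⟨hF.anti k hy, ?_⟩
      rw [(hker y (hF.anti k hy)).2 hy]
      exact zero_mem _
  exact (hK (hSg hy)).2

variable {d : ℕ}

theorem pow_stage (hF : Filt F) (hd : F d = ⊥) (hfg : ∀ k, 1 ≤ k → k < d → ∃ S : Finset G, (∀ s ∈ S, s ∈ F k) ∧
    F k ≤ Subgroup.closure (S : Set G) ⊔ F (k + 1)) (k : ℕ) (hk : 1 ≤ k) (hkd : k ≤ d) :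
    ∃ (P : G → G) (E : ℕ), 1 ≤ E ∧ P 1 = 1 ∧ (∀ y, P y ∈ F k) ∧
      (∀ (N : ℕ) (c : (Fin N → Bool) → G), c ∈ HK N F → (fun e => P (c e)) ∈ HK N F) ∧
      ∀ x ∈ DD F hF d, P x = x ^ E := by
  induction k, hk using Nat.le_induction with
  | base => exact ⟨id, 1, le_rfl, rfl, fun y => by rw [hF.top]; trivial, fun N c hc => hc, fun x _ => (pow_one x).symm⟩
  | succ k hk ih =>
    obtain ⟨P, E, hE, hP1, hPm, hPc, hPx⟩ := ih (by omega)
    obtain ⟨A, iA, n, hA, hn, hker, hsurj⟩ := quot_fg hF hk (hfg k hk (by omega))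
    obtain ⟨⟨e, r, b, m, he, hem⟩, -⟩ := ab_struct A
    choose g hgk hgn using fun l => hsurj (b l)
    have hmo : ∀ l, AddOn (F k) (fun y => m l (n y)) := by
      intro l x hx y hy
      dsimp only
      rw [hn _ hx _ hy, map_add]
    have hmo' : ∀ l, AddOn (F k) (fun y => - m l (n y)) := by
      intro l x hx y hy
      dsimp only
      rw [hn _ hx _ hy, map_add, neg_add]
    refine ⟨fun y => P y ^ e * (List.ofFn fun l => g l ^ (- m l (n (P y)))).prod, E * e, Nat.mul_pos hE he, ?_, ?_, ?_, ?_⟩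
    · dsimp only
      rw [hP1, one_pow, one_mul]
      have h1 : (fun l => g l ^ (- m l (n 1))) = fun _ => (1 : G) := by
        funext l
        rw [hn.one, map_zero, neg_zero, zpow_zero]
      rw [h1, List.ofFn_const, List.prod_replicate, one_pow]
    · intro y
      have hmem : ∀ z ∈ List.ofFn fun l => g l ^ (- m l (n (P y))), z ∈ F k := by
        intro z hz
        obtain ⟨l, rfl⟩ := (List.mem_ofFn' _ _).1 hz
        exact zpow_mem (hgk l) _
      have hp : (List.ofFn fun l => g l ^ (- m l (n (P y)))).prod ∈ F k := Subgroup.list_prod_mem _ hmem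
      have hpow : n (P y ^ e) = e • n (P y) := by
        rw [← zpow_natCast, hn.zpow (hPm y), natCast_zsmul]
      rw [← hker _ (mul_mem (pow_mem (hPm y) _) hp), hn _ (pow_mem (hPm y) _) _ hp, hn.list _ hmem, List.map_ofFn,
        List.sum_ofFn, hpow, hem]
      have e2 : ∀ l, (n ∘ fun l => g l ^ (- m l (n (P y)))) l = - (m l (n (P y)) • b l) := by
        intro l
        rw [Function.comp_apply, hn.zpow (hgk l), hgn, neg_smul]
      rw [Finset.sum_congr rfl fun l _ => e2 l, Finset.sum_neg_distrib, add_neg_cancel]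
    · intro N c hc
      have h1 := hPc N c hc
      have e1 : (fun t => P (c t) ^ e * (List.ofFn fun l => g l ^ (- m l (n (P (c t))))).prod) =
          (fun t => P (c t)) ^ e * (List.ofFn fun l => (fun t => g l ^ (- m l (n (P (c t)))) :
            (Fin N → Bool) → G)).prod := by
        ext t
        rw [Pi.mul_apply, Pi.pow_apply, Pi.list_prod_apply, List.map_ofFn]
        rfl
      rw [e1]
      refine mul_mem (pow_mem h1 _) (Subgroup.list_prod_mem _ fun u hu => ?_)
      obtain ⟨l, rfl⟩ := (List.mem_ofFn' _ _).1 hu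
      refine pow_cube hF h1 (K := F k) (fun t => hPm _) (hmo' l) (hgk l) fun y hy hy1 => ?_
      rw [(hker y hy).2 hy1, map_zero, neg_zero]
    · intro x hx
      have h1 : ∀ l, m l (n (P x)) = 0 := by
        intro l
        have h2 : CPol F d (fun y => m l (n (P y))) := by
          intro c hc
          refine asum_zero hF (hPc d c hc) (K := F k) (fun t => hPm _) (hmo l) fun y hy hyd => ?_
          rw [hd, Subgroup.mem_bot] at hyd
          rw [hyd, hn.one, map_zero]
        have h3 := hx ℤ _ h2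
        rw [hP1, hn.one, map_zero] at h3
        exact h3
      dsimp only
      have h2 : (fun l => g l ^ (- m l (n (P x)))) = fun _ => (1 : G) := by
        funext l
        rw [h1 l, neg_zero, zpow_zero]
      rw [h2, List.ofFn_const, List.prod_replicate, one_pow, mul_one, hPx x hx, ← pow_mul]

/-- the elements which are not separated from 1 in degree d have a common exponent -/
theorem exists_pow (hF : Filt F) (hd1 : 1 ≤ d) (hd : F d = ⊥) (hfg : ∀ k, 1 ≤ k → k < d → ∃ S : Finset G,
    (∀ s ∈ S, s ∈ F k) ∧ F k ≤ Subgroup.closure (S : Set G) ⊔ F (k + 1)) :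
    ∃ E : ℕ, 1 ≤ E ∧ ∀ x ∈ DD F hF d, x ^ E = 1 := by
  obtain ⟨P, E, hE, _, hPm, _, hPx⟩ := pow_stage hF hd hfg d hd1 le_rfl
  refine ⟨E, hE, fun x hx => ?_⟩
  rw [← hPx x hx]
  have := hPm x
  rwa [hd, Subgroup.mem_bot] at this

/-- the elements which are not separated from 1 in degree d are finitely many -/
theorem DD_finite (hF : Filt F) (hd1 : 1 ≤ d) (hd : F d = ⊥) (hfg : ∀ k, 1 ≤ k → k < d → ∃ S : Finset G,
    (∀ s ∈ S, s ∈ F k) ∧ F k ≤ Subgroup.closure (S : Set G) ⊔ F (k + 1)) : (DD F hF d : Set G).Finite := by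
  obtain ⟨E, hE, hx⟩ := exists_pow hF hd1 hd hfg
  have key : ∀ j k, 1 ≤ k → k + j = d → ((DD F hF d ⊓ F k : Subgroup G) : Set G).Finite := by
    intro j
    induction j with
    | zero =>
      intro k _ hk
      obtain rfl : k = d := by omega
      rw [hd, inf_bot_eq, Subgroup.coe_bot]
      exact Set.finite_singleton 1
    | succ j ih =>
      intro k hk1 hk
      have h1 := ih (k + 1) (by omega) (by omega)
      obtain ⟨A, iA, n, hA, hn, hker, hsurj⟩ := quot_fg hF hk1 (hfg k hk1 (by omega))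
      obtain ⟨-, hT⟩ := ab_struct A
      have h2 : ((DD F hF d ⊓ F k : Subgroup G) : Set G) ⊆ ⋃ t ∈ {y : A | ∃ n : ℕ, 1 ≤ n ∧ n • y = 0},
          {y | y ∈ DD F hF d ⊓ F k ∧ n y = t} := by
        intro y hy
        rw [Set.mem_iUnion₂]
        refine ⟨n y, ⟨E, hE, ?_⟩, hy, rfl⟩
        have h3 : n (y ^ E) = E • n y := by
          rw [← zpow_natCast, hn.zpow (show y ∈ F k from hy.2), natCast_zsmul]
        rw [← h3, hx y (show y ∈ DD F hF d from hy.1), hn.one]
      refine Set.Finite.subset (hT.biUnion fun t _ => ?_) h2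
      by_cases hne : ∃ y0, y0 ∈ DD F hF d ⊓ F k ∧ n y0 = t
      · obtain ⟨y0, hy0, hy0t⟩ := hne
        have hy0D : y0 ∈ DD F hF d := hy0.1
        have hy0F : y0 ∈ F k := hy0.2
        refine (h1.image fun z => y0 * z).subset ?_
        rintro y ⟨hy, hyt⟩
        have hyD : y ∈ DD F hF d := hy.1
        have hyF : y ∈ F k := hy.2
        have h4 : y0⁻¹ * y ∈ F (k + 1) := by
          refine (hker _ (mul_mem (inv_mem hy0F) hyF)).1 ?_
          rw [hn _ (inv_mem hy0F) _ hyF, hn.inv hy0F, hy0t, hyt, neg_add_cancel]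
        have h5 : y0⁻¹ * y ∈ DD F hF d := mul_mem (inv_mem hy0D) hyD
        exact ⟨y0⁻¹ * y, ⟨h5, h4⟩, by group⟩
      · refine Set.Finite.subset Set.finite_empty ?_
        rintro y ⟨hy, hyt⟩
        exact absurd ⟨y, hy, hyt⟩ hne
  have h := key (d - 1) 1 le_rfl (by omega)
  rw [hF.top, inf_top_eq] at h
  exact h

end tors

end SLC
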