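import Pool.Agent.SLC.Gam

/-!
Filtered groups: finite quotients of prime power order.
-/

set_option autoImplicit false

namespace SLC

theorem conj_pow_eq {H : Type} [Group H] {y h c : H} (hc : y * c = c * y) (e : y * h * y⁻¹ * h⁻¹ = c) (n : ℕ) :
    y ^ n * h * (y ^ n)⁻¹ * h⁻¹ = c ^ n := by
  induction n with
  | zero => simp
  | succ n ih =>
    have h1 : y * c ^ n = c ^ n * y := ((show Commute y c from hc).pow_right n)
    have h2 : y ^ (n + 1) * h * (y ^ (n + 1))⁻¹ * h⁻¹ = y * (y ^ n * h * (y ^ n)⁻¹ * h⁻¹) * h * y⁻¹ * h⁻¹ := by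
      rw [pow_succ']
      group
    rw [h2, ih, h1, pow_succ]
    have h3 : c ^ n * y * h * y⁻¹ * h⁻¹ = c ^ n * (y * h * y⁻¹ * h⁻¹) := by group
    rw [h3, e]

theorem comm_pow_mem {H : Type} [Group H] {F : ℕ → Subgroup H} (hF : Filt F) {k j : ℕ} (hk : 1 ≤ k) {y h : H}
    (hy : y ∈ F k) (hyh : y * h * y⁻¹ * h⁻¹ ∈ F j) {N : ℕ} (hN : (y * h * y⁻¹ * h⁻¹) ^ N = 1) :
    y ^ N * h * (y ^ N)⁻¹ * h⁻¹ ∈ F (j + 1) := by
  haveI := hF.normal (j + 1)
  have h1 : y * (y * h * y⁻¹ * h⁻¹) * y⁻¹ * (y * h * y⁻¹ * h⁻¹)⁻¹ ∈ F (j + 1) :=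
    hF.anti' (by omega) (hF.comm _ _ (Subgroup.commutator_mem_commutator hy hyh))
  let f := QuotientGroup.mk' (F (j + 1))
  have h2 : f (y * (y * h * y⁻¹ * h⁻¹) * y⁻¹ * (y * h * y⁻¹ * h⁻¹)⁻¹) = 1 := (QuotientGroup.eq_one_iff _).2 h1
  have h3 : f y * f (y * h * y⁻¹ * h⁻¹) = f (y * h * y⁻¹ * h⁻¹) * f y := by
    rw [map_mul, map_mul, map_mul, map_inv, map_inv, mul_inv_eq_one, mul_inv_eq_iff_eq_mul] at h2
    exact h2
  have h4 := conj_pow_eq (h := f h) h3 (by rw [map_mul, map_mul, map_mul, map_inv, map_inv]) N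
  rw [← map_pow, ← map_pow, hN, map_one] at h4
  have h5 : f (y ^ N * h * (y ^ N)⁻¹ * h⁻¹) = 1 := by
    rw [map_mul, map_mul, map_mul, map_inv, map_inv]
    exact h4
  exact (QuotientGroup.eq_one_iff _).1 h5

/-- finiteness of an extension -/
theorem finite_ext {H : Type} [Group H] {F : ℕ → Subgroup H} (hF : Filt F) {k : ℕ} (hk : 1 ≤ k)
    (hfin : Finite (F (k + 1))) (S : Finset H) (hS : ∀ s ∈ S, s ∈ F k)
    (hgen : F k ≤ Subgroup.closure (S : Set H) ⊔ F (k + 1)) (htor : ∀ y ∈ F k, ∃ n : ℕ, 1 ≤ n ∧ y ^ n = 1) :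
    Finite (F k) := by
  classical
  haveI := hF.normal (k + 1)
  let N : Subgroup (F k) := (F (k + 1)).subgroupOf (F k)
  haveI hN : N.Normal := inferInstance
  haveI hNf : Finite N := Finite.of_injective (fun x : N => (⟨x.1.1, x.2⟩ : F (k + 1))) (by
    intro a b hab
    have h := congrArg (fun z : F (k + 1) => (z : H)) hab
    exact Subtype.ext (Subtype.ext h))
  have hcomm : ∀ a b : F k ⧸ N, a * b = b * a := by
    intro a b
    obtain ⟨a, rfl⟩ := QuotientGroup.mk_surjective a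
    obtain ⟨b, rfl⟩ := QuotientGroup.mk_surjective b
    rw [← QuotientGroup.mk_mul, ← QuotientGroup.mk_mul, QuotientGroup.eq]
    have h1 := hF.comm _ _ (Subgroup.commutator_mem_commutator (inv_mem b.2) (inv_mem a.2))
    have h2 : (a * b)⁻¹ * (b * a) = b⁻¹ * a⁻¹ * b⁻¹⁻¹ * a⁻¹⁻¹ := by group
    rw [h2]
    exact hF.anti' (by omega) h1
  letI iC : CommGroup (F k ⧸ N) := { (inferInstance : Group (F k ⧸ N)) with mul_comm := hcomm }
  let T : Set (F k ⧸ N) := (fun s : {s // s ∈ S} => (QuotientGroup.mk (⟨s.1, hS s.1 s.2⟩ : F k) : F k ⧸ N)) '' Set.univ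
  have hTf : T.Finite := Set.Finite.image _ Set.finite_univ
  have hT : Subgroup.closure T = ⊤ := by
    let K : Subgroup H := ((Subgroup.closure T).comap (QuotientGroup.mk' N)).map (F k).subtype
    have hK : Subgroup.closure (S : Set H) ⊔ F (k + 1) ≤ K := by
      refine sup_le ((Subgroup.closure_le _).2 ?_) ?_
      · intro s hs
        exact ⟨⟨s, hS s hs⟩, Subgroup.subset_closure ⟨⟨s, hs⟩, trivial, rfl⟩, rfl⟩
      · intro s hs
        refine ⟨⟨s, hF.anti k hs⟩, ?_, rfl⟩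
        have h1 : (QuotientGroup.mk (⟨s, hF.anti k hs⟩ : F k) : F k ⧸ N) = 1 := (QuotientGroup.eq_one_iff _).2 hs
        change (QuotientGroup.mk (⟨s, hF.anti k hs⟩ : F k) : F k ⧸ N) ∈ Subgroup.closure T
        rw [h1]
        exact one_mem _
    rw [eq_top_iff]
    intro a _
    obtain ⟨a, rfl⟩ := QuotientGroup.mk_surjective a
    obtain ⟨b, hb, hba⟩ := hK (hgen a.2)
    have : b = a := Subtype.ext hba
    rw [← this]
    exact hb
  haveI : Group.FG (F k ⧸ N) := ⟨⟨hTf.toFinset, by rw [Set.Finite.coe_toFinset]; exact hT⟩⟩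
  haveI : Finite (F k ⧸ N) := by
    apply CommGroup.finite_of_fg_isMulTorsion
    intro a
    obtain ⟨a, rfl⟩ := QuotientGroup.mk_surjective a
    obtain ⟨n, hn, h⟩ := htor a.1 a.2
    rw [isOfFinOrder_iff_pow_eq_one]
    refine ⟨n, hn, ?_⟩
    have h2 : a ^ n = 1 := Subtype.ext (by simpa using h)
    change (QuotientGroup.mk' N a) ^ n = 1
    rw [← map_pow, h2, map_one]
  exact Finite.of_equiv _ (Subgroup.groupEquivQuotientProdSubgroup (s := N)).symm

theorem pgroup_of_center {H : Type} [Group H] {F : ℕ → Subgroup H} (hF : Filt F) {d : ℕ} (hd : F d = ⊥)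
    (hfg : ∀ k, 1 ≤ k → k < d → ∃ S : Finset H, (∀ s ∈ S, s ∈ F k) ∧ F k ≤ Subgroup.closure (S : Set H) ⊔ F (k + 1))
    {p : ℕ} (hp : Fact p.Prime) (hZ : ∀ z ∈ Subgroup.center H, ∃ a : ℕ, z ^ p ^ a = 1) :
    ∀ j k, k + j = d → 1 ≤ k → Finite (F k) ∧ IsPGroup p (F k) := by
  intro j
  induction j with
  | zero =>
    intro k hk _
    rw [add_zero] at hk
    rw [hk, hd]
    exact ⟨inferInstance, IsPGroup.of_bot⟩
  | succ j ih =>
    intro k hk hk1
    obtain ⟨hfin, hpg⟩ := ih (k + 1) (by omega) (by omega)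
    obtain ⟨e, he⟩ := (IsPGroup.iff_card (p := p)).1 hpg
    have hexp : ∀ u ∈ F (k + 1), u ^ p ^ e = 1 := by
      intro u hu
      have h1 : (⟨u, hu⟩ : F (k + 1)) ^ Nat.card (F (k + 1)) = 1 := pow_card_eq_one'
      rw [he] at h1
      exact congrArg Subtype.val h1
    have hcen : ∀ y ∈ F k, ∀ t : ℕ, ∀ h : H,
        y ^ (p ^ e) ^ t * h * (y ^ (p ^ e) ^ t)⁻¹ * h⁻¹ ∈ F (k + 1 + t) := by
      intro y hy t
      induction t with
      | zero =>
        intro h
        rw [pow_zero, pow_one, add_zero, add_comm k 1, add_comm 1 k]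
        have h1 := hF.comm k 1 (Subgroup.commutator_mem_commutator hy (by rw [hF.top]; trivial : h ∈ F 1))
        exact h1
      | succ t iht =>
        intro h
        have h1 := comm_pow_mem hF hk1 (pow_mem hy ((p ^ e) ^ t)) (iht h)
          (hexp _ (hF.anti' (by omega) (iht h)))
        rw [← pow_mul, ← pow_succ] at h1
        exact h1
    have hpow : ∀ y ∈ F k, ∃ a : ℕ, y ^ p ^ a = 1 := by
      intro y hy
      have h1 : y ^ (p ^ e) ^ d ∈ Subgroup.center H := by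
        rw [Subgroup.mem_center_iff]
        intro h
        have h2 := hF.anti' (show d ≤ k + 1 + d by omega) (hcen y hy d h)
        rw [hd, Subgroup.mem_bot, mul_inv_eq_one, mul_inv_eq_iff_eq_mul] at h2
        exact h2.symm
      obtain ⟨a, ha⟩ := hZ _ h1
      refine ⟨e * d + a, ?_⟩
      rw [pow_add, pow_mul, pow_mul]
      exact ha
    have hpg' : IsPGroup p (F k) := by
      intro g
      obtain ⟨a, ha⟩ := hpow g.1 g.2
      exact ⟨a, Subtype.ext (by simpa using ha)⟩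
    obtain ⟨S, hS, hgen⟩ := hfg k hk1 (by omega)
    refine ⟨finite_ext hF hk1 hfin S hS hgen (fun y hy => ?_), hpg'⟩
    obtain ⟨a, ha⟩ := hpow y hy
    exact ⟨p ^ a, Nat.one_le_pow _ _ hp.out.pos, ha⟩

theorem Filt.map {G H : Type} [Group G] [Group H] {F : ℕ → Subgroup G} (hF : Filt F) (f : G →* H)
    (hf : Function.Surjective f) : Filt (fun k => (F k).map f) where
  top := by
    change (F 1).map f = ⊤
    rw [hF.top, ← MonoidHom.range_eq_map, MonoidHom.range_eq_top.2 hf]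
  zero := by
    change (F 0).map f = ⊤
    rw [hF.zero, ← MonoidHom.range_eq_map, MonoidHom.range_eq_top.2 hf]
  anti k := Subgroup.map_mono (hF.anti k)
  comm i j := by
    change ⁅(F i).map f, (F j).map f⁆ ≤ (F (i + j)).map f
    rw [← Subgroup.map_commutator]
    exact Subgroup.map_mono (hF.comm i j)

theorem exists_max_normal {G : Type} [Group G] {x : G} (hx : x ≠ 1) : ∃ K : Subgroup G, K.Normal ∧ x ∉ K ∧
    ∀ L : Subgroup G, L.Normal → K ≤ L → x ∉ L → L = K := by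
  obtain ⟨K, -, hK⟩ := zorn_le_nonempty₀ {K : Subgroup G | K.Normal ∧ x ∉ K} (by
    intro c hc hch y hy
    refine ⟨sSup c, ⟨?_, ?_⟩, fun z hz => le_sSup hz⟩
    · constructor
      intro n hn g
      rw [Subgroup.mem_sSup_of_directedOn ⟨y, hy⟩ hch.directedOn] at hn ⊢
      obtain ⟨s, hs, hns⟩ := hn
      exact ⟨s, hs, (hc hs).1.conj_mem n hns g⟩
    · intro hxc
      rw [Subgroup.mem_sSup_of_directedOn ⟨y, hy⟩ hch.directedOn] at hxc
      obtain ⟨s, hs, hxs⟩ := hxc
      exact (hc hs).2 hxs) ⊥ ⟨inferInstance, fun h => hx (Subgroup.mem_bot.1 h)⟩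
  refine ⟨K, hK.prop.1, hK.prop.2, fun L hL hKL hxL => le_antisymm (hK.2 ⟨hL, hxL⟩ hKL) hKL⟩

theorem exists_pgroup {G : Type} [Group G] {F : ℕ → Subgroup G} (hF : Filt F) {d : ℕ} (hd : F d = ⊥)
    (hfg : ∀ k, 1 ≤ k → k < d → ∃ S : Finset G, (∀ s ∈ S, s ∈ F k) ∧ F k ≤ Subgroup.closure (S : Set G) ⊔ F (k + 1))
    {x : G} (hx : x ≠ 1) {n : ℕ} (hn : 1 ≤ n) (hxn : x ^ n = 1) :
    ∃ (p : ℕ) (_ : Fact p.Prime) (Q : Type) (_ : Group Q) (_ : Finite Q) (φ : G →* Q), IsPGroup p Q ∧ φ x ≠ 1 := by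
  classical
  obtain ⟨K, hKn, hxK, hmax⟩ := exists_max_normal hx
  let f : G →* G ⧸ K := QuotientGroup.mk' K
  have hf : Function.Surjective f := QuotientGroup.mk'_surjective K
  have hfx : f x ≠ 1 := fun h => hxK ((QuotientGroup.eq_one_iff x).1 h)
  have hmin : ∀ L : Subgroup (G ⧸ K), L.Normal → L ≠ ⊥ → f x ∈ L := by
    intro L hL hne
    by_contra hxL
    apply hne
    have hKL : K ≤ L.comap f := by
      intro y hy
      have h1 : f y = 1 := (QuotientGroup.eq_one_iff y).2 hy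
      rw [Subgroup.mem_comap, h1]
      exact one_mem _
    have h2 := hmax (L.comap f) (hL.comap f) hKL hxL
    rw [eq_bot_iff]
    intro y hy
    obtain ⟨y, rfl⟩ := hf y
    have h3 : y ∈ L.comap f := hy
    rw [h2] at h3
    exact Subgroup.mem_bot.2 ((QuotientGroup.eq_one_iff y).2 h3)
  have hfxn : f x ^ n = 1 := by rw [← map_pow, hxn, map_one]
  -- central elements
  have hcen : ∀ z ∈ Subgroup.center (G ⧸ K), z ≠ 1 → f x ∈ Subgroup.zpowers z := by
    intro z hz hz1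
    refine hmin _ ?_ (fun h => hz1 (Subgroup.zpowers_eq_bot.1 h))
    constructor
    intro a ha g
    have h1 : a ∈ Subgroup.center (G ⧸ K) := Subgroup.zpowers_le.2 hz ha
    rw [(Subgroup.mem_center_iff.1 h1 g), mul_inv_cancel_right]
    exact ha
  have hord0 : orderOf (f x) ≠ 0 := by
    rw [Ne, orderOf_eq_zero_iff, not_not]
    exact isOfFinOrder_iff_pow_eq_one.2 ⟨n, hn, hfxn⟩
  have hord : ∀ z ∈ Subgroup.center (G ⧸ K), z ≠ 1 → orderOf z ≠ 0 := by
    intro z hz hz1 h0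
    obtain ⟨a, ha⟩ := hcen z hz hz1
    have ha' : z ^ a = f x := ha
    have h1 : z ^ (a * n) = 1 := by rw [zpow_mul, ha', zpow_natCast, hfxn]
    have h2 : ¬ IsOfFinOrder z := orderOf_eq_zero_iff.1 h0
    have h3 : a * n = 0 := by
      by_contra hne
      exact h2 (isOfFinOrder_iff_zpow_eq_one.2 ⟨a * n, hne, h1⟩)
    have h4 : a = 0 := by
      rcases mul_eq_zero.1 h3 with h | h
      · exact h
      · exact absurd (by exact_mod_cast h : n = 0) (by omega)
    rw [h4, zpow_zero] at ha'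
    exact hfx ha'.symm
  have hprime : ∀ z ∈ Subgroup.center (G ⧸ K), z ≠ 1 → ∀ q : ℕ, q.Prime → q ∣ orderOf z → orderOf (f x) = q := by
    intro z hz hz1 q hq hqz
    have h0 := hord z hz hz1
    have h1 : orderOf (z ^ (orderOf z / q)) = q := orderOf_pow_orderOf_div h0 hqz
    have h2 : z ^ (orderOf z / q) ≠ 1 := by
      intro h
      rw [h, orderOf_one] at h1
      exact hq.one_lt.ne h1
    obtain ⟨a, ha⟩ := hcen _ (pow_mem hz _) h2
    have ha' : (z ^ (orderOf z / q)) ^ a = f x := ha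
    have h3 : f x ^ q = 1 := by
      rw [← ha', ← zpow_natCast, ← zpow_mul, mul_comm, zpow_mul, zpow_natCast]
      nth_rewrite 2 [← h1]
      rw [pow_orderOf_eq_one, one_zpow]
    rcases (Nat.dvd_prime hq).1 (orderOf_dvd_of_pow_eq_one h3) with h4 | h4
    · exact absurd (orderOf_eq_one_iff.1 h4) hfx
    · exact h4
  -- the prime
  by_cases hd0 : d = 0
  · subst hd0
    rw [hF.zero] at hd
    exact absurd (Subgroup.mem_bot.1 (hd ▸ (trivial : x ∈ (⊤ : Subgroup G)))) hx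
  have hF' := hF.map f hf
  have hd' : (F d).map f = ⊥ := by rw [hd, Subgroup.map_bot]
  have hfg' : ∀ k, 1 ≤ k → k < d → ∃ S : Finset (G ⧸ K), (∀ s ∈ S, s ∈ (F k).map f) ∧
      (F k).map f ≤ Subgroup.closure (S : Set (G ⧸ K)) ⊔ (F (k + 1)).map f := by
    intro k hk hkd
    obtain ⟨S, hS, hgen⟩ := hfg k hk hkd
    refine ⟨S.image f, ?_, ?_⟩
    · intro s hs
      obtain ⟨t, ht, rfl⟩ := Finset.mem_image.1 hs
      exact Subgroup.mem_map_of_mem f (hS t ht)
    · refine (Subgroup.map_mono hgen).trans ?_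
      rw [Subgroup.map_sup, MonoidHom.map_closure, Finset.coe_image]
  -- there is a central element
  have hex : ∃ z ∈ Subgroup.center (G ⧸ K), z ≠ 1 := by
    by_contra hcon
    push Not at hcon
    have hall : ∀ j k, k + j = d → 1 ≤ k → (F k).map f = ⊥ := by
      intro j
      induction j with
      | zero =>
        intro k hk _
        rw [add_zero] at hk
        rw [hk]
        exact hd'
      | succ j ih =>
        intro k hk hk1
        have h1 := ih (k + 1) (by omega) (by omega)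
        rw [eq_bot_iff]
        intro y hy
        refine Subgroup.mem_bot.2 (hcon y (Subgroup.mem_center_iff.2 fun g => ?_))
        have h2 := hF'.comm k 1 (Subgroup.commutator_mem_commutator hy (by rw [hF'.top]; trivial : g ∈ (F 1).map f))
        have h3 : y * g * y⁻¹ * g⁻¹ ∈ (F (k + 1)).map f := h2
        rw [h1, Subgroup.mem_bot, mul_inv_eq_one, mul_inv_eq_iff_eq_mul] at h3
        exact h3.symm
    have h4 := hall (d - 1) 1 (by omega) le_rfl
    have h5 : f x ∈ (F 1).map f := by rw [hF.top]; exact Subgroup.mem_map_of_mem f trivial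
    rw [h4] at h5
    exact hfx (Subgroup.mem_bot.1 h5)
  obtain ⟨z, hz, hz1⟩ := hex
  have hpz : (orderOf z).minFac.Prime := Nat.minFac_prime (fun h => hz1 (orderOf_eq_one_iff.1 h))
  have hp0 := hprime z hz hz1 _ hpz (Nat.minFac_dvd _)
  have hp : Fact (orderOf (f x)).Prime := ⟨by rw [hp0]; exact hpz⟩
  have hZ : ∀ w ∈ Subgroup.center (G ⧸ K), ∃ a : ℕ, w ^ orderOf (f x) ^ a = 1 := by
    intro w hw
    by_cases hw1 : w = 1
    · exact ⟨0, by rw [hw1, one_pow]⟩
    · have h1 := Nat.eq_prime_pow_of_unique_prime_dvd (p := orderOf (f x)) (hord w hw hw1)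
        (fun {q} hq hqd => (hprime w hw hw1 q hq hqd).symm)
      exact ⟨_, by rw [← h1, pow_orderOf_eq_one]⟩
  obtain ⟨hfin, hpg⟩ := pgroup_of_center hF' hd' hfg' hp hZ (d - 1) 1 (by omega) le_rfl
  have htop : (F 1).map f = ⊤ := hF'.top
  rw [htop] at hfin hpg
  haveI : Finite (G ⧸ K) := Finite.of_equiv _ Subgroup.topEquiv.toEquiv
  refine ⟨orderOf (f x), hp, G ⧸ K, inferInstance, inferInstance, f, ?_, hfx⟩
  exact hpg.of_equiv Subgroup.topEquiv

end SLC
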