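import Pool.Agent.SLC.Top6
import Pool.Agent.SLC.Gen2

/-!
String links: finite type invariants of degree < d are invariant under C_d-equivalence.
-/

set_option autoImplicit false

open scoped commutatorElement

namespace SLC

section Wd

variable {G A : Type} [Group G] [AddCommGroup A]

/-- functions of degree < k on P with respect to T -/
def Wd (P : Subgroup G) (T : Set G) : ℕ → Set (G → A)
  | 0 => {F | ∀ g ∈ P, F g = 0}
  | k + 1 => {F | ∀ t ∈ T, (fun g => F (g * t) - F g) ∈ Wd P T k}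

variable {P : Subgroup G} {T : Set G}

theorem Wd.add : ∀ (k : ℕ) {F F' : G → A}, F ∈ Wd P T k → F' ∈ Wd P T k → (fun g => F g + F' g) ∈ Wd P T k
  | 0, F, F', h, h' => fun g hg => by
    change F g + F' g = 0
    rw [h g hg, h' g hg, add_zero]
  | k + 1, F, F', h, h' => fun t ht => by
    have h1 := Wd.add k (h t ht) (h' t ht)
    have e : (fun g => F (g * t) + F' (g * t) - (F g + F' g)) = fun g => F (g * t) - F g + (F' (g * t) - F' g) := by
      funext g
      abel
    rw [e]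
    exact h1

theorem Wd.neg : ∀ (k : ℕ) {F : G → A}, F ∈ Wd P T k → (fun g => - F g) ∈ Wd P T k
  | 0, F, h => fun g hg => by
    change - F g = 0
    rw [h g hg, neg_zero]
  | k + 1, F, h => fun t ht => by
    have h1 := Wd.neg k (h t ht)
    have e : (fun g => - F (g * t) - - F g) = fun g => - (F (g * t) - F g) := by
      funext g
      abel
    rw [e]
    exact h1

theorem Wd.sub (k : ℕ) {F F' : G → A} (h : F ∈ Wd P T k) (h' : F' ∈ Wd P T k) : (fun g => F g - F' g) ∈ Wd P T k := by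
  have e : (fun g => F g - F' g) = fun g => F g + - F' g := by
    funext g
    abel
  rw [e]
  exact Wd.add k h (Wd.neg k h')

/-- translations -/
theorem Wd.tr (hT : ∀ t ∈ T, ∀ a ∈ P, a⁻¹ * t * a ∈ T) : ∀ (k : ℕ) {F : G → A} {a : G}, a ∈ P → F ∈ Wd P T k →
    (fun g => F (g * a)) ∈ Wd P T k
  | 0, F, a, ha, h => fun g hg => h _ (mul_mem hg ha)
  | k + 1, F, a, ha, h => fun t ht => by
    have h1 := Wd.tr hT k ha (h _ (hT t ht a ha))
    have e : (fun g => F (g * t * a) - F (g * a)) = fun g => F (g * a * (a⁻¹ * t * a)) - F (g * a) := by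
      funext g
      congr 2
      group
    rw [e]
    exact h1

theorem Wd.diff_mul (hT : ∀ t ∈ T, ∀ a ∈ P, a⁻¹ * t * a ∈ T) {k : ℕ} {F : G → A} {a b : G} (ha : a ∈ P)
    (h1 : (fun g => F (g * a) - F g) ∈ Wd P T k) (h2 : (fun g => F (g * b) - F g) ∈ Wd P T k) :
    (fun g => F (g * (a * b)) - F g) ∈ Wd P T k := by
  have h3 := Wd.tr hT k ha h2
  have e : (fun g => F (g * (a * b)) - F g) = fun g => (F (g * a * b) - F (g * a)) + (F (g * a) - F g) := by
    funext g
    rw [mul_assoc]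
    abel
  rw [e]
  exact Wd.add k h3 h1

theorem Wd.diff_inv (hT : ∀ t ∈ T, ∀ a ∈ P, a⁻¹ * t * a ∈ T) {k : ℕ} {F : G → A} {a : G} (ha : a ∈ P)
    (h1 : (fun g => F (g * a) - F g) ∈ Wd P T k) : (fun g => F (g * a⁻¹) - F g) ∈ Wd P T k := by
  have h3 := Wd.neg k (Wd.tr hT k (inv_mem ha) h1)
  have e : (fun g => F (g * a⁻¹) - F g) = fun g => - (F (g * a⁻¹ * a) - F (g * a⁻¹)) := by
    funext g
    rw [inv_mul_cancel_right]
    abel
  rw [e]
  exact h3

theorem Wd.diff_one {k : ℕ} {F : G → A} : (fun g => F (g * 1) - F g) ∈ Wd P T k := by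
  have e : (fun g => F (g * 1) - F g) = fun _ => (0 : A) := by
    funext g
    rw [mul_one, sub_self]
  rw [e]
  have : ∀ k, (fun _ => (0 : A)) ∈ Wd P T k := by
    intro k
    induction k with
    | zero => intro g _; rfl
    | succ k ih => intro t _; simpa using ih
  exact this k

theorem Wd.gen (hT : ∀ t ∈ T, ∀ a ∈ P, a⁻¹ * t * a ∈ T) (hTP : ∀ t ∈ T, t ∈ P) (hgen : P ≤ Subgroup.closure T)
    {k : ℕ} {F : G → A} (hF : F ∈ Wd P T (k + 1)) {a : G} (ha : a ∈ P) : (fun g => F (g * a) - F g) ∈ Wd P T k := by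
  have hcl : ∀ x ∈ Subgroup.closure T, x ∈ P := (Subgroup.closure_le _).2 hTP
  have h := hgen ha
  induction h using Subgroup.closure_induction with
  | mem x hx => exact hF x hx
  | one => exact Wd.diff_one
  | mul x y hx hy h1 h2 => exact Wd.diff_mul hT (hcl x hx) (h1 (hcl x hx)) (h2 (hcl y hy))
  | inv x hx h1 => exact Wd.diff_inv hT (hcl x hx) (h1 (hcl x hx))

theorem Wd.lcs (hT : ∀ t ∈ T, ∀ a ∈ P, a⁻¹ * t * a ∈ T) (hTP : ∀ t ∈ T, t ∈ P) (hgen : P ≤ Subgroup.closure T) :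
    ∀ (j k : ℕ) {F : G → A}, F ∈ Wd P T (k + (j + 1)) → ∀ {γ : G}, γ ∈ P.lowerCentralSeries j →
      (fun g => F (g * γ) - F g) ∈ Wd P T k
  | 0, k, F, hF, γ, hγ => Wd.gen hT hTP hgen hF hγ
  | j + 1, k, F, hF, γ, hγ => by
    have ih := fun (k : ℕ) {F : G → A} (hF : F ∈ Wd P T (k + (j + 1))) {γ : G} (hγ : γ ∈ P.lowerCentralSeries j) =>
      Wd.lcs hT hTP hgen j k hF hγ
    have hle : P.lowerCentralSeries j ≤ P := P.lowerCentralSeries_le_self j
    have hle' : P.lowerCentralSeries (j + 1) ≤ P := P.lowerCentralSeries_le_self (j + 1)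
    have hcl : ∀ x ∈ Subgroup.closure {x | ∃ p ∈ P.lowerCentralSeries j, ∃ q ∈ P, ⁅p, q⁆ = x}, x ∈ P := hle'
    change γ ∈ Subgroup.closure {x | ∃ p ∈ P.lowerCentralSeries j, ∃ q ∈ P, ⁅p, q⁆ = x} at hγ
    induction hγ using Subgroup.closure_induction with
    | mem γ h =>
      obtain ⟨x, hx, y, hy, rfl⟩ := h
      have hxP := hle hx
      let F' : G → A := fun g => F (g * (y * x)⁻¹)
      have hF' : F' ∈ Wd P T (k + 1 + (j + 1)) := by
        have e : k + 1 + (j + 1) = k + (j + 1 + 1) := by omega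
        rw [e]
        exact Wd.tr hT _ (inv_mem (mul_mem hy hxP)) hF
      have h1 : (fun g => F' (g * y) - F' g) ∈ Wd P T (k + (j + 1)) := by
        refine Wd.gen hT hTP hgen ?_ hy
        have e : k + (j + 1) + 1 = k + 1 + (j + 1) := by omega
        rw [e]
        exact hF'
      have h2 := ih k h1 hx
      have h3 := ih (k + 1) hF' hx
      have h4 := Wd.gen hT hTP hgen h3 hy
      have h5 := Wd.sub k h2 h4
      have e : (fun g => F (g * ⁅x, y⁆) - F g) = fun g => F' (g * x * y) - F' (g * x) - (F' (g * y) - F' g) -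
          (F' (g * y * x) - F' (g * y) - (F' (g * x) - F' g)) := by
        funext g
        have e1 : F' (g * x * y) = F (g * ⁅x, y⁆) := by
          simp only [F', commutatorElement_def]
          congr 1
          group
        have e2 : F' (g * y * x) = F g := by
          simp only [F']
          congr 1
          group
        rw [e1, e2]
        abel
      rw [e]
      exact h5
    | one => exact Wd.diff_one
    | mul x y hx hy h1 h2 => exact Wd.diff_mul hT (hcl x hx) h1 h2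
    | inv x hx h1 => exact Wd.diff_inv hT (hcl x hx) h1

end Wd

theorem altB_append {A : Type} [AddCommGroup A] (F : Br → A) (t : Br) : ∀ (ts : List Br) (g : Br),
    altB F g (ts ++ [t]) = altB (fun g => F (g * t) - F g) g ts
  | [], g => rfl
  | a :: ts, g => by
    rw [List.cons_append, altB, altB, altB_append F t ts, altB_append F t ts]

theorem W_of_altB {A : Type} [AddCommGroup A] {P : Subgroup Br} {T : Set Br} : ∀ (d : ℕ) (F : Br → A),
    (∀ ts : List Br, ts.length = d → (∀ t ∈ ts, t ∈ T) → ∀ g ∈ P, altB F g ts = 0) → F ∈ Wd P T d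
  | 0, F, h => fun g hg => h [] rfl (by simp) g hg
  | d + 1, F, h => fun t ht => W_of_altB d _ fun ts hts hT g hg => by
    rw [← altB_append]
    refine h _ (by simp [hts]) ?_ g hg
    intro s hs
    rcases List.mem_append.1 hs with hs | hs
    · exact hT s hs
    · rw [List.mem_singleton.1 hs]
      exact ht

/-- the crossing changes -/
def TT (n : ℕ) : Set Br := {t | ∃ i c, i + 1 < n ∧ c ∈ BN n ∧ t = c⁻¹ * ((σ i)⁻¹ * (σ i)⁻¹) * c}

theorem TT_conj {n : ℕ} : ∀ t ∈ TT n, ∀ a ∈ PN n, a⁻¹ * t * a ∈ TT n := by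
  rintro _ ⟨i, c, hi, hc, rfl⟩ a ha
  refine ⟨i, c * a, hi, mul_mem hc ha.1, ?_⟩
  group

theorem TT_PN {n : ℕ} : ∀ t ∈ TT n, t ∈ PN n := by
  rintro _ ⟨i, c, hi, hc, rfl⟩
  have := PN_conj (inv_mem hc) (sq_mem hi)
  rwa [inv_inv] at this

theorem TT_gen {n : ℕ} : PN n ≤ Subgroup.closure (TT n) := by
  intro g hg
  have h := PN_gen n g hg
  refine (Subgroup.closure_le _).2 ?_ h
  rintro _ ⟨c, hc, i, hi, rfl⟩
  have h1 : c⁻¹⁻¹ * ((σ i)⁻¹ * (σ i)⁻¹) * c⁻¹ ∈ TT n := ⟨i, c⁻¹, hi, inv_mem hc, rfl⟩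
  have h2 := inv_mem (Subgroup.subset_closure h1)
  have e : c * σ i ^ 2 * c⁻¹ = (c⁻¹⁻¹ * ((σ i)⁻¹ * (σ i)⁻¹) * c⁻¹)⁻¹ := by group
  rw [e]
  exact h2

theorem exists_tts {n : ℕ} : ∀ ts : List Br, (∀ t ∈ ts, t ∈ TT n) → ∃ l : List (ℕ × Br), l.length = ts.length ∧
    tts l = ts ∧ Pp l ∈ BN n ∧ ∀ p ∈ l, p.1 + 1 < n ∧ p.2 ∈ BN n
  | [], _ => ⟨[], rfl, rfl, by simp [Pp, one_mem], by simp⟩
  | t :: ts, h => by
    obtain ⟨l, h1, h2, h3, h4⟩ := exists_tts ts (fun s hs => h s (List.mem_cons_of_mem _ hs))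
    obtain ⟨i, c, hi, hc, rfl⟩ := h t List.mem_cons_self
    have e : c * (Pp l)⁻¹ * Pp l = c := by group
    refine ⟨(i, c * (Pp l)⁻¹) :: l, by simp [h1], ?_, ?_, ?_⟩
    · rw [tts, h2]
      simp only [e]
    · have : Pp ((i, c * (Pp l)⁻¹) :: l) = σ i * (c * (Pp l)⁻¹ * Pp l) := by simp [Pp, mul_assoc]
      rw [this, e]
      exact mul_mem (σ_mem hi) hc
    · intro p hp
      rcases List.mem_cons.1 hp with rfl | hp
      · exact ⟨hi, mul_mem hc (inv_mem h3)⟩
      · exact h4 p hp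

/-- finite type invariants of degree < d do not change under C_d-equivalence -/
theorem FiniteType.inv {m d : ℕ} (hd : 1 ≤ d) {A : Type} [AddCommGroup A] {v : Tangle → A} (h : FiniteType m d v)
    {x y : Tangle} (hxy : CEquiv m d x y) : v x = v y := by
  have key : ∀ r : List ℕ, r.length = m → ∀ g ∈ PN (width r), ∀ γ ∈ Gam d (width r), v (cl r (g * γ)) = v (cl r g) := by
    intro r hr g hg γ hγ
    have h1 : (fun b => v (cl r b)) ∈ Wd (PN (width r)) (TT (width r)) d := by
      refine W_of_altB d _ fun ts hts hT g hg => ?_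
      obtain ⟨l, h1, h2, h3, h4⟩ := exists_tts ts hT
      have h5 := h r (g * (Pp l)⁻¹) l hr (h1.trans hts) (mul_mem hg.1 (inv_mem h3)) h4 (by
        have e : g * (Pp l)⁻¹ * (l.map fun p => σ p.1 * p.2).prod = g := by
          change g * (Pp l)⁻¹ * Pp l = g
          group
        rw [e]
        exact hg)
      rw [resolve_eq, h2] at h5
      have e : g * (Pp l)⁻¹ * Pp l = g := by group
      rw [e] at h5
      have h6 : (-1 : ℤ) ^ l.length • ((-1 : ℤ) ^ l.length • altB (fun b => v (cl r b)) g ts) = 0 := by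
        rw [h5, smul_zero]
      rwa [smul_smul, ← pow_add, ← two_mul, pow_mul, neg_one_sq, one_pow, one_smul] at h6
    have e : d = 0 + (d - 1 + 1) := by omega
    rw [e] at h1
    have h2 := Wd.lcs TT_conj TT_PN TT_gen (d - 1) 0 h1 (γ := γ) hγ
    exact sub_eq_zero.1 (h2 g hg)
  induction hxy with
  | rel x y h =>
    obtain ⟨r, hr, g, hg, γ, hγ, rfl, rfl⟩ := h
    exact (key r hr g hg γ hγ).symm
  | refl => rfl
  | symm x y _ h => exact h.symm
  | trans x y z _ _ h h' => exact h.trans h'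

end SLC
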