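import Pool.Agent.SLC.Red2

/-!
String links: the classes of the degrees 1 and 2 are generated by GT and by GC, GD, GE.
-/

set_option autoImplicit false

namespace SLC

open CSys

/-- the lower factor of a composition with a trivial string link -/
theorem lev {r' b : List ℕ} (hl : r'.length = b.length) : ∃ d ∈ BN (width (List.zipWith (· + ·) r' b)),
    (∀ x < width b, perm d x = lpos r' b x) ∧
      ∀ y ∈ PN (width b), cl (List.zipWith (· + ·) r' b) (d * y * d⁻¹) = cl b y := by
  let a : Lv b.length := ⟨r', hl⟩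
  let b' : Lv b.length := ⟨b, rfl⟩
  obtain ⟨h1, _, h3⟩ := dlo_spec a b'
  refine ⟨dlo a b', h1, h3, fun y hy => ?_⟩
  have h := cl_cmp a b' 1 ⟨y, hy⟩
  rw [map_one, one_mul] at h
  have e : cl a.1 ((1 : PN (width a.1)) : Br) = 1 := cl_one _
  rw [e, one_mul] at h
  exact h

theorem lpos_W : ∀ (r' b : List ℕ), r'.length = b.length → ∀ i, i < b.length → ∀ e, W b i + e < W b (i + 1) →
    lpos r' b (W b i + e) = W (List.zipWith (· + ·) r' b) i + e := by
  intro r'
  induction r' with
  | nil =>
    intro b hl i hi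
    rw [← hl] at hi
    exact absurd hi (Nat.not_lt_zero _)
  | cons a' r' ih =>
    intro b hl i hi e he
    cases b with
    | nil => exact absurd hi (Nat.not_lt_zero _)
    | cons a b =>
      rw [List.zipWith_cons_cons]
      rcases i with _ | i
      · rw [W_zero, W_succ, W_zero] at he
        rw [W_zero, W_zero, lpos, if_pos (by omega)]
      · rw [W_succ, W_succ] at he
        rw [W_succ, W_succ, lpos, if_neg (by omega)]
        have e1 : 2 * a + 1 + W b i + e - (2 * a + 1) = W b i + e := by omega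
        rw [e1, ih b (by simpa using hl) i (by simpa using hi) e (by omega)]
        change 2 * (a' + a) + 1 + (W (List.zipWith (· + ·) r' b) i + e) = 2 * (a' + a) + 1 + W _ i + e
        omega

theorem exists_sub {b r : List ℕ} (h : List.Forall₂ (· ≤ ·) b r) :
    ∃ r', r'.length = b.length ∧ List.zipWith (· + ·) r' b = r := by
  induction h with
  | nil => exact ⟨[], rfl, rfl⟩
  | cons h _ ih =>
    rename_i a c b r _
    obtain ⟨r', h1, h2⟩ := ih
    refine ⟨(c - a) :: r', by simp [h1], ?_⟩
    rw [List.zipWith_cons_cons, h2]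
    congr 1
    omega

/-- zero level -/
def bz (m : ℕ) : List ℕ := List.replicate m 0

theorem bz_succ (m : ℕ) : bz (m + 1) = 0 :: bz m := rfl

theorem bz_len (m : ℕ) : (bz m).length = m := List.length_replicate

theorem width_bz (m : ℕ) : width (bz m) = m := by
  induction m with
  | zero => rfl
  | succ m ih => rw [bz_succ, width, ih]; omega

theorem W_bz (m : ℕ) : ∀ i, i ≤ m → W (bz m) i = i := by
  induction m with
  | zero => intro i hi; obtain rfl : i = 0 := (by omega); exact W_zero _
  | succ m ih =>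
    intro i hi
    rcases i with _ | i
    · exact W_zero _
    · rw [bz_succ, W_succ, ih i (by omega)]; omega

theorem caps_bz (m : ℕ) : ∀ o, caps o (bz m) = 1 := by
  induction m with
  | zero => intro o; rfl
  | succ m ih => intro o; rw [bz_succ, caps, ih, capRow, mul_one]

theorem cups_bz (m : ℕ) : ∀ o, cups o (bz m) = 1 := by
  induction m with
  | zero => intro o; rfl
  | succ m ih => intro o; rw [bz_succ, cups, ih, cupRow, mul_one]

theorem cl_bz (m : ℕ) (g : Br) : cl (bz m) g = T g := by rw [cl_def, caps_bz, cups_bz, one_mul, mul_one]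

theorem le_bz : ∀ r : List ℕ, List.Forall₂ (· ≤ ·) (bz r.length) r
  | [] => List.Forall₂.nil
  | a :: r => List.Forall₂.cons (Nat.zero_le a) (le_bz r)

/-- one return of the component i -/
def bu : ℕ → ℕ → List ℕ
  | 0, _ => []
  | m + 1, 0 => 1 :: bz m
  | m + 1, i + 1 => 0 :: bu m i

theorem bu_len (m : ℕ) : ∀ i, (bu m i).length = m := by
  induction m with
  | zero => intro i; rfl
  | succ m ih =>
    intro i
    rcases i with _ | i
    · rw [bu, List.length_cons, bz_len]
    · rw [bu, List.length_cons, ih]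

theorem width_bu (m : ℕ) : ∀ i, i < m → width (bu m i) = m + 2 := by
  induction m with
  | zero => intro i hi; exact absurd hi (Nat.not_lt_zero _)
  | succ m ih =>
    intro i hi
    rcases i with _ | i
    · rw [bu, width, width_bz]; omega
    · rw [bu, width, ih i (by omega)]; omega

theorem W_bu (m : ℕ) : ∀ i, i < m → ∀ j, j ≤ m → W (bu m i) j = if j ≤ i then j else j + 2 := by
  induction m with
  | zero => intro i hi; exact absurd hi (Nat.not_lt_zero _)
  | succ m ih =>
    intro i hi j hj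
    rcases j with _ | j
    · rw [W_zero, if_pos (Nat.zero_le _)]
    rcases i with _ | i
    · rw [bu, W_succ, W_bz m j (by omega), if_neg (by omega)]; omega
    · rw [bu, W_succ, ih i (by omega) j (by omega)]
      split_ifs <;> omega

theorem caps_bu (m : ℕ) : ∀ i, i < m → ∀ o, caps o (bu m i) = C (o + i) := by
  induction m with
  | zero => intro i hi; exact absurd hi (Nat.not_lt_zero _)
  | succ m ih =>
    intro i hi o
    rcases i with _ | i
    · rw [bu, caps, caps_bz, capRow, capRow, mul_one, mul_one]; rfl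
    · rw [bu, caps, ih i (by omega), capRow, one_mul]
      congr 1
      omega

theorem cups_bu (m : ℕ) : ∀ i, i < m → ∀ o, cups o (bu m i) = U (o + i + 1) := by
  induction m with
  | zero => intro i hi; exact absurd hi (Nat.not_lt_zero _)
  | succ m ih =>
    intro i hi o
    rcases i with _ | i
    · rw [bu, cups, cups_bz, cupRow, cupRow, one_mul, one_mul]
    · rw [bu, cups, ih i (by omega), cupRow, mul_one]
      congr 1
      omega

theorem cl_bu {m i : ℕ} (hi : i < m) (g : Br) : cl (bu m i) g = C i * T g * U (i + 1) := by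
  rw [cl_def, caps_bu m i hi, cups_bu m i hi, Nat.zero_add]

theorem le_bu : ∀ (r : List ℕ), (∀ a ∈ r, 1 ≤ a) → ∀ i, List.Forall₂ (· ≤ ·) (bu r.length i) r
  | [], _, _ => List.Forall₂.nil
  | a :: r, h, 0 => List.Forall₂.cons (h a List.mem_cons_self) (le_bz r)
  | a :: r, h, i + 1 => List.Forall₂.cons (Nat.zero_le a) (le_bu r (fun b hb => h b (List.mem_cons_of_mem _ hb)) i)

section

variable {m : ℕ} {G : Type} [Group G]

theorem Gd2.of_gen {π : (sys m).Quo (2 + 1) G} {H : Subgroup G} {r' b : List ℕ} (hl : r'.length = b.length)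
    (hb : b.length = m) {x y z : ℕ} (hx : x < width b) (hy : y < width b) (hz : z < width b) (hxy : x ≠ y)
    (hxz : x ≠ z) (hyz : y ≠ z) (h : ∀ c ∈ BN (width b), perm c 0 = x → perm c 1 = y → perm c 2 = z →
      π.cls (cl b (c * cc2 * c⁻¹)) ∈ H) :
    Gd2 π H (List.zipWith (· + ·) r' b) (lpos r' b x) (lpos r' b y) (lpos r' b z) := by
  obtain ⟨c, hc, c0, c1, c2⟩ := exists_tri hx hy hz hxy hxz hyz
  obtain ⟨d, hd, hp, hcl⟩ := lev hl
  have hw : width b ≤ width (List.zipWith (· + ·) r' b) := by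
    have := width_add r' b hl
    omega
  have hN : 3 ≤ width b := by omega
  refine Gd2.of_one (c := d * c) (by rw [List.length_zipWith, hl, min_self, hb]) (by omega)
    (mul_mem hd (BN_mono hw hc)) ?_ ?_ ?_ ?_
  · rw [map_mul, Equiv.Perm.mul_apply, c0, hp x hx]
  · rw [map_mul, Equiv.Perm.mul_apply, c1, hp y hy]
  · rw [map_mul, Equiv.Perm.mul_apply, c2, hp z hz]
  · have e : d * c * cc2 * (d * c)⁻¹ = d * (c * cc2 * c⁻¹) * d⁻¹ := by group
    rw [e, th, hcl _ (PN_conj hc (Gam_le_PN (cc2_mem hN)))]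
    exact h c hc c0 c1 c2

theorem Gd1.of_gen {π : (sys m).Quo (1 + 1) G} {H : Subgroup G} {r' b : List ℕ} (hl : r'.length = b.length)
    (hb : b.length = m) {x y : ℕ} (hx : x < width b) (hy : y < width b) (hxy : x ≠ y)
    (h : ∀ c ∈ BN (width b), perm c 0 = x → perm c 1 = y → π.cls (cl b (c * σ 0 ^ 2 * c⁻¹)) ∈ H) :
    Gd1 π H (List.zipWith (· + ·) r' b) (lpos r' b x) (lpos r' b y) := by
  obtain ⟨c, hc, c0, c1⟩ := exists_two hx hy hxy
  obtain ⟨d, hd, hp, hcl⟩ := lev hl
  have hw : width b ≤ width (List.zipWith (· + ·) r' b) := by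
    have := width_add r' b hl
    omega
  have hN : 2 ≤ width b := by omega
  refine Gd1.of_one (c := d * c) (by rw [List.length_zipWith, hl, min_self, hb]) (by omega)
    (mul_mem hd (BN_mono hw hc)) ?_ ?_ ?_
  · rw [map_mul, Equiv.Perm.mul_apply, c0, hp x hx]
  · rw [map_mul, Equiv.Perm.mul_apply, c1, hp y hy]
  · have e : d * c * σ 0 ^ 2 * (d * c)⁻¹ = d * (c * σ 0 ^ 2 * c⁻¹) * d⁻¹ := by group
    rw [e, th, hcl _ (PN_conj hc (sq_mem_PN (by omega)))]
    exact h c hc c0 c1

/-- predicate: one of the generators of degree 2 -/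
def GG (m : ℕ) (y : Tangle) : Prop :=
  (∃ i, i < m ∧ GC m i y) ∨ (∃ i j, i < j ∧ j < m ∧ GD m i j y) ∨ ∃ i j k, i < j ∧ j < k ∧ k < m ∧ GE m i j k y

theorem Gd2.level {π : (sys m).Quo (2 + 1) G} {H : Subgroup G} {r : List ℕ} (hr : r.length = m) (h1 : ∀ a ∈ r, 1 ≤ a)
    (hH : ∀ y, GG m y → π.cls y ∈ H) :
    ∀ x y z, x ≠ y → x ≠ z → y ≠ z → x < width r → y < width r → z < width r → Gd2 π H r x y z := by
  subst hr
  refine Gd2.all rfl h1 (fun i hi => ?_) (fun i j hij hj => ?_) (fun i j k hij hjk hk => ?_)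
  · obtain ⟨r', hl, hz⟩ := exists_sub (le_bu r h1 i)
    have hlen := bu_len r.length i
    have hw := width_bu r.length i hi
    have W0 := W_bu r.length i hi i hi.le
    have W1 := W_bu r.length i hi (i + 1) hi
    rw [if_pos le_rfl] at W0
    rw [if_neg (by omega)] at W1
    have e0 := lpos_W r' _ hl i (by omega) 0 (by omega)
    have e1 := lpos_W r' _ hl i (by omega) 1 (by omega)
    have e2 := lpos_W r' _ hl i (by omega) 2 (by omega)
    rw [hz, W0] at e0 e1 e2
    have h := Gd2.of_gen (π := π) (H := H) hl hlen (x := i) (y := i + 1) (z := i + 2) (by omega) (by omega) (by omega)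
      (by omega) (by omega) (by omega) (fun c hc c0 c1 c2 => hH _ (Or.inl ⟨i, hi, c, by rwa [hw] at hc, c0, c1, c2,
        by rw [cl_bu hi]⟩))
    rw [hz, e1, e2] at h
    rw [show lpos r' (bu r.length i) i = W r i from e0] at h
    exact h
  · have hi : i < r.length := by omega
    obtain ⟨r', hl, hz⟩ := exists_sub (le_bu r h1 i)
    have hlen := bu_len r.length i
    have hw := width_bu r.length i hi
    have W0 := W_bu r.length i hi i hi.le
    have W1 := W_bu r.length i hi (i + 1) hi
    have W2 := W_bu r.length i hi j hj.le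
    have W3 := W_bu r.length i hi (j + 1) hj
    rw [if_pos le_rfl] at W0
    rw [if_neg (by omega)] at W1 W2 W3
    have e0 := lpos_W r' _ hl i (by omega) 0 (by omega)
    have e1 := lpos_W r' _ hl i (by omega) 1 (by omega)
    have e2 := lpos_W r' _ hl j (by omega) 0 (by omega)
    rw [hz, W0] at e0 e1
    rw [hz, W2] at e2
    have h := Gd2.of_gen (π := π) (H := H) hl hlen (x := i) (y := i + 1) (z := j + 2) (by omega) (by omega) (by omega)
      (by omega) (by omega) (by omega) (fun c hc c0 c1 c2 => hH _ (Or.inr (Or.inl ⟨i, j, hij, hj, c,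
        by rwa [hw] at hc, c0, c1, c2, by rw [cl_bu hi]⟩)))
    rw [hz, e1] at h
    rw [show lpos r' (bu r.length i) i = W r i from e0, show lpos r' (bu r.length i) (j + 2) = W r j from e2] at h
    exact h
  · obtain ⟨r', hl, hz⟩ := exists_sub (le_bz r)
    have hlen := bz_len r.length
    have hw := width_bz r.length
    have ew : ∀ a, a < r.length → lpos r' (bz r.length) a = W r a := by
      intro a ha
      have W0 := W_bz r.length a ha.le
      have W1 := W_bz r.length (a + 1) ha
      have e0 := lpos_W r' _ hl a (by omega) 0 (by omega)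
      rw [hz, W0] at e0
      exact e0
    have h := Gd2.of_gen (π := π) (H := H) hl hlen (x := i) (y := j) (z := k) (by omega) (by omega) (by omega)
      (by omega) (by omega) (by omega) (fun c hc c0 c1 c2 => hH _ (Or.inr (Or.inr ⟨i, j, k, hij, hjk, hk, c,
        by rwa [hw] at hc, c0, c1, c2, by rw [cl_bz]⟩)))
    rw [hz, ew i (by omega), ew j (by omega), ew k hk] at h
    exact h

theorem Gd1.level {π : (sys m).Quo (1 + 1) G} {H : Subgroup G} {r : List ℕ} (hr : r.length = m) (h1 : ∀ a ∈ r, 1 ≤ a)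
    (hH : ∀ i j y, i < j → j < m → GT m i j y → π.cls y ∈ H) :
    ∀ x y, x ≠ y → x < width r → y < width r → Gd1 π H r x y := by
  subst hr
  refine Gd1.all rfl h1 (fun i j hij hj => ?_)
  obtain ⟨r', hl, hz⟩ := exists_sub (le_bz r)
  have hlen := bz_len r.length
  have hw := width_bz r.length
  have ew : ∀ a, a < r.length → lpos r' (bz r.length) a = W r a := by
    intro a ha
    have W0 := W_bz r.length a ha.le
    have W1 := W_bz r.length (a + 1) ha
    have e0 := lpos_W r' _ hl a (by omega) 0 (by omega)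
    rw [hz, W0] at e0
    exact e0
  have h := Gd1.of_gen (π := π) (H := H) hl hlen (x := i) (y := j) (by omega) (by omega)
    (by omega) (fun c hc c0 c1 => hH i j _ hij hj ⟨c, by rwa [hw] at hc, c0, c1, by rw [cl_bz]⟩)
  rw [hz, ew i (by omega), ew j hj] at h
  exact h

/-- the elements of the term k whose classes lie in H -/
def inH {k : ℕ} (π : (sys m).Quo (k + 1) G) (hk : 1 ≤ k) (H : Subgroup G) {r : List ℕ} (hr : r.length = m) :
    Subgroup Br where
  carrier := {g | g ∈ Gam k (width r) ∧ th π r g ∈ H}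
  one_mem' := ⟨one_mem _, by rw [th_one π hr (one_mem _)]; exact one_mem H⟩
  mul_mem' := by
    rintro a b ⟨ha, ha'⟩ ⟨hb, hb'⟩
    exact ⟨mul_mem ha hb, by rw [th_mul π hk hr ha hb]; exact mul_mem ha' hb'⟩
  inv_mem' := by
    rintro a ⟨ha, ha'⟩
    exact ⟨inv_mem ha, by rw [th_inv π hk hr ha]; exact inv_mem ha'⟩

theorem th_mem_of_pos {k : ℕ} (hk : 1 ≤ k) (π : (sys m).Quo (k + 1) G) (H : Subgroup G)
    (h : ∀ r : List ℕ, r.length = m → (∀ a ∈ r, 1 ≤ a) → ∀ g ∈ Gam k (width r), th π r g ∈ H) {x : Tangle}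
    (hx : (sys m).IsCl x) (hx1 : (sys m).Ceq k x 1) : π.cls x ∈ H := by
  have h1 := (π.mem_FF_iff (by omega) hk (by omega) hx).2 hx1
  refine (Subgroup.closure_le _).2 ?_ h1
  rintro _ ⟨⟨r, hr⟩, a, ha, rfl⟩
  let b : PN (width r) := a
  have ha' : (b : Br) ∈ Gam k (width r) := (mem_Gm_iff (n := width r) b).1 ha
  obtain ⟨d, hd, _, hcl⟩ := lev (r' := List.replicate m 1) (b := r) (by rw [List.length_replicate, hr])
  have hlen : (List.zipWith (· + ·) (List.replicate m 1) r).length = m := by
    rw [List.length_zipWith, List.length_replicate, hr, min_self]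
  have hw : width r ≤ width (List.zipWith (· + ·) (List.replicate m 1) r) := by
    have := width_add (List.replicate m 1) r (by rw [List.length_replicate, hr])
    omega
  have h2 := h _ hlen (by
    intro c hc
    obtain ⟨i, hi, rfl⟩ := List.getElem_of_mem hc
    rw [List.getElem_zipWith, List.getElem_replicate]
    omega) _ (Gam_conj hd (Gam_mono hw ha'))
  rw [th, hcl _ (Gam_le_PN ha')] at h2
  exact h2

theorem gen2 (π : (sys m).Quo (2 + 1) G) {x : Tangle} (hx : (sys m).IsCl x) (hx1 : (sys m).Ceq 2 x 1) :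
    π.cls x ∈ Subgroup.closure {g | ∃ y, GG m y ∧ g = π.cls y} := by
  refine th_mem_of_pos (by omega) π _ (fun r hr h1 g hg => ?_) hx hx1
  have hall := Gd2.level (π := π) (H := Subgroup.closure {g | ∃ y, GG m y ∧ g = π.cls y}) hr h1
    (fun y hy => Subgroup.subset_closure ⟨y, hy, rfl⟩)
  have h2 : N2 (width r) ≤ inH π (by omega) (Subgroup.closure {g | ∃ y, GG m y ∧ g = π.cls y}) hr := by
    refine sup_le ((Subgroup.closure_le _).2 ?_) ?_
    · rintro _ ⟨c, hc, hn, rfl⟩
      have inj : ∀ {a b : ℕ}, a ≠ b → perm c a ≠ perm c b := fun hab h => hab ((perm c).injective h)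
      exact ⟨Gam_conj hc (cc2_mem hn), hall _ _ _ (inj (by omega)) (inj (by omega)) (inj (by omega))
        ((perm_lt hc).1 0 (by omega)) ((perm_lt hc).1 1 (by omega)) ((perm_lt hc).1 2 (by omega)) c hc rfl rfl rfl⟩
    · intro q hq
      refine ⟨Gam_anti (by omega) hq, ?_⟩
      rw [th_one π hr hq]
      exact one_mem _
  exact (h2 (Gam2_gen hg)).2

theorem gen1 (π : (sys m).Quo (1 + 1) G) {x : Tangle} (hx : (sys m).IsCl x) :
    π.cls x ∈ Subgroup.closure {g | ∃ y, (∃ i j, i < j ∧ j < m ∧ GT m i j y) ∧ g = π.cls y} := by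
  refine th_mem_of_pos (by omega) π _ (fun r hr h1 g hg => ?_) hx (Ceq.one_of le_rfl hx)
  have hall := Gd1.level (π := π)
    (H := Subgroup.closure {g | ∃ y, (∃ i j, i < j ∧ j < m ∧ GT m i j y) ∧ g = π.cls y}) hr h1
    (fun i j y hij hj hy => Subgroup.subset_closure ⟨y, ⟨i, j, hij, hj, hy⟩, rfl⟩)
  have h2 : Subgroup.closure {x | ∃ c ∈ BN (width r), 2 ≤ width r ∧ x = c * σ 0 ^ 2 * c⁻¹} ≤
      inH π (by omega) (Subgroup.closure {g | ∃ y, (∃ i j, i < j ∧ j < m ∧ GT m i j y) ∧ g = π.cls y}) hr := by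
    refine (Subgroup.closure_le _).2 ?_
    rintro _ ⟨c, hc, hn, rfl⟩
    have inj : ∀ {a b : ℕ}, a ≠ b → perm c a ≠ perm c b := fun hab h => hab ((perm c).injective h)
    exact ⟨PN_conj hc (sq_mem_PN (by omega)), hall _ _ (inj (by omega)) ((perm_lt hc).1 0 (by omega))
      ((perm_lt hc).1 1 (by omega)) c hc rfl rfl⟩
  exact (h2 (PN_gen0 (Gam_le_PN hg))).2

end

end SLC
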