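import Pool.Agent.SLC.Fg1
import Pool.Agent.SLC.Red3

/-!
String links: removal of unused returns.
-/

set_option autoImplicit false

namespace SLC

theorem capRow_drop : ∀ (a t o : ℕ), t ≤ a → capRow o (a + 1) = capRow o a * C (o + 2 * t) := by
  intro a
  induction a with
  | zero =>
    intro t o ht
    obtain rfl : t = 0 := by omega
    rw [capRow, capRow, capRow, mul_one, one_mul]
    rfl
  | succ a ih =>
    intro t o ht
    rcases t with _ | t
    · have h := (Sh.capRow (a + 1)).c o o le_rfl
      rw [capRow, h]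
      rfl
    · rw [capRow, ih t (o + 2) (by omega), ← mul_assoc, capRow]
      congr 2
      omega

theorem cupRow_drop : ∀ (a t o : ℕ), t ≤ a → cupRow o (a + 1) = U (o + 2 * t) * cupRow o a := by
  intro a
  induction a with
  | zero =>
    intro t o ht
    obtain rfl : t = 0 := by omega
    rw [cupRow, cupRow, cupRow, mul_one, one_mul]
    rfl
  | succ a ih =>
    intro t o ht
    rcases t with _ | t
    · have h := (Sh.cupRow (a + 1)).u o o le_rfl
      rw [cupRow, h]
      rfl
    · rw [cupRow, ih t (o + 2) (by omega), mul_assoc, cupRow]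
      congr 2
      omega

/-- one return less of the component i -/
def dec : List ℕ → ℕ → List ℕ
  | [], _ => []
  | a :: r, 0 => (a - 1) :: r
  | a :: r, i + 1 => a :: dec r i

theorem dec_len (r : List ℕ) : ∀ i, (dec r i).length = r.length := by
  induction r with
  | nil => intro i; rfl
  | cons a r ih =>
    intro i
    rcases i with _ | i
    · rfl
    · rw [dec, List.length_cons, ih, List.length_cons]

theorem dec_width (r : List ℕ) : ∀ i, i < r.length → 1 ≤ r.getD i 0 → width r = width (dec r i) + 2 := by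
  induction r with
  | nil => intro i hi; exact absurd hi (Nat.not_lt_zero _)
  | cons a r ih =>
    intro i hi h
    rcases i with _ | i
    · rw [List.getD_cons_zero] at h
      rw [dec, width, width]
      omega
    · rw [List.getD_cons_succ] at h
      rw [dec, width, width, ih i (by simpa using hi) h]
      omega

theorem dec_sum (r : List ℕ) : ∀ i, i < r.length → 1 ≤ r.getD i 0 → r.sum = (dec r i).sum + 1 := by
  induction r with
  | nil => intro i hi; exact absurd hi (Nat.not_lt_zero _)
  | cons a r ih =>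
    intro i hi h
    rcases i with _ | i
    · rw [List.getD_cons_zero] at h
      rw [dec, List.sum_cons, List.sum_cons]
      omega
    · rw [List.getD_cons_succ] at h
      rw [dec, List.sum_cons, List.sum_cons, ih i (by simpa using hi) h]
      omega

theorem dec_ge (r : List ℕ) (b : ℕ) : ∀ i, (∀ a ∈ r, b ≤ a) → b < r.getD i 0 → ∀ a ∈ dec r i, b ≤ a := by
  induction r with
  | nil => intro i _ _ a ha; simp [dec] at ha
  | cons a r ih =>
    intro i hr h x hx
    rcases i with _ | i
    · rw [List.getD_cons_zero] at h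
      rw [dec, List.mem_cons] at hx
      rcases hx with rfl | hx
      · omega
      · exact hr x (List.mem_cons_of_mem _ hx)
    · rw [List.getD_cons_succ] at h
      rw [dec, List.mem_cons] at hx
      rcases hx with rfl | hx
      · exact hr x List.mem_cons_self
      · exact ih i (fun y hy => hr y (List.mem_cons_of_mem _ hy)) h x hx

theorem W_lt_width (r : List ℕ) : ∀ i, i < r.length → W r i + 2 * r.getD i 0 + 1 ≤ width r := by
  induction r with
  | nil => intro i hi; exact absurd hi (Nat.not_lt_zero _)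
  | cons a r ih =>
    intro i hi
    rcases i with _ | i
    · rw [W_zero, List.getD_cons_zero, width]
      omega
    · rw [W_succ, List.getD_cons_succ, width]
      have := ih i (by simpa using hi)
      omega

theorem caps_drop (r : List ℕ) : ∀ i t, i < r.length → t < r.getD i 0 → ∀ o,
    caps o r = caps o (dec r i) * C (o + W r i + 2 * t) := by
  induction r with
  | nil => intro i t hi; exact absurd hi (Nat.not_lt_zero _)
  | cons a r ih =>
    intro i t hi ht o
    rcases i with _ | i
    · rw [List.getD_cons_zero] at ht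
      obtain ⟨a, rfl⟩ : ∃ a', a = a' + 1 := ⟨a - 1, by omega⟩
      have h := (Sh.caps r).c (o + 2 * t) (o + (2 * a + 1)) (by omega)
      have e : o + (2 * (a + 1) + 1) = o + (2 * a + 1) + 2 := by omega
      rw [caps, capRow_drop a t o (by omega), e, mul_assoc, h, dec, caps, W_zero, ← mul_assoc]
      rfl
    · rw [List.getD_cons_succ] at ht
      rw [caps, ih i t (by simpa using hi) ht, dec, caps, W_succ, ← mul_assoc]
      congr 2
      omega

theorem cups_drop (r : List ℕ) : ∀ i t, i < r.length → t < r.getD i 0 → ∀ o,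
    cups o r = U (o + W r i + 2 * t + 1) * cups o (dec r i) := by
  induction r with
  | nil => intro i t hi; exact absurd hi (Nat.not_lt_zero _)
  | cons a r ih =>
    intro i t hi ht o
    rcases i with _ | i
    · rw [List.getD_cons_zero] at ht
      obtain ⟨a, rfl⟩ : ∃ a', a = a' + 1 := ⟨a - 1, by omega⟩
      have h := (Sh.cups r).u (o + 1 + 2 * t) (o + (2 * a + 1)) (by omega)
      have e : o + (2 * (a + 1) + 1) = o + (2 * a + 1) + 2 := by omega
      rw [cups, cupRow_drop a t (o + 1) (by omega), e, ← mul_assoc, h, dec, cups, W_zero, mul_assoc]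
      congr 2
      omega
    · rw [List.getD_cons_succ] at ht
      rw [cups, ih i t (by simpa using hi) ht, dec, cups, W_succ, mul_assoc]
      congr 2
      omega

/-- a return which is not used by the braid can be removed -/
theorem cl_drop {r : List ℕ} {i t : ℕ} (hi : i < r.length) (ht : t < r.getD i 0) : ∃ ζ ∈ BN (width r),
    (∀ x < width (dec r i), perm ζ x = if x < W r i + 2 * t then x else x + 2) ∧
      ∀ g ∈ BN (width (dec r i)), cl r (ζ * g * ζ⁻¹) = cl (dec r i) g := by
  have hw := dec_width r i hi (by omega)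
  have hW := W_lt_width r i hi
  set p := W r i + 2 * t with hp
  set N := width (dec r i) with hN
  obtain ⟨j, hj⟩ : ∃ j, N = p + j := ⟨N - p, by omega⟩
  refine ⟨zv p j, zv_mem p j (by omega), fun x hx => ?_, fun g hg => ?_⟩
  · rw [perm_zv]
    split_ifs <;> omega
  · have h1 : C p * T (zv p j) = C N := by rw [C_zv, hj]
    have h2 : C N * T g = T g * C N := C_BN le_rfl hg
    have h3 : C N * T (zv p j)⁻¹ = C p := by rw [← h1, mul_assoc, T_mul_inv, mul_one]
    have e1 := caps_drop r i t hi ht 0
    have e2 := cups_drop r i t hi ht 0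
    rw [Nat.zero_add, ← hp] at e1 e2
    rw [cl_def, cl_def, e1, e2, T_mul, T_mul]
    calc caps 0 (dec r i) * C p * (T (zv p j) * T g * T (zv p j)⁻¹) * (U (p + 1) * cups 0 (dec r i))
        = caps 0 (dec r i) * ((C p * T (zv p j)) * T g * T (zv p j)⁻¹) * (U (p + 1) * cups 0 (dec r i)) := by
          simp only [mul_assoc]
      _ = caps 0 (dec r i) * (T g * (C N * T (zv p j)⁻¹)) * (U (p + 1) * cups 0 (dec r i)) := by
          rw [h1, h2]; simp only [mul_assoc]
      _ = caps 0 (dec r i) * T g * (C p * U (p + 1)) * cups 0 (dec r i) := by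
          rw [h3]; simp only [mul_assoc]
      _ = caps 0 (dec r i) * T g * cups 0 (dec r i) := by rw [zig, mul_one]

/-- among more than K returns of the component i one is not met by K strands -/
theorem exists_free {K a o : ℕ} (hK : K < a) (f : ℕ → ℕ) : ∃ t < a, ∀ x < K, f x ≠ o + 2 * t ∧ f x ≠ o + 2 * t + 1 := by
  by_contra hcon
  push Not at hcon
  have h : ∀ t ∈ Finset.range a, ∃ x ∈ Finset.range K, f x = o + 2 * t ∨ f x = o + 2 * t + 1 := by
    intro t ht
    obtain ⟨x, hx, h1⟩ := hcon t (Finset.mem_range.1 ht)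
    refine ⟨x, Finset.mem_range.2 hx, ?_⟩
    by_cases h2 : f x = o + 2 * t
    · exact Or.inl h2
    · exact Or.inr (h1 h2)
  choose! g hg hg2 using h
  obtain ⟨s, hs, t, ht, hst, he⟩ := Finset.exists_ne_map_eq_of_card_lt_of_maps_to
    (s := Finset.range a) (t := Finset.range K) (by simpa using hK) (f := g) (fun t ht => hg t ht)
  have h1 := hg2 s hs
  have h2 := hg2 t ht
  rw [he] at h1
  omega

section

variable {m k : ℕ} {G : Type} [Group G] (π : (sys m).Quo (k + 1) G)

theorem th_dec (hk : 1 ≤ k) {K : ℕ} {r : List ℕ} (hr : r.length = m) {i : ℕ} (hi : i < r.length)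
    (hKi : K < r.getD i 0) (hKw : K ≤ width (dec r i)) {c w : Br} (hc : c ∈ BN (width r)) (hw : w ∈ Gam k K) :
    ∃ c' ∈ BN (width (dec r i)), th π r (c * w * c⁻¹) = th π (dec r i) (c' * w * c'⁻¹) := by
  obtain ⟨t, ht, hfree⟩ := exists_free (o := W r i) hKi (perm c)
  obtain ⟨ζ, hζ, hζp, hcl⟩ := cl_drop hi ht
  have hwd := dec_width r i hi (by omega)
  have hWw := W_lt_width r i hi
  set p := W r i + 2 * t with hp
  have hlt : ∀ x < K, perm c x < width r := fun x hx => (perm_lt hc).1 x (by omega)
  obtain ⟨c', hc', hcp⟩ := exists_inj K (width (dec r i)) (fun x => if perm c x < p then perm c x else perm c x - 2) (by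
      intro x hx
      have h1 := hlt x hx
      have h2 := hfree x hx
      split_ifs <;> omega) (by
      intro x hx y hy hxy
      have h1 := hfree x hx
      have h2 := hfree y hy
      have h3 : perm c x = perm c y := by
        split_ifs at hxy <;> omega
      exact (perm c).injective h3)
  refine ⟨c', hc', ?_⟩
  have hζc : ζ * c' ∈ BN (width r) := mul_mem hζ (BN_mono (by omega) hc')
  rw [th_class π hk hr (n := K) (by omega) hw hc hζc ?_]
  · have e : ζ * c' * w * (ζ * c')⁻¹ = ζ * (c' * w * c'⁻¹) * ζ⁻¹ := by group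
    rw [th, th, e, hcl]
    exact mul_mem (mul_mem hc' (BN_mono hKw (PN_iff.1 (Gam_le_PN hw)).1)) (inv_mem hc')
  · intro x hx
    have h1 := hlt x hx
    have h2 := hfree x hx
    have h3 := hcp x hx
    rw [map_mul, Equiv.Perm.mul_apply, hζp _ (by
      rw [h3]
      split_ifs <;> omega), h3]
    split_ifs <;> omega

theorem width_ge {b : ℕ} (r : List ℕ) (hr : ∀ a ∈ r, b ≤ a) (h1 : 1 ≤ r.length) : b ≤ width r := by
  rcases r with _ | ⟨a, r⟩
  · simp at h1
  · have := hr a List.mem_cons_self
    rw [width]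
    omega

theorem th_red (hk : 1 ≤ k) (K : ℕ) (hm : 1 ≤ m) {w : Br} (hw : w ∈ Gam k K) : ∀ (s : ℕ) (r : List ℕ), r.sum = s →
    r.length = m → (∀ a ∈ r, K ≤ a) → ∀ c ∈ BN (width r), ∃ c' ∈ BN (width (List.replicate m K)),
      th π r (c * w * c⁻¹) = th π (List.replicate m K) (c' * w * c'⁻¹) := by
  intro s
  induction s using Nat.strong_induction_on with
  | _ s ih =>
    intro r hrs hr hrK c hc
    by_cases h : ∀ a ∈ r, a = K
    · have e : r = List.replicate m K := by
        rw [List.eq_replicate_iff]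
        exact ⟨hr, h⟩
      rw [e] at hc ⊢
      exact ⟨c, hc, rfl⟩
    · push Not at h
      obtain ⟨a, ha, haK⟩ := h
      obtain ⟨i, hi, hia⟩ := List.getElem_of_mem ha
      have hget : r.getD i 0 = a := by rw [List.getD_eq_getElem _ _ hi, hia]
      have hKa : K < r.getD i 0 := by
        have := hrK a ha
        omega
      have hge := dec_ge r K i hrK hKa
      have hlen : (dec r i).length = m := by rw [dec_len, hr]
      obtain ⟨c', hc', e⟩ := th_dec π hk hr hi hKa (width_ge _ hge (by omega)) hc hw
      have hsum := dec_sum r i hi (by omega)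
      obtain ⟨c'', hc'', e'⟩ := ih (dec r i).sum (by omega) (dec r i) rfl hlen hge c' hc'
      exact ⟨c'', hc'', e.trans e'⟩

/-- the classes of degree k are finitely generated -/
theorem FF_fg_aux (hk : 1 ≤ k) : ∃ S : Finset G, (∀ s ∈ S, s ∈ π.FF k) ∧ π.FF k ≤ Subgroup.closure (S : Set G) := by
  classical
  set R := List.replicate m (2 * k) with hR
  have hRl : R.length = m := List.length_replicate
  obtain ⟨S, hS, hSg⟩ := Gam_fg k hk (width R)
  refine ⟨S.image (th π R), fun s hs => ?_, (Subgroup.closure_le _).2 ?_⟩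
  · obtain ⟨g, hg, rfl⟩ := Finset.mem_image.1 hs
    exact Subgroup.subset_closure ⟨(⟨R, hRl⟩ : Lv m), (⟨g, Gam_le_PN (hS g hg)⟩ : PN (width R)),
      (mem_Gm_iff (n := width R) _).2 (hS g hg), rfl⟩
  set H := Subgroup.closure ((S.image (th π R) : Finset G) : Set G) with hH
  have hRH : ∀ g ∈ Gam k (width R), th π R g ∈ H := by
    intro g hg
    have h1 : Subgroup.closure (S : Set Br) ⊔ Gam (k + 1) (width R) ≤ inH π hk H hRl := by
      refine sup_le ((Subgroup.closure_le _).2 fun s hs => ⟨hS s hs, Subgroup.subset_closure ?_⟩) ?_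
      · rw [Finset.mem_coe, Finset.mem_image]
        exact ⟨s, hs, rfl⟩
      · intro q hq
        refine ⟨Gam_anti (by omega) hq, ?_⟩
        rw [th_one π hRl hq]
        exact one_mem _
    exact (h1 (hSg hg)).2
  rintro _ ⟨⟨r, hr⟩, a, ha, rfl⟩
  let b : PN (width r) := a
  have ha' : (b : Br) ∈ Gam k (width r) := (mem_Gm_iff (n := width r) b).1 ha
  obtain ⟨d, hd, _, hcl⟩ := lev (r' := List.replicate m (2 * k)) (b := r) (by rw [List.length_replicate, hr])
  set r' := List.zipWith (· + ·) (List.replicate m (2 * k)) r with hr'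
  have hlen : r'.length = m := by
    rw [hr', List.length_zipWith, List.length_replicate, hr, min_self]
  have hwid : width r ≤ width r' := by
    have := width_add (List.replicate m (2 * k)) r (by rw [List.length_replicate, hr])
    rw [← hr'] at this
    omega
  have hge : ∀ c ∈ r', 2 * k ≤ c := by
    intro c hc
    obtain ⟨i, hi, rfl⟩ := List.getElem_of_mem hc
    simp only [hr', List.getElem_zipWith, List.getElem_replicate]
    omega
  have hmem : d * (b : Br) * d⁻¹ ∈ Gam k (width r') := Gam_conj hd (Gam_mono hwid ha')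
  have hth : th π r' (d * (b : Br) * d⁻¹) ∈ H := by
    rcases Nat.eq_zero_or_pos m with hm | hm
    · subst hm
      have hr0 : r' = [] := List.length_eq_zero_iff.1 hlen
      have hR0 : R = [] := List.length_eq_zero_iff.1 hRl
      have := hRH (d * (b : Br) * d⁻¹) (by rw [hR0, ← hr0]; exact hmem)
      rwa [hR0, ← hr0] at this
    · have h1 : Subgroup.closure (XX k (width r')) ⊔ Gam (k + 1) (width r') ≤ inH π hk H hlen := by
        have hw2 : 2 * k ≤ width r' := width_ge _ hge (by omega)
        refine sup_le ((Subgroup.closure_le _).2 ?_) ?_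
        · intro x hx
          refine ⟨XX_mem hw2 hx, ?_⟩
          obtain ⟨c, hc, w, hw, rfl⟩ := hx
          obtain ⟨c', hc', e⟩ := th_red π hk (2 * k) hm hw _ r' rfl hlen hge c hc
          rw [e]
          have hwR : 2 * k ≤ width (List.replicate m (2 * k)) := width_ge _ (fun a ha => by
            rw [List.eq_of_mem_replicate ha]) (by rw [List.length_replicate]; exact hm)
          exact hRH _ (Gam_conj hc' (Gam_mono hwR hw))
        · intro q hq
          refine ⟨Gam_anti (by omega) hq, ?_⟩
          rw [th_one π hlen hq]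
          exact one_mem _
      exact (h1 (Gam_supp k hk (width r') (width_ge _ hge (by omega)) hmem)).2
  rw [th, hcl _ (Gam_le_PN ha')] at hth
  exact hth

end

/-- the group of closures modulo C_(k+1)-equivalence as a quotient -/
theorem exists_quo_succ {m d k : ℕ} {G : Type} [Group G] (π : (sys m).Quo d G) (hk : k + 1 ≤ d) :
    ∃ (G' : Type) (_ : Group G') (f : G →* G') (π' : (sys m).Quo (k + 1) G'), f.ker = π.FF (k + 1) ∧
      ∀ x, (sys m).IsCl x → π'.cls x = f (π.cls x) := by
  have hd : 1 ≤ d := by omega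
  have hN : (π.FF (k + 1)).Normal := ⟨fun n hn g => π.FF_normal hd (k + 1) n hn g⟩
  refine ⟨G ⧸ π.FF (k + 1), inferInstance, QuotientGroup.mk' _, ⟨fun x => (QuotientGroup.mk' (π.FF (k + 1))) (π.cls x),
    fun x y hx hy => by rw [π.cls_mul x y hx hy, map_mul], by rw [π.cls_one, map_one], ?_, ?_⟩,
    QuotientGroup.ker_mk' _, fun x _ => rfl⟩
  · intro g
    obtain ⟨g0, rfl⟩ := QuotientGroup.mk'_surjective _ g
    obtain ⟨x, hx, rfl⟩ := π.surj g0
    exact ⟨x, hx, rfl⟩
  · intro x y hx hy
    have h1 : (QuotientGroup.mk' (π.FF (k + 1))) (π.cls x) = (QuotientGroup.mk' (π.FF (k + 1))) (π.cls y) ↔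
        π.cls x * (π.cls y)⁻¹ ∈ π.FF (k + 1) := by
      rw [← mul_inv_eq_one, ← map_inv, ← map_mul, ← MonoidHom.mem_ker, QuotientGroup.ker_mk']
    rw [h1]
    constructor
    · intro h
      obtain ⟨z, hz, hzc, hz1⟩ := π.exists_of_mem hd hk h
      have e : π.cls (z * y) = π.cls x := by
        rw [π.cls_mul z y hz hy, hzc, inv_mul_cancel_right]
      have e1 := ((π.eq_iff _ _ (hz.mul hy) hx).1 e).mono hk
      have e2 := CSys.Ceq.mul_right hz1 hy
      rw [one_mul] at e2
      exact e1.symm.trans e2
    · intro h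
      exact π.mem_of_Ceq (by omega) hk h hx

/-- the successive quotients of the filtration of the group of closures are finitely generated -/
theorem FF_fg' {m d : ℕ} {G : Type} [Group G] (π : (sys m).Quo d G) (k : ℕ) (hk : 1 ≤ k) (hkd : k < d) :
    ∃ S : Finset G, (∀ s ∈ S, s ∈ π.FF k) ∧ π.FF k ≤ Subgroup.closure (S : Set G) ⊔ π.FF (k + 1) := by
  classical
  obtain ⟨G', iG', f, π', hf, hcls⟩ := exists_quo_succ π (show k + 1 ≤ d by omega)
  obtain ⟨S', hS'm, hS'⟩ := FF_fg_aux π' hk
  have hsurj : ∀ g ∈ π'.FF k, ∃ t ∈ π.FF k, f t = g := by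
    intro g hg
    have h2 : π'.FF k ≤ (π.FF k).map f := by
      refine (Subgroup.closure_le _).2 ?_
      rintro _ ⟨l, a, ha, rfl⟩
      rw [SetLike.mem_coe, hcls _ ((sys m).isCl_S l a)]
      exact ⟨_, π.cls_S_mem ha, rfl⟩
    exact h2 hg
  have hs : ∀ g : G', ∃ t : G, g ∈ π'.FF k → t ∈ π.FF k ∧ f t = g := by
    intro g
    by_cases hg : g ∈ π'.FF k
    · obtain ⟨t, ht, htg⟩ := hsurj g hg
      exact ⟨t, fun _ => ⟨ht, htg⟩⟩
    · exact ⟨1, fun h => absurd h hg⟩
  choose s hs using hs
  refine ⟨S'.image s, ?_, ?_⟩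
  · intro t ht
    obtain ⟨g, hg, rfl⟩ := Finset.mem_image.1 ht
    exact (hs g (hS'm g hg)).1
  intro g hg
  have h1 : f g ∈ π'.FF k := by
    have h2 : π.FF k ≤ (π'.FF k).comap f := by
      refine (Subgroup.closure_le _).2 ?_
      rintro _ ⟨l, a, ha, rfl⟩
      change f (π.cls ((sys m).S l a)) ∈ π'.FF k
      rw [← hcls _ ((sys m).isCl_S l a)]
      exact π'.cls_S_mem ha
    exact h2 hg
  have h2 := hS' h1
  have h3 : Subgroup.closure (S' : Set G') ≤ (Subgroup.closure ((S'.image s : Finset G) : Set G)).map f := by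
    refine (Subgroup.closure_le _).2 ?_
    intro x hx
    refine ⟨s x, Subgroup.subset_closure ?_, (hs x (hS'm x hx)).2⟩
    rw [Finset.mem_coe, Finset.mem_image]
    exact ⟨x, hx, rfl⟩
  obtain ⟨y, hy, hyg⟩ := h3 h2
  have h4 : y⁻¹ * g ∈ π.FF (k + 1) := by
    rw [← hf, MonoidHom.mem_ker, map_mul, map_inv, hyg, inv_mul_cancel]
  have h5 : g = y * (y⁻¹ * g) := by group
  rw [h5]
  exact mul_mem (Subgroup.mem_sup_left hy) (Subgroup.mem_sup_right h4)

theorem FF_fg {m d : ℕ} {G : Type} [Group G] (π : (sys m).Quo d G) (k : ℕ) (hk : 1 ≤ k) (hkd : k < d) :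
    ∃ S : Finset G, π.FF k ≤ Subgroup.closure (S : Set G) ⊔ π.FF (k + 1) := by
  obtain ⟨S, _, h⟩ := FF_fg' π k hk hkd
  exact ⟨S, h⟩

end SLC
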