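import Pool.Agent.SLC.Cof2
import Pool.Agent.SLC.Cof3
import Pool.Agent.SLC.Fg2
import Pool.Agent.SLC.Conv

/-!
Cofinality: finite type invariants of large degree determine a string link modulo C_d-equivalence.
-/

set_option autoImplicit false

open scoped commutatorElement

namespace SLC

section abstractPart

variable {G : Type} [Group G] {F : ℕ → Subgroup G} {d : ℕ}

/-- x is mapped nontrivially to a finite p-group -/
def SepP {G : Type} [Group G] (x : G) : Prop := ∃ (p : ℕ) (_ : Fact p.Prime) (Q : Type) (_ : Group Q) (_ : Finite Q)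
  (φ : G →* Q), IsPGroup p Q ∧ φ x ≠ 1

theorem notMem_DD (hF : Filt F) (hd1 : 1 ≤ d) (hd : F d = ⊥) {x : G} (hx : SepP x) : ∃ N, x ∉ DD F hF N := by
  classical
  obtain ⟨p, hp, Q, iQ, hQf, φ, hQ, hφ⟩ := hx
  obtain ⟨N, hN⟩ := pol_pgroup (p := p) hQ hF hd1 hd φ
  refine ⟨N, fun hxN => ?_⟩
  have h1 := hxN (ZMod p) (fun g => if φ g = 1 then 1 else 0) (hN fun y => if y = 1 then 1 else 0)
  rw [if_neg hφ, map_one, if_pos rfl] at h1
  exact one_ne_zero h1.symm

/-- some degree N separates all the elements from 1 -/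
theorem DD_bot (hF : Filt F) (hd1 : 1 ≤ d) (hd : F d = ⊥) (hfg : ∀ k, 1 ≤ k → k < d → ∃ S : Finset G,
    (∀ s ∈ S, s ∈ F k) ∧ F k ≤ Subgroup.closure (S : Set G) ⊔ F (k + 1))
    (hp : ∀ x : G, x ≠ 1 → (∃ n : ℕ, 1 ≤ n ∧ x ^ n = 1) → SepP x) : ∃ N, DD F hF N = ⊥ := by
  classical
  obtain ⟨E, hE, hEx⟩ := exists_pow hF hd1 hd hfg
  have hfin := DD_finite hF hd1 hd hfg
  have h1 : ∀ x : G, ∃ N, x ∈ DD F hF d → x ≠ 1 → x ∉ DD F hF N := by
    intro x
    by_cases hx : x ∈ DD F hF d ∧ x ≠ 1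
    · obtain ⟨N, hN⟩ := notMem_DD hF hd1 hd (hp x hx.2 ⟨E, hE, hEx x hx.1⟩)
      exact ⟨N, fun _ _ => hN⟩
    · exact ⟨0, fun h h' => absurd ⟨h, h'⟩ hx⟩
  choose N hN using h1
  refine ⟨max d (hfin.toFinset.sup N), ?_⟩
  rw [eq_bot_iff]
  intro x hx
  rw [Subgroup.mem_bot]
  by_contra hne
  have hxd : x ∈ DD F hF d := DD_anti hF (le_max_left _ _) hx
  have h2 : N x ≤ hfin.toFinset.sup N := Finset.le_sup (f := N) (hfin.mem_toFinset.2 hxd)
  exact hN x hxd hne (DD_anti hF (h2.trans (le_max_right _ _)) hx)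

end abstractPart

namespace CSys

variable {M : Type} [Monoid M] {Q : CSys M} {G : Type} [Group G]

open Classical in
/-- finite type invariants of degree < N and the elements which are not separated from 1 in degree N -/
theorem mem_DD_of_FT [Nonempty Q.Lev] {d : ℕ} (hd : 1 ≤ d) (π : Q.Quo d G) (N : ℕ) (x y : M) (hx : Q.IsCl x)
    (hy : Q.IsCl y) (h : ∀ (A : Type) [AddCommGroup A] (v : M → A), Q.FT N v → v x = v y) :
    π.cls x * (π.cls y)⁻¹ ∈ DD π.FF (π.FF_filt hd) N := by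
  intro A _ f hf
  have hf' : ∀ c ∈ HK N π.FF, asum (fun e => f (c e * (π.cls y)⁻¹)) = 0 := by
    intro c hc
    exact hf (c * fun _ => (π.cls y)⁻¹) (mul_mem hc (const_mem (π.FF_filt hd) N _))
  have h2 := h A (fun m => if Q.IsCl m then f (π.cls m * (π.cls y)⁻¹) else 0) ?_
  · simp only [if_pos hx, if_pos hy, mul_inv_cancel] at h2
    exact h2
  · intro l g as has
    obtain ⟨t, ht, hta⟩ := Q.alt_eq l as
    rw [hta]
    subst has
    have h3 : (fun e => π.cls (Q.S l (g * t e))) ∈ HK as.length π.FF := by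
      have h6 : gen ∅ g * t ∈ HK as.length (Gm (Q.P l)) :=
        mul_mem (gmem (by rw [Finset.card_empty, Gm_zero]; trivial)) ht
      have h7 := π.cube_cls hd h6
      have h8 : (fun e => π.cls (Q.S l ((gen ∅ g * t : (Fin as.length → Bool) → Q.P l) e))) =
          fun e => π.cls (Q.S l (g * t e)) := by
        ext e
        rw [Pi.mul_apply, gen_pos (by simp)]
      rwa [h8] at h7
    have h4 := hf' _ h3
    have h5 : (fun e => if Q.IsCl (Q.S l (g * t e)) then f (π.cls (Q.S l (g * t e)) * (π.cls y)⁻¹) else 0) =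
        fun e => f (π.cls (Q.S l (g * t e)) * (π.cls y)⁻¹) := by
      ext e
      exact if_pos (Q.isCl_S _ _)
    rw [h5, h4, smul_zero]

end CSys

/-- cofinality, from the existence of finite quotients of prime power order -/
theorem cof_of (hp : ∀ (G : Type) [Group G] (F : ℕ → Subgroup G), Filt F → ∀ d : ℕ, F d = ⊥ →
    (∀ k, 1 ≤ k → k < d → ∃ S : Finset G, (∀ s ∈ S, s ∈ F k) ∧ F k ≤ Subgroup.closure (S : Set G) ⊔ F (k + 1)) →
    ∀ x : G, x ≠ 1 → (∃ n : ℕ, 1 ≤ n ∧ x ^ n = 1) → SepP x) (m d : ℕ) (hd : 1 ≤ d) :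
    ∃ N : ℕ, ∀ x y : Tangle, IsStringLink m x → IsStringLink m y →
      (∀ (A : Type) [AddCommGroup A] (v : Tangle → A), FiniteType m N v → v x = v y) → CEquiv m d x y := by
  obtain ⟨G, iG, ⟨π⟩⟩ := (sys m).exists_quo hd
  have hF := π.FF_filt hd
  have hbot : π.FF d = ⊥ := π.FF_bot le_rfl
  obtain ⟨N, hN⟩ := DD_bot hF hd hbot (fun k hk hkd => FF_fg' π k hk hkd)
    (hp G π.FF hF d hbot fun k hk hkd => FF_fg' π k hk hkd)
  refine ⟨N, fun x y hx hy h => ?_⟩
  rw [← sys_Ceq]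
  have hx' := (sys_IsCl m x).2 hx
  have hy' := (sys_IsCl m y).2 hy
  have h1 := CSys.mem_DD_of_FT hd π N x y hx' hy' fun A _ v hv => h A v (FiniteType_of_FT hv)
  have h2 : π.cls x * (π.cls y)⁻¹ = 1 := by
    rw [← Subgroup.mem_bot, ← hN]
    exact h1
  exact (π.eq_iff x y hx' hy').1 (mul_inv_eq_one.1 h2)

end SLC
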