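import Pool.Agent.SLC.Cof4
import Pool.Agent.SLC.Cof5

/-!
String links: finite type invariants of large degree determine the C_d-equivalence class.
-/

set_option autoImplicit false

namespace SLC

theorem cofinal (m d : ℕ) (hd : 1 ≤ d) :
    ∃ N : ℕ, ∀ x y : Tangle, IsStringLink m x → IsStringLink m y →
      (∀ (A : Type) [AddCommGroup A] (v : Tangle → A), FiniteType m N v → v x = v y) → CEquiv m d x y :=
  cof_of (fun _ _ _ hF _ hd hfg _ hx hn => by
    obtain ⟨n, hn, hxn⟩ := hn
    exact exists_pgroup hF hd hfg hx hn hxn) m d hd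

end SLC
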