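import Mathlib

/-!
String links: tangles (words in crossings, minima, maxima modulo the moves of Turaev), braids, closures of pure
braids, C_d-equivalence, finite type invariants.
-/

set_option autoImplicit false

namespace SLC

/-- elementary tangles on the strands 0, 1, 2, ... (all other strands are vertical) -/
inductive Elem where
  /-- crossing of the strands i, i + 1 -/
  | s (i : ℕ)
  /-- the opposite crossing of the strands i, i + 1 -/
  | t (i : ℕ)
  /-- minimum: two new strands, which get the numbers i, i + 1 -/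
  | u (i : ℕ)
  /-- maximum: joins the strands i, i + 1 -/
  | c (i : ℕ)

open Elem

/-- a word in elementary tangles; the last letter is the lowest -/
abbrev wd (l : List Elem) : FreeMonoid Elem := FreeMonoid.ofList l

/-- the moves of tangle diagrams -/
inductive Move : FreeMonoid Elem → FreeMonoid Elem → Prop
  | st (i : ℕ) : Move (wd [s i, t i]) (wd [])
  | ts (i : ℕ) : Move (wd [t i, s i]) (wd [])
  | far (i k : ℕ) : i + 2 ≤ k → Move (wd [s i, s k]) (wd [s k, s i])
  | braid (i : ℕ) : Move (wd [s i, s (i + 1), s i]) (wd [s (i + 1), s i, s (i + 1)])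
  | cs (i : ℕ) : Move (wd [c i, s i]) (wd [c i])
  | su (i : ℕ) : Move (wd [s i, u i]) (wd [u i])
  | zig (i : ℕ) : Move (wd [c i, u (i + 1)]) (wd [])
  | zag (i : ℕ) : Move (wd [c (i + 1), u i]) (wd [])
  | slide_cs (i : ℕ) : Move (wd [c i, s (i + 1)]) (wd [c (i + 1), t i])
  | slide_ct (i : ℕ) : Move (wd [c i, t (i + 1)]) (wd [c (i + 1), s i])
  | slide_su (i : ℕ) : Move (wd [s (i + 1), u i]) (wd [t i, u (i + 1)])
  | slide_tu (i : ℕ) : Move (wd [t (i + 1), u i]) (wd [s i, u (i + 1)])
  | su_right (i k : ℕ) : i ≤ k → Move (wd [s (k + 2), u i]) (wd [u i, s k])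
  | su_left (i k : ℕ) : k + 2 ≤ i → Move (wd [s k, u i]) (wd [u i, s k])
  | cs_right (i k : ℕ) : i ≤ k → Move (wd [c i, s (k + 2)]) (wd [s k, c i])
  | cs_left (i k : ℕ) : k + 2 ≤ i → Move (wd [c i, s k]) (wd [s k, c i])
  | uu (i k : ℕ) : i ≤ k → Move (wd [u (k + 2), u i]) (wd [u i, u k])
  | cc (i k : ℕ) : i ≤ k → Move (wd [c i, c (k + 2)]) (wd [c k, c i])
  | cu (i k : ℕ) : i ≤ k → Move (wd [c (k + 2), u i]) (wd [u i, c k])
  | uc (i k : ℕ) : i ≤ k → Move (wd [c i, u (k + 2)]) (wd [u k, c i])

/-- tangles up to isotopy; x * y is x on top of y -/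
abbrev Tangle : Type := PresentedMonoid Move

/-- the crossing of the strands i, i + 1 -/
def Ts (i : ℕ) : Tangle := PresentedMonoid.of Move (s i)
/-- the opposite crossing -/
def Tt (i : ℕ) : Tangle := PresentedMonoid.of Move (t i)
/-- the minimum at i -/
def U (i : ℕ) : Tangle := PresentedMonoid.of Move (u i)
/-- the maximum at i -/
def C (i : ℕ) : Tangle := PresentedMonoid.of Move (c i)

theorem move_eq {a b : FreeMonoid Elem} (h : Move a b) : PresentedMonoid.mk Move a = PresentedMonoid.mk Move b :=
  Quotient.sound (ConGen.Rel.of a b h)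

theorem Ts_mul_Tt (i : ℕ) : Ts i * Tt i = 1 := move_eq (Move.st i)
theorem Tt_mul_Ts (i : ℕ) : Tt i * Ts i = 1 := move_eq (Move.ts i)

/-- the crossing as an invertible tangle -/
def Xs (i : ℕ) : Tangleˣ := ⟨Ts i, Tt i, Ts_mul_Tt i, Tt_mul_Ts i⟩

/-- the relations of the braid groups -/
def braidRels : Set (FreeGroup ℕ) :=
  {r | (∃ i k : ℕ, i + 2 ≤ k ∧ r = FreeGroup.of i * FreeGroup.of k * (FreeGroup.of k * FreeGroup.of i)⁻¹) ∨
    (∃ i : ℕ, r = FreeGroup.of i * FreeGroup.of (i + 1) * FreeGroup.of i *
      (FreeGroup.of (i + 1) * FreeGroup.of i * FreeGroup.of (i + 1))⁻¹)}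

/-- the braid group on the strands 0, 1, 2, ... -/
abbrev Br : Type := PresentedGroup braidRels

/-- the standard generators of the braid group -/
def σ (i : ℕ) : Br := PresentedGroup.of i

/-- homomorphisms out of the braid group -/
theorem lift_rel {G : Type*} [Group G] (f : ℕ → G) (hf : ∀ i k, i + 2 ≤ k → f i * f k = f k * f i)
    (hb : ∀ i, f i * f (i + 1) * f i = f (i + 1) * f i * f (i + 1)) : ∀ r ∈ braidRels, FreeGroup.lift f r = 1 := by
  rintro r (⟨i, k, hik, rfl⟩ | ⟨i, rfl⟩)
  · simp only [map_mul, map_inv, FreeGroup.lift_apply_of]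
    rw [hf i k hik]
    group
  · simp only [map_mul, map_inv, FreeGroup.lift_apply_of]
    rw [hb i]
    group

theorem Xs_far (i k : ℕ) (h : i + 2 ≤ k) : Xs i * Xs k = Xs k * Xs i :=
  Units.ext (move_eq (Move.far i k h))

theorem Xs_braid (i : ℕ) : Xs i * Xs (i + 1) * Xs i = Xs (i + 1) * Xs i * Xs (i + 1) :=
  Units.ext (move_eq (Move.braid i))

/-- braids as tangles -/
def ev : Br →* Tangleˣ := PresentedGroup.toGroup (lift_rel Xs Xs_far Xs_braid)

theorem swap_far (i k : ℕ) (h : i + 2 ≤ k) :
    Equiv.swap i (i + 1) * Equiv.swap k (k + 1) = Equiv.swap k (k + 1) * Equiv.swap i (i + 1) := by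
  ext x
  simp only [Equiv.Perm.coe_mul, Function.comp_apply, Equiv.swap_apply_def]
  split_ifs <;> omega

theorem swap_braid (i : ℕ) :
    Equiv.swap i (i + 1) * Equiv.swap (i + 1) (i + 1 + 1) * Equiv.swap i (i + 1) =
      Equiv.swap (i + 1) (i + 1 + 1) * Equiv.swap i (i + 1) * Equiv.swap (i + 1) (i + 1 + 1) := by
  ext x
  simp only [Equiv.Perm.coe_mul, Function.comp_apply, Equiv.swap_apply_def]
  split_ifs <;> omega

/-- the permutation of a braid: the strand at i at the bottom ends at perm g i at the top -/
def perm : Br →* Equiv.Perm ℕ :=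
  PresentedGroup.toGroup (lift_rel (fun i => Equiv.swap i (i + 1)) swap_far swap_braid)

/-- the braid group on n strands -/
def BN (n : ℕ) : Subgroup Br := Subgroup.closure {g | ∃ i, i + 1 < n ∧ g = σ i}

/-- the pure braid group on n strands -/
def PN (n : ℕ) : Subgroup Br := BN n ⊓ perm.ker

/-- number of strands of the closures with r_i returns of the component i -/
def width : List ℕ → ℕ
  | [] => 0
  | a :: r => 2 * a + 1 + width r

/-- maxima which join the strands o, o + 1, then o + 2, o + 3, ..., a of them -/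
def capRow : ℕ → ℕ → Tangle
  | _, 0 => 1
  | o, a + 1 => C o * capRow (o + 2) a

/-- minima which create the strands o, o + 1, then o + 2, o + 3, ..., a of them -/
def cupRow : ℕ → ℕ → Tangle
  | _, 0 => 1
  | o, a + 1 => cupRow (o + 2) a * U o

/-- top of the closure -/
def caps : ℕ → List ℕ → Tangle
  | _, [] => 1
  | o, a :: r => capRow o a * caps (o + (2 * a + 1)) r

/-- bottom of the closure -/
def cups : ℕ → List ℕ → Tangle
  | _, [] => 1
  | o, a :: r => cups (o + (2 * a + 1)) r * cupRow (o + 1) a

/-- closure of a braid on width r strands: component number i goes up and down through 2 r_i + 1 strands -/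
def cl (r : List ℕ) (g : Br) : Tangle := caps 0 r * (ev g : Tangle) * cups 0 r

/-- string links with m strands: closures of pure braids -/
def IsStringLink (m : ℕ) (x : Tangle) : Prop := ∃ r : List ℕ, r.length = m ∧ ∃ g ∈ PN (width r), x = cl r g

/-- term number d (d = 1, 2, ...) of the lower central series of the pure braid group on n strands -/
def Gam (d n : ℕ) : Subgroup Br := (PN n).lowerCentralSeries (d - 1)

/-- C_d-equivalence of string links with m strands: generated by the insertion of an element of the term number d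
of the lower central series of a pure braid group -/
def CEquiv (m d : ℕ) : Tangle → Tangle → Prop :=
  Relation.EqvGen fun x y => ∃ r : List ℕ, r.length = m ∧ ∃ g ∈ PN (width r), ∃ γ ∈ Gam d (width r),
    x = cl r g ∧ y = cl r (g * γ)

/-- alternating sum of f over the resolutions of the singular braid g, X_(i_1), b_1, X_(i_2), b_2, ... with the
double points X_i between the strands i, i + 1 -/
def resolve {A : Type} [AddCommGroup A] (f : Br → A) : Br → List (ℕ × Br) → A
  | g, [] => f g
  | g, p :: l => resolve f (g * σ p.1 * p.2) l - resolve f (g * (σ p.1)⁻¹ * p.2) l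

/-- v is a finite type invariant of degree < d of string links with m strands: it vanishes on the closures of the
singular pure braids with d double points -/
def FiniteType {A : Type} [AddCommGroup A] (m d : ℕ) (v : Tangle → A) : Prop :=
  ∀ (r : List ℕ) (g : Br) (l : List (ℕ × Br)), r.length = m → l.length = d → g ∈ BN (width r) →
    (∀ p ∈ l, p.1 + 1 < width r ∧ p.2 ∈ BN (width r)) → g * (l.map fun p => σ p.1 * p.2).prod ∈ PN (width r) →
    resolve (fun b => v (cl r b)) g l = 0

end SLC
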