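import Pool.Agent.SLC.Quad
import Pool.Agent.SLC.Half

/-!
Theorem T with the weaker hypothesis that there is no torsion in the degrees k with 2 k + 1 < d.
-/

set_option autoImplicit false

open scoped commutatorElement

namespace SLC

section odd

variable {G : Type} [Group G] {F : ℕ → Subgroup G}

/-- the last stage for d = 2 s + 1 -/
theorem stage_odd (hF : Filt F) {s : ℕ} (hs : 1 ≤ s) (hbot : F (2 * s + 1) = ⊥) {x : G} (hx : x ∈ F s)
    (h : dl x - dl 1 ∈ JJd (2 * s + 1) F (F s)) : x = 1 := by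
  classical
  have hx2 : x ∈ F (2 * s) := stage_mem hF ((hF.comm s s).trans (hF.antitone (by omega))) (hF.antitone (by omega)) hx h
  -- the finitely many cubes
  obtain ⟨T, hT, hxT⟩ := Submodule.mem_span_finite_of_mem_span h
  have hch : ∀ u : T, ∃ c ∈ HK (2 * s + 1) F, (∀ e, c e ∈ F s) ∧ (u : G →₀ ℤ) = asum (fun e => dl (c e)) :=
    fun u => hT u.2
  choose c hc hcj hcu using hch
  obtain ⟨A, iA, n, hn, hker, hsurj⟩ := exists_quot (F s) (F (s + 1))
    ((hF.comm s s).trans (hF.antitone (by omega)))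
  let M0 : Submodule ℤ A := Submodule.span ℤ (Set.range fun q : T × (Fin (2 * s + 1) → Bool) => n (c q.1 q.2))
  have hM0 : Module.Finite ℤ M0 := Module.Finite.span_of_finite ℤ (Set.finite_range _)
  have hfg : AddGroup.FG M0 := Module.Finite.iff_addGroup_fg.mp hM0
  let K0 : Subgroup G :=
    { carrier := {y | y ∈ F s ∧ n y ∈ M0}
      mul_mem' := fun {x y} hx hy => ⟨mul_mem hx.1 hy.1, by
        rw [hn _ hx.1 _ hy.1]
        exact add_mem hx.2 hy.2⟩
      one_mem' := ⟨one_mem _, by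
        rw [hn.one]
        exact zero_mem _⟩
      inv_mem' := fun {x} hx => ⟨inv_mem hx.1, by
        rw [hn.inv hx.1]
        exact neg_mem hx.2⟩ }
  let n0 : G → M0 := fun y => if h : n y ∈ M0 then ⟨n y, h⟩ else 0
  have hn0v : ∀ y ∈ K0, ((n0 y : M0) : A) = n y := by
    intro y hy
    simp only [n0]
    rw [dif_pos hy.2]
  have hn0 : AddOn K0 n0 := by
    intro a ha b hb
    apply Subtype.ext
    rw [hn0v _ (mul_mem ha hb), Submodule.coe_add, hn0v _ ha, hn0v _ hb, hn _ ha.1 _ hb.1]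
  have hn00 : ∀ y ∈ K0, y ∈ F (s + 1) → n0 y = 0 := by
    intro y hy hy1
    apply Subtype.ext
    rw [hn0v _ hy, (hker y hy.1).2 hy1]
    rfl
  have hn0s : ∀ m : M0, ∃ y ∈ K0, n0 y = m := by
    intro m
    obtain ⟨y, hy, hym⟩ := hsurj (m : A)
    have hyK : y ∈ K0 := ⟨hy, by rw [hym]; exact m.2⟩
    exact ⟨y, hyK, Subtype.ext ((hn0v _ hyK).trans hym)⟩
  -- the center
  obtain ⟨Z, iZ, ζ, hζ, hζker, -⟩ := exists_quot (F (2 * s)) (⊥ : Subgroup G) (by
    rw [← hbot]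
    exact (hF.comm _ _).trans (hF.antitone (by omega)))
  have hcen : ∀ z ∈ F (2 * s), ∀ a ∈ F s, z * a = a * z := by
    intro z hz a ha
    have h1 : ⁅z, a⁆ ∈ F (2 * s + 1) := hF.antitone (by omega) (hF.comm _ _ (Subgroup.commutator_mem_commutator hz ha))
    rw [hbot, Subgroup.mem_bot, commutatorElement_eq_one_iff_mul_comm] at h1
    exact h1
  have hcomm : ∀ a ∈ F s, ∀ b ∈ F s, ⁅a, b⁆ ∈ F (2 * s) := by
    intro a ha b hb
    exact hF.antitone (by omega) (hF.comm _ _ (Subgroup.commutator_mem_commutator ha hb))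
  have hbil1 : ∀ a ∈ F s, ∀ b ∈ F s, ∀ d ∈ F s, ζ ⁅a * b, d⁆ = ζ ⁅a, d⁆ + ζ ⁅b, d⁆ := by
    intro a ha b hb d hd
    have e1 : ⁅a * b, d⁆ = ⁅a, d⁆ * ⁅b, d⁆ := by
      have e2 : ⁅a * b, d⁆ = a * ⁅b, d⁆ * a⁻¹ * ⁅a, d⁆ := by
        simp only [commutatorElement_def]
        group
      rw [e2, ← hcen _ (hcomm b hb d hd) _ ha, mul_assoc ⁅b, d⁆, mul_inv_cancel, mul_one,
        hcen _ (hcomm b hb d hd) _ (hF.antitone (by omega) (hcomm a ha d hd))]
    rw [e1, hζ _ (hcomm a ha d hd) _ (hcomm b hb d hd)]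
  have hanti : ∀ a ∈ F s, ∀ b ∈ F s, ζ ⁅a, b⁆ = - ζ ⁅b, a⁆ := by
    intro a ha b hb
    rw [← commutatorElement_inv, hζ.inv (hcomm b hb a ha)]
  have hbil2 : ∀ a ∈ F s, ∀ b ∈ F s, ∀ d ∈ F s, ζ ⁅a, b * d⁆ = ζ ⁅a, b⁆ + ζ ⁅a, d⁆ := by
    intro a ha b hb d hd
    rw [hanti a ha _ (mul_mem hb hd), hbil1 b hb d hd a ha, hanti a ha b hb, hanti a ha d hd]
    abel
  have hnull : ∀ a ∈ F (s + 1), ∀ b ∈ F s, ζ ⁅a, b⁆ = 0 := by
    intro a ha b hb
    have h1 : ⁅a, b⁆ ∈ F (2 * s + 1) := hF.antitone (by omega) (hF.comm _ _ (Subgroup.commutator_mem_commutator ha hb))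
    rw [hbot, Subgroup.mem_bot] at h1
    rw [h1, hζ.one]
  -- the form on M0
  choose σ hσK hσ using hn0s
  have hdiff : ∀ y ∈ K0, y⁻¹ * σ (n0 y) ∈ F (s + 1) := by
    intro y hy
    have h1 : y⁻¹ * σ (n0 y) ∈ F s := mul_mem (inv_mem hy.1) (hσK _).1
    refine (hker _ h1).1 ?_
    rw [hn _ (inv_mem hy.1) _ (hσK _).1, hn.inv hy.1, ← hn0v _ (hσK _), hσ, hn0v _ hy]
    abel
  have hΛ : ∀ a ∈ K0, ∀ b ∈ K0, ζ ⁅σ (n0 a), σ (n0 b)⁆ = ζ ⁅a, b⁆ := by
    intro a ha b hb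
    have e1 : σ (n0 a) = a * (a⁻¹ * σ (n0 a)) := by group
    have e2 : σ (n0 b) = b * (b⁻¹ * σ (n0 b)) := by group
    have ma := hdiff a ha
    have mb := hdiff b hb
    have hle : F (s + 1) ≤ F s := hF.anti s
    rw [e1, hbil1 _ ha.1 _ (hle ma) _ (hσK _).1, hnull _ ma _ (hσK _).1, add_zero, e2,
      hbil2 _ ha.1 _ hb.1 _ (hle mb), hanti _ ha.1 _ (hle mb), hnull _ mb _ ha.1, neg_zero, add_zero]
  obtain ⟨β, hβ1, hβ2, hβ⟩ := exists_beta (cycDec_of_fg M0) (fun a b => ζ ⁅σ a, σ b⁆)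
    (by
      intro a b d
      have e1 : σ (a + b) = σ (n0 (σ a * σ b)) := by rw [hn0 _ (hσK _) _ (hσK _), hσ, hσ]
      have e2 : ζ ⁅σ (n0 (σ a * σ b)), σ (n0 (σ d))⁆ = ζ ⁅σ a * σ b, σ d⁆ :=
        hΛ _ (mul_mem (hσK _) (hσK _)) _ (hσK _)
      rw [hσ] at e2
      rw [e1, e2, hbil1 _ (hσK _).1 _ (hσK _).1 _ (hσK _).1])
    (by
      intro a b d
      have e1 : σ (b + d) = σ (n0 (σ b * σ d)) := by rw [hn0 _ (hσK _) _ (hσK _), hσ, hσ]
      have e2 : ζ ⁅σ (n0 (σ a)), σ (n0 (σ b * σ d))⁆ = ζ ⁅σ a, σ b * σ d⁆ :=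
        hΛ _ (hσK _) _ (mul_mem (hσK _) (hσK _))
      rw [hσ] at e2
      rw [e1, e2, hbil2 _ (hσK _).1 _ (hσK _).1 _ (hσK _).1])
    (by
      intro a
      rw [commutatorElement_self, hζ.one])
  -- F (2 s) is contained in K0
  have h2K : F (2 * s) ≤ K0 := by
    intro z hz
    have h1 : z ∈ F s := hF.antitone (by omega) hz
    refine ⟨h1, ?_⟩
    rw [(hker z h1).2 (hF.antitone (by omega) hz)]
    exact zero_mem _
  have h2n : ∀ z ∈ F (2 * s), n0 z = 0 := fun z hz => hn00 z (h2K hz) (hF.antitone (by omega) hz)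
  have hβz1 : ∀ m, β 0 m = 0 := by
    intro m
    have h1 := hβ1 0 0 m
    rw [add_zero] at h1
    exact left_eq_add.1 h1
  have hβz2 : ∀ m, β m 0 = 0 := by
    intro m
    have h1 := hβ2 m 0 0
    rw [add_zero] at h1
    exact left_eq_add.1 h1
  obtain ⟨A', iA', f, ι, hf, hι, hι0, hfz⟩ := exists_quad (K := K0) (Z := Z)
    (fun a b => β (n0 a) (n0 b))
    (fun a b d => by
      rw [Subgroup.coe_mul, hn0 _ a.2 _ b.2, hβ1])
    (fun a b d => by
      rw [Subgroup.coe_mul, hn0 _ b.2 _ d.2, hβ2])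
    ((F (2 * s)).subgroupOf K0) (fun a => ζ a)
    (fun a ha b hb => hζ _ ha _ hb)
    (fun z hz a => Subtype.ext (hcen _ hz _ a.2.1))
    (fun z hz a => by
      rw [h2n (z : G) hz, hβz1])
    (fun z hz a => by
      rw [h2n (z : G) hz, hβz2])
    (fun a b => by
      have e1 : ((⁅a, b⁆ : K0) : G) = ⁅(a : G), (b : G)⁆ := by
        rw [commutatorElement_def, commutatorElement_def]
        push_cast
        rfl
      refine ⟨?_, ?_⟩
      · rw [Subgroup.mem_subgroupOf, e1]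
        exact hcomm _ a.2.1 _ b.2.1
      · rw [e1, hβ, hΛ _ a.2 _ b.2])
  -- the quadratic function on G
  let f' : G → A' := fun y => if h : y ∈ K0 then f ⟨y, h⟩ else 0
  have hf'v : ∀ (y : G) (hy : y ∈ K0), f' y = f ⟨y, hy⟩ := fun y hy => dif_pos hy
  have hι1 : ι 0 = 0 := by
    have h1 := hι 0 0
    rw [add_zero] at h1
    exact left_eq_add.1 h1
  have hf'z : ∀ z ∈ F (2 * s), f' z = - ι (ζ z) := by
    intro z hz
    rw [hf'v z (h2K hz)]
    exact hfz ⟨z, h2K hz⟩ hz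
  have hf'1 : f' 1 = 0 := by
    rw [hf'z 1 (one_mem _), hζ.one, hι1, neg_zero]
  have hpol : ∀ t : T, asum (fun e => f' (c t e)) = 0 := by
    intro t
    have hcK : ∀ e, c t e ∈ K0 := fun e => ⟨hcj t e, Submodule.subset_span ⟨(t, e), rfl⟩⟩
    refine Pol.asum (S := Finset.univ) (t := 0) (D := 2 * s + 1) (by omega) ?_
    refine pol_quad hF hbot hn0 hn00 (fun a b => ι (β a b)) ?_ ?_ f' hf'1 ?_ Finset.univ 0 (c t) ?_ hcK
    · intro a b d
      rw [hβ1, hι]
    · intro a b d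
      rw [hβ2, hι]
    · intro a ha b hb
      rw [hf'v _ ha, hf'v _ hb, hf'v _ (mul_mem ha hb)]
      exact hf ⟨a, ha⟩ ⟨b, hb⟩
    · rw [← HK_eq]
      exact hc t
  have h1 : Submodule.span ℤ (T : Set (G →₀ ℤ)) ≤ LinearMap.ker (Finsupp.linearCombination ℤ f') := by
    refine Submodule.span_le.2 fun u hu => ?_
    have hu1 : u = asum (fun e => dl (c ⟨u, hu⟩ e)) := hcu ⟨u, hu⟩
    rw [SetLike.mem_coe, LinearMap.mem_ker, hu1, map_asum]
    simp only [Finsupp.linearCombination_single, one_smul]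
    exact hpol ⟨u, hu⟩
  have h2 := h1 hxT
  rw [LinearMap.mem_ker, map_sub, Finsupp.linearCombination_single, Finsupp.linearCombination_single, one_smul,
    one_smul, hf'1, sub_zero, hf'z x hx2, neg_eq_zero] at h2
  exact Subgroup.mem_bot.1 ((hζker x hx2).1 (hι0 _ h2))

theorem loop' (hF : Filt F) {d : ℕ} (hd : F d = ⊥)
    (htf : ∀ k, 1 ≤ k → 2 * k + 1 < d → ∀ x ∈ F k, ∀ n : ℕ, 1 ≤ n → x ^ n ∈ F (k + 1) → x ∈ F (k + 1)) {x : G} :
    ∀ k j : ℕ, 1 ≤ j → d ≤ j + k → x ∈ F j → dl x - dl 1 ∈ JJd d F (F j) → x = 1 := by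
  intro k
  have hfin : ∀ j : ℕ, d ≤ 2 * j → x ∈ F j → dl x - dl 1 ∈ JJd d F (F j) → x = 1 := by
    intro j hj hx h
    have h1 := stage_mem hF (N := ⊥) (by
      rw [← hd]
      exact (hF.comm j j).trans (hF.antitone (by omega))) (by rw [hd]) hx h
    exact Subgroup.mem_bot.1 h1
  induction k with
  | zero =>
    intro j hj hdj hx h
    exact hfin j (by omega) hx h
  | succ k ih =>
    intro j hj hdj hx h
    by_cases h2 : d ≤ 2 * j
    · exact hfin j h2 hx h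
    · push Not at h2
      by_cases h3 : d = 2 * j + 1
      · subst h3
        exact stage_odd hF hj hd hx h
      · have hx1 : x ∈ F (j + 1) := stage_mem hF ((hF.comm j j).trans (hF.antitone (by omega)))
          (hF.antitone (by omega)) hx h
        exact ih (j + 1) (by omega) (by omega) hx1 (stage_step hF hj (htf j hj (by omega)) hx1 h)

/-- Theorem T with the weaker hypothesis on torsion -/
theorem theoremT_odd (d : ℕ) : CSys.Sep d (fun k => 2 * k + 1 < d) := by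
  intro G _ F hF hd htf x h
  have htop : ∀ y : G, y ∈ F 1 := fun y => by
    rw [hF.top]
    exact Subgroup.mem_top y
  refine loop' hF hd htf d 1 le_rfl (by omega) (htop x) ?_
  have h1 := h ((G →₀ ℤ) ⧸ JJd d F (F 1)) (fun y => Submodule.Quotient.mk (dl y)) (fun c hc => by
    have h2 : asum (fun e => (JJd d F (F 1)).mkQ (dl (c e))) = 0 := by
      rw [← map_asum, Submodule.mkQ_apply, Submodule.Quotient.mk_eq_zero]
      exact Submodule.subset_span ⟨c, hc, fun e => htop _, rfl⟩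
    exact h2)
  exact (Submodule.Quotient.eq _).1 h1

end odd

/-- finite type invariants of degree < d determine a closure modulo C_d-equivalence, when there is no torsion in the
degrees k with 2 k + 1 < d -/
theorem CSys.dim_half' {M : Type} [Monoid M] (Q : CSys M) [Nonempty Q.Lev] (d : ℕ) (hd : 1 ≤ d)
    (htf : ∀ k, 1 ≤ k → 2 * k + 1 < d → Q.TorsionFree k) (x y : M) (hx : Q.IsCl x) (hy : Q.IsCl y)
    (h : ∀ (A : Type) [AddCommGroup A] (v : M → A), Q.FT d v → v x = v y) : Q.Ceq d x y :=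
  Q.dim_of (theoremT_odd d) hd (fun k hk hkd => by omega) htf x y hx hy h

end SLC
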