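import Pool.Agent.SLC.Abs
import Pool.Agent.SLC.Cube

/-!
String links, abstract part: the lower central series as a filtration, commutators of cubes.
-/

set_option autoImplicit false

open scoped commutatorElement

namespace SLC

section three

variable {G : Type} [Group G]

/-- three subgroups lemma modulo a normal subgroup -/
theorem three_subgroups (H₁ H₂ H₃ N : Subgroup G) [N.Normal] (h1 : ⁅⁅H₂, H₃⁆, H₁⁆ ≤ N) (h2 : ⁅⁅H₃, H₁⁆, H₂⁆ ≤ N) :
    ⁅⁅H₁, H₂⁆, H₃⁆ ≤ N := by
  have key : ∀ K : Subgroup G, K ≤ N ↔ K.map (QuotientGroup.mk' N) = ⊥ := by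
    intro K
    rw [Subgroup.map_eq_bot_iff, QuotientGroup.ker_mk']
  rw [key, Subgroup.map_commutator, Subgroup.map_commutator] at h1 h2 ⊢
  exact Subgroup.commutator_commutator_eq_bot_of_rotate h1 h2

end three

section Gm

variable (G : Type) [Group G]

theorem Gm_one : Gm G 1 = ⊤ := rfl

theorem Gm_zero : Gm G 0 = ⊤ := rfl

theorem Gm_succ (k : ℕ) : Gm G (k + 2) = ⁅Gm G (k + 1), ⊤⁆ := rfl

instance Gm_normal (k : ℕ) : (Gm G k).Normal := by
  unfold Gm
  infer_instance

theorem Gm_anti {i j : ℕ} (h : i ≤ j) : Gm G j ≤ Gm G i :=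
  Subgroup.lowerCentralSeries_antitone _ (by omega)

theorem Gm_comm (i : ℕ) : ∀ j : ℕ, ⁅Gm G (i + 1), Gm G (j + 1)⁆ ≤ Gm G (i + 1 + (j + 1))
  | 0 => le_of_eq (Gm_succ G i).symm
  | j + 1 => by
    have ih := fun i => Gm_comm i j
    rw [Gm_succ, Subgroup.commutator_comm]
    refine three_subgroups _ _ _ _ ?_ ?_
    · have h1 : ⁅(⊤ : Subgroup G), Gm G (i + 1)⁆ ≤ Gm G (i + 2) := by
        rw [Subgroup.commutator_comm]
        exact le_of_eq (Gm_succ G i).symm
      refine (Subgroup.commutator_mono h1 le_rfl).trans ?_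
      refine (ih (i + 1)).trans (Gm_anti G (by omega))
    · refine (Subgroup.commutator_mono (ih i) le_rfl).trans ?_
      have := Gm_succ G (i + 1 + j)
      rw [show i + 1 + (j + 1) = i + 1 + j + 1 by omega, ← this]
      exact Gm_anti G (by omega)

theorem Gm_filt : Filt (Gm G) where
  top := rfl
  zero := rfl
  anti i := Gm_anti G (by omega)
  comm i j := by
    have h0 : ∀ i, Gm G i ≤ Gm G (i - 1 + 1) := by
      intro i
      unfold Gm
      simp
    refine (Subgroup.commutator_mono (h0 i) (h0 j)).trans ((Gm_comm G (i - 1) (j - 1)).trans (Gm_anti G (by omega)))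

variable {G}

theorem Gm_map {H : Type} [Group H] (f : G →* H) {k : ℕ} {g : G} (hg : g ∈ Gm G k) : f g ∈ Gm H k := by
  have h : (Gm G k).map f ≤ Gm H k := by
    unfold Gm
    rw [Subgroup.map_lowerCentralSeries]
    exact Subgroup.lowerCentralSeries_mono _ le_top
  exact h (Subgroup.mem_map_of_mem f hg)

end Gm

section filt

variable {G : Type} [Group G] {F : ℕ → Subgroup G} (hF : Filt F)
include hF

theorem Filt.antit : Antitone F := antitone_nat_of_succ_le hF.anti

theorem Filt.anti' {i j : ℕ} (h : i ≤ j) : F j ≤ F i := hF.antit h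

/-- commutators gain one in degree 0 too -/
theorem Filt.comm' (i j : ℕ) : ⁅F i, F j⁆ ≤ F (max 1 i + max 1 j) := by
  have h0 : ∀ i, F i ≤ F (max 1 i) := by
    intro i
    rcases Nat.eq_zero_or_pos i with h | h
    · subst h
      simp [hF.top]
    · rw [max_eq_right h]
  exact (Subgroup.commutator_mono (h0 i) (h0 j)).trans (hF.comm _ _)

theorem Filt.normal (i : ℕ) : (F i).Normal := by
  constructor
  intro n hn g
  have h1 : ⁅g, n⁆ ∈ F i := by
    have := Subgroup.commutator_mem_commutator (H₁ := F 0) (H₂ := F i) (g₁ := g) (g₂ := n) (by rw [hF.zero]; trivial) hn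
    exact hF.anti' (by omega) (hF.comm _ _ this)
  have h2 : g * n * g⁻¹ = ⁅g, n⁆ * n := by
    rw [commutatorElement_def]
    group
  rw [h2]
  exact mul_mem h1 hn

end filt

section cubes

variable {G : Type} [Group G] {r : ℕ}

theorem gen_mul (w : Finset (Fin r)) (g h : G) : gen w (g * h) = gen w g * gen w h := by
  ext e
  simp only [gen, Pi.mul_apply]
  split_ifs <;> simp

theorem gone (w : Finset (Fin r)) : gen w (1 : G) = 1 := by
  ext e
  simp [gen]

theorem ginv (w : Finset (Fin r)) (g : G) : gen w g⁻¹ = (gen w g)⁻¹ := by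
  ext e
  simp only [gen, Pi.inv_apply]
  split_ifs <;> simp

theorem gen_map {H : Type} [Group H] (f : G →* H) (w : Finset (Fin r)) (g : G) (e : Fin r → Bool) :
    gen w (f g) e = f (gen w g e) := by
  simp only [gen]
  split_ifs <;> simp

theorem gen_pos {w : Finset (Fin r)} {g : G} {e : Fin r → Bool} (h : ∀ i ∈ w, e i = true) : gen w g e = g :=
  if_pos h

theorem gen_neg {w : Finset (Fin r)} {g : G} {e : Fin r → Bool} (h : ¬ ∀ i ∈ w, e i = true) : gen w g e = 1 :=
  if_neg h

theorem gen_commutator (w w' : Finset (Fin r)) (g g' : G) : ⁅gen w g, gen w' g'⁆ = gen (w ∪ w') ⁅g, g'⁆ := by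
  ext e
  rw [commutatorElement_def]
  simp only [Pi.mul_apply, Pi.inv_apply]
  by_cases h1 : ∀ i ∈ w, e i = true
  · by_cases h2 : ∀ i ∈ w', e i = true
    · have h3 : ∀ i ∈ w ∪ w', e i = true := by
        intro i hi
        rcases Finset.mem_union.mp hi with hi | hi
        · exact h1 i hi
        · exact h2 i hi
      rw [gen_pos h1, gen_pos h2, gen_pos h3, commutatorElement_def]
    · have h3 : ¬ ∀ i ∈ w ∪ w', e i = true := fun h => h2 fun i hi => h i (Finset.mem_union_right _ hi)
      rw [gen_pos h1, gen_neg h2, gen_neg h3]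
      group
  · have h3 : ¬ ∀ i ∈ w ∪ w', e i = true := fun h => h1 fun i hi => h i (Finset.mem_union_left _ hi)
    rw [gen_neg h1, gen_neg h3]
    group

theorem gmem {F : ℕ → Subgroup G} {w : Finset (Fin r)} {g : G} (hg : g ∈ F w.card) : gen w g ∈ HK r F :=
  Subgroup.subset_closure ⟨w, g, hg, rfl⟩

theorem HK_mono {F F' : ℕ → Subgroup G} (h : ∀ i, F i ≤ F' i) : HK r F ≤ HK r F' := by
  refine (Subgroup.closure_le _).mpr ?_
  rintro _ ⟨w, g, hg, rfl⟩
  exact gmem (h _ hg)

/-- homomorphisms map cubes to cubes -/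
theorem HK_map {H : Type} [Group H] (f : G →* H) {F : ℕ → Subgroup G} {F' : ℕ → Subgroup H}
    (h : ∀ i, ∀ g ∈ F i, f g ∈ F' i) {c : (Fin r → Bool) → G} (hc : c ∈ HK r F) : (fun e => f (c e)) ∈ HK r F' := by
  induction hc using Subgroup.closure_induction with
  | mem c hc =>
    obtain ⟨w, g, hg, rfl⟩ := hc
    have : (fun e => f (gen w g e)) = gen w (f g) := by
      ext e
      rw [gen_map]
    rw [this]
    exact gmem (h _ _ hg)
  | one =>
    have : (fun e => f ((1 : (Fin r → Bool) → G) e)) = 1 := by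
      ext e
      simp
    rw [this]
    exact one_mem _
  | mul a b _ _ ha hb =>
    have : (fun e => f ((a * b) e)) = (fun e => f (a e)) * (fun e => f (b e)) := by
      ext e
      simp
    rw [this]
    exact mul_mem ha hb
  | inv a _ ha =>
    have : (fun e => f (a⁻¹ e)) = (fun e => f (a e))⁻¹ := by
      ext e
      simp
    rw [this]
    exact inv_mem ha

/-- all values of a cube in a filtration with all terms in K are in K -/
theorem HK_apply {F : ℕ → Subgroup G} {K : Subgroup G} (h : ∀ i, F i ≤ K) {c : (Fin r → Bool) → G} (hc : c ∈ HK r F)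
    (e : Fin r → Bool) : c e ∈ K := by
  induction hc using Subgroup.closure_induction with
  | mem c hc =>
    obtain ⟨w, g, hg, rfl⟩ := hc
    simp only [gen]
    split_ifs
    · exact h _ hg
    · exact one_mem _
  | one => exact one_mem _
  | mul a b _ _ ha hb => exact mul_mem ha hb
  | inv a _ ha => exact inv_mem ha

end cubes

section comm

variable {G : Type} [Group G]

/-- the elements which normalise N form a subgroup: conjugation statement -/
theorem conj_mem_of_closure {S : Set G} {N : Subgroup G} (hS : ∀ a ∈ S, ∀ n ∈ N, a * n * a⁻¹ ∈ N)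
    (hS' : ∀ a ∈ S, a⁻¹ ∈ S) {a : G} (ha : a ∈ Subgroup.closure S) : ∀ n ∈ N, a * n * a⁻¹ ∈ N := by
  induction ha using Subgroup.closure_induction'' with
  | mem x hx => exact hS x hx
  | inv_mem x hx => exact hS _ (hS' x hx)
  | one => intro n hn; simpa using hn
  | mul x y _ _ hx hy =>
    intro n hn
    have := hx _ (hy n hn)
    rwa [show x * y * n * (x * y)⁻¹ = x * (y * n * y⁻¹) * x⁻¹ by group]

/-- if conjugation by a maps generators of N into N, it maps N into N -/
theorem conj_closure {S : Set G} {a : G} (h : ∀ n ∈ S, a * n * a⁻¹ ∈ Subgroup.closure S) :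
    ∀ n ∈ Subgroup.closure S, a * n * a⁻¹ ∈ Subgroup.closure S := by
  intro n hn
  induction hn using Subgroup.closure_induction with
  | mem x hx => exact h x hx
  | one => simp
  | mul x y _ _ hx hy =>
    have := mul_mem hx hy
    rwa [show a * x * a⁻¹ * (a * y * a⁻¹) = a * (x * y) * a⁻¹ by group] at this
  | inv x _ hx =>
    have := inv_mem hx
    rwa [show (a * x * a⁻¹)⁻¹ = a * x⁻¹ * a⁻¹ by group] at this

/-- commutators of two subgroups given by generators -/
theorem closure_commutator_le {A B : Set G} {N : Subgroup G}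
    (hA : ∀ a ∈ Subgroup.closure A, ∀ n ∈ N, a * n * a⁻¹ ∈ N)
    (hB : ∀ b ∈ Subgroup.closure B, ∀ n ∈ N, b * n * b⁻¹ ∈ N) (hAB : ∀ a ∈ A, ∀ b ∈ B, ⁅a, b⁆ ∈ N) :
    ⁅Subgroup.closure A, Subgroup.closure B⁆ ≤ N := by
  rw [Subgroup.commutator_le]
  have h1 : ∀ a ∈ A, ∀ b ∈ Subgroup.closure B, ⁅a, b⁆ ∈ N := by
    intro a ha b hb
    induction hb using Subgroup.closure_induction with
    | mem x hx => exact hAB a ha x hx
    | one => simp
    | mul x y hx _ hx' hy' =>
      have h2 : ⁅a, x * y⁆ = ⁅a, x⁆ * (x * ⁅a, y⁆ * x⁻¹) := by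
        simp only [commutatorElement_def]
        group
      rw [h2]
      exact mul_mem hx' (hB x hx _ hy')
    | inv x hx hx' =>
      have h2 : ⁅a, x⁻¹⁆ = x⁻¹ * ⁅a, x⁆⁻¹ * x⁻¹⁻¹ := by
        simp only [commutatorElement_def]
        group
      rw [h2]
      exact hB _ (inv_mem hx) _ (inv_mem hx')
  intro a ha b hb
  induction ha using Subgroup.closure_induction with
  | mem x hx => exact h1 x hx b hb
  | one => simp
  | mul x y hx _ hx' hy' =>
    have h2 : ⁅x * y, b⁆ = x * ⁅y, b⁆ * x⁻¹ * ⁅x, b⁆ := by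
      simp only [commutatorElement_def]
      group
    rw [h2]
    exact mul_mem (hA x hx _ hy') hx'
  | inv x hx hx' =>
    have h2 : ⁅x⁻¹, b⁆ = x⁻¹ * ⁅x, b⁆⁻¹ * x⁻¹⁻¹ := by
      simp only [commutatorElement_def]
      group
    rw [h2]
    exact hA _ (inv_mem hx) _ (inv_mem hx')

variable {r : ℕ}

/-- cubes of A normalise the cubes of N when [A i, N j] <= N (i + j) -/
theorem HK_conj {A N : ℕ → Subgroup G} (hN : Antitone N) (hAN : ∀ i j, ⁅A i, N j⁆ ≤ N (i + j)) :
    ∀ a ∈ HK r A, ∀ n ∈ HK r N, a * n * a⁻¹ ∈ HK r N := by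
  intro a ha
  refine conj_mem_of_closure ?_ ?_ ha
  · rintro _ ⟨w, g, hg, rfl⟩
    refine conj_closure ?_
    rintro _ ⟨w', g', hg', rfl⟩
    have h1 : gen w g * gen w' g' * (gen w g)⁻¹ = gen (w ∪ w') ⁅g, g'⁆ * gen w' g' := by
      rw [← gen_commutator, commutatorElement_def]
      group
    rw [h1]
    refine mul_mem (gmem ?_) (gmem hg')
    exact hN (Finset.card_union_le _ _) (hAN _ _ (Subgroup.commutator_mem_commutator hg hg'))
  · rintro _ ⟨w, g, hg, rfl⟩
    exact ⟨w, g⁻¹, inv_mem hg, (ginv w g).symm⟩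

/-- commutators of groups of cubes -/
theorem HK_comm {A B N : ℕ → Subgroup G} (hN : Antitone N) (hAN : ∀ i j, ⁅A i, N j⁆ ≤ N (i + j))
    (hBN : ∀ i j, ⁅B i, N j⁆ ≤ N (i + j)) (hAB : ∀ i j, ⁅A i, B j⁆ ≤ N (i + j)) : ⁅HK r A, HK r B⁆ ≤ HK r N := by
  refine closure_commutator_le (HK_conj hN hAN) (HK_conj hN hBN) ?_
  rintro _ ⟨w, g, hg, rfl⟩ _ ⟨w', g', hg', rfl⟩
  rw [gen_commutator]
  exact gmem (hN (Finset.card_union_le _ _) (hAB _ _ (Subgroup.commutator_mem_commutator hg hg')))

variable {F : ℕ → Subgroup G} (hF : Filt F)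
include hF

theorem Filt.HK_conj_max (j : ℕ) : ∀ a ∈ HK r F, ∀ n ∈ HK r (fun i => F (max i j)), a * n * a⁻¹ ∈ HK r (fun i => F (max i j)) := by
  refine HK_conj (fun i k hik => hF.anti' (by omega)) ?_
  intro i k
  exact (hF.comm _ _).trans (hF.anti' (by omega))

theorem Filt.HK_comm_max (j : ℕ) : ⁅HK r F, HK r (fun i => F (max i j))⁆ ≤ HK r (fun i => F (max i (j + 1))) := by
  refine HK_comm (fun i k hik => hF.anti' (by omega)) ?_ ?_ ?_
  · intro i k
    exact (hF.comm _ _).trans (hF.anti' (by omega))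
  · intro i k
    exact (hF.comm _ _).trans (hF.anti' (by omega))
  · intro i k
    exact (hF.comm' _ _).trans (hF.anti' (by omega))

end comm

end SLC
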