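import Pool.Agent.SLC.Top5

/-!
String links: the system of closures of pure braids with m components.
-/

set_option autoImplicit false

namespace SLC

theorem mem_Gm_iff {n k : ℕ} (x : PN n) : x ∈ Gm (PN n) k ↔ (x : Br) ∈ Gam k n := by
  rw [Gam, ← Subgroup.top_subtype_lowerCentralSeries]
  exact (Subgroup.mem_map_iff_mem (PN n).subtype_injective).symm

/-- conjugation by a braid as a homomorphism of pure braid groups -/
def conjHom (c : Br) {n N : ℕ} (hn : n ≤ N) (hc : c ∈ BN N) : PN n →* PN N where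
  toFun y := ⟨c * y * c⁻¹, PN_conj hc (PN_mono hn y.2)⟩
  map_one' := by ext; simp
  map_mul' x y := by ext; simp [mul_assoc]

theorem KK0 (r' r : List ℕ) (h : r'.length = r.length) :
    ∃ d ∈ BN (width (List.zipWith (· + ·) r' r)), KK 0 r' r = capRow (width r') r.sum * T d⁻¹ ∧
      ∀ x < width r', perm d x = upos r' r x := by
  obtain ⟨d, h1, h2, _, h4⟩ := KK_far r' r h 0
  refine ⟨d⁻¹, ?_, ?_, ?_⟩
  · rw [width_add' r' r h]
    exact inv_mem (BN_mono (by omega) h1)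
  · rw [inv_inv, h2, Nat.zero_add]
  · intro x hx
    have := h4 x hx
    rw [map_inv, Equiv.Perm.inv_eq_iff_eq]
    rw [Nat.zero_add, Nat.zero_add] at this
    exact this.symm

theorem JJ0 (r' r : List ℕ) (h : r'.length = r.length) :
    ∃ d ∈ BN (width (List.zipWith (· + ·) r' r)), JJ 0 r' r = T d * cupRow (width r) r'.sum ∧
      ∀ x < width r, perm d x = lpos r' r x := by
  obtain ⟨d, h1, h2, _, h4⟩ := JJ_far r' r h 0
  refine ⟨d, ?_, ?_, ?_⟩
  · rw [width_add r' r h]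
    exact BN_mono (by omega) h1
  · rw [h2, Nat.zero_add]
  · intro x hx
    have := h4 x hx
    rwa [Nat.zero_add, Nat.zero_add] at this

/-- levels: the numbers of returns of the m components -/
abbrev Lv (m : ℕ) : Type := {r : List ℕ // r.length = m}

/-- composition of levels -/
def cmpL {m : ℕ} (a b : Lv m) : Lv m := ⟨List.zipWith (· + ·) a.1 b.1, by simp [a.2, b.2]⟩

theorem Lv.len {m : ℕ} (a b : Lv m) : a.1.length = b.1.length := by rw [a.2, b.2]

theorem w_lo {m : ℕ} (a b : Lv m) : width b.1 ≤ width (cmpL a b).1 := by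
  have := width_add a.1 b.1 (a.len b)
  change width b.1 ≤ width (List.zipWith (· + ·) a.1 b.1)
  omega

theorem w_up {m : ℕ} (a b : Lv m) : width a.1 ≤ width (cmpL a b).1 := by
  have := width_add' a.1 b.1 (a.len b)
  change width a.1 ≤ width (List.zipWith (· + ·) a.1 b.1)
  omega

/-- the braid which places the lower factor -/
noncomputable def dlo {m : ℕ} (a b : Lv m) : Br := Classical.choose (JJ0 a.1 b.1 (a.len b))
/-- the braid which places the upper factor -/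
noncomputable def dup {m : ℕ} (a b : Lv m) : Br := Classical.choose (KK0 a.1 b.1 (a.len b))

theorem dlo_spec {m : ℕ} (a b : Lv m) : dlo a b ∈ BN (width (cmpL a b).1) ∧
    JJ 0 a.1 b.1 = T (dlo a b) * cupRow (width b.1) a.1.sum ∧ ∀ x < width b.1, perm (dlo a b) x = lpos a.1 b.1 x :=
  Classical.choose_spec (JJ0 a.1 b.1 (a.len b))

theorem dup_spec {m : ℕ} (a b : Lv m) : dup a b ∈ BN (width (cmpL a b).1) ∧
    KK 0 a.1 b.1 = capRow (width a.1) b.1.sum * T (dup a b)⁻¹ ∧ ∀ x < width a.1, perm (dup a b) x = upos a.1 b.1 x :=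
  Classical.choose_spec (KK0 a.1 b.1 (a.len b))

/-- place the lower factor -/
noncomputable def loH {m : ℕ} (a b : Lv m) : PN (width b.1) →* PN (width (cmpL a b).1) :=
  conjHom (dlo a b) (w_lo a b) (dlo_spec a b).1

/-- place the upper factor -/
noncomputable def upH {m : ℕ} (a b : Lv m) : PN (width a.1) →* PN (width (cmpL a b).1) :=
  conjHom (dup a b) (w_up a b) (dup_spec a b).1

theorem cl_cmp {m : ℕ} (a b : Lv m) (x : PN (width a.1)) (y : PN (width b.1)) :
    cl (cmpL a b).1 ((upH a b x * loH a b y : PN (width (cmpL a b).1)) : Br) = cl a.1 x * cl b.1 y := by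
  obtain ⟨h1, h2, _⟩ := dlo_spec a b
  obtain ⟨k1, k2, _⟩ := dup_spec a b
  have e1 : ((upH a b x * loH a b y : PN (width (cmpL a b).1)) : Br) =
      (dup a b * x * (dup a b)⁻¹) * (dlo a b * y * (dlo a b)⁻¹) := rfl
  have e2 : caps 0 (cmpL a b).1 = caps 0 a.1 * KK 0 a.1 b.1 := caps_add a.1 b.1 (a.len b) 0
  have e3 : cups 0 (cmpL a b).1 = JJ 0 a.1 b.1 * cups 0 b.1 := cups_add a.1 b.1 (a.len b) 0
  have e4 : KK 0 a.1 b.1 * T (dup a b * x * (dup a b)⁻¹) = T x * KK 0 a.1 b.1 := by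
    have h5 := capRow_BN b.1.sum (le_refl (width a.1)) x.2.1
    rw [k2]
    calc capRow (width a.1) b.1.sum * T (dup a b)⁻¹ * T (dup a b * x * (dup a b)⁻¹)
        = capRow (width a.1) b.1.sum * T ((dup a b)⁻¹ * (dup a b * x * (dup a b)⁻¹)) := by rw [mul_assoc, ← T_mul]
      _ = capRow (width a.1) b.1.sum * T (x * (dup a b)⁻¹) := by congr 2; group
      _ = T x * (capRow (width a.1) b.1.sum * T (dup a b)⁻¹) := by rw [T_mul, ← mul_assoc, h5, mul_assoc]
  have e5 : T (dlo a b * y * (dlo a b)⁻¹) * JJ 0 a.1 b.1 = JJ 0 a.1 b.1 * T y := by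
    have h5 := cupRow_BN a.1.sum (le_refl (width b.1)) y.2.1
    rw [h2]
    calc T (dlo a b * y * (dlo a b)⁻¹) * (T (dlo a b) * cupRow (width b.1) a.1.sum)
        = T (dlo a b * y * (dlo a b)⁻¹ * dlo a b) * cupRow (width b.1) a.1.sum := by rw [← mul_assoc, ← T_mul]
      _ = T (dlo a b * y) * cupRow (width b.1) a.1.sum := by congr 2; group
      _ = T (dlo a b) * cupRow (width b.1) a.1.sum * T y := by rw [T_mul, mul_assoc, h5, mul_assoc]
  rw [cl_def, cl_def, cl_def, e1, e2, e3, T_mul]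
  calc caps 0 a.1 * KK 0 a.1 b.1 * (T (dup a b * x * (dup a b)⁻¹) * T (dlo a b * y * (dlo a b)⁻¹)) *
        (JJ 0 a.1 b.1 * cups 0 b.1)
      = caps 0 a.1 * (KK 0 a.1 b.1 * T (dup a b * x * (dup a b)⁻¹)) * (T (dlo a b * y * (dlo a b)⁻¹) *
        JJ 0 a.1 b.1) * cups 0 b.1 := by simp only [mul_assoc]
    _ = caps 0 a.1 * T x * (KK 0 a.1 b.1 * JJ 0 a.1 b.1) * T y * cups 0 b.1 := by
        rw [e4, e5]; simp only [mul_assoc]
    _ = caps 0 a.1 * T x * cups 0 a.1 * (caps 0 b.1 * T y * cups 0 b.1) := by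
        rw [KK_JJ a.1 b.1 (a.len b)]; simp only [mul_assoc]

theorem iso_cl {m : ℕ} (l : Lv m) (k : ℕ) (γ : PN (width l.1)) (hk : 1 ≤ k) (hγ : γ ∈ Gm (PN (width l.1)) k) :
    ∃ h h' q : PN (width (cmpL l l).1), h ∈ Gm (PN (width (cmpL l l).1)) k ∧
    h' ∈ Gm (PN (width (cmpL l l).1)) k ∧ q ∈ Gm (PN (width (cmpL l l).1)) (k + 1) ∧
    loH l l γ = h * upH l l γ * h' * q ∧
    (∀ x : PN (width (cmpL l l).1), cl (cmpL l l).1 ((h * x : PN (width (cmpL l l).1)) : Br) = cl (cmpL l l).1 x) ∧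
    (∀ x : PN (width (cmpL l l).1), cl (cmpL l l).1 ((x * h' : PN (width (cmpL l l).1)) : Br) =
      cl (cmpL l l).1 x) := by
  obtain ⟨h1, _, h3⟩ := dlo_spec l l
  obtain ⟨k1, _, k3⟩ := dup_spec l l
  obtain ⟨h, hh, h', hh', q, hq, e1, e2, e3⟩ := chain (r := l.1) hk ((mem_Gm_iff γ).1 hγ) (width l.1) le_rfl
    (dlo l l) h1 (fun x hx => by rw [h3 x hx, if_pos hx]) (dup l l) k1 k3
  refine ⟨⟨h, Gam_le_PN hh⟩, ⟨h', Gam_le_PN hh'⟩, ⟨q, Gam_le_PN hq⟩, (mem_Gm_iff _).2 hh, (mem_Gm_iff _).2 hh',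
    (mem_Gm_iff _).2 hq, Subtype.ext e3, fun x => ?_, fun x => ?_⟩
  · change cl (cmpL l l).1 (h * x) = _
    rw [cl_def, cl_def, T_mul, ← mul_assoc]
    have e1' : caps 0 (cmpL l l).1 * T h = caps 0 (cmpL l l).1 := e1
    rw [e1']
  · change cl (cmpL l l).1 (x * h') = _
    rw [cl_def, cl_def, T_mul, mul_assoc, mul_assoc, mul_assoc]
    have e2' : T h' * cups 0 (cmpL l l).1 = cups 0 (cmpL l l).1 := e2
    rw [e2']

/-- closures of pure braids with m components -/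
noncomputable def sys (m : ℕ) : CSys Tangle where
  Lev := Lv m
  P l := PN (width l.1)
  grp _ := inferInstance
  S l g := cl l.1 g
  S_one l := cl_one l.1
  cmp := cmpL
  lo := loH
  up := upH
  S_cmp := cl_cmp
  iso := iso_cl

theorem sys_IsCl (m : ℕ) (x : Tangle) : (sys m).IsCl x ↔ IsStringLink m x := by
  constructor
  · rintro ⟨l, g, h⟩
    exact ⟨l.1, l.2, g.1, g.2, h⟩
  · rintro ⟨r, hr, g, hg, h⟩
    exact ⟨⟨r, hr⟩, ⟨g, hg⟩, h⟩

theorem sys_Ceq (m k : ℕ) : (sys m).Ceq k = CEquiv m k := by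
  have : (fun x y : Tangle => ∃ (l : (sys m).Lev) (g γ : (sys m).P l), γ ∈ Gm ((sys m).P l) k ∧ x = (sys m).S l g ∧
      y = (sys m).S l (g * γ)) = fun x y => ∃ r : List ℕ, r.length = m ∧ ∃ g ∈ PN (width r),
      ∃ γ ∈ Gam k (width r), x = cl r g ∧ y = cl r (g * γ) := by
    ext x y
    constructor
    · rintro ⟨l, g, γ, hγ, h1, h2⟩
      exact ⟨l.1, l.2, g.1, g.2, γ.1, (mem_Gm_iff (n := width l.1) γ).1 hγ, h1, h2⟩
    · rintro ⟨r, hr, g, hg, γ, hγ, h1, h2⟩
      exact ⟨⟨r, hr⟩, ⟨g, hg⟩, ⟨γ, Gam_le_PN hγ⟩, (mem_Gm_iff (n := width r) ⟨γ, Gam_le_PN hγ⟩).2 hγ, h1, h2⟩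
  rw [CSys.Ceq, CEquiv, this]

instance (m : ℕ) : Nonempty (sys m).Lev := ⟨⟨List.replicate m 0, List.length_replicate⟩⟩

/-- alternating sum over g a_1^(e_1) a_2^(e_2) ... -/
def altB {A : Type} [AddCommGroup A] (f : Br → A) : Br → List Br → A
  | g, [] => f g
  | g, a :: as => altB f (g * a) as - altB f g as

/-- product of the positive resolution -/
def Pp (l : List (ℕ × Br)) : Br := (l.map fun p => σ p.1 * p.2).prod

/-- the factors of the crossing changes -/
def tts : List (ℕ × Br) → List Br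
  | [] => []
  | p :: l => (p.2 * Pp l)⁻¹ * ((σ p.1)⁻¹ * (σ p.1)⁻¹) * (p.2 * Pp l) :: tts l

theorem resolve_eq {A : Type} [AddCommGroup A] (f : Br → A) (l : List (ℕ × Br)) : ∀ g,
    resolve f g l = (-1 : ℤ) ^ l.length • altB f (g * Pp l) (tts l) := by
  induction l with
  | nil => intro g; simp [resolve, altB, Pp, tts]
  | cons p l ih =>
    intro g
    have e1 : g * σ p.1 * p.2 * Pp l = g * Pp (p :: l) := by simp [Pp, mul_assoc]
    have e2 : g * (σ p.1)⁻¹ * p.2 * Pp l = g * Pp (p :: l) *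
        ((p.2 * Pp l)⁻¹ * ((σ p.1)⁻¹ * (σ p.1)⁻¹) * (p.2 * Pp l)) := by
      rw [← e1]; group
    rw [resolve, ih, ih, e1, e2, tts, altB, List.length_cons, pow_succ, mul_neg, mul_one, neg_smul, smul_sub,
      neg_sub]

theorem sq_mem {n i : ℕ} (hi : i + 1 < n) : (σ i)⁻¹ * (σ i)⁻¹ ∈ PN n := by
  rw [PN, Subgroup.mem_inf, MonoidHom.mem_ker]
  refine ⟨mul_mem (inv_mem (σ_mem hi)) (inv_mem (σ_mem hi)), ?_⟩
  rw [map_mul, map_inv, perm_σ, Equiv.swap_inv, Equiv.swap_mul_self]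

theorem FiniteType_of_FT {m d : ℕ} {A : Type} [AddCommGroup A] {v : Tangle → A} (h : (sys m).FT d v) :
    FiniteType m d v := by
  intro r g l hr hl _ hl2 hpure
  rw [resolve_eq]
  have h1 : ∀ l : List (ℕ × Br), (∀ p ∈ l, p.1 + 1 < width r ∧ p.2 ∈ BN (width r)) →
      Pp l ∈ BN (width r) ∧ ∃ as : List (PN (width r)), as.length = l.length ∧ tts l = as.map Subtype.val := by
    intro l
    induction l with
    | nil => intro _; exact ⟨one_mem _, [], rfl, rfl⟩
    | cons p l ih =>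
      intro hp
      obtain ⟨i1, as, i2, i3⟩ := ih (fun q hq => hp q (List.mem_cons_of_mem _ hq))
      have hp1 := hp p List.mem_cons_self
      have hm : p.2 * Pp l ∈ BN (width r) := mul_mem hp1.2 i1
      refine ⟨?_, ⟨(p.2 * Pp l)⁻¹ * ((σ p.1)⁻¹ * (σ p.1)⁻¹) * (p.2 * Pp l), ?_⟩ :: as, by simp [i2], ?_⟩
      · have : Pp (p :: l) = σ p.1 * (p.2 * Pp l) := by simp [Pp, mul_assoc]
        rw [this]
        exact mul_mem (σ_mem hp1.1) hm
      · have := PN_conj (inv_mem hm) (sq_mem hp1.1)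
        rwa [inv_inv] at this
      · rw [tts, i3, List.map_cons]
  obtain ⟨_, as, i2, i3⟩ := h1 l hl2
  have h2 : ∀ (as : List ((sys m).P ⟨r, hr⟩)) (g : (sys m).P ⟨r, hr⟩),
      altB (fun b => v (cl r b)) (g : PN (width r)).1 (as.map (fun x : PN (width r) => x.1)) =
        (sys m).alt v ⟨r, hr⟩ g as := by
    intro as
    induction as with
    | nil => intro g; rfl
    | cons a as ih =>
      intro g
      have e1 := ih (g * a)
      have e2 := ih g
      change altB _ (g.1 * a.1) _ - altB _ g.1 _ = (sys m).alt v ⟨r, hr⟩ (g * a) as - (sys m).alt v ⟨r, hr⟩ g as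
      rw [← e1, ← e2]
      rfl
  have h3 := h2 as (⟨g * Pp l, hpure⟩ : PN (width r))
  have h4 : (sys m).alt v ⟨r, hr⟩ (⟨g * Pp l, hpure⟩ : PN (width r)) as = 0 := h _ _ _ (i2.trans hl)
  rw [h4] at h3
  have h5 : altB (fun b => v (cl r b)) (g * Pp l) (tts l) = 0 := by rw [i3]; exact h3
  rw [h5, smul_zero]

end SLC
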