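import Pool.Agent.SLC.Gen2
import Pool.Agent.SLC.Top6
import Pool.Agent.SLC.Gam

/-!
The lower central series of the pure braid groups: generators with bounded support, finite generation.
-/

set_option autoImplicit false

open scoped commutatorElement

namespace SLC

theorem Gam_one' {n : ℕ} : Gam 1 n = PN n := Gam_one

/-- commutators of two terms -/
theorem cm_Gam {i j n : ℕ} (hi : 1 ≤ i) (hj : 1 ≤ j) {x y : Br} (hx : x ∈ Gam i n) (hy : y ∈ Gam j n) :
    cm x y ∈ Gam (i + j) n := by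
  let x' : PN n := ⟨x, Gam_le_PN hx⟩
  let y' : PN n := ⟨y, Gam_le_PN hy⟩
  have hx' : x' ∈ Gm (PN n) i := (mem_Gm_iff (n := n) x').2 hx
  have hy' : y' ∈ Gm (PN n) j := (mem_Gm_iff (n := n) y').2 hy
  have h := (Gm_filt (PN n)).comm i j (Subgroup.commutator_mem_commutator hx' hy')
  have h2 := (mem_Gm_iff (n := n) _).1 h
  have e : ((⁅x', y'⁆ : PN n) : Br) = cm x y := rfl
  rwa [e] at h2

theorem cm_Eqm {k n : ℕ} (hk : 1 ≤ k) {s t s' t' : Br} (hs : s ∈ Gam k n) (ht : t ∈ PN n) (h : Eqm (k + 1) n s s')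
    (h' : Eqm 2 n t t') : Eqm (k + 2) n (cm s t) (cm s' t') := by
  unfold Eqm at h h'
  have e1 : s' = s * (s⁻¹ * s') := by group
  have e2 : t' = t * (t⁻¹ * t') := by group
  generalize hq : s⁻¹ * s' = q at h e1
  generalize hq' : t⁻¹ * t' = q' at h' e2
  subst e1 e2
  have e : (cm s t)⁻¹ * cm (s * q) (t * q') =
      ((cm s t)⁻¹ * (s * cm q (t * q') * s⁻¹) * (cm s t)⁻¹⁻¹) * (t * cm s q' * t⁻¹) := by
    unfold cm
    group
  unfold Eqm
  rw [e]
  have hsP := Gam_le_PN hs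
  have hc : cm s t ∈ BN n := by
    unfold cm
    exact mul_mem (mul_mem (mul_mem (PN_iff.1 hsP).1 (PN_iff.1 ht).1) (inv_mem (PN_iff.1 hsP).1))
      (inv_mem (PN_iff.1 ht).1)
  refine mul_mem (Gam_conj (inv_mem hc) (Gam_conj (PN_iff.1 hsP).1 ?_)) (Gam_conj (PN_iff.1 ht).1 ?_)
  · exact cm_mem_left (by omega) h (mul_mem ht (Gam_le_PN h'))
  · exact cm_Gam hk (by omega) hs h'

/-- commutators of generators generate the next term, for subgroups which are stable under conjugation -/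
theorem Gam_gen_step {k n : ℕ} (hk : 1 ≤ k) {X Y : Set Br} {H : Subgroup Br} (hX : ∀ x ∈ X, x ∈ Gam k n)
    (hY : ∀ y ∈ Y, y ∈ PN n) (hXg : Gam k n ≤ Subgroup.closure X ⊔ Gam (k + 1) n)
    (hYg : PN n ≤ Subgroup.closure Y ⊔ Gam 2 n) (hH : Gam (k + 2) n ≤ H) (hHP : H ≤ Gam (k + 1) n)
    (hXY : ∀ x ∈ X, ∀ y ∈ Y, cm x y ∈ H) : Gam (k + 1) n ≤ H := by
  have hconj : ∀ p ∈ PN n, ∀ h ∈ H, p * h * p⁻¹ ∈ H := by
    intro p hp h hh
    have h1 : cm p h ∈ Gam (k + 2) n := cm_mem_right (k := k + 1) (by omega) (hHP hh) hp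
    have e : p * h * p⁻¹ = cm p h * h := by unfold cm; group
    rw [e]
    exact mul_mem (hH h1) hh
  have key : ∀ x ∈ Gam k n, ∀ y ∈ PN n, cm x y ∈ H := by
    -- first for x in X
    have h1 : ∀ x ∈ X, ∀ y ∈ PN n, cm x y ∈ H := by
      intro x hx
      have hxP : x ∈ PN n := Gam_le_PN (hX x hx)
      let K : Subgroup Br :=
        { carrier := {y | y ∈ PN n ∧ cm x y ∈ H}
          one_mem' := ⟨one_mem _, by
            have : cm x 1 = 1 := by unfold cm; group
            rw [this]; exact one_mem _⟩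
          mul_mem' := by
            rintro a b ⟨ha, ha'⟩ ⟨hb, hb'⟩
            refine ⟨mul_mem ha hb, ?_⟩
            have : cm x (a * b) = cm x a * (a * cm x b * a⁻¹) := by unfold cm; group
            rw [this]
            exact mul_mem ha' (hconj a ha _ hb')
          inv_mem' := by
            rintro a ⟨ha, ha'⟩
            refine ⟨inv_mem ha, ?_⟩
            have : cm x a⁻¹ = a⁻¹ * (cm x a)⁻¹ * a⁻¹⁻¹ := by unfold cm; group
            rw [this]
            exact hconj _ (inv_mem ha) _ (inv_mem ha') }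
      have hK : Subgroup.closure Y ⊔ Gam 2 n ≤ K := by
        refine sup_le ((Subgroup.closure_le _).2 fun y hy => ⟨hY y hy, hXY x hx y hy⟩) ?_
        intro y hy
        exact ⟨Gam_le_PN hy, hH (cm_Gam hk (by omega) (hX x hx) hy)⟩
      intro y hy
      exact (hK (hYg hy)).2
    let K : Subgroup Br :=
      { carrier := {x | x ∈ Gam k n ∧ ∀ y ∈ PN n, cm x y ∈ H}
        one_mem' := ⟨one_mem _, fun y _ => by
          have : cm 1 y = 1 := by unfold cm; group
          rw [this]; exact one_mem _⟩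
        mul_mem' := by
          rintro a b ⟨ha, ha'⟩ ⟨hb, hb'⟩
          refine ⟨mul_mem ha hb, fun y hy => ?_⟩
          have : cm (a * b) y = (a * cm b y * a⁻¹) * cm a y := by unfold cm; group
          rw [this]
          exact mul_mem (hconj a (Gam_le_PN ha) _ (hb' y hy)) (ha' y hy)
        inv_mem' := by
          rintro a ⟨ha, ha'⟩
          refine ⟨inv_mem ha, fun y hy => ?_⟩
          have : cm a⁻¹ y = a⁻¹ * (cm a y)⁻¹ * a⁻¹⁻¹ := by unfold cm; group
          rw [this]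
          exact hconj _ (Gam_le_PN (inv_mem ha)) _ (inv_mem (ha' y hy)) }
    have hK : Subgroup.closure X ⊔ Gam (k + 1) n ≤ K := by
      refine sup_le ((Subgroup.closure_le _).2 fun x hx => ⟨hX x hx, h1 x hx⟩) ?_
      intro x hx
      exact ⟨Gam_anti (by omega) hx, fun y hy => hH (cm_mem_left (by omega) hx hy)⟩
    intro x hx y hy
    exact (hK (hXg hx)).2 y hy
  rw [Gam_succ hk, Subgroup.commutator_le]
  intro x hx y hy
  exact key x hx y hy

/-- two positions u, v outside 0, ..., K - 1 such that a, b are among 0, ..., K - 1, u, v -/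
theorem exists_uv {K N a b : ℕ} (hN : K + 2 ≤ N) (ha : a < N) (hb : b < N) (hab : a ≠ b) : ∃ u v, K ≤ u ∧ u < N ∧
    K ≤ v ∧ v < N ∧ u ≠ v ∧ (a < K ∨ a = u ∨ a = v) ∧ (b < K ∨ b = u ∨ b = v) := by
  rcases Nat.lt_or_ge a K with h1 | h1 <;> rcases Nat.lt_or_ge b K with h2 | h2
  · exact ⟨K, K + 1, by omega, by omega, by omega, by omega, by omega, Or.inl h1, Or.inl h2⟩
  · rcases Nat.eq_or_lt_of_le h2 with h3 | h3
    · exact ⟨b, K + 1, by omega, by omega, by omega, by omega, by omega, Or.inl h1, Or.inr (Or.inl rfl)⟩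
    · exact ⟨b, K, by omega, by omega, by omega, by omega, by omega, Or.inl h1, Or.inr (Or.inl rfl)⟩
  · rcases Nat.eq_or_lt_of_le h1 with h3 | h3
    · exact ⟨a, K + 1, by omega, by omega, by omega, by omega, by omega, Or.inr (Or.inl rfl), Or.inl h2⟩
    · exact ⟨a, K, by omega, by omega, by omega, by omega, by omega, Or.inr (Or.inl rfl), Or.inl h2⟩
  · exact ⟨a, b, h1, ha, h2, hb, hab, Or.inr (Or.inl rfl), Or.inr (Or.inr rfl)⟩

/-- conjugates of elements of the term k on 2 k strands -/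
def XX (k n : ℕ) : Set Br := {x | ∃ c ∈ BN n, ∃ w ∈ Gam k (2 * k), x = c * w * c⁻¹}

theorem XX_mem {k n : ℕ} (hn : 2 * k ≤ n) {x : Br} (hx : x ∈ XX k n) : x ∈ Gam k n := by
  obtain ⟨c, hc, w, hw, rfl⟩ := hx
  exact Gam_conj hc (Gam_mono hn hw)

/-- the term k is generated by conjugates of elements on 2 k strands, modulo the next term -/
theorem Gam_supp (k : ℕ) (hk : 1 ≤ k) : ∀ n, 2 * k ≤ n → Gam k n ≤ Subgroup.closure (XX k n) ⊔ Gam (k + 1) n := by
  induction k, hk using Nat.le_induction with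
  | base =>
    intro n hn
    rw [Gam_one]
    intro g hg
    refine Subgroup.mem_sup_left (Subgroup.closure_mono ?_ (PN_gen0 hg))
    rintro x ⟨c, hc, _, rfl⟩
    exact ⟨c, hc, σ 0 ^ 2, sq_mem_PN (by omega), rfl⟩
  | succ k hk ih =>
    intro n hn
    have hY : ∀ y ∈ {x | ∃ c ∈ BN n, 2 ≤ n ∧ x = c * σ 0 ^ 2 * c⁻¹}, y ∈ PN n := by
      rintro _ ⟨c, hc, _, rfl⟩
      exact PN_conj hc (sq_mem_PN (by omega))
    refine Gam_gen_step hk (X := XX k n) (Y := {x | ∃ c ∈ BN n, 2 ≤ n ∧ x = c * σ 0 ^ 2 * c⁻¹})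
      (fun x hx => XX_mem (by omega) hx) hY (ih n (by omega)) (fun g hg => Subgroup.mem_sup_left (PN_gen0 hg))
      le_sup_right (sup_le ((Subgroup.closure_le _).2 fun x hx => XX_mem hn hx) (Gam_anti (by omega))) ?_
    rintro _ ⟨c, hc, w, hw, rfl⟩ _ ⟨c', hc', _, rfl⟩
    -- positions
    have hlt : ∀ x, x < n → perm c⁻¹ x < n := fun x hx => (perm_lt (inv_mem hc)).1 x hx
    have hlt' : ∀ x, x < n → perm c' x < n := fun x hx => (perm_lt hc').1 x hx
    have hinj : perm c⁻¹ (perm c' 0) ≠ perm c⁻¹ (perm c' 1) := by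
      intro h
      have := (perm c').injective ((perm c⁻¹).injective h)
      omega
    obtain ⟨u, v, hu, hun, hv, hvn, huv, h0, h1⟩ := exists_uv (K := 2 * k) (N := n) (by omega)
      (hlt _ (hlt' 0 (by omega))) (hlt _ (hlt' 1 (by omega))) hinj
    obtain ⟨e, he, hep⟩ := exists_inj (2 * k + 2) n (fun x => if x < 2 * k then x else if x = 2 * k then u else v) (by
      intro x hx
      split_ifs <;> omega) (by
      intro x hx y hy hxy
      split_ifs at hxy <;> omega)
    have hpos : ∀ a, (a < 2 * k ∨ a = u ∨ a = v) → ∃ i < 2 * k + 2, perm e i = a := by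
      rintro a (h | h | h)
      · exact ⟨a, by omega, by rw [hep a (by omega), if_pos h]⟩
      · exact ⟨2 * k, by omega, by rw [hep (2 * k) (by omega), if_neg (by omega), if_pos rfl, h]⟩
      · exact ⟨2 * k + 1, by omega, by rw [hep (2 * k + 1) (by omega), if_neg (by omega), if_neg (by omega), h]⟩
    obtain ⟨i, hi, hei⟩ := hpos _ h0
    obtain ⟨j, hj, hej⟩ := hpos _ h1
    have hij : i ≠ j := by
      intro h
      rw [h, hej] at hei
      exact hinj hei.symm
    obtain ⟨s, hs, hsp⟩ := exists_inj 2 (2 * k + 2) (fun x => if x = 0 then i else j) (by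
      intro x hx
      split_ifs <;> omega) (by
      intro x hx y hy hxy
      split_ifs at hxy <;> omega)
    have hs0 := hsp 0 (by omega)
    have hs1 := hsp 1 (by omega)
    rw [if_pos rfl] at hs0
    rw [if_neg (by omega)] at hs1
    have hsN : s ∈ BN n := BN_mono (by omega) hs
    have hb : c * e ∈ BN n := mul_mem hc he
    have hbs : c * e * s ∈ BN n := mul_mem hb hsN
    have hpc : ∀ x, perm c (perm c⁻¹ x) = x := fun x => by rw [map_inv]; exact Equiv.apply_symm_apply _ _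
    obtain ⟨q, hq, hq1⟩ := class_indep (N := n) hk hc hb (show 2 * k ≤ n by omega) (fun x hx => by
      rw [map_mul, Equiv.Perm.mul_apply, hep x (by omega), if_pos hx]) hw
    have h02 : σ 0 ^ 2 ∈ Gam 1 2 := sq_mem_PN (by omega)
    obtain ⟨q', hq', hq1'⟩ := class_indep (N := n) le_rfl hc' hbs (show 2 ≤ n by omega) (fun x hx => by
      rw [map_mul, map_mul, Equiv.Perm.mul_apply, Equiv.Perm.mul_apply]
      have hx2 : x = 0 ∨ x = 1 := by omega
      rcases hx2 with rfl | rfl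
      · rw [hs0, hei, hpc]
      · rw [hs1, hej, hpc]) h02
    have hwn : w ∈ Gam k n := Gam_mono (by omega) hw
    have hE := cm_Eqm hk (Gam_conj hc hwn) (PN_conj hc' (sq_mem_PN (show 0 + 1 < n by omega)))
      (Eqm.of_mul hq hq1) (Eqm.of_mul hq' hq1')
    have e1 : cm (c * e * w * (c * e)⁻¹) (c * e * s * σ 0 ^ 2 * (c * e * s)⁻¹) =
        c * e * cm w (s * σ 0 ^ 2 * s⁻¹) * (c * e)⁻¹ := by
      unfold cm
      group
    rw [e1] at hE
    have hm : cm w (s * σ 0 ^ 2 * s⁻¹) ∈ Gam (k + 1) (2 * (k + 1)) :=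
      cm_mem_left hk (Gam_mono (by omega) hw) (PN_conj (by rwa [show 2 * (k + 1) = 2 * k + 2 by omega])
        (sq_mem_PN (by omega)))
    have e2 : cm (c * w * c⁻¹) (c' * σ 0 ^ 2 * c'⁻¹) = c * e * cm w (s * σ 0 ^ 2 * s⁻¹) * (c * e)⁻¹ *
        ((cm (c * w * c⁻¹) (c' * σ 0 ^ 2 * c'⁻¹))⁻¹ * (c * e * cm w (s * σ 0 ^ 2 * s⁻¹) * (c * e)⁻¹))⁻¹ := by
      group
    rw [e2]
    refine mul_mem (Subgroup.mem_sup_left (Subgroup.subset_closure ⟨c * e, hb, _, hm, rfl⟩))
      (Subgroup.mem_sup_right (inv_mem ?_))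
    exact hE

/-- the quotients of the lower central series of the pure braid groups are finitely generated -/
theorem Gam_fg (k : ℕ) (hk : 1 ≤ k) (n : ℕ) : ∃ S : Finset Br, (∀ s ∈ S, s ∈ Gam k n) ∧
    Gam k n ≤ Subgroup.closure (S : Set Br) ⊔ Gam (k + 1) n := by
  classical
  have h1 : ∃ S : Finset Br, (∀ s ∈ S, s ∈ Gam 1 n) ∧ Gam 1 n ≤ Subgroup.closure (S : Set Br) ⊔ Gam (1 + 1) n := by
    let f : ℕ × ℕ → Br := fun p => if h : ∃ c ∈ BN n, 2 ≤ n ∧ perm c 0 = p.1 ∧ perm c 1 = p.2 then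
      h.choose * σ 0 ^ 2 * h.choose⁻¹ else 1
    have hf : ∀ c ∈ BN n, 2 ≤ n → ∃ c' ∈ BN n, f (perm c 0, perm c 1) = c' * σ 0 ^ 2 * c'⁻¹ ∧
        perm c' 0 = perm c 0 ∧ perm c' 1 = perm c 1 := by
      intro c hc hn
      have h : ∃ c' ∈ BN n, 2 ≤ n ∧ perm c' 0 = (perm c 0, perm c 1).1 ∧ perm c' 1 = (perm c 0, perm c 1).2 :=
        ⟨c, hc, hn, rfl, rfl⟩
      refine ⟨h.choose, h.choose_spec.1, ?_, h.choose_spec.2.2.1, h.choose_spec.2.2.2⟩
      exact dif_pos h
    have hfm : ∀ p, f p ∈ Gam 1 n := by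
      intro p
      by_cases h : ∃ c ∈ BN n, 2 ≤ n ∧ perm c 0 = p.1 ∧ perm c 1 = p.2
      · have e : f p = h.choose * σ 0 ^ 2 * h.choose⁻¹ := dif_pos h
        rw [e]
        exact PN_conj h.choose_spec.1 (sq_mem_PN (by have := h.choose_spec.2.1; omega))
      · have e : f p = 1 := dif_neg h
        rw [e]
        exact one_mem _
    refine ⟨(Finset.range n ×ˢ Finset.range n).image f, ?_, ?_⟩
    · intro s hs
      obtain ⟨p, _, rfl⟩ := Finset.mem_image.1 hs
      exact hfm p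
    · intro g hg
      have h2 := PN_gen0 (Gam_le_PN hg)
      refine (Subgroup.closure_le _).2 ?_ h2
      rintro _ ⟨c, hc, hn, rfl⟩
      obtain ⟨c', hc', e, p0, p1⟩ := hf c hc hn
      obtain ⟨q, hq, hq1⟩ := class_indep (N := n) le_rfl hc hc' hn (fun x hx => by
        have hx2 : x = 0 ∨ x = 1 := by omega
        rcases hx2 with rfl | rfl
        · exact p0.symm
        · exact p1.symm) (show σ 0 ^ 2 ∈ Gam 1 2 from sq_mem_PN (by omega))
      rw [SetLike.mem_coe, hq1, ← e]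
      refine mul_mem (Subgroup.mem_sup_left (Subgroup.subset_closure ?_)) (Subgroup.mem_sup_right hq)
      rw [Finset.mem_coe, Finset.mem_image]
      exact ⟨_, Finset.mem_product.2 ⟨Finset.mem_range.2 ((perm_lt hc).1 0 (by omega)),
        Finset.mem_range.2 ((perm_lt hc).1 1 (by omega))⟩, rfl⟩
  induction k, hk using Nat.le_induction with
  | base => exact h1
  | succ k hk ih =>
    obtain ⟨S, hS, hSg⟩ := ih
    obtain ⟨Y, hY, hYg⟩ := h1
    have hm : ∀ s ∈ (S ×ˢ Y).image (fun p => cm p.1 p.2), s ∈ Gam (k + 1) n := by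
      intro s hs
      obtain ⟨p, hp, rfl⟩ := Finset.mem_image.1 hs
      rw [Finset.mem_product] at hp
      exact cm_mem_left hk (hS _ hp.1) (Gam_le_PN (hY _ hp.2))
    refine ⟨(S ×ˢ Y).image (fun p => cm p.1 p.2), hm, ?_⟩
    refine Gam_gen_step hk (X := (S : Set Br)) (Y := (Y : Set Br)) (fun x hx => hS x hx)
      (fun y hy => Gam_le_PN (hY y hy)) hSg (by rw [← Gam_one]; exact hYg) le_sup_right
      (sup_le ((Subgroup.closure_le _).2 fun x hx => hm x hx) (Gam_anti (by omega))) ?_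
    intro x hx y hy
    refine Subgroup.mem_sup_left (Subgroup.subset_closure ?_)
    rw [Finset.mem_coe, Finset.mem_image]
    exact ⟨(x, y), Finset.mem_product.2 ⟨hx, hy⟩, rfl⟩

end SLC
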