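import Pool.Agent.SLC.TF
import Pool.Agent.SLC.Red3

/-!
String links: no torsion in the degrees 1 and 2, from the invariants.
-/

set_option autoImplicit false

namespace SLC

open CSys

/-- invariants of C_(k+1)-equivalence which are additive in degree k -/
def Inv (m k : ℕ) (lam : Tangle → ℤ) : Prop :=
  (∀ x y, CEquiv m (k + 1) x y → lam x = lam y) ∧
    ∀ x y, CEquiv m k x 1 → CEquiv m k y 1 → lam (x * y) = lam x + lam y

/-- linking numbers -/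
def Inv1 (m : ℕ) : Prop := ∀ i j, i < j → j < m → ∃ lam, Inv m 1 lam ∧ (∀ x, GT m i j x → lam x ≠ 0) ∧
  ∀ i' j', i' < j' → j' < m → (i', j') ≠ (i, j) → ∀ x, GT m i' j' x → lam x = 0

/-- invariants of degree 2 of the components -/
def Inv2c (m : ℕ) : Prop := ∀ i, i < m → ∃ lam, Inv m 2 lam ∧ (∀ x, GC m i x → lam x ≠ 0) ∧
  (∀ j, j < m → j ≠ i → ∀ x, GC m j x → lam x = 0) ∧ (∀ j k, j < k → k < m → ∀ x, GD m j k x → lam x = 0) ∧
  ∀ j k l, j < k → k < l → l < m → ∀ x, GE m j k l x → lam x = 0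

/-- invariants of degree 2 of pairs of components -/
def Inv2d (m : ℕ) : Prop := ∀ i j, i < j → j < m → ∃ lam, Inv m 2 lam ∧ (∀ x, GD m i j x → lam x ≠ 0) ∧
  (∀ i' j', i' < j' → j' < m → (i', j') ≠ (i, j) → ∀ x, GD m i' j' x → lam x = 0) ∧
  ∀ i' j' k', i' < j' → j' < k' → k' < m → ∀ x, GE m i' j' k' x → lam x = 0

/-- triple linking numbers -/
def Inv2e (m : ℕ) : Prop := ∀ i j k, i < j → j < k → k < m → ∃ lam, Inv m 2 lam ∧ (∀ x, GE m i j k x → lam x ≠ 0) ∧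
  ∀ i' j' k', i' < j' → j' < k' → k' < m → (i', j', k') ≠ (i, j, k) → ∀ x, GE m i' j' k' x → lam x = 0

section

variable {m : ℕ}

/-- closures of conjugates of elements of degree k -/
theorem conj_isCl {b : List ℕ} (hb : b.length = m) {k n : ℕ} {c γ : Br} (hc : c ∈ BN (width b)) (hn : n ≤ width b)
    (hγ : γ ∈ Gam k n) : (sys m).IsCl (cl b (c * γ * c⁻¹)) ∧ (sys m).Ceq k (cl b (c * γ * c⁻¹)) 1 := by
  have h1 : c * γ * c⁻¹ ∈ Gam k (width b) := Gam_conj hc (Gam_mono hn hγ)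
  have h2 : c * γ * c⁻¹ ∈ PN (width b) := Gam_le_PN h1
  refine ⟨⟨⟨b, hb⟩, ⟨c * γ * c⁻¹, h2⟩, rfl⟩, ?_⟩
  have h3 := Ceq.of (Q := sys m) (l := ⟨b, hb⟩) (1 : PN (width b)) (γ := (⟨c * γ * c⁻¹, h2⟩ : PN (width b)))
    ((mem_Gm_iff (n := width b) _).2 h1)
  have e1 : (1 : PN (width b)) * (⟨c * γ * c⁻¹, h2⟩ : PN (width b)) = ⟨c * γ * c⁻¹, h2⟩ := one_mul _
  have e2 : (sys m).S ⟨b, hb⟩ (1 : PN (width b)) = 1 := (sys m).S_one ⟨b, hb⟩
  rw [e2] at h3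
  have e3 : (sys m).S ⟨b, hb⟩ ((1 : PN (width b)) * (⟨c * γ * c⁻¹, h2⟩ : PN (width b))) = cl b (c * γ * c⁻¹) := by
    rw [e1]
    rfl
  rw [← e3]
  exact h3.symm

theorem conj_uniq {b : List ℕ} (hb : b.length = m) {k n : ℕ} (hk : 1 ≤ k) {c c' γ : Br} (hc : c ∈ BN (width b))
    (hc' : c' ∈ BN (width b)) (hn : n ≤ width b) (hγ : γ ∈ Gam k n) (h : ∀ x < n, perm c x = perm c' x) :
    (sys m).Ceq (k + 1) (cl b (c * γ * c⁻¹)) (cl b (c' * γ * c'⁻¹)) := by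
  obtain ⟨q, hq, hcq⟩ := class_indep hk hc' hc hn (fun x hx => (h x hx).symm) hγ
  have h2 : c * γ * c⁻¹ ∈ PN (width b) := Gam_le_PN (Gam_conj hc (Gam_mono hn hγ))
  have h3 : q ∈ PN (width b) := Gam_le_PN hq
  rw [hcq]
  exact Ceq.of (Q := sys m) (l := ⟨b, hb⟩) (⟨c * γ * c⁻¹, h2⟩ : PN (width b)) (γ := (⟨q, h3⟩ : PN (width b)))
    ((mem_Gm_iff (n := width b) _).2 hq)

theorem sq0_mem : σ 0 ^ 2 ∈ Gam 1 2 := by
  have : Gam 1 2 = PN 2 := rfl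
  rw [this]
  exact sq_mem_PN (by omega)

theorem GT_spec {i j : ℕ} (hij : i < j) (hj : j < m) {x : Tangle} (hx : GT m i j x) :
    (sys m).IsCl x ∧ (sys m).Ceq 1 x 1 := by
  obtain ⟨c, hc, -, -, rfl⟩ := hx
  rw [← cl_bz m]
  refine conj_isCl (bz_len m) (n := 2) ?_ ?_ sq0_mem
  · rwa [width_bz]
  · rw [width_bz]; omega

theorem GT_uniq {i j : ℕ} (hij : i < j) (hj : j < m) {x y : Tangle} (hx : GT m i j x) (hy : GT m i j y) :
    (sys m).Ceq 2 x y := by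
  obtain ⟨c, hc, c0, c1, rfl⟩ := hx
  obtain ⟨c', hc', c0', c1', rfl⟩ := hy
  rw [← cl_bz m, ← cl_bz m]
  refine conj_uniq (bz_len m) (n := 2) le_rfl ?_ ?_ ?_ sq0_mem ?_
  · rwa [width_bz]
  · rwa [width_bz]
  · rw [width_bz]; omega
  · intro z hz
    interval_cases z
    · rw [c0, c0']
    · rw [c1, c1']

theorem GE_spec {i j k : ℕ} (hij : i < j) (hjk : j < k) (hk : k < m) {x : Tangle} (hx : GE m i j k x) :
    (sys m).IsCl x ∧ (sys m).Ceq 2 x 1 := by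
  obtain ⟨c, hc, -, -, -, rfl⟩ := hx
  rw [← cl_bz m]
  refine conj_isCl (bz_len m) (n := 3) ?_ ?_ (cc2_mem le_rfl)
  · rwa [width_bz]
  · rw [width_bz]; omega

theorem GE_uniq {i j k : ℕ} (hij : i < j) (hjk : j < k) (hk : k < m) {x y : Tangle} (hx : GE m i j k x)
    (hy : GE m i j k y) : (sys m).Ceq 3 x y := by
  obtain ⟨c, hc, c0, c1, c2, rfl⟩ := hx
  obtain ⟨c', hc', c0', c1', c2', rfl⟩ := hy
  rw [← cl_bz m, ← cl_bz m]
  refine conj_uniq (bz_len m) (n := 3) (by omega) ?_ ?_ ?_ (cc2_mem le_rfl) ?_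
  · rwa [width_bz]
  · rwa [width_bz]
  · rw [width_bz]; omega
  · intro z hz
    interval_cases z
    · rw [c0, c0']
    · rw [c1, c1']
    · rw [c2, c2']

theorem GC_spec {i : ℕ} (hi : i < m) {x : Tangle} (hx : GC m i x) : (sys m).IsCl x ∧ (sys m).Ceq 2 x 1 := by
  obtain ⟨c, hc, -, -, -, rfl⟩ := hx
  rw [← cl_bu hi]
  refine conj_isCl (bu_len m i) (n := 3) ?_ ?_ (cc2_mem le_rfl)
  · rwa [width_bu m i hi]
  · rw [width_bu m i hi]; omega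

theorem GC_uniq {i : ℕ} (hi : i < m) {x y : Tangle} (hx : GC m i x) (hy : GC m i y) : (sys m).Ceq 3 x y := by
  obtain ⟨c, hc, c0, c1, c2, rfl⟩ := hx
  obtain ⟨c', hc', c0', c1', c2', rfl⟩ := hy
  rw [← cl_bu hi, ← cl_bu hi]
  refine conj_uniq (bu_len m i) (n := 3) (by omega) ?_ ?_ ?_ (cc2_mem le_rfl) ?_
  · rwa [width_bu m i hi]
  · rwa [width_bu m i hi]
  · rw [width_bu m i hi]; omega
  · intro z hz
    interval_cases z
    · rw [c0, c0']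
    · rw [c1, c1']
    · rw [c2, c2']

theorem GD_spec {i j : ℕ} (hij : i < j) (hj : j < m) {x : Tangle} (hx : GD m i j x) :
    (sys m).IsCl x ∧ (sys m).Ceq 2 x 1 := by
  have hi : i < m := by omega
  obtain ⟨c, hc, -, -, -, rfl⟩ := hx
  rw [← cl_bu hi]
  refine conj_isCl (bu_len m i) (n := 3) ?_ ?_ (cc2_mem le_rfl)
  · rwa [width_bu m i hi]
  · rw [width_bu m i hi]; omega

theorem GD_uniq {i j : ℕ} (hij : i < j) (hj : j < m) {x y : Tangle} (hx : GD m i j x) (hy : GD m i j y) :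
    (sys m).Ceq 3 x y := by
  have hi : i < m := by omega
  obtain ⟨c, hc, c0, c1, c2, rfl⟩ := hx
  obtain ⟨c', hc', c0', c1', c2', rfl⟩ := hy
  rw [← cl_bu hi, ← cl_bu hi]
  refine conj_uniq (bu_len m i) (n := 3) (by omega) ?_ ?_ ?_ (cc2_mem le_rfl) ?_
  · rwa [width_bu m i hi]
  · rwa [width_bu m i hi]
  · rw [width_bu m i hi]; omega
  · intro z hz
    interval_cases z
    · rw [c0, c0']
    · rw [c1, c1']
    · rw [c2, c2']

theorem torsionFree1 (h : Inv1 m) : (sys m).TorsionFree 1 := by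
  refine torsionFree_of (sys m) le_rfl (ι := ℕ × ℕ) (fun p y => p.1 < p.2 ∧ p.2 < m ∧ GT m p.1 p.2 y) (fun _ => 0)
    (fun p y hy => GT_spec hy.1 hy.2.1 hy.2.2) (fun p y y' hy hy' => GT_uniq hy.1 hy.2.1 hy.2.2 hy'.2.2) ?_ ?_
  · intro G _ π x hx _
    refine Subgroup.closure_mono ?_ (gen1 π hx)
    rintro g ⟨y, ⟨i, j, hij, hj, hy⟩, rfl⟩
    exact ⟨(i, j), y, ⟨hij, hj, hy⟩, rfl⟩
  · rintro ⟨i, j⟩
    by_cases hc : i < j ∧ j < m
    · obtain ⟨lam, ⟨h1, h2⟩, h3, h4⟩ := h i j hc.1 hc.2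
      refine ⟨lam, ?_, ?_, fun y hy => h3 y hy.2.2, ?_⟩
      · rw [sys_Ceq]; exact h1
      · rw [sys_Ceq]; exact h2
      · rintro ⟨i', j'⟩ hne _ y hy
        exact h4 i' j' hy.1 hy.2.1 hne y hy.2.2
    · refine ⟨fun _ => 0, fun _ _ _ => rfl, fun _ _ _ _ => rfl, fun y hy => absurd ⟨hy.1, hy.2.1⟩ hc, fun _ _ _ _ _ => rfl⟩

/-- the generators of degree 2 -/
def P2 (m : ℕ) : ℕ ⊕ (ℕ × ℕ) ⊕ (ℕ × ℕ × ℕ) → Tangle → Prop
  | Sum.inl i, y => i < m ∧ GC m i y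
  | Sum.inr (Sum.inl p), y => p.1 < p.2 ∧ p.2 < m ∧ GD m p.1 p.2 y
  | Sum.inr (Sum.inr p), y => p.1 < p.2.1 ∧ p.2.1 < p.2.2 ∧ p.2.2 < m ∧ GE m p.1 p.2.1 p.2.2 y

/-- their order -/
def rk2 : ℕ ⊕ (ℕ × ℕ) ⊕ (ℕ × ℕ × ℕ) → ℕ
  | Sum.inl _ => 0
  | Sum.inr (Sum.inl _) => 1
  | Sum.inr (Sum.inr _) => 2

theorem torsionFree2 (hc : Inv2c m) (hd : Inv2d m) (he : Inv2e m) : (sys m).TorsionFree 2 := by
  refine torsionFree_of (sys m) (by omega) (P2 m) rk2 ?_ ?_ ?_ ?_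
  · rintro (i | p | p) y hy
    · exact GC_spec hy.1 hy.2
    · exact GD_spec hy.1 hy.2.1 hy.2.2
    · exact GE_spec hy.1 hy.2.1 hy.2.2.1 hy.2.2.2
  · rintro (i | p | p) y y' hy hy'
    · exact GC_uniq hy.1 hy.2 hy'.2
    · exact GD_uniq hy.1 hy.2.1 hy.2.2 hy'.2.2
    · exact GE_uniq hy.1 hy.2.1 hy.2.2.1 hy.2.2.2 hy'.2.2.2
  · intro G _ π x hx hx1
    refine Subgroup.closure_mono ?_ (gen2 π hx hx1)
    rintro g ⟨y, (⟨i, hi, hy⟩ | ⟨i, j, hij, hj, hy⟩ | ⟨i, j, k, hij, hjk, hk, hy⟩), rfl⟩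
    · exact ⟨Sum.inl i, y, ⟨hi, hy⟩, rfl⟩
    · exact ⟨Sum.inr (Sum.inl (i, j)), y, ⟨hij, hj, hy⟩, rfl⟩
    · exact ⟨Sum.inr (Sum.inr (i, j, k)), y, ⟨hij, hjk, hk, hy⟩, rfl⟩
  · have hzero : ∀ p, (∀ y, ¬ P2 m p y) → ∃ lam : Tangle → ℤ, (∀ x y, (sys m).Ceq (2 + 1) x y → lam x = lam y) ∧
        (∀ x y, (sys m).Ceq 2 x 1 → (sys m).Ceq 2 y 1 → lam (x * y) = lam x + lam y) ∧
        (∀ y, P2 m p y → lam y ≠ 0) ∧ ∀ q, q ≠ p → rk2 p ≤ rk2 q → ∀ y, P2 m q y → lam y = 0 := fun p hp =>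
      ⟨fun _ => 0, fun _ _ _ => rfl, fun _ _ _ _ => rfl, fun y hy => absurd hy (hp y), fun _ _ _ _ _ => rfl⟩
    rintro (i | ⟨i, j⟩ | ⟨i, j, k⟩)
    · by_cases hi : i < m
      · obtain ⟨lam, ⟨h1, h2⟩, h3, h4, h5, h6⟩ := hc i hi
        refine ⟨lam, ?_, ?_, fun y hy => h3 y hy.2, ?_⟩
        · rw [sys_Ceq]; exact h1
        · rw [sys_Ceq]; exact h2
        · rintro (j | p | p) hne _ y hy
          · exact h4 j hy.1 (fun h => hne (by rw [h])) y hy.2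
          · exact h5 _ _ hy.1 hy.2.1 y hy.2.2
          · exact h6 _ _ _ hy.1 hy.2.1 hy.2.2.1 y hy.2.2.2
      · exact hzero _ fun y hy => hi hy.1
    · by_cases hij : i < j ∧ j < m
      · obtain ⟨lam, ⟨h1, h2⟩, h3, h4, h5⟩ := hd i j hij.1 hij.2
        refine ⟨lam, ?_, ?_, fun y hy => h3 y hy.2.2, ?_⟩
        · rw [sys_Ceq]; exact h1
        · rw [sys_Ceq]; exact h2
        · rintro (j' | p | p) hne hr y hy
          · exact absurd hr (by simp [rk2])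
          · exact h4 _ _ hy.1 hy.2.1 (fun h => hne (by rw [← h])) y hy.2.2
          · exact h5 _ _ _ hy.1 hy.2.1 hy.2.2.1 y hy.2.2.2
      · exact hzero _ fun y hy => hij ⟨hy.1, hy.2.1⟩
    · by_cases hijk : i < j ∧ j < k ∧ k < m
      · obtain ⟨lam, ⟨h1, h2⟩, h3, h4⟩ := he i j k hijk.1 hijk.2.1 hijk.2.2
        refine ⟨lam, ?_, ?_, fun y hy => h3 y hy.2.2.2, ?_⟩
        · rw [sys_Ceq]; exact h1
        · rw [sys_Ceq]; exact h2
        · rintro (j' | p | p) hne hr y hy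
          · exact absurd hr (by simp [rk2])
          · exact absurd hr (by simp [rk2])
          · exact h4 _ _ _ hy.1 hy.2.1 hy.2.2.1 (fun h => hne (by rw [← h])) y hy.2.2.2
      · exact hzero _ fun y hy => hijk ⟨hy.1, hy.2.1, hy.2.2.1⟩

/-- from the invariants of the degrees 1 and 2: finite type invariants of degree < d determine the class of a
string link modulo C_d-equivalence for d <= 7 -/
theorem sep_of_inv (h1 : Inv1 m) (hc : Inv2c m) (hd : Inv2d m) (he : Inv2e m) {d : ℕ} (hd1 : 1 ≤ d) (hd7 : d ≤ 7)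
    {x y : Tangle} (hx : IsStringLink m x) (hy : IsStringLink m y)
    (h : ∀ (A : Type) [AddCommGroup A] (v : Tangle → A), FiniteType m d v → v x = v y) : CEquiv m d x y := by
  rw [← sys_Ceq]
  refine dim_half' (sys m) d hd1 (fun k hk1 hkd => ?_) x y ((sys_IsCl m x).2 hx) ((sys_IsCl m y).2 hy) (fun A _ v hv => ?_)
  · have h3 : k = 1 ∨ k = 2 := by omega
    rcases h3 with rfl | rfl
    · exact torsionFree1 h1
    · exact torsionFree2 hc hd he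
  · exact h A v (FiniteType_of_FT hv)

end

end SLC
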