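import Pool.Agent.SLC.Inv
import Pool.Agent.SLC.TF12

/-!
The invariants in the form used for the absence of torsion.
-/

set_option autoImplicit false

namespace SLC

theorem Inv1_all (m : ℕ) : Inv1 m := fun i j hij _ => by
  obtain ⟨l, h1, h2, h3, h4⟩ := inv1 (m := m) hij
  exact ⟨l, ⟨h1, h2⟩, h3, fun i' j' hij' _ hne x hx => h4 i' j' hij' (fun e => hne (by rw [e.1, e.2])) x hx⟩

theorem Inv2c_all (m : ℕ) : Inv2c m := fun i _ => by
  obtain ⟨l, h1, h2, h3, h4, h5, h6⟩ := inv2c (m := m) i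
  exact ⟨l, ⟨h1, h2⟩, h3, fun j _ hj x hx => h4 j hj x hx, fun j k hjk _ x hx => h5 j k hjk x hx,
    fun j k n hjk hkn _ x hx => h6 j k n hjk hkn x hx⟩

theorem Inv2d_all (m : ℕ) : Inv2d m := fun i j hij _ => by
  obtain ⟨l, h1, h2, h3, h4, h5⟩ := inv2d (m := m) hij
  exact ⟨l, ⟨h1, h2⟩, h3, fun i' j' hij' _ hne x hx => h4 i' j' hij' (fun e => hne (by rw [e.1, e.2])) x hx,
    fun i' j' k' hij' hjk' _ x hx => h5 i' j' k' hij' hjk' x hx⟩

theorem Inv2e_all (m : ℕ) : Inv2e m := fun i j k hij hjk _ => by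
  obtain ⟨l, h1, h2, h3, h4⟩ := inv2e (m := m) hij hjk
  exact ⟨l, ⟨h1, h2⟩, h3, fun i' j' k' hij' hjk' _ hne x hx =>
    h4 i' j' k' hij' hjk' (fun e => hne (by rw [e.1, e.2.1, e.2.2])) x hx⟩

end SLC
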