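import Pool.Agent.SLC.TF12
import Pool.Agent.SLC.Conv
import Pool.Agent.SLC.InvAll

/-!
String links: C_d-equivalence and finite type invariants of degree < d, for d <= 7.
-/

set_option autoImplicit false

namespace SLC

theorem main_of_inv {m : ℕ} (h1 : Inv1 m) (hc : Inv2c m) (hdd : Inv2d m) (he : Inv2e m) (d : ℕ) (hd : 1 ≤ d)
    (hd7 : d ≤ 7) (x y : Tangle) (hx : IsStringLink m x) (hy : IsStringLink m y) :
    CEquiv m d x y ↔ ∀ (A : Type) [AddCommGroup A] (v : Tangle → A), FiniteType m d v → v x = v y :=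
  ⟨fun h A _ v hv => FiniteType.inv hd hv h, fun h => sep_of_inv h1 hc hdd he hd hd7 hx hy h⟩

theorem main (m d : ℕ) (hd : 1 ≤ d) (hd7 : d ≤ 7) (x y : Tangle) (hx : IsStringLink m x) (hy : IsStringLink m y) :
    CEquiv m d x y ↔ ∀ (A : Type) [AddCommGroup A] (v : Tangle → A), FiniteType m d v → v x = v y :=
  main_of_inv (Inv1_all m) (Inv2c_all m) (Inv2d_all m) (Inv2e_all m) d hd hd7 x y hx hy

end SLC
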