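import Pool.Agent.SLC.Ix3
import Pool.Agent.SLC.Bb
import Pool.Agent.SLC.TF12
import Pool.Agent.SLC.Conv
import Pool.Agent.SLC.InvAll

/-!
String links: no torsion in degree 3, from generators and invariants.
-/

set_option autoImplicit false

namespace SLC

open CSys

/-- there are enough invariants of degree 3 -/
def Inv3 (m : ℕ) : Prop := ∀ p : Ix3, p.ok m → ∃ lam, Inv m 3 lam ∧ (∀ t, p.G m t → lam t ≠ 0) ∧
  ∀ q : Ix3, q.ok m → q ≠ p → p.rk ≤ q.rk → ∀ t, q.G m t → lam t = 0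

/-- the generators of degree 3 generate -/
def Gen3 (m : ℕ) : Prop := ∀ (G : Type) [Group G] (π : (sys m).Quo (3 + 1) G) (x : Tangle), (sys m).IsCl x →
  (sys m).Ceq 3 x 1 → π.cls x ∈ Subgroup.closure {g | ∃ (p : Ix3) (t : Tangle), p.ok m ∧ p.G m t ∧ g = π.cls t}

variable {m : ℕ}

theorem cc3_mem {N : ℕ} (h : 4 ≤ N) : cc3 ∈ Gam 3 N :=
  cm_mem_right (k := 2) (by omega) (cc2_mem (by omega)) (sq_mem_PN (by omega))

theorem G3_spec {n : ℕ} {X Y : Tangle} {x y z w : ℕ} {b : List ℕ} (hb : b.length = m) (hw : width b = n) (hn : 4 ≤ n)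
    (hcl : ∀ g, cl b g = X * T g * Y) {t : Tangle} (ht : G3 n X Y x y z w t) :
    (sys m).IsCl t ∧ (sys m).Ceq 3 t 1 := by
  obtain ⟨c, hc, -, -, -, -, rfl⟩ := ht
  rw [← hcl]
  refine conj_isCl hb (n := 4) ?_ ?_ (cc3_mem le_rfl)
  · rwa [hw]
  · rw [hw]; exact hn

theorem G3_uniq {n : ℕ} {X Y : Tangle} {x y z w : ℕ} {b : List ℕ} (hb : b.length = m) (hw : width b = n) (hn : 4 ≤ n)
    (hcl : ∀ g, cl b g = X * T g * Y) {t t' : Tangle} (ht : G3 n X Y x y z w t) (ht' : G3 n X Y x y z w t') :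
    (sys m).Ceq 4 t t' := by
  obtain ⟨c, hc, c0, c1, c2, c3, rfl⟩ := ht
  obtain ⟨c', hc', c0', c1', c2', c3', rfl⟩ := ht'
  rw [← hcl, ← hcl]
  refine conj_uniq hb (n := 4) (by omega) ?_ ?_ ?_ (cc3_mem le_rfl) ?_
  · rwa [hw]
  · rwa [hw]
  · rw [hw]; exact hn
  · intro k hk
    interval_cases k
    · rw [c0, c0']
    · rw [c1, c1']
    · rw [c2, c2']
    · rw [c3, c3']

/-- each class of generators comes from a list of returns -/
theorem Ix3.rep (p : Ix3) (hp : p.ok m) : ∃ (n : ℕ) (X Y : Tangle) (x y z w : ℕ) (b : List ℕ), b.length = m ∧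
    width b = n ∧ 4 ≤ n ∧ (∀ g, cl b g = X * T g * Y) ∧ p.G m = G3 n X Y x y z w := by
  rcases p with i | ⟨i, j⟩ | ⟨i, j⟩ | ⟨p, q, q'⟩ | ⟨i, j, k⟩ | ⟨i, j, k, l⟩ | ⟨i, j, k, l⟩
  · exact ⟨m + 4, _, _, _, _, _, _, bb m i i, bb_len _ _ _, width_bb m i i le_rfl hp, by omega,
      fun g => cl_bb le_rfl hp g, rfl⟩
  · exact ⟨m + 4, _, _, _, _, _, _, bb m i j, bb_len _ _ _, width_bb m i j hp.1.le hp.2, by omega,
      fun g => cl_bb hp.1.le hp.2 g, rfl⟩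
  · exact ⟨m + 4, _, _, _, _, _, _, bb m i j, bb_len _ _ _, width_bb m i j hp.1.le hp.2, by omega,
      fun g => cl_bb hp.1.le hp.2 g, rfl⟩
  · have h : p < m ∧ q < m ∧ q' < m := ⟨hp.2.2.1, by have := hp.1; have := hp.2.1; omega, hp.2.1⟩
    have h4 : 4 ≤ m + 2 := by have := hp.1; have := hp.2.1; omega
    exact ⟨m + 2, _, _, _, _, _, _, bu m p, bu_len _ _, width_bu m p h.1, h4, fun g => cl_bu h.1 g, rfl⟩
  · have h : i < m := by have := hp.1; have := hp.2.1; have := hp.2.2; omega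
    have h4 : 4 ≤ m + 2 := by have := hp.1; have := hp.2.1; have := hp.2.2; omega
    exact ⟨m + 2, _, _, _, _, _, _, bu m i, bu_len _ _, width_bu m i h, h4, fun g => cl_bu h g, rfl⟩
  · have h4 : 4 ≤ m := by have := hp.1; have := hp.2.1; have := hp.2.2.1; have := hp.2.2.2; omega
    exact ⟨m, 1, 1, _, _, _, _, bz m, bz_len _, width_bz m, h4, fun g => by rw [cl_bz, one_mul, mul_one], rfl⟩
  · have h4 : 4 ≤ m := by have := hp.1; have := hp.2.1; have := hp.2.2.1; have := hp.2.2.2; omega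
    exact ⟨m, 1, 1, _, _, _, _, bz m, bz_len _, width_bz m, h4, fun g => by rw [cl_bz, one_mul, mul_one], rfl⟩

theorem Ix3.spec (p : Ix3) (hp : p.ok m) {t : Tangle} (ht : p.G m t) : (sys m).IsCl t ∧ (sys m).Ceq 3 t 1 := by
  obtain ⟨n, X, Y, x, y, z, w, b, hb, hw, hn, hcl, e⟩ := p.rep hp
  rw [e] at ht
  exact G3_spec hb hw hn hcl ht

theorem Ix3.uniq (p : Ix3) (hp : p.ok m) {t t' : Tangle} (ht : p.G m t) (ht' : p.G m t') : (sys m).Ceq 4 t t' := by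
  obtain ⟨n, X, Y, x, y, z, w, b, hb, hw, hn, hcl, e⟩ := p.rep hp
  rw [e] at ht ht'
  exact G3_uniq hb hw hn hcl ht ht'

theorem torsionFree3 (hi : Inv3 m) (hg : Gen3 m) : (sys m).TorsionFree 3 := by
  refine torsionFree_of (sys m) (by omega) (ι := Ix3) (fun p t => p.ok m ∧ p.G m t) Ix3.rk
    (fun p t ht => p.spec ht.1 ht.2) (fun p t t' ht ht' => p.uniq ht.1 ht.2 ht'.2) ?_ ?_
  · intro G _ π x hx hx1
    refine Subgroup.closure_mono ?_ (hg G π x hx hx1)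
    rintro g ⟨p, t, hp, ht, rfl⟩
    exact ⟨p, t, ⟨hp, ht⟩, rfl⟩
  · intro p
    by_cases hp : p.ok m
    · obtain ⟨lam, ⟨h1, h2⟩, h3, h4⟩ := hi p hp
      refine ⟨lam, ?_, ?_, fun t ht => h3 t ht.2, fun q hq hr t ht => h4 q ht.1 hq hr t ht.2⟩
      · rw [sys_Ceq]; exact h1
      · rw [sys_Ceq]; exact h2
    · exact ⟨fun _ => 0, fun _ _ _ => rfl, fun _ _ _ _ => rfl, fun t ht => absurd ht.1 hp, fun _ _ _ _ _ => rfl⟩

theorem sep9 (hi : Inv3 m) (hg : Gen3 m) {d : ℕ} (hd1 : 1 ≤ d) (hd9 : d ≤ 9) {x y : Tangle} (hx : IsStringLink m x)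
    (hy : IsStringLink m y)
    (h : ∀ (A : Type) [AddCommGroup A] (v : Tangle → A), FiniteType m d v → v x = v y) : CEquiv m d x y := by
  rw [← sys_Ceq]
  refine dim_half' (sys m) d hd1 (fun k hk1 hkd => ?_) x y ((sys_IsCl m x).2 hx) ((sys_IsCl m y).2 hy) (fun A _ v hv => ?_)
  · have h3 : k = 1 ∨ k = 2 ∨ k = 3 := by omega
    rcases h3 with rfl | rfl | rfl
    · exact torsionFree1 (Inv1_all m)
    · exact torsionFree2 (Inv2c_all m) (Inv2d_all m) (Inv2e_all m)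
    · exact torsionFree3 hi hg
  · exact h A v (FiniteType_of_FT hv)

theorem main9 (hi : Inv3 m) (hg : Gen3 m) (d : ℕ) (hd : 1 ≤ d) (hd9 : d ≤ 9) (x y : Tangle) (hx : IsStringLink m x)
    (hy : IsStringLink m y) :
    CEquiv m d x y ↔ ∀ (A : Type) [AddCommGroup A] (v : Tangle → A), FiniteType m d v → v x = v y :=
  ⟨fun h A _ v hv => FiniteType.inv hd hv h, fun h => sep9 hi hg hd hd9 hx hy h⟩

end SLC
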