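import Pool.Agent.SLC.ActValW5
import Pool.Agent.SLC.TF3

/-!
Invariants of degree 3 which separate the generators.
-/

set_option autoImplicit false

open PowerSeries

namespace SLC

namespace W2

/-- the components which occur in a generator -/
def comps : Ix3 → Set ℕ
  | .o i => {i}
  | .a i j => {i, j}
  | .b i j => {i, j}
  | .v p q q' => {p, q, q'}
  | .u i j k => {i, j, k}
  | .x i j k l => {i, j, k, l}
  | .y i j k l => {i, j, k, l}

theorem up1_iff {s s' : ℕ → Sta} {p : ℕ} (hs : ∀ n, n ≠ p → s n = s' n) (x : Sta) :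
    (fun n => if n = p then x else s n) = s' ↔ x = s' p := by
  constructor
  · intro e
    have e1 := congrFun e p
    rwa [if_pos rfl] at e1
  · intro e
    ext1 n
    by_cases h : n = p
    · rw [if_pos h, e, h]
    · rw [if_neg h, hs n h]

theorem up2_iff {s s' : ℕ → Sta} {p q : ℕ} (hpq : p ≠ q) (hs : ∀ n, n ≠ p → n ≠ q → s n = s' n) (x y : Sta) :
    (fun n => if n = q then y else if n = p then x else s n) = s' ↔ x = s' p ∧ y = s' q := by
  constructor
  · intro e
    have e1 := congrFun e p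
    have e2 := congrFun e q
    simp only [if_neg hpq, if_true] at e1 e2
    exact ⟨e1, e2⟩
  · rintro ⟨rfl, rfl⟩
    ext1 n
    by_cases h : n = q
    · rw [if_pos h, h]
    · by_cases h' : n = p
      · rw [if_neg h, if_pos h', h']
      · rw [if_neg h, if_neg h', hs n h' h]

theorem up3_iff {s s' : ℕ → Sta} {p q r : ℕ} (hpq : p ≠ q) (hpr : p ≠ r) (hqr : q ≠ r)
    (hs : ∀ n, n ≠ p → n ≠ q → n ≠ r → s n = s' n) (x y z : Sta) :
    (fun n => if n = p then x else if n = q then y else if n = r then z else s n) = s' ↔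
      x = s' p ∧ y = s' q ∧ z = s' r := by
  constructor
  · intro e
    have e1 := congrFun e p
    have e2 := congrFun e q
    have e3 := congrFun e r
    simp only [if_neg hpq.symm, if_neg hpr.symm, if_neg hqr.symm, if_true] at e1 e2 e3
    exact ⟨e1, e2, e3⟩
  · rintro ⟨rfl, rfl, rfl⟩
    ext1 n
    by_cases h1 : n = p
    · rw [if_pos h1, h1]
    · by_cases h2 : n = q
      · rw [if_neg h1, if_pos h2, h2]
      · by_cases h3 : n = r
        · rw [if_neg h1, if_neg h2, if_pos h3, h3]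
        · rw [if_neg h1, if_neg h2, if_neg h3, hs n h1 h2 h3]

theorem up4_iff {s s' : ℕ → Sta} {p q r t : ℕ} (hpq : p ≠ q) (hpr : p ≠ r) (hpt : p ≠ t) (hqr : q ≠ r) (hqt : q ≠ t)
    (hrt : r ≠ t) (hs : ∀ n, n ≠ p → n ≠ q → n ≠ r → n ≠ t → s n = s' n) (x y z w : Sta) :
    up4 p q r t s x y z w = s' ↔ x = s' p ∧ y = s' q ∧ z = s' r ∧ w = s' t := by
  constructor
  · intro e
    have e1 := congrFun e p
    have e2 := congrFun e q
    have e3 := congrFun e r
    have e4 := congrFun e t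
    simp only [up4, if_neg hpq.symm, if_neg hpr.symm, if_neg hpt.symm, if_neg hqr.symm, if_neg hqt.symm,
      if_neg hrt.symm, if_true] at e1 e2 e3 e4
    exact ⟨e1, e2, e3, e4⟩
  · rintro ⟨rfl, rfl, rfl, rfl⟩
    ext1 n
    unfold up4
    by_cases h1 : n = p
    · rw [if_pos h1, h1]
    · by_cases h2 : n = q
      · rw [if_neg h1, if_pos h2, h2]
      · by_cases h3 : n = r
        · rw [if_neg h1, if_neg h2, if_pos h3, h3]
        · by_cases h4 : n = t
          · rw [if_neg h1, if_neg h2, if_neg h3, if_pos h4, h4]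
          · rw [if_neg h1, if_neg h2, if_neg h3, if_neg h4, hs n h1 h2 h3 h4]

section act

variable {A A' : PowerSeries ℤ} {Φ : Tangle → Fn → Fn} (hΦ : IsActW A A' Φ) (hA : A = 1 + X) (h : A * A' = 1)

include hΦ hA h

/-- a forgotten component kills the generators which contain it -/
theorem lam_zero {m : ℕ} {q : Ix3} (hq : q.ok m) {t : Tangle} (ht : q.G m t) {s : ℕ → Sta} (s' : ℕ → Sta) {n : ℕ}
    (hn : n ∈ comps q) (hs : s n = none) : lam Φ 3 s s' t = 0 := by
  rcases q with i | ⟨i, j⟩ | ⟨i, j⟩ | ⟨p, q, q'⟩ | ⟨i, j, k⟩ | ⟨i, j, k, l⟩ | ⟨i, j, k, l⟩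
  · have hn' : n = i := hn
    rw [lam_G31 hΦ hA h ht, ← hn', hs]
    simp only [Mq'_0, mul_zero, Finset.sum_const_zero]
  · rw [lam_G32a hΦ hA h hq.1 ht]
    rcases hn with rfl | rfl
    · simp only [hs, Mq'_0, mul_zero, Finset.sum_const_zero]
    · simp only [hs, Mq'_2, mul_zero, Finset.sum_const_zero]
  · rw [lam_G32b hΦ hA h hq.1 ht]
    rcases hn with rfl | rfl
    · simp only [hs, Mq'_0, mul_zero, Finset.sum_const_zero]
    · simp only [hs, Mq'_1, mul_zero, Finset.sum_const_zero]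
  · rw [lam_G33v hΦ hA h hq.1 hq.2.2.2.1 hq.2.2.2.2 ht]
    rcases hn with rfl | rfl | rfl
    · simp only [hs, Mq'_0, mul_zero, Finset.sum_const_zero]
    · simp only [hs, Mq'_1, mul_zero, Finset.sum_const_zero]
    · simp only [hs, Mq'_3, mul_zero, Finset.sum_const_zero]
  · rw [lam_G33u hΦ hA h hq.1 hq.2.1 ht]
    rcases hn with rfl | rfl | rfl
    · simp only [hs, Mq'_0, mul_zero, Finset.sum_const_zero]
    · simp only [hs, Mq'_2, mul_zero, Finset.sum_const_zero]
    · simp only [hs, Mq'_3, mul_zero, Finset.sum_const_zero]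
  · rw [lam_G34 hΦ hA h ht]
    rcases hn with rfl | rfl | rfl | rfl
    · rw [hs, Mq'_0]
    · rw [hs, Mq'_1]
    · rw [hs, Mq'_2]
    · rw [hs, Mq'_3]
  · rw [lam_G34 hΦ hA h ht]
    rcases hn with rfl | rfl | rfl | rfl
    · rw [hs, Mq'_0]
    · rw [hs, Mq'_2]
    · rw [hs, Mq'_1]
    · rw [hs, Mq'_3]

theorem val31 {m i : ℕ} {t : Tangle} (ht : G31 m i t) {s : ℕ → Sta} (hi : s i = q00) :
    lam Φ 3 s s t = V31 := by
  rw [lam_G31 hΦ hA h ht, hi, V31]
  have e : ∀ x, c0 (indf s) (fun n => if n = i then x else s n) = if x = q00 then 1 else 0 := by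
    intro x
    refine c0_indf_iff ?_
    rw [up1_iff (fun _ _ => rfl), hi]
  simp only [e]

theorem val32a {m i j : ℕ} (hij : i < j) {t : Tangle} (ht : G32a m i j t) {s s' : ℕ → Sta} {x y : Sta}
    (hi : s i = q00) (hj : s j = q10) (hi' : s' i = x) (hj' : s' j = y) (hs : ∀ n, n ≠ i → n ≠ j → s n = s' n) :
    lam Φ 3 s s' t = V32a x y := by
  rw [lam_G32a hΦ hA h hij ht, hi, hj, V32a]
  have e : ∀ w1 w2, c0 (indf s') (fun n => if n = j then w2 else if n = i then w1 else s n) =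
      if w1 = x ∧ w2 = y then 1 else 0 := by
    intro w1 w2
    refine c0_indf_iff ?_
    rw [up2_iff hij.ne hs, hi', hj']
  simp only [e]

theorem val32b {m i j : ℕ} (hij : i < j) {t : Tangle} (ht : G32b m i j t) {s s' : ℕ → Sta} {x y : Sta}
    (hi : s i = q00) (hj : s j = q10) (hi' : s' i = x) (hj' : s' j = y) (hs : ∀ n, n ≠ i → n ≠ j → s n = s' n) :
    lam Φ 3 s s' t = V32b x y := by
  rw [lam_G32b hΦ hA h hij ht, hi, hj, V32b]
  have e : ∀ w1 w2, c0 (indf s') (fun n => if n = j then w2 else if n = i then w1 else s n) =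
      if w1 = x ∧ w2 = y then 1 else 0 := by
    intro w1 w2
    refine c0_indf_iff ?_
    rw [up2_iff hij.ne hs, hi', hj']
  simp only [e]

theorem val33u {m i j k : ℕ} (hij : i < j) (hjk : j < k) {t : Tangle} (ht : G33u m i j k t) {s s' : ℕ → Sta}
    (hs : ∀ n, n ≠ i → n ≠ j → n ≠ k → s n = s' n) :
    lam Φ 3 s s' t = V33u (s i) (s j) (s k) (s' i) (s' j) (s' k) := by
  rw [lam_G33u hΦ hA h hij hjk ht, V33u]
  have e : ∀ w1 c d, c0 (indf s') (fun n => if n = i then w1 else if n = j then c else if n = k then d else s n) =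
      if w1 = s' i ∧ c = s' j ∧ d = s' k then 1 else 0 := by
    intro w1 c d
    refine c0_indf_iff ?_
    rw [up3_iff (by omega) (by omega) (by omega) hs]
  simp only [e]

theorem val33v {m p q q' : ℕ} (hq : q < q') (hp : p ≠ q) (hp' : p ≠ q') {t : Tangle} (ht : G33v m p q q' t)
    {s s' : ℕ → Sta} (hs : ∀ n, n ≠ p → n ≠ q → n ≠ q' → s n = s' n) :
    lam Φ 3 s s' t = V33v (s p) (s q) (s q') (s' p) (s' q) (s' q') := by
  rw [lam_G33v hΦ hA h hq hp hp' ht, V33v]
  have e : ∀ w1 b d, c0 (indf s') (fun n => if n = p then w1 else if n = q then b else if n = q' then d else s n) =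
      if w1 = s' p ∧ b = s' q ∧ d = s' q' then 1 else 0 := by
    intro w1 b d
    refine c0_indf_iff ?_
    rw [up3_iff hp hp' hq.ne hs]
  simp only [e]

theorem val34 {m x y z w : ℕ} (h1 : x ≠ y) (h2 : x ≠ z) (h3 : x ≠ w) (h4 : y ≠ z) (h5 : y ≠ w) (h6 : z ≠ w)
    {t : Tangle} (ht : G34 m x y z w t) {s s' : ℕ → Sta} (hs : ∀ n, n ≠ x → n ≠ y → n ≠ z → n ≠ w → s n = s' n) :
    lam Φ 3 s s' t = V34 (s x) (s y) (s z) (s w) (s' x) (s' y) (s' z) (s' w) := by
  rw [lam_G34 hΦ hA h ht, V34]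
  have e : ∀ a b c d, c0 (indf s') (up4 x y z w s a b c d) =
      if a = s' x ∧ b = s' y ∧ c = s' z ∧ d = s' w then 1 else 0 := by
    intro a b c d
    refine c0_indf_iff ?_
    rw [up4_iff h1 h2 h3 h4 h5 h6 hs]
  simp only [e]

/-- only generators whose components are visible count -/
theorem lam_vis {m : ℕ} {q : Ix3} (hq : q.ok m) {t : Tangle} (ht : q.G m t) {s : ℕ → Sta} (s' : ℕ → Sta)
    (hl : lam Φ 3 s s' t ≠ 0) : ∀ n ∈ comps q, s n ≠ none := fun _ hn hs => hl (lam_zero hΦ hA h hq ht s' hn hs)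

theorem Inv3_o {m i : ℕ} : ∃ l, Inv m 3 l ∧ (∀ t, (Ix3.o i).G m t → l t ≠ 0) ∧
    ∀ q : Ix3, q.ok m → q ≠ .o i → (Ix3.o i).rk ≤ q.rk → ∀ t, q.G m t → l t = 0 := by
  let s : ℕ → Sta := fun n => if n = i then q00 else none
  have si : s i = q00 := if_pos rfl
  have hv : ∀ n, s n ≠ none → n = i := fun n hn => by
    by_contra hni
    exact hn (if_neg hni)
  refine ⟨lam Φ 3 s s, ⟨lam_inv hΦ hA h m 3 s s, lam_add hΦ hA h m (by omega) s s⟩, fun t ht => ?_,
    fun q hq hqp _ t ht => ?_⟩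
  · rw [val31 hΦ hA h ht si]
    exact V31_ne
  · by_contra hl
    have hc := lam_vis hΦ hA h hq ht s hl
    rcases q with i' | ⟨i', j'⟩ | ⟨i', j'⟩ | ⟨p, q, q'⟩ | ⟨i', j', k'⟩ | ⟨i', j', k', l'⟩ | ⟨i', j', k', l'⟩
    · have e1 := hv i' (hc i' rfl)
      exact hqp (by rw [e1])
    · have e1 := hv i' (hc i' (Or.inl rfl))
      have e2 := hv j' (hc j' (Or.inr rfl))
      have h3 : i' < j' := hq.1
      omega
    · have e1 := hv i' (hc i' (Or.inl rfl))
      have e2 := hv j' (hc j' (Or.inr rfl))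
      have h3 : i' < j' := hq.1
      omega
    · have e1 := hv q (hc q (Or.inr (Or.inl rfl)))
      have e2 := hv q' (hc q' (Or.inr (Or.inr rfl)))
      have h3 : q < q' := hq.1
      omega
    · have e1 := hv i' (hc i' (Or.inl rfl))
      have e2 := hv j' (hc j' (Or.inr (Or.inl rfl)))
      have h3 : i' < j' := hq.1
      omega
    · have e1 := hv i' (hc i' (Or.inl rfl))
      have e2 := hv j' (hc j' (Or.inr (Or.inl rfl)))
      have h3 : i' < j' := hq.1
      omega
    · have e1 := hv i' (hc i' (Or.inl rfl))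
      have e2 := hv j' (hc j' (Or.inr (Or.inl rfl)))
      have h3 : i' < j' := hq.1
      omega

theorem Inv_comb {m : ℕ} (a b : ℤ) (s s' r r' : ℕ → Sta) :
    Inv m 3 (fun t => a * lam Φ 3 s s' t + b * lam Φ 3 r r' t) := by
  constructor
  · intro x y hxy
    dsimp only
    rw [lam_inv hΦ hA h m 3 s s' x y hxy, lam_inv hΦ hA h m 3 r r' x y hxy]
  · intro x y hx hy
    dsimp only
    rw [lam_add hΦ hA h m (by omega) s s' x y hx hy, lam_add hΦ hA h m (by omega) r r' x y hx hy]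
    ring

theorem Inv3_ab {m i j : ℕ} (hij : i < j) (a b : ℤ) : ∃ l, Inv m 3 l ∧
    (∀ t, G32a m i j t → l t = a * V32a q00 q10 + b * V32a q10 q00) ∧
    (∀ t, G32b m i j t → l t = a * V32b q00 q10 + b * V32b q10 q00) ∧
    ∀ q : Ix3, q.ok m → q ≠ .a i j → q ≠ .b i j → 1 ≤ q.rk → ∀ t, q.G m t → l t = 0 := by
  let s : ℕ → Sta := fun n => if n = i then q00 else if n = j then q10 else none
  let s' : ℕ → Sta := fun n => if n = i then q10 else if n = j then q00 else none
  have si : s i = q00 := if_pos rfl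
  have si' : s' i = q10 := if_pos rfl
  have sj : s j = q10 := by
    change (if j = i then q00 else if j = j then q10 else none) = q10
    rw [if_neg (by omega), if_pos rfl]
  have sj' : s' j = q00 := by
    change (if j = i then q10 else if j = j then q00 else none) = q00
    rw [if_neg (by omega), if_pos rfl]
  have s0 : ∀ n, n ≠ i → n ≠ j → s n = none := fun n h1 h2 => by
    change (if n = i then q00 else if n = j then q10 else none) = none
    rw [if_neg h1, if_neg h2]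
  have s0' : ∀ n, n ≠ i → n ≠ j → s' n = none := fun n h1 h2 => by
    change (if n = i then q10 else if n = j then q00 else none) = none
    rw [if_neg h1, if_neg h2]
  have hv : ∀ n, s n ≠ none → n = i ∨ n = j := fun n hn => by
    by_contra hni
    push Not at hni
    exact hn (s0 n hni.1 hni.2)
  refine ⟨fun t => a * lam Φ 3 s s t + b * lam Φ 3 s s' t, Inv_comb hΦ hA h a b s s s s', fun t ht => ?_,
    fun t ht => ?_, fun q hq hqa hqb hr t ht => ?_⟩
  · dsimp only
    rw [val32a hΦ hA h hij ht si sj si sj (fun _ _ _ => rfl),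
      val32a hΦ hA h hij ht si sj si' sj' (fun n h1 h2 => by rw [s0 n h1 h2, s0' n h1 h2])]
  · dsimp only
    rw [val32b hΦ hA h hij ht si sj si sj (fun _ _ _ => rfl),
      val32b hΦ hA h hij ht si sj si' sj' (fun n h1 h2 => by rw [s0 n h1 h2, s0' n h1 h2])]
  · have key : ¬ ∀ n ∈ comps q, s n ≠ none := by
      intro hc
      rcases q with i' | ⟨i', j'⟩ | ⟨i', j'⟩ | ⟨p, q, q'⟩ | ⟨i', j', k'⟩ | ⟨i', j', k', l'⟩ | ⟨i', j', k', l'⟩
      · exact absurd hr (by simp [Ix3.rk])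
      · have e1 := hv i' (hc i' (Or.inl rfl))
        have e2 := hv j' (hc j' (Or.inr rfl))
        have h3 : i' < j' := hq.1
        exact hqa (by rw [show i' = i by omega, show j' = j by omega])
      · have e1 := hv i' (hc i' (Or.inl rfl))
        have e2 := hv j' (hc j' (Or.inr rfl))
        have h3 : i' < j' := hq.1
        exact hqb (by rw [show i' = i by omega, show j' = j by omega])
      · have e0 := hv p (hc p (Or.inl rfl))
        have e1 := hv q (hc q (Or.inr (Or.inl rfl)))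
        have e2 := hv q' (hc q' (Or.inr (Or.inr rfl)))
        have h3 : q < q' := hq.1
        have h4 : p ≠ q := hq.2.2.2.1
        have h5 : p ≠ q' := hq.2.2.2.2
        omega
      · have e1 := hv i' (hc i' (Or.inl rfl))
        have e2 := hv j' (hc j' (Or.inr (Or.inl rfl)))
        have e3 := hv k' (hc k' (Or.inr (Or.inr rfl)))
        have h3 : i' < j' := hq.1
        have h4 : j' < k' := hq.2.1
        omega
      · have e1 := hv i' (hc i' (Or.inl rfl))
        have e2 := hv j' (hc j' (Or.inr (Or.inl rfl)))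
        have e3 := hv k' (hc k' (Or.inr (Or.inr (Or.inl rfl))))
        have h3 : i' < j' := hq.1
        have h4 : j' < k' := hq.2.1
        omega
      · have e1 := hv i' (hc i' (Or.inl rfl))
        have e2 := hv j' (hc j' (Or.inr (Or.inl rfl)))
        have e3 := hv k' (hc k' (Or.inr (Or.inr (Or.inl rfl))))
        have h3 : i' < j' := hq.1
        have h4 : j' < k' := hq.2.1
        omega
    push Not at key
    obtain ⟨n, hn, hn0⟩ := key
    dsimp only
    rw [lam_zero hΦ hA h hq ht s hn hn0, lam_zero hΦ hA h hq ht s' hn hn0]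
    ring

/-- the state with the values a, b, c on the components p, q, r -/
def s3 (p q r : ℕ) (a b c : Sta) : ℕ → Sta := fun n => if n = p then a else if n = q then b else if n = r then c else none

omit hΦ hA h in
theorem s3_at {p q r : ℕ} (hpq : p ≠ q) (hpr : p ≠ r) (hqr : q ≠ r) (a b c : Sta) : s3 p q r a b c p = a ∧
    s3 p q r a b c q = b ∧ s3 p q r a b c r = c ∧ ∀ n, n ≠ p → n ≠ q → n ≠ r → s3 p q r a b c n = none := by
  refine ⟨if_pos rfl, ?_, ?_, fun n h1 h2 h3 => ?_⟩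
  · unfold s3
    rw [if_neg hpq.symm, if_pos rfl]
  · unfold s3
    rw [if_neg hpr.symm, if_neg hqr.symm, if_pos rfl]
  · unfold s3
    rw [if_neg h1, if_neg h2, if_neg h3]

omit hΦ hA h in
/-- components in a set of three elements -/
theorem comps3 {m p0 q0 r0 : ℕ} {q : Ix3} (hq : q.ok m) (hr : 2 ≤ q.rk)
    (hv : ∀ n ∈ comps q, n = p0 ∨ n = q0 ∨ n = r0) :
    (∃ p1 q1 r1, q = .v p1 q1 r1 ∧ q1 < r1 ∧ p1 ≠ q1 ∧ p1 ≠ r1 ∧ (p1 = p0 ∨ p1 = q0 ∨ p1 = r0) ∧
      (q1 = p0 ∨ q1 = q0 ∨ q1 = r0) ∧ (r1 = p0 ∨ r1 = q0 ∨ r1 = r0)) ∨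
    (∃ i j k, q = .u i j k ∧ i < j ∧ j < k ∧ (i = p0 ∨ i = q0 ∨ i = r0) ∧
      (j = p0 ∨ j = q0 ∨ j = r0) ∧ (k = p0 ∨ k = q0 ∨ k = r0)) := by
  rcases q with i' | ⟨i', j'⟩ | ⟨i', j'⟩ | ⟨p, q, q'⟩ | ⟨i', j', k'⟩ | ⟨i', j', k', l'⟩ | ⟨i', j', k', l'⟩
  · exact absurd hr (by simp [Ix3.rk])
  · exact absurd hr (by simp [Ix3.rk])
  · exact absurd hr (by simp [Ix3.rk])
  · exact Or.inl ⟨p, q, q', rfl, hq.1, hq.2.2.2.1, hq.2.2.2.2, hv p (Or.inl rfl), hv q (Or.inr (Or.inl rfl)),
      hv q' (Or.inr (Or.inr rfl))⟩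
  · exact Or.inr ⟨i', j', k', rfl, hq.1, hq.2.1, hv i' (Or.inl rfl), hv j' (Or.inr (Or.inl rfl)),
      hv k' (Or.inr (Or.inr rfl))⟩
  · exfalso
    have e1 := hv i' (Or.inl rfl)
    have e2 := hv j' (Or.inr (Or.inl rfl))
    have e3 := hv k' (Or.inr (Or.inr (Or.inl rfl)))
    have e4 := hv l' (Or.inr (Or.inr (Or.inr rfl)))
    have h3 : i' < j' := hq.1
    have h4 : j' < k' := hq.2.1
    have h5 : k' < l' := hq.2.2.1
    omega
  · exfalso
    have e1 := hv i' (Or.inl rfl)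
    have e2 := hv j' (Or.inr (Or.inl rfl))
    have e3 := hv k' (Or.inr (Or.inr (Or.inl rfl)))
    have e4 := hv l' (Or.inr (Or.inr (Or.inr rfl)))
    have h3 : i' < j' := hq.1
    have h4 : j' < k' := hq.2.1
    have h5 : k' < l' := hq.2.2.1
    omega

theorem Inv3_v {m p q r : ℕ} (hqr : q < r) (hpq : p ≠ q) (hpr : p ≠ r) : ∃ l, Inv m 3 l ∧
    (∀ t, (Ix3.v p q r).G m t → l t ≠ 0) ∧
    ∀ x : Ix3, x.ok m → x ≠ .v p q r → (Ix3.v p q r).rk ≤ x.rk → ∀ t, x.G m t → l t = 0 := by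
  obtain ⟨ap, aq, ar, a0⟩ := s3_at hpq hpr hqr.ne q00 q10 q00
  obtain ⟨bp, bq, br, b0⟩ := s3_at hpq hpr hqr.ne q00 q00 q10
  obtain ⟨v1, v2, v3, -, v5, v6, v7⟩ := V33
  set s := s3 p q r q00 q10 q00 with hs
  set s' := s3 p q r q00 q00 q10 with hs'
  refine ⟨fun t => 1 * lam Φ 3 s s t + 1 * lam Φ 3 s' s' t, Inv_comb hΦ hA h 1 1 s s s' s', fun t ht => ?_,
    fun x hx hne hr t ht => ?_⟩
  · dsimp only
    rw [val33v hΦ hA h hqr hpq hpr ht (fun _ _ _ _ => rfl), val33v hΦ hA h hqr hpq hpr ht (fun _ _ _ _ => rfl),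
      ap, aq, ar, bp, bq, br, one_mul, one_mul]
    exact v7
  · by_cases hc : ∀ n ∈ comps x, n = p ∨ n = q ∨ n = r
    · dsimp only
      rcases comps3 hx hr hc with ⟨p1, q1, r1, rfl, h1, h2, h3, h4, h5, h6⟩ | ⟨i, j, k, rfl, h1, h2, h4, h5, h6⟩
      · rw [val33v hΦ hA h h1 h2 h3 ht (fun _ _ _ _ => rfl), val33v hΦ hA h h1 h2 h3 ht (fun _ _ _ _ => rfl),
          one_mul, one_mul]
        have hp1 : p1 ≠ p := by
          rintro rfl
          exact hne (by rw [show q1 = q by omega, show r1 = r by omega])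
        rcases (show p1 = q ∨ p1 = r by omega) with rfl | rfl
        · rcases (show (q1 = p ∧ r1 = r) ∨ (q1 = r ∧ r1 = p) by omega) with ⟨rfl, rfl⟩ | ⟨rfl, rfl⟩
          · rw [ap, aq, ar, bp, bq, br]
            exact v6
          · rw [ap, aq, ar, bp, bq, br]
            exact v5
        · rcases (show (q1 = p ∧ r1 = q) ∨ (q1 = q ∧ r1 = p) by omega) with ⟨rfl, rfl⟩ | ⟨rfl, rfl⟩
          · rw [ap, aq, ar, bp, bq, br, add_comm]
            exact v6
          · rw [ap, aq, ar, bp, bq, br, add_comm]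
            exact v5
      · rw [val33u hΦ hA h h1 h2 ht (fun _ _ _ _ => rfl), val33u hΦ hA h h1 h2 ht (fun _ _ _ _ => rfl),
          one_mul, one_mul]
        rcases (show (i = p ∧ j = q ∧ k = r) ∨ (i = q ∧ j = p ∧ k = r) ∨ (i = q ∧ j = r ∧ k = p) by omega) with
          ⟨rfl, rfl, rfl⟩ | ⟨rfl, rfl, rfl⟩ | ⟨rfl, rfl, rfl⟩
        · rw [ap, aq, ar, bp, bq, br, v2, v3, add_zero]
        · rw [ap, aq, ar, bp, bq, br, v1, v3, add_zero]
        · rw [ap, aq, ar, bp, bq, br, v1, v2, add_zero]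
    · push Not at hc
      obtain ⟨n, hn, n1, n2, n3⟩ := hc
      dsimp only
      rw [lam_zero hΦ hA h hx ht s hn (a0 n n1 n2 n3), lam_zero hΦ hA h hx ht s' hn (b0 n n1 n2 n3)]
      ring

theorem Inv3_u {m p q r : ℕ} (hpq : p < q) (hqr : q < r) : ∃ l, Inv m 3 l ∧
    (∀ t, (Ix3.u p q r).G m t → l t ≠ 0) ∧
    ∀ x : Ix3, x.ok m → x ≠ .u p q r → (Ix3.u p q r).rk ≤ x.rk → ∀ t, x.G m t → l t = 0 := by
  obtain ⟨ap, aq, ar, a0⟩ := s3_at hpq.ne (hpq.trans hqr).ne hqr.ne q00 q00 q10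
  obtain ⟨bp, bq, br, b0⟩ := s3_at hpq.ne (hpq.trans hqr).ne hqr.ne q00 q10 q00
  obtain ⟨-, -, -, v4, -, -, -⟩ := V33
  set s := s3 p q r q00 q00 q10 with hs
  set s' := s3 p q r q00 q10 q00 with hs'
  refine ⟨lam Φ 3 s s', ⟨lam_inv hΦ hA h m 3 s s', lam_add hΦ hA h m (by omega) s s'⟩, fun t ht => ?_,
    fun x hx hne hr t ht => ?_⟩
  · rw [val33u hΦ hA h hpq hqr ht (fun n h1 h2 h3 => by rw [a0 n h1 h2 h3, b0 n h1 h2 h3]),
      ap, aq, ar, bp, bq, br]
    exact v4
  · by_cases hc : ∀ n ∈ comps x, n = p ∨ n = q ∨ n = r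
    · exfalso
      have hr' : 3 ≤ x.rk := hr
      rcases comps3 hx (by omega) hc with ⟨p1, q1, r1, rfl, -⟩ | ⟨i, j, k, rfl, h1, h2, h4, h5, h6⟩
      · exact absurd hr' (by simp [Ix3.rk])
      · exact hne (by rw [show i = p by omega, show j = q by omega, show k = r by omega])
    · push Not at hc
      obtain ⟨n, hn, n1, n2, n3⟩ := hc
      exact lam_zero hΦ hA h hx ht s' hn (a0 n n1 n2 n3)

/-- the state with the value q10 on the component t, q00 on the other three components -/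
def s4 (i j k l t : ℕ) : ℕ → Sta := fun n => if n = t then q10 else if n = i ∨ n = j ∨ n = k ∨ n = l then q00 else none

omit hΦ hA h in
theorem s4_ne {i j k l t : ℕ} (ht : t = i ∨ t = j ∨ t = k ∨ t = l) {n : ℕ} (hn : s4 i j k l t n ≠ none) :
    n = i ∨ n = j ∨ n = k ∨ n = l := by
  by_contra hc
  refine hn ?_
  unfold s4
  rw [if_neg (by omega), if_neg (by omega)]

theorem Inv3_xy {m i j k l t0 : ℕ} (hij : i < j) (hjk : j < k) (hkl : k < l) (ht0 : t0 = j ∨ t0 = k) :
    ∃ L, Inv m 3 L ∧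
    (∀ t, G34 m i j k l t → L t = if t0 = j then V34 q00 q00 q00 q10 q00 q10 q00 q00 else
      V34 q00 q00 q00 q10 q00 q00 q10 q00) ∧
    (∀ t, G34 m i k j l t → L t = if t0 = k then V34 q00 q00 q00 q10 q00 q10 q00 q00 else
      V34 q00 q00 q00 q10 q00 q00 q10 q00) ∧
    ∀ x : Ix3, x.ok m → x ≠ .x i j k l → x ≠ .y i j k l → 4 ≤ x.rk → ∀ t, x.G m t → L t = 0 := by
  have hv : ∀ t n, (n = i ∨ n = j ∨ n = k ∨ n = l) → s4 i j k l t n = if n = t then q10 else q00 := by
    intro t n hn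
    unfold s4
    rw [if_pos hn]
  have hs : ∀ n, n ≠ i → n ≠ j → n ≠ k → n ≠ l → s4 i j k l l n = s4 i j k l t0 n := by
    intro n h1 h2 h3 h4
    unfold s4
    rw [if_neg (by omega), if_neg (by omega), if_neg (by omega)]
  refine ⟨lam Φ 3 (s4 i j k l l) (s4 i j k l t0), ⟨lam_inv hΦ hA h m 3 _ _, lam_add hΦ hA h m (by omega) _ _⟩,
    fun t ht => ?_, fun t ht => ?_, fun x hx hnx hny hr t ht => ?_⟩
  · rw [val34 hΦ hA h (by omega) (by omega) (by omega) (by omega) (by omega) (by omega) ht hs,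
      hv _ i (by omega), hv _ j (by omega), hv _ k (by omega), hv _ l (by omega), hv _ i (by omega), hv _ j (by omega),
      hv _ k (by omega), hv _ l (by omega), if_neg (by omega), if_neg (by omega), if_neg (by omega), if_pos rfl,
      if_neg (by omega)]
    rcases ht0 with rfl | rfl
    · rw [if_pos rfl, if_neg (by omega), if_neg (by omega), if_pos rfl]
    · rw [if_neg (by omega), if_pos rfl, if_neg (by omega), if_neg (by omega)]
  · rw [val34 hΦ hA h (by omega) (by omega) (by omega) (by omega) (by omega) (by omega) ht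
        (fun n h1 h2 h3 h4 => hs n h1 h3 h2 h4),
      hv _ i (by omega), hv _ j (by omega), hv _ k (by omega), hv _ l (by omega), hv _ i (by omega), hv _ j (by omega),
      hv _ k (by omega), hv _ l (by omega), if_neg (by omega), if_neg (by omega), if_neg (by omega), if_pos rfl,
      if_neg (by omega)]
    rcases ht0 with rfl | rfl
    · rw [if_neg (by omega), if_pos rfl, if_neg (by omega), if_neg (by omega)]
    · rw [if_pos rfl, if_neg (by omega), if_neg (by omega), if_pos rfl]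
  · by_contra hl
    have hc := lam_vis hΦ hA h hx ht _ hl
    rcases x with i' | ⟨i', j'⟩ | ⟨i', j'⟩ | ⟨p, q, q'⟩ | ⟨i', j', k'⟩ | ⟨i', j', k', l'⟩ | ⟨i', j', k', l'⟩
    · exact absurd hr (by simp [Ix3.rk])
    · exact absurd hr (by simp [Ix3.rk])
    · exact absurd hr (by simp [Ix3.rk])
    · exact absurd hr (by simp [Ix3.rk])
    · exact absurd hr (by simp [Ix3.rk])
    · have e1 := s4_ne (by omega) (hc i' (Or.inl rfl))
      have e2 := s4_ne (by omega) (hc j' (Or.inr (Or.inl rfl)))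
      have e3 := s4_ne (by omega) (hc k' (Or.inr (Or.inr (Or.inl rfl))))
      have e4 := s4_ne (by omega) (hc l' (Or.inr (Or.inr (Or.inr rfl))))
      have h3 : i' < j' := hx.1
      have h4 : j' < k' := hx.2.1
      have h5 : k' < l' := hx.2.2.1
      exact hnx (by rw [show i' = i by omega, show j' = j by omega, show k' = k by omega, show l' = l by omega])
    · have e1 := s4_ne (by omega) (hc i' (Or.inl rfl))
      have e2 := s4_ne (by omega) (hc j' (Or.inr (Or.inl rfl)))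
      have e3 := s4_ne (by omega) (hc k' (Or.inr (Or.inr (Or.inl rfl))))
      have e4 := s4_ne (by omega) (hc l' (Or.inr (Or.inr (Or.inr rfl))))
      have h3 : i' < j' := hx.1
      have h4 : j' < k' := hx.2.1
      have h5 : k' < l' := hx.2.2.1
      exact hny (by rw [show i' = i by omega, show j' = j by omega, show k' = k by omega, show l' = l by omega])

theorem Inv3_of (m : ℕ) : Inv3 m := by
  intro p hp
  obtain ⟨v1, v2, v3, v4⟩ := V32
  obtain ⟨w1, w2⟩ := V34_val
  rcases p with i | ⟨i, j⟩ | ⟨i, j⟩ | ⟨p, q, q'⟩ | ⟨i, j, k⟩ | ⟨i, j, k, l⟩ | ⟨i, j, k, l⟩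
  · exact Inv3_o hΦ hA h
  · obtain ⟨L, h1, h2, h3, h4⟩ := Inv3_ab hΦ hA h (m := m) hp.1 1 2
    refine ⟨L, h1, fun t ht => ?_, fun q hq hne hr t ht => ?_⟩
    · rw [h2 t ht, one_mul]
      exact v1
    · by_cases hb : q = .b i j
      · subst hb
        rw [h3 t ht, one_mul]
        exact v2
      · exact h4 q hq hne hb hr t ht
  · obtain ⟨L, h1, h2, h3, h4⟩ := Inv3_ab hΦ hA h (m := m) hp.1 2 1
    refine ⟨L, h1, fun t ht => ?_, fun q hq hne hr t ht => ?_⟩
    · rw [h3 t ht, one_mul]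
      exact v4
    · by_cases hb : q = .a i j
      · subst hb
        rw [h2 t ht, one_mul]
        exact v3
      · exact h4 q hq hb hne hr t ht
  · exact Inv3_v hΦ hA h hp.1 hp.2.2.2.1 hp.2.2.2.2
  · exact Inv3_u hΦ hA h hp.1 hp.2.1
  · obtain ⟨L, h1, h2, h3, h4⟩ := Inv3_xy hΦ hA h (m := m) (t0 := j) hp.1 hp.2.1 hp.2.2.1 (Or.inl rfl)
    refine ⟨L, h1, fun t ht => ?_, fun q hq hne hr t ht => ?_⟩
    · rw [h2 t ht, if_pos rfl]
      exact w1
    · by_cases hb : q = .y i j k l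
      · subst hb
        have hjk : j < k := hp.2.1
        rw [h3 t ht, if_neg (by omega)]
        exact w2
      · exact h4 q hq hne hb hr t ht
  · obtain ⟨L, h1, h2, h3, h4⟩ := Inv3_xy hΦ hA h (m := m) (t0 := k) hp.1 hp.2.1 hp.2.2.1 (Or.inr rfl)
    refine ⟨L, h1, fun t ht => ?_, fun q hq hne hr t ht => ?_⟩
    · rw [h3 t ht, if_pos rfl]
      exact w1
    · by_cases hb : q = .x i j k l
      · subst hb
        have hjk : j < k := hp.2.1
        rw [h2 t ht, if_neg (by omega)]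
        exact w2
      · exact h4 q hq hb hne hr t ht

end act

end W2

/-- there are enough invariants of degree 3 -/
theorem Inv3_all (m : ℕ) : Inv3 m := by
  have h : (1 + X : PowerSeries ℤ) * invOfUnit (1 + X) 1 = 1 := mul_invOfUnit _ _ (by simp)
  obtain ⟨Φ, hΦ⟩ := exists_actw (1 + X : PowerSeries ℤ) (invOfUnit (1 + X) 1) h
  exact W2.Inv3_of hΦ rfl h m

end SLC
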