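import Pool.Agent.SLC.Tri4
import Pool.Agent.SLC.TF3

/-!
String links, degree 3: the classes are generated by the generators of Ix3.
-/

set_option autoImplicit false

namespace SLC

open CSys

section

variable {m : ℕ} {G : Type} [Group G] {A : Type} [AddCommGroup A] {π : (sys m).Quo (3 + 1) G} {H : Subgroup G}
  {q : G → A} {r : List ℕ}

theorem cc3_conj (c : Br) : c * cc3 * c⁻¹ =
    cm (c * σ 2 ^ 2 * c⁻¹) (cm (c * σ 0 ^ 2 * c⁻¹) (c * σ 1 ^ 2 * c⁻¹)) := by
  rw [cm_conj, cm_conj, cc3, cc2]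

theorem Yf_rep (hq : Qm π H q) (hr : r.length = m) {c : Br} (hc : c ∈ BN (width r)) (h4 : 4 ≤ width r) {x y z w : ℕ}
    (h0 : perm c 0 = x) (h1 : perm c 1 = y) (h2 : perm c 2 = z) (h3 : perm c 3 = w) :
    q (th π r (c * cc3 * c⁻¹)) = Yf π q r z w x y z := by
  have inj : ∀ {a b : ℕ}, a ≠ b → perm c a ≠ perm c b := fun hab h => hab ((perm c).injective h)
  have n01 := inj (a := 0) (b := 1) (by omega)
  have n12 := inj (a := 1) (b := 2) (by omega)
  have n23 := inj (a := 2) (b := 3) (by omega)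
  have l0 := (perm_lt hc).1 0 (by omega)
  have l1 := (perm_lt hc).1 1 (by omega)
  have l2 := (perm_lt hc).1 2 (by omega)
  have l3 := (perm_lt hc).1 3 (by omega)
  rw [h0, h1] at n01
  rw [h1, h2] at n12
  rw [h2, h3] at n23
  rw [h0] at l0
  rw [h1] at l1
  rw [h2] at l2
  rw [h3] at l3
  rw [cc3_conj]
  exact tf_congr hq hr (PN_conj hc (sq_mem_PN (by omega))) (tau_rep' (i := 2) (by omega) hc ⟨l2, l3, n23⟩ (Or.inl ⟨h2, h3⟩))
    (PN_conj hc (sq_mem_PN (by omega))) (tau_rep ⟨l0, l1, n01⟩ hc (Or.inl ⟨h0, h1⟩))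
    (PN_conj hc (sq_mem_PN (by omega))) (tau_rep' (i := 1) (by omega) hc ⟨l1, l2, n12⟩ (Or.inl ⟨h1, h2⟩))

theorem Az.of_gen (hq : Qm π H q) {r' b : List ℕ} (hl : r'.length = b.length) (hb : b.length = m) {x y z w : ℕ}
    (hD : D4 (width b) x y z w)
    (h : ∀ c ∈ BN (width b), perm c 0 = x → perm c 1 = y → perm c 2 = z → perm c 3 = w →
      π.cls (cl b (c * cc3 * c⁻¹)) ∈ H) :
    Az (Yf π q (List.zipWith (· + ·) r' b)) (lpos r' b x) (lpos r' b y) (lpos r' b z) (lpos r' b w) := by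
  obtain ⟨h1, hw, h2, h3, h4⟩ := hD
  obtain ⟨c, hc, c0, c1, c2, c3⟩ := exists_four h1 hw h2 h3 h4
  obtain ⟨d, hd, hp, hcl⟩ := lev hl
  have hwb : width b ≤ width (List.zipWith (· + ·) r' b) := by
    have := width_add r' b hl
    omega
  have hN : 4 ≤ width b := by
    obtain ⟨a1, a2, a3, a4, a5, a6⟩ := h1
    omega
  have hlen : (List.zipWith (· + ·) r' b).length = m := by rw [List.length_zipWith, hl, min_self, hb]
  have hg : c * cc3 * c⁻¹ ∈ Gam 3 (width b) := Gam_conj hc (cc3_mem hN)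
  have e : d * c * cc3 * (d * c)⁻¹ = d * (c * cc3 * c⁻¹) * d⁻¹ := by group
  have hY := Yf_rep (c := d * c) hq hlen (mul_mem hd (BN_mono hwb hc)) (by omega) (x := lpos r' b x)
    (y := lpos r' b y) (z := lpos r' b z) (w := lpos r' b w)
    (by rw [map_mul, Equiv.Perm.mul_apply, c0, hp x h1.1])
    (by rw [map_mul, Equiv.Perm.mul_apply, c1, hp y h1.2.1])
    (by rw [map_mul, Equiv.Perm.mul_apply, c2, hp z h1.2.2.1])
    (by rw [map_mul, Equiv.Perm.mul_apply, c3, hp w hw])
  rw [Az, ← hY, e]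
  refine hq.of_mem _ (th_FF π hlen (Gam_conj hd (Gam_mono hwb hg))) ?_
  rw [th, hcl _ (Gam_le_PN hg)]
  exact h c hc c0 c1 c2 c3

theorem Can_of (hq : Qm π H q) (hr : r.length = m) (h3 : ∀ a ∈ r, 3 ≤ a)
    (hH : ∀ (p : Ix3) (t : Tangle), p.ok m → p.G m t → π.cls t ∈ H) : Can r (Yf π q r) := by
  subst hr
  have h1 : ∀ a ∈ r, 1 ≤ a := fun a ha => le_trans (by omega) (h3 a ha)
  have h2 : ∀ a ∈ r, 2 ≤ a := fun a ha => le_trans (by omega) (h3 a ha)
  have zero : ∃ r' : List ℕ, r'.length = (bz r.length).length ∧ List.zipWith (· + ·) r' (bz r.length) = r ∧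
      ∀ a, a < r.length → lpos r' (bz r.length) a = W r a := by
    obtain ⟨r', hl, hz⟩ := exists_sub (le_bz r)
    have hlen := bz_len r.length
    have hw := width_bz r.length
    refine ⟨r', hl, hz, fun a ha => ?_⟩
    have W0 := W_bz r.length a ha.le
    have W1 := W_bz r.length (a + 1) ha
    have e0 := lpos_W r' _ hl a (by omega) 0 (by omega)
    rw [hz, W0] at e0
    exact e0
  have one : ∀ i, i < r.length → ∃ r' : List ℕ, r'.length = (bu r.length i).length ∧
      List.zipWith (· + ·) r' (bu r.length i) = r ∧ lpos r' (bu r.length i) i = W r i ∧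
      lpos r' (bu r.length i) (i + 1) = W r i + 1 ∧
      ∀ j, j < r.length → j ≠ i → lpos r' (bu r.length i) (sh i j) = W r j := by
    intro i hi
    obtain ⟨r', hl, hz⟩ := exists_sub (le_bu r h1 i)
    have hlen := bu_len r.length i
    have hw := width_bu r.length i hi
    have W0 := W_bu r.length i hi i hi.le
    have W1 := W_bu r.length i hi (i + 1) hi
    rw [if_pos le_rfl] at W0
    rw [if_neg (by omega)] at W1
    have e0 := lpos_W r' _ hl i (by omega) 0 (by omega)
    have e1 := lpos_W r' _ hl i (by omega) 1 (by omega)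
    rw [hz, W0] at e0 e1
    refine ⟨r', hl, hz, e0, e1, fun j hj hji => ?_⟩
    have W2 := W_bu r.length i hi j hj.le
    have W3 := W_bu r.length i hi (j + 1) hj
    rw [sh]
    by_cases hlt : j < i
    · rw [if_pos (by omega)] at W2 W3
      have e2 := lpos_W r' _ hl j (by omega) 0 (by omega)
      rw [hz, W2] at e2
      rw [if_pos hlt]
      exact e2
    · rw [if_neg (by omega)] at W2 W3
      have e2 := lpos_W r' _ hl j (by omega) 0 (by omega)
      rw [hz, W2] at e2
      rw [if_neg hlt]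
      exact e2
  have two : ∀ i j, i ≤ j → j < r.length → ∃ r' : List ℕ, r'.length = (bb r.length i j).length ∧
      List.zipWith (· + ·) r' (bb r.length i j) = r ∧ lpos r' (bb r.length i j) i = W r i ∧
      lpos r' (bb r.length i j) (i + 1) = W r i + 1 ∧
      lpos r' (bb r.length i j) (j + 2) = (if i = j then W r i + 2 else W r j) ∧
      lpos r' (bb r.length i j) (j + 3) = (if i = j then W r i + 3 else W r j + 1) := by
    intro i j hij hj
    obtain ⟨r', hl, hz⟩ := exists_sub (le_bb r h2 i j)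
    have hlen := bb_len r.length i j
    have hw := width_bb r.length i j hij hj
    have W0 := W_bb r.length i j hij hj i (by omega)
    have W1 := W_bb r.length i j hij hj (i + 1) (by omega)
    have W2 := W_bb r.length i j hij hj j (by omega)
    have W3 := W_bb r.length i j hij hj (j + 1) (by omega)
    rw [if_pos le_rfl] at W0
    rw [if_neg (by omega)] at W1
    rw [if_neg (by omega), if_neg (by omega)] at W3
    have hW1 : i + 2 < W (bb r.length i j) (i + 1) := by
      rw [W1]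
      split_ifs <;> omega
    have e0 := lpos_W r' _ hl i (by omega) 0 (by omega)
    have e1 := lpos_W r' _ hl i (by omega) 1 (by omega)
    rw [hz, W0] at e0 e1
    refine ⟨r', hl, hz, e0, e1, ?_⟩
    rcases hij.eq_or_lt with rfl | hlt
    · rw [if_neg (by omega)] at W1
      have e2 := lpos_W r' _ hl i (by omega) 2 (by omega)
      have e3 := lpos_W r' _ hl i (by omega) 3 (by omega)
      rw [hz, W0] at e2 e3
      rw [if_pos rfl, if_pos rfl]
      exact ⟨e2, e3⟩
    · rw [if_neg (by omega), if_pos le_rfl] at W2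
      have e2 := lpos_W r' _ hl j (by omega) 0 (by omega)
      have e3 := lpos_W r' _ hl j (by omega) 1 (by omega)
      rw [hz, W2] at e2 e3
      rw [if_neg (by omega), if_neg (by omega)]
      exact ⟨e2, e3⟩
  constructor
  · intro i hi
    obtain ⟨r', hl, hz, e0, e1, e2, e3⟩ := two i i le_rfl hi
    have hw := width_bb r.length i i le_rfl hi
    rw [if_pos rfl] at e2 e3
    have h := Az.of_gen hq hl (bb_len _ _ _) (x := i) (y := i + 1) (z := i + 2) (w := i + 3) (by rw [hw]; omega)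
      (fun c hc c0 c1 c2 c3 => hH (.o i) _ hi ⟨c, by rwa [hw] at hc, c0, c1, c2, c3, by rw [cl_bb le_rfl hi]⟩)
    rw [hz, e0, e1, e2, e3] at h
    exact h
  · intro i j hij hj
    obtain ⟨r', hl, hz, e0, e1, e2, e3⟩ := two i j hij.le hj
    have hw := width_bb r.length i j hij.le hj
    rw [if_neg (by omega)] at e2 e3
    have h := Az.of_gen hq hl (bb_len _ _ _) (x := i) (y := i + 1) (z := j + 2) (w := j + 3) (by rw [hw]; omega)
      (fun c hc c0 c1 c2 c3 => hH (.a i j) _ ⟨hij, hj⟩ ⟨c, by rwa [hw] at hc, c0, c1, c2, c3, by rw [cl_bb hij.le hj]⟩)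
    rw [hz, e0, e1, e2, e3] at h
    exact h
  · intro i j hij hj
    obtain ⟨r', hl, hz, e0, e1, e2, e3⟩ := two i j hij.le hj
    have hw := width_bb r.length i j hij.le hj
    rw [if_neg (by omega)] at e2 e3
    have h := Az.of_gen hq hl (bb_len _ _ _) (x := i) (y := j + 2) (z := i + 1) (w := j + 3) (by rw [hw]; omega)
      (fun c hc c0 c1 c2 c3 => hH (.b i j) _ ⟨hij, hj⟩ ⟨c, by rwa [hw] at hc, c0, c1, c2, c3, by rw [cl_bb hij.le hj]⟩)
    rw [hz, e0, e1, e2, e3] at h
    exact h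
  · intro i j k hij hjk hk
    have hi : i < r.length := by omega
    obtain ⟨r', hl, hz, e0, e1, e2⟩ := one i hi
    have hw := width_bu r.length i hi
    have ej := e2 j (by omega) (by omega)
    have ek := e2 k (by omega) (by omega)
    rw [sh, if_neg (by omega)] at ej ek
    have h := Az.of_gen hq hl (bu_len _ _) (x := i) (y := i + 1) (z := j + 2) (w := k + 2) (by rw [hw]; omega)
      (fun c hc c0 c1 c2 c3 => hH (.u i j k) _ ⟨hij, hjk, hk⟩ ⟨c, by rwa [hw] at hc, c0, c1, c2, c3, by rw [cl_bu hi]⟩)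
    rw [hz, e0, e1, ej, ek] at h
    exact h
  · intro p s s' hss hs hp hps hps'
    obtain ⟨r', hl, hz, e0, e1, e2⟩ := one p hp
    have hw := width_bu r.length p hp
    have ej := e2 s (by omega) (by omega)
    have ek := e2 s' (by omega) (by omega)
    have hD : D4 (width (bu r.length p)) p (sh p s) (p + 1) (sh p s') := by
      rw [hw, sh, sh]
      split_ifs <;> omega
    have h := Az.of_gen hq hl (bu_len _ _) hD
      (fun c hc c0 c1 c2 c3 => hH (.v p s s') _ ⟨hss, hs, hp, hps, hps'⟩ ⟨c, by rwa [hw] at hc, c0, c1, c2, c3,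
        by rw [cl_bu hp]⟩)
    rw [hz, e0, e1, ej, ek] at h
    exact h
  · intro i j k l hij hjk hkl hlr
    obtain ⟨r', hl, hz, e⟩ := zero
    have hw := width_bz r.length
    have h := Az.of_gen hq hl (bz_len _) (x := i) (y := j) (z := k) (w := l) (by rw [hw]; omega)
      (fun c hc c0 c1 c2 c3 => hH (.x i j k l) _ ⟨hij, hjk, hkl, hlr⟩ ⟨c, by rwa [hw] at hc, c0, c1, c2, c3,
        by rw [cl_bz, one_mul, mul_one]⟩)
    rw [hz, e i (by omega), e j (by omega), e k (by omega), e l (by omega)] at h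
    exact h
  · intro i j k l hij hjk hkl hlr
    obtain ⟨r', hl, hz, e⟩ := zero
    have hw := width_bz r.length
    have h := Az.of_gen hq hl (bz_len _) (x := i) (y := k) (z := j) (w := l) (by rw [hw]; omega)
      (fun c hc c0 c1 c2 c3 => hH (.y i j k l) _ ⟨hij, hjk, hkl, hlr⟩ ⟨c, by rwa [hw] at hc, c0, c1, c2, c3,
        by rw [cl_bz, one_mul, mul_one]⟩)
    rw [hz, e i (by omega), e j (by omega), e k (by omega), e l (by omega)] at h
    exact h

/-- all classes of degree 3 vanish if all triple commutators of twists vanish -/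
theorem Gam3_zero (hq : Qm π H q) (hr : r.length = m)
    (hY : ∀ {a b x y z : ℕ}, D2 (width r) a b → D3 (width r) x y z → Yf π q r a b x y z = 0) {g : Br}
    (hg : g ∈ Gam 3 (width r)) : q (th π r g) = 0 := by
  have c13 : ∀ {u x : Br}, u ∈ PN (width r) → x ∈ Gam 2 (width r) → cm u x ∈ Gam 3 (width r) :=
    fun hu hx => Gam_cm (i := 1) (j := 2) le_rfl (by omega) hu hx
  have c1 : ∀ x : Br, cm 1 x = 1 := by intro x; unfold cm; group
  have c2 : ∀ x : Br, cm x 1 = 1 := by intro x; unfold cm; group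
  have l1 : ∀ {u u' x : Br}, u ∈ PN (width r) → u' ∈ PN (width r) → x ∈ Gam 2 (width r) →
      q (th π r (cm (u * u') x)) = q (th π r (cm u x)) + q (th π r (cm u' x)) := by
    intro u u' x hu hu' hx
    rw [← hq.mul (by omega) hr (c13 hu hx) (c13 hu' hx)]
    exact Qm.eqm (by omega) hr (c13 (mul_mem hu hu') hx) (cm_add_left hu hu' hx)
  have l2 : ∀ {u x x' : Br}, u ∈ PN (width r) → x ∈ Gam 2 (width r) → x' ∈ Gam 2 (width r) →
      q (th π r (cm u (x * x'))) = q (th π r (cm u x)) + q (th π r (cm u x')) := by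
    intro u x x' hu hx hx'
    rw [← hq.mul (by omega) hr (c13 hu hx) (c13 hu hx')]
    exact Qm.eqm (by omega) hr (c13 hu (mul_mem hx hx')) (cm_add_right hu hx hx')
  -- the second argument
  have s2 : ∀ {u : Br}, u ∈ PN (width r) →
      (∀ c ∈ BN (width r), 3 ≤ width r → q (th π r (cm u (c * cc2 * c⁻¹))) = 0) →
      ∀ x ∈ Gam 2 (width r), q (th π r (cm u x)) = 0 := by
    intro u hu h x hx
    let L : Subgroup Br := {
      carrier := {x | x ∈ Gam 2 (width r) ∧ q (th π r (cm u x)) = 0}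
      one_mem' := ⟨one_mem _, by rw [c2]; exact hq.low hr (one_mem _)⟩
      mul_mem' := by
        rintro a b ⟨ha, ha'⟩ ⟨hb, hb'⟩
        exact ⟨mul_mem ha hb, by rw [l2 hu ha hb, ha', hb', add_zero]⟩
      inv_mem' := by
        rintro a ⟨ha, ha'⟩
        refine ⟨inv_mem ha, ?_⟩
        have h := l2 hu ha (inv_mem ha)
        rw [mul_inv_cancel, c2, hq.low hr (one_mem _), ha', zero_add] at h
        exact h.symm }
    have hL : N2 (width r) ≤ L := by
      refine sup_le ((Subgroup.closure_le _).2 ?_) ?_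
      · rintro _ ⟨c, hc, hn, rfl⟩
        exact ⟨Gam_conj hc (cc2_mem hn), h c hc hn⟩
      · intro y hy
        exact ⟨Gam_anti (by omega) hy, hq.low hr (Gam_cm (i := 1) (j := 3) le_rfl (by omega) hu hy)⟩
    exact (hL (Gam2_gen hx)).2
  -- the first argument
  have s1 : ∀ {u : Br}, u ∈ PN (width r) → ∀ x ∈ Gam 2 (width r), q (th π r (cm u x)) = 0 := by
    intro u hu x hx
    let K : Subgroup Br := {
      carrier := {u | u ∈ PN (width r) ∧ q (th π r (cm u x)) = 0}
      one_mem' := ⟨one_mem _, by rw [c1]; exact hq.low hr (one_mem _)⟩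
      mul_mem' := by
        rintro a b ⟨ha, ha'⟩ ⟨hb, hb'⟩
        exact ⟨mul_mem ha hb, by rw [l1 ha hb hx, ha', hb', add_zero]⟩
      inv_mem' := by
        rintro a ⟨ha, ha'⟩
        refine ⟨inv_mem ha, ?_⟩
        have h := l1 ha (inv_mem ha) hx
        rw [mul_inv_cancel, c1, hq.low hr (one_mem _), ha', zero_add] at h
        exact h.symm }
    have hK : Subgroup.closure {x | ∃ c ∈ BN (width r), 2 ≤ width r ∧ x = c * σ 0 ^ 2 * c⁻¹} ≤ K := by
      refine (Subgroup.closure_le _).2 ?_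
      rintro _ ⟨c, hc, hn, rfl⟩
      have hp : c * σ 0 ^ 2 * c⁻¹ ∈ PN (width r) := PN_conj hc (sq_mem_PN (by omega))
      refine ⟨hp, s2 hp (fun c' hc' h3 => ?_) x hx⟩
      have inj : ∀ {d : Br} {a b : ℕ}, a ≠ b → perm d a ≠ perm d b := fun {d} _ _ hab h => hab ((perm d).injective h)
      have l0 := (perm_lt hc).1 0 (by omega)
      have l1 := (perm_lt hc).1 1 (by omega)
      have k0 := (perm_lt hc').1 0 (by omega)
      have k1 := (perm_lt hc').1 1 (by omega)
      have k2 := (perm_lt hc').1 2 (by omega)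
      have d0 : D2 (width r) (perm c 0) (perm c 1) := ⟨l0, l1, inj (by omega)⟩
      have d1 : D3 (width r) (perm c' 0) (perm c' 1) (perm c' 2) :=
        ⟨k0, k1, k2, inj (by omega), inj (by omega), inj (by omega)⟩
      rw [cc2, ← cm_conj, ← hY d0 d1]
      exact tf_congr hq hr hp (tau_rep d0 hc (Or.inl ⟨rfl, rfl⟩))
        (PN_conj hc' (sq_mem_PN (by omega))) (tau_rep ⟨k0, k1, inj (by omega)⟩ hc' (Or.inl ⟨rfl, rfl⟩))
        (PN_conj hc' (sq_mem_PN (by omega))) (tau_rep' (i := 1) (by omega) hc' ⟨k1, k2, inj (by omega)⟩ (Or.inl ⟨rfl, rfl⟩))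
    exact (hK (PN_gen0 hu)).2
  let M : Subgroup Br := {
    carrier := {g | g ∈ Gam 3 (width r) ∧ q (th π r g) = 0}
    one_mem' := ⟨one_mem _, hq.low hr (one_mem _)⟩
    mul_mem' := by
      rintro a b ⟨ha, ha'⟩ ⟨hb, hb'⟩
      exact ⟨mul_mem ha hb, by rw [hq.mul (by omega) hr ha hb, ha', hb', add_zero]⟩
    inv_mem' := by
      rintro a ⟨ha, ha'⟩
      exact ⟨inv_mem ha, by rw [hq.inv (by omega) hr ha, ha', neg_zero]⟩ }
  have hM : ⁅Gam 2 (width r), PN (width r)⁆ ≤ M := by
    rw [Subgroup.commutator_le]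
    intro x hx p hp
    have h1 := c13 hp hx
    have e : x * p * x⁻¹ * p⁻¹ = (cm p x)⁻¹ := by
      unfold cm
      group
    change x * p * x⁻¹ * p⁻¹ ∈ M
    rw [e]
    exact inv_mem (show cm p x ∈ M from ⟨h1, s1 hp x hx⟩)
  rw [Gam_succ (k := 2) (by omega)] at hg
  exact (hM hg).2

end

theorem th_mem_of_pos' {m : ℕ} {G : Type} [Group G] {k : ℕ} (a : ℕ) (hk : 1 ≤ k) (π : (sys m).Quo (k + 1) G)
    (H : Subgroup G)
    (h : ∀ r : List ℕ, r.length = m → (∀ b ∈ r, a ≤ b) → ∀ g ∈ Gam k (width r), th π r g ∈ H) {x : Tangle}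
    (hx : (sys m).IsCl x) (hx1 : (sys m).Ceq k x 1) : π.cls x ∈ H := by
  have h1 := (π.mem_FF_iff (by omega) hk (by omega) hx).2 hx1
  refine (Subgroup.closure_le _).2 ?_ h1
  rintro _ ⟨⟨r, hr⟩, b, ha, rfl⟩
  let b : PN (width r) := b
  have ha' : (b : Br) ∈ Gam k (width r) := (mem_Gm_iff (n := width r) b).1 ha
  obtain ⟨d, hd, _, hcl⟩ := lev (r' := List.replicate m a) (b := r) (by rw [List.length_replicate, hr])
  have hlen : (List.zipWith (· + ·) (List.replicate m a) r).length = m := by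
    rw [List.length_zipWith, List.length_replicate, hr, min_self]
  have hw : width r ≤ width (List.zipWith (· + ·) (List.replicate m a) r) := by
    have := width_add (List.replicate m a) r (by rw [List.length_replicate, hr])
    omega
  have h2 := h _ hlen (by
    intro c hc
    obtain ⟨i, hi, rfl⟩ := List.getElem_of_mem hc
    rw [List.getElem_zipWith, List.getElem_replicate]
    omega) _ (Gam_conj hd (Gam_mono hw ha'))
  rw [th, hcl _ (Gam_le_PN ha')] at h2
  exact h2

theorem gen3 (m : ℕ) : Gen3 m := by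
  intro G _ π x hx hx1
  obtain ⟨A, _, q, hq⟩ := exists_Qm (by omega) π
    (Subgroup.closure {g | ∃ (p : Ix3) (t : Tangle), p.ok m ∧ p.G m t ∧ g = π.cls t})
  refine th_mem_of_pos' 3 (by omega) π _ (fun r hr h3 g hg => ?_) hx hx1
  refine hq.ker _ (th_FF π hr hg) (Gam3_zero hq hr (fun hab h => ?_) hg)
  exact Y_all (Yf_TriY hq hr) h3 (Can_of hq hr h3 (fun p t hp ht => Subgroup.subset_closure ⟨p, t, hp, ht, rfl⟩)) hab h

end SLC
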