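import Pool.Agent.SLC.TF3
import Pool.Agent.SLC.Red4
import Pool.Agent.SLC.Inv3

/-!
String links: C_d-equivalence and finite type invariants of degree < d, for d <= 9.
-/

set_option autoImplicit false

namespace SLC

theorem main_nine (m d : ℕ) (hd : 1 ≤ d) (hd9 : d ≤ 9) (x y : Tangle) (hx : IsStringLink m x)
    (hy : IsStringLink m y) :
    CEquiv m d x y ↔ ∀ (A : Type) [AddCommGroup A] (v : Tangle → A), FiniteType m d v → v x = v y :=
  main9 (Inv3_all m) (gen3 m) d hd hd9 x y hx hy

end SLC
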