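import Pool.Agent.SLC.Gen1

/-!
Forgetting components: marks of the strands, restriction of braids to the kept strands.
-/

set_option autoImplicit false

namespace SLC

/-- number of kept strands among the first n -/
def cnt (s : ℕ → Bool) : ℕ → ℕ
  | 0 => 0
  | n + 1 => cnt s n + (if s n = true then 1 else 0)

/-- marks on the other side of the crossing of the strands i, i + 1 -/
def swm (i : ℕ) (s : ℕ → Bool) : ℕ → Bool := fun k => s (Equiv.swap i (i + 1) k)

/-- marks at the top of the braid g, for the marks s at the bottom -/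
def mk (g : Br) (s : ℕ → Bool) : ℕ → Bool := fun k => s (perm g⁻¹ k)

/-- marks of the strands of the level: the block number j has the mark c j -/
def spread : List ℕ → (ℕ → Bool) → ℕ → Bool
  | [], c => c
  | a :: r, c => fun x => if x < 2 * a + 1 then c 0 else spread r (fun j => c (j + 1)) (x - (2 * a + 1))

/-- the kept blocks -/
def keep : List ℕ → (ℕ → Bool) → List ℕ
  | [], _ => []
  | a :: r, c => if c 0 = true then a :: keep r (fun j => c (j + 1)) else keep r (fun j => c (j + 1))

theorem swm_swm (i : ℕ) (s : ℕ → Bool) : swm i (swm i s) = s := by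
  funext k
  simp [swm]

theorem swm_i (i : ℕ) (s : ℕ → Bool) : swm i s i = s (i + 1) := by simp [swm]
theorem swm_i1 (i : ℕ) (s : ℕ → Bool) : swm i s (i + 1) = s i := by simp [swm]
theorem swm_ne {i k : ℕ} (s : ℕ → Bool) (h : k ≠ i) (h' : k ≠ i + 1) : swm i s k = s k := by
  simp [swm, Equiv.swap_apply_of_ne_of_ne h h']

theorem cnt_congr {s s' : ℕ → Bool} {n : ℕ} (h : ∀ k < n, s k = s' k) : cnt s n = cnt s' n := by
  induction n with
  | zero => rfl
  | succ n ih => rw [cnt, cnt, ih fun k hk => h k (by omega), h n (by omega)]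

theorem cnt_swm_le {i k : ℕ} (s : ℕ → Bool) (h : k ≤ i) : cnt (swm i s) k = cnt s k :=
  cnt_congr fun j hj => swm_ne s (by omega) (by omega)

theorem cnt_swm_ge {i k : ℕ} (s : ℕ → Bool) (h : i + 2 ≤ k) : cnt (swm i s) k = cnt s k := by
  induction k, h using Nat.le_induction with
  | base =>
    rw [cnt, cnt, cnt, cnt, cnt_swm_le s le_rfl, swm_i, swm_i1]
    omega
  | succ k hk ih => rw [cnt, cnt, ih, swm_ne s (by omega) (by omega)]

theorem cnt_mono (s : ℕ → Bool) {m n : ℕ} (h : m ≤ n) : cnt s m ≤ cnt s n := by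
  induction n, h using Nat.le_induction with
  | base => exact le_rfl
  | succ n hn ih => rw [cnt]; omega

theorem cnt_two {s : ℕ → Bool} {i : ℕ} (h1 : s i = true) (h2 : s (i + 1) = true) : cnt s (i + 2) = cnt s i + 2 := by
  rw [cnt, cnt, if_pos h1, if_pos h2]

/-- restriction of the crossing -/
def rsg (i : ℕ) (s : ℕ → Bool) : Br := if s i = true ∧ s (i + 1) = true then σ (cnt s i) else 1

theorem rsg_swm (i : ℕ) (s : ℕ → Bool) : rsg i (swm i s) = rsg i s := by
  rw [rsg, rsg, swm_i, swm_i1, cnt_swm_le s le_rfl]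
  exact if_congr and_comm rfl rfl

/-- the action of the crossing on pairs (marks, braid) -/
def rsE (i : ℕ) : Equiv.Perm ((ℕ → Bool) × Br) where
  toFun p := (swm i p.1, rsg i p.1 * p.2)
  invFun p := (swm i p.1, (rsg i p.1)⁻¹ * p.2)
  left_inv p := by
    ext1
    · exact swm_swm i p.1
    · change (rsg i (swm i p.1))⁻¹ * (rsg i p.1 * p.2) = p.2
      rw [rsg_swm, inv_mul_cancel_left]
  right_inv p := by
    ext1
    · exact swm_swm i p.1
    · change rsg i (swm i p.1) * ((rsg i p.1)⁻¹ * p.2) = p.2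
      rw [rsg_swm, mul_inv_cancel_left]

theorem rsE_apply (i : ℕ) (p : (ℕ → Bool) × Br) : rsE i p = (swm i p.1, rsg i p.1 * p.2) := rfl

theorem swm_comm {i k : ℕ} (h : i + 2 ≤ k) (s : ℕ → Bool) : swm i (swm k s) = swm k (swm i s) := by
  funext j
  have := congrArg (fun e : Equiv.Perm ℕ => s (e j)) (swap_far i k h)
  simpa [swm, Equiv.Perm.mul_apply] using this.symm

theorem swm_braid (i : ℕ) (s : ℕ → Bool) : swm i (swm (i + 1) (swm i s)) = swm (i + 1) (swm i (swm (i + 1) s)) := by
  funext j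
  have := congrArg (fun e : Equiv.Perm ℕ => s (e j)) (swap_braid i)
  simpa [swm, Equiv.Perm.mul_apply] using this

theorem rsE_far (i k : ℕ) (h : i + 2 ≤ k) : rsE i * rsE k = rsE k * rsE i := by
  refine Equiv.ext fun p => ?_
  obtain ⟨s, g⟩ := p
  rw [Equiv.Perm.mul_apply, Equiv.Perm.mul_apply, rsE_apply, rsE_apply, rsE_apply, rsE_apply]
  refine Prod.ext (swm_comm h s) ?_
  change rsg i (swm k s) * (rsg k s * g) = rsg k (swm i s) * (rsg i s * g)
  have e1 : rsg i (swm k s) = rsg i s := by
    rw [rsg, rsg, swm_ne s (by omega) (by omega), swm_ne s (by omega) (by omega), cnt_swm_le s (by omega)]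
  have e2 : rsg k (swm i s) = rsg k s := by
    rw [rsg, rsg, swm_ne s (by omega) (by omega), swm_ne s (by omega) (by omega), cnt_swm_ge s (by omega)]
  rw [e1, e2, ← mul_assoc, ← mul_assoc]
  congr 1
  rw [rsg, rsg]
  split_ifs with h1 h2
  · exact σ_far (by
      have := cnt_mono s h
      rw [cnt_two h1.1 h1.2] at this
      exact this)
  · simp
  · simp
  · simp

theorem rsE_braid (i : ℕ) : rsE i * rsE (i + 1) * rsE i = rsE (i + 1) * rsE i * rsE (i + 1) := by
  refine Equiv.ext fun p => ?_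
  obtain ⟨s, g⟩ := p
  simp only [Equiv.Perm.mul_apply, rsE_apply]
  refine Prod.ext (swm_braid i s) ?_
  change rsg i (swm (i + 1) (swm i s)) * (rsg (i + 1) (swm i s) * (rsg i s * g)) =
    rsg (i + 1) (swm i (swm (i + 1) s)) * (rsg i (swm (i + 1) s) * (rsg (i + 1) s * g))
  simp only [← mul_assoc]
  congr 1
  have c1 : cnt (swm (i + 1) (swm i s)) i = cnt s i := by rw [cnt_swm_le _ (by omega), cnt_swm_le _ le_rfl]
  have c2 : cnt (swm (i + 1) s) i = cnt s i := cnt_swm_le s (by omega)
  have c3 : cnt (swm i s) (i + 1) = cnt s i + (if s (i + 1) = true then 1 else 0) := by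
    rw [cnt, cnt_swm_le s le_rfl, swm_i]
  have c4 : cnt (swm i (swm (i + 1) s)) (i + 1) = cnt s i + (if s (i + 2) = true then 1 else 0) := by
    rw [cnt, cnt_swm_le _ le_rfl, swm_i, c2, swm_i (i + 1)]
  have c5 : cnt s (i + 1) = cnt s i + (if s i = true then 1 else 0) := rfl
  have a1 : swm (i + 1) (swm i s) i = s (i + 1) := by rw [swm_ne _ (by omega) (by omega), swm_i]
  have a2 : swm (i + 1) (swm i s) (i + 1) = s (i + 2) := by rw [swm_i, swm_ne _ (by omega) (by omega)]
  have a3 : swm i s (i + 1) = s i := swm_i1 i s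
  have a4 : swm i s (i + 1 + 1) = s (i + 2) := swm_ne s (by omega) (by omega)
  have a5 : swm i (swm (i + 1) s) (i + 1) = s i := by rw [swm_i1, swm_ne _ (by omega) (by omega)]
  have a6 : swm i (swm (i + 1) s) (i + 1 + 1) = s (i + 1) := by rw [swm_ne _ (by omega) (by omega), swm_i1]
  have a7 : swm (i + 1) s i = s i := swm_ne s (by omega) (by omega)
  have a8 : swm (i + 1) s (i + 1) = s (i + 2) := swm_i (i + 1) s
  simp only [rsg, c1, c2, c3, c4, c5, a1, a2, a3, a4, a5, a6, a7, a8]
  have e : s (i + 1 + 1) = s (i + 2) := rfl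
  rw [e]
  cases h1 : s i <;> cases h2 : s (i + 1) <;> cases h3 : s (i + 2) <;> simp
  exact σ_braid (cnt s i)

/-- the action of braids on pairs (marks, braid) -/
def resH : Br →* Equiv.Perm ((ℕ → Bool) × Br) := PresentedGroup.toGroup (lift_rel rsE rsE_far rsE_braid)

theorem resH_σ (i : ℕ) : resH (σ i) = rsE i := PresentedGroup.toGroup.of _

/-- restriction of the braid g to the strands with the mark true, for the marks s at the bottom -/
def res (g : Br) (s : ℕ → Bool) : Br := (resH g (s, 1)).2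

theorem mk_one (s : ℕ → Bool) : mk 1 s = s := by
  funext k
  simp [mk]

theorem mk_mul (g h : Br) (s : ℕ → Bool) : mk (g * h) s = mk g (mk h s) := by
  funext k
  simp [mk, Equiv.Perm.mul_apply]

theorem mk_σ (i : ℕ) (s : ℕ → Bool) : mk (σ i) s = swm i s := by
  funext k
  simp only [mk, swm, map_inv, perm_σ, Equiv.swap_inv]

/-- the properties which determine the restriction -/
theorem resH_spec (g : Br) : ∀ p, resH g p = (mk g p.1, res g p.1 * p.2) := by
  have key : ∀ g : Br, (∀ p, resH g p = (mk g p.1, res g p.1 * p.2)) → ∀ p, resH g⁻¹ p = (mk g⁻¹ p.1, res g⁻¹ p.1 * p.2) := by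
    intro g hg p
    have h1 : ∀ p : (ℕ → Bool) × Br, resH g⁻¹ p = (mk g⁻¹ p.1, (res g (mk g⁻¹ p.1))⁻¹ * p.2) := by
      intro p
      rw [map_inv, Equiv.Perm.inv_eq_iff_eq, hg]
      refine Prod.ext ?_ ?_
      · change p.1 = mk g (mk g⁻¹ p.1)
        rw [← mk_mul, mul_inv_cancel, mk_one]
      · change p.2 = res g (mk g⁻¹ p.1) * ((res g (mk g⁻¹ p.1))⁻¹ * p.2)
        rw [mul_inv_cancel_left]
    have h2 : res g⁻¹ p.1 = (res g (mk g⁻¹ p.1))⁻¹ := by
      rw [res, h1]
      change (res g (mk g⁻¹ p.1))⁻¹ * 1 = _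
      rw [mul_one]
    rw [h1, h2]
  have hg : g ∈ Subgroup.closure (Set.range σ) := by
    have : Subgroup.closure (Set.range σ) = ⊤ := PresentedGroup.closure_range_of braidRels
    rw [this]
    trivial
  induction hg using Subgroup.closure_induction with
  | mem x hx =>
    obtain ⟨i, rfl⟩ := hx
    intro p
    rw [res, resH_σ, rsE_apply, rsE_apply, mk_σ, mul_one]
  | one =>
    intro p
    rw [res, map_one, mk_one]
    simp
  | mul x y _ _ hx hy =>
    intro p
    have h1 : ∀ p : (ℕ → Bool) × Br, resH (x * y) p = (mk (x * y) p.1, res x (mk y p.1) * res y p.1 * p.2) := by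
      intro p
      rw [map_mul, Equiv.Perm.mul_apply, hy, hx, mk_mul, mul_assoc]
    have h2 : res (x * y) p.1 = res x (mk y p.1) * res y p.1 := by
      rw [res, h1, mul_one]
    rw [h1, h2]
  | inv x _ hx => exact key x hx

theorem res_mul (g h : Br) (s : ℕ → Bool) : res (g * h) s = res g (mk h s) * res h s := by
  rw [res, map_mul, Equiv.Perm.mul_apply, resH_spec h, resH_spec g]
  change res g (mk h s) * (res h s * 1) = _
  rw [mul_one]

theorem res_one (s : ℕ → Bool) : res 1 s = 1 := by
  rw [res, map_one]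
  rfl

theorem res_inv (g : Br) (s : ℕ → Bool) : res g⁻¹ s = (res g (mk g⁻¹ s))⁻¹ := by
  have h := res_mul g g⁻¹ s
  rw [mul_inv_cancel, res_one] at h
  exact (inv_eq_of_mul_eq_one_right h.symm).symm

theorem res_σ (i : ℕ) (s : ℕ → Bool) : res (σ i) s = rsg i s := by
  rw [res, resH_σ, rsE_apply, mul_one]

end SLC
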