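import Pool.Agent.SLC.Fo0

/-!
Forgetting components: the action of tangles on functions of the marks.
-/

set_option autoImplicit false

namespace SLC

section marks

/-- remove the strands i, i + 1 -/
def dlm (i : ℕ) (s : ℕ → Bool) : ℕ → Bool := fun k => if k < i then s k else s (k + 2)

/-- insert two strands with the mark z at i, i + 1 -/
def inm (i : ℕ) (s : ℕ → Bool) (z : Bool) : ℕ → Bool := fun k => if k < i then s k else if k < i + 2 then z else s (k - 2)

theorem inm_lt {i k : ℕ} (s : ℕ → Bool) (z : Bool) (h : k < i) : inm i s z k = s k := by simp [inm, h]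
theorem inm_i (i : ℕ) (s : ℕ → Bool) (z : Bool) : inm i s z i = z := by simp [inm]
theorem inm_i1 (i : ℕ) (s : ℕ → Bool) (z : Bool) : inm i s z (i + 1) = z := by simp [inm]
theorem inm_ge {i k : ℕ} (s : ℕ → Bool) (z : Bool) (h : i ≤ k) : inm i s z (k + 2) = s k := by
  have h1 : ¬ k + 2 < i := by omega
  have h2 : ¬ k + 2 < i + 2 := by omega
  simp [inm, h1, h2]
theorem dlm_lt {i k : ℕ} (s : ℕ → Bool) (h : k < i) : dlm i s k = s k := by simp [dlm, h]
theorem dlm_ge {i k : ℕ} (s : ℕ → Bool) (h : i ≤ k) : dlm i s k = s (k + 2) := by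
  have h1 : ¬ k < i := by omega
  simp [dlm, h1]

theorem cnt_inm_le {i k : ℕ} (s : ℕ → Bool) (z : Bool) (h : k ≤ i) : cnt (inm i s z) k = cnt s k :=
  cnt_congr fun j hj => inm_lt s z (by omega)
theorem cnt_inm_1 (i : ℕ) (s : ℕ → Bool) (z : Bool) : cnt (inm i s z) (i + 1) = cnt s i + (if z = true then 1 else 0) := by
  rw [cnt, cnt_inm_le s z le_rfl, inm_i]
theorem cnt_inm_ge {i k : ℕ} (s : ℕ → Bool) (z : Bool) (h : i ≤ k) :
    cnt (inm i s z) (k + 2) = cnt s k + (if z = true then 2 else 0) := by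
  induction k, h using Nat.le_induction with
  | base =>
    rw [cnt, cnt_inm_1, inm_i1]
    split_ifs <;> omega
  | succ k hk ih =>
    have e : k + 1 + 2 = k + 2 + 1 := by omega
    rw [e, cnt, ih, inm_ge s z hk, cnt]
    omega
theorem cnt_dlm_le {i k : ℕ} (s : ℕ → Bool) (h : k ≤ i) : cnt (dlm i s) k = cnt s k :=
  cnt_congr fun j hj => dlm_lt s (by omega)
theorem cnt_dlm_ge {i k : ℕ} (s : ℕ → Bool) (h : i ≤ k) (e : s i = s (i + 1)) :
    cnt s (k + 2) = cnt (dlm i s) k + (if s i = true then 2 else 0) := by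
  induction k, h using Nat.le_induction with
  | base =>
    rw [cnt, cnt, cnt_dlm_le s le_rfl, ← e]
    split_ifs <;> omega
  | succ k hk ih =>
    have e : k + 1 + 2 = k + 2 + 1 := by omega
    rw [e, cnt, ih, cnt, dlm_ge s hk]
    omega

theorem cnt_lt {s : ℕ → Bool} {i k : ℕ} (h : i + 2 ≤ k) (h1 : s i = true) (h2 : s (i + 1) = true) :
    cnt s i + 2 ≤ cnt s k := by
  have := cnt_mono s h
  rwa [cnt_two h1 h2] at this

theorem dlm_swm (i : ℕ) (s : ℕ → Bool) (h : s i = s (i + 1)) : swm i s = s := by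
  funext k
  by_cases h1 : k = i
  · rw [h1, swm_i, h]
  · by_cases h2 : k = i + 1
    · rw [h2, swm_i1, h]
    · rw [swm_ne s h1 h2]

theorem swm_inm (i : ℕ) (s : ℕ → Bool) (z : Bool) : swm i (inm i s z) = inm i s z :=
  dlm_swm i _ (by rw [inm_i, inm_i1])

theorem mzig (i : ℕ) (s : ℕ → Bool) : dlm i (inm (i + 1) s (s i)) = s := by
  funext k
  simp only [dlm, inm]
  split_ifs with h1 h2 h3 h4 h5 <;> first | rfl | omega | (congr 1; omega)
theorem mzag (i : ℕ) (s : ℕ → Bool) : dlm (i + 1) (inm i s (s i)) = s := by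
  funext k
  simp only [dlm, inm]
  split_ifs with h1 h2 h3 h4 h5 <;> first | rfl | omega | (congr 1; omega)

theorem mslc (i : ℕ) (s : ℕ → Bool) : dlm i (swm (i + 1) s) = dlm (i + 1) (swm i s) := by
  funext k
  rcases Nat.lt_trichotomy k i with h | h | h
  · rw [dlm_lt _ h, dlm_lt _ (by omega), swm_ne s (by omega) (by omega), swm_ne s (by omega) (by omega)]
  · subst h
    rw [dlm_ge _ le_rfl, dlm_lt _ (by omega), swm_i, swm_i1 (k + 1)]
  · rw [dlm_ge _ (by omega), dlm_ge _ (by omega), swm_ne s (by omega) (by omega), swm_ne s (by omega) (by omega)]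

theorem mslu (i : ℕ) (s : ℕ → Bool) (z : Bool) : swm (i + 1) (inm i s z) = swm i (inm (i + 1) s z) := by
  funext k
  rcases Nat.lt_trichotomy k i with h | h | h
  · rw [swm_ne _ (by omega) (by omega), swm_ne _ (by omega) (by omega), inm_lt _ _ h, inm_lt _ _ (by omega)]
  · subst h
    rw [swm_ne _ (by omega) (by omega), swm_i, inm_i, inm_i]
  · rcases Nat.lt_trichotomy k (i + 1) with h' | h' | h'
    · omega
    · subst h'
      rw [swm_i, swm_i1]
      change inm i s z (i + 2) = _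
      rw [inm_ge s z le_rfl, inm_lt _ _ (Nat.lt_succ_self i)]
    · rcases Nat.lt_trichotomy k (i + 2) with h2 | h2 | h2
      · omega
      · subst h2
        rw [swm_i1 (i + 1), swm_ne _ (by omega) (by omega), inm_i1, inm_i1 (i + 1)]
      · obtain ⟨j, rfl⟩ : ∃ j, k = j + 2 := ⟨k - 2, by omega⟩
        rw [swm_ne _ (by omega) (by omega), swm_ne _ (by omega) (by omega), inm_ge s z (by omega), inm_ge s z (by omega)]

theorem msu_r {i k : ℕ} (h : i ≤ k) (s : ℕ → Bool) (z : Bool) : swm (k + 2) (inm i s z) = inm i (swm k s) z := by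
  funext j
  rcases Nat.lt_or_ge j i with h1 | h1
  · rw [swm_ne _ (by omega) (by omega), inm_lt _ _ h1, inm_lt _ _ h1, swm_ne _ (by omega) (by omega)]
  rcases Nat.lt_or_ge j (i + 2) with h2 | h2
  · rw [swm_ne _ (by omega) (by omega)]
    simp [inm, h2, Nat.not_lt.2 h1]
  · obtain ⟨j, rfl⟩ : ∃ l, j = l + 2 := ⟨j - 2, by omega⟩
    rw [inm_ge _ _ (by omega)]
    by_cases e1 : j = k
    · subst e1
      have e : j + 2 + 1 = j + 1 + 2 := by omega
      rw [swm_i, swm_i, e, inm_ge _ _ (by omega)]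
    · by_cases e2 : j = k + 1
      · subst e2
        have e : k + 1 + 2 = k + 2 + 1 := by omega
        rw [e, swm_i1, swm_i1, inm_ge _ _ (by omega)]
      · rw [swm_ne _ (by omega) (by omega), swm_ne _ (by omega) (by omega), inm_ge _ _ (by omega)]
theorem msu_l {i k : ℕ} (h : k + 2 ≤ i) (s : ℕ → Bool) (z : Bool) : swm k (inm i s z) = inm i (swm k s) z := by
  funext j
  by_cases e1 : j = k
  · subst e1
    rw [swm_i, inm_lt _ _ (by omega), inm_lt _ _ (by omega), swm_i]
  by_cases e2 : j = k + 1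
  · subst e2
    rw [swm_i1, inm_lt _ _ (by omega), inm_lt _ _ (by omega), swm_i1]
  rw [swm_ne _ e1 e2]
  simp only [inm]
  split_ifs with h1 h2
  · rw [swm_ne _ e1 e2]
  · rfl
  · rw [swm_ne _ (by omega) (by omega)]
theorem mcs_r {i k : ℕ} (h : i ≤ k) (s : ℕ → Bool) : dlm i (swm (k + 2) s) = swm k (dlm i s) := by
  funext j
  by_cases e1 : j = k
  · subst e1
    have e : j + 2 + 1 = j + 1 + 2 := by omega
    rw [dlm_ge _ h, swm_i, swm_i, e, dlm_ge _ (by omega)]
  by_cases e2 : j = k + 1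
  · subst e2
    have e : k + 1 + 2 = k + 2 + 1 := by omega
    rw [dlm_ge _ (by omega), e, swm_i1, swm_i1, dlm_ge _ h]
  rw [swm_ne _ e1 e2]
  simp only [dlm]
  split_ifs with h1
  · rw [swm_ne _ (by omega) (by omega)]
  · rw [swm_ne _ (by omega) (by omega)]
theorem mcs_l {i k : ℕ} (h : k + 2 ≤ i) (s : ℕ → Bool) : dlm i (swm k s) = swm k (dlm i s) := by
  funext j
  by_cases e1 : j = k
  · subst e1
    rw [dlm_lt _ (by omega), swm_i, swm_i, dlm_lt _ (by omega)]
  by_cases e2 : j = k + 1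
  · subst e2
    rw [dlm_lt _ (by omega), swm_i1, swm_i1, dlm_lt _ (by omega)]
  rw [swm_ne _ e1 e2]
  simp only [dlm]
  split_ifs with h1
  · rw [swm_ne _ (by omega) (by omega)]
  · rw [swm_ne _ (by omega) (by omega)]
theorem muu {i k : ℕ} (h : i ≤ k) (s : ℕ → Bool) (z w : Bool) : inm (k + 2) (inm i s z) w = inm i (inm k s w) z := by
  funext j
  simp only [inm]
  split_ifs <;> first | rfl | omega
theorem mcc {i k : ℕ} (h : i ≤ k) (s : ℕ → Bool) : dlm i (dlm (k + 2) s) = dlm k (dlm i s) := by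
  funext j
  simp only [dlm]
  split_ifs <;> first | rfl | omega
theorem mcu {i k : ℕ} (h : i ≤ k) (s : ℕ → Bool) (z : Bool) : dlm (k + 2) (inm i s z) = inm i (dlm k s) z := by
  funext j
  simp only [dlm, inm]
  split_ifs <;> first | rfl | omega | (congr 1; omega)
theorem muc {i k : ℕ} (h : i ≤ k) (s : ℕ → Bool) (z : Bool) : dlm i (inm (k + 2) s z) = inm k (dlm i s) z := by
  funext j
  simp only [dlm, inm]
  split_ifs <;> first | rfl | omega | (congr 1; omega)

end marks

end SLC
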