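import Pool.Agent.SLC.Fo1

/-!
Forgetting components: the action of tangles on functions of the marks, the moves.
-/

set_option autoImplicit false

namespace SLC

section letters

/-- restrictions of the elementary tangles; j = number of kept strands on the left -/
def eS (p q : Bool) (j : ℕ) : Tangle := if p = true ∧ q = true then Ts j else 1
def eT (p q : Bool) (j : ℕ) : Tangle := if p = true ∧ q = true then Tt j else 1
def eC (p : Bool) (j : ℕ) : Tangle := if p = true then C j else 1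
def eU (p : Bool) (j : ℕ) : Tangle := if p = true then U j else 1

/-- 1 or 0 -/
def bn (p : Bool) : ℕ := if p = true then 1 else 0

@[simp] theorem bn_true : bn true = 1 := rfl
@[simp] theorem bn_false : bn false = 0 := rfl
@[simp] theorem eS_tt (j : ℕ) : eS true true j = Ts j := rfl
@[simp] theorem eT_tt (j : ℕ) : eT true true j = Tt j := rfl
@[simp] theorem eS_f (q : Bool) (j : ℕ) : eS false q j = 1 := rfl
@[simp] theorem eT_f (q : Bool) (j : ℕ) : eT false q j = 1 := rfl
@[simp] theorem eS_f' (p : Bool) (j : ℕ) : eS p false j = 1 := by cases p <;> rfl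
@[simp] theorem eT_f' (p : Bool) (j : ℕ) : eT p false j = 1 := by cases p <;> rfl
@[simp] theorem eC_t (j : ℕ) : eC true j = C j := rfl
@[simp] theorem eC_f (j : ℕ) : eC false j = 1 := rfl
@[simp] theorem eU_t (j : ℕ) : eU true j = U j := rfl
@[simp] theorem eU_f (j : ℕ) : eU false j = 1 := rfl

theorem l_st (p q : Bool) (j : ℕ) : eS q p j * eT p q j = 1 := by
  cases p <;> cases q <;> simp
  exact move_eq (Move.st j)
theorem l_ts (p q : Bool) (j : ℕ) : eT q p j * eS p q j = 1 := by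
  cases p <;> cases q <;> simp
  exact move_eq (Move.ts j)
theorem l_far (p q p' q' : Bool) (j l : ℕ) (h : p = true → q = true → j + 2 ≤ l) :
    eS p q j * eS p' q' l = eS p' q' l * eS p q j := by
  cases p <;> cases q <;> cases p' <;> cases q' <;> simp
  exact move_eq (Move.far j l (h rfl rfl))
theorem l_braid (p q r : Bool) (j : ℕ) :
    eS q r j * eS p r (j + bn q) * eS p q j = eS p q (j + bn r) * eS p r j * eS q r (j + bn p) := by
  cases p <;> cases q <;> cases r <;> simp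
  exact move_eq (Move.braid j)
theorem l_cs (p : Bool) (j : ℕ) : eC p j * eS p p j = eC p j := by
  cases p <;> simp
  exact move_eq (Move.cs j)
theorem l_su (p : Bool) (j : ℕ) : eS p p j * eU p j = eU p j := by
  cases p <;> simp
  exact move_eq (Move.su j)
theorem l_zig (p : Bool) (j : ℕ) : eC p j * eU p (j + bn p) = 1 := by
  cases p <;> simp
  exact move_eq (Move.zig j)
theorem l_zag (p : Bool) (j : ℕ) : eC p (j + bn p) * eU p j = 1 := by
  cases p <;> simp
  exact move_eq (Move.zag j)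
theorem l_slcs (p q : Bool) (j : ℕ) : eC p j * eS q p (j + bn p) = eC p (j + bn q) * eT p q j := by
  cases p <;> cases q <;> simp
  exact move_eq (Move.slide_cs j)
theorem l_slct (p q : Bool) (j : ℕ) : eC p j * eT q p (j + bn p) = eC p (j + bn q) * eS p q j := by
  cases p <;> cases q <;> simp
  exact move_eq (Move.slide_ct j)
theorem l_slsu (p q : Bool) (j : ℕ) : eS p q (j + bn p) * eU p j = eT q p j * eU p (j + bn q) := by
  cases p <;> cases q <;> simp
  exact move_eq (Move.slide_su j)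
theorem l_sltu (p q : Bool) (j : ℕ) : eT p q (j + bn p) * eU p j = eS q p j * eU p (j + bn q) := by
  cases p <;> cases q <;> simp
  exact move_eq (Move.slide_tu j)
theorem l_su_r (p q z : Bool) {j l : ℕ} (h : j ≤ l) : eS p q (l + 2 * bn z) * eU z j = eU z j * eS p q l := by
  cases p <;> cases q <;> cases z <;> simp
  exact move_eq (Move.su_right j l h)
theorem l_su_l (p q z : Bool) {j l : ℕ} (h : p = true → q = true → l + 2 ≤ j) :
    eS p q l * eU z j = eU z j * eS p q l := by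
  cases p <;> cases q <;> cases z <;> simp
  exact move_eq (Move.su_left j l (h rfl rfl))
theorem l_cs_r (p q z : Bool) {j l : ℕ} (h : j ≤ l) : eC z j * eS p q (l + 2 * bn z) = eS p q l * eC z j := by
  cases p <;> cases q <;> cases z <;> simp
  exact move_eq (Move.cs_right j l h)
theorem l_cs_l (p q z : Bool) {j l : ℕ} (h : p = true → q = true → l + 2 ≤ j) :
    eC z j * eS p q l = eS p q l * eC z j := by
  cases p <;> cases q <;> cases z <;> simp
  exact move_eq (Move.cs_left j l (h rfl rfl))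
theorem l_uu (p z : Bool) {j l : ℕ} (h : j ≤ l) : eU p (l + 2 * bn z) * eU z j = eU z j * eU p l := by
  cases p <;> cases z <;> simp
  exact move_eq (Move.uu j l h)
theorem l_cc (p z : Bool) {j l : ℕ} (h : j ≤ l) : eC z j * eC p (l + 2 * bn z) = eC p l * eC z j := by
  cases p <;> cases z <;> simp
  exact move_eq (Move.cc j l h)
theorem l_cu (p z : Bool) {j l : ℕ} (h : j ≤ l) : eC p (l + 2 * bn z) * eU z j = eU z j * eC p l := by
  cases p <;> cases z <;> simp
  exact move_eq (Move.cu j l h)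
theorem l_uc (p z : Bool) {j l : ℕ} (h : j ≤ l) : eC z j * eU p (l + 2 * bn z) = eU p l * eC z j := by
  cases p <;> cases z <;> simp
  exact move_eq (Move.uc j l h)

end letters

section ops

variable {R : Type} [Ring R] (ι : Tangle →* R)

/-- the operators of the elementary tangles -/
def oS (i : ℕ) (F : (ℕ → Bool) → R) : (ℕ → Bool) → R := fun s => F (swm i s) * ι (eS (s i) (s (i + 1)) (cnt s i))
def oT (i : ℕ) (F : (ℕ → Bool) → R) : (ℕ → Bool) → R := fun s => F (swm i s) * ι (eT (s i) (s (i + 1)) (cnt s i))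
def oC (i : ℕ) (F : (ℕ → Bool) → R) : (ℕ → Bool) → R :=
  fun s => if s i = s (i + 1) then F (dlm i s) * ι (eC (s i) (cnt s i)) else 0
def oU (i : ℕ) (F : (ℕ → Bool) → R) : (ℕ → Bool) → R :=
  fun s => ∑ z, F (inm i s z) * ι (eU z (cnt s i))

theorem mul_ι (x : R) (a b : Tangle) : x * ι a * ι b = x * ι (a * b) := by rw [map_mul, mul_assoc]

theorem cnt1 (s : ℕ → Bool) (i : ℕ) : cnt s (i + 1) = cnt s i + bn (s i) := rfl
theorem cnt_inm_1' (i : ℕ) (s : ℕ → Bool) (z : Bool) : cnt (inm i s z) (i + 1) = cnt s i + bn z := cnt_inm_1 i s z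
theorem cnt_inm_ge' {i k : ℕ} (s : ℕ → Bool) (z : Bool) (h : i ≤ k) :
    cnt (inm i s z) (k + 2) = cnt s k + 2 * bn z := by
  rw [cnt_inm_ge s z h]
  cases z <;> simp
theorem cnt_dlm_ge' {i k : ℕ} (s : ℕ → Bool) (h : i ≤ k) (e : s i = s (i + 1)) :
    cnt s (k + 2) = cnt (dlm i s) k + 2 * bn (s i) := by
  rw [cnt_dlm_ge s h e]
  cases s i <;> simp

theorem o_st (i : ℕ) (F : (ℕ → Bool) → R) : oT ι i (oS ι i F) = F := by
  funext s
  rw [oT, oS, swm_swm, swm_i, swm_i1, cnt_swm_le s le_rfl, mul_ι, l_st, map_one, mul_one]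

theorem o_ts (i : ℕ) (F : (ℕ → Bool) → R) : oS ι i (oT ι i F) = F := by
  funext s
  rw [oS, oT, swm_swm, swm_i, swm_i1, cnt_swm_le s le_rfl, mul_ι, l_ts, map_one, mul_one]

theorem o_far {i k : ℕ} (h : i + 2 ≤ k) (F : (ℕ → Bool) → R) : oS ι k (oS ι i F) = oS ι i (oS ι k F) := by
  funext s
  simp only [oS, mul_ι]
  rw [swm_comm h, swm_ne (i := k) s (by omega) (by omega), swm_ne (i := k) s (by omega) (by omega),
    swm_ne (i := i) s (by omega) (by omega), swm_ne (i := i) s (by omega) (by omega), cnt_swm_le s (by omega),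
    cnt_swm_ge s (by omega), l_far _ _ _ _ _ _ fun h1 h2 => cnt_lt h h1 h2]

theorem o_braid (i : ℕ) (F : (ℕ → Bool) → R) :
    oS ι i (oS ι (i + 1) (oS ι i F)) = oS ι (i + 1) (oS ι i (oS ι (i + 1) F)) := by
  funext s
  simp only [oS, mul_ι]
  have a1 : swm (i + 1) (swm i s) i = s (i + 1) := by rw [swm_ne _ (by omega) (by omega), swm_i]
  have a2 : swm (i + 1) (swm i s) (i + 1) = s (i + 2) := by rw [swm_i, swm_ne _ (by omega) (by omega)]
  have a3 : swm i s (i + 1) = s i := swm_i1 i s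
  have a4 : swm i s (i + 1 + 1) = s (i + 2) := swm_ne s (by omega) (by omega)
  have a5 : swm i (swm (i + 1) s) (i + 1) = s i := by rw [swm_i1, swm_ne _ (by omega) (by omega)]
  have a6 : swm i (swm (i + 1) s) (i + 1 + 1) = s (i + 1) := by rw [swm_ne _ (by omega) (by omega), swm_i1]
  have a7 : swm (i + 1) s i = s i := swm_ne s (by omega) (by omega)
  have a8 : swm (i + 1) s (i + 1) = s (i + 2) := swm_i (i + 1) s
  have a9 : s (i + 1 + 1) = s (i + 2) := rfl
  have a10 : swm i s i = s (i + 1) := swm_i i s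
  have a11 : swm i (swm (i + 1) s) i = s (i + 2) := by rw [swm_i, swm_i]
  have c1 : cnt (swm (i + 1) (swm i s)) i = cnt s i := by rw [cnt_swm_le _ (by omega), cnt_swm_le _ le_rfl]
  have c2 : cnt (swm (i + 1) s) i = cnt s i := cnt_swm_le s (by omega)
  have c3 : cnt (swm i s) i = cnt s i := cnt_swm_le s le_rfl
  have c4 : cnt (swm i (swm (i + 1) s)) i = cnt s i := by rw [cnt_swm_le _ le_rfl, c2]
  simp only [cnt1, a1, a2, a3, a4, a5, a6, a7, a8, a9, a10, a11, c1, c2, c3, c4, swm_braid i s]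
  rw [l_braid]

theorem o_cs (i : ℕ) (F : (ℕ → Bool) → R) : oS ι i (oC ι i F) = oC ι i F := by
  funext s
  rw [oS, oC, oC, swm_i, swm_i1, cnt_swm_le s le_rfl]
  by_cases h : s i = s (i + 1)
  · rw [if_pos h, if_pos h.symm, dlm_swm i s h, mul_ι, ← h, l_cs]
  · rw [if_neg h, if_neg (Ne.symm h), zero_mul]

theorem o_su (i : ℕ) (F : (ℕ → Bool) → R) : oU ι i (oS ι i F) = oU ι i F := by
  funext s
  rw [oU, oU]
  refine Finset.sum_congr rfl fun z _ => ?_
  rw [oS, swm_inm, inm_i, inm_i1, cnt_inm_le s z le_rfl, mul_ι, l_su]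

theorem sum_sel {s : Bool} (f : Bool → R) : ∑ z, (if s = z then f z else 0) = f s := by
  rw [Finset.sum_ite_eq]
  simp

theorem o_zig (i : ℕ) (F : (ℕ → Bool) → R) : oU ι (i + 1) (oC ι i F) = F := by
  funext s
  rw [oU]
  have e : ∀ z, oC ι i F (inm (i + 1) s z) * ι (eU z (cnt s (i + 1))) = if s i = z then F s else 0 := by
    intro z
    rw [oC, inm_lt _ _ (Nat.lt_succ_self i), inm_i, cnt_inm_le s z (Nat.le_succ i)]
    by_cases h : s i = z
    · rw [if_pos h, if_pos h, ← h, mzig, mul_ι, cnt1, l_zig, map_one, mul_one]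
    · rw [if_neg h, if_neg h, zero_mul]
  rw [Finset.sum_congr rfl fun z _ => e z]
  exact sum_sel fun _ => F s

theorem o_zag (i : ℕ) (F : (ℕ → Bool) → R) : oU ι i (oC ι (i + 1) F) = F := by
  funext s
  rw [oU]
  have e : ∀ z, oC ι (i + 1) F (inm i s z) * ι (eU z (cnt s i)) = if s i = z then F s else 0 := by
    intro z
    have e2 : inm i s z (i + 1 + 1) = s i := inm_ge s z le_rfl
    rw [oC, inm_i1, e2, cnt_inm_1']
    by_cases h : s i = z
    · rw [if_pos h, if_pos h.symm, ← h, mzag, mul_ι, l_zag, map_one, mul_one]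
    · rw [if_neg h, if_neg (Ne.symm h), zero_mul]
  rw [Finset.sum_congr rfl fun z _ => e z]
  exact sum_sel fun _ => F s

theorem o_slcs (i : ℕ) (F : (ℕ → Bool) → R) : oS ι (i + 1) (oC ι i F) = oT ι i (oC ι (i + 1) F) := by
  funext s
  rw [oS, oT, oC, oC, swm_ne s (by omega) (by omega), swm_i (i + 1), swm_i1 i, swm_ne s (by omega) (by omega), mslc,
    cnt_swm_le s (by omega), cnt1, cnt1, cnt_swm_le s le_rfl, swm_i i]
  by_cases h : s i = s (i + 1 + 1)
  · rw [if_pos h, if_pos h, ← h, mul_ι, mul_ι, l_slcs]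
  · rw [if_neg h, if_neg h, zero_mul, zero_mul]

theorem o_slct (i : ℕ) (F : (ℕ → Bool) → R) : oT ι (i + 1) (oC ι i F) = oS ι i (oC ι (i + 1) F) := by
  funext s
  rw [oS, oT, oC, oC, swm_ne s (by omega) (by omega), swm_i (i + 1), swm_i1 i, swm_ne s (by omega) (by omega), mslc,
    cnt_swm_le s (by omega), cnt1, cnt1, cnt_swm_le s le_rfl, swm_i i]
  by_cases h : s i = s (i + 1 + 1)
  · rw [if_pos h, if_pos h, ← h, mul_ι, mul_ι, l_slct]
  · rw [if_neg h, if_neg h, zero_mul, zero_mul]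

theorem o_slsu (i : ℕ) (F : (ℕ → Bool) → R) : oU ι i (oS ι (i + 1) F) = oU ι (i + 1) (oT ι i F) := by
  funext s
  rw [oU, oU]
  refine Finset.sum_congr rfl fun z _ => ?_
  have e2 : inm i s z (i + 1 + 1) = s i := inm_ge s z le_rfl
  rw [oS, oT, inm_i1, e2, cnt_inm_1', inm_lt _ _ (Nat.lt_succ_self i), inm_i, cnt_inm_le s z (Nat.le_succ i), mslu,
    mul_ι, mul_ι, cnt1, l_slsu]

theorem o_sltu (i : ℕ) (F : (ℕ → Bool) → R) : oU ι i (oT ι (i + 1) F) = oU ι (i + 1) (oS ι i F) := by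
  funext s
  rw [oU, oU]
  refine Finset.sum_congr rfl fun z _ => ?_
  have e2 : inm i s z (i + 1 + 1) = s i := inm_ge s z le_rfl
  rw [oS, oT, inm_i1, e2, cnt_inm_1', inm_lt _ _ (Nat.lt_succ_self i), inm_i, cnt_inm_le s z (Nat.le_succ i), mslu,
    mul_ι, mul_ι, cnt1, l_sltu]

theorem o_su_r {i k : ℕ} (h : i ≤ k) (F : (ℕ → Bool) → R) : oU ι i (oS ι (k + 2) F) = oS ι k (oU ι i F) := by
  funext s
  rw [oU, oS, oU, Finset.sum_mul]
  refine Finset.sum_congr rfl fun z _ => ?_
  have e2 : inm i s z (k + 2 + 1) = s (k + 1) := inm_ge (k := k + 1) s z (by omega)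
  rw [oS, inm_ge s z h, e2, cnt_inm_ge' s z h, msu_r h, cnt_swm_le s h, mul_ι, mul_ι, l_su_r _ _ _ (cnt_mono s h)]

theorem o_su_l {i k : ℕ} (h : k + 2 ≤ i) (F : (ℕ → Bool) → R) : oU ι i (oS ι k F) = oS ι k (oU ι i F) := by
  funext s
  rw [oU, oS, oU, Finset.sum_mul]
  refine Finset.sum_congr rfl fun z _ => ?_
  rw [oS, inm_lt _ _ (by omega), inm_lt _ _ (by omega), cnt_inm_le s z (by omega), msu_l h, cnt_swm_ge s h, mul_ι,
    mul_ι, l_su_l _ _ _ fun h1 h2 => cnt_lt h h1 h2]

theorem o_cs_r {i k : ℕ} (h : i ≤ k) (F : (ℕ → Bool) → R) : oS ι (k + 2) (oC ι i F) = oC ι i (oS ι k F) := by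
  funext s
  rw [oS, oC, oC, oS, swm_ne s (by omega) (by omega), swm_ne s (by omega) (by omega), mcs_r h, cnt_swm_le s (by omega),
    dlm_ge s h, dlm_ge s (by omega)]
  by_cases hs : s i = s (i + 1)
  · have e : s (k + 1 + 2) = s (k + 2 + 1) := rfl
    rw [if_pos hs, if_pos hs, mul_ι, mul_ι, cnt_dlm_ge' s h hs, e]
    congr 2
    refine l_cs_r _ _ _ ?_
    rw [← cnt_dlm_le (i := i) s le_rfl]
    exact cnt_mono _ h
  · rw [if_neg hs, if_neg hs, zero_mul]

theorem o_cs_l {i k : ℕ} (h : k + 2 ≤ i) (F : (ℕ → Bool) → R) : oS ι k (oC ι i F) = oC ι i (oS ι k F) := by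
  funext s
  rw [oS, oC, oC, oS, swm_ne s (by omega) (by omega), swm_ne s (by omega) (by omega), mcs_l h, cnt_swm_ge s h,
    dlm_lt s (by omega), dlm_lt s (by omega), cnt_dlm_le s (by omega)]
  by_cases hs : s i = s (i + 1)
  · rw [if_pos hs, if_pos hs, mul_ι, mul_ι, l_cs_l _ _ _ fun h1 h2 => cnt_lt h h1 h2]
  · rw [if_neg hs, if_neg hs, zero_mul]

theorem o_uu {i k : ℕ} (h : i ≤ k) (F : (ℕ → Bool) → R) : oU ι i (oU ι (k + 2) F) = oU ι k (oU ι i F) := by
  funext s
  simp only [oU, Finset.sum_mul]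
  rw [Finset.sum_comm]
  refine Finset.sum_congr rfl fun w _ => Finset.sum_congr rfl fun z _ => ?_
  rw [muu h, cnt_inm_ge' s z h, cnt_inm_le s w h, mul_ι, mul_ι, l_uu _ _ (cnt_mono s h)]

theorem o_cc {i k : ℕ} (h : i ≤ k) (F : (ℕ → Bool) → R) : oC ι (k + 2) (oC ι i F) = oC ι i (oC ι k F) := by
  funext s
  simp only [oC]
  have e3 : dlm i s (k + 1) = s (k + 2 + 1) := dlm_ge (k := k + 1) s (by omega)
  rw [dlm_lt s (by omega), dlm_lt s (by omega), mcc h, cnt_dlm_le s (by omega), dlm_ge s h, e3]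
  by_cases hs : s i = s (i + 1)
  · by_cases hk : s (k + 2) = s (k + 2 + 1)
    · rw [if_pos hs, if_pos hk, if_pos hs, if_pos hk, mul_ι, mul_ι, cnt_dlm_ge' s h hs]
      congr 2
      refine l_cc _ _ ?_
      rw [← cnt_dlm_le (i := i) s le_rfl]
      exact cnt_mono _ h
    · rw [if_neg hk, if_pos hs, if_neg hk, zero_mul]
  · rw [if_neg hs, if_neg hs]
    split_ifs <;> simp

theorem o_cu {i k : ℕ} (h : i ≤ k) (F : (ℕ → Bool) → R) : oU ι i (oC ι (k + 2) F) = oC ι k (oU ι i F) := by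
  funext s
  rw [oU, oC, oU]
  have e3 : ∀ z, inm i s z (k + 2 + 1) = s (k + 1) := fun z => inm_ge (k := k + 1) s z (by omega)
  by_cases hk : s k = s (k + 1)
  · rw [if_pos hk, Finset.sum_mul]
    refine Finset.sum_congr rfl fun z _ => ?_
    rw [oC, inm_ge s z h, e3, if_pos hk, mcu h, cnt_inm_ge' s z h, cnt_dlm_le s h, mul_ι, mul_ι,
      l_cu _ _ (cnt_mono s h)]
  · rw [if_neg hk]
    refine Finset.sum_eq_zero fun z _ => ?_
    rw [oC, inm_ge s z h, e3, if_neg hk, zero_mul]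

theorem o_uc {i k : ℕ} (h : i ≤ k) (F : (ℕ → Bool) → R) : oU ι (k + 2) (oC ι i F) = oC ι i (oU ι k F) := by
  funext s
  rw [oU, oC, oU]
  by_cases hs : s i = s (i + 1)
  · rw [if_pos hs, Finset.sum_mul]
    refine Finset.sum_congr rfl fun z _ => ?_
    rw [oC, inm_lt s z (by omega), inm_lt s z (by omega), if_pos hs, muc h, cnt_inm_le s z (by omega), mul_ι, mul_ι,
      cnt_dlm_ge' s h hs]
    congr 2
    refine l_uc _ _ ?_
    rw [← cnt_dlm_le (i := i) s le_rfl]
    exact cnt_mono _ h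
  · rw [if_neg hs]
    refine Finset.sum_eq_zero fun z _ => ?_
    rw [oC, inm_lt s z (by omega), inm_lt s z (by omega), if_neg hs, zero_mul]

/-- the operator of an elementary tangle -/
def oE : Elem → Function.End ((ℕ → Bool) → R)
  | Elem.s i => oS ι i
  | Elem.t i => oT ι i
  | Elem.u i => oU ι i
  | Elem.c i => oC ι i

/-- words act from the top to the bottom -/
def oW : FreeMonoid Elem →* (Function.End ((ℕ → Bool) → R))ᵐᵒᵖ := FreeMonoid.lift fun e => MulOpposite.op (oE ι e)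

theorem oW_wd (l : List Elem) (F : (ℕ → Bool) → R) : (oW ι (wd l)).unop F = l.foldl (fun G e => oE ι e G) F := by
  have h : ∀ (l : List Elem) (F : (ℕ → Bool) → R), (oW ι (FreeMonoid.ofList l)).unop F =
      l.foldl (fun G e => oE ι e G) F := by
    intro l
    induction l with
    | nil => intro F; rfl
    | cons e l ih =>
      intro F
      rw [List.foldl_cons, ← ih, FreeMonoid.ofList_cons, map_mul, MulOpposite.unop_mul]
      rfl
  exact h l F

theorem oW_move {a b : FreeMonoid Elem} (hm : Move a b) : oW ι a = oW ι b := by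
  apply MulOpposite.unop_injective
  refine funext fun F => ?_
  cases hm with
  | st i => rw [oW_wd, oW_wd]; exact o_st ι i F
  | ts i => rw [oW_wd, oW_wd]; exact o_ts ι i F
  | far i k hik => rw [oW_wd, oW_wd]; exact o_far ι hik F
  | braid i => rw [oW_wd, oW_wd]; exact o_braid ι i F
  | cs i => rw [oW_wd, oW_wd]; exact o_cs ι i F
  | su i => rw [oW_wd, oW_wd]; exact o_su ι i F
  | zig i => rw [oW_wd, oW_wd]; exact o_zig ι i F
  | zag i => rw [oW_wd, oW_wd]; exact o_zag ι i F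
  | slide_cs i => rw [oW_wd, oW_wd]; exact o_slcs ι i F
  | slide_ct i => rw [oW_wd, oW_wd]; exact o_slct ι i F
  | slide_su i => rw [oW_wd, oW_wd]; exact o_slsu ι i F
  | slide_tu i => rw [oW_wd, oW_wd]; exact o_sltu ι i F
  | su_right i k hik => rw [oW_wd, oW_wd]; exact o_su_r ι hik F
  | su_left i k hik => rw [oW_wd, oW_wd]; exact o_su_l ι hik F
  | cs_right i k hik => rw [oW_wd, oW_wd]; exact o_cs_r ι hik F
  | cs_left i k hik => rw [oW_wd, oW_wd]; exact o_cs_l ι hik F
  | uu i k hik => rw [oW_wd, oW_wd]; exact o_uu ι hik F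
  | cc i k hik => rw [oW_wd, oW_wd]; exact o_cc ι hik F
  | cu i k hik => rw [oW_wd, oW_wd]; exact o_cu ι hik F
  | uc i k hik => rw [oW_wd, oW_wd]; exact o_uc ι hik F

/-- the action of tangles on functions of the marks -/
def oΦ : Tangle →* (Function.End ((ℕ → Bool) → R))ᵐᵒᵖ :=
  PresentedMonoid.lift (fun e => MulOpposite.op (oE ι e)) (fun _ _ h => oW_move ι h)

/-- value of the tangle x, with the function F of the marks at the top and the marks s at the bottom -/
def vl (x : Tangle) (F : (ℕ → Bool) → R) : (ℕ → Bool) → R := (oΦ ι x).unop F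

theorem vl_one (F : (ℕ → Bool) → R) : vl ι 1 F = F := by
  rw [vl, map_one]
  rfl

theorem vl_mul (x y : Tangle) (F : (ℕ → Bool) → R) : vl ι (x * y) F = vl ι y (vl ι x F) := by
  rw [vl, map_mul]
  rfl

theorem vl_Ts (i : ℕ) (F : (ℕ → Bool) → R) : vl ι (Ts i) F = oS ι i F := rfl
theorem vl_Tt (i : ℕ) (F : (ℕ → Bool) → R) : vl ι (Tt i) F = oT ι i F := rfl
theorem vl_C (i : ℕ) (F : (ℕ → Bool) → R) : vl ι (C i) F = oC ι i F := rfl
theorem vl_U (i : ℕ) (F : (ℕ → Bool) → R) : vl ι (U i) F = oU ι i F := rfl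

end ops

end SLC
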