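import Pool.Agent.SLC.Fo2

/-!
Forgetting components: the value on the closures of pure braids.
-/

set_option autoImplicit false

namespace SLC

section value

variable {R : Type} [Ring R] (ι : Tangle →* R)

theorem vl_T_σ (i : ℕ) (F : (ℕ → Bool) → R) (s : ℕ → Bool) :
    vl ι (T (σ i)) F s = F (mk (σ i) s) * ι (T (res (σ i) s)) := by
  rw [T_σ, vl_Ts, oS, mk_σ, res_σ, rsg, eS]
  split_ifs
  · rw [T_σ]
  · rw [T_one]

/-- the value of a braid -/
theorem vl_T (g : Br) : ∀ (F : (ℕ → Bool) → R) (s : ℕ → Bool), vl ι (T g) F s = F (mk g s) * ι (T (res g s)) := by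
  have hg : g ∈ Subgroup.closure (Set.range σ) := by
    have : Subgroup.closure (Set.range σ) = ⊤ := PresentedGroup.closure_range_of braidRels
    rw [this]
    trivial
  induction hg using Subgroup.closure_induction with
  | mem x hx =>
    obtain ⟨i, rfl⟩ := hx
    exact vl_T_σ ι i
  | one =>
    intro F s
    rw [T_one, vl_one, mk_one, res_one, T_one, map_one, mul_one]
  | mul x y _ _ hx hy =>
    intro F s
    rw [T_mul, vl_mul, hy, hx, mk_mul, res_mul, T_mul, mul_ι]
  | inv x _ hx =>
    intro F s
    have h1 : vl ι (T x) (vl ι (T x⁻¹) F) (mk x⁻¹ s) = F (mk x⁻¹ s) := by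
      rw [← vl_mul, T_inv_mul, vl_one]
    rw [hx, ← mk_mul, mul_inv_cancel, mk_one] at h1
    rw [← h1, mul_ι, res_inv, T_mul_inv, map_one, mul_one]

/-- the marks s below o, then c -/
def jn (o : ℕ) (s c : ℕ → Bool) : ℕ → Bool := fun k => if k < o then s k else c (k - o)

theorem jn_zero (s c : ℕ → Bool) : jn 0 s c = c := by
  funext k
  simp [jn]

theorem jn_lt {o k : ℕ} (s c : ℕ → Bool) (h : k < o) : jn o s c k = s k := by simp [jn, h]
theorem jn_ge (o k : ℕ) (s c : ℕ → Bool) : jn o s c (o + k) = c k := by
  have : ¬ o + k < o := by omega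
  simp [jn, this]

theorem cnt_jn {o k : ℕ} (s c : ℕ → Bool) (h : k ≤ o) : cnt (jn o s c) k = cnt s k :=
  cnt_congr fun j hj => jn_lt s c (by omega)

/-- the positions joined by the maxima have the same mark -/
def Cons : ℕ → List ℕ → (ℕ → Bool) → Prop
  | _, [], _ => True
  | o, a :: r, t => (∀ i < a, t (o + 2 * i) = t (o + 2 * i + 1)) ∧ Cons (o + (2 * a + 1)) r t

/-! ### locality -/

theorem loc_C {o i : ℕ} (h : o ≤ i) {F : (ℕ → Bool) → R} {t : ℕ → Bool}
    (hF : ∀ t' : ℕ → Bool, (∀ k < o, t' k = t k) → F t' = 0) : oC ι i F t = 0 := by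
  rw [oC]
  split_ifs
  · rw [hF _ fun k hk => dlm_lt t (by omega), zero_mul]
  · rfl

theorem loc_U {o i : ℕ} (h : o ≤ i) {F : (ℕ → Bool) → R} {t : ℕ → Bool}
    (hF : ∀ t' : ℕ → Bool, (∀ k < o, t' k = t k) → F t' = 0) : oU ι i F t = 0 := by
  rw [oU]
  refine Finset.sum_eq_zero fun z _ => ?_
  rw [hF _ fun k hk => inm_lt t z (by omega), zero_mul]

theorem loc_capRow {o : ℕ} (a : ℕ) : ∀ {i : ℕ}, o ≤ i → ∀ {F : (ℕ → Bool) → R} {t : ℕ → Bool},
    (∀ t' : ℕ → Bool, (∀ k < o, t' k = t k) → F t' = 0) → vl ι (capRow i a) F t = 0 := by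
  induction a with
  | zero =>
    intro i hi F t hF
    rw [capRow, vl_one]
    exact hF t fun k _ => rfl
  | succ a ih =>
    intro i hi F t hF
    rw [capRow, vl_mul, vl_C]
    refine ih (by omega) fun t' ht' => loc_C ι hi fun t'' ht'' => hF t'' fun k hk => ?_
    rw [ht'' k hk, ht' k hk]

theorem loc_cupRow {o : ℕ} (a : ℕ) : ∀ {i : ℕ}, o ≤ i → ∀ {F : (ℕ → Bool) → R} {t : ℕ → Bool},
    (∀ t' : ℕ → Bool, (∀ k < o, t' k = t k) → F t' = 0) → vl ι (cupRow i a) F t = 0 := by
  induction a with
  | zero =>
    intro i hi F t hF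
    rw [cupRow, vl_one]
    exact hF t fun k _ => rfl
  | succ a ih =>
    intro i hi F t hF
    rw [cupRow, vl_mul, vl_U]
    refine loc_U ι hi fun t' ht' => ih (by omega) fun t'' ht'' => hF t'' fun k hk => ?_
    rw [ht'' k hk, ht' k hk]

theorem loc_caps {o : ℕ} (r : List ℕ) : ∀ {i : ℕ}, o ≤ i → ∀ {F : (ℕ → Bool) → R} {t : ℕ → Bool},
    (∀ t' : ℕ → Bool, (∀ k < o, t' k = t k) → F t' = 0) → vl ι (caps i r) F t = 0 := by
  induction r with
  | nil =>
    intro i hi F t hF
    rw [caps, vl_one]
    exact hF t fun k _ => rfl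
  | cons a r ih =>
    intro i hi F t hF
    rw [caps, vl_mul]
    refine ih (by omega) fun t' ht' => loc_capRow ι a hi fun t'' ht'' => hF t'' fun k hk => ?_
    rw [ht'' k hk, ht' k hk]

theorem loc_cups {o : ℕ} (r : List ℕ) : ∀ {i : ℕ}, o ≤ i → ∀ {F : (ℕ → Bool) → R} {t : ℕ → Bool},
    (∀ t' : ℕ → Bool, (∀ k < o, t' k = t k) → F t' = 0) → vl ι (cups i r) F t = 0 := by
  induction r with
  | nil =>
    intro i hi F t hF
    rw [cups, vl_one]
    exact hF t fun k _ => rfl
  | cons a r ih =>
    intro i hi F t hF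
    rw [cups, vl_mul]
    refine loc_cupRow ι a (by omega : o ≤ i + 1) fun t' ht' => ih (by omega) fun t'' ht'' => hF t'' fun k hk => ?_
    rw [ht'' k hk, ht' k hk]

/-! ### maxima -/

theorem capRow_zero (a : ℕ) : ∀ (o : ℕ) (F : (ℕ → Bool) → R) (t : ℕ → Bool),
    (∃ i < a, t (o + 2 * i) ≠ t (o + 2 * i + 1)) → vl ι (capRow o a) F t = 0 := by
  induction a with
  | zero =>
    rintro o F t ⟨i, hi, _⟩
    omega
  | succ a ih =>
    rintro o F t ⟨i, hi, h⟩
    rw [capRow, vl_mul, vl_C]
    rcases Nat.eq_zero_or_pos i with rfl | h0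
    · refine loc_capRow ι (o := o + 2) a le_rfl fun t' ht' => ?_
      rw [oC, ht' o (by omega), ht' (o + 1) (by omega), if_neg]
      exact h
    · refine ih _ _ _ ⟨i - 1, by omega, ?_⟩
      have e : o + 2 + 2 * (i - 1) = o + 2 * i := by omega
      rw [e]
      exact h

theorem caps_zero (r : List ℕ) : ∀ (o : ℕ) (F : (ℕ → Bool) → R) (t : ℕ → Bool), ¬ Cons o r t →
    vl ι (caps o r) F t = 0 := by
  induction r with
  | nil =>
    intro o F t h
    exact absurd trivial h
  | cons a r ih =>
    intro o F t h
    rw [caps, vl_mul]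
    by_cases h1 : Cons (o + (2 * a + 1)) r t
    · have h2 : ∃ i < a, t (o + 2 * i) ≠ t (o + 2 * i + 1) := by
        by_contra hcon
        push Not at hcon
        exact h ⟨hcon, h1⟩
      obtain ⟨i, hi, h3⟩ := h2
      refine loc_caps ι r le_rfl fun t' ht' => capRow_zero ι a o F t' ⟨i, hi, ?_⟩
      rw [ht' _ (by omega), ht' _ (by omega)]
      exact h3
    · exact ih _ _ _ h1

theorem capRow_val (z : Bool) (a : ℕ) : ∀ (o : ℕ) (F : (ℕ → Bool) → R) (t : ℕ → Bool),
    (∀ i < 2 * a, t (o + i) = z) →
    vl ι (capRow o a) F t = F (fun k => if k < o then t k else t (k + 2 * a)) *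
      ι (if z = true then capRow (cnt t o) a else 1) := by
  induction a with
  | zero =>
    intro o F t _
    rw [capRow, vl_one]
    have e : (fun k => if k < o then t k else t (k + 2 * 0)) = t := by
      funext k
      split_ifs <;> rfl
    rw [e]
    split_ifs <;> simp [capRow]
  | succ a ih =>
    intro o F t h
    have h0 : t o = z := h 0 (by omega)
    have h1 : t (o + 1) = z := h 1 (by omega)
    rw [capRow, vl_mul, vl_C, ih (o + 2) _ t fun i hi => by
      have := h (i + 2) (by omega)
      rwa [show o + (i + 2) = o + 2 + i by omega] at this]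
    have e1 : (if o < o + 2 then t o else t (o + 2 * a)) = z := by rw [if_pos (by omega), h0]
    have e2 : (if o + 1 < o + 2 then t (o + 1) else t (o + 1 + 2 * a)) = z := by rw [if_pos (by omega), h1]
    rw [oC]
    simp only [e1, e2, if_true]
    have e3 : dlm o (fun k => if k < o + 2 then t k else t (k + 2 * a)) =
        fun k => if k < o then t k else t (k + 2 * (a + 1)) := by
      funext k
      simp only [dlm]
      split_ifs with c1 c2 c3
      · rfl
      · omega
      · omega
      · congr 1
        omega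
    have e4 : cnt (fun k => if k < o + 2 then t k else t (k + 2 * a)) o = cnt t o :=
      cnt_congr fun k hk => if_pos (by omega)
    rw [e3, e4, mul_ι]
    congr 2
    rw [eC]
    split_ifs with hz
    · subst hz
      rw [cnt_two h0 h1]
      rfl
    · rw [one_mul]

theorem caps_val (r : List ℕ) : ∀ (o : ℕ) (F : (ℕ → Bool) → R) (s c : ℕ → Bool),
    vl ι (caps o r) F (jn o s (spread r c)) = F (jn o s c) * ι (caps (cnt s o) (keep r c)) := by
  induction r with
  | nil =>
    intro o F s c
    rw [caps, vl_one, keep, caps, map_one, mul_one]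
    rfl
  | cons a r ih =>
    intro o F s c
    have e1 : jn o s (spread (a :: r) c) = jn (o + (2 * a + 1)) (jn o s fun _ => c 0) (spread r fun j => c (j + 1)) := by
      funext k
      simp only [jn, spread]
      by_cases h1 : k < o
      · rw [if_pos h1, if_pos (by omega), if_pos h1]
      · rw [if_neg h1]
        by_cases h2 : k < o + (2 * a + 1)
        · rw [if_pos (by omega), if_pos h2, if_neg h1]
        · rw [if_neg (by omega), if_neg h2]
          congr 1
          omega
    rw [caps, vl_mul, e1, ih, capRow_val ι (c 0) a]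
    · have e2 : (fun k => if k < o then jn (o + (2 * a + 1)) (jn o s fun _ => c 0) (fun j => c (j + 1)) k
          else jn (o + (2 * a + 1)) (jn o s fun _ => c 0) (fun j => c (j + 1)) (k + 2 * a)) = jn o s c := by
        funext k
        simp only [jn]
        by_cases h1 : k < o
        · rw [if_pos h1, if_pos (by omega), if_pos h1, if_pos h1]
        · rw [if_neg h1, if_neg h1]
          by_cases h2 : k = o
          · subst h2
            rw [if_pos (by omega), if_neg (by omega), Nat.sub_self]
          · rw [if_neg (by omega)]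
            congr 1
            omega
      rw [e2, mul_ι]
      have e3 : cnt (jn (o + (2 * a + 1)) (jn o s fun _ => c 0) fun j => c (j + 1)) o = cnt s o := by
        rw [cnt_jn _ _ (by omega), cnt_jn _ _ le_rfl]
      have e4 : cnt (jn o s fun _ => c 0) (o + (2 * a + 1)) = cnt s o + (if c 0 = true then 2 * a + 1 else 0) := by
        have : ∀ n, cnt (jn o s fun _ => c 0) (o + n) = cnt s o + (if c 0 = true then n else 0) := by
          intro n
          induction n with
          | zero => rw [Nat.add_zero, cnt_jn _ _ le_rfl, ite_self, Nat.add_zero]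
          | succ n ihn =>
            rw [← Nat.add_assoc, cnt, ihn, jn_ge]
            split_ifs <;> omega
        exact this _
      rw [e3, e4, keep]
      split_ifs with hc
      · rfl
      · rw [one_mul]
        rfl
    · intro i hi
      rw [jn_lt _ _ (by omega), jn_ge]

/-! ### minima -/

/-- insert 2 a strands after the strand o, with the same mark -/
def flm (o a : ℕ) (s : ℕ → Bool) : ℕ → Bool := fun k => if k ≤ o then s k else if k ≤ o + 2 * a then s o else s (k - 2 * a)

theorem cupRow_val (a : ℕ) : ∀ (o : ℕ) (G : (ℕ → Bool) → R) (s : ℕ → Bool),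
    (∀ t : ℕ → Bool, (∃ i < a, t (o + 2 * i) ≠ t (o + 2 * i + 1)) → G t = 0) →
    vl ι (cupRow (o + 1) a) G s = G (flm o a s) * ι (if s o = true then cupRow (cnt s o + 1) a else 1) := by
  induction a with
  | zero =>
    intro o G s _
    rw [cupRow, vl_one]
    have e : flm o 0 s = s := by
      funext k
      simp only [flm]
      split_ifs with c1 c2
      · rfl
      · omega
      · rfl
    rw [e]
    split_ifs <;> simp [cupRow]
  | succ a ih =>
    intro o G s hG
    rw [cupRow, vl_mul, vl_U, oU]
    have e0 : o + 1 + 2 = o + 2 + 1 := by omega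
    have key : ∀ z, vl ι (cupRow (o + 1 + 2) a) G (inm (o + 1) s z) * ι (eU z (cnt s (o + 1))) =
        if s o = z then G (flm o (a + 1) s) * ι (if s o = true then cupRow (cnt s o + 1) (a + 1) else 1) else 0 := by
      intro z
      rw [e0, ih (o + 2) G _ fun t ⟨i, hi, ht⟩ => hG t ⟨i + 1, by omega, by
        rwa [show o + 2 * (i + 1) = o + 2 + 2 * i by omega]⟩]
      have e1 : inm (o + 1) s z (o + 2) = z := inm_i1 (o + 1) s z
      by_cases hz : s o = z
      · rw [if_pos hz]
        have e2 : flm (o + 2) a (inm (o + 1) s z) = flm o (a + 1) s := by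
          funext k
          simp only [flm, inm]
          split_ifs <;> first | rfl | omega | exact hz.symm
        rw [e2, mul_ι, e1, ← hz]
        congr 2
        rw [eU]
        split_ifs with h
        · have e3 : cnt (inm (o + 1) s (s o)) (o + 2) = cnt s o + 2 := by
            have := cnt_inm_1 (o + 1) s (s o)
            rw [this, cnt, if_pos h]
          have e4 : cnt s (o + 1) = cnt s o + 1 := by rw [cnt, if_pos h]
          rw [e3, e4]
          rfl
        · rw [one_mul]
      · rw [if_neg hz, hG _ ⟨0, by omega, ?_⟩, zero_mul, zero_mul]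
        have e3 : flm (o + 2) a (inm (o + 1) s z) (o + 2 * 0) = s o := by
          simp only [flm, inm]
          rw [if_pos (by omega), if_pos (by omega)]
          rfl
        have e4 : flm (o + 2) a (inm (o + 1) s z) (o + 2 * 0 + 1) = z := by
          simp only [flm, inm]
          rw [if_pos (by omega), if_neg (by omega), if_pos (by omega)]
        rw [e3, e4]
        exact hz
    rw [Finset.sum_congr rfl fun z _ => key z]
    exact sum_sel fun _ => _

theorem cups_val (r : List ℕ) : ∀ (o : ℕ) (G : (ℕ → Bool) → R) (s c : ℕ → Bool),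
    (∀ t : ℕ → Bool, ¬ Cons o r t → G t = 0) →
    vl ι (cups o r) G (jn o s c) = G (jn o s (spread r c)) * ι (cups (cnt s o) (keep r c)) := by
  induction r with
  | nil =>
    intro o G s c _
    rw [cups, vl_one, keep, cups, map_one, mul_one]
    rfl
  | cons a r ih =>
    intro o G s c hG
    rw [cups, vl_mul, cupRow_val]
    · have e1 : flm o a (jn o s c) = jn (o + (2 * a + 1)) (jn o s fun _ => c 0) fun j => c (j + 1) := by
        funext k
        simp only [flm, jn]
        by_cases h1 : k < o
        · rw [if_pos (by omega), if_pos h1, if_pos (by omega), if_pos h1]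
        · by_cases h2 : k = o
          · subst h2
            rw [if_pos le_rfl, if_neg h1, if_pos (by omega), if_neg h1, Nat.sub_self]
          · rw [if_neg (by omega)]
            by_cases h3 : k ≤ o + 2 * a
            · rw [if_pos h3, if_neg (by omega), if_pos (by omega), if_neg h1, Nat.sub_self]
            · rw [if_neg h3, if_neg (by omega), if_neg (by omega)]
              congr 1
              omega
      rw [e1, ih _ G _ _ fun t ht => hG t fun h => ht h.2]
      have e2 : jn (o + (2 * a + 1)) (jn o s fun _ => c 0) (spread r fun j => c (j + 1)) = jn o s (spread (a :: r) c) := by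
        funext k
        simp only [jn, spread]
        by_cases h1 : k < o
        · rw [if_pos (by omega), if_pos h1, if_pos h1]
        · by_cases h2 : k < o + (2 * a + 1)
          · rw [if_pos h2, if_neg h1, if_neg h1, if_pos (by omega)]
          · rw [if_neg h2, if_neg h1, if_neg (by omega)]
            congr 1
            omega
      rw [e2, mul_ι]
      have e5 : jn o s c o = c 0 := jn_ge o 0 s c
      have e4 : cnt (jn o s fun _ => c 0) (o + (2 * a + 1)) = cnt s o + (if c 0 = true then 2 * a + 1 else 0) := by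
        have : ∀ n, cnt (jn o s fun _ => c 0) (o + n) = cnt s o + (if c 0 = true then n else 0) := by
          intro n
          induction n with
          | zero => rw [Nat.add_zero, cnt_jn _ _ le_rfl, ite_self, Nat.add_zero]
          | succ n ihn =>
            rw [← Nat.add_assoc, cnt, ihn, jn_ge]
            split_ifs <;> omega
        exact this _
      rw [e5, e4, cnt_jn _ _ le_rfl, keep]
      congr 2
      split_ifs with hc
      · rfl
      · rw [mul_one]
        rfl
    · rintro t ⟨i, hi, ht⟩
      refine loc_cups ι r le_rfl fun t' ht' => hG t' fun h => ht ?_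
      have := h.1 i hi
      rwa [ht' _ (by omega), ht' _ (by omega)] at this

/-- the value of the closure of a pure braid -/
theorem vl_cl (r : List ℕ) {g : Br} (hg : perm g = 1) (F : (ℕ → Bool) → R) (c : ℕ → Bool) :
    vl ι (cl r g) F c = F c * ι (cl (keep r c) (res g (spread r c))) := by
  have hmk : ∀ t, mk g t = t := by
    intro t
    funext k
    simp [mk, hg]
  have h := cups_val ι r 0 (vl ι (T g) (vl ι (caps 0 r) F)) c c (fun t ht => by
    rw [vl_T, hmk, caps_zero ι r 0 F t ht, zero_mul])
  rw [jn_zero, jn_zero, vl_T, hmk] at h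
  have h2 := caps_val ι r 0 F c c
  rw [jn_zero, jn_zero] at h2
  rw [h2] at h
  change vl ι (caps 0 r * T g * cups 0 r) F c =
    F c * ι (caps 0 (keep r c) * T (res g (spread r c)) * cups 0 (keep r c))
  rw [vl_mul, vl_mul, h, mul_ι, mul_ι, mul_assoc]
  rfl

end value

/-- forget the components i with c i = false -/
noncomputable def fgt (c : ℕ → Bool) (x : Tangle) : Tangle :=
  open Classical in
  if h : ∃ y, vl (MonoidAlgebra.of ℤ Tangle) x (fun _ => 1) c = MonoidAlgebra.of ℤ Tangle y then h.choose else 1

theorem fgt_cl (c : ℕ → Bool) (r : List ℕ) {g : Br} (hg : perm g = 1) :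
    fgt c (cl r g) = cl (keep r c) (res g (spread r c)) := by
  have h : vl (MonoidAlgebra.of ℤ Tangle) (cl r g) (fun _ => 1) c =
      MonoidAlgebra.of ℤ Tangle (cl (keep r c) (res g (spread r c))) := by
    rw [vl_cl _ r hg, one_mul]
  have h1 : ∃ y, vl (MonoidAlgebra.of ℤ Tangle) (cl r g) (fun _ => 1) c = MonoidAlgebra.of ℤ Tangle y := ⟨_, h⟩
  rw [fgt, dif_pos h1]
  exact MonoidAlgebra.of_injective (h1.choose_spec.symm.trans h)

theorem fgt_eq {c : ℕ → Bool} {x y : Tangle}
    (h : vl (MonoidAlgebra.of ℤ Tangle) x (fun _ => 1) c = MonoidAlgebra.of ℤ Tangle y) : fgt c x = y := by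
  have h1 : ∃ y, vl (MonoidAlgebra.of ℤ Tangle) x (fun _ => 1) c = MonoidAlgebra.of ℤ Tangle y := ⟨_, h⟩
  rw [fgt, dif_pos h1]
  exact MonoidAlgebra.of_injective (h1.choose_spec.symm.trans h)

theorem vl_link (c : ℕ → Bool) {m : ℕ} {x : Tangle} (hx : IsStringLink m x)
    (F : (ℕ → Bool) → MonoidAlgebra ℤ Tangle) :
    vl (MonoidAlgebra.of ℤ Tangle) x F c = F c * MonoidAlgebra.of ℤ Tangle (fgt c x) := by
  obtain ⟨r, _, g, hg, rfl⟩ := hx
  rw [fgt_cl c r hg.2, vl_cl _ r hg.2]

/-- forgetting components is compatible with the composition -/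
theorem fgt_mul (c : ℕ → Bool) {m n : ℕ} {x y : Tangle} (hx : IsStringLink m x) (hy : IsStringLink n y) :
    fgt c (x * y) = fgt c x * fgt c y := by
  refine fgt_eq ?_
  rw [vl_mul, vl_link c hy, vl_link c hx, one_mul, map_mul]

theorem fgt_one (c : ℕ → Bool) : fgt c 1 = 1 := fgt_eq (by rw [vl_one, map_one])

end SLC
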