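import Pool.Agent.SLC.Struct

/-!
String links, abstract part: closures are determined by their images under endomorphisms which fix the generators.
-/

set_option autoImplicit false

open scoped commutatorElement

namespace SLC

/-- in a filtered group: an element of F k killed by all e j, modulo F (k + 1), lies in F (k + 1), if F k is generated
by subgroups V j on which e j is the identity -/
theorem frg_step {G : Type} [Group G] {F : ℕ → Subgroup G} (hF : Filt F) {k : ℕ} (e : ℕ → G →* G) (V : ℕ → Subgroup G)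
    (m : ℕ) (hV : ∀ j < m, F (k + 1) ≤ V j) (hV' : ∀ j < m, V j ≤ F k)
    (h1 : ∀ j < m, ∀ y ∈ V j, y⁻¹ * e j y ∈ F (k + 1)) (h2 : ∀ i < m, ∀ j < m, ∀ y ∈ V j, e i y ∈ V j)
    (he : ∀ i < m, ∀ y ∈ F (k + 1), e i y ∈ F (k + 1)) {x : G} (h : ∀ i < m, e i x ∈ F (k + 1)) :
    ∀ n s, s + n = m → x ∈ (⨆ j ∈ {j | s ≤ j ∧ j < m}, V j) ⊔ F (k + 1) → x ∈ F (k + 1) := by
  intro n
  induction n with
  | zero =>
    intro s hs hx
    have h0 : (⨆ j ∈ {j | s ≤ j ∧ j < m}, V j) = ⊥ := by
      rw [eq_bot_iff]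
      refine iSup₂_le ?_
      rintro j ⟨hj1, hj2⟩
      omega
    rwa [h0, bot_sup_eq] at hx
  | succ n ih =>
    intro s hs hx
    refine ih (s + 1) (by omega) ?_
    set W : Subgroup G := (⨆ j ∈ {j | s + 1 ≤ j ∧ j < m}, V j) ⊔ F (k + 1) with hW
    have hsm : s < m := by omega
    have hWk : W ≤ F k := by
      refine sup_le (iSup₂_le ?_) (hF.anti k)
      rintro j ⟨_, hj⟩
      exact hV' j hj
    have hWF : F (k + 1) ≤ W := le_sup_right
    haveI hWn : W.Normal := by
      constructor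
      intro n hn g
      have h3 : ⁅g, n⁆ ∈ F (k + 1) := by
        have := hF.comm 1 k (Subgroup.commutator_mem_commutator (by rw [hF.top]; trivial : g ∈ F 1) (hWk hn))
        rwa [add_comm] at this
      have h4 : g * n * g⁻¹ = ⁅g, n⁆ * n := by
        rw [commutatorElement_def]
        group
      rw [h4]
      exact mul_mem (hWF h3) hn
    have hle : (⨆ j ∈ {j | s ≤ j ∧ j < m}, V j) ⊔ F (k + 1) ≤ V s ⊔ W := by
      refine sup_le (iSup₂_le ?_) (hWF.trans le_sup_right)
      rintro j ⟨hj1, hj2⟩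
      rcases Nat.eq_or_lt_of_le hj1 with rfl | hj3
      · exact le_sup_left
      · refine le_trans ?_ le_sup_right
        refine le_trans ?_ le_sup_left
        exact le_iSup₂_of_le j ⟨hj3, hj2⟩ le_rfl
    have hx2 := hle hx
    rw [← SetLike.mem_coe, Subgroup.mul_normal] at hx2
    obtain ⟨y, hy, z, hz, rfl⟩ := hx2
    -- e s z in W
    have hez : e s z ∈ W := by
      have h3 : W ≤ W.comap (e s) := by
        refine sup_le (iSup₂_le ?_) ?_
        · rintro j ⟨hj1, hj2⟩ u hu
          exact (le_sup_left (a := ⨆ j ∈ {j | s + 1 ≤ j ∧ j < m}, V j) (b := F (k + 1)))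
            (le_iSup₂_of_le (f := fun j (_ : j ∈ {j | s + 1 ≤ j ∧ j < m}) => V j) j ⟨hj1, hj2⟩ le_rfl
              (h2 s hsm j hj2 u hu))
        · intro u hu
          exact hWF (he s hsm u hu)
      exact h3 hz
    have h5 := h s hsm
    rw [map_mul] at h5
    have h6 := h1 s hsm y hy
    have h7 : e s y ∈ W := by
      have : e s y = e s y * e s z * (e s z)⁻¹ := by group
      rw [this]
      exact mul_mem (hWF h5) (inv_mem hez)
    have h8 : y ∈ W := by
      have : y = e s y * (y⁻¹ * e s y)⁻¹ := by group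
      rw [this]
      exact mul_mem h7 (inv_mem (hWF h6))
    exact mul_mem h8 hz

namespace CSys

variable {M : Type} [Monoid M] {Q : CSys M}

/-- closures are determined by their images under the E j -/
theorem forget [Nonempty Q.Lev] {d : ℕ} (hd : 1 ≤ d) (m : ℕ) (E : ℕ → M → M)
    (hcl : ∀ j < m, ∀ x, Q.IsCl x → Q.IsCl (E j x))
    (hmul : ∀ j < m, ∀ x y, Q.IsCl x → Q.IsCl y → E j (x * y) = E j x * E j y)
    (hceq : ∀ j < m, ∀ k x y, Q.IsCl x → Q.Ceq k x y → Q.Ceq k (E j x) (E j y))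
    (X : ℕ → ℕ → M → Prop) (hX : ∀ j < m, ∀ k y, X j k y → Q.IsCl y ∧ Q.Ceq k y 1)
    (hgen : ∀ (G : Type) [Group G] (π : Q.Quo d G) (k : ℕ), 1 ≤ k → k < d → ∀ (l : Q.Lev) (a : Q.P l),
      a ∈ Gm (Q.P l) k → π.cls (Q.S l a) ∈ Subgroup.closure {g | ∃ j < m, ∃ y, X j k y ∧ g = π.cls y} ⊔ π.FF (k + 1))
    (hfix : ∀ j < m, ∀ k, 1 ≤ k → k < d → ∀ y, X j k y → Q.Ceq (k + 1) (E j y) y)
    (hstab : ∀ i < m, ∀ j < m, ∀ k, 1 ≤ k → k < d → ∀ y, X j k y → X j k (E i y))
    {x y : M} (hx : Q.IsCl x) (hy : Q.IsCl y) (h : ∀ j < m, Q.Ceq d (E j x) (E j y)) : Q.Ceq d x y := by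
  classical
  obtain ⟨G, iG, ⟨π⟩⟩ := Q.exists_quo hd
  have hE1 : ∀ j < m, Q.Ceq d (E j 1) 1 := by
    intro j hj
    have h1 := hcl j hj 1 Q.isCl_one
    have h2 := hmul j hj 1 1 Q.isCl_one Q.isCl_one
    rw [mul_one] at h2
    have h3 : π.cls (E j 1) = π.cls (E j 1) * π.cls (E j 1) := by
      rw [← π.cls_mul _ _ h1 h1, ← h2]
    have h4 : π.cls (E j 1) = 1 := by
      have := mul_eq_left.1 h3.symm
      exact this
    rw [← π.cls_one] at h4
    exact (π.eq_iff _ _ h1 Q.isCl_one).1 h4
  have hex : ∀ j : ℕ, ∃ f : G →* G, j < m → ∀ x, Q.IsCl x → f (π.cls x) = π.cls (E j x) := by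
    intro j
    by_cases hj : j < m
    · choose rep hrep hrep2 using π.surj
      have key : ∀ x, Q.IsCl x → π.cls (E j (rep (π.cls x))) = π.cls (E j x) := by
        intro x hx
        have h1 : Q.Ceq d (rep (π.cls x)) x := (π.eq_iff _ _ (hrep _) hx).1 (hrep2 _)
        exact π.cls_eq (hcl j hj _ (hrep _)) (hceq j hj d _ _ (hrep _) h1)
      refine ⟨MonoidHom.mk' (fun g => π.cls (E j (rep g))) ?_, fun _ x hx => key x hx⟩
      intro a b
      have h1 := key (rep a * rep b) ((hrep a).mul (hrep b))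
      rw [π.cls_mul _ _ (hrep a) (hrep b), hrep2, hrep2, hmul j hj _ _ (hrep a) (hrep b),
        π.cls_mul _ _ (hcl j hj _ (hrep a)) (hcl j hj _ (hrep b))] at h1
      exact h1
    · exact ⟨1, fun h => absurd h hj⟩
  choose e he using hex
  have hFF : ∀ j < m, ∀ k, 1 ≤ k → k ≤ d → ∀ g ∈ π.FF k, e j g ∈ π.FF k := by
    intro j hj k hk hkd g hg
    obtain ⟨z, hz, rfl, hz1⟩ := π.exists_of_mem hd hkd hg
    rw [he j hj z hz, π.mem_FF_iff hd hk hkd (hcl j hj z hz)]
    exact (hceq j hj k _ _ hz hz1).trans ((hE1 j hj).mono hkd)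
  have hFilt := π.FF_filt hd
  have hbot : π.FF d = ⊥ := π.FF_bot le_rfl
  -- main induction
  have main : ∀ g : G, (∀ j < m, e j g = 1) → ∀ k, 1 ≤ k → k ≤ d → g ∈ π.FF k := by
    intro g hg k hk
    induction k, hk using Nat.le_induction with
    | base =>
      intro _
      rw [π.FF_top]
      trivial
    | succ k hk ih =>
      intro hkd
      have hgk := ih (by omega)
      let V : ℕ → Subgroup G := fun j => Subgroup.closure {g | ∃ y, X j k y ∧ g = π.cls y} ⊔ π.FF (k + 1)
      have hVk : ∀ j < m, V j ≤ π.FF k := by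
        intro j hj
        refine sup_le ((Subgroup.closure_le _).2 ?_) (hFilt.anti k)
        rintro _ ⟨y, hy, rfl⟩
        obtain ⟨hy1, hy2⟩ := hX j hj k y hy
        exact (π.mem_FF_iff hd hk (by omega) hy1).2 hy2
      have hcen : ∀ (a b : G), b ∈ π.FF k → a * b * a⁻¹ * b⁻¹ ∈ π.FF (k + 1) := by
        intro a b hb
        have := hFilt.comm 1 k (Subgroup.commutator_mem_commutator (by rw [hFilt.top]; trivial : a ∈ π.FF 1) hb)
        rw [commutatorElement_def, add_comm] at this
        exact this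
      haveI hn1 : (π.FF (k + 1)).Normal := hFilt.normal (k + 1)
      refine frg_step hFilt e V m (fun j _ => le_sup_right) hVk ?_ ?_ ?_ (fun i hi => ?_) m 0 (by omega) ?_
      · -- e j is the identity on V j
        intro j hj y hy
        let K : Subgroup G :=
          { carrier := {y | y ∈ π.FF k ∧ y⁻¹ * e j y ∈ π.FF (k + 1)}
            one_mem' := ⟨one_mem _, by rw [map_one, inv_one, mul_one]; exact one_mem _⟩
            mul_mem' := by
              rintro a b ⟨ha, ha'⟩ ⟨hb, hb'⟩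
              refine ⟨mul_mem ha hb, ?_⟩
              have h1 : (a * b)⁻¹ * e j (a * b) = b⁻¹ * (a⁻¹ * e j a) * b⁻¹⁻¹ * (b⁻¹ * e j b) := by
                rw [map_mul]
                group
              rw [h1]
              exact mul_mem (hn1.conj_mem _ ha' b⁻¹) hb'
            inv_mem' := by
              rintro a ⟨ha, ha'⟩
              refine ⟨inv_mem ha, ?_⟩
              have h1 : a⁻¹⁻¹ * e j a⁻¹ = a * (a⁻¹ * e j a)⁻¹ * a⁻¹ := by
                rw [map_inv]
                group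
              rw [h1]
              exact hn1.conj_mem _ (inv_mem ha') a }
        have hK : V j ≤ K := by
          refine sup_le ((Subgroup.closure_le _).2 ?_) ?_
          · rintro _ ⟨y, hy, rfl⟩
            obtain ⟨hy1, hy2⟩ := hX j hj k y hy
            have hyk := (π.mem_FF_iff hd hk (by omega) hy1).2 hy2
            refine ⟨hyk, ?_⟩
            rw [he j hj y hy1]
            have h1 := π.mem_of_Ceq (by omega) hkd (hfix j hj k hk (by omega) y hy) (hcl j hj y hy1)
            have h2 : (π.cls y)⁻¹ * π.cls (E j y) = (π.cls y)⁻¹ * (π.cls (E j y) * (π.cls y)⁻¹) * (π.cls y)⁻¹⁻¹ := by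
              group
            rw [h2]
            exact hn1.conj_mem _ h1 _
          · intro y hy
            exact ⟨hFilt.anti k hy, mul_mem (inv_mem hy) (hFF j hj (k + 1) (by omega) hkd y hy)⟩
        exact (hK hy).2
      · intro i hi j hj y hy
        have hK : V j ≤ (V j).comap (e i) := by
          refine sup_le ((Subgroup.closure_le _).2 ?_) ?_
          · rintro _ ⟨y, hy, rfl⟩
            obtain ⟨hy1, hy2⟩ := hX j hj k y hy
            rw [SetLike.mem_coe, Subgroup.mem_comap, he i hi y hy1]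
            exact Subgroup.mem_sup_left (Subgroup.subset_closure ⟨_, hstab i hi j hj k hk (by omega) y hy, rfl⟩)
          · intro y hy
            exact Subgroup.mem_sup_right (hFF i hi (k + 1) (by omega) hkd y hy)
        exact hK hy
      · intro i hi y hy
        exact hFF i hi (k + 1) (by omega) hkd y hy
      · rw [hg i hi]
        exact one_mem _
      · have h1 : π.FF k ≤ (⨆ j ∈ {j | 0 ≤ j ∧ j < m}, V j) ⊔ π.FF (k + 1) := by
          refine (Subgroup.closure_le _).2 ?_
          rintro _ ⟨l, a, ha, rfl⟩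
          refine (sup_le ((Subgroup.closure_le _).2 ?_) le_sup_right : _ ≤ (⨆ j ∈ {j | 0 ≤ j ∧ j < m}, V j) ⊔ π.FF (k + 1))
            (hgen G π k hk (by omega) l a ha)
          rintro _ ⟨j, hj, y, hy, rfl⟩
          refine Subgroup.mem_sup_left ?_
          exact (le_iSup₂_of_le (f := fun j (_ : j ∈ {j | 0 ≤ j ∧ j < m}) => V j) j ⟨Nat.zero_le j, hj⟩ le_rfl)
            (Subgroup.mem_sup_left (Subgroup.subset_closure ⟨y, hy, rfl⟩))
        exact h1 hgk
  have hg : π.cls x * (π.cls y)⁻¹ ∈ π.FF d := by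
    refine main _ (fun j hj => ?_) d hd le_rfl
    rw [map_mul, map_inv, he j hj x hx, he j hj y hy, π.cls_eq (hcl j hj x hx) (h j hj), mul_inv_cancel]
  rw [hbot, Subgroup.mem_bot, mul_inv_eq_one] at hg
  exact (π.eq_iff _ _ hx hy).1 hg

end CSys

end SLC
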