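import Pool.Agent.SLC.Top3

/-!
The pure braid group is generated by the conjugates of the squares of the standard generators.
-/

set_option autoImplicit false

namespace SLC

/-- the subgroup generated by the conjugates of the squares -/
def SqN (n : ℕ) : Subgroup Br := Subgroup.closure {x | ∃ c ∈ BN n, ∃ i, i + 1 < n ∧ x = c * (σ i) ^ 2 * c⁻¹}

theorem σ_far {i k : ℕ} (h : i + 2 ≤ k) : σ i * σ k = σ k * σ i := by
  have h1 : (PresentedGroup.mk braidRels) (FreeGroup.of i * FreeGroup.of k * (FreeGroup.of k * FreeGroup.of i)⁻¹) = 1 :=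
    PresentedGroup.one_of_mem (Or.inl ⟨i, k, h, rfl⟩)
  rw [map_mul, map_mul, map_inv, map_mul, mul_inv_eq_one] at h1
  exact h1

theorem σ_braid (i : ℕ) : σ i * σ (i + 1) * σ i = σ (i + 1) * σ i * σ (i + 1) := by
  have h1 : (PresentedGroup.mk braidRels) (FreeGroup.of i * FreeGroup.of (i + 1) * FreeGroup.of i *
      (FreeGroup.of (i + 1) * FreeGroup.of i * FreeGroup.of (i + 1))⁻¹) = 1 :=
    PresentedGroup.one_of_mem (Or.inr ⟨i, rfl⟩)
  rw [map_mul, map_inv, mul_inv_eq_one] at h1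
  simp only [map_mul] at h1
  exact h1

/-- the braid σ k σ (k + 1) ... σ (k + m - 1) -/
def tv : ℕ → ℕ → Br
  | _, 0 => 1
  | k, m + 1 => σ k * tv (k + 1) m

theorem tv_mem {n : ℕ} (m : ℕ) : ∀ k, k + m < n → tv k m ∈ BN n := by
  induction m with
  | zero =>
    intro k _
    exact one_mem _
  | succ m ih =>
    intro k hk
    exact mul_mem (σ_mem (by omega)) (ih (k + 1) (by omega))

theorem perm_tv (m : ℕ) : ∀ k, perm (tv k m) (k + m) = k := by
  induction m with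
  | zero =>
    intro k
    rw [tv, map_one]
    rfl
  | succ m ih =>
    intro k
    have h := ih (k + 1)
    rw [tv, map_mul, Equiv.Perm.mul_apply, show k + (m + 1) = k + 1 + m by omega, h, perm_σ, Equiv.swap_apply_right]

theorem σ_tv_left {j : ℕ} (m : ℕ) : ∀ k, j + 2 ≤ k → σ j * tv k m = tv k m * σ j := by
  induction m with
  | zero =>
    intro k _
    rw [tv, mul_one, one_mul]
  | succ m ih =>
    intro k hk
    rw [tv, ← mul_assoc, σ_far hk, mul_assoc, ih (k + 1) (by omega), mul_assoc]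

theorem σ_tv_mid (j : ℕ) : ∀ k m, j + 2 ≤ m → σ (k + j + 1) * tv k m = tv k m * σ (k + j) := by
  induction j with
  | zero =>
    intro k m hm
    obtain ⟨m, rfl⟩ : ∃ m', m = m' + 2 := ⟨m - 2, by omega⟩
    rw [tv, tv, add_zero]
    calc σ (k + 1) * (σ k * (σ (k + 1) * tv (k + 1 + 1) m))
        = (σ (k + 1) * σ k * σ (k + 1)) * tv (k + 1 + 1) m := by group
      _ = σ k * σ (k + 1) * (σ k * tv (k + 1 + 1) m) := by rw [← σ_braid]; group
      _ = σ k * (σ (k + 1) * tv (k + 1 + 1) m) * σ k := by rw [σ_tv_left m (k + 1 + 1) le_rfl]; group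
  | succ j ih =>
    intro k m hm
    obtain ⟨m, rfl⟩ : ∃ m', m = m' + 1 := ⟨m - 1, by omega⟩
    have h := ih (k + 1) m (by omega)
    rw [show k + 1 + j + 1 = k + (j + 1) + 1 by omega, show k + 1 + j = k + (j + 1) by omega] at h
    rw [tv, ← mul_assoc, ← σ_far (show k + 2 ≤ k + (j + 1) + 1 by omega), mul_assoc, h, mul_assoc]

theorem SqN_mem {n i : ℕ} {c : Br} (hc : c ∈ BN n) (hi : i + 1 < n) : c * (σ i) ^ 2 * c⁻¹ ∈ SqN n :=
  Subgroup.subset_closure ⟨c, hc, i, hi, rfl⟩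

theorem SqN_mono {n m : ℕ} (h : n ≤ m) : SqN n ≤ SqN m := by
  refine Subgroup.closure_mono ?_
  rintro x ⟨c, hc, i, hi, rfl⟩
  exact ⟨c, BN_mono h hc, i, by omega, rfl⟩

theorem SqN_le_PN {n : ℕ} : SqN n ≤ PN n := by
  refine (Subgroup.closure_le _).2 ?_
  rintro x ⟨c, hc, i, hi, rfl⟩
  refine PN_conj hc ?_
  rw [PN, Subgroup.mem_inf, MonoidHom.mem_ker]
  refine ⟨pow_mem (σ_mem hi) _, ?_⟩
  rw [map_pow, perm_σ, pow_two, Equiv.swap_mul_self]

/-- g is in one of the cosets of the braid group on N strands, modulo the squares -/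
def Cos (N : ℕ) (g : Br) : Prop := ∃ k m, k + m = N ∧ ∃ x ∈ BN N, ∃ ν ∈ SqN (N + 1), g = tv k m * x * ν

theorem Cos.step {N j : ℕ} (hj : j + 1 < N + 1) {y : Br} (hy : Cos N y) : Cos N (σ j * y) := by
  obtain ⟨k, m, hkm, x, hx, ν, hν, rfl⟩ := hy
  rcases Nat.lt_trichotomy j k with h | h | h
  · by_cases h1 : j + 1 = k
    · refine ⟨j, m + 1, by omega, x, hx, ν, hν, ?_⟩
      rw [tv, h1, mul_assoc, mul_assoc, mul_assoc]
    · refine ⟨k, m, hkm, σ j * x, mul_mem (σ_mem (by omega)) hx, ν, hν, ?_⟩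
      calc σ j * (tv k m * x * ν) = (σ j * tv k m) * x * ν := by rw [mul_assoc, mul_assoc, mul_assoc]
        _ = tv k m * (σ j * x) * ν := by rw [σ_tv_left m k (by omega), mul_assoc (tv k m)]
  · subst h
    obtain ⟨m, rfl⟩ : ∃ m', m = m' + 1 := ⟨m - 1, by omega⟩
    have hc : tv (j + 1) m * x ∈ BN (N + 1) := mul_mem (tv_mem m _ (by omega)) (BN_mono (by omega) hx)
    refine ⟨j + 1, m, by omega, x, hx, (tv (j + 1) m * x)⁻¹ * (σ j) ^ 2 * (tv (j + 1) m * x) * ν, ?_, ?_⟩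
    · have h2 := SqN_mem (inv_mem hc) hj
      rw [inv_inv] at h2
      exact mul_mem h2 hν
    · rw [tv, pow_two]
      generalize tv (j + 1) m = t
      group
  · obtain ⟨i, rfl⟩ : ∃ i, j = k + i + 1 := ⟨j - k - 1, by omega⟩
    refine ⟨k, m, hkm, σ (k + i) * x, mul_mem (σ_mem (by omega)) hx, ν, hν, ?_⟩
    calc σ (k + i + 1) * (tv k m * x * ν) = (σ (k + i + 1) * tv k m) * x * ν := by
          rw [mul_assoc, mul_assoc, mul_assoc]
      _ = tv k m * (σ (k + i) * x) * ν := by rw [σ_tv_mid i k m (by omega), mul_assoc (tv k m)]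

theorem Cos.mul {N : ℕ} {y : Br} (hy : Cos N y) {q : Br} (hq : q ∈ SqN (N + 1)) : Cos N (y * q) := by
  obtain ⟨k, m, hkm, x, hx, ν, hν, rfl⟩ := hy
  exact ⟨k, m, hkm, x, hx, ν * q, mul_mem hν hq, by rw [mul_assoc]⟩

theorem coset {N : ℕ} {g : Br} (hg : g ∈ BN (N + 1)) : Cos N g := by
  unfold BN at hg
  induction hg using Subgroup.closure_induction_left with
  | one => exact ⟨N, 0, rfl, 1, one_mem _, 1, one_mem _, by rw [tv, mul_one, mul_one]⟩
  | mul_left s hs y _ hy =>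
    obtain ⟨j, hj, rfl⟩ := hs
    exact hy.step hj
  | inv_mul_cancel s hs y hy0 hy =>
    obtain ⟨j, hj, rfl⟩ := hs
    have h2 := SqN_mem (n := N + 1) (inv_mem hy0) hj
    rw [inv_inv] at h2
    have h3 := (hy.step hj).mul (inv_mem h2)
    have e : σ j * y * (y⁻¹ * σ j ^ 2 * y)⁻¹ = (σ j)⁻¹ * y := by group
    rw [e] at h3
    exact h3

theorem PN_gen (n : ℕ) (g : Br) (hg : g ∈ PN n) :
    g ∈ Subgroup.closure {x | ∃ c ∈ BN n, ∃ i, i + 1 < n ∧ x = c * (σ i) ^ 2 * c⁻¹} := by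
  change g ∈ SqN n
  induction n generalizing g with
  | zero =>
    have h0 : BN 0 = ⊥ := by
      unfold BN
      rw [Subgroup.closure_eq_bot_iff]
      rintro x ⟨i, hi, -⟩
      omega
    have h1 : g = 1 := by
      have h2 : g ∈ BN 0 := (PN_iff.1 hg).1
      rwa [h0, Subgroup.mem_bot] at h2
    rw [h1]
    exact one_mem _
  | succ N ih =>
    obtain ⟨k, m, hkm, x, hx, ν, hν, rfl⟩ := coset hg.1
    have hp := (PN_iff.1 hg).2 N
    have hνp := (PN_iff.1 (SqN_le_PN hν)).2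
    rw [map_mul, map_mul, Equiv.Perm.mul_apply, Equiv.Perm.mul_apply, hνp, (perm_lt hx).2 N le_rfl, ← hkm,
      perm_tv] at hp
    have hm : m = 0 := by omega
    subst hm
    rw [tv, one_mul] at hg ⊢
    refine mul_mem (SqN_mono (Nat.le_succ N) (ih x ?_)) hν
    refine PN_iff.2 ⟨hx, fun y => ?_⟩
    have h2 := (PN_iff.1 hg).2 y
    rw [map_mul, Equiv.Perm.mul_apply, hνp] at h2
    exact h2

end SLC
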