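import Pool.Agent.SLC.Quo

/-!
String links, abstract part: the group of closures modulo C_d-equivalence, its filtration, and cubes of closures.
-/

set_option autoImplicit false

open scoped commutatorElement

namespace SLC

namespace CSys

variable {M : Type} [Monoid M] {Q : CSys M} {d : ℕ} {G : Type} [Group G]

namespace Quo

variable (π : Q.Quo d G)

/-- the filtration of the group of closures modulo C_d-equivalence -/
def FF (k : ℕ) : Subgroup G := Subgroup.closure {g | ∃ (l : Q.Lev) (a : Q.P l), a ∈ Gm (Q.P l) k ∧ g = π.cls (Q.S l a)}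

theorem FF_anti {i j : ℕ} (h : i ≤ j) : π.FF j ≤ π.FF i := by
  refine Subgroup.closure_mono ?_
  rintro _ ⟨l, a, ha, rfl⟩
  exact ⟨l, a, Gm_anti _ h ha, rfl⟩

theorem cls_S_mem {k : ℕ} {l : Q.Lev} {a : Q.P l} (ha : a ∈ Gm (Q.P l) k) : π.cls (Q.S l a) ∈ π.FF k :=
  Subgroup.subset_closure ⟨l, a, ha, rfl⟩

theorem FF_top : π.FF 1 = ⊤ := by
  rw [eq_top_iff]
  intro g _
  obtain ⟨_, ⟨l, a, rfl⟩, rfl⟩ := π.surj g
  exact π.cls_S_mem trivial

theorem FF_zero : π.FF 0 = ⊤ := by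
  rw [eq_top_iff, ← π.FF_top]
  exact π.FF_anti (by omega)

theorem cls_Pr [Nonempty Q.Lev] {k : ℕ} {x : M} (hx : x ∈ Q.Pr k) : π.cls x ∈ π.FF k := by
  induction hx using Submonoid.closure_induction with
  | mem x hx =>
    obtain ⟨l, a, ha, rfl⟩ := hx
    exact π.cls_S_mem ha
  | one => rw [π.cls_one]; exact one_mem _
  | mul x y hx' hy' hx hy =>
    rw [π.cls_mul _ _ (Pr_isCl hx') (Pr_isCl hy')]
    exact mul_mem hx hy

theorem cls_eq {x y : M} (hx : Q.IsCl x) (h : Q.Ceq d x y) : π.cls x = π.cls y :=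
  (π.eq_iff _ _ hx (h.isCl.mp hx)).mpr h

theorem mem_of_Ceq [Nonempty Q.Lev] {k : ℕ} (hk : 1 ≤ k) (hkd : k ≤ d) {x y : M} (h : Q.Ceq k x y) :
    Q.IsCl x → π.cls x * (π.cls y)⁻¹ ∈ π.FF k := by
  induction h with
  | rel x y h =>
    intro _
    obtain ⟨l, g, γ, hγ, rfl, rfl⟩ := h
    obtain ⟨c, hc, hcz⟩ := split (Q := Q) d (d - k) k hk (by omega) l g γ hγ
    have h1 := hcz d (by omega) 1 (one_mem _)
    rw [mul_one, mul_one, min_eq_right (by omega)] at h1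
    rw [π.cls_eq (Q.isCl_S _ _) h1, π.cls_mul _ _ (Pr_isCl hc) (Q.isCl_S _ _), mul_inv_rev, mul_inv_cancel_left]
    exact inv_mem (π.cls_Pr hc)
  | refl => intro _; rw [mul_inv_cancel]; exact one_mem _
  | symm x y h ih =>
    intro hy
    have h1 := inv_mem (ih ((Ceq.isCl h).mpr hy))
    rwa [mul_inv_rev, inv_inv] at h1
  | trans x y z h _ ih ih' =>
    intro hx
    have h1 := mul_mem (ih hx) (ih' ((Ceq.isCl h).mp hx))
    rwa [show π.cls x * (π.cls y)⁻¹ * (π.cls y * (π.cls z)⁻¹) = π.cls x * (π.cls z)⁻¹ by group] at h1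

theorem exists_of_mem [Nonempty Q.Lev] (hd : 1 ≤ d) {k : ℕ} (hkd : k ≤ d) {g : G} (h : g ∈ π.FF k) :
    ∃ x, Q.IsCl x ∧ π.cls x = g ∧ Q.Ceq k x 1 := by
  induction h using Subgroup.closure_induction with
  | mem g hg =>
    obtain ⟨l, a, ha, rfl⟩ := hg
    refine ⟨Q.S l a, Q.isCl_S _ _, rfl, ?_⟩
    have h1 := Ceq.of (Q := Q) (1 : Q.P l) ha
    rw [one_mul, Q.S_one] at h1
    exact h1.symm
  | one => exact ⟨1, Q.isCl_one, π.cls_one, Ceq.refl _ _⟩
  | mul g g' _ _ h h' =>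
    obtain ⟨x, hx, rfl, hx1⟩ := h
    obtain ⟨y, hy, rfl, hy1⟩ := h'
    refine ⟨x * y, hx.mul hy, π.cls_mul _ _ hx hy, ?_⟩
    have h1 := Ceq.mul hx1 hy1 Q.isCl_one hy
    rwa [one_mul] at h1
  | inv g _ h =>
    obtain ⟨x, hx, rfl, hx1⟩ := h
    obtain ⟨y, hy, hyx⟩ := exists_left_inv hd hx
    refine ⟨y, hy, ?_, ?_⟩
    · have h1 := π.cls_eq (hy.mul hx) hyx
      rw [π.cls_mul _ _ hy hx, π.cls_one] at h1
      exact eq_inv_of_mul_eq_one_left h1
    · have h1 := Ceq.mul_left hx1 hy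
      rw [mul_one] at h1
      exact h1.symm.trans (hyx.mono hkd)

theorem mem_FF_iff [Nonempty Q.Lev] (hd : 1 ≤ d) {k : ℕ} (hk : 1 ≤ k) (hkd : k ≤ d) {x : M} (hx : Q.IsCl x) :
    π.cls x ∈ π.FF k ↔ Q.Ceq k x 1 := by
  constructor
  · intro h
    obtain ⟨y, hy, hyx, hy1⟩ := π.exists_of_mem hd hkd h
    exact (((π.eq_iff _ _ hy hx).mp hyx).symm.mono hkd).trans hy1
  · intro h
    have h1 := π.mem_of_Ceq hk hkd h hx
    rwa [π.cls_one, inv_one, mul_one] at h1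

theorem FF_bot [Nonempty Q.Lev] {k : ℕ} (hkd : d ≤ k) : π.FF k = ⊥ := by
  rw [eq_bot_iff]
  refine (Subgroup.closure_le _).mpr ?_
  rintro _ ⟨l, a, ha, rfl⟩
  have h1 := Ceq.of (Q := Q) (1 : Q.P l) (Gm_anti _ hkd ha)
  rw [one_mul, Q.S_one] at h1
  rw [← π.cls_eq Q.isCl_one h1, π.cls_one]
  exact one_mem _

theorem FF_min [Nonempty Q.Lev] (k : ℕ) : π.FF (min k d) ≤ π.FF k := by
  rcases le_total k d with h | h
  · rw [min_eq_left h]
  · rw [min_eq_right h, π.FF_bot le_rfl]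
    exact bot_le

theorem FF_normal [Nonempty Q.Lev] (hd : 1 ≤ d) (k : ℕ) (n : G) (hn : n ∈ π.FF k) (g : G) : g * n * g⁻¹ ∈ π.FF k := by
  rcases Nat.eq_zero_or_pos k with hk | hk
  · subst hk
    rw [π.FF_zero]
    trivial
  rcases le_total k d with h | h
  · obtain ⟨x, hx, rfl, hx1⟩ := π.exists_of_mem hd h hn
    obtain ⟨y, hy, rfl⟩ := π.surj g
    have h1 := Ceq.mul_left hx1 hy
    rw [mul_one] at h1
    have h2 := π.mem_of_Ceq hk h h1 (hy.mul hx)
    rwa [π.cls_mul _ _ hy hx] at h2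
  · rw [π.FF_bot h, Subgroup.mem_bot] at hn ⊢
    rw [hn]
    group

theorem FF_comm_gen [Nonempty Q.Lev] {i j : ℕ} (hi : 1 ≤ i) (hj : 1 ≤ j) {l l' : Q.Lev} {a : Q.P l} {a' : Q.P l'}
    (ha : a ∈ Gm (Q.P l) i) (ha' : a' ∈ Gm (Q.P l') j) : ⁅π.cls (Q.S l a), π.cls (Q.S l' a')⁆ ∈ π.FF (i + j) := by
  rcases Nat.lt_or_ge d i with hdi | hid
  · have h1 := π.cls_S_mem ha
    rw [π.FF_bot hdi.le, Subgroup.mem_bot] at h1
    rw [h1, commutatorElement_one_left]
    exact one_mem _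
  set L := Q.cmp l' l with hL
  set A : Q.P L := Q.lo l' l a with hA
  set A' : Q.P L := Q.up l' l a' with hA'
  have hAm : A ∈ Gm (Q.P L) i := Gm_map _ ha
  have hAm' : A' ∈ Gm (Q.P L) j := Gm_map _ ha'
  have e1 : Q.S l a = Q.S L A := by
    have := Q.S_cmp l' l 1 a
    rw [map_one, one_mul, Q.S_one, one_mul] at this
    exact this.symm
  have e2 : Q.S l' a' = Q.S L A' := by
    have := Q.S_cmp l' l a' 1
    rw [map_one, mul_one, Q.S_one, mul_one] at this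
    exact this.symm
  have e3 : Q.S l' a' * Q.S l a = Q.S L (A' * A) := (Q.S_cmp _ _ _ _).symm
  obtain ⟨c, hc, hcz⟩ := split (Q := Q) d (d - i) i hi (by omega) L 1 A hAm
  have h1 : Q.Ceq d (Q.S L A) c := by
    have := hcz d (by omega) 1 (one_mem _)
    rw [mul_one, one_mul, mul_one, Q.S_one, mul_one, min_eq_right (by omega)] at this
    exact this
  have h2 : Q.Ceq (min (i + j) d) (Q.S L (A * A')) (c * Q.S L A') := by
    have := hcz j hj A' hAm'
    rwa [one_mul, one_mul] at this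
  have h3 : Q.Ceq (min (i + j) d) (c * Q.S L A') (Q.S l a * Q.S l' a') := by
    rw [e1, e2]
    exact (Ceq.mul_right h1.symm (Q.isCl_S _ _)).mono (by omega)
  have h4 : Q.Ceq (min (i + j) d) (Q.S L (A * A')) (Q.S l' a' * Q.S l a) := by
    rw [e3]
    refine (Ceq.mid (k := i + j) ?_).mono (by omega)
    have := (Gm_filt (Q.P L)).comm j i (Subgroup.commutator_mem_commutator (inv_mem hAm') (inv_mem hAm))
    rw [add_comm] at this
    rwa [show (A * A')⁻¹ * (A' * A) = ⁅A'⁻¹, A⁻¹⁆ by simp only [commutatorElement_def]; group]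
  have h5 := π.mem_of_Ceq (by omega) (by omega) ((h3.symm.trans h2.symm).trans h4)
    ((Q.isCl_S _ _).mul (Q.isCl_S _ _))
  rw [π.cls_mul _ _ (Q.isCl_S _ _) (Q.isCl_S _ _), π.cls_mul _ _ (Q.isCl_S _ _) (Q.isCl_S _ _)] at h5
  have h6 := π.FF_min _ h5
  rwa [show ⁅π.cls (Q.S l a), π.cls (Q.S l' a')⁆ = π.cls (Q.S l a) * π.cls (Q.S l' a') *
    (π.cls (Q.S l' a') * π.cls (Q.S l a))⁻¹ by simp only [commutatorElement_def]; group]

theorem FF_filt [Nonempty Q.Lev] (hd : 1 ≤ d) : Filt π.FF where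
  top := π.FF_top
  zero := π.FF_zero
  anti i := π.FF_anti (by omega)
  comm := by
    have key : ∀ i j, ⁅π.FF (i + 1), π.FF (j + 1)⁆ ≤ π.FF (i + 1 + (j + 1)) := by
      intro i j
      refine closure_commutator_le ?_ ?_ ?_
      · intro a _ n hn
        exact π.FF_normal hd _ n hn a
      · intro a _ n hn
        exact π.FF_normal hd _ n hn a
      · rintro _ ⟨l, a, ha, rfl⟩ _ ⟨l', a', ha', rfl⟩
        exact π.FF_comm_gen (by omega) (by omega) ha ha'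
    have h0 : ∀ i, π.FF i ≤ π.FF (i - 1 + 1) := by
      intro i
      rcases i with _ | i
      · rw [π.FF_zero, show 0 - 1 + 1 = 1 from rfl, π.FF_top]
      · exact le_rfl
    intro i j
    exact (Subgroup.commutator_mono (h0 i) (h0 j)).trans ((key _ _).trans (π.FF_anti (by omega)))

/-- one generator of the group of cubes -/
theorem cube_gen [Nonempty Q.Lev] {r j : ℕ} (hj : 1 ≤ j)
    (ih : ∀ (l : Q.Lev) (b q : (Fin r → Bool) → Q.P l), b ∈ HK r (Gm (Q.P l)) →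
      q ∈ HK r (fun i => Gm (Q.P l) (max i (j + 1))) →
      ∃ c ∈ HK r π.FF, ∀ e, π.cls (Q.S l (b e * q e)) = c e * π.cls (Q.S l (b e)))
    (l : Q.Lev) (b : (Fin r → Bool) → Q.P l) (hb : b ∈ HK r (Gm (Q.P l))) (w : Finset (Fin r)) (g : Q.P l)
    (hg : g ∈ Gm (Q.P l) (max w.card j)) :
    ∃ c ∈ HK r π.FF, ∀ e, π.cls (Q.S l (b e * gen w g e)) = c e * π.cls (Q.S l (b e)) := by
  rcases Nat.lt_or_ge j w.card with hjw | hwj
  · refine ih l b (gen w g) hb (gmem ?_)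
    have h1 : max w.card (j + 1) = max w.card j := by omega
    rwa [h1]
  rw [max_eq_right hwj] at hg
  obtain ⟨h, h', q', hh, hh', hq', hlo, hSh, hSh'⟩ := Q.iso l j g hj hg
  have hF := Gm_filt (Q.P (Q.cmp l l))
  set B : (Fin r → Bool) → Q.P (Q.cmp l l) := fun e => Q.lo l l (b e) with hB
  have hBm : B ∈ HK r (Gm (Q.P (Q.cmp l l))) := HK_map (Q.lo l l) (fun i g hg => Gm_map _ hg) hb
  have hup : Q.up l l g ∈ Gm (Q.P (Q.cmp l l)) j := Gm_map _ hg
  set U : (Fin r → Bool) → Q.P (Q.cmp l l) := gen w (Q.up l l g) with hU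
  set H : (Fin r → Bool) → Q.P (Q.cmp l l) := gen w h with hH
  set H' : (Fin r → Bool) → Q.P (Q.cmp l l) := gen w h' with hH'
  set Q' : (Fin r → Bool) → Q.P (Q.cmp l l) := gen w q' with hQ'
  have hjm : ∀ x ∈ Gm (Q.P (Q.cmp l l)) j, gen w x ∈ HK r (fun i => Gm (Q.P (Q.cmp l l)) (max i j)) := by
    intro x hx
    refine gmem ?_
    rwa [max_eq_right hwj]
  have hjm' : ∀ x ∈ Gm (Q.P (Q.cmp l l)) j, gen w x ∈ HK r (Gm (Q.P (Q.cmp l l))) := by
    intro x hx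
    exact gmem (Gm_anti _ hwj hx)
  have hw1 : ⁅B⁻¹, H⁻¹⁆ ∈ HK r (fun i => Gm (Q.P (Q.cmp l l)) (max i (j + 1))) :=
    hF.HK_comm_max j (Subgroup.commutator_mem_commutator (inv_mem hBm) (inv_mem (hjm _ hh)))
  have hw2 : ⁅B⁻¹, U⁻¹⁆ ∈ HK r (fun i => Gm (Q.P (Q.cmp l l)) (max i (j + 1))) :=
    hF.HK_comm_max j (Subgroup.commutator_mem_commutator (inv_mem hBm) (inv_mem (hjm _ hup)))
  set q2 : (Fin r → Bool) → Q.P (Q.cmp l l) := ⁅B⁻¹, U⁻¹⁆ * (U⁻¹ * ⁅B⁻¹, H⁻¹⁆ * U⁻¹⁻¹) * (H' * Q' * H'⁻¹) with hq2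
  have hq2m : q2 ∈ HK r (fun i => Gm (Q.P (Q.cmp l l)) (max i (j + 1))) := by
    refine mul_mem (mul_mem hw2 (hF.HK_conj_max (j + 1) _ (inv_mem (hjm' _ hup)) _ hw1)) ?_
    refine hF.HK_conj_max (j + 1) _ (hjm' _ hh') _ (gmem ?_)
    rwa [max_eq_right (by omega)]
  obtain ⟨c, hc, hcz⟩ := ih (Q.cmp l l) (U * B) q2 (mul_mem (hjm' _ hup) hBm) hq2m
  refine ⟨c * gen w (π.cls (Q.S l g)), mul_mem hc (gmem (π.FF_anti hwj (π.cls_S_mem hg))), ?_⟩
  intro e
  have e1 : Q.S l (b e * gen w g e) = Q.S (Q.cmp l l) (Q.lo l l (b e * gen w g e)) := by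
    have := Q.S_cmp l l 1 (b e * gen w g e)
    rw [map_one, one_mul, Q.S_one, one_mul] at this
    exact this.symm
  have e2 : Q.lo l l (b e * gen w g e) = H e * (U e * B e * q2 e * H' e) := by
    have h1 : gen w (Q.lo l l g) = H * U * H' * Q' := by
      rw [hlo, gen_mul, gen_mul, gen_mul]
    rw [map_mul, ← gen_map, h1, hq2]
    simp only [commutatorElement_def, Pi.mul_apply, Pi.inv_apply]
    have h2 : Q.lo l l (b e) = B e := rfl
    rw [h2]
    group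
  have e3 : ∀ x, Q.S (Q.cmp l l) (H e * x) = Q.S (Q.cmp l l) x := by
    intro x
    by_cases hw : ∀ i ∈ w, e i = true
    · rw [hH, gen_pos hw]
      exact hSh x
    · rw [hH, gen_neg hw, one_mul]
  have e4 : ∀ x, Q.S (Q.cmp l l) (x * H' e) = Q.S (Q.cmp l l) x := by
    intro x
    by_cases hw : ∀ i ∈ w, e i = true
    · rw [hH', gen_pos hw]
      exact hSh' x
    · rw [hH', gen_neg hw, mul_one]
  have e5 : Q.S (Q.cmp l l) ((U * B) e) = Q.S l (gen w g e) * Q.S l (b e) := by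
    rw [← Q.S_cmp, ← gen_map]
    rfl
  have e6 : π.cls (Q.S l (gen w g e)) = gen w (π.cls (Q.S l g)) e := by
    by_cases hw : ∀ i ∈ w, e i = true
    · rw [gen_pos hw, gen_pos hw]
    · rw [gen_neg hw, gen_neg hw, Q.S_one, π.cls_one]
  have e7 := hcz e
  rw [e5, π.cls_mul _ _ (Q.isCl_S _ _) (Q.isCl_S _ _), e6] at e7
  rw [e1, e2, e3, e4, show U e * B e * q2 e = (U * B) e * q2 e from rfl, e7, Pi.mul_apply, mul_assoc]

/-- P(j): a cube of Gm (max i j) splits off from a cube of closures -/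
theorem cube_split [Nonempty Q.Lev] (r : ℕ) : ∀ n j : ℕ, 1 ≤ j → j + n = d →
    ∀ (l : Q.Lev) (b q : (Fin r → Bool) → Q.P l), b ∈ HK r (Gm (Q.P l)) →
      q ∈ HK r (fun i => Gm (Q.P l) (max i j)) →
      ∃ c ∈ HK r π.FF, ∀ e, π.cls (Q.S l (b e * q e)) = c e * π.cls (Q.S l (b e)) := by
  intro n
  induction n with
  | zero =>
    intro j hj hjd l b q hb hq
    refine ⟨1, one_mem _, ?_⟩
    intro e
    have h1 : q e ∈ Gm (Q.P l) d := HK_apply (fun i => Gm_anti _ (by omega)) hq e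
    rw [Pi.one_apply, one_mul]
    exact (π.cls_eq (Q.isCl_S _ _) (Ceq.of (b e) h1)).symm
  | succ n ih =>
    intro j hj hjd l b q hb hq
    have ih' := ih (j + 1) (by omega) (by omega)
    have key : ∀ (b' : (Fin r → Bool) → Q.P l), b' ∈ HK r (Gm (Q.P l)) → ∀ (w : Finset (Fin r)) (g : Q.P l),
        g ∈ Gm (Q.P l) (max w.card j) →
        ∃ c ∈ HK r π.FF, ∀ e, π.cls (Q.S l (b' e * gen w g e)) = c e * π.cls (Q.S l (b' e)) :=
      fun b' hb' w g hg => π.cube_gen hj ih' l b' hb' w g hg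
    have hmono : HK r (fun i => Gm (Q.P l) (max i j)) ≤ HK r (Gm (Q.P l)) := HK_mono fun i => Gm_anti _ (by omega)
    induction hq using Subgroup.closure_induction_right with
    | one =>
      refine ⟨1, one_mem _, ?_⟩
      intro e
      simp
    | mul_right x hx y hy hxy =>
      obtain ⟨w, g, hg, rfl⟩ := hy
      obtain ⟨c, hc, hce⟩ := hxy
      obtain ⟨c', hc', hce'⟩ := key (b * x) (mul_mem hb (hmono hx)) w g hg
      refine ⟨c' * c, mul_mem hc' hc, ?_⟩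
      intro e
      have h1 := hce' e
      simp only [Pi.mul_apply] at h1 ⊢
      rw [← mul_assoc, h1, hce e, mul_assoc]
    | mul_inv_cancel x hx y hy hxy =>
      obtain ⟨w, g, hg, rfl⟩ := hy
      obtain ⟨c, hc, hce⟩ := hxy
      obtain ⟨c', hc', hce'⟩ := key (b * x) (mul_mem hb (hmono hx)) w g⁻¹ (inv_mem hg)
      refine ⟨c' * c, mul_mem hc' hc, ?_⟩
      intro e
      have h1 := hce' e
      rw [ginv] at h1
      simp only [Pi.mul_apply] at h1 ⊢
      rw [← mul_assoc, h1, hce e, mul_assoc]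

/-- closures of a cube of elements form a cube -/
theorem cube_cls [Nonempty Q.Lev] (hd : 1 ≤ d) {r : ℕ} {l : Q.Lev} {q : (Fin r → Bool) → Q.P l}
    (hq : q ∈ HK r (Gm (Q.P l))) : (fun e => π.cls (Q.S l (q e))) ∈ HK r π.FF := by
  have hq' : q ∈ HK r (fun i => Gm (Q.P l) (max i 1)) := by
    refine HK_mono ?_ hq
    intro i
    rcases i with _ | i
    · exact le_rfl
    · rw [max_eq_left (by omega)]
  obtain ⟨c, hc, hce⟩ := π.cube_split r (d - 1) 1 le_rfl (by omega) l 1 q (one_mem _) hq'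
  have h1 : (fun e => π.cls (Q.S l (q e))) = c := by
    ext e
    have h2 := hce e
    rwa [Pi.one_apply, one_mul, Q.S_one, π.cls_one, mul_one] at h2
  rw [h1]
  exact hc

end Quo

end CSys

end SLC
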