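import Pool.Agent.SLC.Gen2
import Pool.Agent.SLC.Top6
import Pool.Agent.SLC.Struct

/-!
Classes of closures of elements of the term k modulo C_(k+1)-equivalence; the relation at a turn of a component.
-/

set_option autoImplicit false

namespace SLC

/-! ### turns -/

/-- the strands p, p + 1 lie in one block -/
def adjB : List ℕ → ℕ → Prop
  | [], _ => False
  | b :: r, p => p + 1 ≤ 2 * b ∨ (2 * b + 1 ≤ p ∧ adjB r (p - (2 * b + 1)))

theorem adjB_turn (r : List ℕ) : ∀ p, adjB r p → p + 1 < width r ∧ ∀ o,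
    (∃ A, caps o r = A * C (o + p)) ∨ ∃ B, cups o r = U (o + p) * B := by
  induction r with
  | nil => intro p hp; exact hp.elim
  | cons b r ih =>
    rintro p (hp | ⟨hp1, hp2⟩)
    · refine ⟨by rw [width]; omega, fun o => ?_⟩
      rcases Nat.even_or_odd p with ⟨e, he⟩ | ⟨e, he⟩
      · left
        obtain ⟨A, hA⟩ := caps_C (o := o) r (show e < b by omega)
        have e1 : o + 2 * e = o + p := by omega
        rw [e1] at hA
        exact ⟨A, hA⟩
      · right
        obtain ⟨B, hB⟩ := cups_U (o := o) r (show e < b by omega)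
        have e2 : o + 1 + 2 * e = o + p := by omega
        rw [e2] at hB
        exact ⟨B, hB⟩
    · obtain ⟨h1, h2⟩ := ih _ hp2
      refine ⟨by rw [width]; omega, fun o => ?_⟩
      have e1 : o + (2 * b + 1) + (p - (2 * b + 1)) = o + p := by omega
      rcases h2 (o + (2 * b + 1)) with ⟨A, hA⟩ | ⟨B, hB⟩
      · left
        rw [e1] at hA
        exact ⟨capRow o b * A, by rw [caps, hA, mul_assoc]⟩
      · right
        rw [e1] at hB
        exact ⟨B * cupRow (o + 1) b, by rw [cups, hB, mul_assoc]⟩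

/-- braids on the strands 2, 3, ... commute with a maximum and a minimum at 0 -/
theorem CU_BU {N : ℕ} {e : Br} (he : e ∈ BU 2 N) : ∃ e' : Br, C 0 * T e = T e' * C 0 ∧ T e * U 0 = U 0 * T e' := by
  induction he using Subgroup.closure_induction with
  | mem x hx =>
    obtain ⟨i, hi, _, rfl⟩ := hx
    obtain ⟨j, rfl⟩ : ∃ j, i = j + 2 := ⟨i - 2, by omega⟩
    exact ⟨σ j, Cσ_right (Nat.zero_le _), σU_right (Nat.zero_le _)⟩
  | one => exact ⟨1, by simp, by simp⟩
  | mul x y _ _ hx hy =>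
    obtain ⟨x', h1, h2⟩ := hx
    obtain ⟨y', h3, h4⟩ := hy
    exact ⟨x' * y', cap_mul h1 h3, cup_mul h2 h4⟩
  | inv x _ hx =>
    obtain ⟨x', h1, h2⟩ := hx
    exact ⟨x'⁻¹, cap_inv h1, cup_inv h2⟩

/-- conjugation of a braid which disappears at a turn at 0 -/
theorem turn_conj {N p : ℕ} {c : Br} (hc : c ∈ BN N) (hp : p + 2 ≤ N) (h0 : perm c 0 = p) (h1 : perm c 1 = p + 1) :
    ∃ c' ∈ BN N, perm c' = perm c ∧ ∀ h : Br, (C 0 * T h = C 0 → C p * T (c' * h * c'⁻¹) = C p) ∧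
      (T h * U 0 = U 0 → T (c' * h * c'⁻¹) * U p = U p) := by
  have hz : zv 0 p ∈ BN N := zv_mem 0 p (by omega)
  obtain ⟨e, he, hpe⟩ := exists_braid 2 N (perm (zv 0 p * c)) (by
    intro x hx
    rw [map_mul, Equiv.Perm.mul_apply, perm_zv]
    interval_cases x
    · rw [h0]
      split_ifs <;> omega
    · rw [h1]
      split_ifs <;> omega) (perm_lt (mul_mem hz hc)).2
  have c1 : C p * T (zv 0 p)⁻¹ = C 0 := by
    have := C_zv 0 p
    rw [Nat.zero_add] at this
    rw [← this, mul_assoc, T_mul_inv, mul_one]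
  have u1 : T (zv 0 p)⁻¹ * U 0 = U p := by
    have := zv_U 0 p
    rw [Nat.zero_add] at this
    rw [← this, ← mul_assoc, T_inv_mul, one_mul]
  obtain ⟨e', h2, h3⟩ := CU_BU he
  refine ⟨(zv 0 p)⁻¹ * e, mul_mem (inv_mem hz) (BU_le he), ?_, fun h => ⟨fun hh => ?_, fun hh => ?_⟩⟩
  · rw [map_mul, hpe, map_mul, map_inv]
    group
  · have a1 : C p * T ((zv 0 p)⁻¹ * e) = T e' * C 0 := by rw [T_mul, ← mul_assoc, c1, h2]
    have a2 : C 0 * T h = T 1 * C 0 := by rw [hh, T_one, one_mul]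
    have := cap_mul (cap_mul a1 a2) (cap_inv a1)
    simpa using this
  · have a1 : T ((zv 0 p)⁻¹ * e) * U 0 = U p * T e' := by rw [T_mul, mul_assoc, h3, ← mul_assoc, u1]
    have a2 : T h * U 0 = U 0 * T 1 := by rw [hh, T_one, mul_one]
    have := cup_mul (cup_mul a1 a2) (cup_inv a1)
    simpa using this

/-! ### classes -/

section theta

variable {m k : ℕ} {G : Type} [Group G] (π : (sys m).Quo (k + 1) G)

/-- the class of a closure -/
def th (r : List ℕ) (g : Br) : G := π.cls (cl r g)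

theorem th_cl {r : List ℕ} (hr : r.length = m) {g : Br} (hg : g ∈ PN (width r)) : (sys m).IsCl (cl r g) :=
  ⟨⟨r, hr⟩, ⟨g, hg⟩, rfl⟩

theorem th_mul (hk : 1 ≤ k) {r : List ℕ} (hr : r.length = m) {q z : Br} (hq : q ∈ Gam k (width r))
    (hz : z ∈ Gam k (width r)) : th π r (q * z) = th π r q * th π r z := by
  let l : (sys m).Lev := ⟨r, hr⟩
  let q' : (sys m).P l := ⟨q, Gam_le_PN hq⟩
  let z' : (sys m).P l := ⟨z, Gam_le_PN hz⟩
  have hq' : q' ∈ Gm ((sys m).P l) k := (mem_Gm_iff (n := width r) _).2 hq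
  have hz' : z' ∈ Gm ((sys m).P l) k := (mem_Gm_iff (n := width r) _).2 hz
  obtain ⟨c, hc, h⟩ := CSys.split (Q := sys m) (k + 1) 1 k hk rfl l 1 q' hq'
  have h1 := h k hk 1 (one_mem _)
  have h2 := h k hk z' hz'
  have e : min (k + k) (k + 1) = k + 1 := by omega
  rw [e] at h1 h2
  rw [one_mul, mul_one, one_mul, (sys m).S_one, mul_one] at h1
  rw [one_mul, one_mul] at h2
  have hcl := CSys.Pr_isCl hc
  have e1 : π.cls ((sys m).S l q') = π.cls c := π.cls_eq ((sys m).isCl_S _ _) h1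
  have e2 : π.cls ((sys m).S l (q' * z')) = π.cls (c * (sys m).S l z') := π.cls_eq ((sys m).isCl_S _ _) h2
  rw [π.cls_mul _ _ hcl ((sys m).isCl_S _ _), ← e1] at e2
  exact e2

theorem th_one {r : List ℕ} (hr : r.length = m) {q : Br} (hq : q ∈ Gam (k + 1) (width r)) : th π r q = 1 := by
  let l : (sys m).Lev := ⟨r, hr⟩
  let q' : (sys m).P l := ⟨q, Gam_le_PN hq⟩
  have hq' : q' ∈ Gm ((sys m).P l) (k + 1) := (mem_Gm_iff (n := width r) _).2 hq
  have h1 := CSys.Ceq.of (Q := sys m) (1 : (sys m).P l) hq'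
  rw [one_mul, (sys m).S_one] at h1
  have h2 := π.cls_eq (sys m).isCl_one h1
  rw [π.cls_one] at h2
  exact h2.symm

theorem th_inv (hk : 1 ≤ k) {r : List ℕ} (hr : r.length = m) {q : Br} (hq : q ∈ Gam k (width r)) :
    th π r q⁻¹ = (th π r q)⁻¹ := by
  have h := th_mul π hk hr hq (inv_mem hq)
  rw [mul_inv_cancel, th_one π hr (one_mem _)] at h
  exact (inv_eq_of_mul_eq_one_right h.symm).symm

theorem th_eqm (hk : 1 ≤ k) {r : List ℕ} (hr : r.length = m) {q z : Br} (hq : q ∈ Gam k (width r))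
    (h : Eqm (k + 1) (width r) q z) : th π r q = th π r z := by
  have e : z = q * (q⁻¹ * z) := by group
  have h1 : q⁻¹ * z ∈ Gam k (width r) := Gam_anti (by omega) h
  rw [e, th_mul π hk hr hq h1, th_one π hr h, mul_one]

theorem th_turn {r : List ℕ} {p : ℕ} (hp : adjB r p) {h : Br} (h1 : C p * T h = C p)
    (h2 : T h * U p = U p) : th π r h = 1 := by
  obtain ⟨_, ht⟩ := adjB_turn r p hp
  have e : cl r h = cl r 1 := by
    rw [cl_def, cl_def, T_one, mul_one]
    rcases ht 0 with ⟨A, hA⟩ | ⟨B, hB⟩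
    · rw [Nat.zero_add] at hA
      rw [hA, mul_assoc A, h1]
    · rw [Nat.zero_add] at hB
      rw [hB, mul_assoc, ← mul_assoc (T h), h2]
  rw [th, e, cl_one, π.cls_one]

/-- data of the doubling of the strand 0 -/
structure Dbl (k n : ℕ) (γ h : Br) : Prop where
  mem : γ ∈ Gam k n
  memh : h ∈ Gam k (n + 1)
  cap : C 0 * T h = C 0
  cup : T h * U 0 = U 0
  eq : ∀ N, n + 1 ≤ N → ∃ d₁ ∈ BN N, ∃ d₂ ∈ BN N, perm d₁ 0 = 0 ∧ perm d₂ 0 = 1 ∧
    (∀ x, 1 ≤ x → x < n → perm d₁ x = x + 1 ∧ perm d₂ x = x + 1) ∧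
    Eqm (k + 1) N h (d₁ * γ * d₁⁻¹ * (d₂ * γ * d₂⁻¹))

theorem th_class (hk : 1 ≤ k) {r : List ℕ} (hr : r.length = m) {n : ℕ} (hn : n ≤ width r) {γ c c' : Br}
    (hγ : γ ∈ Gam k n) (hc : c ∈ BN (width r)) (hc' : c' ∈ BN (width r)) (h : ∀ x < n, perm c x = perm c' x) :
    th π r (c * γ * c⁻¹) = th π r (c' * γ * c'⁻¹) := by
  obtain ⟨q, hq, e⟩ := class_indep hk hc hc' hn h hγ
  exact th_eqm π hk hr (Gam_conj hc (Gam_mono hn hγ)) (Eqm.of_mul hq e)

/-- positions of the strands after the doubling of the strand 0 -/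
def dpos (p : ℕ) (f : ℕ → ℕ) : ℕ → ℕ
  | 0 => p
  | 1 => p + 1
  | x + 2 => f (x + 1)

/-- the relation at a turn: moving a strand by one position inverts the class -/
theorem uturn (hk : 1 ≤ k) {r : List ℕ} (hr : r.length = m) {n : ℕ} (hn : 1 ≤ n) {γ h : Br} (hD : Dbl k n γ h)
    {p : ℕ} (hp : adjB r p) {c c' : Br} (hc : c ∈ BN (width r)) (hc' : c' ∈ BN (width r)) (h0 : perm c 0 = p)
    (h0' : perm c' 0 = p + 1) (hx : ∀ x, 1 ≤ x → x < n → perm c' x = perm c x ∧ perm c x ≠ p ∧ perm c x ≠ p + 1)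
    (hnw : n + 1 ≤ width r) : th π r (c * γ * c⁻¹) * th π r (c' * γ * c'⁻¹) = 1 := by
  have hpw := (adjB_turn r p hp).1
  obtain ⟨b, hb, hbp⟩ := exists_inj (n + 1) (width r) (dpos p (perm c)) (by
      intro x hxn
      rcases x with _ | _ | x
      · change p < width r
        omega
      · exact hpw
      · exact (perm_lt hc).1 _ (by omega)) (by
      have hf : ∀ x, x + 2 < n + 1 → perm c (x + 1) ≠ p ∧ perm c (x + 1) ≠ p + 1 := fun x h =>
        (hx (x + 1) (by omega) (by omega)).2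
      intro x hxn y hyn hxy
      rcases x with _ | _ | x <;> rcases y with _ | _ | y
      · rfl
      · change p = p + 1 at hxy
        omega
      · exact absurd hxy.symm (hf y hyn).1
      · change p + 1 = p at hxy
        omega
      · rfl
      · exact absurd hxy.symm (hf y hyn).2
      · exact absurd hxy (hf x hxn).1
      · exact absurd hxy (hf x hxn).2
      · have := (perm c).injective hxy
        omega)
  obtain ⟨e, he, hep, het⟩ := turn_conj hb (p := p) (by omega) (hbp 0 (by omega)) (hbp 1 (by omega))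
  obtain ⟨t1, t2⟩ := het h
  have h1 := th_turn π hp (t1 hD.cap) (t2 hD.cup)
  obtain ⟨d₁, hd₁, d₂, hd₂, p1, p2, px, hd⟩ := hD.eq (width r) hnw
  have hh : h ∈ Gam k (width r) := Gam_mono hnw hD.memh
  have hγ : γ ∈ Gam k (width r) := Gam_mono (by omega) hD.mem
  have h2 := th_eqm π hk hr (Gam_conj he hh) (hd.conj he)
  have e1 : e * (d₁ * γ * d₁⁻¹ * (d₂ * γ * d₂⁻¹)) * e⁻¹ =
      (e * d₁) * γ * (e * d₁)⁻¹ * ((e * d₂) * γ * (e * d₂)⁻¹) := by group
  rw [h1, e1, th_mul π hk hr (Gam_conj (mul_mem he hd₁) hγ) (Gam_conj (mul_mem he hd₂) hγ)] at h2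
  rw [th_class π hk hr (by omega) hD.mem hc (mul_mem he hd₁), th_class π hk hr (by omega) hD.mem hc' (mul_mem he hd₂),
    ← h2]
  · intro x hxn
    rw [map_mul, Equiv.Perm.mul_apply, hep]
    rcases x with _ | x
    · rw [h0', p2, hbp 1 (by omega)]
      rfl
    · rw [(px (x + 1) (by omega) hxn).2, hbp (x + 1 + 1) (by omega), (hx (x + 1) (by omega) hxn).1]
      rfl
  · intro x hxn
    rw [map_mul, Equiv.Perm.mul_apply, hep]
    rcases x with _ | x
    · rw [h0, p1, hbp 0 (by omega)]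
      rfl
    · rw [(px (x + 1) (by omega) hxn).1, hbp (x + 1 + 1) (by omega)]
      rfl

end theta

end SLC
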