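import Pool.Agent.SLC.Gens

/-!
String links: generators in degree 3.
-/

set_option autoImplicit false

namespace SLC

/-- the commutator of the square of σ 2 with cc2 (the tree with the leaves 0, 1 | 2, 3) -/
def cc3 : Br := cm (σ 2 ^ 2) cc2

/-- the class of the commutator cc3 on the strands x, y, z, w, inserted between X and Y -/
def G3 (n : ℕ) (X Y : Tangle) (x y z w : ℕ) (t : Tangle) : Prop :=
  ∃ c ∈ BN n, perm c 0 = x ∧ perm c 1 = y ∧ perm c 2 = z ∧ perm c 3 = w ∧ t = X * T (c * cc3 * c⁻¹) * Y

/-- one component -/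
def G31 (m i : ℕ) (t : Tangle) : Prop := G3 (m + 4) (C i * C (i + 2)) (U (i + 3) * U (i + 1)) i (i + 1) (i + 2) (i + 3) t

/-- two components i < j, first generator -/
def G32a (m i j : ℕ) (t : Tangle) : Prop :=
  G3 (m + 4) (C i * C (j + 2)) (U (j + 3) * U (i + 1)) i (i + 1) (j + 2) (j + 3) t

/-- two components i < j, second generator -/
def G32b (m i j : ℕ) (t : Tangle) : Prop :=
  G3 (m + 4) (C i * C (j + 2)) (U (j + 3) * U (i + 1)) i (j + 2) (i + 1) (j + 3) t

/-- three components i < j < k, generator with the leaves i, i | j, k -/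
def G33u (m i j k : ℕ) (t : Tangle) : Prop := G3 (m + 2) (C i) (U (i + 1)) i (i + 1) (j + 2) (k + 2) t

/-- position of the component q when the component p has one return -/
def sh (p q : ℕ) : ℕ := if q < p then q else q + 2

/-- three components p, q, q', generator with the leaves p, q | p, q' -/
def G33v (m p q q' : ℕ) (t : Tangle) : Prop := G3 (m + 2) (C p) (U (p + 1)) p (sh p q) (p + 1) (sh p q') t

/-- four components, leaves x, y | z, w -/
def G34 (m x y z w : ℕ) (t : Tangle) : Prop := G3 m 1 1 x y z w t

end SLC
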