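import Pool.Agent.SLC.Top4

/-!
String links: insertion of a trivial component over the others.
-/

set_option autoImplicit false

namespace SLC

theorem Sh.sg : Sh fun k => T (σ k) := ⟨fun _ _ h => Cσ_right h, fun _ _ h => σU_right h⟩

theorem Sh.upv (q : ℕ) : Sh fun k => T (SLC.upv k q) := by
  induction q with
  | zero =>
    refine ⟨fun _ _ _ => ?_, fun _ _ _ => ?_⟩ <;> simp [SLC.upv]
  | succ q ih =>
    have h := Sh.sg.mul ih q 0
    simp only [← T_mul] at h
    exact h

theorem Sh.caps_c {X : ℕ → Tangle} (hX : Sh X) (r : List ℕ) : ∀ o k, o ≤ k →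
    SLC.caps o r * X (k + width r) = X (k + r.length) * SLC.caps o r := by
  induction r with
  | nil => intro o k _; simp [SLC.caps, width]
  | cons a r ih =>
    intro o k h
    have e1 : k + width (a :: r) = k + (2 * a + 1) + width r := by rw [width]; omega
    have e2 : k + (2 * a + 1) + r.length = k + 1 + r.length + 2 * a := by omega
    have e3 : k + (a :: r).length = k + 1 + r.length := by rw [List.length_cons]; omega
    rw [SLC.caps, e1, mul_assoc, ih (o + (2 * a + 1)) (k + (2 * a + 1)) (by omega), e2, ← mul_assoc,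
      hX.row_c a o (k + 1 + r.length) (by omega), e3, mul_assoc]

theorem Sh.cups_u {X : ℕ → Tangle} (hX : Sh X) (r : List ℕ) : ∀ o k, o ≤ k →
    X (k + width r) * SLC.cups o r = SLC.cups o r * X (k + r.length) := by
  induction r with
  | nil => intro o k _; simp [SLC.cups, width]
  | cons a r ih =>
    intro o k h
    have e1 : k + width (a :: r) = k + (2 * a + 1) + width r := by rw [width]; omega
    have e2 : k + (2 * a + 1) + r.length = k + 1 + r.length + 2 * a := by omega
    have e3 : k + (a :: r).length = k + 1 + r.length := by rw [List.length_cons]; omega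
    rw [SLC.cups, e1, ← mul_assoc, ih (o + (2 * a + 1)) (k + (2 * a + 1)) (by omega), e2, mul_assoc,
      hX.row_u a (o + 1) (k + 1 + r.length) (by omega), e3, mul_assoc]

/-- a maximum under the strand which goes to the right -/
theorem C_upv (n : ℕ) : ∀ q i, i ≤ q → C (n + i) * T (upv n (q + 2)) = T (upv n q) * C (n + 1 + i) := by
  intro q
  induction q with
  | zero =>
    intro i hi
    obtain rfl : i = 0 := by omega
    have e : upv n (0 + 2) = wv n := by simp [upv, wv]
    rw [e, add_zero, C_wv, upv, T_one, one_mul, add_zero]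
  | succ q ih =>
    intro i hi
    rcases Nat.lt_or_ge i (q + 1) with h | h
    · have e : upv n (q + 1 + 2) = σ (n + q + 2) * upv n (q + 2) := by
        rw [show q + 1 + 2 = (q + 2) + 1 by omega, upv]
        rfl
      rw [e, T_mul, ← mul_assoc, Cσ_right (show n + i ≤ n + q by omega), mul_assoc, ih i (by omega), ← mul_assoc,
        ← T_mul, upv]
    · obtain rfl : i = q + 1 := by omega
      have e : upv n (q + 1 + 2) = wv (n + (q + 1)) * upv n (q + 1) := by
        rw [show q + 1 + 2 = (q + 1 + 1) + 1 by omega, upv, upv, wv, mul_assoc]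
        rfl
      rw [e, T_mul, ← mul_assoc, C_wv, C_BN (n := n + (q + 1) + 1) le_rfl (BU_le (upv_mem (q + 1) (by omega)))]
      congr 2
      omega

/-- a minimum under the strand which goes to the right -/
theorem upv_U (n : ℕ) : ∀ q i, i ≤ q → T (upv n (q + 2)) * U (n + 1 + i) = U (n + i) * T (upv n q) := by
  intro q
  induction q with
  | zero =>
    intro i hi
    obtain rfl : i = 0 := by omega
    have e : upv n (0 + 2) = wv n := by simp [upv, wv]
    rw [e, add_zero, wv_U, upv, T_one, mul_one, add_zero]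
  | succ q ih =>
    intro i hi
    rcases Nat.lt_or_ge i (q + 1) with h | h
    · have e : upv n (q + 1 + 2) = σ (n + q + 2) * upv n (q + 2) := by
        rw [show q + 1 + 2 = (q + 2) + 1 by omega, upv]
        rfl
      rw [e, T_mul, mul_assoc, ih i (by omega), ← mul_assoc, σU_right (show n + i ≤ n + q by omega), mul_assoc,
        ← T_mul, upv]
    · obtain rfl : i = q + 1 := by omega
      have e : upv n (q + 1 + 2) = wv (n + (q + 1)) * upv n (q + 1) := by
        rw [show q + 1 + 2 = (q + 1 + 1) + 1 by omega, upv, upv, wv, mul_assoc]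
        rfl
      have e2 : n + 1 + (q + 1) = n + (q + 1) + 1 := by omega
      rw [e, T_mul, mul_assoc, e2, U_BN (n := n + (q + 1) + 1) le_rfl (BU_le (upv_mem (q + 1) (by omega))),
        ← mul_assoc, wv_U]

theorem capRow_upv (n a : ℕ) : ∀ q i, i ≤ q →
    capRow (n + i) a * T (upv n (q + 2 * a)) = T (upv n q) * capRow (n + 1 + i) a := by
  induction a with
  | zero => intro q i _; simp [capRow]
  | succ a ih =>
    intro q i h
    have e1 : q + 2 * (a + 1) = q + 2 + 2 * a := by omega
    have e2 : n + i + 2 = n + (i + 2) := by omega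
    have e3 : n + 1 + i + 2 = n + 1 + (i + 2) := by omega
    rw [capRow, e1, e2, mul_assoc, ih (q + 2) (i + 2) (by omega), ← mul_assoc, C_upv n q i h, mul_assoc, capRow, e3]

theorem cupRow_upv (n a : ℕ) : ∀ q i, i ≤ q →
    T (upv n (q + 2 * a)) * cupRow (n + 1 + i) a = cupRow (n + i) a * T (upv n q) := by
  induction a with
  | zero => intro q i _; simp [cupRow]
  | succ a ih =>
    intro q i h
    have e1 : q + 2 * (a + 1) = q + 2 + 2 * a := by omega
    have e2 : n + i + 2 = n + (i + 2) := by omega
    have e3 : n + 1 + i + 2 = n + 1 + (i + 2) := by omega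
    rw [cupRow, e1, e3, ← mul_assoc, ih (q + 2) (i + 2) (by omega), mul_assoc, upv_U n q i h, ← mul_assoc, cupRow, e2]

theorem caps_upv (n e : ℕ) (r : List ℕ) : ∀ i, caps (n + i) r * T (upv n (i + width r + e)) =
    T (upv n (i + r.length + e)) * caps (n + 1 + i) r := by
  induction r with
  | nil => intro i; simp [caps, width]
  | cons a r ih =>
    intro i
    have e1 : i + width (a :: r) + e = i + (2 * a + 1) + width r + e := by rw [width]; omega
    have e2 : n + i + (2 * a + 1) = n + (i + (2 * a + 1)) := by omega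
    have e3 : n + 1 + i + (2 * a + 1) = n + 1 + (i + (2 * a + 1)) := by omega
    have e4 : i + (2 * a + 1) + r.length + e = i + 1 + r.length + e + 2 * a := by omega
    have e5 : i + (a :: r).length + e = i + 1 + r.length + e := by rw [List.length_cons]; omega
    rw [caps, e1, e2, mul_assoc, ih, e4, ← mul_assoc, capRow_upv n a _ i (by omega), e5, mul_assoc, caps, e3]

theorem upv_cups (n e : ℕ) (r : List ℕ) : ∀ i, T (upv n (i + width r + e)) * cups (n + 1 + i) r =
    cups (n + i) r * T (upv n (i + r.length + e)) := by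
  induction r with
  | nil => intro i; simp [cups, width]
  | cons a r ih =>
    intro i
    have e1 : i + width (a :: r) + e = i + (2 * a + 1) + width r + e := by rw [width]; omega
    have e2 : n + i + (2 * a + 1) = n + (i + (2 * a + 1)) := by omega
    have e3 : n + 1 + i + (2 * a + 1) = n + 1 + (i + (2 * a + 1)) := by omega
    have e4 : i + (2 * a + 1) + r.length + e = i + 1 + r.length + e + 2 * a := by omega
    have e5 : i + (a :: r).length + e = i + 1 + r.length + e := by rw [List.length_cons]; omega
    have e6 : n + 1 + i + 1 = n + 1 + (i + 1) := by omega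
    have e7 : n + i + 1 = n + (i + 1) := by omega
    rw [cups, e1, e3, ← mul_assoc, ih, e4, mul_assoc, e6, cupRow_upv n a _ (i + 1) (by omega), e5, ← mul_assoc,
      cups, e2, e7]

theorem width_app (r₁ r₂ : List ℕ) : width (r₁ ++ r₂) = width r₁ + width r₂ := by
  induction r₁ with
  | nil => simp [width]
  | cons a r₁ ih => rw [List.cons_append, width, ih, width]; omega

theorem caps_app (r₁ r₂ : List ℕ) : ∀ o, caps o (r₁ ++ r₂) = caps o r₁ * caps (o + width r₁) r₂ := by
  induction r₁ with
  | nil => intro o; simp [caps, width]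
  | cons a r₁ ih =>
    intro o
    have e : o + (2 * a + 1) + width r₁ = o + width (a :: r₁) := by rw [width]; omega
    rw [List.cons_append, caps, ih, caps, mul_assoc, e]

theorem cups_app (r₁ r₂ : List ℕ) : ∀ o, cups o (r₁ ++ r₂) = cups (o + width r₁) r₂ * cups o r₁ := by
  induction r₁ with
  | nil => intro o; simp [cups, width]
  | cons a r₁ ih =>
    intro o
    have e : o + (2 * a + 1) + width r₁ = o + width (a :: r₁) := by rw [width]; omega
    rw [List.cons_append, cups, ih, cups, mul_assoc, e]

theorem caps_ins (r₁ r₂ : List ℕ) : T (upv r₁.length r₂.length) * caps 0 (r₁ ++ 0 :: r₂) =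
    caps 0 (r₁ ++ r₂) * T (upv (width r₁) (width r₂)) := by
  have h1 := (Sh.upv r₂.length).caps_c r₁ 0 0 le_rfl
  have h2 := caps_upv (width r₁) 0 r₂ 0
  simp only [zero_add, add_zero] at h1 h2
  rw [caps_app, caps_app, zero_add, caps, capRow, one_mul, mul_assoc, h2, ← mul_assoc, ← mul_assoc, h1]

theorem cups_ins (r₁ r₂ : List ℕ) : cups 0 (r₁ ++ r₂) * T (upv r₁.length r₂.length) =
    T (upv (width r₁) (width r₂)) * cups 0 (r₁ ++ 0 :: r₂) := by
  have h1 := (Sh.upv r₂.length).cups_u r₁ 0 0 le_rfl
  have h2 := upv_cups (width r₁) 0 r₂ 0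
  simp only [zero_add, add_zero] at h1 h2
  rw [cups_app, cups_app, zero_add, cups, cupRow, mul_one, ← mul_assoc, h2, mul_assoc, mul_assoc, h1]

/-- insertion of a trivial component between two groups of components -/
theorem cl_ins (r₁ r₂ : List ℕ) (g : Br) :
    T (upv r₁.length r₂.length)⁻¹ * cl (r₁ ++ r₂) g * T (upv r₁.length r₂.length) =
      cl (r₁ ++ 0 :: r₂) ((upv (width r₁) (width r₂))⁻¹ * g * upv (width r₁) (width r₂)) := by
  have h1 : T (upv r₁.length r₂.length)⁻¹ * caps 0 (r₁ ++ r₂) =
      caps 0 (r₁ ++ 0 :: r₂) * T (upv (width r₁) (width r₂))⁻¹ := by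
    calc T (upv r₁.length r₂.length)⁻¹ * caps 0 (r₁ ++ r₂)
        = T (upv r₁.length r₂.length)⁻¹ * (caps 0 (r₁ ++ r₂) * T (upv (width r₁) (width r₂))) *
            T (upv (width r₁) (width r₂))⁻¹ := by
          rw [← mul_assoc, mul_assoc, T_mul_inv, mul_one]
      _ = _ := by rw [← caps_ins, ← mul_assoc, T_inv_mul, one_mul]
  have h2 := cups_ins r₁ r₂
  rw [cl_def, cl_def, T_mul, T_mul]
  calc T (upv r₁.length r₂.length)⁻¹ * (caps 0 (r₁ ++ r₂) * T g * cups 0 (r₁ ++ r₂)) * T (upv r₁.length r₂.length)
      = (T (upv r₁.length r₂.length)⁻¹ * caps 0 (r₁ ++ r₂)) * T g * (cups 0 (r₁ ++ r₂) * T (upv r₁.length r₂.length)) := by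
        simp only [mul_assoc]
    _ = caps 0 (r₁ ++ 0 :: r₂) * T (upv (width r₁) (width r₂))⁻¹ * T g *
          (T (upv (width r₁) (width r₂)) * cups 0 (r₁ ++ 0 :: r₂)) := by rw [h1, h2]
    _ = _ := by simp only [mul_assoc]

end SLC
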