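import Pool.Agent.SLC.ActVal3
import Pool.Agent.SLC.Act

/-!
Invariants of string links which separate the generators in the degrees 1 and 2 (final form).
-/

set_option autoImplicit false

open PowerSeries

namespace SLC

theorem exists_act_X : ∃ (A' : PowerSeries ℤ) (Φ : Tangle → Fn → Fn), (1 + X : PowerSeries ℤ) * A' = 1 ∧
    IsAct (1 + X) A' Φ := by
  have h : (1 + X : PowerSeries ℤ) * invOfUnit (1 + X) 1 = 1 := mul_invOfUnit _ _ (by simp)
  obtain ⟨Φ, hΦ⟩ := exists_act (1 + X : PowerSeries ℤ) (invOfUnit (1 + X) 1) h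
  exact ⟨_, Φ, h, hΦ⟩

/-- an invariant of degree 1 which detects exactly the clasps of the components i, j -/
theorem inv1 {m i j : ℕ} (hij : i < j) : ∃ l : Tangle → ℤ, (∀ x y, CEquiv m 2 x y → l x = l y) ∧
    (∀ x y, CEquiv m 1 x 1 → CEquiv m 1 y 1 → l (x * y) = l x + l y) ∧ (∀ x, GT m i j x → l x ≠ 0) ∧
    ∀ i' j', i' < j' → ¬(i' = i ∧ j' = j) → ∀ x, GT m i' j' x → l x = 0 := by
  obtain ⟨A', Φ, h, hΦ⟩ := exists_act_X
  exact inv1_aux hΦ rfl h hij

/-- an invariant of degree 2 which detects exactly the trefoils in the component i -/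
theorem inv2c {m : ℕ} (i : ℕ) : ∃ l : Tangle → ℤ, (∀ x y, CEquiv m 3 x y → l x = l y) ∧
    (∀ x y, CEquiv m 2 x 1 → CEquiv m 2 y 1 → l (x * y) = l x + l y) ∧ (∀ x, GC m i x → l x ≠ 0) ∧
    (∀ j, j ≠ i → ∀ x, GC m j x → l x = 0) ∧ (∀ j k, j < k → ∀ x, GD m j k x → l x = 0) ∧
    ∀ j k n, j < k → k < n → ∀ x, GE m j k n x → l x = 0 := by
  obtain ⟨A', Φ, h, hΦ⟩ := exists_act_X
  exact inv2c_aux hΦ rfl h i

/-- an invariant of degree 2 which detects exactly the Whitehead string links of the components i, j, up to trefoils -/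
theorem inv2d {m i j : ℕ} (hij : i < j) : ∃ l : Tangle → ℤ, (∀ x y, CEquiv m 3 x y → l x = l y) ∧
    (∀ x y, CEquiv m 2 x 1 → CEquiv m 2 y 1 → l (x * y) = l x + l y) ∧ (∀ x, GD m i j x → l x ≠ 0) ∧
    (∀ i' j', i' < j' → ¬(i' = i ∧ j' = j) → ∀ x, GD m i' j' x → l x = 0) ∧
    ∀ i' j' k', i' < j' → j' < k' → ∀ x, GE m i' j' k' x → l x = 0 := by
  obtain ⟨A', Φ, h, hΦ⟩ := exists_act_X
  exact inv2d_aux hΦ rfl h hij

/-- an invariant of degree 2 which detects exactly the Borromean string links of the components i, j, k, up to the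
other generators -/
theorem inv2e {m i j k : ℕ} (hij : i < j) (hjk : j < k) : ∃ l : Tangle → ℤ, (∀ x y, CEquiv m 3 x y → l x = l y) ∧
    (∀ x y, CEquiv m 2 x 1 → CEquiv m 2 y 1 → l (x * y) = l x + l y) ∧ (∀ x, GE m i j k x → l x ≠ 0) ∧
    ∀ i' j' k', i' < j' → j' < k' → ¬(i' = i ∧ j' = j ∧ k' = k) → ∀ x, GE m i' j' k' x → l x = 0 := by
  obtain ⟨A', Φ, h, hΦ⟩ := exists_act_X
  exact inv2e_aux hΦ rfl h hij hjk

end SLC
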