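import Pool.Agent.SLC.Dim
import Pool.Agent.SLC.Alt

/-!
Quadratic functions on groups of class two, and their alternating sums over cubes.
-/

set_option autoImplicit false

open scoped commutatorElement

namespace SLC

section tw

/-- pairs, for the central extension given by a bilinear form -/
structure Tw (K Z : Type) where
  a : K
  u : Z

theorem Tw.ext' {K Z : Type} {x y : Tw K Z} (h : x.a = y.a) (h' : x.u = y.u) : x = y := by
  cases x
  cases y
  simp_all

/-- quadratic functions: beta is bilinear, beta(a,b) - beta(b,a) is the commutator (as an element of a central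
subgroup, written additively by ζ) -/
theorem exists_quad {K Z : Type} [Group K] [AddCommGroup Z] (β : K → K → Z)
    (h1 : ∀ a b c, β (a * b) c = β a c + β b c) (h2 : ∀ a b c, β a (b * c) = β a b + β a c)
    (Z0 : Subgroup K) (ζ : K → Z) (hζ : ∀ a ∈ Z0, ∀ b ∈ Z0, ζ (a * b) = ζ a + ζ b)
    (hcen : ∀ z ∈ Z0, ∀ a, z * a = a * z) (hβl : ∀ z ∈ Z0, ∀ a, β z a = 0) (hβr : ∀ z ∈ Z0, ∀ a, β a z = 0)
    (hcomm : ∀ a b, ⁅a, b⁆ ∈ Z0 ∧ ζ ⁅a, b⁆ = β a b - β b a) :
    ∃ (A : Type) (_ : AddCommGroup A) (f : K → A) (ι : Z → A), (∀ a b, f (a * b) = f a + f b - ι (β a b)) ∧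
      (∀ u v, ι (u + v) = ι u + ι v) ∧ (∀ u, ι u = 0 → u = 0) ∧ ∀ z ∈ Z0, f z = - ι (ζ z) := by
  have b1l : ∀ b, β 1 b = 0 := fun b => hβl 1 (one_mem _) b
  have b1r : ∀ b, β b 1 = 0 := fun b => hβr 1 (one_mem _) b
  have bil : ∀ a b, β a⁻¹ b = - β a b := by
    intro a b
    have h := h1 a⁻¹ a b
    rw [inv_mul_cancel, b1l] at h
    exact eq_neg_of_add_eq_zero_left h.symm
  have hζ1 : ζ 1 = 0 := by
    have h := hζ 1 (one_mem _) 1 (one_mem _)
    rw [mul_one] at h
    exact left_eq_add.1 h
  have hζi : ∀ z ∈ Z0, ζ z⁻¹ = - ζ z := by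
    intro z hz
    have h := hζ z⁻¹ (inv_mem hz) z hz
    rw [inv_mul_cancel, hζ1] at h
    exact eq_neg_of_add_eq_zero_left h.symm
  let iM : Mul (Tw K Z) := ⟨fun x y => ⟨x.a * y.a, x.u + y.u + β x.a y.a⟩⟩
  let iO : One (Tw K Z) := ⟨⟨1, 0⟩⟩
  let iI : Inv (Tw K Z) := ⟨fun x => ⟨x.a⁻¹, - x.u + β x.a x.a⟩⟩
  have hma : ∀ x y : Tw K Z, (x * y).a = x.a * y.a := fun _ _ => rfl
  have hmu : ∀ x y : Tw K Z, (x * y).u = x.u + y.u + β x.a y.a := fun _ _ => rfl
  have hassoc : ∀ x y z : Tw K Z, x * y * z = x * (y * z) := by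
    intro x y z
    refine Tw.ext' (mul_assoc _ _ _) ?_
    rw [hmu, hmu, hmu, hmu, hma, hma, h1, h2]
    abel
  have hone : ∀ x : Tw K Z, 1 * x = x := by
    intro x
    refine Tw.ext' (one_mul _) ?_
    rw [hmu]
    change 0 + x.u + β 1 x.a = x.u
    rw [b1l]
    abel
  have hinv : ∀ x : Tw K Z, x⁻¹ * x = 1 := by
    intro x
    refine Tw.ext' (inv_mul_cancel _) ?_
    rw [hmu]
    change - x.u + β x.a x.a + x.u + β x.a⁻¹ x.a = 0
    rw [bil]
    abel
  let iG : Group (Tw K Z) := Group.ofLeftAxioms hassoc hone hinv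
  let Γ : Subgroup (Tw K Z) :=
    { carrier := {x | x.a ∈ Z0 ∧ x.u = ζ x.a}
      mul_mem' := by
        rintro x y ⟨hx, hx'⟩ ⟨hy, hy'⟩
        refine ⟨mul_mem hx hy, ?_⟩
        change x.u + y.u + β x.a y.a = ζ (x.a * y.a)
        rw [hx', hy', hβl _ hx, hζ _ hx _ hy, add_zero]
      one_mem' := ⟨one_mem Z0, hζ1.symm⟩
      inv_mem' := by
        rintro x ⟨hx, hx'⟩
        refine ⟨inv_mem hx, ?_⟩
        change - x.u + β x.a x.a = ζ x.a⁻¹
        rw [hx', hβl _ hx, hζi _ hx, add_zero] }
  have hΓc : ∀ γ ∈ Γ, ∀ x : Tw K Z, γ * x = x * γ := by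
    rintro γ ⟨hγ, hγ'⟩ x
    refine Tw.ext' (hcen _ hγ _) ?_
    rw [hmu, hmu, hβl _ hγ, hβr _ hγ]
    abel
  have hΓ : ⁅(⊤ : Subgroup (Tw K Z)), (⊤ : Subgroup (Tw K Z))⁆ ≤ Γ := by
    rw [Subgroup.commutator_le]
    intro x _ y _
    have hc := hcomm x.a y.a
    let γ : Tw K Z := ⟨⁅x.a, y.a⁆, ζ ⁅x.a, y.a⁆⟩
    have hγ : γ ∈ Γ := ⟨hc.1, rfl⟩
    have e1 : x * y = γ * (y * x) := by
      refine Tw.ext' ?_ ?_
      · change x.a * y.a = ⁅x.a, y.a⁆ * (y.a * x.a)
        rw [commutatorElement_def]
        group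
      · rw [hmu, hmu, hmu, hβl _ hγ.1]
        change x.u + y.u + β x.a y.a = ζ ⁅x.a, y.a⁆ + (y.u + x.u + β y.a x.a) + 0
        rw [hc.2]
        abel
    have e2 : ⁅x, y⁆ = γ := by
      rw [commutatorElement_def, e1]
      group
    rw [e2]
    exact hγ
  obtain ⟨A, iA, n, hn, hker, -⟩ := exists_quot (⊤ : Subgroup (Tw K Z)) Γ hΓ
  refine ⟨A, iA, fun a => n ⟨a, 0⟩, fun u => n ⟨1, u⟩, ?_, ?_, ?_, ?_⟩
  · intro a b
    have e1 := hn ⟨a, 0⟩ trivial ⟨b, 0⟩ trivial
    have e2 := hn ⟨a * b, 0⟩ trivial ⟨1, β a b⟩ trivial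
    have e3 : (⟨a, 0⟩ * ⟨b, 0⟩ : Tw K Z) = ⟨a * b, 0⟩ * ⟨1, β a b⟩ := by
      refine Tw.ext' ?_ ?_
      · change a * b = a * b * 1
        rw [mul_one]
      · change (0 : Z) + 0 + β a b = 0 + β a b + β (a * b) 1
        rw [b1r]
        abel
    rw [e3, e2] at e1
    exact eq_sub_of_add_eq e1
  · intro u v
    have e1 := hn ⟨1, u⟩ trivial ⟨1, v⟩ trivial
    have e3 : (⟨1, u⟩ * ⟨1, v⟩ : Tw K Z) = ⟨1, u + v⟩ := by
      refine Tw.ext' ?_ ?_
      · change (1 : K) * 1 = 1
        rw [mul_one]
      · change u + v + β 1 1 = u + v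
        rw [b1r, add_zero]
    rw [e3] at e1
    exact e1
  · intro u hu
    have e1 := (hker _ trivial).1 hu
    exact e1.2.trans hζ1
  · intro z hz
    have e1 := hn ⟨z, 0⟩ trivial ⟨1, ζ z⟩ trivial
    have e3 : (⟨z, 0⟩ * ⟨1, ζ z⟩ : Tw K Z) = ⟨z, ζ z⟩ := by
      refine Tw.ext' ?_ ?_
      · change z * 1 = z
        rw [mul_one]
      · change (0 : Z) + ζ z + β z 1 = ζ z
        rw [b1r]
        abel
    have e4 : n ⟨z, ζ z⟩ = 0 := (hker _ trivial).2 ⟨hz, rfl⟩
    rw [e3, e4] at e1
    exact eq_neg_of_add_eq_zero_left e1.symm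

end tw

section pol

variable {r : ℕ}

/-- indicator function of a face -/
def ind (w : Finset (Fin r)) (e : Fin r → Bool) : ℤ := if ∀ i ∈ w, e i = true then 1 else 0

theorem ind_mul (w w' : Finset (Fin r)) (e : Fin r → Bool) : ind w e * ind w' e = ind (w ∪ w') e := by
  unfold ind
  by_cases h1 : ∀ i ∈ w, e i = true
  · by_cases h2 : ∀ i ∈ w', e i = true
    · have h3 : ∀ i ∈ w ∪ w', e i = true := by
        intro i hi
        rcases Finset.mem_union.mp hi with hi | hi
        · exact h1 i hi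
        · exact h2 i hi
      rw [if_pos h1, if_pos h2, if_pos h3, one_mul]
    · have h3 : ¬ ∀ i ∈ w ∪ w', e i = true := fun h => h2 fun i hi => h i (Finset.mem_union_right _ hi)
      rw [if_neg h2, if_neg h3, mul_zero]
  · have h3 : ¬ ∀ i ∈ w ∪ w', e i = true := fun h => h1 fun i hi => h i (Finset.mem_union_left _ hi)
    rw [if_neg h1, if_neg h3, zero_mul]

/-- functions on the cube spanned by the faces w in S with card w + t < D -/
def Pol (A : Type) [AddCommGroup A] (S : Finset (Fin r)) (t D : ℕ) : AddSubgroup ((Fin r → Bool) → A) :=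
  AddSubgroup.closure {u | ∃ (w : Finset (Fin r)) (φ : A), w ⊆ S ∧ w.card + t < D ∧ u = fun e => ind w e • φ}

variable {A : Type} [AddCommGroup A]

theorem Pol.mem {S w : Finset (Fin r)} {t D : ℕ} (φ : A) (hw : w ⊆ S) (h : w.card + t < D) :
    (fun e => ind w e • φ) ∈ Pol A S t D := AddSubgroup.subset_closure ⟨w, φ, hw, h, rfl⟩

theorem Pol.mono {S S' : Finset (Fin r)} {t t' D D' : ℕ} (hS : S ⊆ S') (h : ∀ k, k + t < D → k + t' < D') :
    Pol A S t D ≤ Pol A S' t' D' := by
  refine (AddSubgroup.closure_le _).mpr ?_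
  rintro _ ⟨w, φ, hw, hc, rfl⟩
  exact Pol.mem φ (hw.trans hS) (h _ hc)

theorem Pol.asum {S : Finset (Fin r)} {t D : ℕ} (hD : D ≤ r + t) {u : (Fin r → Bool) → A} (hu : u ∈ Pol A S t D) :
    asum u = 0 := by
  induction hu using AddSubgroup.closure_induction with
  | mem u hu =>
    obtain ⟨w, φ, hw, hc, rfl⟩ := hu
    have hne : w ≠ Finset.univ := by
      intro h
      rw [h, Finset.card_univ, Fintype.card_fin] at hc
      omega
    have h1 := sign_sum w hne
    unfold SLC.asum
    simp only [smul_smul]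
    rw [← Finset.sum_smul]
    have h2 : ∑ e : Fin r → Bool, sg e * ind w e = 0 := h1
    rw [h2, zero_smul]
  | zero =>
    unfold SLC.asum
    simp
  | add u v _ _ hu hv =>
    have : SLC.asum (u + v) = SLC.asum u + SLC.asum v := by
      unfold SLC.asum
      simp only [Pi.add_apply, smul_add, Finset.sum_add_distrib]
    rw [this, hu, hv, add_zero]
  | neg u _ hu =>
    have : SLC.asum (-u) = - SLC.asum u := by
      unfold SLC.asum
      simp only [Pi.neg_apply, smul_neg, Finset.sum_neg_distrib]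
    rw [this, hu, neg_zero]

theorem Pol.ind_smul {S : Finset (Fin r)} {t D : ℕ} (i : Fin r) {u : (Fin r → Bool) → A}
    (hu : u ∈ Pol A S (t + 1) D) : (fun e => ind {i} e • u e) ∈ Pol A (insert i S) t D := by
  induction hu using AddSubgroup.closure_induction with
  | mem u hu =>
    obtain ⟨w, φ, hw, hc, rfl⟩ := hu
    have h1 : (fun e => ind {i} e • ind w e • φ) = fun e => ind ({i} ∪ w) e • φ := by
      ext e
      rw [smul_smul, ind_mul]
    rw [h1]
    refine Pol.mem φ ?_ ?_
    · rw [← Finset.insert_eq]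
      exact Finset.insert_subset_insert _ hw
    · have := Finset.card_union_le {i} w
      rw [Finset.card_singleton] at this
      omega
  | zero =>
    have : (fun e => ind {i} e • (0 : (Fin r → Bool) → A) e) = 0 := by
      ext e
      simp
    rw [this]
    exact zero_mem _
  | add u v _ _ hu hv =>
    have : (fun e => ind {i} e • (u + v) e) = (fun e => ind {i} e • u e) + (fun e => ind {i} e • v e) := by
      ext e
      simp
    rw [this]
    exact add_mem hu hv
  | neg u _ hu =>
    have : (fun e => ind {i} e • (-u) e) = - (fun e => ind {i} e • u e) := by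
      ext e
      simp
    rw [this]
    exact neg_mem hu

theorem Pol.bil {B C : Type} [AddCommGroup B] [AddCommGroup C] (β : A → B → C)
    (h1 : ∀ a b c, β (a + b) c = β a c + β b c) (h2 : ∀ a b c, β a (b + c) = β a b + β a c)
    {S : Finset (Fin r)} {t1 D1 t2 D2 t D : ℕ}
    (hD : ∀ k k', k + t1 < D1 → k' + t2 < D2 → k + k' + t < D)
    {u : (Fin r → Bool) → A} (hu : u ∈ Pol A S t1 D1) {v : (Fin r → Bool) → B} (hv : v ∈ Pol B S t2 D2) :
    (fun e => β (u e) (v e)) ∈ Pol C S t D := by
  let L1 : B → A →+ C := fun b => AddMonoidHom.mk' (fun a => β a b) (fun a a' => h1 a a' b)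
  let L2 : A → B →+ C := fun a => AddMonoidHom.mk' (fun b => β a b) (fun b b' => h2 a b b')
  have hz1 : ∀ b, β 0 b = 0 := fun b => map_zero (L1 b)
  have hz2 : ∀ a, β a 0 = 0 := fun a => map_zero (L2 a)
  have hn1 : ∀ a b, β (-a) b = - β a b := fun a b => map_neg (L1 b) a
  have hn2 : ∀ a b, β a (-b) = - β a b := fun a b => map_neg (L2 a) b
  have hs1 : ∀ (z : ℤ) a b, β (z • a) b = z • β a b := fun z a b => map_zsmul (L1 b) z a
  have hs2 : ∀ (z : ℤ) a b, β a (z • b) = z • β a b := fun z a b => map_zsmul (L2 a) z b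
  induction hu using AddSubgroup.closure_induction with
  | mem u hu =>
    obtain ⟨w, φ, hw, hc, rfl⟩ := hu
    induction hv using AddSubgroup.closure_induction with
    | mem v hv =>
      obtain ⟨w', φ', hw', hc', rfl⟩ := hv
      have e1 : (fun e => β (ind w e • φ) (ind w' e • φ')) = fun e => ind (w ∪ w') e • β φ φ' := by
        ext e
        rw [hs1, hs2, smul_smul, ind_mul]
      rw [e1]
      refine Pol.mem _ (Finset.union_subset hw hw') ?_
      have h3 := Finset.card_union_le w w'
      have h4 := hD _ _ hc hc'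
      omega
    | zero =>
      have : (fun e => β (ind w e • φ) ((0 : (Fin r → Bool) → B) e)) = 0 := by
        ext e
        exact hz2 _
      rw [this]
      exact zero_mem _
    | add v v' _ _ hv hv' =>
      have : (fun e => β (ind w e • φ) ((v + v') e)) = (fun e => β (ind w e • φ) (v e)) +
          (fun e => β (ind w e • φ) (v' e)) := by
        ext e
        exact h2 _ _ _
      rw [this]
      exact add_mem hv hv'
    | neg v _ hv =>
      have : (fun e => β (ind w e • φ) ((-v) e)) = - (fun e => β (ind w e • φ) (v e)) := by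
        ext e
        exact hn2 _ _
      rw [this]
      exact neg_mem hv
  | zero =>
    have : (fun e => β ((0 : (Fin r → Bool) → A) e) (v e)) = 0 := by
      ext e
      exact hz1 _
    rw [this]
    exact zero_mem _
  | add u u' _ _ hu hu' =>
    have : (fun e => β ((u + u') e) (v e)) = (fun e => β (u e) (v e)) + (fun e => β (u' e) (v e)) := by
      ext e
      exact h1 _ _ _
    rw [this]
    exact add_mem hu hu'
  | neg u _ hu =>
    have : (fun e => β ((-u) e) (v e)) = - (fun e => β (u e) (v e)) := by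
      ext e
      exact hn1 _ _
    rw [this]
    exact neg_mem hu

end pol

section quad

variable {G : Type} [Group G] {F : ℕ → Subgroup G} {r : ℕ}

/-- additive functions of a cube -/
theorem pol_add (hF : Filt F) {S : Finset (Fin r)} {s : ℕ} {c : (Fin r → Bool) → G} (hc : c ∈ HKS F S s)
    {K : Subgroup G} (hK : ∀ e, c e ∈ K) {A : Type} [AddCommGroup A] {n : G → A} (hn : AddOn K n) {D : ℕ}
    (h0 : ∀ y ∈ K, y ∈ F D → n y = 0) : (fun e => n (c e)) ∈ Pol A S s D := by
  obtain ⟨g, hg, hgn⟩ := moebius hF S s c hc K hK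
  have h1 : (fun e => n (c e)) = ∑ w ∈ S.powerset, fun e => ind w e • n (g w) := by
    ext e
    rw [hgn A n hn e, Finset.sum_apply]
    refine Finset.sum_congr rfl fun w _ => ?_
    unfold ind
    split_ifs <;> simp
  rw [h1]
  refine sum_mem fun w hw => ?_
  by_cases h : w.card + s < D
  · exact Pol.mem _ (Finset.mem_powerset.1 hw) h
  · have h2 : n (g w) = 0 := h0 _ (hg w).1 (hF.antitone (not_lt.1 h) (hg w).2)
    have h3 : (fun e => ind w e • n (g w)) = 0 := by
      ext e
      rw [h2, smul_zero]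
      rfl
    rw [h3]
    exact zero_mem _

/-- quadratic functions of a cube: f(ab) = f(a) + f(b) - B(n a, n b) on K, n kills F (s + 1), f 1 = 0, and
F (2 s + 1) = 1 -/
theorem pol_quad (hF : Filt F) {s : ℕ} (hbot : F (2 * s + 1) = ⊥) {K : Subgroup G} {A A' : Type} [AddCommGroup A]
    [AddCommGroup A'] {n : G → A} (hn : AddOn K n) (h0 : ∀ y ∈ K, y ∈ F (s + 1) → n y = 0) (B : A → A → A')
    (h1 : ∀ a b c, B (a + b) c = B a c + B b c) (h2 : ∀ a b c, B a (b + c) = B a b + B a c) (f : G → A')
    (hf1 : f 1 = 0) (hf : ∀ a ∈ K, ∀ b ∈ K, f (a * b) = f a + f b - B (n a) (n b)) (S : Finset (Fin r)) :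
    ∀ (t : ℕ) (c : (Fin r → Bool) → G), c ∈ HKS F S t → (∀ e, c e ∈ K) → (fun e => f (c e)) ∈ Pol A' S t (2 * s + 1) := by
  induction S using Finset.induction_on with
  | empty =>
    intro t c hc hK
    have hconst := empty_const hc
    have e1 : (fun e => f (c e)) = fun e => ind ∅ e • f (c fun _ => false) := by
      ext e
      rw [hconst e (fun _ => false)]
      simp [ind]
    rw [e1]
    by_cases ht : t < 2 * s + 1
    · exact Pol.mem _ (subset_refl _) (by simpa using ht)
    · have h3 : c (fun _ => false) ∈ F t := val_mem hF hc _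
      have h4 : c (fun _ => false) ∈ F (2 * s + 1) := hF.antitone (not_lt.1 ht) h3
      rw [hbot, Subgroup.mem_bot] at h4
      rw [h4, hf1]
      have : (fun e : Fin r → Bool => ind ∅ e • (0 : A')) = 0 := by
        ext e
        exact smul_zero _
      rw [this]
      exact zero_mem _
  | insert i S hi ih =>
    intro t c hc hK
    have hc0 : rho i false c ∈ HKS F S t := by
      have := rho_mem i hc
      rwa [Finset.erase_insert hi] at this
    have hc1 : der i c ∈ HKS F S (t + 1) := by
      have := der_mem hF i hc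
      rwa [Finset.erase_insert hi] at this
    have hK0 : ∀ e, rho i false c e ∈ K := fun e => hK _
    have hK1 : ∀ e, der i c e ∈ K := fun e => mul_mem (inv_mem (hK _)) (hK _)
    have p0 := ih t _ hc0 hK0
    have p1 := ih (t + 1) _ hc1 hK1
    have q0 := pol_add hF hc0 hK0 hn h0
    have q1 := pol_add hF hc1 hK1 hn h0
    have p2 : (fun e => B (n (rho i false c e)) (n (der i c e))) ∈ Pol A' S (t + 1) (2 * s + 1) :=
      Pol.bil B h1 h2 (fun k k' hk hk' => by omega) q0 q1
    have e1 : (fun e => f (c e)) = (fun e => f (rho i false c e)) +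
        fun e => ind {i} e • ((fun e => f (der i c e)) - fun e => B (n (rho i false c e)) (n (der i c e))) e := by
      ext e
      rw [Pi.add_apply, Pi.sub_apply]
      by_cases hei : e i = true
      · have h3 : ind {i} e = 1 := by
          unfold ind
          rw [if_pos]
          simpa using hei
        have h4 : c e = rho i false c e * der i c e := by
          have e2 : Function.update e i true = e := by
            rw [← hei, Function.update_eq_self]
          simp only [der, Pi.mul_apply, Pi.inv_apply, rho_apply, e2]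
          group
        rw [h3, one_smul, h4, hf _ (hK0 e) _ (hK1 e)]
        abel
      · have hei' : e i = false := by simpa using hei
        have h3 : ind {i} e = 0 := by
          unfold ind
          rw [if_neg]
          simpa using hei
        have h4 : c e = rho i false c e := by
          rw [rho_apply, ← hei', Function.update_eq_self]
        rw [h3, zero_smul, add_zero, ← h4]
    rw [e1]
    refine add_mem (Pol.mono (Finset.subset_insert i S) (fun k hk => hk) p0) (Pol.ind_smul i (sub_mem p1 p2))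

end quad

end SLC
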