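import Pool.Agent.SLC.Gam

/-!
String links, abstract part: C_d-equivalence is a congruence, closures modulo C_d-equivalence form a group.
-/

set_option autoImplicit false

open scoped commutatorElement

namespace SLC

namespace CSys

variable {M : Type} [Monoid M] (Q : CSys M)

theorem isCl_S (l : Q.Lev) (g : Q.P l) : Q.IsCl (Q.S l g) := ⟨l, g, rfl⟩

theorem isCl_one [Nonempty Q.Lev] : Q.IsCl 1 := by
  obtain ⟨l⟩ := ‹Nonempty Q.Lev›
  exact ⟨l, 1, (Q.S_one l).symm⟩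

variable {Q}

theorem IsCl.mul {x y : M} (hx : Q.IsCl x) (hy : Q.IsCl y) : Q.IsCl (x * y) := by
  obtain ⟨l, g, rfl⟩ := hx
  obtain ⟨l', g', rfl⟩ := hy
  exact ⟨Q.cmp l l', _, (Q.S_cmp l l' g g').symm⟩

theorem IsCl.pow [Nonempty Q.Lev] {x : M} (hx : Q.IsCl x) (n : ℕ) : Q.IsCl (x ^ n) := by
  induction n with
  | zero => rw [pow_zero]; exact Q.isCl_one
  | succ n ih => rw [pow_succ]; exact ih.mul hx

theorem Ceq.refl (k : ℕ) (x : M) : Q.Ceq k x x := Relation.EqvGen.refl x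

theorem Ceq.symm {k : ℕ} {x y : M} (h : Q.Ceq k x y) : Q.Ceq k y x := Relation.EqvGen.symm _ _ h

theorem Ceq.trans {k : ℕ} {x y z : M} (h : Q.Ceq k x y) (h' : Q.Ceq k y z) : Q.Ceq k x z :=
  Relation.EqvGen.trans _ _ _ h h'

theorem Ceq.of {k : ℕ} {l : Q.Lev} (g : Q.P l) {γ : Q.P l} (h : γ ∈ Gm (Q.P l) k) : Q.Ceq k (Q.S l g) (Q.S l (g * γ)) :=
  Relation.EqvGen.rel _ _ ⟨l, g, γ, h, rfl, rfl⟩

theorem Ceq.mono {k k' : ℕ} (hk : k ≤ k') {x y : M} (h : Q.Ceq k' x y) : Q.Ceq k x y := by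
  induction h with
  | rel x y h =>
    obtain ⟨l, g, γ, hγ, hx, hy⟩ := h
    exact Relation.EqvGen.rel _ _ ⟨l, g, γ, Gm_anti _ hk hγ, hx, hy⟩
  | refl => exact Ceq.refl _ _
  | symm x y _ h => exact h.symm
  | trans x y z _ _ h h' => exact h.trans h'

/-- elements of a level which differ by Gm k in the middle -/
theorem Ceq.mid {k : ℕ} {l : Q.Lev} {a b : Q.P l} (h : a⁻¹ * b ∈ Gm (Q.P l) k) : Q.Ceq k (Q.S l a) (Q.S l b) := by
  have := Ceq.of (Q := Q) a h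
  rwa [mul_inv_cancel_left] at this

theorem Ceq.insert {k : ℕ} {l : Q.Lev} (a q b : Q.P l) (h : q ∈ Gm (Q.P l) k) :
    Q.Ceq k (Q.S l (a * q * b)) (Q.S l (a * b)) := by
  refine (Ceq.mid ?_).symm
  rw [show (a * b)⁻¹ * (a * q * b) = b⁻¹ * q * b⁻¹⁻¹ by group]
  exact (Gm_normal (Q.P l) k).conj_mem _ h _

theorem Ceq.mul_left {k : ℕ} {x y z : M} (h : Q.Ceq k x y) (hz : Q.IsCl z) : Q.Ceq k (z * x) (z * y) := by
  obtain ⟨l', g', rfl⟩ := hz
  induction h with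
  | rel x y h =>
    obtain ⟨l, g, γ, hγ, rfl, rfl⟩ := h
    rw [← Q.S_cmp, ← Q.S_cmp, map_mul, ← mul_assoc]
    exact Ceq.of _ (Gm_map (Q.lo l' l) hγ)
  | refl => exact Ceq.refl _ _
  | symm x y _ h => exact h.symm
  | trans x y z _ _ h h' => exact h.trans h'

theorem Ceq.mul_right {k : ℕ} {x y z : M} (h : Q.Ceq k x y) (hz : Q.IsCl z) : Q.Ceq k (x * z) (y * z) := by
  obtain ⟨l', g', rfl⟩ := hz
  induction h with
  | rel x y h =>
    obtain ⟨l, g, γ, hγ, rfl, rfl⟩ := h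
    rw [← Q.S_cmp, ← Q.S_cmp, map_mul]
    exact (Ceq.insert _ _ _ (Gm_map (Q.up l l') hγ)).symm
  | refl => exact Ceq.refl _ _
  | symm x y _ h => exact h.symm
  | trans x y z _ _ h h' => exact h.trans h'

theorem Ceq.mul {k : ℕ} {x y x' y' : M} (h : Q.Ceq k x y) (h' : Q.Ceq k x' y') (hy : Q.IsCl y) (hx' : Q.IsCl x') :
    Q.Ceq k (x * x') (y * y') := (h.mul_right hx').trans (h'.mul_left hy)

theorem Ceq.isCl {k : ℕ} {x y : M} (h : Q.Ceq k x y) : Q.IsCl x ↔ Q.IsCl y := by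
  induction h with
  | rel x y h =>
    obtain ⟨l, g, γ, hγ, rfl, rfl⟩ := h
    exact ⟨fun _ => Q.isCl_S _ _, fun _ => Q.isCl_S _ _⟩
  | refl => exact Iff.rfl
  | symm x y _ h => exact h.symm
  | trans x y z _ _ h h' => exact h.trans h'

/-- everything is equivalent to 1 in degree 1 -/
theorem Ceq.one_of {k : ℕ} (hk : k ≤ 1) {x : M} (hx : Q.IsCl x) : Q.Ceq k x 1 := by
  obtain ⟨l, g, rfl⟩ := hx
  rw [← Q.S_one l]
  refine (Ceq.mid ?_).mono hk
  trivial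

/-- products of closures S l a with a in Gm j -/
def Pr (Q : CSys M) (j : ℕ) : Submonoid M := Submonoid.closure {x | ∃ (l : Q.Lev) (a : Q.P l), a ∈ Gm (Q.P l) j ∧ x = Q.S l a}

theorem Pr_isCl [Nonempty Q.Lev] {j : ℕ} {x : M} (hx : x ∈ Q.Pr j) : Q.IsCl x := by
  induction hx using Submonoid.closure_induction with
  | mem x hx =>
    obtain ⟨l, a, _, rfl⟩ := hx
    exact Q.isCl_S l a
  | one => exact Q.isCl_one
  | mul x y _ _ hx hy => exact hx.mul hy

theorem Pr_anti {i j : ℕ} (h : i ≤ j) : Q.Pr j ≤ Q.Pr i := by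
  refine Submonoid.closure_mono ?_
  rintro _ ⟨l, a, ha, rfl⟩
  exact ⟨l, a, Gm_anti _ h ha, rfl⟩

theorem S_mem_Pr {j : ℕ} {l : Q.Lev} {a : Q.P l} (ha : a ∈ Gm (Q.P l) j) : Q.S l a ∈ Q.Pr j :=
  Submonoid.subset_closure ⟨l, a, ha, rfl⟩

/-- R(j): an element of Gm j in the middle of a closure splits off, with an error in degree j + k -/
theorem split [Nonempty Q.Lev] (d : ℕ) : ∀ n j : ℕ, 1 ≤ j → j + n = d → ∀ (l : Q.Lev) (b q : Q.P l), q ∈ Gm (Q.P l) j →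
    ∃ c ∈ Q.Pr j, ∀ k, 1 ≤ k → ∀ z ∈ Gm (Q.P l) k,
      Q.Ceq (min (j + k) d) (Q.S l (b * q * z)) (c * Q.S l (b * z)) := by
  intro n
  induction n with
  | zero =>
    intro j hj hjd l b q hq
    refine ⟨1, one_mem _, ?_⟩
    intro k hk z hz
    rw [one_mul]
    refine (Ceq.insert b q z hq).mono ?_
    omega
  | succ n ih =>
    intro j hj hjd l b q hq
    obtain ⟨h, h', q', hh, hh', hq', hlo, hSh, hSh'⟩ := Q.iso l j q hj hq
    have hcomm := (Gm_filt (Q.P (Q.cmp l l))).comm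
    have hup : Q.up l l q ∈ Gm (Q.P (Q.cmp l l)) j := Gm_map _ hq
    have hN : (Gm (Q.P (Q.cmp l l)) (j + 1)).Normal := inferInstance
    -- the commutators
    set B : Q.P (Q.cmp l l) := Q.lo l l b with hB
    set u : Q.P (Q.cmp l l) := Q.up l l q with hu
    have hw1 : ⁅B⁻¹, h⁻¹⁆ ∈ Gm (Q.P (Q.cmp l l)) (j + 1) := by
      have h1 := hcomm 1 j (Subgroup.commutator_mem_commutator (show B⁻¹ ∈ Gm (Q.P (Q.cmp l l)) 1 from trivial)
        (inv_mem hh))
      rwa [add_comm] at h1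
    have hw2 : ⁅B⁻¹, u⁻¹⁆ ∈ Gm (Q.P (Q.cmp l l)) (j + 1) := by
      have h1 := hcomm 1 j (Subgroup.commutator_mem_commutator (show B⁻¹ ∈ Gm (Q.P (Q.cmp l l)) 1 from trivial)
        (inv_mem hup))
      rwa [add_comm] at h1
    set q2 : Q.P (Q.cmp l l) := ⁅B⁻¹, u⁻¹⁆ * (u⁻¹ * ⁅B⁻¹, h⁻¹⁆ * u⁻¹⁻¹) * (h' * q' * h'⁻¹) with hq2
    have hq2m : q2 ∈ Gm (Q.P (Q.cmp l l)) (j + 1) :=
      mul_mem (mul_mem hw2 (hN.conj_mem _ hw1 _)) (hN.conj_mem _ hq' _)
    obtain ⟨c, hc, hcz⟩ := ih (j + 1) (by omega) (by omega) (Q.cmp l l) (u * B) q2 hq2m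
    refine ⟨c * Q.S l q, mul_mem (Pr_anti (by omega) hc) (S_mem_Pr hq), ?_⟩
    intro k hk z hz
    set Z : Q.P (Q.cmp l l) := Q.lo l l z with hZ
    have hZm : Z ∈ Gm (Q.P (Q.cmp l l)) k := Gm_map _ hz
    have hw3 : ⁅Z⁻¹, h'⁆ ∈ Gm (Q.P (Q.cmp l l)) (j + k) := by
      have h1 := hcomm k j (Subgroup.commutator_mem_commutator (inv_mem hZm) hh')
      rwa [add_comm] at h1
    have e1 : Q.S l (b * q * z) = Q.S (Q.cmp l l) (Q.lo l l (b * q * z)) := by
      have := Q.S_cmp l l 1 (b * q * z)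
      rw [map_one, one_mul, Q.S_one, one_mul] at this
      exact this.symm
    have e2 : Q.lo l l (b * q * z) = h * (u * B * q2 * Z * ⁅Z⁻¹, h'⁆ * h') := by
      rw [map_mul, map_mul, hlo, ← hB, ← hZ, hq2]
      simp only [commutatorElement_def]
      group
    have e3 : Q.S l q * Q.S l (b * z) = Q.S (Q.cmp l l) (u * B * Z) := by
      rw [← Q.S_cmp, map_mul, ← mul_assoc]
    rw [e1, e2, hSh, hSh', mul_assoc c, e3]
    refine Ceq.trans ?_ ((hcz k hk Z hZm).mono (by omega))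
    exact (Ceq.of _ hw3).symm.mono (by omega)

/-- there are left inverses modulo C_d-equivalence -/
theorem exists_left_inv [Nonempty Q.Lev] {d : ℕ} (hd : 1 ≤ d) {x : M} (hx : Q.IsCl x) :
    ∃ y, Q.IsCl y ∧ Q.Ceq d (y * x) 1 := by
  obtain ⟨l, a, rfl⟩ := hx
  obtain ⟨c, hc, h⟩ := split (Q := Q) d (d - 1) 1 le_rfl (by omega) l a a⁻¹ trivial
  refine ⟨c, Pr_isCl hc, ?_⟩
  have := h d hd 1 (one_mem _)
  rw [mul_inv_cancel, one_mul, mul_one, Q.S_one] at this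
  exact this.symm.mono (by omega)

variable (Q)

/-- the closures -/
def clos [Nonempty Q.Lev] : Submonoid M where
  carrier := {x | Q.IsCl x}
  mul_mem' := fun hx hy => IsCl.mul hx hy
  one_mem' := Q.isCl_one

/-- C_d-equivalence as a congruence of the closures -/
def con [Nonempty Q.Lev] (d : ℕ) : Con Q.clos where
  r x y := Q.Ceq d x y
  iseqv := ⟨fun _ => Ceq.refl _ _, fun h => h.symm, fun h h' => h.trans h'⟩
  mul' := fun {_ x y _} h h' => Ceq.mul h h' x.2 y.2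

/-- closures modulo C_d-equivalence: a group G with the class of each closure -/
structure Quo (d : ℕ) (G : Type) [Group G] where
  cls : M → G
  cls_mul : ∀ x y, Q.IsCl x → Q.IsCl y → cls (x * y) = cls x * cls y
  cls_one : cls 1 = 1
  surj : ∀ g, ∃ x, Q.IsCl x ∧ cls x = g
  eq_iff : ∀ x y, Q.IsCl x → Q.IsCl y → (cls x = cls y ↔ Q.Ceq d x y)

open Classical in
theorem exists_quo [Nonempty Q.Lev] {d : ℕ} (hd : 1 ≤ d) : ∃ (G : Type) (_ : Group G), Nonempty (Q.Quo d G) := by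
  let G := (Q.con d).Quotient
  have hleft : ∀ a : G, ∃ b : G, b * a = 1 := by
    intro a
    induction a using Con.induction_on with
    | H x =>
      obtain ⟨y, hy, h⟩ := exists_left_inv hd x.2
      refine ⟨((⟨y, hy⟩ : Q.clos) : G), ?_⟩
      have : (((⟨y, hy⟩ : Q.clos) * x : Q.clos) : G) = ((1 : Q.clos) : G) := (Con.eq _).mpr h
      exact this
  choose inv hinv using hleft
  let iG : Group G := { (inferInstance : Monoid G) with
    inv := inv
    inv_mul_cancel := hinv }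
  refine ⟨G, iG, ⟨{
    cls := fun x => if hx : Q.IsCl x then ((⟨x, hx⟩ : Q.clos) : G) else 1
    cls_mul := ?_
    cls_one := ?_
    surj := ?_
    eq_iff := ?_ }⟩⟩
  · intro x y hx hy
    rw [dif_pos hx, dif_pos hy, dif_pos (hx.mul hy)]
    rfl
  · rw [dif_pos Q.isCl_one]
    rfl
  · intro g
    induction g using Con.induction_on with
    | H x => exact ⟨x, x.2, dif_pos (show Q.IsCl x from x.2)⟩
  · intro x y hx hy
    rw [dif_pos hx, dif_pos hy]
    exact Con.eq _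

end CSys

end SLC
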