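import Pool.Agent.SLC.Fo3
import Pool.Agent.SLC.Conv

/-!
Restriction of braids to the kept strands: properties.
-/

set_option autoImplicit false

open scoped commutatorElement

namespace SLC

namespace Re

theorem mk_apply (g : Br) (s : ℕ → Bool) (k : ℕ) : mk g s (perm g k) = s k := by
  change s (perm g⁻¹ (perm g k)) = s k
  rw [map_inv]
  exact congrArg s ((perm g).symm_apply_apply k)

theorem mk_pure {g : Br} (hg : perm g = 1) (s : ℕ → Bool) : mk g s = s := by
  funext k
  change s (perm g⁻¹ k) = s k
  rw [map_inv, hg, inv_one]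
  rfl

theorem mk_inv_mk (g : Br) (s : ℕ → Bool) : mk g⁻¹ (mk g s) = s := by
  rw [← mk_mul, inv_mul_cancel, mk_one]

theorem mk_mk_inv (g : Br) (s : ℕ → Bool) : mk g (mk g⁻¹ s) = s := by
  rw [← mk_mul, mul_inv_cancel, mk_one]

theorem perm_of_PN {n : ℕ} {g : Br} (hg : g ∈ PN n) : perm g = 1 := (Subgroup.mem_inf.1 hg).2

theorem res_mul_pure {g h : Br} (hh : perm h = 1) (s : ℕ → Bool) : res (g * h) s = res g s * res h s := by
  rw [res_mul, mk_pure hh]

theorem res_inv_pure {g : Br} (hg : perm g = 1) (s : ℕ → Bool) : res g⁻¹ s = (res g s)⁻¹ := by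
  rw [res_inv, mk_pure]
  rw [map_inv, hg, inv_one]

/-- conjugates of pure braids -/
theorem res_conj (c : Br) {w : Br} (hw : perm w = 1) (s : ℕ → Bool) :
    res (c * w * c⁻¹) s = res c (mk c⁻¹ s) * res w (mk c⁻¹ s) * (res c (mk c⁻¹ s))⁻¹ := by
  rw [res_mul, res_mul, mk_pure hw, res_inv, mul_assoc]

theorem cnt_mk_σ (s : ℕ → Bool) {i n : ℕ} (h : i + 1 < n) : cnt (swm i s) n = cnt s n := cnt_swm_ge s (by omega)

/-- the number of kept strands below n is preserved by braids on n strands -/
theorem cnt_mk {n : ℕ} {g : Br} (hg : g ∈ BN n) : ∀ s : ℕ → Bool, cnt (mk g s) n = cnt s n := by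
  induction hg using Subgroup.closure_induction with
  | mem x hx =>
    obtain ⟨i, hi, rfl⟩ := hx
    intro s
    rw [mk_σ, cnt_mk_σ s hi]
  | one =>
    intro s
    rw [mk_one]
  | mul x y _ _ hx hy =>
    intro s
    rw [mk_mul, hx, hy]
  | inv x _ hx =>
    intro s
    have h := hx (mk x⁻¹ s)
    rw [mk_mk_inv] at h
    exact h.symm

theorem res_mem {n : ℕ} {g : Br} (hg : g ∈ BN n) : ∀ s : ℕ → Bool, res g s ∈ BN (cnt s n) := by
  have hg' := hg
  induction hg using Subgroup.closure_induction with
  | mem x hx =>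
    obtain ⟨i, hi, rfl⟩ := hx
    intro s
    rw [res_σ, rsg]
    split_ifs with h
    · refine Subgroup.subset_closure ⟨cnt s i, ?_, rfl⟩
      have h1 := cnt_mono s (show i + 2 ≤ n by omega)
      rw [cnt_two h.1 h.2] at h1
      omega
    · exact one_mem _
  | one =>
    intro s
    rw [res_one]
    exact one_mem _
  | mul x y hx' hy' hx hy =>
    intro s
    rw [res_mul]
    refine mul_mem ?_ (hy hy' s)
    have h1 := hx hx' (mk y s)
    rwa [cnt_mk hy'] at h1
  | inv x hx' hx =>
    intro s
    rw [res_inv]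
    have h1 := hx hx' (mk x⁻¹ s)
    rw [cnt_mk (inv_mem hx')] at h1
    exact inv_mem h1

/-- the permutation of the restriction -/
theorem perm_res (g : Br) : ∀ (s : ℕ → Bool) (k : ℕ), s k = true → perm (res g s) (cnt s k) = cnt (mk g s) (perm g k) := by
  have hg : g ∈ Subgroup.closure (Set.range σ) := by
    have : Subgroup.closure (Set.range σ) = ⊤ := PresentedGroup.closure_range_of braidRels
    rw [this]
    trivial
  induction hg using Subgroup.closure_induction with
  | mem x hx =>
    obtain ⟨i, rfl⟩ := hx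
    intro s k hk
    rw [res_σ, mk_σ, perm_σ]
    have hc : cnt s (i + 1) = cnt s i + (if s i = true then 1 else 0) := rfl
    have hc' : cnt (swm i s) (i + 1) = cnt s i + (if s (i + 1) = true then 1 else 0) := by
      rw [cnt, cnt_swm_le s le_rfl, swm_i]
    by_cases h1 : k = i
    · subst h1
      rw [Equiv.swap_apply_left, hc', rsg]
      by_cases h2 : s (k + 1) = true
      · rw [if_pos ⟨hk, h2⟩, if_pos h2, perm_σ, Equiv.swap_apply_left]
      · rw [if_neg (fun h => h2 h.2), if_neg h2, map_one]
        rfl
    · by_cases h2 : k = i + 1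
      · subst h2
        rw [Equiv.swap_apply_right, hc, cnt_swm_le s le_rfl, rsg]
        by_cases h3 : s i = true
        · rw [if_pos ⟨h3, hk⟩, if_pos h3, perm_σ, Equiv.swap_apply_right]
        · rw [if_neg (fun h => h3 h.1), if_neg h3, map_one]
          rfl
      · rw [Equiv.swap_apply_of_ne_of_ne h1 h2]
        have e1 : cnt (swm i s) k = cnt s k := by
          rcases Nat.lt_or_ge k i with h | h
          · exact cnt_swm_le s h.le
          · exact cnt_swm_ge s (by omega)
        rw [e1, rsg]
        split_ifs with h3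
        · rw [perm_σ, Equiv.swap_apply_of_ne_of_ne]
          · intro h
            rcases Nat.lt_or_ge k i with h' | h'
            · have h4 := cnt_mono s (show k + 1 ≤ i by omega)
              rw [cnt, if_pos hk] at h4
              omega
            · have h4 := cnt_mono s (show i + 2 ≤ k by omega)
              rw [cnt_two h3.1 h3.2] at h4
              omega
          · intro h
            rcases Nat.lt_or_ge k i with h' | h'
            · have h4 := cnt_mono s (show k + 1 ≤ i by omega)
              rw [cnt, if_pos hk] at h4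
              omega
            · have h4 := cnt_mono s (show i + 2 ≤ k by omega)
              rw [cnt_two h3.1 h3.2] at h4
              omega
        · rw [map_one]
          rfl
  | one =>
    intro s k _
    rw [res_one, mk_one, map_one]
    rfl
  | mul x y _ _ hx hy =>
    intro s k hk
    rw [res_mul, map_mul, Equiv.Perm.mul_apply, hy s k hk, hx (mk y s) (perm y k) (by rw [mk_apply]; exact hk),
      map_mul, Equiv.Perm.mul_apply, mk_mul]
  | inv x _ hx =>
    intro s k hk
    have h1 : mk x⁻¹ s (perm x⁻¹ k) = true := by rw [mk_apply]; exact hk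
    have h2 := hx (mk x⁻¹ s) (perm x⁻¹ k) h1
    have e : perm x (perm x⁻¹ k) = k := by
      rw [map_inv]
      exact (perm x).apply_symm_apply k
    rw [e, mk_mk_inv] at h2
    rw [res_inv, map_inv, ← h2]
    exact (perm _).symm_apply_apply _

theorem exists_kept (s : ℕ → Bool) : ∀ n k, k < cnt s n → ∃ j < n, s j = true ∧ cnt s j = k
  | 0, k, h => absurd h (Nat.not_lt_zero k)
  | n + 1, k, h => by
    rw [cnt] at h
    by_cases hn : s n = true
    · rw [if_pos hn] at h
      rcases Nat.lt_or_ge k (cnt s n) with h1 | h1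
      · obtain ⟨j, hj, h2, h3⟩ := exists_kept s n k h1
        exact ⟨j, by omega, h2, h3⟩
      · exact ⟨n, by omega, hn, by omega⟩
    · rw [if_neg hn] at h
      obtain ⟨j, hj, h2, h3⟩ := exists_kept s n k (by omega)
      exact ⟨j, by omega, h2, h3⟩

theorem res_PN {n : ℕ} {g : Br} (hg : g ∈ PN n) (s : ℕ → Bool) : res g s ∈ PN (cnt s n) := by
  refine PN_iff.2 ⟨res_mem (PN_iff.1 hg).1 s, fun x => ?_⟩
  rcases Nat.lt_or_ge x (cnt s n) with h | h
  · obtain ⟨j, -, h1, rfl⟩ := exists_kept s n x h
    rw [perm_res g s j h1, mk_pure (perm_of_PN hg), (PN_iff.1 hg).2 j]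
  · exact (perm_lt (res_mem (PN_iff.1 hg).1 s)).2 x h

/-- the restriction maps the lower central series to the lower central series -/
theorem res_Gam {k n : ℕ} (hk : 1 ≤ k) {g : Br} (hg : g ∈ Gam k n) (s : ℕ → Bool) : res g s ∈ Gam k (cnt s n) := by
  induction k, hk using Nat.le_induction generalizing g with
  | base => exact res_PN hg s
  | succ k hk ih =>
    let S : Subgroup Br :=
      { carrier := {g | g ∈ PN n ∧ res g s ∈ Gam (k + 1) (cnt s n)}
        mul_mem' := fun {a b} ha hb => ⟨mul_mem ha.1 hb.1, by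
          rw [res_mul_pure (perm_of_PN hb.1)]
          exact mul_mem ha.2 hb.2⟩
        one_mem' := ⟨one_mem _, by
          rw [res_one]
          exact one_mem _⟩
        inv_mem' := fun {a} ha => ⟨inv_mem ha.1, by
          rw [res_inv_pure (perm_of_PN ha.1)]
          exact inv_mem ha.2⟩ }
    have h1 : Gam (k + 1) n ≤ S := by
      rw [Gam_succ hk, Subgroup.commutator_le]
      intro a ha b hb
      have ha' : a ∈ PN n := Gam_le_PN ha
      refine ⟨?_, ?_⟩
      · rw [commutatorElement_def]
        exact mul_mem (mul_mem (mul_mem ha' hb) (inv_mem ha')) (inv_mem hb)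
      · have e : res ⁅a, b⁆ s = cm (res a s) (res b s) := by
          have pa := perm_of_PN ha'
          have pb := perm_of_PN hb
          have pa' : perm a⁻¹ = 1 := by rw [map_inv, pa, inv_one]
          have pb' : perm b⁻¹ = 1 := by rw [map_inv, pb, inv_one]
          rw [commutatorElement_def, res_mul_pure pb', res_mul_pure pa', res_mul_pure pb, res_inv_pure pa,
            res_inv_pure pb]
          rfl
        rw [e]
        exact cm_mem_left hk (ih ha) (res_PN hb s)
    exact (h1 hg).2

/-! ### levels -/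

theorem cnt_block (a : ℕ) (b : Bool) (s : ℕ → Bool) : ∀ k, cnt (fun x => if x < a then b else s (x - a)) (a + k) =
    (if b = true then a else 0) + cnt s k := by
  intro k
  induction k with
  | zero =>
    have h1 : ∀ n, n ≤ a → cnt (fun x => if x < a then b else s (x - a)) n = if b = true then n else 0 := by
      intro n
      induction n with
      | zero =>
        intro _
        rw [cnt]
        split_ifs <;> rfl
      | succ n ih =>
        intro hn
        have e : (if n < a then b else s (n - a)) = b := if_pos (by omega)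
        rw [cnt, ih (by omega), e]
        split_ifs <;> rfl
    rw [Nat.add_zero, h1 a le_rfl, cnt, Nat.add_zero]
  | succ k ih =>
    have e : (if a + k < a then b else s (a + k - a)) = s k := by
      rw [if_neg (by omega), Nat.add_sub_cancel_left]
    rw [← Nat.add_assoc, cnt, ih, cnt, e, Nat.add_assoc]

theorem cnt_spread : ∀ (r : List ℕ) (c : ℕ → Bool), cnt (spread r c) (width r) = width (keep r c)
  | [], c => rfl
  | a :: r, c => by
    have h := cnt_block (2 * a + 1) (c 0) (spread r fun j => c (j + 1)) (width r)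
    rw [cnt_spread r] at h
    rw [spread, width, keep]
    rw [h]
    split_ifs with h1
    · rw [width]
    · rw [Nat.zero_add]

theorem cnt_shift (c : ℕ → Bool) : ∀ n, cnt c (n + 1) = (if c 0 = true then 1 else 0) + cnt (fun j => c (j + 1)) n
  | 0 => by
    rw [cnt, cnt, cnt]
    omega
  | n + 1 => by
    rw [cnt, cnt_shift c n, cnt]
    omega

theorem keep_len : ∀ (r : List ℕ) (c : ℕ → Bool), (keep r c).length = cnt c r.length
  | [], c => rfl
  | a :: r, c => by
    rw [List.length_cons, cnt_shift, keep, ← keep_len r]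
    split_ifs with h
    · rw [List.length_cons]
      omega
    · omega

/-- braids on kept strands are not changed -/
theorem res_true {n : ℕ} {g : Br} (hg : g ∈ BN n) : ∀ s : ℕ → Bool, (∀ k < n, s k = true) → res g s = g := by
  have hc : ∀ (s : ℕ → Bool) (i : ℕ), (∀ k < i, s k = true) → cnt s i = i := by
    intro s i
    induction i with
    | zero => exact fun _ => rfl
    | succ i ih =>
      intro h
      rw [cnt, ih fun k hk => h k (by omega), if_pos (h i (by omega))]
  have hmk : ∀ {y : Br}, y ∈ BN n → ∀ s : ℕ → Bool, (∀ k < n, s k = true) → ∀ k < n, mk y s k = true := by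
    intro y hy s hs k hk
    exact hs _ ((perm_lt (inv_mem hy)).1 k hk)
  induction hg using Subgroup.closure_induction with
  | mem x hx =>
    obtain ⟨i, hi, rfl⟩ := hx
    intro s hs
    rw [res_σ, rsg, if_pos ⟨hs i (by omega), hs (i + 1) hi⟩, hc s i fun k hk => hs k (by omega)]
  | one =>
    intro s _
    exact res_one s
  | mul x y hx' hy' hx hy =>
    intro s hs
    rw [res_mul, hx _ (hmk hy' s hs), hy s hs]
  | inv x hx' hx =>
    intro s hs
    rw [res_inv, hx _ (hmk (inv_mem hx') s hs)]

/-- moving a forgotten strand -/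
theorem res_upv (n : ℕ) : ∀ (q : ℕ) (s : ℕ → Bool), s n = false → res (upv n q) s = 1
  | 0, s, _ => res_one s
  | q + 1, s, h => by
    have h1 : mk (upv n q) s (n + q) = false := by
      have h2 := mk_apply (upv n q) s n
      rw [perm_upv, if_neg (by omega), if_pos rfl] at h2
      rw [h2, h]
    rw [upv, res_mul, res_upv n q s h, res_σ, rsg, if_neg (fun h3 => by rw [h1] at h3; exact absurd h3.1 (by simp)),
      mul_one]

/-- forgetting the strand n of a braid with the strand n inserted -/
theorem res_upv_conj {n k : ℕ} {g : Br} (hg : g ∈ PN (n + k)) {s : ℕ → Bool} (hs : s n = false)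
    (hs' : ∀ x < n + k + 1, x ≠ n → s x = true) : res ((upv n k)⁻¹ * g * upv n k) s = g := by
  have e1 : mk (g * upv n k) s = mk (upv n k) s := by
    rw [mk_mul, mk_pure (perm_of_PN hg)]
  have h1 : ∀ x < n + k, mk (upv n k) s x = true := by
    intro x hx
    rcases Nat.lt_or_ge x n with h | h
    · have h2 := mk_apply (upv n k) s x
      rw [perm_upv, if_pos h] at h2
      rw [h2]
      exact hs' x (by omega) (by omega)
    · have h2 := mk_apply (upv n k) s (x + 1)
      rw [perm_upv, if_neg (by omega), if_neg (by omega), if_pos (by omega), Nat.add_sub_cancel] at h2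
      rw [h2]
      exact hs' (x + 1) (by omega) (by omega)
  rw [mul_assoc, res_mul, e1, res_inv, mk_inv_mk, res_upv n k s hs, inv_one, one_mul, res_mul, res_upv n k s hs, mul_one,
    res_true (PN_iff.1 hg).1 _ h1]

/-! ### tangles -/

theorem fgt_CEquiv (c : ℕ → Bool) {m d : ℕ} (hd : 1 ≤ d) {x y : Tangle} (h : CEquiv m d x y) :
    CEquiv (cnt c m) d (fgt c x) (fgt c y) := by
  induction h with
  | rel x y h =>
    obtain ⟨r, hr, g, hg, γ, hγ, rfl, rfl⟩ := h
    have hγ' : γ ∈ PN (width r) := Gam_le_PN hγ
    refine Relation.EqvGen.rel _ _ ⟨keep r c, by rw [keep_len, hr], res g (spread r c), ?_, res γ (spread r c), ?_, ?_, ?_⟩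
    · rw [← cnt_spread]
      exact res_PN hg _
    · rw [← cnt_spread]
      exact res_Gam hd hγ _
    · rw [fgt_cl c r (perm_of_PN hg)]
    · rw [fgt_cl c r (perm_of_PN (mul_mem hg hγ')), res_mul_pure (perm_of_PN hγ')]
  | refl => exact Relation.EqvGen.refl _
  | symm x y _ h => exact Relation.EqvGen.symm _ _ h
  | trans x y z _ _ h h' => exact Relation.EqvGen.trans _ _ _ h h'

theorem fgt_isStringLink (c : ℕ → Bool) {m : ℕ} {x : Tangle} (h : IsStringLink m x) :
    IsStringLink (cnt c m) (fgt c x) := by
  obtain ⟨r, hr, g, hg, rfl⟩ := h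
  refine ⟨keep r c, by rw [keep_len, hr], res g (spread r c), ?_, fgt_cl c r (perm_of_PN hg)⟩
  rw [← cnt_spread]
  exact res_PN hg _

/-- product of a list of crossings and braids -/
def Pl (l : List (ℕ × Br)) : Br := (l.map fun p => σ p.1 * p.2).prod

theorem Pl_cons (p : ℕ × Br) (l : List (ℕ × Br)) : Pl (p :: l) = σ p.1 * p.2 * Pl l := by
  rw [Pl, List.map_cons, List.prod_cons]
  rfl

theorem Pl_mem {n : ℕ} : ∀ l : List (ℕ × Br), (∀ p ∈ l, p.1 + 1 < n ∧ p.2 ∈ BN n) → Pl l ∈ BN n
  | [], _ => one_mem _
  | p :: l, h => by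
    rw [Pl_cons]
    have h1 := h p List.mem_cons_self
    exact mul_mem (mul_mem (σ_mem h1.1) h1.2) (Pl_mem l fun q hq => h q (List.mem_cons_of_mem _ hq))

theorem mk_σ_inv (i : ℕ) (s : ℕ → Bool) : mk (σ i)⁻¹ s = swm i s := by
  have h := mk_inv_mk (σ i) (swm i s)
  rw [mk_σ, swm_swm] at h
  exact h

theorem resolve_congr {n : ℕ} {A : Type} [AddCommGroup A] {F F' : Br → A} (hF : ∀ b ∈ PN n, F b = F' b) :
    ∀ (l : List (ℕ × Br)) (g : Br), g ∈ BN n → (∀ p ∈ l, p.1 + 1 < n ∧ p.2 ∈ BN n) → perm (g * Pl l) = 1 →
      resolve F g l = resolve F' g l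
  | [], g, hg, _, hp => by
    rw [resolve, resolve]
    refine hF g ⟨hg, ?_⟩
    rw [Pl, List.map_nil, List.prod_nil, mul_one] at hp
    exact hp
  | p :: l, g, hg, hl, hp => by
    have h1 := hl p List.mem_cons_self
    have hl' : ∀ q ∈ l, q.1 + 1 < n ∧ q.2 ∈ BN n := fun q hq => hl q (List.mem_cons_of_mem _ hq)
    have hσ : σ p.1 ∈ BN n := σ_mem h1.1
    have e1 : perm (g * σ p.1 * p.2 * Pl l) = 1 := by
      rw [← hp, Pl_cons]
      simp only [mul_assoc]
    have e2 : perm (g * (σ p.1)⁻¹ * p.2 * Pl l) = 1 := by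
      rw [← e1]
      simp only [map_mul, map_inv, perm_σ, Equiv.swap_inv]
    rw [resolve, resolve, resolve_congr hF l _ (mul_mem (mul_mem hg hσ) h1.2) hl' e1,
      resolve_congr hF l _ (mul_mem (mul_mem hg (inv_mem hσ)) h1.2) hl' e2]

theorem resolve_res {n : ℕ} (s : ℕ → Bool) : ∀ l : List (ℕ × Br), (∀ p ∈ l, p.1 + 1 < n ∧ p.2 ∈ BN n) →
    (∀ (A : Type) [AddCommGroup A] (F : Br → A) (g : Br), resolve (fun b => F (res b s)) g l = 0) ∨
    ∃ l' : List (ℕ × Br), l'.length = l.length ∧ (∀ p ∈ l', p.1 + 1 < cnt s n ∧ p.2 ∈ BN (cnt s n)) ∧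
      (∀ g, res (g * Pl l) s = res g (mk (Pl l) s) * Pl l') ∧
      ∀ (A : Type) [AddCommGroup A] (F : Br → A) (g : Br),
        resolve (fun b => F (res b s)) g l = resolve F (res g (mk (Pl l) s)) l'
  | [], _ => by
    refine Or.inr ⟨[], rfl, fun p hp => absurd hp List.not_mem_nil, fun g => ?_, fun A _ F g => ?_⟩
    · change res (g * 1) s = res g (mk 1 s) * 1
      rw [mul_one, mul_one, mk_one]
    · change F (res g s) = F (res g (mk 1 s))
      rw [mk_one]
  | (i, b) :: l, hl => by
    have h1 : i + 1 < n ∧ b ∈ BN n := hl (i, b) List.mem_cons_self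
    have hl' : ∀ q ∈ l, q.1 + 1 < n ∧ q.2 ∈ BN n := fun q hq => hl q (List.mem_cons_of_mem _ hq)
    have hPl := Pl_mem l hl'
    rcases resolve_res s l hl' with h | ⟨l', h2, h3, h4, h5⟩
    · refine Or.inl fun A _ F g => ?_
      rw [resolve, h, h, sub_zero]
    · set t := mk (Pl l) s with ht
      have e1 : ∀ g, res (g * σ i * b) t = res g (swm i (mk b t)) * rsg i (mk b t) * res b t := by
        intro g
        rw [res_mul, res_mul, mk_σ, res_σ]
      have e2 : ∀ g, res (g * (σ i)⁻¹ * b) t = res g (swm i (mk b t)) * (rsg i (mk b t))⁻¹ * res b t := by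
        intro g
        rw [res_mul, res_mul, mk_σ_inv, res_inv, mk_σ_inv, res_σ, rsg_swm]
      have e3 : mk (Pl ((i, b) :: l)) s = swm i (mk b t) := by
        rw [Pl_cons, mk_mul, mk_mul, mk_σ, ht]
      by_cases hv : mk b t i = true ∧ mk b t (i + 1) = true
      · have e4 : rsg i (mk b t) = σ (cnt (mk b t) i) := if_pos hv
        rw [e4] at e1 e2
        have hc : cnt (mk b t) n = cnt s n := by rw [cnt_mk h1.2, ht, cnt_mk hPl]
        refine Or.inr ⟨(cnt (mk b t) i, res b t) :: l', by simp [h2], ?_, fun g => ?_, fun A _ F g => ?_⟩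
        · intro p hp
          rcases List.mem_cons.1 hp with rfl | hp
          · refine ⟨?_, ?_⟩
            · have h6 := cnt_mono (mk b t) (show i + 2 ≤ n by omega)
              rw [cnt_two hv.1 hv.2, hc] at h6
              change cnt (mk b t) i + 1 < cnt s n
              omega
            · have h6 := res_mem h1.2 t
              rw [ht, cnt_mk hPl] at h6
              exact h6
          · exact h3 p hp
        · have e5 : g * Pl ((i, b) :: l) = g * σ i * b * Pl l := by
            rw [Pl_cons]
            simp only [mul_assoc]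
          rw [e5, h4, e1, e3, Pl_cons]
          simp only [mul_assoc]
        · rw [e3, resolve, resolve, h5, h5, e1, e2]
      · have e4 : rsg i (mk b t) = 1 := if_neg hv
        refine Or.inl fun A _ F g => ?_
        rw [resolve, h5, h5, e1, e2, e4, inv_one, sub_self]

/-- finite type invariants of the kept components -/
theorem fgt_FiniteType (c : ℕ → Bool) {m N : ℕ} {A : Type} [AddCommGroup A] {v : Tangle → A}
    (hv : FiniteType (cnt c m) N v) : FiniteType m N (fun x => v (fgt c x)) := by
  intro r g l hr hlen hg hl hp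
  have e1 : resolve (fun b => v (fgt c (cl r b))) g l =
      resolve (fun b => (fun b' => v (cl (keep r c) b')) (res b (spread r c))) g l := by
    refine resolve_congr (n := width r) (fun b hb => ?_) l g hg hl (perm_of_PN hp)
    rw [fgt_cl c r (perm_of_PN hb)]
  rw [e1]
  rcases resolve_res (spread r c) l hl with h | ⟨l', h2, h3, h4, h5⟩
  · exact h A (fun b' => v (cl (keep r c) b')) g
  · rw [h5 A (fun b' => v (cl (keep r c) b')) g]
    rw [cnt_spread] at h3
    refine hv (keep r c) _ l' (by rw [keep_len, hr]) (by rw [h2, hlen]) ?_ h3 ?_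
    · have h6 := res_mem hg (mk (Pl l) (spread r c))
      rw [cnt_mk (Pl_mem l hl), cnt_spread] at h6
      exact h6
    · have h6 := res_PN hp (spread r c)
      rw [cnt_spread] at h6
      change res (g * Pl l) (spread r c) ∈ PN (width (keep r c)) at h6
      rw [h4] at h6
      exact h6

theorem res_Gam' {k n : ℕ} {g : Br} (hg : g ∈ Gam k n) (s : ℕ → Bool) : res g s ∈ Gam k (cnt s n) := by
  rcases Nat.eq_zero_or_pos k with rfl | hk
  · exact res_PN hg s
  · exact res_Gam hk hg s

/-- number of kept components when the component j is forgotten -/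
theorem cnt_ne (j : ℕ) : ∀ m, cnt (fun k => decide (k ≠ j)) m = if j < m then m - 1 else m
  | 0 => by simp [cnt]
  | m + 1 => by
    rw [cnt, cnt_ne j m]
    by_cases h : m = j
    · subst h
      simp
    · have e : decide (m ≠ j) = true := decide_eq_true h
      rw [e, if_pos rfl]
      split_ifs <;> omega

end Re

end SLC
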