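import Pool.Agent.SLC.Gens
import Pool.Agent.SLC.Gen3

/-!
String links: classes of the closures of the elements of the lower central series.
-/

set_option autoImplicit false

namespace SLC

theorem cl_top {r : List ℕ} {h : Br} (hh : caps 0 r * T h = caps 0 r) : cl r h = 1 := by
  rw [cl_def, hh, caps_cups]

theorem cl_bot {r : List ℕ} {h : Br} (hh : T h * cups 0 r = cups 0 r) : cl r h = 1 := by
  rw [cl_def, mul_assoc, hh, caps_cups]

/-- the braids absorbed by a tangle above them -/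
def stT (X : Tangle) : Subgroup Br where
  carrier := {g | X * T g = X}
  one_mem' := by simp
  mul_mem' := by
    intro a b (ha : X * T a = X) (hb : X * T b = X)
    change X * T (a * b) = X
    rw [T_mul, ← mul_assoc, ha, hb]
  inv_mem' := by
    intro a (ha : X * T a = X)
    change X * T a⁻¹ = X
    calc X * T a⁻¹ = X * T a * T a⁻¹ := by rw [ha]
      _ = X := by rw [mul_assoc, T_mul_inv, mul_one]

/-- the braids absorbed by a tangle below them -/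
def stB (X : Tangle) : Subgroup Br where
  carrier := {g | T g * X = X}
  one_mem' := by simp
  mul_mem' := by
    intro a b (ha : T a * X = X) (hb : T b * X = X)
    change T (a * b) * X = X
    rw [T_mul, mul_assoc, hb, ha]
  inv_mem' := by
    intro a (ha : T a * X = X)
    change T a⁻¹ * X = X
    calc T a⁻¹ * X = T a⁻¹ * (T a * X) := by rw [ha]
      _ = X := by rw [← mul_assoc, T_inv_mul, one_mul]

theorem mem_stT {X : Tangle} {g : Br} : g ∈ stT X ↔ X * T g = X := Iff.rfl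
theorem mem_stB {X : Tangle} {g : Br} : g ∈ stB X ↔ T g * X = X := Iff.rfl

theorem stT_conj {X Y : Tangle} {e t g : Br} (h : X * T e = T t * Y) (hg : g ∈ stT Y) : e * g * e⁻¹ ∈ stT X := by
  rw [mem_stT] at hg ⊢
  rw [T_mul, T_mul, ← mul_assoc, ← mul_assoc, h, mul_assoc (T t), hg, ← h, mul_assoc, T_mul_inv, mul_one]

theorem stB_conj {X Y : Tangle} {e t g : Br} (h : T e * Y = X * T t) (hg : g ∈ stB Y) : e * g * e⁻¹ ∈ stB X := by
  rw [mem_stB] at hg ⊢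
  have h2 := cup_inv h
  rw [T_mul, T_mul, mul_assoc, mul_assoc, h2, ← mul_assoc (T g), hg, ← mul_assoc, h, mul_assoc, T_mul_inv, mul_one]

/-- the strand 2 goes around the strands 0, 1 -/
def rh : Br := σ 1 * σ 0 ^ 2 * σ 1

theorem rh_T : rh ∈ stT (C 0) := by
  rw [mem_stT, rh, pow_two]
  have e1 : C 0 * (T (σ 1) * T (σ 0)) = C 1 := C_down 0
  have e2 : C 1 * (T (σ 0) * T (σ 1)) = C 0 := C_up 0
  calc C 0 * T (σ 1 * (σ 0 * σ 0) * σ 1) = C 0 * (T (σ 1) * T (σ 0)) * (T (σ 0) * T (σ 1)) := by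
        simp only [T_mul, mul_assoc]
    _ = C 0 := by rw [e1, e2]

theorem rh_B : rh ∈ stB (U 0) := by
  rw [mem_stB, rh, pow_two]
  have e1 : T (σ 0) * (T (σ 1) * U 0) = U 1 := U_up 0
  have e2 : T (σ 1) * (T (σ 0) * U 1) = U 0 := U_down 0
  calc T (σ 1 * (σ 0 * σ 0) * σ 1) * U 0 = T (σ 1) * (T (σ 0) * (T (σ 0) * (T (σ 1) * U 0))) := by
        simp only [T_mul, mul_assoc]
    _ = U 0 := by rw [e1, e2]

theorem cm_rh_T : cm rh (σ 2 ^ 2) ∈ stT (C 0) := by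
  rw [mem_stT]
  have h1 : C 0 * T rh = T 1 * C 0 := by rw [T_one, one_mul]; exact rh_T
  have h2 : C 0 * T (σ 2 ^ 2) = T (σ 0 ^ 2) * C 0 := by
    rw [pow_two, pow_two]
    exact cap_mul (Cσ_right le_rfl) (Cσ_right le_rfl)
  have h3 := cap_mul (cap_mul (cap_mul h1 h2) (cap_inv h1)) (cap_inv h2)
  rw [cm, h3]
  simp

theorem cm_rh_B : cm rh (σ 2 ^ 2) ∈ stB (U 0) := by
  rw [mem_stB]
  have h1 : T rh * U 0 = U 0 * T 1 := by rw [T_one, mul_one]; exact rh_B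
  have h2 : T (σ 2 ^ 2) * U 0 = U 0 * T (σ 0 ^ 2) := by
    rw [pow_two, pow_two]
    exact cup_mul (σU_right le_rfl) (σU_right le_rfl)
  have h3 := cup_mul (cup_mul (cup_mul h1 h2) (cup_inv h1)) (cup_inv h2)
  rw [cm, h3]
  simp

theorem cm_mul_left' (u v w : Br) : cm (u * v) w = u * cm v w * u⁻¹ * cm u w := by
  unfold cm
  group

theorem rh_eq : rh = (σ 1 * σ 0 ^ 2 * (σ 1)⁻¹) * σ 1 ^ 2 := by
  rw [rh, pow_two (σ 1)]
  group

theorem br_shift {a b : Br} (h : a * b * a = b * a * b) : (a * b) * a * (a * b)⁻¹ = b := by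
  rw [h]
  group

theorem br_shift' {a b c : Br} (hab : a * b * a = b * a * b) (hbc : b * c * b = c * b * c) (hac : a * c = c * a) :
    (a * b * c) * a * (a * b * c)⁻¹ = b ∧ (a * b * c) * b * (a * b * c)⁻¹ = c := by
  constructor
  · calc (a * b * c) * a * (a * b * c)⁻¹ = a * b * (c * a) * c⁻¹ * b⁻¹ * a⁻¹ := by group
      _ = (a * b * a) * b⁻¹ * a⁻¹ := by rw [← hac]; group
      _ = b := by rw [hab]; group
  · calc (a * b * c) * b * (a * b * c)⁻¹ = a * (b * c * b) * (b * c)⁻¹ * a⁻¹ := by group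
      _ = (a * c) * a⁻¹ := by rw [hbc]; group
      _ = c := by rw [hac]; group

/-- moves the strands 0, 1, 2 to 1, 2, 3 -/
def w1 : Br := σ 0 * σ 1 * σ 2

theorem w1_conj : w1 * σ 0 * w1⁻¹ = σ 1 ∧ w1 * σ 1 * w1⁻¹ = σ 2 :=
  br_shift' (σ_braid 0) (σ_braid 1) (σ_far (i := 0) (k := 2) le_rfl)

/-- moves the strands 0, 1, 2 to 0, 2, 3 -/
def w2 : Br := σ 1 * σ 2

theorem w2_conj : w2 * σ 0 * w2⁻¹ = σ 1 * σ 0 * (σ 1)⁻¹ ∧ w2 * σ 1 * w2⁻¹ = σ 2 := by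
  constructor
  · have h : σ 0 * σ 2 = σ 2 * σ 0 := σ_far (i := 0) (k := 2) le_rfl
    calc w2 * σ 0 * w2⁻¹ = σ 1 * (σ 2 * σ 0) * (σ 2)⁻¹ * (σ 1)⁻¹ := by rw [w2]; group
      _ = σ 1 * σ 0 * (σ 1)⁻¹ := by rw [← h]; group
  · exact br_shift (σ_braid 1)

theorem cc2_conj {w a b : Br} (h0 : w * σ 0 * w⁻¹ = a) (h1 : w * σ 1 * w⁻¹ = b) :
    w * cc2 * w⁻¹ = cm (a ^ 2) (b ^ 2) := by
  rw [cc2, ← cm_conj, pow_conj, pow_conj, h0, h1]

theorem cm_rh_eq : cm rh (σ 2 ^ 2) = ((σ 1 * σ 0 ^ 2 * (σ 1)⁻¹) * w1) * cc2 * ((σ 1 * σ 0 ^ 2 * (σ 1)⁻¹) * w1)⁻¹ *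
    (w2 * cc2 * w2⁻¹) := by
  rw [rh_eq, cm_mul_left', cc2_conj w2_conj.1 w2_conj.2, ← pow_conj]
  congr 1
  rw [mul_inv_rev]
  have := cc2_conj w1_conj.1 w1_conj.2
  rw [← this]
  group

theorem perm_w1 : perm w1 0 = 1 ∧ perm w1 1 = 2 ∧ perm w1 2 = 3 ∧ perm w1 3 = 0 := by
  simp only [w1, map_mul, perm_σ, Equiv.Perm.mul_apply, Equiv.swap_apply_def]
  decide

theorem perm_w2 : perm w2 0 = 0 ∧ perm w2 1 = 2 ∧ perm w2 2 = 3 := by
  simp only [w2, map_mul, perm_σ, Equiv.Perm.mul_apply, Equiv.swap_apply_def]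
  decide

theorem w1_mem {N : ℕ} (h : 4 ≤ N) : w1 ∈ BN N :=
  mul_mem (mul_mem (σ_mem (by omega)) (σ_mem (by omega))) (σ_mem (by omega))

theorem w2_mem {N : ℕ} (h : 4 ≤ N) : w2 ∈ BN N := mul_mem (σ_mem (by omega)) (σ_mem (by omega))

theorem cc2_mem {N : ℕ} (h : 3 ≤ N) : cc2 ∈ Gam 2 N :=
  cm_mem_left (k := 1) le_rfl (sq_mem_PN (by omega)) (sq_mem_PN (by omega))

theorem rh_mem {N : ℕ} (h : 3 ≤ N) : rh ∈ PN N := by
  rw [rh_eq]
  exact mul_mem (PN_conj (σ_mem (by omega)) (sq_mem_PN (by omega))) (sq_mem_PN (by omega))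

theorem perm_PN {N : ℕ} {g : Br} (h : g ∈ PN N) (x : ℕ) : perm g x = x := (PN_iff.1 h).2 x

theorem Eqm.comm2 {N : ℕ} {x y : Br} (hx : x ∈ Gam 2 N) (hy : y ∈ Gam 2 N) : Eqm 3 N (x * y) (y * x) := by
  have h := cm_mem_left (k := 2) (by omega) (inv_mem hy) (Gam_le_PN (inv_mem hx))
  have e : (x * y)⁻¹ * (y * x) = cm y⁻¹ x⁻¹ := by
    unfold cm
    group
  rw [Eqm, e]
  exact h

theorem dbl1 : Dbl 1 2 (σ 0 ^ 2) rh where
  mem := sq_mem_PN (by omega)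
  memh := rh_mem (by omega)
  cap := rh_T
  cup := rh_B
  eq N hN := by
    refine ⟨σ 1, σ_mem (by omega), σ 0 * σ 1, mul_mem (σ_mem (by omega)) (σ_mem (by omega)), ?_, ?_, ?_, ?_⟩
    · rw [perm_σ]; rfl
    · rw [map_mul, perm_σ, perm_σ]; rfl
    · intro x h1 h2
      obtain rfl : x = 1 := by omega
      rw [map_mul, perm_σ, perm_σ]
      exact ⟨rfl, rfl⟩
    · rw [rh_eq, pow_conj (σ 0 * σ 1), br_shift (σ_braid 0)]
      exact Eqm.refl _

theorem dbl2 : Dbl 2 3 cc2 (cm rh (σ 2 ^ 2)) where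
  mem := cc2_mem (by omega)
  memh := cm_mem_left (k := 1) le_rfl (rh_mem (by omega)) (sq_mem_PN (by omega))
  cap := cm_rh_T
  cup := cm_rh_B
  eq N hN := by
    have hu : σ 1 * σ 0 ^ 2 * (σ 1)⁻¹ ∈ PN N := PN_conj (σ_mem (by omega)) (sq_mem_PN (by omega))
    have hd : σ 1 * σ 0 ^ 2 * (σ 1)⁻¹ * w1 ∈ BN N := mul_mem (PN_iff.1 hu).1 (w1_mem (by omega))
    refine ⟨w2, w2_mem (by omega), σ 1 * σ 0 ^ 2 * (σ 1)⁻¹ * w1, hd, perm_w2.1, ?_, ?_, ?_⟩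
    · rw [map_mul, Equiv.Perm.mul_apply, perm_w1.1, perm_PN hu]
    · intro x h1 h2
      rcases (show x = 1 ∨ x = 2 by omega) with rfl | rfl
      · exact ⟨perm_w2.2.1, by rw [map_mul, Equiv.Perm.mul_apply, perm_w1.2.1, perm_PN hu]⟩
      · exact ⟨perm_w2.2.2, by rw [map_mul, Equiv.Perm.mul_apply, perm_w1.2.2.1, perm_PN hu]⟩
    · rw [cm_rh_eq]
      exact Eqm.comm2 (Gam_conj hd (cc2_mem (by omega))) (Gam_conj (w2_mem (by omega)) (cc2_mem (by omega)))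

end SLC
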