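import Pool.Agent.SLC.Red0

/-!
String links: classes of the generators of the degrees 1 and 2 on positions.
-/

set_option autoImplicit false

namespace SLC

open CSys

section

variable {m : ℕ} {G : Type} [Group G]

/-- the classes of the clasps between the strands x, y lie in H -/
def Gd1 (π : (sys m).Quo (1 + 1) G) (H : Subgroup G) (r : List ℕ) (x y : ℕ) : Prop :=
  ∀ c ∈ BN (width r), perm c 0 = x → perm c 1 = y → th π r (c * σ 0 ^ 2 * c⁻¹) ∈ H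

/-- the classes of the commutators on the strands x, y, z lie in H -/
def Gd2 (π : (sys m).Quo (2 + 1) G) (H : Subgroup G) (r : List ℕ) (x y z : ℕ) : Prop :=
  ∀ c ∈ BN (width r), perm c 0 = x → perm c 1 = y → perm c 2 = z → th π r (c * cc2 * c⁻¹) ∈ H

/-- three positions -/
def tri (x y z : ℕ) : ℕ → ℕ
  | 0 => x
  | 1 => y
  | _ => z

theorem exists_tri {N x y z : ℕ} (hx : x < N) (hy : y < N) (hz : z < N) (hxy : x ≠ y) (hxz : x ≠ z) (hyz : y ≠ z) :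
    ∃ c ∈ BN N, perm c 0 = x ∧ perm c 1 = y ∧ perm c 2 = z := by
  obtain ⟨c, hc, h⟩ := exists_inj 3 N (tri x y z) (by
    intro a ha
    interval_cases a <;> assumption) (by
    intro a ha b hb hab
    interval_cases a <;> interval_cases b <;> simp_all [tri])
  exact ⟨c, hc, h 0 (by omega), h 1 (by omega), h 2 (by omega)⟩

theorem exists_two {N x y : ℕ} (hx : x < N) (hy : y < N) (hxy : x ≠ y) :
    ∃ c ∈ BN N, perm c 0 = x ∧ perm c 1 = y := by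
  obtain ⟨c, hc, h⟩ := exists_inj 2 N (tri x y y) (by
    intro a ha
    interval_cases a <;> assumption) (by
    intro a ha b hb hab
    interval_cases a <;> interval_cases b <;> simp_all [tri])
  exact ⟨c, hc, h 0 (by omega), h 1 (by omega)⟩

theorem Gd1.of_one {π : (sys m).Quo (1 + 1) G} {H : Subgroup G} {r : List ℕ} (hr : r.length = m) {x y : ℕ} {c : Br}
    (hN : 2 ≤ width r) (hc : c ∈ BN (width r)) (h0 : perm c 0 = x) (h1 : perm c 1 = y)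
    (h : th π r (c * σ 0 ^ 2 * c⁻¹) ∈ H) : Gd1 π H r x y := by
  intro c' hc' h0' h1'
  have e := th_class π le_rfl hr hN (γ := σ 0 ^ 2) (sq_mem_PN (by omega)) hc' hc (by
    intro a ha
    interval_cases a
    · rw [h0, h0']
    · rw [h1, h1'])
  rw [e]
  exact h

theorem Gd2.of_one {π : (sys m).Quo (2 + 1) G} {H : Subgroup G} {r : List ℕ} (hr : r.length = m) {x y z : ℕ} {c : Br}
    (hN : 3 ≤ width r) (hc : c ∈ BN (width r)) (h0 : perm c 0 = x) (h1 : perm c 1 = y) (h2 : perm c 2 = z)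
    (h : th π r (c * cc2 * c⁻¹) ∈ H) : Gd2 π H r x y z := by
  intro c' hc' h0' h1' h2'
  have e := th_class π (by omega) hr hN (γ := cc2) (cc2_mem (by omega)) hc' hc (by
    intro a ha
    interval_cases a
    · rw [h0, h0']
    · rw [h1, h1']
    · rw [h2, h2'])
  rw [e]
  exact h

theorem Gd1.symm {π : (sys m).Quo (1 + 1) G} {H : Subgroup G} {r : List ℕ} {x y : ℕ}
    (hN : 2 ≤ width r) (h : Gd1 π H r x y) : Gd1 π H r y x := by
  intro c hc h0 h1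
  have h2 := h (c * σ 0) (mul_mem hc (σ_mem (by omega)))
    (by rw [map_mul, Equiv.Perm.mul_apply, perm_σ, Equiv.swap_apply_left, h1])
    (by rw [map_mul, Equiv.Perm.mul_apply, perm_σ, Equiv.swap_apply_right, h0])
  have e : c * σ 0 * σ 0 ^ 2 * (c * σ 0)⁻¹ = c * σ 0 ^ 2 * c⁻¹ := by
    rw [pow_two]
    group
  rwa [e] at h2

theorem Gd2.swap0 {π : (sys m).Quo (2 + 1) G} {H : Subgroup G} {r : List ℕ} (hr : r.length = m) {x y z : ℕ}
    (hN : 3 ≤ width r) (h : Gd2 π H r x y z) : Gd2 π H r y x z := by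
  intro c hc h0 h1 h2
  have h3 := h (c * σ 0) (mul_mem hc (σ_mem (by omega)))
    (by rw [map_mul, Equiv.Perm.mul_apply, perm_σ, Equiv.swap_apply_left, h1])
    (by rw [map_mul, Equiv.Perm.mul_apply, perm_σ, Equiv.swap_apply_right, h0])
    (by rw [map_mul, Equiv.Perm.mul_apply, perm_σ, Equiv.swap_apply_of_ne_of_ne (by omega) (by omega), h2])
  have hcc : cc2 ∈ Gam 2 (width r) := cc2_mem hN
  have e : c * σ 0 * cc2 * (c * σ 0)⁻¹ = c * (σ 0 * cc2 * (σ 0)⁻¹) * c⁻¹ := by group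
  have e2 : c * cc2⁻¹ * c⁻¹ = (c * cc2 * c⁻¹)⁻¹ := by group
  rw [e, th_eqm π (by omega) hr (Gam_conj hc (Gam_conj (σ_mem (by omega)) hcc)) ((cc2_swap0 hN).conj hc), e2,
    th_inv π (by omega) hr (Gam_conj hc hcc)] at h3
  exact inv_mem_iff.1 h3

theorem Gd2.swap1 {π : (sys m).Quo (2 + 1) G} {H : Subgroup G} {r : List ℕ} (hr : r.length = m) {x y z : ℕ}
    (hN : 3 ≤ width r) (h : Gd2 π H r x y z) : Gd2 π H r x z y := by
  intro c hc h0 h1 h2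
  have h3 := h (c * σ 1) (mul_mem hc (σ_mem (by omega)))
    (by rw [map_mul, Equiv.Perm.mul_apply, perm_σ, Equiv.swap_apply_of_ne_of_ne (by omega) (by omega), h0])
    (by rw [map_mul, Equiv.Perm.mul_apply, perm_σ, Equiv.swap_apply_left]; exact h2)
    (by rw [map_mul, Equiv.Perm.mul_apply, perm_σ]; exact (congrArg _ (Equiv.swap_apply_right 1 2)).trans h1)
  have hcc : cc2 ∈ Gam 2 (width r) := cc2_mem hN
  have e : c * σ 1 * cc2 * (c * σ 1)⁻¹ = c * (σ 1 * cc2 * (σ 1)⁻¹) * c⁻¹ := by group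
  have e2 : c * cc2⁻¹ * c⁻¹ = (c * cc2 * c⁻¹)⁻¹ := by group
  rw [e, th_eqm π (by omega) hr (Gam_conj hc (Gam_conj (σ_mem (by omega)) hcc)) ((cc2_swap1 hN).conj hc), e2,
    th_inv π (by omega) hr (Gam_conj hc hcc)] at h3
  exact inv_mem_iff.1 h3

theorem Gd1.flip {π : (sys m).Quo (1 + 1) G} {H : Subgroup G} {r : List ℕ} (hr : r.length = m) {p y : ℕ}
    (hp : adjB r p) (hy : y < width r) (h1 : y ≠ p) (h2 : y ≠ p + 1) : Gd1 π H r p y ↔ Gd1 π H r (p + 1) y := by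
  have hpw := (adjB_turn r p hp).1
  obtain ⟨c, hc, c0, c1⟩ := exists_two (show p < width r by omega) hy h1.symm
  obtain ⟨c', hc', c0', c1'⟩ := exists_two hpw hy h2.symm
  have key := uturn π le_rfl hr (by omega) dbl1 hp hc hc' c0 c0' (by
    intro x hx1 hx2
    obtain rfl : x = 1 := by omega
    rw [c1, c1']
    exact ⟨rfl, h1, h2⟩) (by omega)
  constructor
  · intro h
    refine Gd1.of_one hr (by omega) hc' c0' c1' ?_
    rw [← inv_mem_iff, ← eq_inv_of_mul_eq_one_left key]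
    exact h c hc c0 c1
  · intro h
    refine Gd1.of_one hr (by omega) hc c0 c1 ?_
    rw [eq_inv_of_mul_eq_one_left key]
    exact inv_mem (h c' hc' c0' c1')

theorem Gd2.flip {π : (sys m).Quo (2 + 1) G} {H : Subgroup G} {r : List ℕ} (hr : r.length = m) {p y z : ℕ}
    (hp : adjB r p) (hy : y < width r) (hz : z < width r) (hyz : y ≠ z) (h1 : y ≠ p) (h2 : y ≠ p + 1) (h3 : z ≠ p)
    (h4 : z ≠ p + 1) : Gd2 π H r p y z ↔ Gd2 π H r (p + 1) y z := by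
  have hpw := (adjB_turn r p hp).1
  obtain ⟨c, hc, c0, c1, c2⟩ := exists_tri (show p < width r by omega) hy hz h1.symm h3.symm hyz
  obtain ⟨c', hc', c0', c1', c2'⟩ := exists_tri hpw hy hz h2.symm h4.symm hyz
  have key := uturn π (by omega) hr (by omega) dbl2 hp hc hc' c0 c0' (by
    intro x hx1 hx2
    rcases (show x = 1 ∨ x = 2 by omega) with rfl | rfl
    · rw [c1, c1']
      exact ⟨rfl, h1, h2⟩
    · rw [c2, c2']
      exact ⟨rfl, h3, h4⟩) (by omega)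
  constructor
  · intro h
    refine Gd2.of_one hr (by omega) hc' c0' c1' c2' ?_
    rw [← inv_mem_iff, ← eq_inv_of_mul_eq_one_left key]
    exact h c hc c0 c1 c2
  · intro h
    refine Gd2.of_one hr (by omega) hc c0 c1 c2 ?_
    rw [eq_inv_of_mul_eq_one_left key]
    exact inv_mem (h c' hc' c0' c1' c2')

theorem Gd1.adj {π : (sys m).Quo (1 + 1) G} {H : Subgroup G} {r : List ℕ} (hr : r.length = m) {p : ℕ}
    (hp : adjB r p) : Gd1 π H r p (p + 1) := by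
  have hpw := (adjB_turn r p hp).1
  obtain ⟨c, hc, c0, c1⟩ := exists_two (show p < width r by omega) hpw (by omega)
  obtain ⟨e, he, hep, het⟩ := turn_conj hc (by omega) c0 c1
  obtain ⟨t1, t2⟩ := het (σ 0 ^ 2)
  have a1 : C 0 * T (σ 0 ^ 2) = C 0 := by rw [pow_two, T_mul, ← mul_assoc, C_σ, C_σ]
  have a2 : T (σ 0 ^ 2) * U 0 = U 0 := by rw [pow_two, T_mul, mul_assoc, σ_U, σ_U]
  refine Gd1.of_one hr (by omega) he (by rw [hep, c0]) (by rw [hep, c1]) ?_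
  rw [th_turn π hp (t1 a1) (t2 a2)]
  exact one_mem H

end

/-- the strand 1 goes around the strands 2, 3 -/
def rh' : Br := σ 1 * σ 2 ^ 2 * σ 1

theorem rh'_T : rh' ∈ stT (C 2) := by
  rw [mem_stT, rh', pow_two]
  have e1 : C 1 * (T (σ 2) * T (σ 1)) = C 2 := C_down 1
  have e2 : C 2 * (T (σ 1) * T (σ 2)) = C 1 := C_up 1
  calc C 2 * T (σ 1 * (σ 2 * σ 2) * σ 1) = C 2 * (T (σ 1) * T (σ 2)) * (T (σ 2) * T (σ 1)) := by
        simp only [T_mul, mul_assoc]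
    _ = C 2 := by rw [e2, e1]

theorem cm_rh_rh' {N : ℕ} (h4 : 4 ≤ N) : Eqm 3 N (cm rh rh')
    ((σ 1 * w1) * cc2 * (σ 1 * w1)⁻¹ * (σ 1 * cc2 * (σ 1)⁻¹)) := by
  have s0 : σ 0 ^ 2 ∈ PN N := sq_mem_PN (by omega)
  have s1 : σ 1 ^ 2 ∈ PN N := sq_mem_PN (by omega)
  have s2 : σ 2 ^ 2 ∈ PN N := sq_mem_PN (by omega)
  have b1 : σ 1 ∈ BN N := σ_mem (by omega)
  have hu : σ 1 * σ 0 ^ 2 * (σ 1)⁻¹ ∈ PN N := PN_conj b1 s0
  have hx : σ 1 * σ 2 ^ 2 * (σ 1)⁻¹ ∈ PN N := PN_conj b1 s2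
  have e1 : rh' = (σ 1 * σ 2 ^ 2 * (σ 1)⁻¹) * σ 1 ^ 2 := by
    rw [rh', pow_two (σ 1)]
    group
  have e3 : σ 1 * σ 1 ^ 2 * (σ 1)⁻¹ = σ 1 ^ 2 := by group
  have k1 : cm (σ 1 * σ 0 ^ 2 * (σ 1)⁻¹) (σ 1 * σ 2 ^ 2 * (σ 1)⁻¹) = 1 := by
    have h02 : σ 0 * σ 2 = σ 2 * σ 0 := σ_far (i := 0) (k := 2) le_rfl
    have h02' : σ 0 ^ 2 * σ 2 ^ 2 = σ 2 ^ 2 * σ 0 ^ 2 := ((show Commute (σ 0) (σ 2) from h02).pow_pow 2 2)
    rw [cm_conj, cm, h02']
    group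
  have k2 : cm (σ 1 * σ 0 ^ 2 * (σ 1)⁻¹) (σ 1 ^ 2) = σ 1 * cc2 * (σ 1)⁻¹ := by
    rw [cc2, ← cm_conj, e3]
  have k3 : cm (σ 1 ^ 2) (σ 1 * σ 2 ^ 2 * (σ 1)⁻¹) = σ 1 * w1 * cc2 * (σ 1 * w1)⁻¹ := by
    have h := cc2_conj w1_conj.1 w1_conj.2
    calc cm (σ 1 ^ 2) (σ 1 * σ 2 ^ 2 * (σ 1)⁻¹) = cm (σ 1 * σ 1 ^ 2 * (σ 1)⁻¹) (σ 1 * σ 2 ^ 2 * (σ 1)⁻¹) := by
          rw [e3]
      _ = σ 1 * (w1 * cc2 * w1⁻¹) * (σ 1)⁻¹ := by rw [cm_conj, h]
      _ = _ := by group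
  have k4 : cm (σ 1 ^ 2) (σ 1 ^ 2) = 1 := by unfold cm; group
  have g1 : Eqm 3 N (cm (σ 1 ^ 2) rh') (σ 1 * w1 * cc2 * (σ 1 * w1)⁻¹) := by
    have := cm_mul_right s1 hx s1
    rw [k3, k4, mul_one] at this
    rw [e1]
    exact this
  have g2 : Eqm 3 N (cm (σ 1 * σ 0 ^ 2 * (σ 1)⁻¹) rh') (σ 1 * cc2 * (σ 1)⁻¹) := by
    have := cm_mul_right hu hx s1
    rw [k1, k2, one_mul] at this
    rw [e1]
    exact this
  have hr' : rh' ∈ PN N := by rw [e1]; exact mul_mem hx s1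
  have g3 : cm (σ 1 ^ 2) rh' ∈ Gam 2 N := cm_mem_left (k := 1) le_rfl s1 hr'
  have g4 : cm (σ 1 * σ 0 ^ 2 * (σ 1)⁻¹) rh' ∈ Gam 2 N := cm_mem_left (k := 1) le_rfl hu hr'
  rw [rh_eq, cm_mul_left']
  exact Eqm.mul (Gam_le_PN g4) ((Eqm.central (by omega) g3 hu).trans g1) g2

theorem BU_C {N p : ℕ} {e : Br} (he : e ∈ BU (p + 2) N) : ∃ e' : Br, C p * T e = T e' * C p := by
  induction he using Subgroup.closure_induction with
  | mem x hx =>
    obtain ⟨i, hi, _, rfl⟩ := hx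
    obtain ⟨j, rfl⟩ : ∃ j, i = j + 2 := ⟨i - 2, by omega⟩
    exact ⟨σ j, Cσ_right (by omega)⟩
  | one => exact ⟨1, by simp⟩
  | mul x y _ _ hx hy =>
    obtain ⟨a, ha⟩ := hx
    obtain ⟨b, hb⟩ := hy
    exact ⟨a * b, cap_mul ha hb⟩
  | inv x _ hx =>
    obtain ⟨a, ha⟩ := hx
    exact ⟨a⁻¹, cap_inv ha⟩

theorem zv_BU {N : ℕ} (q k : ℕ) (h : q + k + 2 ≤ N) : zv q k ∈ BU q N := by
  induction k generalizing q with
  | zero => exact one_mem _
  | succ k ih =>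
    refine mul_mem (mul_mem (Subgroup.subset_closure ⟨q + 1, by omega, by omega, rfl⟩)
      (Subgroup.subset_closure ⟨q, le_rfl, by omega, rfl⟩)) (BU_mono (by omega) (ih (q + 1) (by omega)))

theorem pair_far {M p q : ℕ} (h1 : p + 2 ≤ q) (h2 : q ≤ M) : ∃ f ∈ BN (M + 2), ∃ t t' : Br,
    C p * T f = T t * C (M - 2) ∧ C q * T f = T t' * C M ∧ perm f (M - 2) = p ∧ perm f (M - 1) = p + 1 ∧
      perm f M = q ∧ perm f (M + 1) = q + 1 := by
  have a1 : C q * T (zv q (M - q)) = T 1 * C M := by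
    rw [C_zv, T_one, one_mul]
    congr 1
    omega
  have a2 : zv p (M - 2 - p) ∈ BN M := zv_mem _ _ (by omega)
  have a3 : C M * T (zv p (M - 2 - p)) = T (zv p (M - 2 - p)) * C M := C_BN le_rfl a2
  obtain ⟨t, a4⟩ := BU_C (N := M + 2) (BU_mono h1 (zv_BU (N := M + 2) q (M - q) (by omega)))
  have a5 : C p * T (zv p (M - 2 - p)) = T 1 * C (M - 2) := by
    rw [C_zv, T_one, one_mul]
    congr 1
    omega
  refine ⟨zv q (M - q) * zv p (M - 2 - p), mul_mem (zv_mem _ _ (by omega)) (BN_mono (by omega) a2), _, _,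
    cap_mul a4 a5, cap_mul a1 a3, ?_, ?_, ?_, ?_⟩ <;>
  · rw [map_mul, Equiv.Perm.mul_apply, perm_zv, perm_zv]
    split_ifs <;> omega

theorem pair2 {N p q : ℕ} (h1 : p + 2 ≤ q) (h2 : q + 1 < N) : ∃ e ∈ BN N, ∃ t t' : Br,
    C p * T e = T t * C 0 ∧ C q * T e = T t' * C 2 ∧ perm e 0 = p ∧ perm e 1 = p + 1 ∧ perm e 2 = q ∧
      perm e 3 = q + 1 := by
  obtain ⟨M, rfl⟩ : ∃ M, N = M + 2 := ⟨N - 2, by omega⟩
  obtain ⟨f, hf, t, t', f1, f2, f3, f4, f5, f6⟩ := pair_far (M := M) h1 (by omega)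
  obtain ⟨g, hg, s, s', g1, g2, g3, g4, g5, g6⟩ := pair_far (M := M) (p := 0) (q := 2) (by omega) (by omega)
  have inv : ∀ {a b c : ℕ}, perm g a = b → perm f a = c → perm (f * g⁻¹) b = c := by
    intro a b c hb hc
    have : perm g⁻¹ b = a := by rw [map_inv, Equiv.Perm.inv_eq_iff_eq, hb]
    rw [map_mul, Equiv.Perm.mul_apply, this, hc]
  exact ⟨f * g⁻¹, mul_mem hf (inv_mem hg), _, _, cap_mul f1 (cap_inv g1), cap_mul f2 (cap_inv g2), inv g3 f3,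
    inv g4 f4, inv g5 f5, inv g6 f6⟩

theorem stT_le {A X Y : Tangle} (h : X = A * Y) : stT Y ≤ stT X := by
  intro g hg
  rw [mem_stT] at hg ⊢
  rw [h, mul_assoc, hg]

theorem Gd2.turn2 {m : ℕ} {G : Type} [Group G] {π : (sys m).Quo (2 + 1) G} {H : Subgroup G} {r : List ℕ}
    (hr : r.length = m) {p q : ℕ} (h1 : p + 2 ≤ q) (h2 : q + 1 < width r) (hp : ∃ A, caps 0 r = A * C p)
    (hq : ∃ A, caps 0 r = A * C q) (h : Gd2 π H r p q (p + 1)) : Gd2 π H r q (p + 1) (q + 1) := by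
  obtain ⟨e, he, t, t', e1, e2, p0, p1, p2, p3⟩ := pair2 h1 h2
  obtain ⟨A, hA⟩ := hp
  obtain ⟨B, hB⟩ := hq
  have a1 : e * rh * e⁻¹ ∈ stT (caps 0 r) := stT_le hA (stT_conj e1 rh_T)
  have a2 : e * rh' * e⁻¹ ∈ stT (caps 0 r) := stT_le hB (stT_conj e2 rh'_T)
  have a3 : e * cm rh rh' * e⁻¹ ∈ stT (caps 0 r) := by
    rw [← cm_conj]
    unfold cm
    exact mul_mem (mul_mem (mul_mem a1 a2) (inv_mem a1)) (inv_mem a2)
  have hN : 4 ≤ width r := by omega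
  have b1 : σ 1 ∈ BN (width r) := σ_mem (by omega)
  have hcc : cc2 ∈ Gam 2 (width r) := cc2_mem (by omega)
  have hc1 : e * (σ 1 * w1) ∈ BN (width r) := mul_mem he (mul_mem b1 (w1_mem hN))
  have hc2 : e * σ 1 ∈ BN (width r) := mul_mem he b1
  have e3 : e * (σ 1 * w1 * cc2 * (σ 1 * w1)⁻¹ * (σ 1 * cc2 * (σ 1)⁻¹)) * e⁻¹ =
      e * (σ 1 * w1) * cc2 * (e * (σ 1 * w1))⁻¹ * (e * σ 1 * cc2 * (e * σ 1)⁻¹) := by group
  have hcm : cm rh rh' ∈ Gam 2 (width r) := by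
    refine cm_mem_left (k := 1) le_rfl (rh_mem (by omega)) ?_
    have e5 : rh' = (σ 1 * σ 2 ^ 2 * (σ 1)⁻¹) * σ 1 ^ 2 := by
      rw [rh', pow_two (σ 1)]
      group
    rw [e5]
    exact mul_mem (PN_conj b1 (sq_mem_PN (by omega))) (sq_mem_PN (by omega))
  have key : th π r (e * (σ 1 * w1) * cc2 * (e * (σ 1 * w1))⁻¹) * th π r (e * σ 1 * cc2 * (e * σ 1)⁻¹) = 1 := by
    rw [← th_mul π (by omega) hr (Gam_conj hc1 hcc) (Gam_conj hc2 hcc), ← e3,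
      ← th_eqm π (by omega) hr (Gam_conj he hcm) ((cm_rh_rh' hN).conj he), th, cl_top a3, π.cls_one]
  have q2 : th π r (e * σ 1 * cc2 * (e * σ 1)⁻¹) ∈ H := by
    refine h _ hc2 ?_ ?_ ?_
    · rw [map_mul, Equiv.Perm.mul_apply, perm_σ, Equiv.swap_apply_of_ne_of_ne (by omega) (by omega), p0]
    · rw [map_mul, Equiv.Perm.mul_apply, perm_σ, Equiv.swap_apply_left]
      exact p2
    · rw [map_mul, Equiv.Perm.mul_apply, perm_σ]
      exact (congrArg _ (Equiv.swap_apply_right 1 2)).trans p1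
  refine Gd2.of_one hr (by omega) hc1 ?_ ?_ ?_ ?_
  · rw [map_mul, map_mul, Equiv.Perm.mul_apply, Equiv.Perm.mul_apply, perm_w1.1, perm_σ, Equiv.swap_apply_left]
    exact p2
  · rw [map_mul, map_mul, Equiv.Perm.mul_apply, Equiv.Perm.mul_apply, perm_w1.2.1, perm_σ]
    exact (congrArg _ (Equiv.swap_apply_right 1 2)).trans p1
  · rw [map_mul, map_mul, Equiv.Perm.mul_apply, Equiv.Perm.mul_apply, perm_w1.2.2.1, perm_σ,
      Equiv.swap_apply_of_ne_of_ne (by omega) (by omega), p3]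
  · rw [eq_inv_of_mul_eq_one_left key]
    exact inv_mem q2

end SLC
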