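import Pool.Agent.SLC.Red1

/-!
String links: reduction to the generators of the degrees 1 and 2.
-/

set_option autoImplicit false

namespace SLC

open CSys

/-- number of the block of the strand x -/
def bl : List ℕ → ℕ → ℕ
  | [], _ => 0
  | a :: r, x => if x < 2 * a + 1 then 0 else bl r (x - (2 * a + 1)) + 1

/-- first strand of the block number i -/
def W (r : List ℕ) (i : ℕ) : ℕ := width (r.take i)

theorem W_zero (r : List ℕ) : W r 0 = 0 := by simp [W, width]

theorem W_succ (a : ℕ) (r : List ℕ) (i : ℕ) : W (a :: r) (i + 1) = 2 * a + 1 + W r i := by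
  rw [W, List.take_succ_cons, width, W]

theorem bl_lt (r : List ℕ) : ∀ x, x < width r → bl r x < r.length := by
  induction r with
  | nil => intro x hx; exact absurd hx (Nat.not_lt_zero x)
  | cons a r ih =>
    intro x hx
    rw [width] at hx
    rw [bl, List.length_cons]
    split_ifs with h
    · omega
    · have := ih (x - (2 * a + 1)) (by omega)
      omega

theorem bl_mono (r : List ℕ) : ∀ x y, x ≤ y → bl r x ≤ bl r y := by
  induction r with
  | nil => intro x y _; exact le_rfl
  | cons a r ih =>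
    intro x y hxy
    rw [bl, bl]
    split_ifs
    · exact le_rfl
    · omega
    · omega
    · have := ih (x - (2 * a + 1)) (y - (2 * a + 1)) (by omega)
      omega

theorem W_bl_le (r : List ℕ) : ∀ x, W r (bl r x) ≤ x := by
  induction r with
  | nil => intro x; simp [W, bl, width]
  | cons a r ih =>
    intro x
    rw [bl]
    split_ifs with h
    · rw [W_zero]; omega
    · rw [W_succ]
      have := ih (x - (2 * a + 1))
      omega

theorem adjB_W (r : List ℕ) : ∀ x, x + 1 < width r → W r (bl r (x + 1)) ≤ x → adjB r x ∧ bl r x = bl r (x + 1) := by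
  induction r with
  | nil => intro x hx; exact absurd hx (Nat.not_lt_zero _)
  | cons a r ih =>
    intro x hx h
    rw [width] at hx
    have ex : bl (a :: r) x = if x < 2 * a + 1 then 0 else bl r (x - (2 * a + 1)) + 1 := rfl
    have ex1 : bl (a :: r) (x + 1) = if x + 1 < 2 * a + 1 then 0 else bl r (x + 1 - (2 * a + 1)) + 1 := rfl
    rw [ex1] at h ⊢
    rw [ex, adjB]
    by_cases h1 : x + 1 < 2 * a + 1
    · rw [if_pos h1, if_pos (by omega)]
      exact ⟨Or.inl (by omega), rfl⟩
    · rw [if_neg h1, W_succ] at h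
      rw [if_neg h1, if_neg (by omega)]
      have e : x + 1 - (2 * a + 1) = (x - (2 * a + 1)) + 1 := by omega
      rw [e] at h
      obtain ⟨h3, h4⟩ := ih (x - (2 * a + 1)) (by omega) (by omega)
      rw [e]
      exact ⟨Or.inr ⟨by omega, h3⟩, by rw [h4]⟩

theorem W_gap (r : List ℕ) (h1 : ∀ a ∈ r, 1 ≤ a) : ∀ i j, i < j → j ≤ r.length → W r i + 3 ≤ W r j := by
  induction r with
  | nil =>
    intro i j h1 h2
    rw [List.length_nil] at h2
    omega
  | cons a r ih =>
    intro i j hij hj
    have ha := h1 a List.mem_cons_self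
    obtain ⟨j, rfl⟩ : ∃ j', j = j' + 1 := ⟨j - 1, by omega⟩
    rw [List.length_cons] at hj
    rcases i with _ | i
    · rw [W_zero, W_succ]
      omega
    · rw [W_succ, W_succ]
      have := ih (fun b hb => h1 b (List.mem_cons_of_mem _ hb)) i j (by omega) (by omega)
      omega

theorem W_lt (r : List ℕ) (h1 : ∀ a ∈ r, 1 ≤ a) : ∀ i, i < r.length → W r i + 2 < width r := by
  intro i hi
  have h := W_gap r h1 i r.length hi le_rfl
  rw [W, W, List.take_length] at h
  rw [W]
  omega

theorem caps_W (r : List ℕ) (h1 : ∀ a ∈ r, 1 ≤ a) : ∀ i, i < r.length → ∀ o, ∃ A, caps o r = A * C (o + W r i) := by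
  induction r with
  | nil => intro i hi; exact absurd hi (Nat.not_lt_zero _)
  | cons a r ih =>
    intro i hi o
    rcases i with _ | i
    · rw [W_zero]
      exact caps_C (e := 0) r (by have := h1 a List.mem_cons_self; omega)
    · obtain ⟨A, hA⟩ := ih (fun b hb => h1 b (List.mem_cons_of_mem _ hb)) i (by simpa using hi) (o + (2 * a + 1))
      refine ⟨capRow o a * A, ?_⟩
      rw [caps, hA, W_succ, mul_assoc]
      congr 3
      omega

theorem adjB_W0 (r : List ℕ) (h1 : ∀ a ∈ r, 1 ≤ a) : ∀ i, i < r.length → adjB r (W r i) := by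
  induction r with
  | nil => intro i hi; exact absurd hi (Nat.not_lt_zero _)
  | cons a r ih =>
    intro i hi
    rcases i with _ | i
    · rw [W_zero]
      exact Or.inl (by have := h1 a List.mem_cons_self; omega)
    · rw [W_succ]
      refine Or.inr ⟨by omega, ?_⟩
      have := ih (fun b hb => h1 b (List.mem_cons_of_mem _ hb)) i (by simpa using hi)
      rwa [Nat.add_sub_cancel_left]

/-- a strand slides down in its block -/
theorem slide_down {r : List ℕ} {P : ℕ → Prop} {L : ℕ} : ∀ x, L ≤ x → x < width r →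
    (∀ p, L ≤ p → p < x → adjB r p → (P p ↔ P (p + 1))) → P (max L (W r (bl r x))) → P x := by
  intro x
  induction x with
  | zero =>
    intro h1 _ _ h
    have := W_bl_le r 0
    have e : max L (W r (bl r 0)) = 0 := by omega
    rwa [e] at h
  | succ x ih =>
    intro h1 h2 hf h
    rcases Nat.lt_or_ge x (max L (W r (bl r (x + 1)))) with h3 | h3
    · have := W_bl_le r (x + 1)
      have e : max L (W r (bl r (x + 1))) = x + 1 := by omega
      rwa [e] at h
    · obtain ⟨h4, h5⟩ := adjB_W r x h2 (by omega)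
      rw [← hf x (by omega) (by omega) h4]
      refine ih (by omega) (by omega) (fun p hp1 hp2 => hf p hp1 (by omega)) ?_
      rwa [h5]

section

variable {m : ℕ} {G : Type} [Group G]

theorem Gd1.all {π : (sys m).Quo (1 + 1) G} {H : Subgroup G} {r : List ℕ} (hr : r.length = m) (h1 : ∀ a ∈ r, 1 ≤ a)
    (hT : ∀ i j, i < j → j < m → Gd1 π H r (W r i) (W r j)) :
    ∀ x y, x ≠ y → x < width r → y < width r → Gd1 π H r x y := by
  have key : ∀ x y, x < y → y < width r → Gd1 π H r x y := by
    intro x y hxy hy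
    have hx : x < width r := by omega
    have hN : 2 ≤ width r := by omega
    have b1 := W_bl_le r x
    have b2 := W_bl_le r y
    have b3 := bl_mono r x y hxy.le
    have b4 := bl_lt r y hy
    refine slide_down (r := r) (P := fun x => Gd1 π H r x y) (L := 0) x (Nat.zero_le _) hx
      (fun p _ hp hadj => Gd1.flip hr hadj hy (by omega) (by omega)) ?_
    refine slide_down (r := r) (P := fun y => Gd1 π H r (max 0 (W r (bl r x))) y) (L := max 0 (W r (bl r x)) + 1) y
      (by omega) hy (fun p hp1 hp hadj => ?_) ?_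
    · have h2 : max 0 (W r (bl r x)) < width r := by omega
      exact ⟨fun h => ((Gd1.flip hr hadj h2 (by omega) (by omega)).1 (h.symm hN)).symm hN,
        fun h => ((Gd1.flip hr hadj h2 (by omega) (by omega)).2 (h.symm hN)).symm hN⟩
    · simp only [Nat.zero_max]
      rcases b3.lt_or_eq with h2 | h2
      · have g := W_gap r h1 _ _ h2 b4.le
        have e : max (W r (bl r x) + 1) (W r (bl r y)) = W r (bl r y) := by omega
        rw [e]
        exact hT _ _ h2 (hr ▸ b4)
      · rw [← h2]
        have e : max (W r (bl r x) + 1) (W r (bl r x)) = W r (bl r x) + 1 := by omega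
        rw [e]
        exact Gd1.adj hr (adjB_W0 r h1 _ (bl_lt r x hx))
  intro x y hxy hx hy
  rcases lt_or_gt_of_ne hxy with h | h
  · exact key x y h hy
  · exact (key y x h hx).symm (by omega)

theorem Gd2.all {π : (sys m).Quo (2 + 1) G} {H : Subgroup G} {r : List ℕ} (hr : r.length = m) (h1 : ∀ a ∈ r, 1 ≤ a)
    (hC : ∀ i, i < m → Gd2 π H r (W r i) (W r i + 1) (W r i + 2))
    (hD : ∀ i j, i < j → j < m → Gd2 π H r (W r i) (W r i + 1) (W r j))
    (hE : ∀ i j k, i < j → j < k → k < m → Gd2 π H r (W r i) (W r j) (W r k)) :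
    ∀ x y z, x ≠ y → x ≠ z → y ≠ z → x < width r → y < width r → z < width r → Gd2 π H r x y z := by
  have hD' : ∀ i j, i < j → j < m → Gd2 π H r (W r i) (W r j) (W r j + 1) := by
    intro i j hij hj
    have g := W_gap r h1 i j hij (by omega)
    have w := W_lt r h1 j (by omega)
    have hN : 3 ≤ width r := by omega
    obtain ⟨A, hA⟩ := caps_W r h1 i (by omega) 0
    obtain ⟨B, hB⟩ := caps_W r h1 j (by omega) 0
    rw [Nat.zero_add] at hA hB
    have s1 := ((hD i j hij hj).swap1 hr hN).turn2 hr (by omega) (by omega) ⟨A, hA⟩ ⟨B, hB⟩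
    have s2 := s1.swap0 hr hN
    exact (Gd2.flip hr (adjB_W0 r h1 i (by omega)) (by omega) (by omega) (by omega) (by omega) (by omega)
      (by omega) (by omega)).2 s2
  have key : ∀ x y z, x < y → y < z → z < width r → Gd2 π H r x y z := by
    intro x y z hxy hyz hz
    have hN : 3 ≤ width r := by omega
    have b1 := W_bl_le r x
    have b2 := W_bl_le r y
    have b3 := W_bl_le r z
    have m1 := bl_mono r x y hxy.le
    have m2 := bl_mono r y z hyz.le
    have l1 := bl_lt r x (by omega)
    have l2 := bl_lt r y (by omega)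
    have l3 := bl_lt r z hz
    refine slide_down (r := r) (P := fun x => Gd2 π H r x y z) (L := 0) x (Nat.zero_le _) (by omega)
      (fun p _ hp hadj => Gd2.flip hr hadj (by omega) hz (by omega) (by omega) (by omega) (by omega) (by omega)) ?_
    rw [Nat.zero_max]
    obtain ⟨X, hX⟩ : ∃ X, X = W r (bl r x) := ⟨_, rfl⟩
    rw [← hX]
    have fl2 : ∀ {X p z : ℕ}, adjB r p → X < width r → z < width r → X ≠ z → X ≠ p → X ≠ p + 1 → z ≠ p → z ≠ p + 1 →
        (Gd2 π H r X p z ↔ Gd2 π H r X (p + 1) z) := by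
      intro X p z hadj g1 g2 g3 g4 g5 g6 g7
      have f := Gd2.flip (π := π) (H := H) hr hadj g1 g2 g3 g4 g5 g6 g7
      exact ⟨fun h => (f.1 (h.swap0 hr hN)).swap0 hr hN, fun h => (f.2 (h.swap0 hr hN)).swap0 hr hN⟩
    have fl3 : ∀ {X Y p : ℕ}, adjB r p → X < width r → Y < width r → X ≠ Y → X ≠ p → X ≠ p + 1 → Y ≠ p → Y ≠ p + 1 →
        (Gd2 π H r X Y p ↔ Gd2 π H r X Y (p + 1)) := by
      intro X Y p hadj g1 g2 g3 g4 g5 g6 g7
      have f := fl2 (X := X) (p := p) (z := Y) hadj g1 g2 g3 g4 g5 g6 g7
      exact ⟨fun h => (f.1 (h.swap1 hr hN)).swap1 hr hN, fun h => (f.2 (h.swap1 hr hN)).swap1 hr hN⟩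
    refine slide_down (r := r) (P := fun y => Gd2 π H r X y z) (L := X + 1) y (by omega) (by omega)
      (fun p hp1 hp hadj => fl2 hadj (by omega) hz (by omega) (by omega) (by omega) (by omega) (by omega)) ?_
    obtain ⟨Y, hY⟩ : ∃ Y, Y = max (X + 1) (W r (bl r y)) := ⟨_, rfl⟩
    rw [← hY]
    refine slide_down (r := r) (P := fun z => Gd2 π H r X Y z) (L := Y + 1) z (by omega) hz
      (fun p hp1 hp hadj => fl3 hadj (by omega) (by omega) (by omega) (by omega) (by omega) (by omega) (by omega)) ?_
    rcases m1.lt_or_eq with h2 | h2 <;> rcases m2.lt_or_eq with h3 | h3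
    · have g1 := W_gap r h1 _ _ h2 l2.le
      have g2 := W_gap r h1 _ _ h3 l3.le
      have eY : Y = W r (bl r y) := by omega
      have eZ : max (Y + 1) (W r (bl r z)) = W r (bl r z) := by omega
      rw [eZ, eY, hX]
      exact hE _ _ _ h2 h3 (hr ▸ l3)
    · have g1 := W_gap r h1 _ _ h2 l2.le
      have eY : Y = W r (bl r y) := by omega
      have eZ : max (Y + 1) (W r (bl r z)) = W r (bl r y) + 1 := by rw [← h3]; omega
      rw [eZ, eY, hX]
      exact hD' _ _ h2 (hr ▸ l2)
    · have g2 := W_gap r h1 _ _ h3 l3.le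
      have eY : Y = W r (bl r x) + 1 := by rw [hY, ← h2]; omega
      have eZ : max (Y + 1) (W r (bl r z)) = W r (bl r z) := by rw [h2] at eY; omega
      rw [eZ, eY, hX]
      exact hD _ _ (by omega) (hr ▸ l3)
    · have eY : Y = W r (bl r x) + 1 := by rw [hY, ← h2]; omega
      have eZ : max (Y + 1) (W r (bl r z)) = W r (bl r x) + 2 := by rw [← h3, ← h2]; omega
      rw [eZ, eY, hX]
      exact hC _ (hr ▸ l1)
  intro x y z hxy hxz hyz hx hy hz
  have hN : 3 ≤ width r := by omega
  rcases lt_or_gt_of_ne hxy with h | h <;> rcases lt_or_gt_of_ne hyz with h' | h' <;>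
    rcases lt_or_gt_of_ne hxz with h'' | h''
  · exact key x y z h h' hz
  · omega
  · exact (key x z y h'' h' hy).swap1 hr hN
  · exact ((key z x y h'' h hy).swap0 hr hN).swap1 hr hN
  · exact (key y x z h h'' hz).swap0 hr hN
  · exact ((key y z x h' h'' hx).swap1 hr hN).swap0 hr hN
  · omega
  · exact (((key z y x h' h hx).swap0 hr hN).swap1 hr hN).swap0 hr hN

end

end SLC
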