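import Pool.Agent.SLC.Spr1

/-!
An integral multiple of the linear coefficient of polynomial functions of degree < c with values in an abelian group.
-/

set_option autoImplicit false

namespace SLC

variable {A : Type} [AddCommGroup A]

/-- M times the linear coefficient of a polynomial function of degree < c -/
def Dm (c M : ℕ) (A : Type) [AddCommGroup A] : (ℕ → A) →+ A where
  toFun g := ∑ i ∈ Finset.Ico 1 c, ((-1 : ℤ) ^ (i - 1) * ((M / i : ℕ) : ℤ)) • ((fwdDiff (1 : ℕ))^[i] g 0)
  map_zero' := by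
    refine Finset.sum_eq_zero fun i _ => ?_
    have h := fwdDiff_iter_add (1 : ℕ) (0 : ℕ → A) 0 i
    rw [add_zero] at h
    have h2 : (fwdDiff (1 : ℕ))^[i] (0 : ℕ → A) = 0 := left_eq_add.1 h
    rw [h2, Pi.zero_apply, smul_zero]
  map_add' g g' := by
    rw [← Finset.sum_add_distrib]
    refine Finset.sum_congr rfl fun i _ => ?_
    rw [fwdDiff_iter_add, Pi.add_apply, smul_add]

theorem Dm_apply (c M : ℕ) (g : ℕ → A) : Dm c M A g =
    ∑ i ∈ Finset.Ico 1 c, ((-1 : ℤ) ^ (i - 1) * ((M / i : ℕ) : ℤ)) • ((fwdDiff (1 : ℕ))^[i] g 0) := rfl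

theorem fd_hom {B C : Type} [AddCommGroup B] [AddCommGroup C] (φ : B →+ C) (z : ℕ → B) (i : ℕ) :
    (fwdDiff (1 : ℕ))^[i] (fun n => φ (z n)) = fun n => φ ((fwdDiff (1 : ℕ))^[i] z n) := by
  induction i with
  | zero => rfl
  | succ i ih =>
    rw [Function.iterate_succ_apply', Function.iterate_succ_apply', ih]
    funext n
    rw [fwdDiff, fwdDiff, map_sub]

theorem Dm_smul (c M : ℕ) (z : ℕ → ℤ) (b : A) : Dm c M A (fun n => z n • b) = (Dm c M ℤ z) • b := by
  rw [Dm_apply, Dm_apply, Finset.sum_smul]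
  refine Finset.sum_congr rfl fun i _ => ?_
  have h := congrFun (fd_hom (AddMonoidHom.mk' (fun z : ℤ => z • b) fun x y => add_smul x y b) z i) 0
  have h2 : (fwdDiff (1 : ℕ))^[i] (fun n => z n • b) 0 = ((fwdDiff (1 : ℕ))^[i] z 0) • b := h
  rw [h2, smul_smul, smul_eq_mul]

open Polynomial in
theorem desc_eval_neg (k : ℕ) : (descPochhammer ℚ k).eval (-1) = (-1) ^ k * (k.factorial : ℚ) := by
  induction k with
  | zero => simp
  | succ k ih =>
    rw [descPochhammer_succ_eval, ih, Nat.factorial_succ]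
    push_cast
    ring

open Polynomial in
theorem desc_coeff_one (k : ℕ) : (descPochhammer ℚ (k + 1)).coeff 1 = (-1) ^ k * (k.factorial : ℚ) := by
  rw [descPochhammer_succ_left, mul_comm, coeff_mul_X, coeff_zero_eq_eval_zero, eval_comp, eval_sub, eval_X, eval_one,
    zero_sub, desc_eval_neg]

/-- the linear coefficient by finite differences -/
def Dq (c : ℕ) : (ℕ → ℚ) →+ ℚ where
  toFun y := ∑ i ∈ Finset.Ico 1 c, ((-1 : ℚ) ^ (i - 1) / i) * ((fwdDiff (1 : ℕ))^[i] y 0)
  map_zero' := by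
    refine Finset.sum_eq_zero fun i _ => ?_
    have h := fwdDiff_iter_add (1 : ℕ) (0 : ℕ → ℚ) 0 i
    rw [add_zero] at h
    have h2 : (fwdDiff (1 : ℕ))^[i] (0 : ℕ → ℚ) = 0 := left_eq_add.1 h
    rw [h2, Pi.zero_apply, mul_zero]
  map_add' g g' := by
    rw [← Finset.sum_add_distrib]
    refine Finset.sum_congr rfl fun i _ => ?_
    rw [fwdDiff_iter_add, Pi.add_apply, mul_add]

theorem Dq_apply (c : ℕ) (y : ℕ → ℚ) : Dq c y =
    ∑ i ∈ Finset.Ico 1 c, ((-1 : ℚ) ^ (i - 1) / i) * ((fwdDiff (1 : ℕ))^[i] y 0) := rfl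

theorem Dq_const_mul (c : ℕ) (a : ℚ) (y : ℕ → ℚ) : Dq c (fun n => a * y n) = a * Dq c y := by
  rw [Dq_apply, Dq_apply, Finset.mul_sum]
  refine Finset.sum_congr rfl fun i _ => ?_
  have h := fd_hom (AddMonoidHom.mulLeft a) y i
  simp only [AddMonoidHom.coe_mulLeft] at h
  rw [h]
  ring

theorem Dq_desc {c k : ℕ} (hk : k < c) : Dq c (fun n => (descPochhammer ℚ k).eval (n : ℚ)) =
    (descPochhammer ℚ k).coeff 1 := by
  have e : (fun n : ℕ => (descPochhammer ℚ k).eval (n : ℚ)) =
      fun n => (k.factorial : ℚ) * ((Int.castAddHom ℚ) ((n.choose k : ℕ) : ℤ)) := by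
    funext n
    rw [descPochhammer_eval_eq_descFactorial, Nat.descFactorial_eq_factorial_mul_choose]
    push_cast
    rfl
  rw [e, Dq_const_mul, Dq_apply]
  have h : ∀ i, (fwdDiff (1 : ℕ))^[i] (fun n : ℕ => (Int.castAddHom ℚ) ((n.choose k : ℕ) : ℤ)) 0 =
      if i = k then 1 else 0 := by
    intro i
    rw [fd_hom]
    have h1 := fwdDiff_iter_choose_zero k i
    have h2 : (fwdDiff (1 : ℕ))^[i] (fun n : ℕ => ((n.choose k : ℕ) : ℤ)) 0 = if i = k then 1 else 0 := h1
    dsimp only
    rw [h2]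
    split_ifs <;> simp
  simp only [h]
  rcases k with _ | k
  · rw [Finset.sum_eq_zero, mul_zero]
    · simp [Polynomial.coeff_one]
    · intro i hi
      rw [Finset.mem_Ico] at hi
      rw [if_neg (by omega), mul_zero]
  · rw [Finset.sum_eq_single (k + 1), if_pos rfl, desc_coeff_one, Nat.factorial_succ, Nat.add_sub_cancel]
    · have : ((k + 1 : ℕ) : ℚ) ≠ 0 := by positivity
      push_cast at this ⊢
      field_simp
    · intro i _ hi
      rw [if_neg hi, mul_zero]
    · intro h
      exact absurd (Finset.mem_Ico.2 ⟨by omega, hk⟩) h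

open Polynomial in
theorem Dq_poly {c : ℕ} : ∀ N, N ≤ c → ∀ P : ℚ[X], P.degree < N → Dq c (fun n => P.eval (n : ℚ)) = P.coeff 1 := by
  intro N
  induction N with
  | zero =>
    intro _ P hP
    have : P = 0 := by
      rw [← Polynomial.degree_eq_bot]
      by_contra h
      exact absurd hP (not_lt.2 (by exact_mod_cast zero_le_degree_iff.2 (mt Polynomial.degree_eq_bot.2 h)))
    rw [this]
    simp only [eval_zero]
    rw [Polynomial.coeff_zero]
    exact map_zero (Dq c)
  | succ N ih =>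
    intro hN P hP
    set a := P.coeff N with ha
    set Q := P - C a * descPochhammer ℚ N with hQ
    have hdeg : (descPochhammer ℚ N).natDegree = N := descPochhammer_natDegree ℚ N
    have hQd : Q.degree < N := by
      rw [degree_lt_iff_coeff_zero] at hP ⊢
      intro m hm
      rw [hQ, coeff_sub, coeff_C_mul]
      rcases Nat.eq_or_lt_of_le hm with rfl | hm
      · have h1 : (descPochhammer ℚ N).coeff N = 1 := by
          have := (monic_descPochhammer ℚ N).coeff_natDegree
          rwa [hdeg] at this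
        rw [h1, mul_one, sub_self]
      · rw [hP m hm, coeff_eq_zero_of_natDegree_lt (by rw [hdeg]; exact hm), mul_zero, sub_zero]
    have h1 := ih (by omega) Q hQd
    have h2 := Dq_desc (c := c) (k := N) (by omega)
    have e : (fun n : ℕ => P.eval (n : ℚ)) = (fun n : ℕ => Q.eval (n : ℚ)) +
        fun n : ℕ => a * (descPochhammer ℚ N).eval (n : ℚ) := by
      funext n
      rw [Pi.add_apply, hQ, eval_sub, eval_mul, eval_C]
      ring
    rw [e, map_add, h1, Dq_const_mul, h2, hQ, coeff_sub, coeff_C_mul]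
    ring

/-- M is divisible by 1, ..., c - 1 -/
def Dv (c M : ℕ) : Prop := ∀ i, 1 ≤ i → i < c → i ∣ M

theorem Dm_int {c M : ℕ} (hM : Dv c M) (z : ℕ → ℤ) : ((Dm c M ℤ z : ℤ) : ℚ) = M * Dq c (fun n => (z n : ℚ)) := by
  rw [Dm_apply, Dq_apply, Finset.mul_sum, Int.cast_sum]
  refine Finset.sum_congr rfl fun i hi => ?_
  rw [Finset.mem_Ico] at hi
  have h := congrFun (fd_hom (Int.castAddHom ℚ) z i) 0
  have h' : (fwdDiff (1 : ℕ))^[i] (fun n => ((z n : ℤ) : ℚ)) 0 = (((fwdDiff (1 : ℕ))^[i] z 0 : ℤ) : ℚ) := h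
  rw [h', smul_eq_mul]
  push_cast
  have h3 : ((M / i : ℕ) : ℚ) = (M : ℚ) / i := Nat.cast_div (hM i hi.1 hi.2) (by
    have : i ≠ 0 := by omega
    exact_mod_cast this)
  have h4 : (((M : ℤ) / (i : ℤ) : ℤ) : ℚ) = (M : ℚ) / i := by
    rw [← h3]
    norm_cast
  rw [h4]
  ring

open Polynomial in
theorem Dm_poly {c M : ℕ} (hM : Dv c M) {P : ℚ[X]} (hP : P.degree < c) {z : ℕ → ℤ} (hz : ∀ n : ℕ, (z n : ℚ) = P.eval (n : ℚ))
    (t : ℤ) (ht : M * P.coeff 1 = t) (b : A) : Dm c M A (fun n => z n • b) = t • b := by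
  rw [Dm_smul]
  congr 1
  have h := Dm_int hM z
  simp only [hz] at h
  rw [Dq_poly c le_rfl P hP, ht] at h
  exact_mod_cast h

theorem Dm_lin {c M : ℕ} (hM : Dv c M) (hc : 1 < c) (b : A) : Dm c M A (fun n => n • b) = M • b := by
  have h := Dm_poly hM (P := Polynomial.X) (z := fun n => (n : ℤ)) (by
    rw [Polynomial.degree_X]
    exact_mod_cast hc) (fun n => by simp) M (by simp) b
  simp only [natCast_zsmul] at h
  exact h

theorem Dm_const {c M : ℕ} (hM : Dv c M) (hc : 1 < c) (b : A) : Dm c M A (fun _ => b) = 0 := by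
  have h := Dm_poly hM (P := 1) (z := fun _ => 1) (by
    rw [Polynomial.degree_one]
    exact_mod_cast (by omega : 0 < c)) (fun n => by simp) 0 (by simp [Polynomial.coeff_one]) b
  simpa using h

theorem Dm_choose {c M : ℕ} (hM : Dv c M) {i l : ℕ} (hi : 1 ≤ i) (hl : 1 ≤ l) (hil : i + l < c) (b : A) :
    Dm c M A (fun n => (n.choose i * n.choose l) • b) = 0 := by
  have h := Dm_poly hM (c := c) (P := Polynomial.C ((i.factorial : ℚ)⁻¹ * (l.factorial : ℚ)⁻¹) *
      (descPochhammer ℚ i * descPochhammer ℚ l)) (z := fun n => ((n.choose i * n.choose l : ℕ) : ℤ)) ?_ ?_ 0 ?_ b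
  · have e : (fun n : ℕ => (((n.choose i * n.choose l : ℕ) : ℤ)) • b) = fun n => (n.choose i * n.choose l) • b :=
      funext fun n => natCast_zsmul _ _
    rw [e, zero_smul] at h
    exact h
  · refine lt_of_le_of_lt (Polynomial.degree_le_natDegree) ?_
    refine lt_of_le_of_lt (b := ((i + l : ℕ) : WithBot ℕ)) ?_ (by exact_mod_cast hil)
    refine Nat.cast_le.2 ((Polynomial.natDegree_C_mul_le _ _).trans (Polynomial.natDegree_mul_le.trans ?_))
    rw [descPochhammer_natDegree, descPochhammer_natDegree]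
  · intro n
    rw [Polynomial.eval_mul, Polynomial.eval_C, Polynomial.eval_mul, descPochhammer_eval_eq_descFactorial,
      descPochhammer_eval_eq_descFactorial, Nat.descFactorial_eq_factorial_mul_choose,
      Nat.descFactorial_eq_factorial_mul_choose]
    have h1 : (i.factorial : ℚ) ≠ 0 := by exact_mod_cast i.factorial_ne_zero
    have h2 : (l.factorial : ℚ) ≠ 0 := by exact_mod_cast l.factorial_ne_zero
    push_cast
    field_simp
  · have h3 : ∀ s : ℕ, 1 ≤ s → (descPochhammer ℚ s).coeff 0 = 0 := by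
      intro s hs
      rw [Polynomial.coeff_zero_eq_eval_zero, descPochhammer_ne_zero_eval_zero _ (by omega)]
    rw [Polynomial.coeff_C_mul, Polynomial.mul_coeff_one, h3 i hi, h3 l hl]
    simp

/-- additivity along the diagonal -/
theorem Dm_diag {c M : ℕ} (hM : Dv c M) (hc : 1 < c) {Φ : ℕ → ℕ → A} (hΦ : Φ ∈ Qc c A) :
    Dm c M A (fun n => Φ n n) = Dm c M A (fun n => Φ n 0) + Dm c M A (fun n => Φ 0 n) := by
  induction hΦ using AddSubgroup.closure_induction with
  | mem Φ hΦ =>
    obtain ⟨i, l, b, hil, rfl⟩ := hΦ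
    rcases Nat.eq_zero_or_pos i with rfl | hi
    · rcases Nat.eq_zero_or_pos l with rfl | hl
      · simp only [Nat.choose_zero_right, mul_one, one_smul]
        rw [Dm_const hM hc, add_zero]
      · obtain ⟨l, rfl⟩ : ∃ k, l = k + 1 := ⟨l - 1, by omega⟩
        simp only [Nat.choose_zero_right, one_mul, Nat.choose_zero_succ, zero_smul]
        rw [Dm_const hM hc, zero_add]
    · obtain ⟨i, rfl⟩ : ∃ k, i = k + 1 := ⟨i - 1, by omega⟩
      rcases Nat.eq_zero_or_pos l with rfl | hl
      · simp only [Nat.choose_zero_right, mul_one, Nat.choose_zero_succ, zero_smul]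
        rw [Dm_const hM hc, add_zero]
      · obtain ⟨l, rfl⟩ : ∃ k, l = k + 1 := ⟨l - 1, by omega⟩
        rw [Dm_choose hM (by omega) (by omega) hil]
        simp only [Nat.choose_zero_succ, mul_zero, zero_mul, zero_smul]
        rw [Dm_const hM hc, add_zero]
  | zero =>
    change Dm c M A 0 = Dm c M A 0 + Dm c M A 0
    rw [map_zero, add_zero]
  | add Φ Ψ _ _ h h' =>
    change Dm c M A ((fun n => Φ n n) + fun n => Ψ n n) = Dm c M A ((fun n => Φ n 0) + fun n => Ψ n 0) +
      Dm c M A ((fun n => Φ 0 n) + fun n => Ψ 0 n)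
    rw [map_add, map_add, map_add, h, h']
    abel
  | neg Φ _ h =>
    change Dm c M A (-(fun n => Φ n n)) = Dm c M A (-(fun n => Φ n 0)) + Dm c M A (-(fun n => Φ 0 n))
    rw [map_neg, map_neg, map_neg, h]
    abel

end SLC
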