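import Pool.Agent.SLC.Spr1
import Pool.Agent.SLC.Cof1
import Pool.Agent.SLC.Dim

/-!
Maps on a subgroup which vanish on the cubes of dimension N with values in this subgroup: differences, expansion along
commuting elements, additivity of the homogeneous maps on commuting pairs.
-/

set_option autoImplicit false

namespace SLC

section

variable {G : Type} [Group G] {F : ℕ → Subgroup G} {A : Type} [AddCommGroup A]

/-- cubes with values in the subgroup K -/
theorem up_mem {F' : ℕ → Subgroup G} {r : ℕ} {S : Finset (Fin r)} {i : Fin r} (hi : i ∉ S) {s : ℕ}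
    {u : (Fin r → Bool) → G} (hu : u ∈ HKS F' S (s + 1)) :
    (fun e => if e i = true then u e else 1) ∈ HKS F' (insert i S) s := by
  induction hu using Subgroup.closure_induction with
  | mem u hu =>
    obtain ⟨w, g, hw, hg, rfl⟩ := hu
    have hiw : i ∉ w := fun h => hi (hw h)
    have e1 : (fun e : Fin r → Bool => if e i = true then gen w g e else 1) = gen (insert i w) g := by
      funext e
      simp only [gen]
      by_cases hei : e i = true
      · rw [if_pos hei]
        refine if_congr ?_ rfl rfl
        simp [hei]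
      · rw [if_neg hei, if_neg]
        intro h
        exact hei (h i (Finset.mem_insert_self i w))
    rw [e1]
    refine gen_mem (Finset.insert_subset_insert i hw) ?_
    rw [Finset.card_insert_of_notMem hiw]
    have e2 : w.card + 1 + s = w.card + (s + 1) := by omega
    rwa [e2]
  | one =>
    have e1 : (fun e : Fin r → Bool => if e i = true then (1 : (Fin r → Bool) → G) e else 1) = 1 := by
      funext e
      simp
    rw [e1]
    exact one_mem _
  | mul x y _ _ hx hy =>
    have e1 : (fun e : Fin r → Bool => if e i = true then (x * y) e else 1) =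
        (fun e => if e i = true then x e else 1) * fun e => if e i = true then y e else 1 := by
      funext e
      rw [Pi.mul_apply, Pi.mul_apply]
      split_ifs <;> simp
    rw [e1]
    exact mul_mem hx hy
  | inv x _ hx =>
    have e1 : (fun e : Fin r → Bool => if e i = true then x⁻¹ e else 1) = (fun e => if e i = true then x e else 1)⁻¹ := by
      funext e
      rw [Pi.inv_apply, Pi.inv_apply]
      split_ifs <;> simp
    rw [e1]
    exact inv_mem hx

theorem HKS_sub (hF : Filt F) {r : ℕ} (S : Finset (Fin r)) : ∀ (s : ℕ) (c : (Fin r → Bool) → G), c ∈ HKS F S s →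
    ∀ K : Subgroup G, (∀ e, c e ∈ K) → c ∈ HKS (fun i => F i ⊓ K) S s := by
  induction S using Finset.induction_on with
  | empty =>
    intro s c hc K hK
    have h0 := empty_const hc
    have e1 : c = gen ∅ (c fun _ => false) := by
      funext e
      rw [gen_pos (by simp)]
      exact h0 _ _
    rw [e1]
    refine gen_mem (Finset.Subset.refl _) ⟨?_, hK _⟩
    have := val_mem hF hc (fun _ => false)
    simpa using this
  | insert i S hi ih =>
    intro s c hc K hK
    have h0 : rho i false c ∈ HKS F S s := by
      have := rho_mem i hc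
      rwa [Finset.erase_insert hi] at this
    have h1 : der i c ∈ HKS F S (s + 1) := by
      have := der_mem hF i hc
      rwa [Finset.erase_insert hi] at this
    have a0 := ih s _ h0 K (fun e => hK _)
    have a1 := up_mem hi (ih (s + 1) _ h1 K (fun e => mul_mem (inv_mem (hK _)) (hK _)))
    have a2 : HKS (fun i => F i ⊓ K) S s ≤ HKS (fun i => F i ⊓ K) (insert i S) s := by
      refine Subgroup.closure_mono ?_
      rintro c ⟨w, g, hw, hg, rfl⟩
      exact ⟨w, g, hw.trans (Finset.subset_insert i S), hg, rfl⟩
    have e1 : c = rho i false c * fun e => if e i = true then der i c e else 1 := by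
      funext e
      rw [Pi.mul_apply]
      by_cases hei : e i = true
      · rw [if_pos hei, der, Pi.mul_apply, Pi.inv_apply, rho_apply, rho_apply, mul_inv_cancel_left]
        congr 1
        rw [← hei, Function.update_eq_self]
      · have hei' : e i = false := by simpa using hei
        rw [if_neg hei, mul_one, rho_apply]
        congr 1
        rw [← hei', Function.update_eq_self]
    rw [e1]
    exact mul_mem (a2 a0) a1

/-- f vanishes on the cubes of dimension N with values in K -/
def PK (F : ℕ → Subgroup G) (K : Subgroup G) (N : ℕ) (f : G → A) : Prop :=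
  ∀ c ∈ HK N F, (∀ e, c e ∈ K) → asum (fun e => f (c e)) = 0

theorem PK.succ (hF : Filt F) {K : Subgroup G} {N : ℕ} {f : G → A} (h : PK F K N f) : PK F K (N + 1) f := by
  intro c hc hK
  rw [asum_succ, h _ (HK_face hF hc false) fun e => hK _, h _ (HK_face hF hc true) fun e => hK _, sub_zero]

theorem PK.mono (hF : Filt F) {K : Subgroup G} {N N' : ℕ} (hN : N ≤ N') {f : G → A} (h : PK F K N f) :
    PK F K N' f := by
  induction N', hN using Nat.le_induction with
  | base => exact h
  | succ n _ ih => exact ih.succ hF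

/-- the first i coordinates -/
def wt (M : ℕ) : (i : ℕ) → Finset (Fin (M + i))
  | 0 => ∅
  | i + 1 => insert 0 ((wt M i).map (Fin.succEmb (M + i)))

theorem wt_card (M i : ℕ) : (wt M i).card = i := by
  induction i with
  | zero => rfl
  | succ i ih =>
    rw [wt, Finset.card_insert_of_notMem, Finset.card_map, ih]
    intro h
    obtain ⟨j, _, hj⟩ := Finset.mem_map.1 h
    exact Fin.succ_ne_zero j hj

/-- the degenerate cube -/
def dg {M : ℕ} (c : (Fin M → Bool) → G) : (i : ℕ) → (Fin (M + i) → Bool) → G
  | 0 => c
  | i + 1 => fun e => dg c i (Fin.tail e)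

theorem dg_mem {M : ℕ} {c : (Fin M → Bool) → G} (hc : c ∈ HK M F) (i : ℕ) : dg c i ∈ HK (M + i) F := by
  induction i with
  | zero => exact hc
  | succ i ih => exact HK_tail ih

theorem dg_val {M : ℕ} {c : (Fin M → Bool) → G} {K : Subgroup G} (hc : ∀ e, c e ∈ K) (i : ℕ) : ∀ e, dg c i e ∈ K := by
  induction i with
  | zero => exact hc
  | succ i ih => exact fun e => ih _

theorem gen_wt_true (M i : ℕ) (a : G) (e : Fin (M + i) → Bool) :
    gen (wt M (i + 1)) a (Fin.cons true e : Fin (M + i + 1) → Bool) = gen (wt M i) a e := by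
  simp only [gen]
  refine if_congr ?_ rfl rfl
  constructor
  · intro h j hj
    have := h j.succ (Finset.mem_insert_of_mem (Finset.mem_map_of_mem (Fin.succEmb (M + i)) hj))
    rwa [Fin.cons_succ] at this
  · intro h j hj
    rcases Finset.mem_insert.1 hj with rfl | hj
    · exact Fin.cons_zero _ _
    · obtain ⟨k, hk, rfl⟩ := Finset.mem_map.1 hj
      change (Fin.cons true e : Fin (M + i + 1) → Bool) k.succ = true
      rw [Fin.cons_succ]
      exact h k hk

theorem gen_wt_false (M i : ℕ) (a : G) (e : Fin (M + i) → Bool) :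
    gen (wt M (i + 1)) a (Fin.cons false e : Fin (M + i + 1) → Bool) = 1 := by
  refine gen_neg fun h => ?_
  have := h 0 (Finset.mem_insert_self _ _)
  rw [Fin.cons_zero] at this
  exact Bool.noConfusion this

theorem asum_dg {M : ℕ} (c : (Fin M → Bool) → G) (f : G → A) (i : ℕ) : asum (fun e => f (dg c (i + 1) e)) = 0 := by
  rw [asum_succ]
  exact sub_self _

theorem asum_dg_gen {M : ℕ} (c : (Fin M → Bool) → G) (f : G → A) (a : G) (i : ℕ) :
    asum (fun e => f (dg c (i + 1) e * gen (wt M (i + 1)) a e)) = 0 →
      asum (fun e => f (c e * a) - f (c e)) = 0 := by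
  induction i with
  | zero =>
    intro h
    rw [asum_succ] at h
    have e1 : (fun e : Fin (M + 0) → Bool => f (dg c (0 + 1) (Fin.cons false e) * gen (wt M (0 + 1)) a (Fin.cons false e))) =
        fun e => f (c e) := by
      funext e
      rw [gen_wt_false, mul_one]
      rfl
    have e2 : (fun e : Fin (M + 0) → Bool => f (dg c (0 + 1) (Fin.cons true e) * gen (wt M (0 + 1)) a (Fin.cons true e))) =
        fun e => f (c e * a) := by
      funext e
      rw [gen_wt_true, gen_pos (by simp [wt])]
      rfl
    have h' : asum (fun e => f (c e)) - asum (fun e => f (c e * a)) = 0 :=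
      (congrArg₂ (fun x y : (Fin (M + 0) → Bool) → A => asum x - asum y) e1 e2).symm.trans h
    have e3 : asum (fun e => f (c e * a) - f (c e)) = asum (fun e => f (c e * a)) - asum (fun e => f (c e)) := by
      unfold asum
      rw [← Finset.sum_sub_distrib]
      exact Finset.sum_congr rfl fun e _ => smul_sub _ _ _
    rw [e3, ← neg_sub, neg_eq_zero]
    exact h'
  | succ i ih =>
    intro h
    refine ih ?_
    rw [asum_succ] at h
    have e1 : (fun e : Fin (M + (i + 1)) → Bool =>
        f (dg c (i + 1 + 1) (Fin.cons false e) * gen (wt M (i + 1 + 1)) a (Fin.cons false e))) =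
        fun e => f (dg c (i + 1) e) := by
      funext e
      rw [gen_wt_false, mul_one]
      rfl
    have e2 : (fun e : Fin (M + (i + 1)) → Bool =>
        f (dg c (i + 1 + 1) (Fin.cons true e) * gen (wt M (i + 1 + 1)) a (Fin.cons true e))) =
        fun e => f (dg c (i + 1) e * gen (wt M (i + 1)) a e) := by
      funext e
      rw [gen_wt_true]
      rfl
    have h' : asum (fun e => f (dg c (i + 1) e)) - asum (fun e => f (dg c (i + 1) e * gen (wt M (i + 1)) a e)) = 0 :=
      (congrArg₂ (fun x y : (Fin (M + (i + 1)) → Bool) → A => asum x - asum y) e1 e2).symm.trans h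
    rw [asum_dg, zero_sub, neg_eq_zero] at h'
    exact h'

/-- the difference in the direction of an element of the term i lowers the degree by i -/
theorem PK.diff {K : Subgroup G} {M i : ℕ} {f : G → A} (h : PK F K (M + i) f) (hi : 1 ≤ i) {a : G} (ha : a ∈ K)
    (ha' : a ∈ F i) : PK F K M (fun g => f (g * a) - f g) := by
  intro c hc hK
  obtain ⟨i, rfl⟩ : ∃ k, i = k + 1 := ⟨i - 1, by omega⟩
  refine asum_dg_gen c f a i ?_
  refine h (dg c (i + 1) * gen (wt M (i + 1)) a) (mul_mem (dg_mem hc _) (gmem (by rw [wt_card]; exact ha'))) fun e => ?_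
  rw [Pi.mul_apply]
  refine mul_mem (dg_val hK _ e) ?_
  unfold gen
  split_ifs
  · exact ha
  · exact one_mem _

/-- expansion along two commuting elements -/
theorem PK.expand (hF : Filt F) {K : Subgroup G} {j : ℕ} (hj : 1 ≤ j) {u v : G} (hu : u ∈ K) (hu' : u ∈ F j)
    (hv : v ∈ K) (hv' : v ∈ F j) (huv : Commute u v) : ∀ (c : ℕ) (f : G → A), PK F K (c * j) f →
      (fun n m => f (u ^ n * v ^ m)) ∈ Qc c A := by
  intro c
  induction c with
  | zero =>
    intro f hf
    have e : (fun n m : ℕ => f (u ^ n * v ^ m)) = 0 := by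
      funext n m
      have h1 := hf (fun _ => u ^ n * v ^ m) (by
        have := const_mem hF (0 * j) (u ^ n * v ^ m)
        exact this) fun _ => mul_mem (pow_mem hu n) (pow_mem hv m)
      have h2 : ∀ N, N = 0 → asum (fun _ : Fin N → Bool => f (u ^ n * v ^ m)) = f (u ^ n * v ^ m) := by
        rintro _ rfl
        exact asum_zero_dim _
      rw [h2 (0 * j) (by omega)] at h1
      exact h1
    rw [e]
    exact zero_mem _
  | succ c ih =>
    intro f hf
    rw [Nat.succ_mul] at hf
    have h1 := ih _ (hf.diff hj hu hu')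
    have h2 := ih _ (hf.diff hj hv hv')
    refine Qc_of_diff h1 h2 (fun n m => ?_) fun m => ?_
    · have e : u ^ n * v ^ m * u = u ^ (n + 1) * v ^ m := by
        rw [mul_assoc, (huv.symm.pow_left m).eq, ← mul_assoc, ← pow_succ]
      rw [e]
      abel
    · have e : u ^ 0 * v ^ m * v = u ^ 0 * v ^ (m + 1) := by rw [mul_assoc, ← pow_succ]
      rw [e]
      abel

/-- homogeneous of degree one on K -/
def Hom1 (K : Subgroup G) (f : G → A) : Prop := ∀ x ∈ K, ∀ n : ℕ, f (x ^ n) = n • f x

theorem Hom1.one {K : Subgroup G} {f : G → A} (h : Hom1 K f) : f 1 = 0 := by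
  have := h 1 (one_mem K) 0
  rwa [pow_zero, zero_smul] at this

/-- homogeneous maps are additive on commuting pairs -/
theorem Hom1.add (hF : Filt F) {c : ℕ} (hA : Bij c A) (hc : 1 < c) {K : Subgroup G} {j d : ℕ} (hj : 1 ≤ j)
    (hd : d ≤ c * j) {f : G → A} (hf : PK F K d f) (h : Hom1 K f) {u v : G} (hu : u ∈ K) (hu' : u ∈ F j)
    (hv : v ∈ K) (hv' : v ∈ F j) (huv : Commute u v) : f (u * v) = f u + f v := by
  obtain ⟨_, _, _, h4⟩ := Dc_diag hA hc (PK.expand hF hj hu hu' hv hv' huv c f (hf.mono hF hd))
  have e1 : (fun n : ℕ => f (u ^ n * v ^ n)) = fun n => n • f (u * v) := by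
    funext n
    rw [← huv.mul_pow, h _ (mul_mem hu hv)]
  have e2 : (fun n : ℕ => f (u ^ n * v ^ 0)) = fun n => n • f u := by
    funext n
    rw [pow_zero, mul_one, h _ hu]
  have e3 : (fun n : ℕ => f (u ^ 0 * v ^ n)) = fun n => n • f v := by
    funext n
    rw [pow_zero, one_mul, h _ hv]
  rw [e1, e2, e3, (Dc_lin hA hc _).2, (Dc_lin hA hc _).2, (Dc_lin hA hc _).2] at h4
  exact h4

/-- the values on powers are polynomial -/
theorem PK.pow_mem (hF : Filt F) {c : ℕ} (hA : Bij c A) (hc : 1 < c) {K : Subgroup G} {j d : ℕ} (hj : 1 ≤ j)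
    (hd : d ≤ c * j) {f : G → A} (hf : PK F K d f) {u : G} (hu : u ∈ K) (hu' : u ∈ F j) :
    (fun n : ℕ => f (u ^ n)) ∈ Rc c A := by
  obtain ⟨_, h2, _, _⟩ := Dc_diag hA hc (PK.expand hF hj hu hu' (one_mem K) (one_mem (F j)) (Commute.one_right u) c f
    (hf.mono hF hd))
  have e2 : (fun n : ℕ => f (u ^ n * 1 ^ 0)) = fun n => f (u ^ n) := by
    funext n
    rw [pow_zero, mul_one]
  rwa [e2] at h2

end

end SLC
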