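import Pool.Agent.SLC.Sj1
import Pool.Agent.SLC.Spr2
import Mathlib.Algebra.Category.Grp.Injective

/-!
Extension of maps which are additive on commuting pairs from the term 2 i of a filtered group to the term i.
-/

set_option autoImplicit false

open scoped commutatorElement

namespace SLC

variable {G : Type} [Group G] {F : ℕ → Subgroup G} {A : Type} [AddCommGroup A]

/-- additive on commuting pairs -/
def LA (K : Subgroup G) (f : G → A) : Prop := ∀ x ∈ K, ∀ y ∈ K, Commute x y → f (x * y) = f x + f y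

theorem LA.one {K : Subgroup G} {f : G → A} (h : LA K f) : f 1 = 0 := by
  have := h 1 (one_mem K) 1 (one_mem K) (Commute.refl 1)
  rw [mul_one] at this
  exact left_eq_add.1 this

theorem LA.pow {K : Subgroup G} {f : G → A} (h : LA K f) {x : G} (hx : x ∈ K) (n : ℕ) : f (x ^ n) = n • f x := by
  induction n with
  | zero => rw [pow_zero, zero_smul, h.one]
  | succ n ih => rw [pow_succ, h _ (pow_mem hx n) _ hx (Commute.pow_left (Commute.refl x) n), ih, succ_nsmul]

/-- generators of the term i modulo the term 2 i, adapted to the filtration -/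
theorem exists_gens (hF : Filt F) {i d : ℕ} (hi : 1 ≤ i) (hid : i + i ≤ d) (hfg : ∀ k, 1 ≤ k → k < d →
    ∃ S : Finset G, (∀ s ∈ S, s ∈ F k) ∧ F k ≤ Subgroup.closure (S : Set G) ⊔ F (k + 1)) {B : Type} [AddCommGroup B]
    {n : G → B} (hn : AddOn (F i) n) (hker : ∀ y ∈ F i, n y = 0 ↔ y ∈ F (i + i)) : ∀ t, t ≤ i →
    ∃ (ι : Type) (_ : Fintype ι) (w : ι → ℕ) (g : ι → G),
      (∀ l, i + i - t ≤ w l ∧ w l < i + i ∧ g l ∈ F (w l)) ∧ ∀ s, i + i - t ≤ s → s ≤ i + i → ∀ h ∈ F s,
        ∃ v : ι → ℤ, (∀ l, w l < s → v l = 0) ∧ n h = ∑ l, v l • n (g l) := by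
  classical
  intro t
  induction t with
  | zero =>
    intro _
    refine ⟨Empty, inferInstance, fun _ => 0, fun _ => 1, fun l => l.elim, fun s hs hs' h hh => ⟨fun _ => 0, fun l => l.elim, ?_⟩⟩
    have e : s = i + i := by omega
    subst e
    rw [(hker h (hF.antitone (by omega : i ≤ i + i) hh)).2 hh]
    simp
  | succ t ih =>
    intro hti
    obtain ⟨ι, iι, w, g, h1, h2⟩ := ih (by omega)
    set s₀ := i + i - (t + 1) with hs₀
    have es : s₀ + 1 = i + i - t := by omega
    obtain ⟨S, hS, hSF⟩ := hfg s₀ (by omega) (by omega)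
    refine ⟨ι ⊕ S, inferInstance, Sum.elim w fun _ => s₀, Sum.elim g fun x => x.1, ?_, ?_⟩
    · rintro (l | l)
      · obtain ⟨a1, a2, a3⟩ := h1 l
        exact ⟨by simp only [Sum.elim_inl]; omega, a2, a3⟩
      · exact ⟨le_rfl, by simp only [Sum.elim_inr]; omega, hS _ l.2⟩
    · intro s hs hs' h hh
      rcases Nat.eq_or_lt_of_le hs with he | hlt
      · subst he
        let P : Subgroup G :=
          { carrier := {h | h ∈ F s₀ ∧ ∃ v : ι ⊕ S → ℤ, n h = ∑ l, v l • n ((Sum.elim g fun x => x.1 : ι ⊕ S → G) l)}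
            mul_mem' := by
              rintro a b ⟨ha, v, hv⟩ ⟨hb, v', hv'⟩
              refine ⟨mul_mem ha hb, v + v', ?_⟩
              rw [hn a (hF.antitone (by omega : i ≤ s₀) ha) b (hF.antitone (by omega : i ≤ s₀) hb), hv, hv',
                ← Finset.sum_add_distrib]
              exact Finset.sum_congr rfl fun l _ => by rw [Pi.add_apply, add_smul]
            one_mem' := ⟨one_mem _, 0, by rw [hn.one]; simp⟩
            inv_mem' := by
              rintro a ⟨ha, v, hv⟩
              refine ⟨inv_mem ha, -v, ?_⟩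
              rw [hn.inv (hF.antitone (by omega : i ≤ s₀) ha), hv, ← Finset.sum_neg_distrib]
              exact Finset.sum_congr rfl fun l _ => by rw [Pi.neg_apply, neg_smul] }
        have hP : F s₀ ≤ P := by
          refine hSF.trans (sup_le ((Subgroup.closure_le _).2 ?_) ?_)
          · intro x hx
            refine ⟨hS x hx, Sum.elim 0 (fun y => if y = ⟨x, hx⟩ then 1 else 0), ?_⟩
            rw [Fintype.sum_sum_type]
            simp
          · intro x hx
            obtain ⟨v, _, hv⟩ := h2 (s₀ + 1) (by omega) (by omega) x hx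
            refine ⟨hF.anti s₀ hx, Sum.elim v 0, ?_⟩
            rw [Fintype.sum_sum_type, hv]
            simp
        obtain ⟨_, v, hv⟩ := hP hh
        refine ⟨v, ?_, hv⟩
        rintro (l | l) hl
        · have := (h1 l).1
          simp only [Sum.elim_inl] at hl
          omega
        · simp only [Sum.elim_inr] at hl
          omega
      · obtain ⟨v, hv0, hv⟩ := h2 s (by omega) hs' h hh
        refine ⟨Sum.elim v 0, ?_, ?_⟩
        · rintro (l | l) hl
          · exact hv0 l hl
          · rfl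
        · rw [Fintype.sum_sum_type, hv]
          simp

section cover

variable {ι : Type} [Fintype ι] (w : ι → ℕ) (g : ι → G)

/-- the filtration of G × ℤ^ι with the weights w -/
def Fw (F : ℕ → Subgroup G) (s : ℕ) : Subgroup (G × Multiplicative (ι → ℤ)) where
  carrier := {x | x.1 ∈ F s ∧ ∀ l, w l < s → Multiplicative.toAdd x.2 l = 0}
  mul_mem' := by
    rintro x y ⟨hx, hx'⟩ ⟨hy, hy'⟩
    refine ⟨mul_mem hx hy, fun l hl => ?_⟩
    change Multiplicative.toAdd x.2 l + Multiplicative.toAdd y.2 l = 0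
    rw [hx' l hl, hy' l hl, add_zero]
  one_mem' := ⟨one_mem _, fun _ _ => rfl⟩
  inv_mem' := by
    rintro x ⟨hx, hx'⟩
    refine ⟨inv_mem hx, fun l hl => ?_⟩
    change -Multiplicative.toAdd x.2 l = 0
    rw [hx' l hl, neg_zero]

theorem Fw_filt (hF : Filt F) (hw : ∀ l, 1 ≤ w l) : Filt (Fw w F) where
  top := by
    rw [eq_top_iff]
    intro x _
    refine ⟨by rw [hF.top]; trivial, fun l hl => ?_⟩
    have := hw l
    omega
  zero := by
    rw [eq_top_iff]
    intro x _
    exact ⟨by rw [hF.zero]; trivial, fun l hl => absurd hl (by omega)⟩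
  anti i := by
    rintro x ⟨hx, hx'⟩
    exact ⟨hF.anti i hx, fun l hl => hx' l (by omega)⟩
  comm i k := by
    rw [Subgroup.commutator_le]
    rintro x ⟨hx, _⟩ y ⟨hy, _⟩
    refine ⟨hF.comm i k (Subgroup.commutator_mem_commutator hx hy), fun l _ => ?_⟩
    have e : (⁅x, y⁆).2 = 1 := by
      rw [commutatorElement_def]
      change x.2 * y.2 * x.2⁻¹ * y.2⁻¹ = 1
      rw [mul_comm x.2 y.2, mul_assoc (y.2 * x.2), ← mul_inv_rev, mul_inv_cancel]
    rw [e]
    rfl

/-- ordered product of powers of the generators -/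
noncomputable def pg (v : ι → ℤ) : G := ((Finset.univ.toList : List ι).map fun l => g l ^ v l).prod

/-- the retraction -/
noncomputable def rw' (x : G × Multiplicative (ι → ℤ)) : G := x.1 * (pg g (Multiplicative.toAdd x.2))⁻¹

theorem rw_cube (hF : Filt F) (hg : ∀ l, g l ∈ F (w l)) {N : ℕ} {c : (Fin N → Bool) → G × Multiplicative (ι → ℤ)}
    (hc : c ∈ HK N (Fw w F)) : (fun e => rw' g (c e)) ∈ HK N F := by
  have h1 := HK_map (MonoidHom.fst G (Multiplicative (ι → ℤ))) (F := Fw w F) (F' := F) (fun i x hx => hx.1) hc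
  have h2 : ∀ l, (fun e => g l ^ (Multiplicative.toAdd (c e).2 l)) ∈ HK N F := by
    intro l
    refine HK_map (MonoidHom.mk' (fun x : G × Multiplicative (ι → ℤ) => g l ^ (Multiplicative.toAdd x.2 l)) ?_)
      (F := Fw w F) (F' := F) ?_ hc
    · intro x y
      exact zpow_add (g l) _ _
    · intro i x hx
      change g l ^ (Multiplicative.toAdd x.2 l) ∈ F i
      by_cases h : w l < i
      · rw [hx.2 l h, zpow_zero]
        exact one_mem _
      · exact zpow_mem (hF.antitone (by omega) (hg l)) _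
  have h3 : (fun e => pg g (Multiplicative.toAdd (c e).2)) ∈ HK N F := by
    have e1 : (fun e => pg g (Multiplicative.toAdd (c e).2)) = ((Finset.univ.toList : List ι).map fun l =>
        (fun e => g l ^ (Multiplicative.toAdd (c e).2 l) : (Fin N → Bool) → G)).prod := by
      funext e
      rw [Pi.list_prod_apply, pg, List.map_map]
      rfl
    rw [e1]
    refine Subgroup.list_prod_mem _ fun u hu => ?_
    obtain ⟨l, _, rfl⟩ := List.mem_map.1 hu
    exact h2 l
  exact mul_mem h1 (inv_mem h3)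

variable {B : Type} [AddCommGroup B]

/-- pairs (h, v) with n(h) = Σ v_l n(g_l) -/
def Hw {i : ℕ} {n : G → B} (hn : AddOn (F i) n) : Subgroup (G × Multiplicative (ι → ℤ)) where
  carrier := {x | x.1 ∈ F i ∧ n x.1 = ∑ l, Multiplicative.toAdd x.2 l • n (g l)}
  mul_mem' := by
    rintro x y ⟨hx, hx'⟩ ⟨hy, hy'⟩
    refine ⟨mul_mem hx hy, ?_⟩
    change n (x.1 * y.1) = ∑ l, (Multiplicative.toAdd x.2 l + Multiplicative.toAdd y.2 l) • n (g l)
    rw [hn _ hx _ hy, hx', hy', ← Finset.sum_add_distrib]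
    exact Finset.sum_congr rfl fun l _ => by rw [add_smul]
  one_mem' := by
    refine ⟨one_mem _, ?_⟩
    change n 1 = ∑ l, (0 : ℤ) • n (g l)
    rw [hn.one]
    simp
  inv_mem' := by
    rintro x ⟨hx, hx'⟩
    refine ⟨inv_mem hx, ?_⟩
    change n (x.1⁻¹) = ∑ l, (-Multiplicative.toAdd x.2 l) • n (g l)
    rw [hn.inv hx, hx', ← Finset.sum_neg_distrib]
    exact Finset.sum_congr rfl fun l _ => by rw [neg_smul]

theorem pg_mem {i : ℕ} (hF : Filt F) (hg : ∀ l, g l ∈ F (w l)) (hw : ∀ l, i ≤ w l) (v : ι → ℤ) : pg g v ∈ F i := by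
  refine Subgroup.list_prod_mem _ fun u hu => ?_
  obtain ⟨l, _, rfl⟩ := List.mem_map.1 hu
  exact zpow_mem (hF.antitone (hw l) (hg l)) _

theorem n_pg {i : ℕ} (hF : Filt F) (hg : ∀ l, g l ∈ F (w l)) (hw : ∀ l, i ≤ w l) {n : G → B} (hn : AddOn (F i) n)
    (v : ι → ℤ) : n (pg g v) = ∑ l, v l • n (g l) := by
  rw [pg, hn.list _ fun y hy => ?_, List.map_map]
  · have e : (n ∘ fun l => g l ^ v l) = fun l => v l • n (g l) := by
      funext l
      rw [Function.comp_apply, hn.zpow (hF.antitone (hw l) (hg l))]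
    rw [e, Finset.sum_map_toList]
  · obtain ⟨l, _, rfl⟩ := List.mem_map.1 hy
    exact zpow_mem (hF.antitone (hw l) (hg l)) _

end cover

/-- from the term 2 i to the term i -/
theorem dbl_step (hF : Filt F) {i d c M : ℕ} (hi : 1 ≤ i) (hid : i + i ≤ d) (hc : d ≤ c * i) (hM : Dv c M)
    (hB : Module.Baer ℤ A) (hfg : ∀ k, 1 ≤ k → k < d →
      ∃ S : Finset G, (∀ s ∈ S, s ∈ F k) ∧ F k ≤ Subgroup.closure (S : Set G) ⊔ F (k + 1)) {f : G → A}
    (hf : PK F (F (i + i)) d f) (hl : LA (F (i + i)) f) :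
    ∃ f' : G → A, PK F (F i) d f' ∧ LA (F i) f' ∧ ∀ x ∈ F (i + i), f' x = M • f x := by
  classical
  have hc1 : 1 < c := by
    by_contra h
    have : c * i ≤ 1 * i := Nat.mul_le_mul_right i (by omega)
    omega
  obtain ⟨B, iB, n, hn, hker, _⟩ := exists_quot (F i) (F (i + i)) (hF.comm i i)
  obtain ⟨ι, iι, w, g, hwg, hgen⟩ := exists_gens hF hi hid hfg hn hker i le_rfl
  have hwi : ∀ l, i ≤ w l := fun l => by
    have := (hwg l).1
    omega
  have hw1 : ∀ l, 1 ≤ w l := fun l => hi.trans (hwi l)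
  have hg : ∀ l, g l ∈ F (w l) := fun l => (hwg l).2.2
  have hFw := Fw_filt w hF hw1
  set H := Hw g hn with hH
  have hHF : ∀ x ∈ H, x ∈ Fw w F i := by
    rintro x ⟨hx, _⟩
    refine ⟨hx, fun l hl => ?_⟩
    have := hwi l
    omega
  have hrt : ∀ x ∈ H, rw' g x ∈ F (i + i) := by
    rintro x ⟨hx, hx'⟩
    have h1 := pg_mem w g hF hg hwi (Multiplicative.toAdd x.2)
    have h2 : rw' g x ∈ F i := mul_mem hx (inv_mem h1)
    rw [← hker _ h2, rw', hn _ hx _ (inv_mem h1), hn.inv h1, n_pg w g hF hg hwi hn, hx', add_neg_cancel]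
  have hr : PK (Fw w F) H d (fun x => f (rw' g x)) := by
    intro c hc hcH
    exact hf _ (rw_cube w g hF hg hc) fun e => hrt _ (hcH e)
  -- the first extension
  let f1 : G × Multiplicative (ι → ℤ) → A := fun x => Dm c M A (fun k => f (rw' g (x ^ k)))
  have hf1 : PK (Fw w F) H d f1 := by
    intro q hq hqH
    have h3 : (∑ e : Fin d → Bool, sg e • fun k : ℕ => f (rw' g (q e ^ k))) = 0 := by
      funext k
      rw [Finset.sum_apply, Pi.zero_apply]
      exact hr (q ^ k) (pow_mem hq k) fun e => pow_mem (hqH e) k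
    have h4 := congrArg (Dm c M A) h3
    rw [map_sum, map_zero] at h4
    simp only [map_zsmul] at h4
    exact h4
  have hl1 : LA H f1 := by
    intro x hx y hy hxy
    have h1 := PK.expand hFw hi hx (hHF x hx) hy (hHF y hy) hxy c _ (hr.mono hFw hc)
    have h2 := Dm_diag hM hc1 h1
    have e1 : (fun k : ℕ => f (rw' g (x ^ k * y ^ k))) = fun k => f (rw' g ((x * y) ^ k)) := by
      funext k
      rw [hxy.mul_pow]
    have e2 : (fun k : ℕ => f (rw' g (x ^ k * y ^ 0))) = fun k => f (rw' g (x ^ k)) := by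
      funext k
      rw [pow_zero, mul_one]
    have e3 : (fun k : ℕ => f (rw' g (x ^ 0 * y ^ k))) = fun k => f (rw' g (y ^ k)) := by
      funext k
      rw [pow_zero, one_mul]
    rw [e1, e2, e3] at h2
    exact h2
  have hpg0 : pg g (0 : ι → ℤ) = 1 := by
    rw [pg]
    refine List.prod_eq_one fun u hu => ?_
    obtain ⟨l, _, rfl⟩ := List.mem_map.1 hu
    exact zpow_zero _
  have hK1 : ∀ x ∈ F (i + i), f1 (x, 1) = M • f x := by
    intro x hx
    have e : (fun k : ℕ => f (rw' g ((x, (1 : Multiplicative (ι → ℤ))) ^ k))) = fun k => k • f x := by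
      funext k
      rw [← hl.pow hx k, rw']
      congr 1
      rw [Prod.pow_fst, Prod.pow_snd, one_pow, toAdd_one, hpg0, inv_one, mul_one]
    change Dm c M A _ = _
    rw [e, Dm_lin hM hc1]
  -- the kernel
  let L : AddSubgroup (ι → ℤ) :=
    { carrier := {v | ∑ l, v l • n (g l) = 0}
      add_mem' := by
        intro a b (ha : ∑ l, a l • n (g l) = 0) (hb : ∑ l, b l • n (g l) = 0)
        change ∑ l, (a l + b l) • n (g l) = 0
        simp only [add_smul]
        rw [Finset.sum_add_distrib, ha, hb, add_zero]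
      zero_mem' := by
        change ∑ l, (0 : ℤ) • n (g l) = 0
        simp
      neg_mem' := by
        intro a (ha : ∑ l, a l • n (g l) = 0)
        change ∑ l, (-a l) • n (g l) = 0
        simp only [neg_smul]
        rw [Finset.sum_neg_distrib, ha, neg_zero] }
  have hone : ∀ v ∈ L, ((1 : G), Multiplicative.ofAdd v) ∈ H := by
    intro v hv
    refine ⟨one_mem _, ?_⟩
    change n 1 = ∑ l, v l • n (g l)
    rw [hn.one]
    exact (show ∑ l, v l • n (g l) = 0 from hv).symm
  let φ : L →+ A := AddMonoidHom.mk' (fun v => f1 (1, Multiplicative.ofAdd (v : ι → ℤ))) (by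
    intro v v'
    have h1 := hl1 _ (hone v.1 v.2) _ (hone v'.1 v'.2) (by
      refine Prod.ext rfl ?_
      change Multiplicative.ofAdd v.1 * Multiplicative.ofAdd v'.1 = Multiplicative.ofAdd v'.1 * Multiplicative.ofAdd v.1
      rw [mul_comm])
    rw [← h1]
    congr 1
    exact Prod.ext (one_mul 1).symm rfl)
  obtain ⟨β, hβ⟩ := hB.extension_property_addMonoidHom L.subtype Subtype.val_injective φ
  have hβL : ∀ v ∈ L, β v = f1 (1, Multiplicative.ofAdd v) := fun v hv => DFunLike.congr_fun hβ (⟨v, hv⟩ : L)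
  let f2 : G × Multiplicative (ι → ℤ) → A := fun x => f1 x - β (Multiplicative.toAdd x.2)
  have hf2 : PK (Fw w F) H d f2 := by
    intro q hq hqH
    have e : asum (fun e => f2 (q e)) = asum (fun e => f1 (q e)) - asum (fun e => β (Multiplicative.toAdd (q e).2)) := by
      unfold asum
      rw [← Finset.sum_sub_distrib]
      exact Finset.sum_congr rfl fun e _ => smul_sub _ _ _
    have h2 : asum (fun e => β (Multiplicative.toAdd (q e).2)) = 0 := by
      refine asum_zero hFw hq (K := ⊤) (n := fun x => β (Multiplicative.toAdd x.2)) (fun e => trivial) ?_ ?_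
      · intro x _ y _
        change β (Multiplicative.toAdd x.2 + Multiplicative.toAdd y.2) = _
        rw [map_add]
      · rintro y _ ⟨_, hy⟩
        have e2 : Multiplicative.toAdd y.2 = 0 := by
          funext l
          refine hy l ?_
          have := (hwg l).2.1
          omega
        change β (Multiplicative.toAdd y.2) = 0
        rw [e2, map_zero]
    rw [e, hf1 q hq hqH, h2, sub_zero]
  have hl2 : LA H f2 := by
    intro x hx y hy hxy
    change f1 (x * y) - β (Multiplicative.toAdd x.2 + Multiplicative.toAdd y.2) = _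
    rw [hl1 x hx y hy hxy, map_add]
    change _ = (f1 x - β (Multiplicative.toAdd x.2)) + (f1 y - β (Multiplicative.toAdd y.2))
    abel
  have hz : ∀ v ∈ L, f2 (1, Multiplicative.ofAdd v) = 0 := by
    intro v hv
    change f1 (1, Multiplicative.ofAdd v) - β v = 0
    rw [hβL v hv, sub_self]
  have hwd : ∀ (h : G) (v v' : ι → ℤ), (h, Multiplicative.ofAdd v) ∈ H → (h, Multiplicative.ofAdd v') ∈ H →
      f2 (h, Multiplicative.ofAdd v) = f2 (h, Multiplicative.ofAdd v') := by
    intro h v v' hv hv'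
    have h1 : v' - v ∈ L := by
      have a1 : n h = ∑ l, v l • n (g l) := hv.2
      have a2 : n h = ∑ l, v' l • n (g l) := hv'.2
      change ∑ l, (v' l - v l) • n (g l) = 0
      simp only [sub_smul]
      rw [Finset.sum_sub_distrib, ← a1, ← a2, sub_self]
    have h2 := hl2 _ hv _ (hone _ h1) (by
      refine Prod.ext ?_ ?_
      · change h * 1 = 1 * h
        rw [mul_one, one_mul]
      · change Multiplicative.ofAdd v * Multiplicative.ofAdd (v' - v) = Multiplicative.ofAdd (v' - v) * Multiplicative.ofAdd v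
        rw [mul_comm])
    have e : (h, Multiplicative.ofAdd v) * ((1 : G), Multiplicative.ofAdd (v' - v)) = (h, Multiplicative.ofAdd v') := by
      refine Prod.ext (mul_one h) ?_
      change Multiplicative.ofAdd v * Multiplicative.ofAdd (v' - v) = _
      rw [← ofAdd_add]
      congr 1
      abel
    rw [e, hz _ h1, add_zero] at h2
    exact h2.symm
  -- the extension
  let f' : G → A := fun h => if hv : ∃ v : ι → ℤ, (h, Multiplicative.ofAdd v) ∈ H then
    f2 (h, Multiplicative.ofAdd hv.choose) else 0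
  have hf' : ∀ x ∈ H, f' x.1 = f2 x := by
    intro x hx
    have hn' : ∃ v : ι → ℤ, (x.1, Multiplicative.ofAdd v) ∈ H := ⟨Multiplicative.toAdd x.2, hx⟩
    change (if hv : ∃ v : ι → ℤ, (x.1, Multiplicative.ofAdd v) ∈ H then
      f2 (x.1, Multiplicative.ofAdd hv.choose) else 0) = _
    rw [dif_pos hn']
    exact hwd _ _ (Multiplicative.toAdd x.2) hn'.choose_spec hx
  have hlift : ∀ s, i ≤ s → ∀ h ∈ F s, ∃ x ∈ H, x.1 = h ∧ x ∈ Fw w F s := by
    intro s hs h hh
    have hhi : h ∈ F i := hF.antitone hs hh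
    rcases Nat.lt_or_ge (i + i) s with h1 | h1
    · refine ⟨(h, 1), ⟨hhi, ?_⟩, rfl, hh, fun _ _ => rfl⟩
      change n h = ∑ l, (0 : ℤ) • n (g l)
      rw [(hker h hhi).2 (hF.antitone h1.le hh)]
      simp
    · obtain ⟨v, hv0, hv⟩ := hgen s (by omega) h1 h hh
      exact ⟨(h, Multiplicative.ofAdd v), ⟨hhi, hv⟩, rfl, hh, hv0⟩
  refine ⟨f', ?_, ?_, ?_⟩
  · intro q hq hqK
    have h1 : q ∈ HKS (fun s => F s ⊓ F i) Finset.univ 0 := by
      refine HKS_sub hF _ _ _ ?_ _ hqK
      rw [← HK_eq]
      exact hq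
    have h2 : ∃ t : (Fin d → Bool) → G × Multiplicative (ι → ℤ), t ∈ HK d (Fw w F) ∧ (∀ e, t e ∈ H) ∧
        ∀ e, (t e).1 = q e := by
      clear hq hqK
      induction h1 using Subgroup.closure_induction with
      | mem q hq =>
        obtain ⟨u, γ, _, ⟨hγ, hγi⟩, rfl⟩ := hq
        rw [add_zero] at hγ
        have hγm : γ ∈ F (max u.card i) := by
          rcases le_total u.card i with h | h
          · rwa [max_eq_right h]
          · rwa [max_eq_left h]
        obtain ⟨x, hx, rfl, hxs⟩ := hlift _ (le_max_right _ _) γ hγm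
        refine ⟨gen u x, gmem (hFw.antitone (le_max_left _ _) hxs), fun e => ?_, fun e => ?_⟩
        · unfold gen
          split_ifs
          · exact hx
          · exact one_mem _
        · unfold gen
          split_ifs <;> rfl
      | one => exact ⟨1, one_mem _, fun _ => one_mem _, fun _ => rfl⟩
      | mul x y _ _ hx hy =>
        obtain ⟨t, t1, t2, t3⟩ := hx
        obtain ⟨t', t1', t2', t3'⟩ := hy
        refine ⟨t * t', mul_mem t1 t1', fun e => mul_mem (t2 e) (t2' e), fun e => ?_⟩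
        rw [Pi.mul_apply, Pi.mul_apply, Prod.fst_mul, t3, t3']
      | inv x _ hx =>
        obtain ⟨t, t1, t2, t3⟩ := hx
        refine ⟨t⁻¹, inv_mem t1, fun e => inv_mem (t2 e), fun e => ?_⟩
        rw [Pi.inv_apply, Pi.inv_apply, Prod.fst_inv, t3]
    obtain ⟨t, t1, t2, t3⟩ := h2
    have e : (fun e => f' (q e)) = fun e => f2 (t e) := by
      funext e
      rw [← t3 e, hf' _ (t2 e)]
    rw [e]
    exact hf2 t t1 t2
  · intro x hx y hy hxy
    obtain ⟨x', hx', rfl, _⟩ := hlift i le_rfl x hx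
    obtain ⟨y', hy', rfl, _⟩ := hlift i le_rfl y hy
    have h1 := hf' _ (mul_mem hx' hy')
    rw [Prod.fst_mul] at h1
    rw [h1, hf' _ hx', hf' _ hy']
    refine hl2 _ hx' _ hy' (Prod.ext hxy.eq ?_)
    change x'.2 * y'.2 = y'.2 * x'.2
    rw [mul_comm]
  · intro x hx
    have hxH : (x, (1 : Multiplicative (ι → ℤ))) ∈ H := by
      refine ⟨hF.antitone (by omega : i ≤ i + i) hx, ?_⟩
      change n x = ∑ l, (0 : ℤ) • n (g l)
      rw [(hker x (hF.antitone (by omega : i ≤ i + i) hx)).2 hx]
      simp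
    have h1 := hf' _ hxH
    change f' x = f1 (x, 1) - β 0 at h1
    rw [h1, hK1 x hx, map_zero, sub_zero]

end SLC
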