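import Pool.Agent.SLC.Sj2

/-!
An explicit exponent for the elements of a filtered group which are not separated from 1 by the maps of degree < d.
-/

set_option autoImplicit false

namespace SLC

/-- the least common multiple of 1, ..., (d - 1) / i -/
def Mj (d i : ℕ) : ℕ := (Finset.Icc 1 ((d - 1) / i)).lcm id

theorem Mj_dv (d i : ℕ) : Dv ((d - 1) / i + 1) (Mj d i) := by
  intro k hk hk'
  exact Finset.dvd_lcm (f := id) (Finset.mem_Icc.2 ⟨hk, by omega⟩)

theorem le_mul_div {d i : ℕ} (hi : 1 ≤ i) : d ≤ ((d - 1) / i + 1) * i := by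
  have h1 := Nat.div_add_mod (d - 1) i
  have h2 := Nat.mod_lt (d - 1) (by omega : i > 0)
  rw [add_mul, one_mul, mul_comm]
  omega

/-- the factor for t doublings -/
def Pj (j d t : ℕ) : ℕ := ∏ s ∈ Finset.range t, Mj d (j * 2 ^ s)

/-- the exponent -/
def Esj (j d T : ℕ) : ℕ := ∏ s ∈ Finset.range T, Mj d (j * 2 ^ s) ^ (T - s)

theorem prod_Pj (j d T : ℕ) : ∏ t ∈ Finset.range (T + 1), Pj j d t = Esj j d T := by
  induction T with
  | zero => simp [Pj, Esj]
  | succ T ih =>
    rw [Finset.prod_range_succ, ih, Esj, Esj, Pj, Finset.prod_range_succ, Finset.prod_range_succ]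
    rw [← mul_assoc, ← Finset.prod_mul_distrib]
    have e1 : T + 1 - T = 1 := by omega
    rw [e1, pow_one]
    congr 1
    refine Finset.prod_congr rfl fun s hs => ?_
    rw [Finset.mem_range] at hs
    have e2 : T + 1 - s = (T - s) + 1 := by omega
    rw [e2, pow_succ]

variable {G : Type} [Group G] {F : ℕ → Subgroup G} {A : Type} [AddCommGroup A]

theorem dbl_chain (hF : Filt F) {j d : ℕ} (hj : 1 ≤ j) (hB : Module.Baer ℤ A) (hfg : ∀ k, 1 ≤ k → k < d →
    ∃ S : Finset G, (∀ s ∈ S, s ∈ F k) ∧ F k ≤ Subgroup.closure (S : Set G) ⊔ F (k + 1)) : ∀ t, j * 2 ^ t ≤ d →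
    ∀ {f : G → A}, PK F (F (j * 2 ^ t)) d f → LA (F (j * 2 ^ t)) f →
      ∃ f' : G → A, PK F (F j) d f' ∧ LA (F j) f' ∧ ∀ x ∈ F (j * 2 ^ t), f' x = Pj j d t • f x := by
  intro t
  induction t with
  | zero =>
    intro _ f hf hl
    rw [pow_zero, mul_one] at hf hl ⊢
    refine ⟨f, hf, hl, fun x _ => ?_⟩
    rw [Pj, Finset.range_zero, Finset.prod_empty, one_smul]
  | succ t ih =>
    intro htd f hf hl
    have e : j * 2 ^ (t + 1) = j * 2 ^ t + j * 2 ^ t := by
      rw [pow_succ]
      ring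
    have hi : 1 ≤ j * 2 ^ t := Nat.one_le_iff_ne_zero.2 (Nat.mul_ne_zero (by omega) (pow_ne_zero _ two_ne_zero))
    rw [e] at hf hl htd ⊢
    obtain ⟨f₁, a1, a2, a3⟩ := dbl_step hF hi htd (le_mul_div hi) (Mj_dv d _) hB hfg hf hl
    obtain ⟨f₂, b1, b2, b3⟩ := ih (by omega) a1 a2
    refine ⟨f₂, b1, b2, fun x hx => ?_⟩
    rw [b3 x (hF.antitone (by omega) hx), a3 x hx, smul_smul, Pj, Pj, Finset.prod_range_succ]

theorem sjo {j d T : ℕ} (hF : Filt F) (hd1 : 1 ≤ d) (hd : F d = ⊥) (hj : 1 ≤ j) (hT : d ≤ j * 2 ^ (T + 1))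
    (hfg : ∀ k, 1 ≤ k → k < d →
      ∃ S : Finset G, (∀ s ∈ S, s ∈ F k) ∧ F k ≤ Subgroup.closure (S : Set G) ⊔ F (k + 1))
    (htf : ∀ k, 1 ≤ k → k < j → ∀ x ∈ F k, ∀ n : ℕ, 1 ≤ n → x ^ n ∈ F (k + 1) → x ∈ F (k + 1)) {x : G}
    (hx : x ∈ DD F hF d) : x ^ Esj j d T = 1 := by
  -- the relation in the term k
  have hst : ∀ y ∈ DD F hF d, ∀ k, 1 ≤ k → k ≤ j → k ≤ d → y ∈ F k ∧ dl y - dl 1 ∈ JJd d F (F k) := by
    intro y hy k hk
    induction k, hk using Nat.le_induction with
    | base =>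
      intro _ _
      refine ⟨by rw [hF.top]; trivial, ?_⟩
      have h1 := hy ((G →₀ ℤ) ⧸ JJd d F (F 1)) (fun y => Submodule.Quotient.mk (dl y)) (fun c hc => by
        have h2 : asum (fun e => (JJd d F (F 1)).mkQ (dl (c e))) = 0 := by
          rw [← map_asum, Submodule.mkQ_apply, Submodule.Quotient.mk_eq_zero]
          exact Submodule.subset_span ⟨c, hc, fun e => by rw [hF.top]; trivial, rfl⟩
        exact h2)
      exact (Submodule.Quotient.eq _).1 h1
    | succ k hk ih =>
      intro hkj hkd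
      obtain ⟨h1, h2⟩ := ih (by omega) (by omega)
      have h3 : y ∈ F (k + 1) := stage_mem hF ((hF.comm k k).trans (hF.antitone (by omega)))
        (hF.antitone (by omega)) h1 h2
      exact ⟨h3, stage_step hF hk (htf k hk (by omega)) h3 h2⟩
  rcases Nat.lt_or_ge j d with hjd | hdj
  · have hB : Module.Baer ℤ (AddCircle (1 : ℚ)) := Module.Baer.of_divisible _
    have hstep : ∀ t, j * 2 ^ t ≤ d → ∀ y ∈ DD F hF d, y ∈ F (j * 2 ^ t) → y ^ Pj j d t ∈ F (j * 2 ^ (t + 1)) := by
      intro t htd y hy hyt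
      have e : j * 2 ^ (t + 1) = j * 2 ^ t + j * 2 ^ t := by
        rw [pow_succ]
        ring
      rw [e]
      set i := j * 2 ^ t with hi
      obtain ⟨B, iB, n, hn, hker, _⟩ := exists_quot (F i) (F (i + i)) (hF.comm i i)
      rw [← hker _ (pow_mem hyt _)]
      by_contra hne
      obtain ⟨ψ, hψ⟩ := CharacterModule.exists_character_apply_ne_zero_of_ne_zero hne
      have hadd : AddOn (F i) fun y => ψ (n y) := by
        intro a ha b hb
        change ψ (n (a * b)) = ψ (n a) + ψ (n b)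
        rw [hn a ha b hb, map_add]
      have hpk : PK F (F i) d fun y => ψ (n y) := by
        intro c hc hcK
        refine asum_zero hF hc hcK hadd fun z hz hzd => ?_
        rw [hd, Subgroup.mem_bot] at hzd
        change ψ (n z) = 0
        rw [hzd, hn.one, map_zero]
      obtain ⟨f₁, a1, a2, a3⟩ := dbl_chain hF hj hB hfg t htd hpk (fun a ha b hb _ => hadd a ha b hb)
      have h1 : JJd d F (F j) ≤ LinearMap.ker (Finsupp.linearCombination ℤ f₁) := by
        refine Submodule.span_le.2 ?_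
        rintro u ⟨c, hc, hcK, rfl⟩
        rw [SetLike.mem_coe, LinearMap.mem_ker, map_asum]
        simp only [Finsupp.linearCombination_single, one_smul]
        exact a1 c hc hcK
      have h2 := h1 (hst y hy j hj le_rfl hjd.le).2
      rw [LinearMap.mem_ker, map_sub, Finsupp.linearCombination_single, Finsupp.linearCombination_single, one_smul,
        one_smul, a2.one, sub_zero, a3 y hyt, ← map_nsmul] at h2
      refine hψ ?_
      have e2 : n (y ^ Pj j d t) = Pj j d t • n y := by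
        rw [← zpow_natCast, hn.zpow hyt, natCast_zsmul]
      rw [e2]
      exact h2
    have hall : ∀ t, x ^ (∏ s ∈ Finset.range t, Pj j d s) ∈ F (j * 2 ^ t) := by
      intro t
      induction t with
      | zero =>
        rw [pow_zero, mul_one]
        exact pow_mem (hst x hx j hj le_rfl hjd.le).1 _
      | succ t ih =>
        rw [Finset.prod_range_succ, pow_mul]
        rcases Nat.lt_or_ge d (j * 2 ^ t) with h | h
        · have h1 : x ^ (∏ s ∈ Finset.range t, Pj j d s) ∈ F d := hF.antitone h.le ih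
          rw [hd, Subgroup.mem_bot] at h1
          rw [h1, one_pow]
          exact one_mem _
        · exact hstep t h _ (pow_mem hx _) ih
    have h1 := hF.antitone hT (hall (T + 1))
    rw [hd, Subgroup.mem_bot, prod_Pj] at h1
    exact h1
  · obtain ⟨h1, _⟩ := hst x hx d hd1 hdj le_rfl
    rw [hd, Subgroup.mem_bot] at h1
    rw [h1, one_pow]

end SLC
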