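import Pool.Agent.SLC.Sj3

/-!
The explicit exponent with every factor once.
-/

set_option autoImplicit false

namespace SLC

variable {G : Type} [Group G] {F : ℕ → Subgroup G}

/-- killed by the maps of degree < d on the term i which are additive on commuting pairs -/
def LDD (F : ℕ → Subgroup G) (d i : ℕ) (y : G) : Prop :=
  y ∈ F i ∧ ∀ f : G → AddCircle (1 : ℚ), PK F (F i) d f → LA (F i) f → f y = 0

theorem LDD.mem2 (hF : Filt F) {i d : ℕ} (hi : 1 ≤ i) (hd : F d = ⊥) {y : G} (hy : LDD F d i y) : y ∈ F (i + i) := by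
  obtain ⟨hyi, hy⟩ := hy
  obtain ⟨B, iB, n, hn, hker, _⟩ := exists_quot (F i) (F (i + i)) (hF.comm i i)
  rw [← hker _ hyi]
  by_contra hne
  obtain ⟨ψ, hψ⟩ := CharacterModule.exists_character_apply_ne_zero_of_ne_zero hne
  have hadd : AddOn (F i) fun y => ψ (n y) := by
    intro a ha b hb
    change ψ (n (a * b)) = ψ (n a) + ψ (n b)
    rw [hn a ha b hb, map_add]
  refine hψ (hy (fun y => ψ (n y)) ?_ fun a ha b hb _ => hadd a ha b hb)
  intro c hc hcK
  refine asum_zero hF hc hcK hadd fun z hz hzd => ?_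
  rw [hd, Subgroup.mem_bot] at hzd
  change ψ (n z) = 0
  rw [hzd, hn.one, map_zero]

theorem LDD.step (hF : Filt F) {i d : ℕ} (hi : 1 ≤ i) (hd : F d = ⊥) (hfg : ∀ k, 1 ≤ k → k < d →
    ∃ S : Finset G, (∀ s ∈ S, s ∈ F k) ∧ F k ≤ Subgroup.closure (S : Set G) ⊔ F (k + 1)) {y : G}
    (hy : LDD F d i y) : LDD F d (i + i) (y ^ Mj d i) := by
  have hm := hy.mem2 hF hi hd
  refine ⟨pow_mem hm _, fun f hf hl => ?_⟩
  rw [hl.pow hm]
  rcases Nat.lt_or_ge d (i + i) with h | h
  · have h1 : y ∈ F d := hF.antitone h.le hm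
    rw [hd, Subgroup.mem_bot] at h1
    rw [h1, hl.one, smul_zero]
  · obtain ⟨f', a1, a2, a3⟩ := dbl_step hF hi h (le_mul_div hi) (Mj_dv d _)
      (Module.Baer.of_divisible (AddCircle (1 : ℚ))) hfg hf hl
    rw [← a3 y hm]
    exact hy.2 f' a1 a2

/-- the exponent, every factor once -/
theorem sjo1 {j d T : ℕ} (hF : Filt F) (hd1 : 1 ≤ d) (hd : F d = ⊥) (hj : 1 ≤ j) (hT : d ≤ j * 2 ^ (T + 1))
    (hfg : ∀ k, 1 ≤ k → k < d →
      ∃ S : Finset G, (∀ s ∈ S, s ∈ F k) ∧ F k ≤ Subgroup.closure (S : Set G) ⊔ F (k + 1))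
    (htf : ∀ k, 1 ≤ k → k < j → ∀ x ∈ F k, ∀ n : ℕ, 1 ≤ n → x ^ n ∈ F (k + 1) → x ∈ F (k + 1)) {x : G}
    (hx : x ∈ DD F hF d) : x ^ Pj j d T = 1 := by
  -- the relation in the term k
  have hst : ∀ k, 1 ≤ k → k ≤ j → k ≤ d → x ∈ F k ∧ dl x - dl 1 ∈ JJd d F (F k) := by
    intro k hk
    induction k, hk using Nat.le_induction with
    | base =>
      intro _ _
      refine ⟨by rw [hF.top]; trivial, ?_⟩
      have h1 := hx ((G →₀ ℤ) ⧸ JJd d F (F 1)) (fun y => Submodule.Quotient.mk (dl y)) (fun c hc => by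
        have h2 : asum (fun e => (JJd d F (F 1)).mkQ (dl (c e))) = 0 := by
          rw [← map_asum, Submodule.mkQ_apply, Submodule.Quotient.mk_eq_zero]
          exact Submodule.subset_span ⟨c, hc, fun e => by rw [hF.top]; trivial, rfl⟩
        exact h2)
      exact (Submodule.Quotient.eq _).1 h1
    | succ k hk ih =>
      intro hkj hkd
      obtain ⟨h1, h2⟩ := ih (by omega) (by omega)
      have h3 : x ∈ F (k + 1) := stage_mem hF ((hF.comm k k).trans (hF.antitone (by omega)))
        (hF.antitone (by omega)) h1 h2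
      exact ⟨h3, stage_step hF hk (htf k hk (by omega)) h3 h2⟩
  rcases Nat.lt_or_ge j d with hjd | hdj
  · obtain ⟨hxj, hrel⟩ := hst j hj le_rfl hjd.le
    have h0 : LDD F d j x := by
      refine ⟨hxj, fun f hf hl => ?_⟩
      have h1 : JJd d F (F j) ≤ LinearMap.ker (Finsupp.linearCombination ℤ f) := by
        refine Submodule.span_le.2 ?_
        rintro u ⟨c, hc, hcK, rfl⟩
        rw [SetLike.mem_coe, LinearMap.mem_ker, map_asum]
        simp only [Finsupp.linearCombination_single, one_smul]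
        exact hf c hc hcK
      have h2 := h1 hrel
      rwa [LinearMap.mem_ker, map_sub, Finsupp.linearCombination_single, Finsupp.linearCombination_single, one_smul,
        one_smul, hl.one, sub_zero] at h2
    have hall : ∀ t, LDD F d (j * 2 ^ t) (x ^ Pj j d t) := by
      intro t
      induction t with
      | zero =>
        rw [pow_zero, mul_one, Pj, Finset.range_zero, Finset.prod_empty, pow_one]
        exact h0
      | succ t ih =>
        have hi : 1 ≤ j * 2 ^ t := Nat.one_le_iff_ne_zero.2 (Nat.mul_ne_zero (by omega) (pow_ne_zero _ two_ne_zero))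
        have e : j * 2 ^ (t + 1) = j * 2 ^ t + j * 2 ^ t := by
          rw [pow_succ]
          ring
        have e2 : Pj j d (t + 1) = Pj j d t * Mj d (j * 2 ^ t) := by
          rw [Pj, Pj, Finset.prod_range_succ]
        rw [e, e2, pow_mul]
        exact ih.step hF hi hd hfg
    have hi : 1 ≤ j * 2 ^ T := Nat.one_le_iff_ne_zero.2 (Nat.mul_ne_zero (by omega) (pow_ne_zero _ two_ne_zero))
    have e : j * 2 ^ (T + 1) = j * 2 ^ T + j * 2 ^ T := by
      rw [pow_succ]
      ring
    have h1 := hF.antitone (e ▸ hT) ((hall T).mem2 hF hi hd)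
    rw [hd, Subgroup.mem_bot] at h1
    exact h1
  · obtain ⟨h1, _⟩ := hst d hd1 hdj le_rfl
    rw [hd, Subgroup.mem_bot] at h1
    rw [h1, one_pow]

end SLC
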