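import Pool.Agent.SLC.Sj4

/-!
The last step, from the term 2 i to the term i, without additivity of the result: the exponent is lcm(1, ..., (d - 2) / i).
-/

set_option autoImplicit false

open scoped commutatorElement DirectSum

namespace SLC

/-- generators with only the obvious relations -/
def CycBas (M : Type) [AddCommGroup M] : Prop :=
  ∃ (ι : Type) (_ : Fintype ι) (b : ι → M), (∀ a, ∃ v : ι → ℤ, a = ∑ l, v l • b l) ∧
    ∀ v : ι → ℤ, ∑ l, v l • b l = 0 → ∀ l, v l • b l = 0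

theorem CycBas.of_equiv {M M' : Type} [AddCommGroup M] [AddCommGroup M'] (h : CycBas M) (φ : M' ≃+ M) : CycBas M' := by
  obtain ⟨ι, iι, b, h1, h2⟩ := h
  refine ⟨ι, iι, fun l => φ.symm (b l), fun a => ?_, fun v hv l => ?_⟩
  · obtain ⟨v, hv⟩ := h1 (φ a)
    refine ⟨v, ?_⟩
    rw [← φ.symm_apply_apply a, hv, map_sum]
    exact Finset.sum_congr rfl fun l _ => map_zsmul _ _ _
  · have h3 : φ (∑ l, v l • φ.symm (b l)) = 0 := by rw [hv, map_zero]
    rw [map_sum] at h3
    simp only [map_zsmul, AddEquiv.apply_symm_apply] at h3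
    rw [← map_zsmul, h2 v h3 l, map_zero]

theorem CycBas.prod {M M' : Type} [AddCommGroup M] [AddCommGroup M'] (h : CycBas M) (h' : CycBas M') :
    CycBas (M × M') := by
  obtain ⟨ι, iι, b, h1, h2⟩ := h
  obtain ⟨ι', iι', b', h1', h2'⟩ := h'
  have key : ∀ v : ι ⊕ ι' → ℤ, ∑ l, v l • (Sum.elim (fun l => (b l, 0)) (fun l => (0, b' l)) : ι ⊕ ι' → M × M') l =
      (∑ l, v (Sum.inl l) • b l, ∑ l, v (Sum.inr l) • b' l) := by
    intro v
    rw [Fintype.sum_sum_type]
    simp only [Sum.elim_inl, Sum.elim_inr]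
    refine Prod.ext ?_ ?_
    · rw [Prod.fst_add, Prod.fst_sum, Prod.fst_sum]
      simp
    · rw [Prod.snd_add, Prod.snd_sum, Prod.snd_sum]
      simp
  refine ⟨ι ⊕ ι', inferInstance, Sum.elim (fun l => (b l, 0)) (fun l => (0, b' l)), ?_, ?_⟩
  · rintro ⟨a, a'⟩
    obtain ⟨v, hv⟩ := h1 a
    obtain ⟨v', hv'⟩ := h1' a'
    refine ⟨Sum.elim v v', ?_⟩
    rw [key, hv, hv']
    rfl
  · intro v hv
    rw [key] at hv
    have h3 := h2 _ (congrArg Prod.fst hv)
    have h4 := h2' _ (congrArg Prod.snd hv)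
    rintro (l | l)
    · refine Prod.ext (h3 l) ?_
      change v (Sum.inl l) • (0 : M') = 0
      exact smul_zero _
    · refine Prod.ext ?_ (h4 l)
      change v (Sum.inr l) • (0 : M) = 0
      exact smul_zero _

theorem CycBas.pi {ι : Type} [Fintype ι] (M : ι → Type) [∀ i, AddCommGroup (M i)] (u : ∀ i, M i)
    (h : ∀ i (a : M i), ∃ z : ℤ, a = z • u i) : CycBas (∀ i, M i) := by
  classical
  have key : ∀ v : ι → ℤ, ∑ l, v l • (Pi.single l (u l) : ∀ i, M i) = fun i => v i • u i := by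
    intro v
    have e : (fun l => v l • (Pi.single l (u l) : ∀ i, M i)) = fun l => Pi.single l (v l • u l) := by
      funext l
      exact (map_zsmul (AddMonoidHom.single M l) (v l) (u l)).symm
    rw [e]
    exact Finset.univ_sum_single _
  refine ⟨ι, inferInstance, fun l => Pi.single l (u l), fun a => ?_, fun v hv l => ?_⟩
  · choose z hz using fun i => h i (a i)
    refine ⟨z, ?_⟩
    rw [key]
    funext i
    exact hz i
  · rw [key] at hv
    have h1 : v l • u l = 0 := congrFun hv l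
    have h2 := map_zsmul (AddMonoidHom.single M l) (v l) (u l)
    rw [h1, map_zero] at h2
    exact h2.symm

theorem cycBas_of_fg (M : Type) [AddCommGroup M] [AddGroup.FG M] : CycBas M := by
  classical
  obtain ⟨n, ι, fι, p, -, e, ⟨f⟩⟩ := AddCommGroup.equiv_free_prod_directSum_zmod M
  have h1 : CycBas (Fin n → ℤ) := CycBas.pi (fun _ => ℤ) (fun _ => 1) fun i a => ⟨a, by simp⟩
  have h2 : CycBas (∀ i, ZMod (p i ^ e i)) := CycBas.pi (fun i => ZMod (p i ^ e i)) (fun _ => 1) fun i a => by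
    obtain ⟨z, hz⟩ := ZMod.intCast_surjective a
    exact ⟨z, by rw [zsmul_one, hz]⟩
  have h3 : CycBas (Fin n →₀ ℤ) :=
    h1.of_equiv (Finsupp.linearEquivFunOnFinite ℤ ℤ (Fin n)).toAddEquiv
  have h4 : CycBas (⨁ i : ι, ZMod (p i ^ e i)) := h2.of_equiv (DirectSum.addEquivProd _)
  exact (h3.prod h4).of_equiv f

variable {G : Type} [Group G] {F : ℕ → Subgroup G} {A : Type} [AddCommGroup A]

/-- adapted generators of the term i modulo the term i + 1 -/
theorem exists_cyc (hF : Filt F) {i : ℕ} (hi : 1 ≤ i) (hfg : ∃ S : Finset G, (∀ s ∈ S, s ∈ F i) ∧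
    F i ≤ Subgroup.closure (S : Set G) ⊔ F (i + 1)) :
    ∃ (B : Type) (_ : AddCommGroup B) (n : G → B) (κ : Type) (_ : Fintype κ) (g : κ → G),
      AddOn (F i) n ∧ (∀ y ∈ F i, n y = 0 ↔ y ∈ F (i + 1)) ∧ (∀ l, g l ∈ F i) ∧
      (∀ h ∈ F i, ∃ v : κ → ℤ, n h = ∑ l, v l • n (g l)) ∧
      ∀ v : κ → ℤ, ∑ l, v l • n (g l) = 0 → ∀ l, g l ^ v l ∈ F (i + 1) := by
  classical
  obtain ⟨S, hS, hSF⟩ := hfg
  obtain ⟨B, iB, n, hn, hker, hsurj⟩ := exists_quot (F i) (F (i + 1)) ((hF.comm i i).trans (hF.antitone (by omega)))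
  have hfgB : AddGroup.FG B := by
    refine AddGroup.fg_iff.2 ⟨n '' S, ?_, (S.finite_toSet).image n⟩
    rw [eq_top_iff]
    rintro a -
    let P : Subgroup G :=
      { carrier := {y | y ∈ F i ∧ n y ∈ AddSubgroup.closure (n '' S)}
        mul_mem' := fun {x y} hx hy => ⟨mul_mem hx.1 hy.1, by
          rw [hn _ hx.1 _ hy.1]
          exact add_mem hx.2 hy.2⟩
        one_mem' := ⟨one_mem _, by
          rw [hn.one]
          exact zero_mem _⟩
        inv_mem' := fun {x} hx => ⟨inv_mem hx.1, by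
          rw [hn.inv hx.1]
          exact neg_mem hx.2⟩ }
    have hP : F i ≤ P := by
      refine hSF.trans (sup_le ((Subgroup.closure_le _).2 fun x hx => ⟨hS x hx, ?_⟩) fun x hx => ?_)
      · exact AddSubgroup.subset_closure ⟨x, hx, rfl⟩
      · refine ⟨hF.anti i hx, ?_⟩
        rw [(hker x (hF.anti i hx)).2 hx]
        exact zero_mem _
    obtain ⟨y, hy, rfl⟩ := hsurj a
    exact (hP hy).2
  obtain ⟨κ, iκ, b, h1, h2⟩ := cycBas_of_fg B
  choose g hg hgb using fun l => hsurj (b l)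
  refine ⟨B, iB, n, κ, iκ, g, hn, hker, hg, fun h _ => ?_, fun v hv l => ?_⟩
  · simp only [hgb]
    exact h1 (n h)
  · simp only [hgb] at hv
    rw [← hker _ (zpow_mem (hg l) _), hn.zpow (hg l), hgb]
    exact h2 v hv l

/-- adapted generators of the term i modulo the term 2 i -/
theorem exists_gens2 (hF : Filt F) {i d : ℕ} (hi : 1 ≤ i) (hid : i + i ≤ d) (hfg : ∀ k, 1 ≤ k → k < d →
    ∃ S : Finset G, (∀ s ∈ S, s ∈ F k) ∧ F k ≤ Subgroup.closure (S : Set G) ⊔ F (k + 1)) {B : Type} [AddCommGroup B]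
    {n : G → B} (hn : AddOn (F i) n) (hker : ∀ y ∈ F i, n y = 0 ↔ y ∈ F (i + i)) :
    ∃ (ι : Type) (_ : Fintype ι) (w : ι → ℕ) (g : ι → G),
      (∀ l, i ≤ w l ∧ w l < i + i ∧ g l ∈ F (w l)) ∧
      (∀ v : ι → ℤ, ∑ l, v l • n (g l) = 0 → ∀ l, g l ^ v l ∈ F (i + 1)) ∧
      ∀ s, i ≤ s → s ≤ i + i → ∀ h ∈ F s,
        ∃ v : ι → ℤ, (∀ l, w l < s → v l = 0) ∧ n h = ∑ l, v l • n (g l) := by
  classical
  obtain ⟨ι, iι, w, g, h1, h2⟩ := exists_gens hF hi hid hfg hn hker (i - 1) (by omega)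
  obtain ⟨B', iB', n', κ, iκ, g', hn', hker', hg', hgen', hrel'⟩ := exists_cyc hF hi (hfg i hi (by omega))
  have hgi : ∀ l, g l ∈ F (i + 1) := fun l => hF.antitone (by have := (h1 l).1; omega) (h1 l).2.2
  have hgi' : ∀ l, g l ∈ F i := fun l => hF.anti i (hgi l)
  refine ⟨ι ⊕ κ, inferInstance, Sum.elim w fun _ => i, Sum.elim g g', ?_, ?_, ?_⟩
  · rintro (l | l)
    · obtain ⟨a1, a2, a3⟩ := h1 l
      refine ⟨?_, a2, a3⟩
      simp only [Sum.elim_inl]
      omega
    · refine ⟨le_rfl, ?_, hg' l⟩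
      simp only [Sum.elim_inr]
      omega
  · intro v hv
    have hpm : ∀ v : κ → ℤ, pg g' v ∈ F i := fun v => pg_mem (fun _ => i) g' hF hg' (fun _ => le_rfl) v
    have hpm0 : ∀ v : ι → ℤ, pg g v ∈ F i := fun v => pg_mem (fun _ => i) g hF hgi' (fun _ => le_rfl) v
    have e1 : n (pg g' (fun l => v (Sum.inr l))) = ∑ l, v (Sum.inr l) • n (g' l) :=
      n_pg (fun _ => i) g' hF hg' (fun _ => le_rfl) hn _
    have e2 : n (pg g (fun l => v (Sum.inl l))) = ∑ l, v (Sum.inl l) • n (g l) :=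
      n_pg (fun _ => i) g hF hgi' (fun _ => le_rfl) hn _
    have e3 : n (pg g (fun l => v (Sum.inl l)) * pg g' (fun l => v (Sum.inr l))) = 0 := by
      rw [hn _ (hpm0 _) _ (hpm _), e1, e2, ← hv, Fintype.sum_sum_type]
      simp only [Sum.elim_inl, Sum.elim_inr]
    have e4 : n' (pg g (fun l => v (Sum.inl l)) * pg g' (fun l => v (Sum.inr l))) = 0 := by
      rw [hker' _ (mul_mem (hpm0 _) (hpm _))]
      exact hF.antitone (by omega : i + 1 ≤ i + i) ((hker _ (mul_mem (hpm0 _) (hpm _))).1 e3)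
    have e5 : n' (pg g (fun l => v (Sum.inl l))) = 0 := by
      rw [hker' _ (hpm0 _)]
      exact pg_mem (fun _ => i + 1) g hF hgi (fun _ => le_rfl) _
    rw [hn' _ (hpm0 _) _ (hpm _), e5, zero_add, n_pg (fun _ => i) g' hF hg' (fun _ => le_rfl) hn'] at e4
    rintro (l | l)
    · exact zpow_mem (hgi l) _
    · exact hrel' _ e4 l
  · intro s hs hs' h hh
    rcases Nat.eq_or_lt_of_le hs with rfl | hlt
    · obtain ⟨u, hu⟩ := hgen' h hh
      have hpm : pg g' u ∈ F i := pg_mem (fun _ => i) g' hF hg' (fun _ => le_rfl) u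
      have h3 : h * (pg g' u)⁻¹ ∈ F (i + 1) := by
        rw [← hker' _ (mul_mem hh (inv_mem hpm)), hn' _ hh _ (inv_mem hpm), hn'.inv hpm,
          n_pg (fun _ => i) g' hF hg' (fun _ => le_rfl) hn', hu, add_neg_cancel]
      obtain ⟨v, _, hv⟩ := h2 (i + 1) (by omega) (by omega) _ h3
      refine ⟨Sum.elim v u, ?_, ?_⟩
      · rintro (l | l) hl
        · have := (h1 l).1
          simp only [Sum.elim_inl] at hl
          omega
        · simp only [Sum.elim_inr] at hl
          omega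
      · rw [Fintype.sum_sum_type]
        simp only [Sum.elim_inl, Sum.elim_inr]
        rw [hn _ hh _ (inv_mem hpm), hn.inv hpm, n_pg (fun _ => i) g' hF hg' (fun _ => le_rfl) hn] at hv
        rw [← hv]
        abel
    · obtain ⟨v, hv0, hv⟩ := h2 s (by omega) hs' h hh
      refine ⟨Sum.elim v 0, ?_, ?_⟩
      · rintro (l | l) hl
        · exact hv0 l hl
        · rfl
      · rw [Fintype.sum_sum_type, hv]
        simp

section cover

variable {ι : Type} [Fintype ι] (w : ι → ℕ) (g : ι → G)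

/-- the filtration of G × ℤ^ι in which the relations have weight i + 1 -/
def Fx (F : ℕ → Subgroup G) (i s : ℕ) : Subgroup (G × Multiplicative (ι → ℤ)) where
  carrier := {x | x.1 ∈ F s ∧ (∀ l, g l ^ Multiplicative.toAdd x.2 l ∈ F s) ∧
    (i + 1 < s → ∀ l, w l < s → Multiplicative.toAdd x.2 l = 0)}
  mul_mem' := by
    rintro x y ⟨hx, hx1, hx'⟩ ⟨hy, hy1, hy'⟩
    refine ⟨mul_mem hx hy, fun l => ?_, fun h l hl => ?_⟩
    · change g l ^ (Multiplicative.toAdd x.2 l + Multiplicative.toAdd y.2 l) ∈ F s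
      rw [zpow_add]
      exact mul_mem (hx1 l) (hy1 l)
    · change Multiplicative.toAdd x.2 l + Multiplicative.toAdd y.2 l = 0
      rw [hx' h l hl, hy' h l hl, add_zero]
  one_mem' := by
    refine ⟨one_mem _, fun l => ?_, fun _ _ _ => rfl⟩
    change g l ^ (0 : ℤ) ∈ F s
    rw [zpow_zero]
    exact one_mem _
  inv_mem' := by
    rintro x ⟨hx, hx1, hx'⟩
    refine ⟨inv_mem hx, fun l => ?_, fun h l hl => ?_⟩
    · change g l ^ (-Multiplicative.toAdd x.2 l) ∈ F s
      rw [zpow_neg]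
      exact inv_mem (hx1 l)
    · change -Multiplicative.toAdd x.2 l = 0
      rw [hx' h l hl, neg_zero]

theorem Fx_filt (hF : Filt F) (i : ℕ) : Filt (Fx w g F i) where
  top := by
    rw [eq_top_iff]
    intro x _
    refine ⟨by rw [hF.top]; trivial, fun l => by rw [hF.top]; trivial, fun h => absurd h (by omega)⟩
  zero := by
    rw [eq_top_iff]
    intro x _
    exact ⟨by rw [hF.zero]; trivial, fun l => by rw [hF.zero]; trivial, fun h => absurd h (by omega)⟩
  anti s := by
    rintro x ⟨hx, hx1, hx'⟩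
    exact ⟨hF.anti s hx, fun l => hF.anti s (hx1 l), fun h l hl => hx' (by omega) l (by omega)⟩
  comm s k := by
    rw [Subgroup.commutator_le]
    rintro x ⟨hx, _⟩ y ⟨hy, _⟩
    have e : (⁅x, y⁆).2 = 1 := by
      rw [commutatorElement_def]
      change x.2 * y.2 * x.2⁻¹ * y.2⁻¹ = 1
      rw [mul_comm x.2 y.2, mul_assoc (y.2 * x.2), ← mul_inv_rev, mul_inv_cancel]
    refine ⟨hF.comm s k (Subgroup.commutator_mem_commutator hx hy), fun l => ?_, fun _ l _ => ?_⟩
    · rw [e]
      change g l ^ (0 : ℤ) ∈ _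
      rw [zpow_zero]
      exact one_mem _
    · rw [e]
      rfl

theorem rx_cube {i : ℕ} {N : ℕ} {c : (Fin N → Bool) → G × Multiplicative (ι → ℤ)} (hc : c ∈ HK N (Fx w g F i)) :
    (fun e => rw' g (c e)) ∈ HK N F := by
  have h1 := HK_map (MonoidHom.fst G (Multiplicative (ι → ℤ))) (F := Fx w g F i) (F' := F) (fun s x hx => hx.1) hc
  have h2 : ∀ l, (fun e => g l ^ (Multiplicative.toAdd (c e).2 l)) ∈ HK N F := by
    intro l
    refine HK_map (MonoidHom.mk' (fun x : G × Multiplicative (ι → ℤ) => g l ^ (Multiplicative.toAdd x.2 l)) ?_)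
      (F := Fx w g F i) (F' := F) ?_ hc
    · intro x y
      exact zpow_add (g l) _ _
    · intro s x hx
      exact hx.2.1 l
  have h3 : (fun e => pg g (Multiplicative.toAdd (c e).2)) ∈ HK N F := by
    have e1 : (fun e => pg g (Multiplicative.toAdd (c e).2)) = ((Finset.univ.toList : List ι).map fun l =>
        (fun e => g l ^ (Multiplicative.toAdd (c e).2 l) : (Fin N → Bool) → G)).prod := by
      funext e
      rw [Pi.list_prod_apply, pg, List.map_map]
      rfl
    rw [e1]
    refine Subgroup.list_prod_mem _ fun u hu => ?_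
    obtain ⟨l, _, rfl⟩ := List.mem_map.1 hu
    exact h2 l
  exact mul_mem h1 (inv_mem h3)

end cover

/-- from the term 2 i to the term i, at the bottom -/
theorem bot_step (hF : Filt F) {i d c M : ℕ} (hi : 1 ≤ i) (hid : i + i < d) (hc : d ≤ c * i + 1) (hM : Dv c M)
    (hB : Module.Baer ℤ A) (hfg : ∀ k, 1 ≤ k → k < d →
      ∃ S : Finset G, (∀ s ∈ S, s ∈ F k) ∧ F k ≤ Subgroup.closure (S : Set G) ⊔ F (k + 1)) {f : G → A}
    (hf : PK F (F (i + i)) d f) (hl : LA (F (i + i)) f) :
    ∃ f' : G → A, PK F (F i) d f' ∧ ∀ x ∈ F (i + i), f' x = M • f x := by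
  classical
  have hc1 : 1 < c := by
    by_contra h
    have : c * i ≤ 1 * i := Nat.mul_le_mul_right i (by omega)
    omega
  obtain ⟨B, iB, n, hn, hker, _⟩ := exists_quot (F i) (F (i + i)) (hF.comm i i)
  obtain ⟨ι, iι, w, g, hwg, hrel, hgen⟩ := exists_gens2 hF hi hid.le hfg hn hker
  have hwi : ∀ l, i ≤ w l := fun l => (hwg l).1
  have hg : ∀ l, g l ∈ F (w l) := fun l => (hwg l).2.2
  have hgi : ∀ l, g l ∈ F i := fun l => hF.antitone (hwi l) (hg l)
  have hFx := Fx_filt w g hF i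
  set H := Hw g hn with hH
  have hHF : ∀ x ∈ H, x ∈ Fx w g F i i := by
    rintro x ⟨hx, _⟩
    exact ⟨hx, fun l => zpow_mem (hgi l) _, fun h => absurd h (by omega)⟩
  have hrt : ∀ x ∈ H, rw' g x ∈ F (i + i) := by
    rintro x ⟨hx, hx'⟩
    have h1 := pg_mem w g hF hg hwi (Multiplicative.toAdd x.2)
    have h2 : rw' g x ∈ F i := mul_mem hx (inv_mem h1)
    rw [← hker _ h2, rw', hn _ hx _ (inv_mem h1), hn.inv h1, n_pg w g hF hg hwi hn, hx', add_neg_cancel]
  have hr : PK (Fx w g F i) H d (fun x => f (rw' g x)) := by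
    intro c hc hcH
    exact hf _ (rx_cube w g hc) fun e => hrt _ (hcH e)
  -- the first extension
  let f1 : G × Multiplicative (ι → ℤ) → A := fun x => Dm c M A (fun k => f (rw' g (x ^ k)))
  have hf1 : PK (Fx w g F i) H d f1 := by
    intro q hq hqH
    have h3 : (∑ e : Fin d → Bool, sg e • fun k : ℕ => f (rw' g (q e ^ k))) = 0 := by
      funext k
      rw [Finset.sum_apply, Pi.zero_apply]
      exact hr (q ^ k) (pow_mem hq k) fun e => pow_mem (hqH e) k
    have h4 := congrArg (Dm c M A) h3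
    rw [map_sum, map_zero] at h4
    simp only [map_zsmul] at h4
    exact h4
  have hpg0 : pg g (0 : ι → ℤ) = 1 := by
    rw [pg]
    refine List.prod_eq_one fun u hu => ?_
    obtain ⟨l, _, rfl⟩ := List.mem_map.1 hu
    exact zpow_zero _
  have hK1 : ∀ x ∈ F (i + i), f1 (x, 1) = M • f x := by
    intro x hx
    have e : (fun k : ℕ => f (rw' g ((x, (1 : Multiplicative (ι → ℤ))) ^ k))) = fun k => k • f x := by
      funext k
      rw [← hl.pow hx k, rw']
      congr 1
      rw [Prod.pow_fst, Prod.pow_snd, one_pow, toAdd_one, hpg0, inv_one, mul_one]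
    change Dm c M A _ = _
    rw [e, Dm_lin hM hc1]
  -- the kernel
  let L : AddSubgroup (ι → ℤ) :=
    { carrier := {v | ∑ l, v l • n (g l) = 0}
      add_mem' := by
        intro a b (ha : ∑ l, a l • n (g l) = 0) (hb : ∑ l, b l • n (g l) = 0)
        change ∑ l, (a l + b l) • n (g l) = 0
        simp only [add_smul]
        rw [Finset.sum_add_distrib, ha, hb, add_zero]
      zero_mem' := by
        change ∑ l, (0 : ℤ) • n (g l) = 0
        simp
      neg_mem' := by
        intro a (ha : ∑ l, a l • n (g l) = 0)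
        change ∑ l, (-a l) • n (g l) = 0
        simp only [neg_smul]
        rw [Finset.sum_neg_distrib, ha, neg_zero] }
  have hone : ∀ v ∈ L, ((1 : G), Multiplicative.ofAdd v) ∈ H := by
    intro v hv
    refine ⟨one_mem _, ?_⟩
    change n 1 = ∑ l, v l • n (g l)
    rw [hn.one]
    exact (show ∑ l, v l • n (g l) = 0 from hv).symm
  have hone1 : ∀ v ∈ L, ((1 : G), Multiplicative.ofAdd v) ∈ Fx w g F i (i + 1) := by
    intro v hv
    exact ⟨one_mem _, fun l => hrel v hv l, fun h => absurd h (by omega)⟩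
  have hl1 : ∀ x ∈ H, ∀ v ∈ L, f1 (x * (1, Multiplicative.ofAdd v)) = f1 x + f1 (1, Multiplicative.ofAdd v) := by
    intro x hx v hv
    set ρ : G × Multiplicative (ι → ℤ) := (1, Multiplicative.ofAdd v) with hρ
    have hρH : ρ ∈ H := hone v hv
    have hcom : Commute ρ x := by
      refine Prod.ext ?_ ?_
      · change 1 * x.1 = x.1 * 1
        rw [mul_one, one_mul]
      · change _ * x.2 = x.2 * _
        rw [mul_comm]
    have hdiff : PK (Fx w g F i) H ((c - 1) * i) (fun y => f (rw' g (y * ρ)) - f (rw' g y)) := by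
      refine PK.diff (i := i + 1) (f := fun x => f (rw' g x)) ?_ (by omega) hρH (hone1 v hv)
      refine hr.mono hFx ?_
      obtain ⟨c', rfl⟩ : ∃ c', c = c' + 1 := ⟨c - 1, by omega⟩
      rw [Nat.add_sub_cancel]
      rw [Nat.succ_mul] at hc
      omega
    have hΨ := PK.expand hFx hi hρH (hHF ρ hρH) hx (hHF x hx) hcom (c - 1) _ hdiff
    have hΦ : (fun m k : ℕ => f (rw' g (ρ ^ m * x ^ k)) - f (rw' g (x ^ k))) ∈ Qc (c - 1 + 1) A := by
      refine Qc_of_diff hΨ (zero_mem _) (fun m k => ?_) fun k => ?_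
      · have e : ρ ^ m * x ^ k * ρ = ρ ^ (m + 1) * x ^ k := by
          rw [mul_assoc, ← (hcom.pow_right k).eq, ← mul_assoc, ← pow_succ]
        simp only [e]
        abel
      · simp only [pow_zero, one_mul, sub_self, Pi.zero_apply, add_zero]
    rw [Nat.sub_add_cancel (by omega)] at hΦ
    have h2 := Dm_diag hM hc1 hΦ
    have e1 : Dm c M A (fun k : ℕ => f (rw' g (ρ ^ k * x ^ k)) - f (rw' g (x ^ k))) = f1 (x * ρ) - f1 x := by
      have e : (fun k : ℕ => f (rw' g (ρ ^ k * x ^ k)) - f (rw' g (x ^ k))) =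
          (fun k : ℕ => f (rw' g ((x * ρ) ^ k))) - fun k => f (rw' g (x ^ k)) := by
        funext k
        rw [Pi.sub_apply, hcom.symm.mul_pow, (hcom.pow_pow k k).eq]
      rw [e, map_sub]
    have e2 : Dm c M A (fun k : ℕ => f (rw' g (ρ ^ k * x ^ 0)) - f (rw' g (x ^ 0))) = f1 ρ := by
      have e : (fun k : ℕ => f (rw' g (ρ ^ k * x ^ 0)) - f (rw' g (x ^ 0))) =
          (fun k : ℕ => f (rw' g (ρ ^ k))) - fun _ => f (rw' g 1) := by
        funext k
        rw [Pi.sub_apply, pow_zero, mul_one]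
      rw [e, map_sub, Dm_const hM hc1, sub_zero]
    have e3 : Dm c M A (fun k : ℕ => f (rw' g (ρ ^ 0 * x ^ k)) - f (rw' g (x ^ k))) = 0 := by
      have e : (fun k : ℕ => f (rw' g (ρ ^ 0 * x ^ k)) - f (rw' g (x ^ k))) = 0 := by
        funext k
        rw [pow_zero, one_mul, sub_self, Pi.zero_apply]
      rw [e, map_zero]
    rw [e1, e2, e3, add_zero, sub_eq_iff_eq_add] at h2
    rw [h2, add_comm]
  let φ : L →+ A := AddMonoidHom.mk' (fun v => f1 (1, Multiplicative.ofAdd (v : ι → ℤ))) (by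
    intro v v'
    rw [← hl1 _ (hone v.1 v.2) v'.1 v'.2]
    congr 1
    exact Prod.ext (one_mul 1).symm rfl)
  obtain ⟨β, hβ⟩ := hB.extension_property_addMonoidHom L.subtype Subtype.val_injective φ
  have hβL : ∀ v ∈ L, β v = f1 (1, Multiplicative.ofAdd v) := fun v hv => DFunLike.congr_fun hβ (⟨v, hv⟩ : L)
  let f2 : G × Multiplicative (ι → ℤ) → A := fun x => f1 x - β (Multiplicative.toAdd x.2)
  have hf2 : PK (Fx w g F i) H d f2 := by
    intro q hq hqH
    have e : asum (fun e => f2 (q e)) = asum (fun e => f1 (q e)) - asum (fun e => β (Multiplicative.toAdd (q e).2)) := by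
      unfold asum
      rw [← Finset.sum_sub_distrib]
      exact Finset.sum_congr rfl fun e _ => smul_sub _ _ _
    have h2 : asum (fun e => β (Multiplicative.toAdd (q e).2)) = 0 := by
      refine asum_zero hFx hq (K := ⊤) (n := fun x => β (Multiplicative.toAdd x.2)) (fun e => trivial) ?_ ?_
      · intro x _ y _
        change β (Multiplicative.toAdd x.2 + Multiplicative.toAdd y.2) = _
        rw [map_add]
      · rintro y _ ⟨_, _, hy⟩
        have e2 : Multiplicative.toAdd y.2 = 0 := by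
          funext l
          refine hy (by omega) l ?_
          have := (hwg l).2.1
          omega
        change β (Multiplicative.toAdd y.2) = 0
        rw [e2, map_zero]
    rw [e, hf1 q hq hqH, h2, sub_zero]
  have hwd : ∀ (h : G) (v v' : ι → ℤ), (h, Multiplicative.ofAdd v) ∈ H → (h, Multiplicative.ofAdd v') ∈ H →
      f2 (h, Multiplicative.ofAdd v) = f2 (h, Multiplicative.ofAdd v') := by
    intro h v v' hv hv'
    have h1 : v' - v ∈ L := by
      have a1 : n h = ∑ l, v l • n (g l) := hv.2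
      have a2 : n h = ∑ l, v' l • n (g l) := hv'.2
      change ∑ l, (v' l - v l) • n (g l) = 0
      simp only [sub_smul]
      rw [Finset.sum_sub_distrib, ← a1, ← a2, sub_self]
    have h2 := hl1 _ hv _ h1
    have e : (h, Multiplicative.ofAdd v) * ((1 : G), Multiplicative.ofAdd (v' - v)) = (h, Multiplicative.ofAdd v') := by
      refine Prod.ext (mul_one h) ?_
      change Multiplicative.ofAdd v * Multiplicative.ofAdd (v' - v) = _
      rw [← ofAdd_add]
      congr 1
      abel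
    rw [e, ← hβL _ h1] at h2
    change f1 (h, Multiplicative.ofAdd v) - β v = f1 (h, Multiplicative.ofAdd v') - β v'
    rw [h2, map_sub]
    abel
  -- the extension
  let f' : G → A := fun h => if hv : ∃ v : ι → ℤ, (h, Multiplicative.ofAdd v) ∈ H then
    f2 (h, Multiplicative.ofAdd hv.choose) else 0
  have hf' : ∀ x ∈ H, f' x.1 = f2 x := by
    intro x hx
    have hn' : ∃ v : ι → ℤ, (x.1, Multiplicative.ofAdd v) ∈ H := ⟨Multiplicative.toAdd x.2, hx⟩
    change (if hv : ∃ v : ι → ℤ, (x.1, Multiplicative.ofAdd v) ∈ H then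
      f2 (x.1, Multiplicative.ofAdd hv.choose) else 0) = _
    rw [dif_pos hn']
    exact hwd _ _ (Multiplicative.toAdd x.2) hn'.choose_spec hx
  have hlift : ∀ s, i ≤ s → ∀ h ∈ F s, ∃ x ∈ H, x.1 = h ∧ x ∈ Fx w g F i s := by
    intro s hs h hh
    have hhi : h ∈ F i := hF.antitone hs hh
    rcases Nat.lt_or_ge (i + i) s with h1 | h1
    · refine ⟨(h, 1), ⟨hhi, ?_⟩, rfl, hh, fun l => ?_, fun _ _ _ => rfl⟩
      · change n h = ∑ l, (0 : ℤ) • n (g l)
        rw [(hker h hhi).2 (hF.antitone h1.le hh)]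
        simp
      · change g l ^ (0 : ℤ) ∈ F s
        rw [zpow_zero]
        exact one_mem _
    · obtain ⟨v, hv0, hv⟩ := hgen s hs h1 h hh
      refine ⟨(h, Multiplicative.ofAdd v), ⟨hhi, hv⟩, rfl, hh, fun l => ?_, fun _ => hv0⟩
      change g l ^ v l ∈ F s
      rcases Nat.lt_or_ge (w l) s with h2 | h2
      · rw [hv0 l h2, zpow_zero]
        exact one_mem _
      · exact zpow_mem (hF.antitone h2 (hg l)) _
  refine ⟨f', ?_, ?_⟩
  · intro q hq hqK
    have h1 : q ∈ HKS (fun s => F s ⊓ F i) Finset.univ 0 := by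
      refine HKS_sub hF _ _ _ ?_ _ hqK
      rw [← HK_eq]
      exact hq
    have h2 : ∃ t : (Fin d → Bool) → G × Multiplicative (ι → ℤ), t ∈ HK d (Fx w g F i) ∧ (∀ e, t e ∈ H) ∧
        ∀ e, (t e).1 = q e := by
      clear hq hqK
      induction h1 using Subgroup.closure_induction with
      | mem q hq =>
        obtain ⟨u, γ, _, ⟨hγ, hγi⟩, rfl⟩ := hq
        rw [add_zero] at hγ
        have hγm : γ ∈ F (max u.card i) := by
          rcases le_total u.card i with h | h
          · rwa [max_eq_right h]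
          · rwa [max_eq_left h]
        obtain ⟨x, hx, rfl, hxs⟩ := hlift _ (le_max_right _ _) γ hγm
        refine ⟨gen u x, gmem (hFx.antitone (le_max_left _ _) hxs), fun e => ?_, fun e => ?_⟩
        · unfold gen
          split_ifs
          · exact hx
          · exact one_mem _
        · unfold gen
          split_ifs <;> rfl
      | one => exact ⟨1, one_mem _, fun _ => one_mem _, fun _ => rfl⟩
      | mul x y _ _ hx hy =>
        obtain ⟨t, t1, t2, t3⟩ := hx
        obtain ⟨t', t1', t2', t3'⟩ := hy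
        refine ⟨t * t', mul_mem t1 t1', fun e => mul_mem (t2 e) (t2' e), fun e => ?_⟩
        rw [Pi.mul_apply, Pi.mul_apply, Prod.fst_mul, t3, t3']
      | inv x _ hx =>
        obtain ⟨t, t1, t2, t3⟩ := hx
        refine ⟨t⁻¹, inv_mem t1, fun e => inv_mem (t2 e), fun e => ?_⟩
        rw [Pi.inv_apply, Pi.inv_apply, Prod.fst_inv, t3]
    obtain ⟨t, t1, t2, t3⟩ := h2
    have e : (fun e => f' (q e)) = fun e => f2 (t e) := by
      funext e
      rw [← t3 e, hf' _ (t2 e)]
    rw [e]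
    exact hf2 t t1 t2
  · intro x hx
    have hxH : (x, (1 : Multiplicative (ι → ℤ))) ∈ H := by
      refine ⟨hF.antitone (by omega : i ≤ i + i) hx, ?_⟩
      change n x = ∑ l, (0 : ℤ) • n (g l)
      rw [(hker x (hF.antitone (by omega : i ≤ i + i) hx)).2 hx]
      simp
    have h1 := hf' _ hxH
    change f' x = f1 (x, 1) - β 0 at h1
    rw [h1, hK1 x hx, map_zero, sub_zero]

end SLC
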