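import Pool.Agent.SLC.Sj5

/-!
The explicit exponent with the smaller factor at the bottom.
-/

set_option autoImplicit false

namespace SLC

variable {G : Type} [Group G] {F : ℕ → Subgroup G}

/-- the factors of the exponent: lcm(1, ..., (d - 2) / j) at the bottom, lcm(1, ..., (d - 1) / i) above -/
def Mo (j d s : ℕ) : ℕ := (Finset.Icc 1 ((d - (if s = 0 then 2 else 1)) / (j * 2 ^ s))).lcm id

theorem Mo_succ (j d s : ℕ) : Mo j d (s + 1) = Mj d (j * 2 ^ (s + 1)) := by
  rw [Mo, Mj, if_neg (by omega)]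

theorem Mo_dv {j d : ℕ} : Dv ((d - 2) / j + 1) (Mo j d 0) := by
  intro k hk hk'
  rw [Mo, if_pos rfl, pow_zero, mul_one]
  exact Finset.dvd_lcm (f := id) (Finset.mem_Icc.2 ⟨hk, by omega⟩)

theorem le_mul_div2 {d i : ℕ} (hi : 1 ≤ i) : d ≤ ((d - 2) / i + 1) * i + 1 := by
  have h1 := Nat.div_add_mod (d - 2) i
  have h2 := Nat.mod_lt (d - 2) (by omega : i > 0)
  rw [add_mul, one_mul, mul_comm]
  omega

/-- the exponent -/
theorem sjo2 {j d T : ℕ} (hF : Filt F) (hd1 : 1 ≤ d) (hd : F d = ⊥) (hj : 1 ≤ j) (hT : d ≤ j * 2 ^ (T + 1))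
    (hfg : ∀ k, 1 ≤ k → k < d →
      ∃ S : Finset G, (∀ s ∈ S, s ∈ F k) ∧ F k ≤ Subgroup.closure (S : Set G) ⊔ F (k + 1))
    (htf : ∀ k, 1 ≤ k → k < j → ∀ x ∈ F k, ∀ n : ℕ, 1 ≤ n → x ^ n ∈ F (k + 1) → x ∈ F (k + 1)) {x : G}
    (hx : x ∈ DD F hF d) : x ^ (∏ s ∈ Finset.range T, Mo j d s) = 1 := by
  -- the relation in the term k
  have hst : ∀ k, 1 ≤ k → k ≤ j → k ≤ d → x ∈ F k ∧ dl x - dl 1 ∈ JJd d F (F k) := by
    intro k hk
    induction k, hk using Nat.le_induction with
    | base =>
      intro _ _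
      refine ⟨by rw [hF.top]; trivial, ?_⟩
      have h1 := hx ((G →₀ ℤ) ⧸ JJd d F (F 1)) (fun y => Submodule.Quotient.mk (dl y)) (fun c hc => by
        have h2 : asum (fun e => (JJd d F (F 1)).mkQ (dl (c e))) = 0 := by
          rw [← map_asum, Submodule.mkQ_apply, Submodule.Quotient.mk_eq_zero]
          exact Submodule.subset_span ⟨c, hc, fun e => by rw [hF.top]; trivial, rfl⟩
        exact h2)
      exact (Submodule.Quotient.eq _).1 h1
    | succ k hk ih =>
      intro hkj hkd
      obtain ⟨h1, h2⟩ := ih (by omega) (by omega)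
      have h3 : x ∈ F (k + 1) := stage_mem hF ((hF.comm k k).trans (hF.antitone (by omega)))
        (hF.antitone (by omega)) h1 h2
      exact ⟨h3, stage_step hF hk (htf k hk (by omega)) h3 h2⟩
  rcases Nat.lt_or_ge j d with hjd | hdj
  · obtain ⟨hxj, hrel⟩ := hst j hj le_rfl hjd.le
    have h0' : ∀ f : G → AddCircle (1 : ℚ), PK F (F j) d f → f x = f 1 := by
      intro f hf
      have h1 : JJd d F (F j) ≤ LinearMap.ker (Finsupp.linearCombination ℤ f) := by
        refine Submodule.span_le.2 ?_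
        rintro u ⟨c, hc, hcK, rfl⟩
        rw [SetLike.mem_coe, LinearMap.mem_ker, map_asum]
        simp only [Finsupp.linearCombination_single, one_smul]
        exact hf c hc hcK
      have h2 := h1 hrel
      rw [LinearMap.mem_ker, map_sub, Finsupp.linearCombination_single, Finsupp.linearCombination_single, one_smul,
        one_smul] at h2
      exact sub_eq_zero.1 h2
    have h0 : LDD F d j x := ⟨hxj, fun f hf hl => by rw [h0' f hf, hl.one]⟩
    have hx2 : x ∈ F (j + j) := h0.mem2 hF hj hd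
    rcases Nat.lt_or_ge (j + j) d with hjj | hjj
    · rcases T with _ | T
      · rw [zero_add, pow_one] at hT
        omega
      · have hb : LDD F d (j + j) (x ^ Mo j d 0) := by
          refine ⟨pow_mem hx2 _, fun f hf hl => ?_⟩
          obtain ⟨f', a1, a2⟩ := bot_step hF hj hjj (le_mul_div2 hj) Mo_dv
            (Module.Baer.of_divisible (AddCircle (1 : ℚ))) hfg hf hl
          rw [hl.pow hx2, ← a2 x hx2, h0' f' a1, a2 1 (one_mem _), hl.one, smul_zero]
        have hall : ∀ t, LDD F d (j * 2 ^ (t + 1)) (x ^ (∏ s ∈ Finset.range (t + 1), Mo j d s)) := by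
          intro t
          induction t with
          | zero =>
            have e : j * 2 ^ (0 + 1) = j + j := by omega
            rw [e, Finset.prod_range_succ, Finset.range_zero, Finset.prod_empty, one_mul]
            exact hb
          | succ t ih =>
            have hi : 1 ≤ j * 2 ^ (t + 1) :=
              Nat.one_le_iff_ne_zero.2 (Nat.mul_ne_zero (by omega) (pow_ne_zero _ two_ne_zero))
            have e : j * 2 ^ (t + 1 + 1) = j * 2 ^ (t + 1) + j * 2 ^ (t + 1) := by
              rw [pow_succ 2 (t + 1)]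
              ring
            rw [e, Finset.prod_range_succ, pow_mul, Mo_succ]
            exact ih.step hF hi hd hfg
        have hi : 1 ≤ j * 2 ^ (T + 1) :=
          Nat.one_le_iff_ne_zero.2 (Nat.mul_ne_zero (by omega) (pow_ne_zero _ two_ne_zero))
        have e : j * 2 ^ (T + 1 + 1) = j * 2 ^ (T + 1) + j * 2 ^ (T + 1) := by
          rw [pow_succ 2 (T + 1)]
          ring
        have h1 := hF.antitone (e ▸ hT) ((hall T).mem2 hF hi hd)
        rw [hd, Subgroup.mem_bot] at h1
        exact h1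
    · have h1 := hF.antitone hjj hx2
      rw [hd, Subgroup.mem_bot] at h1
      rw [h1, one_pow]
  · obtain ⟨h1, _⟩ := hst d hd1 hdj le_rfl
    rw [hd, Subgroup.mem_bot] at h1
    rw [h1, one_pow]

end SLC
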