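import Pool.Agent.SLC.Spr6
import Pool.Agent.SLC.TF3
import Pool.Agent.SLC.Red4
import Pool.Agent.SLC.Inv3

/-!
Small primes: from groups with a filtration to string links. bad p: the primes which may divide the order of an
element which is not separated from 1.
-/

set_option autoImplicit false

namespace SLC

section group

variable {G : Type} [Group G] {F : ℕ → Subgroup G}

/-- a common exponent with bad prime divisors only -/
theorem exists_exp (hF : Filt F) {d : ℕ} (hd1 : 1 ≤ d) (hd : F d = ⊥)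
    (hfg : ∀ k, 1 ≤ k → k < d → ∃ S : Finset G, (∀ s ∈ S, s ∈ F k) ∧ F k ≤ Subgroup.closure (S : Set G) ⊔ F (k + 1))
    (bad : ℕ → Prop) (hs : ∀ p : ℕ, p.Prime → ¬ bad p → ∀ x ∈ DD F hF d, x ^ p = 1 → x = 1) :
    ∃ n : ℕ, 1 ≤ n ∧ (∀ p : ℕ, p.Prime → p ∣ n → bad p) ∧ ∀ x ∈ DD F hF d, x ^ n = 1 := by
  classical
  have hE : ∃ n : ℕ, 1 ≤ n ∧ ∀ x ∈ DD F hF d, x ^ n = 1 := exists_pow hF hd1 hd hfg
  refine ⟨Nat.find hE, (Nat.find_spec hE).1, fun p hp hpn => ?_, (Nat.find_spec hE).2⟩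
  by_contra hb
  obtain ⟨k, hk⟩ := hpn
  have h1 := Nat.find_spec hE
  have hk1 : 1 ≤ k := by
    rcases Nat.eq_zero_or_pos k with h | h
    · rw [h, mul_zero] at hk
      omega
    · exact h
  have hlt : k < Nat.find hE := by
    rw [hk]
    exact lt_mul_of_one_lt_left hk1 hp.one_lt
  refine Nat.find_min hE hlt ⟨hk1, fun x hx => hs p hp hb _ (pow_mem hx k) ?_⟩
  rw [← pow_mul, mul_comm, ← hk]
  exact h1.2 x hx

end group

section links

/-- no torsion in the degrees 1, 2, 3, in terms of the group of string links modulo C_d-equivalence -/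
theorem FF_torsionFree {m d : ℕ} (hd : 1 ≤ d) {G : Type} [Group G] (π : (sys m).Quo d G) {k : ℕ} (hk : 1 ≤ k)
    (hk4 : k < 4) {x : G} (hx : x ∈ π.FF k) {n : ℕ} (hn : 1 ≤ n) (hxn : x ^ n ∈ π.FF (k + 1)) : x ∈ π.FF (k + 1) := by
  have htf : (sys m).TorsionFree k := by
    have h3 : k = 1 ∨ k = 2 ∨ k = 3 := by omega
    rcases h3 with rfl | rfl | rfl
    · exact torsionFree1 (Inv1_all m)
    · exact torsionFree2 (Inv2c_all m) (Inv2d_all m) (Inv2e_all m)
    · exact torsionFree3 (Inv3_all m) (gen3 m)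
  by_cases hkd : k + 1 ≤ d
  · obtain ⟨y, hy, rfl, hy1⟩ := π.exists_of_mem hd (by omega) hx
    have hpow : ∀ j : ℕ, π.cls (y ^ j) = π.cls y ^ j := by
      intro j
      induction j with
      | zero => rw [pow_zero, pow_zero, π.cls_one]
      | succ j ih => rw [pow_succ, pow_succ, π.cls_mul _ _ (hy.pow j) hy, ih]
    rw [← hpow] at hxn
    rw [π.mem_FF_iff hd (by omega) hkd (hy.pow n)] at hxn
    rw [π.mem_FF_iff hd (by omega) hkd hy]
    exact htf y hy hy1 n hn hxn
  · have h1 : π.FF k = ⊥ := π.FF_bot (by omega)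
    rw [h1, Subgroup.mem_bot] at hx
    rw [hx]
    exact one_mem _

/-- from an exponent of the elements which are not separated from 1 to string links -/
theorem ExpM_of {m d : ℕ} {G : Type} [Group G] (π : (sys m).Quo d G) (hd : 1 ≤ d) {n : ℕ}
    (hnx : ∀ x ∈ DD π.FF (π.FF_filt hd) d, x ^ n = 1) : ExpM m d n := by
  intro x y z hx hy hz h hyz
  have hx' := (sys_IsCl m x).2 hx
  have hy' := (sys_IsCl m y).2 hy
  have hz' := (sys_IsCl m z).2 hz
  rw [← sys_Ceq] at hyz ⊢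
  have h1 := CSys.mem_DD_of_FT hd π d x y hx' hy' fun A _ v hv => h A v (FiniteType_of_FT hv)
  have h2 : π.cls z = (π.cls y)⁻¹ := by
    have h3 := π.cls_eq (hy'.mul hz') hyz
    rw [π.cls_mul _ _ hy' hz', π.cls_one] at h3
    exact eq_inv_of_mul_eq_one_right h3
  rw [← h2, ← π.cls_mul _ _ hx' hz'] at h1
  have hw := hx'.mul hz'
  have hpow : ∀ j : ℕ, π.cls ((x * z) ^ j) = π.cls (x * z) ^ j := by
    intro j
    induction j with
    | zero => rw [pow_zero, pow_zero, π.cls_one]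
    | succ j ih => rw [pow_succ, pow_succ, π.cls_mul _ _ (hw.pow j) hw, ih]
  have h3 := hnx _ h1
  rw [← hpow, ← π.cls_one] at h3
  exact (π.eq_iff _ _ (hw.pow n) (CSys.isCl_one _)).1 h3

/-- string links which agree on the finite type invariants of degree < d, for a fixed number of components -/
theorem links_of {m d : ℕ} (hd : 1 ≤ d) (bad : ℕ → Prop)
    (hs : ∀ (G : Type) [Group G] (π : (sys m).Quo d G) (p : ℕ), p.Prime → ¬ bad p →
      ∀ x ∈ DD π.FF (π.FF_filt hd) d, x ^ p = 1 → x = 1) :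
    ∃ n : ℕ, 1 ≤ n ∧ (∀ p : ℕ, p.Prime → p ∣ n → bad p) ∧ ExpM m d n := by
  obtain ⟨G, iG, ⟨π⟩⟩ := (sys m).exists_quo hd
  obtain ⟨n, hn, hnp, hnx⟩ := exists_exp (π.FF_filt hd) hd (π.FF_bot le_rfl) (fun k hk hkd => FF_fg' π k hk hkd) bad
    (hs G π)
  exact ⟨n, hn, hnp, ExpM_of π hd hnx⟩

end links

end SLC
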