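import Pool.Agent.SLC.Spr4
import Pool.Agent.SLC.Spr5

/-!
Small primes: the theorem on string links, from the abstract theorem on groups with a filtration.
-/

set_option autoImplicit false

namespace SLC

/-- the abstract theorem: an element of order p which is not separated from 1 is trivial if there is no torsion in the
degrees < j and d <= p j + e -/
def SmallStmt (e : ℕ) : Prop := ∀ (G : Type) [Group G] (F : ℕ → Subgroup G) (hF : Filt F) (d j p : ℕ), 1 ≤ d →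
  F d = ⊥ → p.Prime → 1 ≤ j → d ≤ p * j + e →
  (∀ k, 1 ≤ k → k < d → ∃ S : Finset G, (∀ s ∈ S, s ∈ F k) ∧ F k ≤ Subgroup.closure (S : Set G) ⊔ F (k + 1)) →
  (∀ k, 1 ≤ k → k < j → ∀ x ∈ F k, ∀ n : ℕ, 1 ≤ n → x ^ n ∈ F (k + 1) → x ∈ F (k + 1)) →
  ∀ x ∈ DD F hF d, x ^ p = 1 → x = 1

/-- inverses modulo C_d-equivalence -/
theorem exists_inverse {m d : ℕ} (hd : 1 ≤ d) {y : Tangle} (hy : IsStringLink m y) :
    ∃ z, IsStringLink m z ∧ CEquiv m d (y * z) 1 ∧ CEquiv m d (z * y) 1 := by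
  obtain ⟨G, iG, ⟨π⟩⟩ := (sys m).exists_quo hd
  have hy' := (sys_IsCl m y).2 hy
  obtain ⟨z, hz, hzy⟩ := CSys.exists_left_inv hd hy'
  refine ⟨z, (sys_IsCl m z).1 hz, ?_, by rw [← sys_Ceq]; exact hzy⟩
  rw [← sys_Ceq]
  have h1 := π.cls_eq (hz.mul hy') hzy
  rw [π.cls_mul _ _ hz hy', π.cls_one] at h1
  have h2 : π.cls (y * z) = π.cls 1 := by
    rw [π.cls_mul _ _ hy' hz, π.cls_one, eq_inv_of_mul_eq_one_left h1, mul_inv_cancel]
  exact (π.eq_iff _ _ (hy'.mul hz) (CSys.isCl_one _)).1 h2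

theorem small_links_of {e : ℕ} (h : SmallStmt e) {d : ℕ} (hd : 1 ≤ d) :
    ∃ n : ℕ, 1 ≤ n ∧ (∀ p : ℕ, p.Prime → p ∣ n → 4 * p + e < d) ∧ ∀ m, ExpM m d n := by
  refine exp_uniform hd (fun p => 4 * p + e < d) fun m => ?_
  refine links_of hd (fun p => 4 * p + e < d) fun G _ π p hp hb x hx hxp => ?_
  exact h G π.FF (π.FF_filt hd) d 4 p hd (π.FF_bot le_rfl) hp (by omega) (by omega)
    (fun k hk hkd => FF_fg' π k hk hkd) (fun k hk hk4 x hx n hn hxn => FF_torsionFree hd π hk hk4 hx hn hxn) x hx hxp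

/-- string links which agree on all finite type invariants of degree < d differ by an element whose order modulo
C_d-equivalence has small prime divisors only -/
theorem small_primes_of {e : ℕ} (h : SmallStmt e) (d : ℕ) (hd : 1 ≤ d) :
    ∃ n : ℕ, 1 ≤ n ∧ (∀ p : ℕ, p.Prime → p ∣ n → 4 * p + e < d) ∧
      ∀ (m : ℕ) (x y : Tangle), IsStringLink m x → IsStringLink m y →
        (∀ (A : Type) [AddCommGroup A] (v : Tangle → A), FiniteType m d v → v x = v y) →
        ∃ z : Tangle, IsStringLink m z ∧ CEquiv m d (y * z) 1 ∧ CEquiv m d ((x * z) ^ n) 1 := by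
  obtain ⟨n, hn, hnp, hA⟩ := small_links_of h hd
  refine ⟨n, hn, hnp, fun m x y hx hy hv => ?_⟩
  obtain ⟨z, hz, hyz, -⟩ := exists_inverse hd hy
  exact ⟨z, hz, hyz, hA m x y z hx hy hz hv hyz⟩

/-- in degrees without small primes the links are C_d-equivalent -/
theorem small_primes_one_of {e : ℕ} (h : SmallStmt e) {d : ℕ} (hd : 1 ≤ d) (hd8 : d ≤ 8 + e) {m : ℕ} {x y : Tangle}
    (hx : IsStringLink m x) (hy : IsStringLink m y)
    (hv : ∀ (A : Type) [AddCommGroup A] (v : Tangle → A), FiniteType m d v → v x = v y) : CEquiv m d x y := by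
  obtain ⟨n, hn, hnp, hA⟩ := small_links_of h hd
  have h1 : n = 1 := by
    by_contra hne
    obtain ⟨p, hp, hpn⟩ := Nat.exists_prime_and_dvd hne
    have := hnp p hp hpn
    have := hp.two_le
    omega
  subst h1
  obtain ⟨z, hz, hyz, hzy⟩ := exists_inverse hd hy
  have h2 := hA m x y z hx hy hz hv hyz
  rw [pow_one] at h2
  rw [← sys_Ceq] at h2 hyz hzy ⊢
  have hx' := (sys_IsCl m x).2 hx
  have hy' := (sys_IsCl m y).2 hy
  have h3 := CSys.Ceq.mul_right h2 hy'
  rw [one_mul, mul_assoc] at h3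
  have h4 := CSys.Ceq.mul_left hzy hx'
  rw [mul_one] at h4
  exact h4.symm.trans h3

theorem smallStmt : SmallStmt 0 := fun _ _ _ hF _ _ _ hd1 hd hp hj hpd hfg htf _ hx hxp =>
  small hF hd1 hd hp hj hpd hfg htf hx hxp

theorem small_primes (d : ℕ) (hd : 1 ≤ d) :
    ∃ n : ℕ, 1 ≤ n ∧ (∀ p : ℕ, p.Prime → p ∣ n → 4 * p < d) ∧
      ∀ (m : ℕ) (x y : Tangle), IsStringLink m x → IsStringLink m y →
        (∀ (A : Type) [AddCommGroup A] (v : Tangle → A), FiniteType m d v → v x = v y) →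
        ∃ z : Tangle, IsStringLink m z ∧ CEquiv m d (y * z) 1 ∧ CEquiv m d ((x * z) ^ n) 1 :=
  small_primes_of smallStmt d hd

end SLC
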