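import Pool.Agent.SLC.Sj4
import Pool.Agent.SLC.Spr7

/-!
An explicit exponent for the string links which are not detected by finite type invariants of degree < d.
-/

set_option autoImplicit false

namespace SLC

/-- number of doublings -/
def Td (d : ℕ) : ℕ := Nat.clog 2 ((d + 7) / 8)

theorem Td_spec (d : ℕ) : d ≤ 4 * 2 ^ (Td d + 1) := by
  have h := Nat.le_pow_clog (b := 2) (by norm_num) ((d + 7) / 8)
  have h2 : (d + 7) / 8 ≤ 2 ^ Td d := h
  rw [pow_succ]
  omega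

theorem explicit (d : ℕ) (hd : 1 ≤ d) (m : ℕ) (x y : Tangle) (hx : IsStringLink m x) (hy : IsStringLink m y)
    (hv : ∀ (A : Type) [AddCommGroup A] (v : Tangle → A), FiniteType m d v → v x = v y) :
    ∃ z : Tangle, IsStringLink m z ∧ CEquiv m d (y * z) 1 ∧
      CEquiv m d ((x * z) ^ ∏ s ∈ Finset.range (Nat.clog 2 ((d + 7) / 8)),
        (Finset.Icc 1 ((d - 1) / (4 * 2 ^ s))).lcm id) 1 := by
  obtain ⟨G, iG, ⟨π⟩⟩ := (sys m).exists_quo hd
  obtain ⟨z, hz, hyz, -⟩ := exists_inverse hd hy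
  refine ⟨z, hz, hyz, ?_⟩
  exact ExpM_of π hd (fun w hw => sjo1 (π.FF_filt hd) hd (π.FF_bot le_rfl) (j := 4) (by norm_num) (Td_spec d)
    (fun k hk hkd => FF_fg' π k hk hkd) (fun k hk hk4 x hx n hn hxn => FF_torsionFree hd π hk hk4 hx hn hxn) hw)
    x y z hx hy hz hv hyz

end SLC
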