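import Mathlib

/-!
Polynomial functions of one and two variables with values in an abelian group on which the integers 1, ..., c - 1 act
bijectively: the linear coefficient, and its additivity.
-/

set_option autoImplicit false

namespace SLC

/-- the integers 1, ..., c - 1 act bijectively on A -/
structure Bij (c : ℕ) (A : Type) [AddCommGroup A] : Prop where
  inj : ∀ i : ℕ, 1 ≤ i → i < c → ∀ a : A, i • a = 0 → a = 0
  surj : ∀ i : ℕ, 1 ≤ i → i < c → ∀ a : A, ∃ b, i • b = a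

variable {c : ℕ} {A : Type} [AddCommGroup A]

theorem Bij.fac (hA : Bij c A) {i : ℕ} (hi : i < c) (a : A) : ∃ b, (i.factorial : ℤ) • b = a := by
  induction i generalizing a with
  | zero => exact ⟨a, by simp⟩
  | succ i ih =>
    obtain ⟨b, hb⟩ := ih (by omega) a
    obtain ⟨b', hb'⟩ := hA.surj (i + 1) (by omega) hi b
    refine ⟨b', ?_⟩
    rw [Nat.factorial_succ, Nat.cast_mul, mul_comm, mul_smul, natCast_zsmul b' (i + 1), hb', hb]

open Finset in
theorem coeff_zero (hA : Bij c A) (a : ℕ → A) (h : ∀ n : ℕ, ∑ s ∈ range c, ((n : ℤ) ^ s) • a s = 0) :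
    ∀ s < c, a s = 0 := by
  intro t ht
  let V : Matrix (Fin c) (Fin c) ℤ := Matrix.vandermonde fun i => (i : ℤ)
  have hdet : V.det • a t = 0 := by
    have h1 : ∀ n : Fin c, ∑ s : Fin c, V n s • a s = 0 := by
      intro n
      have := h n
      rw [Finset.sum_range] at this
      exact this
    have h2 : ∑ n : Fin c, V.adjugate ⟨t, ht⟩ n • ∑ s : Fin c, V n s • a s = 0 :=
      Finset.sum_eq_zero fun n _ => by rw [h1, smul_zero]
    simp only [Finset.smul_sum, smul_smul] at h2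
    rw [Finset.sum_comm] at h2
    simp only [← Finset.sum_smul] at h2
    have h3 : ∀ s : Fin c, ∑ n : Fin c, V.adjugate ⟨t, ht⟩ n * V n s = if (⟨t, ht⟩ : Fin c) = s then V.det else 0 := by
      intro s
      have h4 := congrFun (congrFun (Matrix.adjugate_mul V) ⟨t, ht⟩) s
      rw [Matrix.mul_apply, Matrix.smul_apply, Matrix.one_apply] at h4
      rw [h4]
      split_ifs <;> simp
    simp only [h3] at h2
    rw [Finset.sum_eq_single (⟨t, ht⟩ : Fin c)] at h2
    · rwa [if_pos rfl] at h2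
    · intro b _ hb
      rw [if_neg (Ne.symm hb), zero_smul]
    · intro hn
      exact absurd (Finset.mem_univ _) hn
  let S : Submonoid ℤ :=
    { carrier := {z | ∀ b : A, z • b = 0 → b = 0}
      mul_mem' := by
        intro x y hx hy b hb
        rw [mul_smul] at hb
        exact hy b (hx _ hb)
      one_mem' := by
        intro b hb
        rwa [one_smul] at hb }
  have hS : V.det ∈ S := by
    rw [Matrix.det_vandermonde]
    refine Submonoid.prod_mem _ fun i _ => Submonoid.prod_mem _ fun j hj => ?_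
    intro b hb
    have hij0 : i < j := Finset.mem_Ioi.1 hj
    have hij : (i : ℕ) < j := hij0
    have e : ((j : ℕ) : ℤ) - ((i : ℕ) : ℤ) = (((j : ℕ) - i : ℕ) : ℤ) := by
      rw [Nat.cast_sub hij.le]
    rw [e, natCast_zsmul] at hb
    exact hA.inj _ (by omega) (by omega) b hb
  exact hS _ hdet

/-- polynomial functions of degree < c -/
def Rc (c : ℕ) (A : Type) [AddCommGroup A] : AddSubgroup (ℕ → A) where
  carrier := {g | ∃ a : ℕ → A, ∀ n : ℕ, g n = ∑ s ∈ Finset.range c, ((n : ℤ) ^ s) • a s}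
  add_mem' := by
    rintro g g' ⟨a, ha⟩ ⟨a', ha'⟩
    refine ⟨a + a', fun n => ?_⟩
    rw [Pi.add_apply, ha, ha', ← Finset.sum_add_distrib]
    exact Finset.sum_congr rfl fun s _ => by rw [Pi.add_apply, smul_add]
  zero_mem' := ⟨0, fun n => by simp⟩
  neg_mem' := by
    rintro g ⟨a, ha⟩
    refine ⟨-a, fun n => ?_⟩
    rw [Pi.neg_apply, ha, ← Finset.sum_neg_distrib]
    exact Finset.sum_congr rfl fun s _ => by rw [Pi.neg_apply, smul_neg]

open Classical in
/-- the linear coefficient -/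
noncomputable def Dc (c : ℕ) (g : ℕ → A) : A :=
  if h : ∃ a : ℕ → A, ∀ n : ℕ, g n = ∑ s ∈ Finset.range c, ((n : ℤ) ^ s) • a s then h.choose 1 else 0

theorem Dc_eq (hA : Bij c A) (hc : 1 < c) {g : ℕ → A} {a : ℕ → A}
    (h : ∀ n : ℕ, g n = ∑ s ∈ Finset.range c, ((n : ℤ) ^ s) • a s) : Dc c g = a 1 := by
  have h0 : ∃ a : ℕ → A, ∀ n : ℕ, g n = ∑ s ∈ Finset.range c, ((n : ℤ) ^ s) • a s := ⟨a, h⟩
  rw [Dc, dif_pos h0]
  have h1 := h0.choose_spec
  have h2 := coeff_zero hA (h0.choose - a) (fun n => by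
    simp only [Pi.sub_apply, smul_sub]
    rw [Finset.sum_sub_distrib, ← h1 n, ← h n, sub_self]) 1 hc
  exact sub_eq_zero.1 h2

theorem Dc_add (hA : Bij c A) (hc : 1 < c) {g g' : ℕ → A} (hg : g ∈ Rc c A) (hg' : g' ∈ Rc c A) :
    Dc c (g + g') = Dc c g + Dc c g' := by
  obtain ⟨a, ha⟩ := hg
  obtain ⟨a', ha'⟩ := hg'
  rw [Dc_eq hA hc ha, Dc_eq hA hc ha', Dc_eq (a := a + a') hA hc, Pi.add_apply]
  intro n
  rw [Pi.add_apply, ha, ha', ← Finset.sum_add_distrib]
  exact Finset.sum_congr rfl fun s _ => by rw [Pi.add_apply, smul_add]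

theorem Dc_zero (hA : Bij c A) (hc : 1 < c) : Dc c (0 : ℕ → A) = 0 :=
  Dc_eq (a := 0) hA hc fun n => by simp

theorem Dc_neg (hA : Bij c A) (hc : 1 < c) {g : ℕ → A} (hg : g ∈ Rc c A) : Dc c (-g) = - Dc c g := by
  have h := Dc_add hA hc hg (neg_mem hg)
  rw [add_neg_cancel, Dc_zero hA hc] at h
  exact (neg_eq_of_add_eq_zero_right h.symm).symm

theorem Dc_zsmul (hA : Bij c A) (hc : 1 < c) {g : ℕ → A} (hg : g ∈ Rc c A) (z : ℤ) : Dc c (z • g) = z • Dc c g := by
  obtain ⟨a, ha⟩ := hg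
  rw [Dc_eq hA hc ha, Dc_eq (a := z • a) hA hc, Pi.smul_apply]
  intro n
  rw [Pi.smul_apply, ha, Finset.smul_sum]
  exact Finset.sum_congr rfl fun s _ => by rw [Pi.smul_apply, smul_comm]

theorem Dc_sum (hA : Bij c A) (hc : 1 < c) {ι : Type} (s : Finset ι) (z : ι → ℤ) (g : ι → ℕ → A)
    (hg : ∀ i ∈ s, g i ∈ Rc c A) : (∑ i ∈ s, z i • g i) ∈ Rc c A ∧ Dc c (∑ i ∈ s, z i • g i) = ∑ i ∈ s, z i • Dc c (g i) := by
  classical
  induction s using Finset.induction_on with
  | empty =>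
    rw [Finset.sum_empty, Finset.sum_empty]
    exact ⟨zero_mem _, Dc_zero hA hc⟩
  | insert i s hi ih =>
    obtain ⟨h1, h2⟩ := ih fun j hj => hg j (Finset.mem_insert_of_mem hj)
    have h3 := hg i (Finset.mem_insert_self i s)
    rw [Finset.sum_insert hi, Finset.sum_insert hi]
    refine ⟨add_mem (zsmul_mem h3 _) h1, ?_⟩
    rw [Dc_add hA hc (zsmul_mem h3 _) h1, h2, Dc_zsmul hA hc h3]

theorem Dc_poly (hA : Bij c A) (hc : 1 < c) {P : Polynomial ℤ} (hP : P.natDegree < c) (b : A) :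
    (fun n : ℕ => (P.eval (n : ℤ)) • b) ∈ Rc c A ∧ Dc c (fun n : ℕ => (P.eval (n : ℤ)) • b) = P.coeff 1 • b := by
  have h : ∀ n : ℕ, (P.eval (n : ℤ)) • b = ∑ s ∈ Finset.range c, ((n : ℤ) ^ s) • (P.coeff s • b) := by
    intro n
    rw [Polynomial.eval_eq_sum_range' hP, Finset.sum_smul]
    exact Finset.sum_congr rfl fun s _ => by rw [mul_comm, mul_smul]
  exact ⟨⟨_, h⟩, Dc_eq hA hc h⟩

theorem Dc_lin (hA : Bij c A) (hc : 1 < c) (b : A) :
    (fun n : ℕ => n • b) ∈ Rc c A ∧ Dc c (fun n : ℕ => n • b) = b := by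
  have h := Dc_poly hA hc (P := Polynomial.X) (by simpa using hc) b
  simp only [Polynomial.eval_X, Polynomial.coeff_X_one, one_smul, natCast_zsmul] at h
  exact h

theorem Dc_const (hA : Bij c A) (hc : 1 < c) (b : A) : (fun _ : ℕ => b) ∈ Rc c A ∧ Dc c (fun _ : ℕ => b) = 0 := by
  have h := Dc_poly hA hc (P := 1) (by simp; omega) b
  simp only [Polynomial.eval_one, one_smul, Polynomial.coeff_one] at h
  simpa using h

theorem Dc_scale (hA : Bij c A) (hc : 1 < c) {g : ℕ → A} (hg : g ∈ Rc c A) (m : ℕ) :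
    Dc c (fun n => g (m * n)) = m • Dc c g := by
  obtain ⟨a, ha⟩ := hg
  rw [Dc_eq hA hc ha, Dc_eq (a := fun s => ((m : ℤ) ^ s) • a s) hA hc, pow_one, natCast_zsmul]
  intro n
  rw [ha]
  exact Finset.sum_congr rfl fun s _ => by rw [smul_smul, Nat.cast_mul, mul_pow, mul_comm]

/-- products of two binomial coefficients -/
theorem Dc_choose (hA : Bij c A) (hc : 1 < c) {i l : ℕ} (h : i + l < c) (b : A) :
    (fun n : ℕ => (n.choose i * n.choose l) • b) ∈ Rc c A ∧
      (1 ≤ i → 1 ≤ l → Dc c (fun n : ℕ => (n.choose i * n.choose l) • b) = 0) := by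
  obtain ⟨b₁, hb₁⟩ := hA.fac (i := i) (by omega) b
  obtain ⟨b₂, hb₂⟩ := hA.fac (i := l) (by omega) b₁
  have e : ∀ n : ℕ, (n.choose i * n.choose l) • b = ((descPochhammer ℤ i * descPochhammer ℤ l).eval (n : ℤ)) • b₂ := by
    intro n
    rw [Polynomial.eval_mul, descPochhammer_eval_eq_descFactorial, descPochhammer_eval_eq_descFactorial,
      Nat.descFactorial_eq_factorial_mul_choose, Nat.descFactorial_eq_factorial_mul_choose, ← hb₁, ← hb₂,
      ← natCast_zsmul, smul_smul, smul_smul]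
    congr 1
    push_cast
    ring
  have hdeg : (descPochhammer ℤ i * descPochhammer ℤ l).natDegree < c := by
    refine lt_of_le_of_lt Polynomial.natDegree_mul_le ?_
    rw [descPochhammer_natDegree, descPochhammer_natDegree]
    exact h
  obtain ⟨h1, h2⟩ := Dc_poly hA hc hdeg b₂
  have e' : (fun n : ℕ => (n.choose i * n.choose l) • b) =
      fun n : ℕ => ((descPochhammer ℤ i * descPochhammer ℤ l).eval (n : ℤ)) • b₂ := funext e
  rw [e']
  refine ⟨h1, fun hi hl => ?_⟩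
  rw [h2]
  have h3 : ∀ s : ℕ, 1 ≤ s → (descPochhammer ℤ s).coeff 0 = 0 := by
    intro s hs
    rw [Polynomial.coeff_zero_eq_eval_zero, descPochhammer_ne_zero_eval_zero _ (by omega)]
  have h4 : (descPochhammer ℤ i * descPochhammer ℤ l).coeff 1 = 0 := by
    rw [Polynomial.mul_coeff_one, h3 i hi, h3 l hl]
    simp
  rw [h4, zero_smul]

/-- polynomial functions of two variables of total degree < c -/
def Qc (c : ℕ) (A : Type) [AddCommGroup A] : AddSubgroup (ℕ → ℕ → A) :=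
  AddSubgroup.closure {Φ | ∃ (i l : ℕ) (b : A), i + l < c ∧ Φ = fun n m => (n.choose i * m.choose l) • b}

theorem Qc_gen {i l : ℕ} (h : i + l < c) (b : A) : (fun n m => (n.choose i * m.choose l) • b) ∈ Qc c A :=
  AddSubgroup.subset_closure ⟨i, l, b, h, rfl⟩

/-- the linear coefficient along the diagonal -/
theorem Dc_diag (hA : Bij c A) (hc : 1 < c) {Φ : ℕ → ℕ → A} (hΦ : Φ ∈ Qc c A) :
    (fun n => Φ n n) ∈ Rc c A ∧ (fun n => Φ n 0) ∈ Rc c A ∧ (fun n => Φ 0 n) ∈ Rc c A ∧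
      Dc c (fun n => Φ n n) = Dc c (fun n => Φ n 0) + Dc c (fun n => Φ 0 n) := by
  induction hΦ using AddSubgroup.closure_induction with
  | mem Φ hΦ =>
    obtain ⟨i, l, b, hil, rfl⟩ := hΦ
    obtain ⟨h1, h2⟩ := Dc_choose hA hc hil b
    have h3 : (fun n : ℕ => (n.choose i * Nat.choose 0 l) • b) ∈ Rc c A ∧
        (1 ≤ l → (fun n : ℕ => (n.choose i * Nat.choose 0 l) • b) = 0) := by
      rcases l with _ | l
      · refine ⟨?_, fun h => absurd h (by omega)⟩
        have := (Dc_choose hA hc (i := i) (l := 0) (by omega) b).1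
        simpa using this
      · have e : (fun n : ℕ => (n.choose i * Nat.choose 0 (l + 1)) • b) = 0 := by
          funext n
          simp
        exact ⟨by rw [e]; exact zero_mem _, fun _ => e⟩
    have h4 : (fun n : ℕ => (Nat.choose 0 i * n.choose l) • b) ∈ Rc c A ∧
        (1 ≤ i → (fun n : ℕ => (Nat.choose 0 i * n.choose l) • b) = 0) := by
      rcases i with _ | i
      · refine ⟨?_, fun h => absurd h (by omega)⟩
        have := (Dc_choose hA hc (i := 0) (l := l) (by omega) b).1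
        simpa using this
      · have e : (fun n : ℕ => (Nat.choose 0 (i + 1) * n.choose l) • b) = 0 := by
          funext n
          simp
        exact ⟨by rw [e]; exact zero_mem _, fun _ => e⟩
    refine ⟨h1, h3.1, h4.1, ?_⟩
    rcases Nat.eq_zero_or_pos i with hi | hi
    · rcases Nat.eq_zero_or_pos l with hl | hl
      · subst hi
        subst hl
        have h5 := (Dc_const hA hc b).2
        simp only [Nat.choose_zero_right, mul_one, one_smul]
        rw [h5, add_zero]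
      · rw [h3.2 hl, Dc_zero hA hc, zero_add]
        subst hi
        simp only [Nat.choose_zero_right, one_mul, Nat.choose_self]
    · rcases Nat.eq_zero_or_pos l with hl | hl
      · rw [h4.2 hi, Dc_zero hA hc, add_zero]
        subst hl
        simp only [Nat.choose_zero_right, mul_one, Nat.choose_self]
      · rw [h2 hi hl, h3.2 hl, h4.2 hi, Dc_zero hA hc, add_zero]
  | zero =>
    refine ⟨zero_mem _, zero_mem _, zero_mem _, ?_⟩
    change Dc c (0 : ℕ → A) = Dc c (0 : ℕ → A) + Dc c (0 : ℕ → A)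
    rw [Dc_zero hA hc, add_zero]
  | add Φ Ψ _ _ h h' =>
    obtain ⟨a1, a2, a3, a4⟩ := h
    obtain ⟨b1, b2, b3, b4⟩ := h'
    refine ⟨add_mem a1 b1, add_mem a2 b2, add_mem a3 b3, ?_⟩
    change Dc c ((fun n => Φ n n) + fun n => Ψ n n) = Dc c ((fun n => Φ n 0) + fun n => Ψ n 0) +
      Dc c ((fun n => Φ 0 n) + fun n => Ψ 0 n)
    rw [Dc_add hA hc a1 b1, Dc_add hA hc a2 b2, Dc_add hA hc a3 b3, a4, b4]
    abel
  | neg Φ _ h =>
    obtain ⟨a1, a2, a3, a4⟩ := h
    refine ⟨neg_mem a1, neg_mem a2, neg_mem a3, ?_⟩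
    change Dc c (-(fun n => Φ n n)) = Dc c (-(fun n => Φ n 0)) + Dc c (-(fun n => Φ 0 n))
    rw [Dc_neg hA hc a1, Dc_neg hA hc a2, Dc_neg hA hc a3, a4]
    abel

/-- summation in the first variable -/
theorem Qc_int {Ψ : ℕ → ℕ → A} (hΨ : Ψ ∈ Qc c A) : ∃ Φ ∈ Qc (c + 1) A, (∀ m, Φ 0 m = 0) ∧
    ∀ n m, Φ (n + 1) m = Φ n m + Ψ n m := by
  induction hΨ using AddSubgroup.closure_induction with
  | mem Ψ hΨ =>
    obtain ⟨i, l, b, hil, rfl⟩ := hΨ
    refine ⟨_, Qc_gen (i := i + 1) (l := l) (by omega) b, fun m => by simp, fun n m => ?_⟩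
    simp only []
    rw [Nat.choose_succ_succ', add_mul, add_smul, add_comm]
  | zero => exact ⟨0, zero_mem _, fun _ => rfl, fun _ _ => by simp⟩
  | add Ψ Ψ' _ _ h h' =>
    obtain ⟨Φ, h1, h2, h3⟩ := h
    obtain ⟨Φ', h1', h2', h3'⟩ := h'
    refine ⟨Φ + Φ', add_mem h1 h1', fun m => by simp [h2, h2'], fun n m => ?_⟩
    simp only [Pi.add_apply, h3, h3']
    abel
  | neg Ψ _ h =>
    obtain ⟨Φ, h1, h2, h3⟩ := h
    refine ⟨-Φ, neg_mem h1, fun m => by simp [h2], fun n m => ?_⟩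
    simp only [Pi.neg_apply, h3]
    abel

/-- summation in the second variable, on the line n = 0 -/
theorem Qc_int' {Ψ : ℕ → ℕ → A} (hΨ : Ψ ∈ Qc c A) : ∃ Φ ∈ Qc (c + 1) A, (∀ n, Φ n 0 = 0) ∧
    ∀ n m, Φ n (m + 1) = Φ n m + Ψ 0 m := by
  induction hΨ using AddSubgroup.closure_induction with
  | mem Ψ hΨ =>
    obtain ⟨i, l, b, hil, rfl⟩ := hΨ
    rcases i with _ | i
    · refine ⟨_, Qc_gen (i := 0) (l := l + 1) (by omega) b, fun m => by simp, fun n m => ?_⟩
      simp only [Nat.choose_zero_right, one_mul]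
      rw [Nat.choose_succ_succ', add_smul, add_comm]
    · exact ⟨0, zero_mem _, fun _ => rfl, fun _ _ => by simp⟩
  | zero => exact ⟨0, zero_mem _, fun _ => rfl, fun _ _ => by simp⟩
  | add Ψ Ψ' _ _ h h' =>
    obtain ⟨Φ, h1, h2, h3⟩ := h
    obtain ⟨Φ', h1', h2', h3'⟩ := h'
    refine ⟨Φ + Φ', add_mem h1 h1', fun m => by simp [h2, h2'], fun n m => ?_⟩
    simp only [Pi.add_apply, h3, h3']
    abel
  | neg Ψ _ h =>
    obtain ⟨Φ, h1, h2, h3⟩ := h
    refine ⟨-Φ, neg_mem h1, fun m => by simp [h2], fun n m => ?_⟩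
    simp only [Pi.neg_apply, h3]
    abel

theorem Qc_of_diff {Φ Ψ Ψ' : ℕ → ℕ → A} (hΨ : Ψ ∈ Qc c A) (hΨ' : Ψ' ∈ Qc c A)
    (h1 : ∀ n m, Φ (n + 1) m = Φ n m + Ψ n m) (h2 : ∀ m, Φ 0 (m + 1) = Φ 0 m + Ψ' 0 m) : Φ ∈ Qc (c + 1) A := by
  obtain ⟨Θ, a1, a2, a3⟩ := Qc_int hΨ
  obtain ⟨Θ', b1, b2, b3⟩ := Qc_int' hΨ'
  have h3 : (fun _ _ => Φ 0 0 : ℕ → ℕ → A) ∈ Qc (c + 1) A := by
    have := Qc_gen (c := c + 1) (i := 0) (l := 0) (by omega) (Φ 0 0)
    simpa using this
  have e0 : ∀ n m, Θ' n m = Θ' 0 m := by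
    intro n m
    induction m with
    | zero => rw [b2, b2]
    | succ m ih => rw [b3, b3, ih]
  have e1 : ∀ m, Φ 0 m = Φ 0 0 + Θ' 0 m := by
    intro m
    induction m with
    | zero => rw [b2, add_zero]
    | succ m ih => rw [h2, ih, b3, add_assoc]
  have e2 : ∀ n m, Φ n m = Φ 0 m + Θ n m := by
    intro n m
    induction n with
    | zero => rw [a2, add_zero]
    | succ n ih => rw [h1, ih, a3, add_assoc]
  have e3 : Φ = (fun _ _ => Φ 0 0 : ℕ → ℕ → A) + Θ' + Θ := by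
    funext n m
    rw [Pi.add_apply, Pi.add_apply, Pi.add_apply, Pi.add_apply, e2, e1, e0 n m]
  rw [e3]
  exact add_mem (add_mem h3 b1) a1

end SLC
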