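import Pool.Agent.SLC.Spr2

/-!
Extension of homogeneous maps from a subgroup of a filtered group to a larger subgroup, one generator at a time.
-/

set_option autoImplicit false

open scoped commutatorElement

namespace SLC

section

variable {G : Type} [Group G] {F : ℕ → Subgroup G} {A : Type} [AddCommGroup A]

/-- the filtration of G × ℤ -/
def Ft (F : ℕ → Subgroup G) (j i : ℕ) : Subgroup (G × Multiplicative ℤ) := (F i).prod (if i ≤ j then ⊤ else ⊥)

theorem mem_Ft {j i : ℕ} {x : G × Multiplicative ℤ} : x ∈ Ft F j i ↔ x.1 ∈ F i ∧ (j < i → x.2 = 1) := by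
  rw [Ft, Subgroup.mem_prod]
  refine and_congr_right fun _ => ?_
  split_ifs with h
  · exact ⟨fun _ h' => absurd h (by omega), fun _ => trivial⟩
  · rw [Subgroup.mem_bot]
    exact ⟨fun h' _ => h', fun h' => h' (by omega)⟩

theorem Ft_filt (hF : Filt F) {j : ℕ} (hj : 1 ≤ j) : Filt (Ft F j) where
  top := by
    rw [eq_top_iff]
    intro x _
    rw [mem_Ft, hF.top]
    exact ⟨trivial, fun h => absurd h (by omega)⟩
  zero := by
    rw [eq_top_iff]
    intro x _
    rw [mem_Ft, hF.zero]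
    exact ⟨trivial, fun h => absurd h (by omega)⟩
  anti i := by
    intro x hx
    rw [mem_Ft] at hx ⊢
    exact ⟨hF.anti i hx.1, fun h => hx.2 (by omega)⟩
  comm i k := by
    rw [Subgroup.commutator_le]
    intro x hx y hy
    rw [mem_Ft] at hx hy ⊢
    refine ⟨hF.comm i k (Subgroup.commutator_mem_commutator hx.1 hy.1), fun _ => ?_⟩
    rw [commutatorElement_def]
    change x.2 * y.2 * x.2⁻¹ * y.2⁻¹ = 1
    rw [mul_comm x.2 y.2, mul_assoc (y.2 * x.2), ← mul_inv_rev, mul_inv_cancel]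

/-- the retraction (h, n) ↦ h g^(-n) -/
def rt (g : G) (x : G × Multiplicative ℤ) : G := x.1 * (zpowersHom G g x.2)⁻¹

theorem rt_apply (g h : G) (n : ℤ) : rt g (h, Multiplicative.ofAdd n) = h * (g ^ n)⁻¹ := by
  rw [rt, zpowersHom_apply]
  rfl

theorem rt_cube (g : G) {j : ℕ} (hg : g ∈ F j) (hF : Filt F) {N : ℕ} {c : (Fin N → Bool) → G × Multiplicative ℤ}
    (hc : c ∈ HK N (Ft F j)) : (fun e => rt g (c e)) ∈ HK N F := by
  have h1 := HK_map (MonoidHom.fst G (Multiplicative ℤ)) (F := Ft F j) (F' := F) (fun i x hx => (mem_Ft.1 hx).1) hc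
  have h2 := HK_map ((zpowersHom G g).comp (MonoidHom.snd G (Multiplicative ℤ))) (F := Ft F j) (F' := F)
    (fun i x hx => by
      by_cases h : j < i
      · have := (mem_Ft.1 hx).2 h
        rw [MonoidHom.comp_apply]
        change zpowersHom G g x.2 ∈ F i
        rw [this, map_one]
        exact one_mem _
      · refine hF.antitone (by omega : i ≤ j) ?_
        change zpowersHom G g x.2 ∈ F j
        rw [zpowersHom_apply]
        exact zpow_mem hg _) hc
  exact mul_mem h1 (inv_mem h2)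

theorem conj_stable (hF : Filt F) {j : ℕ} (hj : 1 ≤ j) {K : Subgroup G} (hK : K ≤ F j) (hK' : F (j + 1) ≤ K) {x y : G}
    (hx : x ∈ F j) (hy : y ∈ K) : x * y * x⁻¹ ∈ K := by
  have h : ⁅x, y⁆ ∈ K := hK' (hF.antitone (by omega : j + 1 ≤ j + j)
    (hF.comm j j (Subgroup.commutator_mem_commutator hx (hK hy))))
  have e : x * y * x⁻¹ = ⁅x, y⁆ * y := by
    rw [commutatorElement_def]
    group
  rw [e]
  exact mul_mem h hy

/-- pairs (h, n) with h g^(-n) in K -/
def Ht (hF : Filt F) {j : ℕ} (hj : 1 ≤ j) {K : Subgroup G} (hK : K ≤ F j) (hK' : F (j + 1) ≤ K) {g : G}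
    (hg : g ∈ F j) : Subgroup (G × Multiplicative ℤ) where
  carrier := {x | rt g x ∈ K}
  one_mem' := by
    change rt g 1 ∈ K
    rw [rt]
    simp
  mul_mem' := by
    intro x y (hx : rt g x ∈ K) (hy : rt g y ∈ K)
    change rt g (x * y) ∈ K
    have hz : zpowersHom G g x.2 ∈ F j := by
      rw [zpowersHom_apply]
      exact zpow_mem hg _
    have h1 := conj_stable hF hj hK hK' hz hy
    have e : rt g (x * y) = rt g x * (zpowersHom G g x.2 * rt g y * (zpowersHom G g x.2)⁻¹) := by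
      rw [rt, rt, rt, Prod.fst_mul, Prod.snd_mul, map_mul]
      group
    rw [e]
    exact mul_mem hx h1
  inv_mem' := by
    intro x (hx : rt g x ∈ K)
    change rt g x⁻¹ ∈ K
    have hz : (zpowersHom G g x.2)⁻¹ ∈ F j := by
      rw [zpowersHom_apply]
      exact inv_mem (zpow_mem hg _)
    have h1 := conj_stable hF hj hK hK' hz (inv_mem hx)
    have e : rt g x⁻¹ = (zpowersHom G g x.2)⁻¹ * (rt g x)⁻¹ * (zpowersHom G g x.2)⁻¹⁻¹ := by
      rw [rt, rt, Prod.fst_inv, Prod.snd_inv, map_inv]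
      group
    rw [e]
    exact h1

section step

variable {c d j₀ j : ℕ}

/-- one generator -/
theorem ext_step (hA : Bij c A) (hc : 1 < c) (hdiv : ∀ z : ℤ, z ≠ 0 → ∀ b : A, ∃ a, z • a = b) (hF : Filt F)
    (hj₀ : 1 ≤ j₀) (hj : j₀ ≤ j) (hjd : j < d) (hcd : d ≤ c * j₀) {K : Subgroup G} (hK : K ≤ F j)
    (hK' : F (j + 1) ≤ K) {g : G} (hg : g ∈ F j) {f : G → A} (hf : PK F K d f) (hh : Hom1 K f) :
    ∃ (K₁ : Subgroup G) (f₁ : G → A), K ≤ K₁ ∧ g ∈ K₁ ∧ K₁ ≤ F j ∧ PK F K₁ d f₁ ∧ Hom1 K₁ f₁ ∧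
      ∀ x ∈ K, f₁ x = f x := by
  classical
  have hj1 : 1 ≤ j := by omega
  have hFt := Ft_filt hF hj1
  set H := Ht hF hj1 hK hK' hg with hH
  have hHm : ∀ x, x ∈ H ↔ rt g x ∈ K := fun x => Iff.rfl
  have hHF : ∀ x ∈ H, x ∈ Ft F j j₀ := by
    intro x hx
    rw [mem_Ft]
    refine ⟨hF.antitone hj ?_, fun h => absurd h (by omega)⟩
    have e : x.1 = rt g x * zpowersHom G g x.2 := by
      rw [rt]
      group
    rw [e, zpowersHom_apply]
    exact mul_mem (hK hx) (zpow_mem hg _)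
  -- the first extension to H
  have hr : PK (Ft F j) H d (fun x => f (rt g x)) := by
    intro c hc hcH
    exact hf _ (rt_cube g hg hF hc) fun e => hcH e
  have hpow : ∀ x ∈ H, (fun n : ℕ => f (rt g (x ^ n))) ∈ Rc c A := fun x hx =>
    PK.pow_mem hFt hA hc hj₀ hcd hr hx (hHF x hx)
  let f1 : G × Multiplicative ℤ → A := fun x => Dc c (fun n => f (rt g (x ^ n)))
  have hf1 : PK (Ft F j) H d f1 := by
    intro q hq hqH
    obtain ⟨h1, h2⟩ := Dc_sum hA hc Finset.univ (fun e : Fin d → Bool => sg e) (fun e n => f (rt g (q e ^ n)))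
      fun e _ => hpow _ (hqH e)
    have h3 : (∑ e : Fin d → Bool, sg e • fun n : ℕ => f (rt g (q e ^ n))) = 0 := by
      funext n
      rw [Finset.sum_apply, Pi.zero_apply]
      have := hr (q ^ n) (pow_mem hq n) fun e => pow_mem (hqH e) n
      exact this
    rw [h3, Dc_zero hA hc] at h2
    exact h2.symm
  have hh1 : Hom1 H f1 := by
    intro x hx m
    change Dc c (fun n => f (rt g ((x ^ m) ^ n))) = m • Dc c (fun n => f (rt g (x ^ n)))
    rw [← Dc_scale hA hc (hpow x hx) m]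
    congr 1
    funext n
    rw [pow_mul]
  have hK1 : ∀ x ∈ K, f1 (x, 1) = f x := by
    intro x hx
    have e : (fun n : ℕ => f (rt g ((x, (1 : Multiplicative ℤ)) ^ n))) = fun n => n • f x := by
      funext n
      rw [← hh x hx n, rt]
      congr 1
      rw [Prod.pow_fst, Prod.pow_snd, one_pow, map_one, inv_one, mul_one]
    change Dc c _ = _
    rw [e, (Dc_lin hA hc _).2]
  -- the powers of g in K
  let L : AddSubgroup ℤ :=
    { carrier := {n | g ^ n ∈ K}
      add_mem' := by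
        intro a b (ha : g ^ a ∈ K) (hb : g ^ b ∈ K)
        change g ^ (a + b) ∈ K
        rw [zpow_add]
        exact mul_mem ha hb
      zero_mem' := by
        change g ^ (0 : ℤ) ∈ K
        rw [zpow_zero]
        exact one_mem K
      neg_mem' := by
        intro a (ha : g ^ a ∈ K)
        change g ^ (-a) ∈ K
        rw [zpow_neg]
        exact inv_mem ha }
  obtain ⟨q, hq⟩ : ∃ q : ℤ, L = AddSubgroup.zmultiples q := by
    obtain ⟨q, hq⟩ := Int.subgroup_cyclic L
    exact ⟨q, by rw [hq, AddSubgroup.zmultiples_eq_closure]⟩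
  have hqL : q ∈ L := by
    rw [hq]
    exact AddSubgroup.mem_zmultiples q
  have hone : ∀ n : ℤ, n ∈ L → ((1 : G), Multiplicative.ofAdd n) ∈ H := by
    intro n hn
    rw [hHm, rt_apply, one_mul]
    exact inv_mem hn
  obtain ⟨a, ha⟩ : ∃ a : A, q • a = f1 (1, Multiplicative.ofAdd q) := by
    by_cases h : q = 0
    · refine ⟨0, ?_⟩
      have h1 := hh1.one
      rw [h, smul_zero]
      exact h1.symm
    · exact hdiv q h _
  let β : G × Multiplicative ℤ → A := fun x => (Multiplicative.toAdd x.2) • a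
  have hβ : PK (Ft F j) H d β := by
    intro q hq _
    refine asum_zero hFt hq (K := ⊤) (fun e => trivial) ?_ ?_
    · intro x _ y _
      change (Multiplicative.toAdd (x.2 * y.2)) • a = _
      rw [toAdd_mul, add_smul]
    · intro y _ hy
      have := (mem_Ft.1 hy).2 hjd
      change (Multiplicative.toAdd y.2) • a = 0
      rw [this, toAdd_one, zero_smul]
  let f2 : G × Multiplicative ℤ → A := fun x => f1 x - β x
  have hf2 : PK (Ft F j) H d f2 := by
    intro q hq hqH
    have e : asum (fun e => f2 (q e)) = asum (fun e => f1 (q e)) - asum (fun e => β (q e)) := by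
      unfold asum
      rw [← Finset.sum_sub_distrib]
      exact Finset.sum_congr rfl fun e _ => smul_sub _ _ _
    rw [e, hf1 q hq hqH, hβ q hq hqH, sub_zero]
  have hh2 : Hom1 H f2 := by
    intro x hx n
    change f1 (x ^ n) - β (x ^ n) = n • (f1 x - β x)
    rw [hh1 x hx n, smul_sub]
    congr 1
    change (Multiplicative.toAdd (x.2 ^ n)) • a = n • ((Multiplicative.toAdd x.2) • a)
    rw [toAdd_pow, smul_assoc]
  have hadd : ∀ x ∈ H, ∀ y ∈ H, Commute x y → f2 (x * y) = f2 x + f2 y := fun x hx y hy hxy =>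
    hh2.add hFt hA hc hj₀ hcd hf2 hx (hHF x hx) hy (hHF y hy) hxy
  have hz : ∀ n : ℤ, n ∈ L → f2 (1, Multiplicative.ofAdd n) = 0 := by
    have h0 : f2 (1, Multiplicative.ofAdd q) = 0 := by
      change f1 (1, Multiplicative.ofAdd q) - q • a = 0
      rw [ha, sub_self]
    have hnat : ∀ n : ℕ, f2 (1, Multiplicative.ofAdd ((n : ℤ) * q)) = 0 := by
      intro n
      have h1 := hh2 _ (hone q hqL) n
      rw [h0, smul_zero] at h1
      have e : ((1 : G), Multiplicative.ofAdd q) ^ n = (1, Multiplicative.ofAdd ((n : ℤ) * q)) := by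
        refine Prod.ext (one_pow n) ?_
        change (Multiplicative.ofAdd q) ^ n = _
        rw [← ofAdd_nsmul, nsmul_eq_mul]
      rwa [e] at h1
    have hneg : ∀ n ∈ L, f2 (1, Multiplicative.ofAdd n) = 0 → f2 (1, Multiplicative.ofAdd (-n)) = 0 := by
      intro n hn h1
      have h2 := hadd _ (hone n hn) _ (hone (-n) (neg_mem hn)) (by
        refine Prod.ext rfl ?_
        change Multiplicative.ofAdd n * Multiplicative.ofAdd (-n) = Multiplicative.ofAdd (-n) * Multiplicative.ofAdd n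
        rw [mul_comm])
      have e : ((1 : G), Multiplicative.ofAdd n) * (1, Multiplicative.ofAdd (-n)) = 1 := by
        refine Prod.ext (one_mul 1) ?_
        change Multiplicative.ofAdd n * Multiplicative.ofAdd (-n) = 1
        rw [← ofAdd_add, add_neg_cancel]
        rfl
      rw [e, hh2.one, h1, zero_add] at h2
      exact h2.symm
    intro n hn
    rw [hq] at hn
    obtain ⟨t, rfl⟩ := AddSubgroup.mem_zmultiples_iff.1 hn
    rcases Int.eq_nat_or_neg t with ⟨k, rfl | rfl⟩
    · rw [zsmul_eq_mul]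
      exact hnat k
    · rw [neg_smul, zsmul_eq_mul]
      refine hneg _ ?_ (hnat k)
      rw [hq]
      exact AddSubgroup.mem_zmultiples_iff.2 ⟨k, by rw [zsmul_eq_mul]⟩
  have hwd : ∀ (h : G) (n n' : ℤ), (h, Multiplicative.ofAdd n) ∈ H → (h, Multiplicative.ofAdd n') ∈ H →
      f2 (h, Multiplicative.ofAdd n) = f2 (h, Multiplicative.ofAdd n') := by
    intro h n n' hn hn'
    have h1 : n' - n ∈ L := by
      change g ^ (n' - n) ∈ K
      rw [hHm, rt_apply] at hn hn'
      have e : g ^ (n' - n) = (h * (g ^ n')⁻¹)⁻¹ * (h * (g ^ n)⁻¹) := by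
        rw [zpow_sub]
        group
      rw [e]
      exact mul_mem (inv_mem hn') hn
    have h2 := hadd _ hn _ (hone _ h1) (by
      refine Prod.ext ?_ ?_
      · change h * 1 = 1 * h
        rw [mul_one, one_mul]
      · change Multiplicative.ofAdd n * Multiplicative.ofAdd (n' - n) = Multiplicative.ofAdd (n' - n) * Multiplicative.ofAdd n
        rw [mul_comm])
    have e : (h, Multiplicative.ofAdd n) * ((1 : G), Multiplicative.ofAdd (n' - n)) = (h, Multiplicative.ofAdd n') := by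
      refine Prod.ext (mul_one h) ?_
      change Multiplicative.ofAdd n * Multiplicative.ofAdd (n' - n) = _
      rw [← ofAdd_add]
      congr 1
      abel
    rw [e, hz _ h1, add_zero] at h2
    exact h2.symm
  -- the extension
  let f' : G → A := fun h => if hn : ∃ n : ℤ, (h, Multiplicative.ofAdd n) ∈ H then
    f2 (h, Multiplicative.ofAdd hn.choose) else 0
  have hf' : ∀ (h : G) (n : ℤ), (h, Multiplicative.ofAdd n) ∈ H → f' h = f2 (h, Multiplicative.ofAdd n) := by
    intro h n hn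
    have hn' : ∃ n : ℤ, (h, Multiplicative.ofAdd n) ∈ H := ⟨n, hn⟩
    change (if hn : ∃ n : ℤ, (h, Multiplicative.ofAdd n) ∈ H then f2 (h, Multiplicative.ofAdd hn.choose) else 0) = _
    rw [dif_pos hn']
    exact hwd _ _ _ hn'.choose_spec hn
  have hf'x : ∀ x ∈ H, f' x.1 = f2 x := fun x hx => hf' x.1 (Multiplicative.toAdd x.2) hx
  have hKH : ∀ x ∈ K, (x, (1 : Multiplicative ℤ)) ∈ H := by
    intro x hx
    rw [hHm, rt, map_one, inv_one, mul_one]
    exact hx
  refine ⟨H.map (MonoidHom.fst _ _), f', ?_, ?_, ?_, ?_, ?_, ?_⟩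
  · intro x hx
    exact ⟨(x, 1), hKH x hx, rfl⟩
  · refine ⟨(g, Multiplicative.ofAdd 1), ?_, rfl⟩
    change rt g (g, Multiplicative.ofAdd 1) ∈ K
    rw [rt_apply, zpow_one, mul_inv_cancel]
    exact one_mem K
  · rintro _ ⟨x, hx, rfl⟩
    have e : x.1 = rt g x * zpowersHom G g x.2 := by
      rw [rt]
      group
    change x.1 ∈ F j
    rw [e, zpowersHom_apply]
    exact mul_mem (hK hx) (zpow_mem hg _)
  · intro q hq hqK
    have h1 : q ∈ HKS (fun i => F i ⊓ H.map (MonoidHom.fst _ _)) Finset.univ 0 := by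
      refine HKS_sub hF _ _ _ ?_ _ hqK
      rw [← HK_eq]
      exact hq
    have h2 : ∃ t : (Fin d → Bool) → G × Multiplicative ℤ, t ∈ HK d (Ft F j) ∧ (∀ e, t e ∈ H) ∧ ∀ e, (t e).1 = q e := by
      clear hq hqK
      induction h1 using Subgroup.closure_induction with
      | mem q hq =>
        obtain ⟨w, γ, _, ⟨hγ, y, hy, hyγ⟩, rfl⟩ := hq
        rw [add_zero] at hγ
        by_cases hw : w.card ≤ j
        · refine ⟨gen w y, gmem ?_, fun e => ?_, fun e => ?_⟩
          · rw [mem_Ft]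
            refine ⟨?_, fun h => absurd hw (by omega)⟩
            change y.1 = γ at hyγ
            rw [hyγ]
            exact hγ
          · unfold gen
            split_ifs
            · exact hy
            · exact one_mem _
          · change y.1 = γ at hyγ
            unfold gen
            split_ifs
            · exact hyγ
            · rfl
        · refine ⟨gen w (γ, 1), gmem ?_, fun e => ?_, fun e => ?_⟩
          · rw [mem_Ft]
            exact ⟨hγ, fun _ => rfl⟩
          · unfold gen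
            split_ifs
            · exact hKH _ (hK' (hF.antitone (by omega : j + 1 ≤ w.card) hγ))
            · exact one_mem _
          · unfold gen
            split_ifs <;> rfl
      | one => exact ⟨1, one_mem _, fun _ => one_mem _, fun _ => rfl⟩
      | mul x y _ _ hx hy =>
        obtain ⟨t, t1, t2, t3⟩ := hx
        obtain ⟨t', t1', t2', t3'⟩ := hy
        refine ⟨t * t', mul_mem t1 t1', fun e => mul_mem (t2 e) (t2' e), fun e => ?_⟩
        rw [Pi.mul_apply, Pi.mul_apply, Prod.fst_mul, t3, t3']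
      | inv x _ hx =>
        obtain ⟨t, t1, t2, t3⟩ := hx
        refine ⟨t⁻¹, inv_mem t1, fun e => inv_mem (t2 e), fun e => ?_⟩
        rw [Pi.inv_apply, Pi.inv_apply, Prod.fst_inv, t3]
    obtain ⟨t, t1, t2, t3⟩ := h2
    have e : (fun e => f' (q e)) = fun e => f2 (t e) := by
      funext e
      rw [← t3 e, hf'x _ (t2 e)]
    rw [e]
    exact hf2 t t1 t2
  · rintro _ ⟨x, hx, rfl⟩ n
    change f' (x.1 ^ n) = n • f' x.1
    rw [hf'x x hx, ← hh2 x hx n, ← hf'x _ (pow_mem hx n)]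
    rfl
  · intro x hx
    have h1 := hf'x _ (hKH x hx)
    change f' x = f1 (x, 1) - (Multiplicative.toAdd (1 : Multiplicative ℤ)) • a at h1
    rw [h1, hK1 x hx, toAdd_one, zero_smul, sub_zero]

/-- one level -/
theorem ext_level (hA : Bij c A) (hc : 1 < c) (hdiv : ∀ z : ℤ, z ≠ 0 → ∀ b : A, ∃ a, z • a = b) (hF : Filt F)
    (hj₀ : 1 ≤ j₀) (hj : j₀ ≤ j) (hjd : j < d) (hcd : d ≤ c * j₀) (hfg : ∃ S : Finset G, (∀ s ∈ S, s ∈ F j) ∧
      F j ≤ Subgroup.closure (S : Set G) ⊔ F (j + 1)) {f : G → A} (hf : PK F (F (j + 1)) d f)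
    (hh : Hom1 (F (j + 1)) f) :
    ∃ f₁ : G → A, PK F (F j) d f₁ ∧ Hom1 (F j) f₁ ∧ ∀ x ∈ F (j + 1), f₁ x = f x := by
  classical
  obtain ⟨S, hS, hSF⟩ := hfg
  have key : ∀ T : Finset G, (∀ s ∈ T, s ∈ F j) → ∃ (K₁ : Subgroup G) (f₁ : G → A), F (j + 1) ≤ K₁ ∧
      (∀ s ∈ T, s ∈ K₁) ∧ K₁ ≤ F j ∧ PK F K₁ d f₁ ∧ Hom1 K₁ f₁ ∧ ∀ x ∈ F (j + 1), f₁ x = f x := by
    intro T
    induction T using Finset.induction_on with
    | empty => exact fun _ => ⟨F (j + 1), f, le_rfl, by simp, hF.anti j, hf, hh, fun _ _ => rfl⟩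
    | insert g T _ ih =>
      intro hT
      obtain ⟨K₁, f₁, a1, a2, a3, a4, a5, a6⟩ := ih fun s hs => hT s (Finset.mem_insert_of_mem hs)
      obtain ⟨K₂, f₂, b1, b2, b3, b4, b5, b6⟩ := ext_step hA hc hdiv hF hj₀ hj hjd hcd a3 a1
        (hT g (Finset.mem_insert_self g T)) a4 a5
      refine ⟨K₂, f₂, a1.trans b1, fun s hs => ?_, b3, b4, b5, fun x hx => ?_⟩
      · rcases Finset.mem_insert.1 hs with rfl | hs
        · exact b2
        · exact b1 (a2 s hs)
      · rw [b6 x (a1 hx), a6 x hx]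
  obtain ⟨K₁, f₁, a1, a2, a3, a4, a5, a6⟩ := key S hS
  have e : K₁ = F j := by
    refine le_antisymm a3 (hSF.trans (sup_le ((Subgroup.closure_le _).2 fun s hs => a2 s hs) a1))
  subst e
  exact ⟨f₁, a4, a5, a6⟩

/-- homogeneous maps extend from the term k to the term j₀ -/
theorem ext_all (hA : Bij c A) (hc : 1 < c) (hdiv : ∀ z : ℤ, z ≠ 0 → ∀ b : A, ∃ a, z • a = b) (hF : Filt F)
    (hj₀ : 1 ≤ j₀) (hcd : d ≤ c * j₀) (hfg : ∀ k, 1 ≤ k → k < d → ∃ S : Finset G, (∀ s ∈ S, s ∈ F k) ∧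
      F k ≤ Subgroup.closure (S : Set G) ⊔ F (k + 1)) : ∀ (t k : ℕ), j₀ + t = k → k ≤ d → ∀ {f : G → A},
      PK F (F k) d f → Hom1 (F k) f →
    ∃ f₁ : G → A, PK F (F j₀) d f₁ ∧ Hom1 (F j₀) f₁ ∧ ∀ x ∈ F k, f₁ x = f x := by
  intro t
  induction t with
  | zero =>
    intro k hk _ f hf hh
    have e : j₀ = k := hk
    subst e
    exact ⟨f, hf, hh, fun _ _ => rfl⟩
  | succ t ih =>
    intro k hk hkd f hf hh
    have e : k = (j₀ + t) + 1 := by omega
    subst e
    obtain ⟨f₁, a1, a2, a3⟩ := ext_level hA hc hdiv hF hj₀ (j := j₀ + t) (by omega) (by omega) hcd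
      (hfg _ (by omega) (by omega)) hf hh
    obtain ⟨f₂, b1, b2, b3⟩ := ih (j₀ + t) rfl (by omega) a1 a2
    exact ⟨f₂, b1, b2, fun x hx => by rw [b3 x (hF.anti _ hx), a3 x hx]⟩

end step

end

end SLC
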