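import Pool.Agent.SLC.Spr3

/-!
Elements of prime order p which are not separated from 1 by the maps of degree < d: none, if the filtered group has no
torsion in the degrees < j and d ≤ p j.
-/

set_option autoImplicit false

namespace SLC

/-- the rational numbers which are integral at p -/
def Bp (p : ℕ) : AddSubgroup ℚ where
  carrier := {r | ∃ n : ℕ, n.Coprime p ∧ ∃ z : ℤ, (n : ℚ) * r = z}
  zero_mem' := ⟨1, Nat.coprime_one_left p, 0, by simp⟩
  add_mem' := by
    rintro r r' ⟨n, hn, z, hz⟩ ⟨n', hn', z', hz'⟩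
    refine ⟨n * n', Nat.Coprime.mul_left hn hn', n' * z + n * z', ?_⟩
    push_cast
    rw [← hz, ← hz']
    ring
  neg_mem' := by
    rintro r ⟨n, hn, z, hz⟩
    refine ⟨n, hn, -z, ?_⟩
    push_cast
    rw [← hz]
    ring

/-- the Prüfer group -/
abbrev Pru (p : ℕ) : Type := ℚ ⧸ Bp p

theorem Pru_bij {p : ℕ} (hp : p.Prime) : Bij p (Pru p) where
  inj i hi hip a ha := by
    obtain ⟨r, rfl⟩ := QuotientAddGroup.mk_surjective a
    rw [← QuotientAddGroup.mk_nsmul, QuotientAddGroup.eq_zero_iff] at ha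
    obtain ⟨n, hn, z, hz⟩ := ha
    rw [QuotientAddGroup.eq_zero_iff]
    refine ⟨n * i, Nat.Coprime.mul_left hn (Nat.coprime_of_lt_prime (by omega) hip hp).symm, z, ?_⟩
    rw [← hz, nsmul_eq_mul]
    push_cast
    ring
  surj i hi hip a := by
    obtain ⟨r, rfl⟩ := QuotientAddGroup.mk_surjective a
    refine ⟨((r / i : ℚ) : Pru p), ?_⟩
    rw [← QuotientAddGroup.mk_nsmul, nsmul_eq_mul]
    congr 1
    have : (i : ℚ) ≠ 0 := by
      have : i ≠ 0 := by omega
      exact_mod_cast this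
    field_simp

theorem Pru_div {p : ℕ} (z : ℤ) (hz : z ≠ 0) (b : Pru p) : ∃ a, z • a = b := by
  obtain ⟨r, rfl⟩ := QuotientAddGroup.mk_surjective b
  refine ⟨((r / z : ℚ) : Pru p), ?_⟩
  rw [← QuotientAddGroup.mk_zsmul, zsmul_eq_mul]
  congr 1
  have : (z : ℚ) ≠ 0 := by exact_mod_cast hz
  field_simp

/-- a character which does not vanish on a given element of order p -/
theorem exists_char {p : ℕ} {A : Type} [AddCommGroup A] {a : A} (ha : a ≠ 0) (hpa : p • a = 0) :
    ∃ χ : A →+ Pru p, χ a ≠ 0 := by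
  obtain ⟨ψ, hψ⟩ := CharacterModule.exists_character_apply_ne_zero_of_ne_zero ha
  let θ : AddCircle (1 : ℚ) →+ Pru p := QuotientAddGroup.map _ (Bp p) (AddMonoidHom.id ℚ) (by
    intro r hr
    obtain ⟨z, rfl⟩ := AddSubgroup.mem_zmultiples_iff.1 hr
    exact ⟨1, Nat.coprime_one_left p, z, by simp⟩)
  refine ⟨θ.comp (ψ : A →+ AddCircle (1 : ℚ)), fun h => hψ ?_⟩
  have h1 : p • ψ a = 0 := by
    rw [← map_nsmul, hpa, map_zero]
  obtain ⟨r, hr⟩ := QuotientAddGroup.mk_surjective (ψ a)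
  rw [← hr] at h1 ⊢
  have h2 : θ (r : AddCircle (1 : ℚ)) = 0 := by
    have h3 : θ (ψ a) = 0 := h
    rw [← hr] at h3
    exact h3
  have h4 : ((r : ℚ) : Pru p) = 0 := h2
  rw [QuotientAddGroup.eq_zero_iff] at h4
  obtain ⟨n, hn, z, hz⟩ := h4
  have h5 : ((p • r : ℚ) : AddCircle (1 : ℚ)) = 0 := h1
  rw [AddCircle.coe_eq_zero_iff] at h5
  obtain ⟨y, hy⟩ := h5
  rw [zsmul_eq_mul, mul_one, nsmul_eq_mul] at hy
  have h6 := Nat.Coprime.isCoprime hn
  obtain ⟨u, v, huv⟩ := h6
  have h7 : r = ((u * z + v * y : ℤ) : ℚ) := by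
    have : (u : ℚ) * n + v * p = 1 := by exact_mod_cast huv
    calc r = ((u : ℚ) * n + v * p) * r := by rw [this, one_mul]
      _ = u * (n * r) + v * (p * r) := by ring
      _ = _ := by
        rw [hz, ← hy]
        push_cast
        ring
  change ((r : ℚ) : AddCircle (1 : ℚ)) = 0
  rw [AddCircle.coe_eq_zero_iff]
  refine ⟨u * z + v * y, ?_⟩
  rw [h7, zsmul_eq_mul, mul_one]

theorem small {G : Type} [Group G] {F : ℕ → Subgroup G} (hF : Filt F) {d j p : ℕ} (hd1 : 1 ≤ d) (hd : F d = ⊥)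
    (hp : p.Prime) (hj : 1 ≤ j) (hpd : d ≤ p * j) (hfg : ∀ k, 1 ≤ k → k < d → ∃ S : Finset G, (∀ s ∈ S, s ∈ F k) ∧
      F k ≤ Subgroup.closure (S : Set G) ⊔ F (k + 1)) (htf : ∀ k, 1 ≤ k → k < j → ∀ x ∈ F k, ∀ n : ℕ, 1 ≤ n →
      x ^ n ∈ F (k + 1) → x ∈ F (k + 1)) {x : G} (hx : x ∈ DD F hF d) (hxp : x ^ p = 1) : x = 1 := by
  -- the relation in the term k
  have hst : ∀ k, 1 ≤ k → k ≤ j → k ≤ d → x ∈ F k ∧ dl x - dl 1 ∈ JJd d F (F k) := by
    intro k hk
    induction k, hk using Nat.le_induction with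
    | base =>
      intro _ _
      refine ⟨by rw [hF.top]; trivial, ?_⟩
      have h1 := hx ((G →₀ ℤ) ⧸ JJd d F (F 1)) (fun y => Submodule.Quotient.mk (dl y)) (fun c hc => by
        have h2 : asum (fun e => (JJd d F (F 1)).mkQ (dl (c e))) = 0 := by
          rw [← map_asum, Submodule.mkQ_apply, Submodule.Quotient.mk_eq_zero]
          exact Submodule.subset_span ⟨c, hc, fun e => by rw [hF.top]; trivial, rfl⟩
        exact h2)
      exact (Submodule.Quotient.eq _).1 h1
    | succ k hk ih =>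
      intro hkj hkd
      obtain ⟨h1, h2⟩ := ih (by omega) (by omega)
      have h3 : x ∈ F (k + 1) := stage_mem hF ((hF.comm k k).trans (hF.antitone (by omega)))
        (hF.antitone (by omega)) h1 h2
      exact ⟨h3, stage_step hF hk (htf k hk (by omega)) h3 h2⟩
  rcases Nat.lt_or_ge j d with hjd | hdj
  · obtain ⟨hxj, hrel⟩ := hst j hj le_rfl hjd.le
    by_contra hne
    obtain ⟨k, hjk, hkd, hxk, hxk'⟩ : ∃ k, j ≤ k ∧ k < d ∧ x ∈ F k ∧ x ∉ F (k + 1) := by
      by_contra hcon
      push Not at hcon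
      have h1 : ∀ k, j ≤ k → k ≤ d → x ∈ F k := by
        intro k hk
        induction k, hk using Nat.le_induction with
        | base => exact fun _ => hxj
        | succ k hk ih => exact fun h => hcon k hk (by omega) (ih (by omega))
      have h2 := h1 d hjd.le le_rfl
      rw [hd, Subgroup.mem_bot] at h2
      exact hne h2
    obtain ⟨A', iA', n, hn, hker, _⟩ := exists_quot (F k) (F (k + 1))
      ((hF.comm k k).trans (hF.antitone (by omega)))
    have hn0 : n x ≠ 0 := fun h => hxk' ((hker x hxk).1 h)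
    have hnp : p • n x = 0 := by
      rw [← natCast_zsmul, ← hn.zpow hxk, zpow_natCast, hxp, hn.one]
    obtain ⟨χ, hχ⟩ := exists_char hn0 hnp
    have hf0 : AddOn (F k) fun y => χ (n y) := by
      intro a ha b hb
      change χ (n (a * b)) = χ (n a) + χ (n b)
      rw [hn a ha b hb, map_add]
    have hpk : PK F (F k) d fun y => χ (n y) := by
      intro c hc hcK
      refine asum_zero hF hc hcK hf0 fun y hy hyd => ?_
      change χ (n y) = 0
      rw [(hker y hy).2 (hF.antitone (by omega : k + 1 ≤ d) hyd), map_zero]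
    have hh : Hom1 (F k) fun y => χ (n y) := by
      intro y hy m
      change χ (n (y ^ m)) = m • χ (n y)
      rw [← zpow_natCast, hn.zpow hy, map_zsmul, natCast_zsmul]
    obtain ⟨f₁, a1, a2, a3⟩ := ext_all (Pru_bij hp) hp.one_lt Pru_div hF hj hpd hfg (k - j) k (by omega) hkd.le hpk hh
    have h1 : JJd d F (F j) ≤ LinearMap.ker (Finsupp.linearCombination ℤ f₁) := by
      refine Submodule.span_le.2 ?_
      rintro u ⟨c, hc, hcK, rfl⟩
      rw [SetLike.mem_coe, LinearMap.mem_ker, map_asum]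
      simp only [Finsupp.linearCombination_single, one_smul]
      exact a1 c hc hcK
    have h2 := h1 hrel
    rw [LinearMap.mem_ker, map_sub, Finsupp.linearCombination_single, Finsupp.linearCombination_single, one_smul,
      one_smul, a2.one, sub_zero, a3 x hxk] at h2
    exact hχ h2
  · obtain ⟨h1, _⟩ := hst d hd1 hdj le_rfl
    rw [hd, Subgroup.mem_bot] at h1
    exact h1

end SLC
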