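import Pool.Agent.SLC.Uni5

/-!
String links: a bound for the exponent of the string links which are not detected, for all numbers of components.
-/

set_option autoImplicit false

namespace SLC

open CSys

/-- if x, y agree on the finite type invariants of degree < d, then x y⁻¹ has exponent E modulo C_d-equivalence -/
def ExpM (m d E : ℕ) : Prop := ∀ x y z : Tangle, IsStringLink m x → IsStringLink m y → IsStringLink m z →
  (∀ (A : Type) [AddCommGroup A] (v : Tangle → A), FiniteType m d v → v x = v y) → CEquiv m d (y * z) 1 →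
    CEquiv m d ((x * z) ^ E) 1

theorem SL_mul {m : ℕ} {x y : Tangle} (hx : IsStringLink m x) (hy : IsStringLink m y) : IsStringLink m (x * y) :=
  (sys_IsCl m _).1 (((sys_IsCl m x).2 hx).mul ((sys_IsCl m y).2 hy))

theorem SL_one (m : ℕ) : IsStringLink m 1 := (sys_IsCl m _).1 (sys m).isCl_one

theorem SL_pow {m : ℕ} {x : Tangle} (hx : IsStringLink m x) (n : ℕ) : IsStringLink m (x ^ n) :=
  (sys_IsCl m _).1 (((sys_IsCl m x).2 hx).pow n)

theorem CEquiv_pow {m d : ℕ} {x : Tangle} (hx : IsStringLink m x) (h : CEquiv m d x 1) (n : ℕ) :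
    CEquiv m d (x ^ n) 1 := by
  rw [← sys_Ceq] at h ⊢
  induction n with
  | zero =>
    rw [pow_zero]
    exact Ceq.refl _ _
  | succ n ih =>
    rw [pow_succ]
    have h1 := Ceq.mul (Q := sys m) ih h (sys m).isCl_one ((sys_IsCl m x).2 hx)
    rwa [one_mul] at h1

theorem ExpM.mul {m d E : ℕ} (h : ExpM m d E) (k : ℕ) : ExpM m d (E * k) := by
  intro x y z hx hy hz hv hyz
  rw [pow_mul]
  exact CEquiv_pow (SL_pow (SL_mul hx hz) E) (h x y z hx hy hz hv hyz) k

theorem fgt_pow {m : ℕ} (c : ℕ → Bool) {x : Tangle} (hx : IsStringLink m x) (n : ℕ) : fgt c (x ^ n) = fgt c x ^ n := by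
  induction n with
  | zero => rw [pow_zero, pow_zero, fgt_one]
  | succ n ih => rw [pow_succ, pow_succ, fgt_mul c (SL_pow hx n) hx, ih]

theorem fval (m : ℕ) : Fval (fun j => fgt (mj j)) m := by
  intro j _ r _ g hg
  exact fgt_cl _ r (Re.perm_of_PN hg)

theorem cnt_mj {m j : ℕ} (hj : j < m) : cnt (mj j) m = m - 1 := by
  have h1 := Re.cnt_ne j m
  rw [if_pos hj] at h1
  exact h1

theorem ExpM_of_le {d E : ℕ} (hd : 1 ≤ d) (h : ∀ m ≤ d, ExpM m d E) : ∀ m, ExpM m d E := by
  intro m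
  induction m with
  | zero => exact h 0 (by omega)
  | succ m ih =>
    by_cases hm : m + 1 ≤ d
    · exact h _ hm
    · intro x y z hx hy hz hv hyz
      have hfm : Fmul (fun j => fgt (mj j)) (m + 1) := fun j _ x y hx hy => fgt_mul _ hx hy
      refine uni_step resFacts (fval (m + 1)) hfm hd (by omega) (SL_pow (SL_mul hx hz) E) (SL_one _) fun j hj => ?_
      have hs : ∀ {w : Tangle}, IsStringLink (m + 1) w → IsStringLink m (fgt (mj j) w) := fun hw =>
        sub_IsStringLink resFacts (fval (m + 1)) hj hw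
      refine ins_CEquiv (k := d) hj ?_
      change CEquiv m d (fgt (mj j) ((x * z) ^ E)) (fgt (mj j) 1)
      rw [fgt_pow _ (SL_mul hx hz), fgt_mul _ hx hz, fgt_one]
      refine ih _ (fgt (mj j) y) _ (hs hx) (hs hy) (hs hz) (fun A _ v hv' => ?_) ?_
      · refine hv A (fun t => v (fgt (mj j) t)) ?_
        refine Re.fgt_FiniteType (mj j) ?_
        rw [cnt_mj hj]
        exact hv'
      · have h1 := Re.fgt_CEquiv (mj j) hd hyz
        rw [cnt_mj hj, fgt_mul _ hy hz, fgt_one] at h1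
        exact h1

/-- a uniform exponent -/
theorem exp_uniform {d : ℕ} (hd : 1 ≤ d) (P : ℕ → Prop)
    (h : ∀ m, ∃ E, 1 ≤ E ∧ (∀ p, p.Prime → p ∣ E → P p) ∧ ExpM m d E) :
    ∃ E, 1 ≤ E ∧ (∀ p, p.Prime → p ∣ E → P p) ∧ ∀ m, ExpM m d E := by
  choose E h1 h2 h3 using h
  refine ⟨∏ m ∈ Finset.range (d + 1), E m, Nat.one_le_iff_ne_zero.2 (Finset.prod_ne_zero_iff.2 fun m _ => ?_), ?_,
    ExpM_of_le hd fun m hm => ?_⟩
  · have := h1 m
    omega
  · intro p hp hpE
    obtain ⟨m, _, hm⟩ := (hp.prime.dvd_finsetProd_iff _).1 hpE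
    exact h2 m p hp hm
  · obtain ⟨k, hk⟩ := Finset.dvd_prod_of_mem E (Finset.mem_range.2 (by omega : m < d + 1))
    rw [hk]
    exact (h3 m).mul k

end SLC
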