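import Pool.Agent.SLC.Fg1

/-!
The lower central series of the pure braid groups: the term k is generated, modulo the next term, by conjugates of
elements on k + 1 strands.
-/

set_option autoImplicit false

open scoped commutatorElement

namespace SLC

/-- conjugates of elements of the term k on k + 1 strands -/
def XS (k n : ℕ) : Set Br := {x | ∃ c ∈ BN n, ∃ w ∈ Gam k (k + 1), x = c * w * c⁻¹}

theorem XS_mem {k n : ℕ} (hn : k + 1 ≤ n) {x : Br} (hx : x ∈ XS k n) : x ∈ Gam k n := by
  obtain ⟨c, hc, w, hw, rfl⟩ := hx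
  exact Gam_conj hc (Gam_mono hn hw)

/-- a position u outside 0, ..., K - 1 such that a, b are among 0, ..., K - 1, u -/
theorem exists_u {K N a b : ℕ} (hN : K + 1 ≤ N) (ha : a < N) (hb : b < N) (hab : a < K ∨ b < K) :
    ∃ u, K ≤ u ∧ u < N ∧ (a < K ∨ a = u) ∧ (b < K ∨ b = u) := by
  rcases Nat.lt_or_ge a K with h1 | h1
  · rcases Nat.lt_or_ge b K with h2 | h2
    · exact ⟨K, by omega, by omega, Or.inl h1, Or.inl h2⟩
    · exact ⟨b, h2, hb, Or.inl h1, Or.inr rfl⟩
  · exact ⟨a, h1, ha, Or.inr rfl, Or.inl (by omega)⟩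

/-- the term k is generated by conjugates of elements on k + 1 strands, modulo the next term -/
theorem Gam_supp1' (k : ℕ) (hk : 1 ≤ k) : ∀ n, k + 1 ≤ n → Gam k n ≤ Subgroup.closure (XS k n) ⊔ Gam (k + 1) n := by
  induction k, hk using Nat.le_induction with
  | base =>
    intro n hn
    rw [Gam_one]
    intro g hg
    refine Subgroup.mem_sup_left (Subgroup.closure_mono ?_ (PN_gen0 hg))
    rintro x ⟨c, hc, _, rfl⟩
    exact ⟨c, hc, σ 0 ^ 2, sq_mem_PN (by omega), rfl⟩
  | succ k hk ih =>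
    intro n hn
    have hY : ∀ y ∈ {x | ∃ c ∈ BN n, 2 ≤ n ∧ x = c * σ 0 ^ 2 * c⁻¹}, y ∈ PN n := by
      rintro _ ⟨c, hc, _, rfl⟩
      exact PN_conj hc (sq_mem_PN (by omega))
    refine Gam_gen_step hk (X := XS k n) (Y := {x | ∃ c ∈ BN n, 2 ≤ n ∧ x = c * σ 0 ^ 2 * c⁻¹})
      (fun x hx => XS_mem (by omega) hx) hY (ih n (by omega)) (fun g hg => Subgroup.mem_sup_left (PN_gen0 hg))
      le_sup_right (sup_le ((Subgroup.closure_le _).2 fun x hx => XS_mem hn hx) (Gam_anti (by omega))) ?_
    rintro _ ⟨c, hc, w, hw, rfl⟩ _ ⟨c', hc', _, rfl⟩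
    -- positions
    have hlt : ∀ x, x < n → perm c⁻¹ x < n := fun x hx => (perm_lt (inv_mem hc)).1 x hx
    have hlt' : ∀ x, x < n → perm c' x < n := fun x hx => (perm_lt hc').1 x hx
    have hinj : perm c⁻¹ (perm c' 0) ≠ perm c⁻¹ (perm c' 1) := by
      intro h
      have := (perm c').injective ((perm c⁻¹).injective h)
      omega
    have hpc : ∀ x, perm c (perm c⁻¹ x) = x := fun x => by rw [map_inv]; exact Equiv.apply_symm_apply _ _
    have hwn : w ∈ Gam k n := Gam_mono (by omega) hw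
    have h02 : σ 0 ^ 2 ∈ Gam 1 2 := sq_mem_PN (by omega)
    by_cases hcase : perm c⁻¹ (perm c' 0) < k + 1 ∨ perm c⁻¹ (perm c' 1) < k + 1
    · obtain ⟨u, hu, hun, h0, h1⟩ := exists_u (K := k + 1) (N := n) (by omega)
        (hlt _ (hlt' 0 (by omega))) (hlt _ (hlt' 1 (by omega))) hcase
      obtain ⟨e, he, hep⟩ := exists_inj (k + 2) n (fun x => if x < k + 1 then x else u) (by
        intro x hx
        split_ifs <;> omega) (by
        intro x hx y hy hxy
        split_ifs at hxy <;> omega)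
      have hpos : ∀ a, (a < k + 1 ∨ a = u) → ∃ i < k + 2, perm e i = a := by
        rintro a (h | h)
        · exact ⟨a, by omega, by rw [hep a (by omega), if_pos h]⟩
        · exact ⟨k + 1, by omega, by rw [hep (k + 1) (by omega), if_neg (by omega), h]⟩
      obtain ⟨i, hi, hei⟩ := hpos _ h0
      obtain ⟨j, hj, hej⟩ := hpos _ h1
      have hij : i ≠ j := by
        intro h
        rw [h, hej] at hei
        exact hinj hei.symm
      obtain ⟨s, hs, hsp⟩ := exists_inj 2 (k + 2) (fun x => if x = 0 then i else j) (by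
        intro x hx
        split_ifs <;> omega) (by
        intro x hx y hy hxy
        split_ifs at hxy <;> omega)
      have hs0 := hsp 0 (by omega)
      have hs1 := hsp 1 (by omega)
      rw [if_pos rfl] at hs0
      rw [if_neg (by omega)] at hs1
      have hsN : s ∈ BN n := BN_mono (by omega) hs
      have hb : c * e ∈ BN n := mul_mem hc he
      have hbs : c * e * s ∈ BN n := mul_mem hb hsN
      obtain ⟨q, hq, hq1⟩ := class_indep (N := n) hk hc hb (show k + 1 ≤ n by omega) (fun x hx => by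
        rw [map_mul, Equiv.Perm.mul_apply, hep x (by omega), if_pos hx]) hw
      obtain ⟨q', hq', hq1'⟩ := class_indep (N := n) le_rfl hc' hbs (show 2 ≤ n by omega) (fun x hx => by
        rw [map_mul, map_mul, Equiv.Perm.mul_apply, Equiv.Perm.mul_apply]
        have hx2 : x = 0 ∨ x = 1 := by omega
        rcases hx2 with rfl | rfl
        · rw [hs0, hei, hpc]
        · rw [hs1, hej, hpc]) h02
      have hE := cm_Eqm hk (Gam_conj hc hwn) (PN_conj hc' (sq_mem_PN (show 0 + 1 < n by omega)))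
        (Eqm.of_mul hq hq1) (Eqm.of_mul hq' hq1')
      have e1 : cm (c * e * w * (c * e)⁻¹) (c * e * s * σ 0 ^ 2 * (c * e * s)⁻¹) =
          c * e * cm w (s * σ 0 ^ 2 * s⁻¹) * (c * e)⁻¹ := by
        unfold cm
        group
      rw [e1] at hE
      have hm : cm w (s * σ 0 ^ 2 * s⁻¹) ∈ Gam (k + 1) (k + 1 + 1) :=
        cm_mem_left hk (Gam_mono (by omega) hw) (PN_conj hs (sq_mem_PN (by omega)))
      have e2 : cm (c * w * c⁻¹) (c' * σ 0 ^ 2 * c'⁻¹) = c * e * cm w (s * σ 0 ^ 2 * s⁻¹) * (c * e)⁻¹ *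
          ((cm (c * w * c⁻¹) (c' * σ 0 ^ 2 * c'⁻¹))⁻¹ * (c * e * cm w (s * σ 0 ^ 2 * s⁻¹) * (c * e)⁻¹))⁻¹ := by
        group
      rw [e2]
      refine mul_mem (Subgroup.mem_sup_left (Subgroup.subset_closure ⟨c * e, hb, _, hm, rfl⟩))
        (Subgroup.mem_sup_right (inv_mem ?_))
      exact hE
    · rw [not_or, not_lt, not_lt] at hcase
      obtain ⟨ha, hb'⟩ := hcase
      have la := hlt _ (hlt' 0 (by omega))
      have lb := hlt _ (hlt' 1 (by omega))
      obtain ⟨e, he, hep⟩ := exists_inj (k + 3) n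
        (fun x => if x < k + 1 then x else if x = k + 1 then perm c⁻¹ (perm c' 0) else perm c⁻¹ (perm c' 1)) (by
        intro x hx
        split_ifs <;> omega) (by
        intro x hx y hy hxy
        split_ifs at hxy <;> omega)
      have hb : c * e ∈ BN n := mul_mem hc he
      obtain ⟨q, hq, hq1⟩ := class_indep (N := n) hk hc hb (show k + 1 ≤ n by omega) (fun x hx => by
        rw [map_mul, Equiv.Perm.mul_apply, hep x (by omega), if_pos hx]) hw
      obtain ⟨c₂, hc₂, e2, p0, p1⟩ := sq_rep (n := n) (i := k + 1) hb (by omega)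
      obtain ⟨q', hq', hq1'⟩ := class_indep (N := n) le_rfl hc' hc₂ (show 2 ≤ n by omega) (fun x hx => by
        have hx2 : x = 0 ∨ x = 1 := by omega
        rcases hx2 with rfl | rfl
        · rw [p0, map_mul, Equiv.Perm.mul_apply, hep (k + 1) (by omega), if_neg (by omega), if_pos rfl, hpc]
        · rw [p1, map_mul, Equiv.Perm.mul_apply, hep (k + 1 + 1) (by omega), if_neg (by omega), if_neg (by omega),
            hpc]) h02
      rw [← e2] at hq1'
      have hE := cm_Eqm hk (Gam_conj hc hwn) (PN_conj hc' (sq_mem_PN (show 0 + 1 < n by omega)))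
        (Eqm.of_mul hq hq1) (Eqm.of_mul hq' hq1')
      have hcomm : w * σ (k + 1) ^ 2 = σ (k + 1) ^ 2 * w :=
        BU_comm (Gam_le_PN hw).1 (pow_mem (Subgroup.subset_closure ⟨k + 1, le_rfl, by omega, rfl⟩ : σ (k + 1) ∈ BU (k + 1) n) 2)
      have e1 : cm (c * e * w * (c * e)⁻¹) (c * e * σ (k + 1) ^ 2 * (c * e)⁻¹) = 1 := by
        rw [cm_conj]
        have : cm w (σ (k + 1) ^ 2) = 1 := by
          unfold cm
          rw [hcomm]
          group
        rw [this]
        group
      rw [e1] at hE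
      refine Subgroup.mem_sup_right ?_
      have h3 := hE
      unfold Eqm at h3
      rw [mul_one] at h3
      simpa using inv_mem h3

theorem Gam_supp1 (k : ℕ) (hk : 1 ≤ k) (n : ℕ) : Gam k n ≤ Subgroup.closure (XS k n) ⊔ Gam (k + 1) n := by
  rcases Nat.lt_or_ge n (k + 1) with h | h
  · intro g hg
    refine Subgroup.mem_sup_left (Subgroup.subset_closure ⟨1, one_mem _, g, Gam_mono (by omega) hg, ?_⟩)
    rw [one_mul, inv_one, mul_one]
  · exact Gam_supp1' k hk n h

end SLC
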