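import Pool.Agent.SLC.DimOdd

/-!
Absence of torsion from generators and invariants (abstract form).
-/

set_option autoImplicit false

open scoped commutatorElement

namespace SLC

/-- an abelian group generated by t i, with a triangular family of homomorphisms to the integers, has no torsion -/
theorem ab_torsionFree {V : Type} [AddCommGroup V] {ι : Type} (t : ι → V) (rank : ι → ℕ)
    (hlam : ∀ i, ∃ lam : V →+ ℤ, lam (t i) ≠ 0 ∧ ∀ j, j ≠ i → rank i ≤ rank j → lam (t j) = 0) (x : V)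
    (hx : x ∈ Submodule.span ℤ (Set.range t)) (n : ℕ) (hn : 1 ≤ n) (hnx : n • x = 0) : x = 0 := by
  classical
  obtain ⟨c, hc⟩ := (Finsupp.mem_span_range_iff_exists_finsupp).1 hx
  have hz : ∀ lam : V →+ ℤ, lam x = 0 := by
    intro lam
    have h1 : n • lam x = 0 := by rw [← map_nsmul, hnx, map_zero]
    rw [nsmul_eq_mul] at h1
    rcases mul_eq_zero.1 h1 with h | h
    · have : n = 0 := by exact_mod_cast h
      omega
    · exact h
  have key : ∀ r i, rank i = r → c i = 0 := by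
    intro r
    induction r using Nat.strong_induction_on with
    | _ r ih =>
      intro i hi
      by_contra hci
      obtain ⟨lam, h1, h2⟩ := hlam i
      have h3 := hz lam
      rw [← hc, Finsupp.sum, map_sum] at h3
      have h4 : ∑ j ∈ c.support, lam (c j • t j) = c i * lam (t i) := by
        rw [Finset.sum_eq_single i]
        · rw [map_zsmul, smul_eq_mul]
        · intro j hj hji
          rw [map_zsmul, smul_eq_mul]
          rcases Nat.lt_or_ge (rank j) (rank i) with h | h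
          · exact absurd (ih (rank j) (by omega) j rfl) (Finsupp.mem_support_iff.1 hj)
          · rw [h2 j hji h, mul_zero]
        · intro hi'
          exact absurd (Finsupp.mem_support_iff.2 hci) hi'
      rw [h4] at h3
      exact (mul_ne_zero hci h1) h3
  have hc0 : c = 0 := by
    ext i
    exact key (rank i) i rfl
  rw [← hc, hc0, Finsupp.sum_zero_index]

theorem CSys.torsionFree_of {M : Type} [Monoid M] (Q : CSys M) [Nonempty Q.Lev] {k : ℕ} (hk : 1 ≤ k) {ι : Type}
    (P : ι → M → Prop) (rank : ι → ℕ)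
    (hP : ∀ i y, P i y → Q.IsCl y ∧ Q.Ceq k y 1)
    (huniq : ∀ i y y', P i y → P i y' → Q.Ceq (k + 1) y y')
    (hgen : ∀ (G : Type) [Group G] (π : Q.Quo (k + 1) G) (x : M), Q.IsCl x → Q.Ceq k x 1 →
      π.cls x ∈ Subgroup.closure {g | ∃ i y, P i y ∧ g = π.cls y})
    (hlam : ∀ i, ∃ lam : M → ℤ, (∀ x y, Q.Ceq (k + 1) x y → lam x = lam y) ∧
      (∀ x y, Q.Ceq k x 1 → Q.Ceq k y 1 → lam (x * y) = lam x + lam y) ∧ (∀ y, P i y → lam y ≠ 0) ∧
      ∀ j, j ≠ i → rank i ≤ rank j → ∀ y, P j y → lam y = 0) : Q.TorsionFree k := by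
  classical
  intro x hx hx1 n hn hxn
  obtain ⟨G, iG, ⟨π⟩⟩ := Q.exists_quo (d := k + 1) (by omega)
  have hF := π.FF_filt (by omega)
  have hbot : π.FF (k + 1) = ⊥ := π.FF_bot le_rfl
  obtain ⟨A, iA, nn, hnn, hker, hsurj⟩ := exists_quot (π.FF k) (⊥ : Subgroup G) (by
    rw [← hbot]
    exact (hF.comm _ _).trans (hF.antitone (by omega)))
  -- elements of FF k are classes of closures which are trivial in degree k
  have hrep : ∀ a : A, ∃ y, Q.IsCl y ∧ Q.Ceq k y 1 ∧ nn (π.cls y) = a := by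
    intro a
    obtain ⟨g, hg, hga⟩ := hsurj a
    obtain ⟨y, hy, rfl, hy1⟩ := π.exists_of_mem (by omega) (by omega : k ≤ k + 1) hg
    exact ⟨y, hy, hy1, hga⟩
  have hmem : ∀ y, Q.IsCl y → Q.Ceq k y 1 → π.cls y ∈ π.FF k := fun y hy hy1 =>
    (π.mem_FF_iff (by omega) hk (by omega) hy).2 hy1
  have hinj : ∀ y y', Q.IsCl y → Q.Ceq k y 1 → Q.IsCl y' → Q.Ceq k y' 1 → nn (π.cls y) = nn (π.cls y') →
      Q.Ceq (k + 1) y y' := by
    intro y y' hy hy1 hy' hy1' h
    refine (π.eq_iff y y' hy hy').1 ?_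
    have h1 := hmem y hy hy1
    have h2 := hmem y' hy' hy1'
    have h3 : nn (π.cls y * (π.cls y')⁻¹) = 0 := by
      rw [hnn _ h1 _ (inv_mem h2), hnn.inv h2, h, add_neg_cancel]
    have h4 := (hker _ (mul_mem h1 (inv_mem h2))).1 h3
    exact mul_inv_eq_one.1 (Subgroup.mem_bot.1 h4)
  choose rep hrepC hrep1 hrepn using hrep
  -- homomorphisms on A
  have hhom : ∀ lam : M → ℤ, (∀ x y, Q.Ceq (k + 1) x y → lam x = lam y) →
      (∀ x y, Q.Ceq k x 1 → Q.Ceq k y 1 → lam (x * y) = lam x + lam y) →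
      ∃ L : A →+ ℤ, ∀ y, Q.IsCl y → Q.Ceq k y 1 → L (nn (π.cls y)) = lam y := by
    intro lam hinv hadd
    have hval : ∀ y, Q.IsCl y → Q.Ceq k y 1 → lam (rep (nn (π.cls y))) = lam y := by
      intro y hy hy1
      exact hinv _ _ (hinj _ _ (hrepC _) (hrep1 _) hy hy1 (hrepn _))
    refine ⟨AddMonoidHom.mk' (fun a => lam (rep a)) ?_, fun y hy hy1 => hval y hy hy1⟩
    intro a b
    have hab : Q.Ceq k (rep a * rep b) 1 := by
      have := Ceq.mul (hrep1 a) (hrep1 b) Q.isCl_one (hrepC b)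
      rwa [one_mul] at this
    have h1 : nn (π.cls (rep a * rep b)) = a + b := by
      rw [π.cls_mul _ _ (hrepC a) (hrepC b), hnn _ (hmem _ (hrepC a) (hrep1 a)) _ (hmem _ (hrepC b) (hrep1 b)),
        hrepn, hrepn]
    have h2 := hval (rep a * rep b) ((hrepC a).mul (hrepC b)) hab
    rw [h1] at h2
    rw [h2, hadd _ _ (hrep1 a) (hrep1 b)]
  -- generators
  let ι' := {i : ι // ∃ y, P i y}
  let t : ι' → A := fun i => nn (π.cls i.2.choose)
  have ht : ∀ (i : ι') (y : M), P i.1 y → nn (π.cls y) = t i := by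
    intro i y hy
    have h1 := hP _ _ hy
    have h2 := huniq i.1 y i.2.choose hy i.2.choose_spec
    change nn (π.cls y) = nn (π.cls i.2.choose)
    rw [π.cls_eq h1.1 h2]
  have hspan : nn (π.cls x) ∈ Submodule.span ℤ (Set.range t) := by
    have h1 := hgen G π x hx hx1
    have h2 : ∀ g ∈ Subgroup.closure {g | ∃ i y, P i y ∧ g = π.cls y}, g ∈ π.FF k ∧
        nn g ∈ Submodule.span ℤ (Set.range t) := by
      intro g hg
      induction hg using Subgroup.closure_induction with
      | mem g hg =>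
        obtain ⟨i, y, hy, rfl⟩ := hg
        have h3 := hP _ _ hy
        refine ⟨hmem y h3.1 h3.2, Submodule.subset_span ⟨⟨i, y, hy⟩, (ht ⟨i, y, hy⟩ y hy).symm⟩⟩
      | one => exact ⟨one_mem _, by rw [hnn.one]; exact zero_mem _⟩
      | mul a b _ _ ha hb => exact ⟨mul_mem ha.1 hb.1, by rw [hnn _ ha.1 _ hb.1]; exact add_mem ha.2 hb.2⟩
      | inv a _ ha => exact ⟨inv_mem ha.1, by rw [hnn.inv ha.1]; exact neg_mem ha.2⟩
    exact (h2 _ h1).2
  have hzero : nn (π.cls x) = 0 := by
    refine ab_torsionFree t (fun i => rank i.1) ?_ _ hspan n hn ?_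
    · intro i
      obtain ⟨lam, h1, h2, h3, h4⟩ := hlam i.1
      obtain ⟨L, hL⟩ := hhom lam h1 h2
      have hch : ∀ j : ι', L (t j) = lam j.2.choose := by
        intro j
        have h5 := hP _ _ j.2.choose_spec
        exact hL _ h5.1 h5.2
      refine ⟨L, ?_, ?_⟩
      · rw [hch i]
        exact h3 _ i.2.choose_spec
      · intro j hji hrk
        rw [hch j]
        exact h4 j.1 (fun h => hji (Subtype.ext h)) hrk _ j.2.choose_spec
    · have hpow : ∀ m : ℕ, Q.Ceq k (x ^ m) 1 ∧ nn (π.cls (x ^ m)) = m • nn (π.cls x) := by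
        intro m
        induction m with
        | zero =>
          rw [pow_zero, π.cls_one, hnn.one, zero_smul]
          exact ⟨Ceq.refl _ _, rfl⟩
        | succ m ih =>
          have h1 := Ceq.mul ih.1 hx1 Q.isCl_one hx
          rw [one_mul] at h1
          rw [pow_succ]
          refine ⟨h1, ?_⟩
          rw [π.cls_mul _ _ (hx.pow m) hx, hnn _ (hmem _ (hx.pow m) ih.1) _ (hmem _ hx hx1), ih.2, succ_nsmul]
      rw [← (hpow n).2, π.cls_eq (hx.pow n) hxn, π.cls_one, hnn.one]
  have h5 := (hker _ (hmem x hx hx1)).1 hzero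
  rw [Subgroup.mem_bot, ← π.cls_one] at h5
  exact (π.eq_iff x 1 hx Q.isCl_one).1 h5

end SLC
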