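import Pool.Agent.SLC.Defs

/-!
String links: basic relations of tangles, braids which move pairs of strands.
-/

set_option autoImplicit false

namespace SLC

/-- the tangle of a braid -/
def T (g : Br) : Tangle := (ev g : Tangle)

@[simp] theorem T_one : T 1 = 1 := by simp [T]
theorem T_mul (g h : Br) : T (g * h) = T g * T h := by simp [T]
@[simp] theorem T_mul_inv (g : Br) : T g * T g⁻¹ = 1 := by rw [← T_mul]; simp
@[simp] theorem T_inv_mul (g : Br) : T g⁻¹ * T g = 1 := by rw [← T_mul]; simp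

theorem ev_σ (i : ℕ) : ev (σ i) = Xs i := PresentedGroup.toGroup.of _
theorem T_σ (i : ℕ) : T (σ i) = Ts i := by rw [T, ev_σ]; rfl
theorem T_σ_inv (i : ℕ) : T (σ i)⁻¹ = Tt i := by rw [T, map_inv, ev_σ]; rfl
theorem perm_σ (i : ℕ) : perm (σ i) = Equiv.swap i (i + 1) := PresentedGroup.toGroup.of _

theorem C_σ (i : ℕ) : C i * T (σ i) = C i := by rw [T_σ]; exact move_eq (Move.cs i)
theorem σ_U (i : ℕ) : T (σ i) * U i = U i := by rw [T_σ]; exact move_eq (Move.su i)
theorem zig (i : ℕ) : C i * U (i + 1) = 1 := move_eq (Move.zig i)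
theorem zag (i : ℕ) : C (i + 1) * U i = 1 := move_eq (Move.zag i)

theorem slide_cs (i : ℕ) : C i * T (σ (i + 1)) = C (i + 1) * T (σ i)⁻¹ := by
  rw [T_σ, T_σ_inv]; exact move_eq (Move.slide_cs i)
theorem slide_ct (i : ℕ) : C i * T (σ (i + 1))⁻¹ = C (i + 1) * T (σ i) := by
  rw [T_σ, T_σ_inv]; exact move_eq (Move.slide_ct i)
theorem slide_su (i : ℕ) : T (σ (i + 1)) * U i = T (σ i)⁻¹ * U (i + 1) := by
  rw [T_σ, T_σ_inv]; exact move_eq (Move.slide_su i)
theorem slide_tu (i : ℕ) : T (σ (i + 1))⁻¹ * U i = T (σ i) * U (i + 1) := by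
  rw [T_σ, T_σ_inv]; exact move_eq (Move.slide_tu i)

theorem σU_right {i k : ℕ} (h : i ≤ k) : T (σ (k + 2)) * U i = U i * T (σ k) := by
  rw [T_σ, T_σ]; exact move_eq (Move.su_right i k h)
theorem σU_left {i k : ℕ} (h : k + 2 ≤ i) : T (σ k) * U i = U i * T (σ k) := by
  rw [T_σ]; exact move_eq (Move.su_left i k h)
theorem Cσ_right {i k : ℕ} (h : i ≤ k) : C i * T (σ (k + 2)) = T (σ k) * C i := by
  rw [T_σ, T_σ]; exact move_eq (Move.cs_right i k h)
theorem Cσ_left {i k : ℕ} (h : k + 2 ≤ i) : C i * T (σ k) = T (σ k) * C i := by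
  rw [T_σ]; exact move_eq (Move.cs_left i k h)
theorem UU {i k : ℕ} (h : i ≤ k) : U (k + 2) * U i = U i * U k := move_eq (Move.uu i k h)
theorem CC {i k : ℕ} (h : i ≤ k) : C i * C (k + 2) = C k * C i := move_eq (Move.cc i k h)
theorem CU {i k : ℕ} (h : i ≤ k) : C (k + 2) * U i = U i * C k := move_eq (Move.cu i k h)
theorem UC {i k : ℕ} (h : i ≤ k) : C i * U (k + 2) = U k * C i := move_eq (Move.uc i k h)

/-- X g = g' Y gives X g⁻¹ = g'⁻¹ Y' -/
theorem cap_inv {X Y : Tangle} {g g' : Br} (h : X * T g = T g' * Y) : Y * T g⁻¹ = T g'⁻¹ * X := by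
  calc Y * T g⁻¹ = T g'⁻¹ * (T g' * Y) * T g⁻¹ := by rw [← mul_assoc, T_inv_mul, one_mul]
    _ = T g'⁻¹ * X := by rw [← h, mul_assoc, mul_assoc, T_mul_inv, mul_one]

theorem cap_mul {X Y Z : Tangle} {g g' h h' : Br} (h1 : X * T g = T g' * Y) (h2 : Y * T h = T h' * Z) :
    X * T (g * h) = T (g' * h') * Z := by
  rw [T_mul, T_mul, ← mul_assoc, h1, mul_assoc, h2, mul_assoc]

theorem cup_inv {X Y : Tangle} {g g' : Br} (h : T g * X = Y * T g') : T g⁻¹ * Y = X * T g'⁻¹ := by
  calc T g⁻¹ * Y = T g⁻¹ * (Y * T g') * T g'⁻¹ := by rw [mul_assoc, mul_assoc, T_mul_inv, mul_one]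
    _ = X * T g'⁻¹ := by rw [← h, ← mul_assoc, T_inv_mul, one_mul]

theorem cup_mul {X Y Z : Tangle} {g g' h h' : Br} (h1 : T g * Y = X * T g') (h2 : T h * Z = Y * T h') :
    T (g * h) * Z = X * T (g' * h') := by
  rw [T_mul, T_mul, mul_assoc, h2, ← mul_assoc, h1, mul_assoc]

theorem σ_mem {n i : ℕ} (h : i + 1 < n) : σ i ∈ BN n := Subgroup.subset_closure ⟨i, h, rfl⟩

theorem BN_mono {n m : ℕ} (h : n ≤ m) : BN n ≤ BN m := by
  refine Subgroup.closure_mono ?_
  rintro g ⟨i, hi, rfl⟩
  exact ⟨i, by omega, rfl⟩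

theorem PN_mono {n m : ℕ} (h : n ≤ m) : PN n ≤ PN m := inf_le_inf_right _ (BN_mono h)

/-- far right maxima commute with braids -/
theorem C_BN {n m : ℕ} (hm : n ≤ m) {g : Br} (hg : g ∈ BN n) : C m * T g = T g * C m := by
  induction hg using Subgroup.closure_induction with
  | mem x hx =>
    obtain ⟨i, hi, rfl⟩ := hx
    exact Cσ_left (by omega)
  | one => simp
  | mul x y _ _ hx hy => exact cap_mul hx hy
  | inv x _ hx => exact cap_inv hx

/-- far right minima commute with braids -/
theorem U_BN {n m : ℕ} (hm : n ≤ m) {g : Br} (hg : g ∈ BN n) : T g * U m = U m * T g := by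
  induction hg using Subgroup.closure_induction with
  | mem x hx =>
    obtain ⟨i, hi, rfl⟩ := hx
    exact σU_left (by omega)
  | one => simp
  | mul x y _ _ hx hy => exact cup_mul hx hy
  | inv x _ hx => exact cup_inv hx

/-- the strand p goes over the pair p + 1, p + 2 to the right -/
def wv (p : ℕ) : Br := σ (p + 1) * σ p

theorem C_wv (p : ℕ) : C p * T (wv p) = C (p + 1) := by
  rw [wv, T_mul, ← mul_assoc, slide_cs, mul_assoc, T_inv_mul, mul_one]

theorem wv_U (p : ℕ) : T (wv p) * U (p + 1) = U p := by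
  rw [wv, T_mul, mul_assoc, ← slide_tu, ← mul_assoc, T_mul_inv, one_mul]

theorem wv_mem {n p : ℕ} (h : p + 2 < n) : wv p ∈ BN n := mul_mem (σ_mem (by omega)) (σ_mem (by omega))

theorem perm_wv (p x : ℕ) : perm (wv p) x = if x = p then p + 2 else if x = p + 1 then p else
    if x = p + 2 then p + 1 else x := by
  rw [wv, map_mul, perm_σ, perm_σ, Equiv.Perm.mul_apply]
  simp only [Equiv.swap_apply_def]
  split_ifs <;> omega

/-- the pair q + k, q + k + 1 moves to q, q + 1 -/
def zv : ℕ → ℕ → Br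
  | _, 0 => 1
  | q, k + 1 => wv q * zv (q + 1) k

theorem C_zv (q k : ℕ) : C q * T (zv q k) = C (q + k) := by
  induction k generalizing q with
  | zero => simp [zv]
  | succ k ih =>
    rw [zv, T_mul, ← mul_assoc, C_wv, ih]
    congr 1
    omega

theorem zv_U (q k : ℕ) : T (zv q k) * U (q + k) = U q := by
  induction k generalizing q with
  | zero => simp [zv]
  | succ k ih =>
    have e : q + (k + 1) = q + 1 + k := by omega
    rw [zv, T_mul, mul_assoc, e, ih, wv_U]

theorem zv_mem {n : ℕ} (q k : ℕ) (h : q + k + 2 ≤ n) : zv q k ∈ BN n := by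
  induction k generalizing q with
  | zero => exact one_mem _
  | succ k ih => exact mul_mem (wv_mem (by omega)) (ih (q + 1) (by omega))

theorem perm_zv (q k x : ℕ) : perm (zv q k) x = if x < q then x else if x < q + k then x + 2 else
    if x < q + k + 2 then x - k else x := by
  induction k generalizing q x with
  | zero =>
    simp only [zv, map_one, Equiv.Perm.one_apply]
    split_ifs <;> omega
  | succ k ih =>
    rw [zv, map_mul, Equiv.Perm.mul_apply, ih, perm_wv]
    split_ifs <;> omega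

/-- braids on the strands n, ..., N - 1 -/
def BU (n N : ℕ) : Subgroup Br := Subgroup.closure {g | ∃ i, n ≤ i ∧ i + 1 < N ∧ g = σ i}

theorem BU_le {n N : ℕ} : BU n N ≤ BN N := by
  refine Subgroup.closure_mono ?_
  rintro g ⟨i, _, hi, rfl⟩
  exact ⟨i, hi, rfl⟩

theorem BU_mono {n n' N : ℕ} (h : n ≤ n') : BU n' N ≤ BU n N := by
  refine Subgroup.closure_mono ?_
  rintro g ⟨i, h1, hi, rfl⟩
  exact ⟨i, by omega, hi, rfl⟩

/-- the strand n moves to n + k -/
def upv : ℕ → ℕ → Br
  | _, 0 => 1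
  | n, k + 1 => σ (n + k) * upv n k

theorem upv_mem {n N : ℕ} (k : ℕ) (h : n + k < N) : upv n k ∈ BU n N := by
  induction k with
  | zero => exact one_mem _
  | succ k ih => exact mul_mem (Subgroup.subset_closure ⟨n + k, by omega, by omega, rfl⟩) (ih (by omega))

theorem perm_upv (n k x : ℕ) : perm (upv n k) x = if x < n then x else if x = n then n + k else
    if x ≤ n + k then x - 1 else x := by
  induction k with
  | zero =>
    simp only [upv, map_one, Equiv.Perm.one_apply]
    split_ifs <;> omega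
  | succ k ih =>
    rw [upv, map_mul, Equiv.Perm.mul_apply, ih, perm_σ]
    simp only [Equiv.swap_apply_def]
    split_ifs <;> omega

/-- every permutation of n, ..., N - 1 is the permutation of a braid -/
theorem exists_braid (n N : ℕ) (π : Equiv.Perm ℕ) (h1 : ∀ x < n, π x = x) (h2 : ∀ x, N ≤ x → π x = x) :
    ∃ e ∈ BU n N, perm e = π := by
  obtain ⟨k, hk⟩ : ∃ k, N - n = k := ⟨_, rfl⟩
  induction k generalizing n π with
  | zero =>
    refine ⟨1, one_mem _, ?_⟩
    rw [map_one]
    ext x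
    rcases Nat.lt_or_ge x n with h | h
    · rw [h1 x h]; rfl
    · rw [h2 x (by omega)]; rfl
  | succ k ih =>
    have ha : n ≤ π n := by
      by_contra hc
      have h3 := h1 (π n) (by omega)
      have h4 := π.injective h3
      omega
    have hb : π n < N := by
      by_contra hc
      have h3 := h2 (π n) (by omega)
      have h4 := π.injective h3
      omega
    obtain ⟨j, hj⟩ : ∃ j, π n = n + j := ⟨π n - n, by omega⟩
    obtain ⟨e, he, hp⟩ := ih (n + 1) ((perm (upv n j))⁻¹ * π) (by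
      intro x hx
      rw [Equiv.Perm.mul_apply, Equiv.Perm.inv_eq_iff_eq, perm_upv]
      rcases Nat.lt_or_ge x n with h | h
      · rw [h1 x h, if_pos h]
      · have : x = n := by omega
        subst this
        rw [if_neg (by omega), if_pos rfl, hj]) (by
      intro x hx
      rw [Equiv.Perm.mul_apply, Equiv.Perm.inv_eq_iff_eq, perm_upv, h2 x hx, if_neg (by omega), if_neg (by omega),
        if_neg (by omega)]) (by omega)
    refine ⟨upv n j * e, mul_mem (upv_mem j (by omega)) (BU_mono (by omega) he), ?_⟩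
    rw [map_mul, hp]
    group

theorem BU_comm {n N : ℕ} {g e : Br} (hg : g ∈ BN n) (he : e ∈ BU n N) : g * e = e * g := by
  have h1 : ∀ i, n ≤ i → g * σ i = σ i * g := by
    intro i hi
    induction hg using Subgroup.closure_induction with
    | mem x hx =>
      obtain ⟨k, hk, rfl⟩ := hx
      have h2 : (PresentedGroup.mk braidRels) (FreeGroup.of k * FreeGroup.of i * (FreeGroup.of i * FreeGroup.of k)⁻¹) = 1 :=
        (QuotientGroup.eq_one_iff _).2 (Subgroup.subset_normalClosure (Or.inl ⟨k, i, by omega, rfl⟩))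
      rw [map_mul, map_inv, mul_inv_eq_one, map_mul, map_mul] at h2
      exact h2
    | one => simp
    | mul x y _ _ hx hy => rw [mul_assoc, hy, ← mul_assoc, hx, mul_assoc]
    | inv x _ hx => rw [inv_mul_eq_iff_eq_mul, ← mul_assoc, hx, mul_assoc, mul_inv_cancel, mul_one]
  induction he using Subgroup.closure_induction with
  | mem x hx =>
    obtain ⟨k, hk, _, rfl⟩ := hx
    exact h1 k hk
  | one => simp
  | mul x y _ _ hx hy => rw [← mul_assoc, hx, mul_assoc, hy, mul_assoc]
  | inv x _ hx => rw [mul_inv_eq_iff_eq_mul, mul_assoc, hx, ← mul_assoc, inv_mul_cancel, one_mul]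

end SLC
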