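import Pool.Agent.SLC.Top1

/-!
String links: tripling of a strand.
-/

set_option autoImplicit false

namespace SLC

theorem perm_lt {n : ℕ} {g : Br} (hg : g ∈ BN n) : (∀ x, x < n → perm g x < n) ∧ ∀ x, n ≤ x → perm g x = x := by
  have h : ∀ x, n ≤ x → perm g x = x := by
    induction hg using Subgroup.closure_induction with
    | mem x hx =>
      obtain ⟨i, hi, rfl⟩ := hx
      intro y hy
      rw [perm_σ, Equiv.swap_apply_def]
      split_ifs <;> omega
    | one => intro y _; simp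
    | mul x y _ _ hx hy => intro z hz; rw [map_mul, Equiv.Perm.mul_apply, hy z hz, hx z hz]
    | inv x _ hx =>
      intro z hz
      rw [map_inv, Equiv.Perm.inv_eq_iff_eq, hx z hz]
  refine ⟨fun x hx => ?_, h⟩
  by_contra hc
  have h1 := h (perm g x) (by omega)
  have h2 := (perm g).injective h1
  omega

/-- position of the strand x after two copies of the strand q are inserted -/
def ins (q x : ℕ) : ℕ := if x < q then x else x + 2

/-- g3 is g with three copies of the strand q -/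
structure Trip (n q : ℕ) (g g3 : Br) : Prop where
  mem : g3 ∈ BN (n + 2)
  c0 : C (perm g q) * T g3 = T g * C q
  c1 : C (perm g q + 1) * T g3 = T g * C (q + 1)
  u0 : T g3 * U q = U (perm g q) * T g
  u1 : T g3 * U (q + 1) = U (perm g q + 1) * T g
  po : ∀ x, x ≠ q → perm g3 (ins q x) = ins (perm g q) (perm g x)
  p0 : perm g3 q = perm g q
  p1 : perm g3 (q + 1) = perm g q + 1
  p2 : perm g3 (q + 2) = perm g q + 2

theorem C_up (i : ℕ) : C (i + 1) * (T (σ i) * T (σ (i + 1))) = C i := by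
  rw [← mul_assoc, ← slide_ct, mul_assoc, T_inv_mul, mul_one]

theorem C_down (i : ℕ) : C i * (T (σ (i + 1)) * T (σ i)) = C (i + 1) := by
  rw [← mul_assoc, slide_cs, mul_assoc, T_inv_mul, mul_one]

theorem U_up (i : ℕ) : T (σ i) * (T (σ (i + 1)) * U i) = U (i + 1) := by
  rw [slide_su, ← mul_assoc, T_mul_inv, one_mul]

theorem U_down (i : ℕ) : T (σ (i + 1)) * (T (σ i) * U (i + 1)) = U i := by
  rw [← slide_tu, ← mul_assoc, T_mul_inv, one_mul]

theorem trip_gen {n i q : ℕ} (hi : i + 1 < n) : ∃ g3, Trip n q (σ i) g3 := by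
  have hpi : perm (σ i) i = i + 1 := by rw [perm_σ, Equiv.swap_apply_left]
  have hpi1 : perm (σ i) (i + 1) = i := by rw [perm_σ, Equiv.swap_apply_right]
  have hpo : ∀ x, x ≠ i → x ≠ i + 1 → perm (σ i) x = x := fun x h1 h2 => by
    rw [perm_σ, Equiv.swap_apply_of_ne_of_ne h1 h2]
  rcases lt_trichotomy q i with h | h | h
  · have e := hpo q (by omega) (by omega)
    refine ⟨σ (i + 2), ⟨σ_mem (by omega), ?_, ?_, ?_, ?_, ?_, ?_, ?_, ?_⟩⟩
    · rw [e]; exact Cσ_right (by omega)
    · rw [e]; exact Cσ_right (by omega)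
    · rw [e]; exact σU_right (by omega)
    · rw [e]; exact σU_right (by omega)
    · intro x hx
      rw [e, perm_σ, perm_σ]
      simp only [ins, Equiv.swap_apply_def]
      split_ifs <;> omega
    · rw [e, perm_σ, Equiv.swap_apply_def]; split_ifs <;> omega
    · rw [e, perm_σ, Equiv.swap_apply_def]; split_ifs <;> omega
    · rw [e, perm_σ, Equiv.swap_apply_def]; split_ifs <;> omega
  · subst h
    refine ⟨σ q * σ (q + 1) * σ (q + 2), ⟨mul_mem (mul_mem (σ_mem (by omega)) (σ_mem (by omega)))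
      (σ_mem (by omega)), ?_, ?_, ?_, ?_, ?_, ?_, ?_, ?_⟩⟩
    · rw [hpi, T_mul, T_mul, ← mul_assoc, C_up, Cσ_right (le_refl q)]
    · rw [hpi, T_mul, T_mul, mul_assoc, ← mul_assoc, Cσ_left (le_refl _), mul_assoc, C_up]
    · rw [hpi, T_mul, T_mul, mul_assoc, σU_right (le_refl q), ← mul_assoc, mul_assoc (T (σ q)), U_up]
    · rw [hpi, T_mul, T_mul, mul_assoc, mul_assoc, U_up, σU_left (le_refl _)]
    · intro x hx
      simp only [map_mul, perm_σ, Equiv.Perm.mul_apply, ins, Equiv.swap_apply_def]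
      split_ifs <;> omega
    · simp only [map_mul, perm_σ, Equiv.Perm.mul_apply, Equiv.swap_apply_def]; split_ifs <;> omega
    · simp only [map_mul, perm_σ, Equiv.Perm.mul_apply, Equiv.swap_apply_def]; split_ifs <;> omega
    · simp only [map_mul, perm_σ, Equiv.Perm.mul_apply, Equiv.swap_apply_def]; split_ifs <;> omega
  · rcases Nat.lt_or_ge (i + 1) q with h2 | h2
    · have e := hpo q (by omega) (by omega)
      refine ⟨σ i, ⟨σ_mem (by omega), ?_, ?_, ?_, ?_, ?_, ?_, ?_, ?_⟩⟩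
      · rw [e]; exact Cσ_left (by omega)
      · rw [e]; exact Cσ_left (by omega)
      · rw [e]; exact σU_left (by omega)
      · rw [e]; exact σU_left (by omega)
      · intro x hx
        rw [e, perm_σ]
        simp only [ins, Equiv.swap_apply_def]
        split_ifs <;> omega
      · rfl
      · rw [e, perm_σ, Equiv.swap_apply_def]; split_ifs <;> omega
      · rw [e, perm_σ, Equiv.swap_apply_def]; split_ifs <;> omega
    · have e : q = i + 1 := by omega
      subst e
      refine ⟨σ (i + 2) * σ (i + 1) * σ i, ⟨mul_mem (mul_mem (σ_mem (by omega)) (σ_mem (by omega)))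
        (σ_mem (by omega)), ?_, ?_, ?_, ?_, ?_, ?_, ?_, ?_⟩⟩
      · rw [hpi1, T_mul, T_mul, mul_assoc, ← mul_assoc, Cσ_right (le_refl i), mul_assoc, C_down]
      · rw [hpi1, T_mul, T_mul, ← mul_assoc, C_down, Cσ_left (le_refl _)]
      · rw [hpi1, T_mul, T_mul, mul_assoc, mul_assoc, U_down, σU_right (le_refl i)]
      · rw [hpi1, T_mul, T_mul, mul_assoc, σU_left (le_refl _), ← mul_assoc, mul_assoc (T (σ (i + 2))), U_down]
      · intro x hx
        simp only [map_mul, perm_σ, Equiv.Perm.mul_apply, ins, Equiv.swap_apply_def]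
        split_ifs <;> omega
      · simp only [map_mul, perm_σ, Equiv.Perm.mul_apply, Equiv.swap_apply_def]; split_ifs <;> omega
      · simp only [map_mul, perm_σ, Equiv.Perm.mul_apply, Equiv.swap_apply_def]; split_ifs <;> omega
      · simp only [map_mul, perm_σ, Equiv.Perm.mul_apply, Equiv.swap_apply_def]; split_ifs <;> omega

theorem trip_exists {n : ℕ} {g : Br} (hg : g ∈ BN n) : ∀ q, q < n → ∃ g3, Trip n q g g3 := by
  induction hg using Subgroup.closure_induction with
  | mem x hx =>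
    obtain ⟨i, hi, rfl⟩ := hx
    exact fun q _ => trip_gen hi
  | one =>
    intro q _
    refine ⟨1, ⟨one_mem _, ?_, ?_, ?_, ?_, ?_, ?_, ?_, ?_⟩⟩ <;> simp
  | mul x y hx' hy' hx hy =>
    intro q hq
    obtain ⟨y3, hy3⟩ := hy q hq
    obtain ⟨x3, hx3⟩ := hx (perm y q) ((perm_lt hy').1 q hq)
    have e : ∀ z, perm (x * y) z = perm x (perm y z) := fun z => by rw [map_mul, Equiv.Perm.mul_apply]
    have e3 : ∀ z, perm (x3 * y3) z = perm x3 (perm y3 z) := fun z => by rw [map_mul, Equiv.Perm.mul_apply]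
    refine ⟨x3 * y3, ⟨mul_mem hx3.mem hy3.mem, ?_, ?_, ?_, ?_, ?_, ?_, ?_, ?_⟩⟩
    · rw [e]; exact cap_mul hx3.c0 hy3.c0
    · rw [e]; exact cap_mul hx3.c1 hy3.c1
    · rw [e]; exact cup_mul hx3.u0 hy3.u0
    · rw [e]; exact cup_mul hx3.u1 hy3.u1
    · intro z hz
      rw [e, e, e3, hy3.po z hz, hx3.po _ (fun h => hz ((perm y).injective h))]
    · rw [e, e3, hy3.p0, hx3.p0]
    · rw [e, e3, hy3.p1, hx3.p1]
    · rw [e, e3, hy3.p2, hx3.p2]
  | inv x hx' hx =>
    intro q hq
    have hq' : perm x⁻¹ q < n := (perm_lt (inv_mem hx')).1 q hq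
    obtain ⟨x3, hx3⟩ := hx (perm x⁻¹ q) hq'
    have e : perm x (perm x⁻¹ q) = q := by rw [map_inv]; exact Equiv.apply_symm_apply _ _
    refine ⟨x3⁻¹, ⟨inv_mem hx3.mem, ?_, ?_, ?_, ?_, ?_, ?_, ?_, ?_⟩⟩
    · have := hx3.c0; rw [e] at this; exact cap_inv this
    · have := hx3.c1; rw [e] at this; exact cap_inv this
    · have := hx3.u0; rw [e] at this; exact cup_inv this
    · have := hx3.u1; rw [e] at this; exact cup_inv this
    · intro z hz
      rw [map_inv, Equiv.Perm.inv_eq_iff_eq]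
      have h1 : perm x⁻¹ z ≠ perm x⁻¹ q := fun h => hz ((perm x⁻¹).injective h)
      rw [hx3.po _ h1, e, map_inv]
      exact congrArg (ins q) (Equiv.apply_symm_apply _ _).symm
    · rw [map_inv, Equiv.Perm.inv_eq_iff_eq, hx3.p0, e]
    · rw [map_inv, Equiv.Perm.inv_eq_iff_eq, hx3.p1, e]
    · rw [map_inv, Equiv.Perm.inv_eq_iff_eq, hx3.p2, e]

theorem PN_iff {n : ℕ} {g : Br} : g ∈ PN n ↔ g ∈ BN n ∧ ∀ x, perm g x = x := by
  rw [PN, Subgroup.mem_inf, MonoidHom.mem_ker]
  refine and_congr_right fun _ => ⟨fun h x => by rw [h]; rfl, fun h => ?_⟩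
  ext x
  rw [h x]
  rfl

theorem Trip.pure {n q : ℕ} {g g3 : Br} (h : Trip n q g g3) (hg : g ∈ PN n) : g3 ∈ PN (n + 2) := by
  rw [PN_iff] at hg ⊢
  obtain ⟨_, h1⟩ := hg
  refine ⟨h.mem, fun x => ?_⟩
  have e := h1 q
  rcases lt_trichotomy x q with hx | hx | hx
  · have := h.po x (by omega)
    rw [h1, h1] at this
    rw [ins, if_pos hx] at this
    exact this
  · subst hx; rw [h.p0, e]
  · rcases Nat.lt_or_ge (q + 2) x with hx2 | hx2
    · have := h.po (x - 2) (by omega)
      rw [h1, h1, ins, if_neg (by omega)] at this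
      have e2 : x - 2 + 2 = x := by omega
      rwa [e2] at this
    · rcases Nat.lt_or_ge x (q + 2) with hx3 | hx3
      · have e2 : x = q + 1 := by omega
        subst e2; rw [h.p1, e]
      · have e2 : x = q + 2 := by omega
        subst e2; rw [h.p2, e]

/-- pairs: a pure braid and the same with the strand q tripled -/
def TripR (n q : ℕ) : Subgroup (Br × Br) where
  carrier := {p | p.1 ∈ PN n ∧ p.2 ∈ PN (n + 2) ∧ C q * T p.2 = T p.1 * C q ∧ C (q + 1) * T p.2 = T p.1 * C (q + 1) ∧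
    T p.2 * U q = U q * T p.1 ∧ T p.2 * U (q + 1) = U (q + 1) * T p.1}
  one_mem' := ⟨one_mem _, one_mem _, by simp, by simp, by simp, by simp⟩
  mul_mem' := by
    rintro a b ⟨a1, a2, a3, a4, a5, a6⟩ ⟨b1, b2, b3, b4, b5, b6⟩
    exact ⟨mul_mem a1 b1, mul_mem a2 b2, cap_mul a3 b3, cap_mul a4 b4, cup_mul a5 b5, cup_mul a6 b6⟩
  inv_mem' := by
    rintro a ⟨a1, a2, a3, a4, a5, a6⟩
    exact ⟨inv_mem a1, inv_mem a2, cap_inv a3, cap_inv a4, cup_inv a5, cup_inv a6⟩

/-- tripling in the lower central series -/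
theorem trip_Gam {n q k : ℕ} (hq : q < n) {γ : Br} (hγ : γ ∈ Gam k n) : ∃ γ3 ∈ Gam k (n + 2),
    C q * T γ3 = T γ * C q ∧ C (q + 1) * T γ3 = T γ * C (q + 1) ∧
    T γ3 * U q = U q * T γ ∧ T γ3 * U (q + 1) = U (q + 1) * T γ := by
  have h1 : (TripR n q).map (MonoidHom.fst Br Br) = PN n := by
    ext g
    constructor
    · rintro ⟨p, hp, rfl⟩
      exact hp.1
    · intro hg
      have hg' := PN_iff.1 hg
      obtain ⟨g3, h3⟩ := trip_exists hg'.1 q hq
      have e := hg'.2 q
      refine ⟨(g, g3), ⟨hg, h3.pure hg, ?_, ?_, ?_, ?_⟩, rfl⟩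
      · have := h3.c0; rwa [e] at this
      · have := h3.c1; rwa [e] at this
      · have := h3.u0; rwa [e] at this
      · have := h3.u1; rwa [e] at this
  have h2 : (TripR n q).map (MonoidHom.snd Br Br) ≤ PN (n + 2) := by
    rintro g ⟨p, hp, rfl⟩
    exact hp.2.1
  have h3 : γ ∈ ((TripR n q).lowerCentralSeries (k - 1)).map (MonoidHom.fst Br Br) := by
    rw [Subgroup.map_lowerCentralSeries, h1]
    exact hγ
  obtain ⟨p, hp, rfl⟩ := h3
  have h4 : p.2 ∈ ((TripR n q).lowerCentralSeries (k - 1)).map (MonoidHom.snd Br Br) := ⟨p, hp, rfl⟩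
  rw [Subgroup.map_lowerCentralSeries] at h4
  have h5 : p ∈ TripR n q := (TripR n q).lowerCentralSeries_antitone (Nat.zero_le _) hp
  exact ⟨p.2, Subgroup.lowerCentralSeries_mono _ h2 h4, h5.2.2⟩

end SLC
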