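import Pool.Agent.SLC.Top2

/-!
String links: a strand of a pure braid moves along its component by two positions.
-/

set_option autoImplicit false

namespace SLC

theorem Gam_mono {k n m : ℕ} (h : n ≤ m) : Gam k n ≤ Gam k m := Subgroup.lowerCentralSeries_mono _ (PN_mono h)

theorem Gam_anti {k k' n : ℕ} (h : k ≤ k') : Gam k' n ≤ Gam k n :=
  (PN n).lowerCentralSeries_antitone (Nat.sub_le_sub_right h 1)

theorem Gam_le_PN {k n : ℕ} : Gam k n ≤ PN n := (PN n).lowerCentralSeries_antitone (Nat.zero_le _)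

theorem PN_conj {n : ℕ} {c p : Br} (hc : c ∈ BN n) (hp : p ∈ PN n) : c * p * c⁻¹ ∈ PN n := by
  rw [PN, Subgroup.mem_inf, MonoidHom.mem_ker] at hp ⊢
  refine ⟨mul_mem (mul_mem hc hp.1) (inv_mem hc), ?_⟩
  rw [map_mul, map_mul, hp.2, mul_one, map_inv, mul_inv_cancel]

theorem Gam_conj {k n : ℕ} {c γ : Br} (hc : c ∈ BN n) (hγ : γ ∈ Gam k n) : c * γ * c⁻¹ ∈ Gam k n := by
  have h1 : (PN n).map (MulAut.conj c).toMonoidHom ≤ PN n := by
    rintro _ ⟨p, hp, rfl⟩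
    exact PN_conj hc hp
  have h2 : c * γ * c⁻¹ ∈ ((PN n).lowerCentralSeries (k - 1)).map (MulAut.conj c).toMonoidHom := ⟨γ, hγ, rfl⟩
  rw [Subgroup.map_lowerCentralSeries] at h2
  exact Subgroup.lowerCentralSeries_mono _ h1 h2

theorem Gam_comm {k n : ℕ} (hk : 1 ≤ k) {p γ : Br} (hp : p ∈ PN n) (hγ : γ ∈ Gam k n) :
    ∃ q ∈ Gam (k + 1) n, p * γ * p⁻¹ = γ * q := by
  refine ⟨γ⁻¹ * p * γ * p⁻¹, ?_, by group⟩
  have e : Gam (k + 1) n = ⁅Gam k n, PN n⁆ := by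
    have : k + 1 - 1 = (k - 1) + 1 := by omega
    rw [Gam, this, Subgroup.lowerCentralSeries_succ]
    rfl
  rw [e]
  have h := Subgroup.commutator_mem_commutator (inv_mem hγ) hp
  rw [commutatorElement_def, inv_inv] at h
  exact h

/-- conjugates of γ with the same positions of the strands agree modulo the next term -/
theorem class_indep {k n N : ℕ} (hk : 1 ≤ k) {c c' γ : Br} (hc : c ∈ BN N) (hc' : c' ∈ BN N)
    (hn : n ≤ N) (h : ∀ x < n, perm c x = perm c' x) (hγ : γ ∈ Gam k n) :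
    ∃ q ∈ Gam (k + 1) N, c * γ * c⁻¹ = c' * γ * c'⁻¹ * q := by
  have hg : c⁻¹ * c' ∈ BN N := mul_mem (inv_mem hc) hc'
  obtain ⟨e, he, hpe⟩ := exists_braid n N (perm (c⁻¹ * c')) (by
    intro x hx
    rw [map_mul, Equiv.Perm.mul_apply, map_inv, Equiv.Perm.inv_eq_iff_eq, h x hx]) (perm_lt hg).2
  have heN : e ∈ BN N := BU_le he
  have hp : e⁻¹ * (c⁻¹ * c') ∈ PN N := by
    rw [PN, Subgroup.mem_inf, MonoidHom.mem_ker]
    refine ⟨mul_mem (inv_mem heN) hg, ?_⟩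
    rw [map_mul, map_inv, hpe, inv_mul_cancel]
  obtain ⟨q0, hq0, h0⟩ := Gam_comm hk hp (Gam_mono hn hγ)
  refine ⟨(c * e * q0 * (c * e)⁻¹)⁻¹, inv_mem (Gam_conj (mul_mem hc heN) hq0), ?_⟩
  have h1 : γ * e = e * γ := BU_comm (Gam_le_PN hγ).1 he
  have h2 : c' * γ * c'⁻¹ = c * γ * c⁻¹ * (c * e * q0 * (c * e)⁻¹) := by
    calc c' * γ * c'⁻¹ = c * e * ((e⁻¹ * (c⁻¹ * c')) * γ * (e⁻¹ * (c⁻¹ * c'))⁻¹) * (c * e)⁻¹ := by group
      _ = c * (e * γ) * q0 * (c * e)⁻¹ := by rw [h0]; group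
      _ = c * (γ * e) * q0 * (c * e)⁻¹ := by rw [h1]
      _ = c * γ * c⁻¹ * (c * e * q0 * (c * e)⁻¹) := by group
  rw [h2]
  group

/-- braids with prescribed positions of the strands 0, ..., n - 1 -/
theorem exists_inj (n M : ℕ) (f : ℕ → ℕ) (h1 : ∀ x < n, f x < M) (h2 : ∀ x < n, ∀ y < n, f x = f y → x = y) :
    ∃ c ∈ BN M, ∀ x < n, perm c x = f x := by
  induction n with
  | zero => exact ⟨1, one_mem _, fun x hx => absurd hx (Nat.not_lt_zero x)⟩
  | succ n ih =>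
    obtain ⟨c, hc, hp⟩ := ih (fun x hx => h1 x (by omega)) (fun x hx y hy => h2 x (by omega) y (by omega))
    have hy2 : perm c⁻¹ (f n) < M := (perm_lt (inv_mem hc)).1 _ (h1 n (by omega))
    have e : perm c (perm c⁻¹ (f n)) = f n := by rw [map_inv]; exact Equiv.apply_symm_apply _ _
    have hy1 : n ≤ perm c⁻¹ (f n) := by
      by_contra hcon
      have h3 := hp (perm c⁻¹ (f n)) (by omega)
      rw [e] at h3
      have h4 := h2 n (by omega) _ (by omega) h3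
      omega
    refine ⟨c * upv n (perm c⁻¹ (f n) - n), mul_mem hc (BU_le (upv_mem _ (by omega))), fun x hx => ?_⟩
    rw [map_mul, Equiv.Perm.mul_apply, perm_upv]
    rcases Nat.lt_or_ge x n with hx2 | hx2
    · rw [if_pos hx2, hp x hx2]
    · have : x = n := by omega
      subst this
      rw [if_neg (by omega), if_pos rfl]
      have e2 : x + (perm c⁻¹ (f x) - x) = perm c⁻¹ (f x) := by omega
      rw [e2, e]

/-- g and g' differ by elements of the term k which disappear at the maxima or minima, and an element of the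
term k + 1 -/
def Eqv (r : List ℕ) (k : ℕ) (g g' : Br) : Prop :=
  ∃ h ∈ Gam k (width r), ∃ h' ∈ Gam k (width r), ∃ q ∈ Gam (k + 1) (width r),
    caps 0 r * T h = caps 0 r ∧ T h' * cups 0 r = cups 0 r ∧ g = h * g' * h' * q

theorem Eqv.refl {r : List ℕ} {k : ℕ} (g : Br) : Eqv r k g g :=
  ⟨1, one_mem _, 1, one_mem _, 1, one_mem _, by simp, by simp, by simp⟩

theorem Eqv.of_mul {r : List ℕ} {k : ℕ} {g g' q : Br} (hq : q ∈ Gam (k + 1) (width r)) (h : g = g' * q) :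
    Eqv r k g g' := ⟨1, one_mem _, 1, one_mem _, q, hq, by simp, by simp, by simp [h]⟩

theorem Eqv.trans {r : List ℕ} {k : ℕ} {a b c : Br} (h1 : Eqv r k a b) (h2 : Eqv r k b c) : Eqv r k a c := by
  obtain ⟨x, hx, x', hx', q, hq, e1, e2, rfl⟩ := h1
  obtain ⟨y, hy, y', hy', q', hq', e3, e4, rfl⟩ := h2
  refine ⟨x * y, mul_mem hx hy, y' * x', mul_mem hy' hx', x'⁻¹ * q' * x'⁻¹⁻¹ * q,
    mul_mem (Gam_conj (inv_mem (Gam_le_PN hx').1) hq') hq, ?_, ?_, by group⟩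
  · rw [T_mul, ← mul_assoc, e1, e3]
  · rw [T_mul, mul_assoc, e2, e4]

theorem Eqv.symm {r : List ℕ} {k : ℕ} {a b : Br} (h1 : Eqv r k a b) : Eqv r k b a := by
  obtain ⟨x, hx, x', hx', q, hq, e1, e2, rfl⟩ := h1
  refine ⟨x⁻¹, inv_mem hx, x'⁻¹, inv_mem hx', x' * q⁻¹ * x'⁻¹, Gam_conj (Gam_le_PN hx').1 (inv_mem hq), ?_, ?_,
    by group⟩
  · calc caps 0 r * T x⁻¹ = caps 0 r * T x * T x⁻¹ := by rw [e1]
      _ = caps 0 r := by rw [mul_assoc, T_mul_inv, mul_one]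
  · calc T x'⁻¹ * cups 0 r = T x'⁻¹ * (T x' * cups 0 r) := by rw [e2]
      _ = cups 0 r := by rw [← mul_assoc, T_inv_mul, one_mul]

/-- the strands p, p + 1, p + 2 belong to one component and follow each other -/
def Pos (r : List ℕ) (p : ℕ) : Prop := p + 2 < width r ∧
  (((∃ A, caps 0 r = A * C p) ∧ ∃ B, cups 0 r = U (p + 1) * B) ∨
    ((∃ A, caps 0 r = A * C (p + 1)) ∧ ∃ B, cups 0 r = U p * B))

theorem one_step {r : List ℕ} {k n p a : ℕ} (hk : 1 ≤ k) (hp : Pos r p) (hn : n + 2 ≤ width r) {c c' γ : Br}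
    (hc : c ∈ BN (width r)) (hc' : c' ∈ BN (width r)) (ha : a < n) (h1 : perm c a = p) (h2 : perm c' a = p + 2)
    (h3 : ∀ x < n, x ≠ a → perm c' x = perm c x ∧ perm c x ≠ p + 1 ∧ perm c x ≠ p + 2)
    (hγ : γ ∈ Gam k n) : Eqv r k (c * γ * c⁻¹) (c' * γ * c'⁻¹) := by
  obtain ⟨hpN, hAB⟩ := hp
  obtain ⟨M, hM⟩ : ∃ M, width r = M + 2 := ⟨width r - 2, by omega⟩
  have hnp : ∀ x < n, perm c x ≠ p + 1 ∧ perm c x ≠ p + 2 := by
    intro x hx
    by_cases e : x = a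
    · subst e; rw [h1]; omega
    · exact (h3 x hx e).2
  have hlt : ∀ x < n, perm c x < M + 2 := fun x hx => by
    have := (perm_lt hc).1 x (by omega)
    omega
  obtain ⟨c0, hc0, hp0⟩ := exists_inj n M (fun x => if perm c x ≤ p then perm c x else perm c x - 2) (by
    intro x hx
    have h4 := hnp x hx
    have h5 := hlt x hx
    split_ifs <;> omega) (by
    intro x hx y hy h
    have h4 := hnp x hx
    have h5 := hnp y hy
    apply (perm c).injective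
    split_ifs at h <;> omega)
  have hg0 : c0 * γ * c0⁻¹ ∈ Gam k M := Gam_conj hc0 (Gam_mono (by omega) hγ)
  obtain ⟨γ3, hγ3, t1, t2, t3, t4⟩ := trip_Gam (q := p) (by omega) hg0
  obtain ⟨j, hj⟩ : ∃ j, M = p + 1 + j := ⟨M - (p + 1), by omega⟩
  set g0 := c0 * γ * c0⁻¹ with hg0def
  have hg0B : g0 ∈ BN M := (Gam_le_PN hg0).1
  -- the two insertions
  have z1m : zv (p + 1) j ∈ BN (M + 2) := zv_mem _ _ (by omega)
  have z0m : zv p (j + 1) ∈ BN (M + 2) := zv_mem _ _ (by omega)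
  have cM : C M * T g0 = T g0 * C M := C_BN le_rfl hg0B
  have uM : T g0 * U M = U M * T g0 := U_BN le_rfl hg0B
  have a1 : C (p + 1) * T (zv (p + 1) j) = T 1 * C M := by rw [C_zv, T_one, one_mul, ← hj]
  have a0 : C p * T (zv p (j + 1)) = T 1 * C M := by
    rw [C_zv, T_one, one_mul]; congr 1; omega
  have b1 : T (zv (p + 1) j) * U M = U (p + 1) * T 1 := by
    have := zv_U (p + 1) j
    rw [← hj] at this
    rw [this, T_one, mul_one]
  have b0 : T (zv p (j + 1)) * U M = U p * T 1 := by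
    have := zv_U p (j + 1)
    have e : p + (j + 1) = M := by omega
    rw [e] at this
    rw [this, T_one, mul_one]
  have y1c : C (p + 1) * T (zv (p + 1) j * g0 * (zv (p + 1) j)⁻¹) = T g0 * C (p + 1) := by
    have := cap_mul (cap_mul a1 cM) (cap_inv a1)
    simpa using this
  have y1u : T (zv (p + 1) j * g0 * (zv (p + 1) j)⁻¹) * U (p + 1) = U (p + 1) * T g0 := by
    have := cup_mul (cup_mul b1 uM) (cup_inv b1)
    simpa using this
  have y0c : C p * T (zv p (j + 1) * g0 * (zv p (j + 1))⁻¹) = T g0 * C p := by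
    have := cap_mul (cap_mul a0 cM) (cap_inv a0)
    simpa using this
  have y0u : T (zv p (j + 1) * g0 * (zv p (j + 1))⁻¹) * U p = U p * T g0 := by
    have := cup_mul (cup_mul b0 uM) (cup_inv b0)
    simpa using this
  have hg0' : g0 ∈ Gam k (M + 2) := Gam_mono (by omega) hg0
  have y1m : zv (p + 1) j * g0 * (zv (p + 1) j)⁻¹ ∈ Gam k (M + 2) := Gam_conj z1m hg0'
  have y0m : zv p (j + 1) * g0 * (zv p (j + 1))⁻¹ ∈ Gam k (M + 2) := Gam_conj z0m hg0'
  set y1 := zv (p + 1) j * g0 * (zv (p + 1) j)⁻¹ with hy1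
  set y0 := zv p (j + 1) * g0 * (zv p (j + 1))⁻¹ with hy0
  have key : Eqv r k y1 y0 := by
    rcases hAB with ⟨⟨A, hA⟩, ⟨B, hB⟩⟩ | ⟨⟨A, hA⟩, ⟨B, hB⟩⟩
    · refine ⟨γ3 * y0⁻¹, ?_, (y1⁻¹ * γ3)⁻¹, ?_, 1, one_mem _, ?_, ?_, by group⟩
      · rw [hM]; exact mul_mem hγ3 (inv_mem y0m)
      · rw [hM]; exact inv_mem (mul_mem (inv_mem y1m) hγ3)
      · rw [hA, mul_assoc, cap_mul t1 (cap_inv y0c), mul_inv_cancel, T_one, one_mul]
      · have h5 : T (y1⁻¹ * γ3) * U (p + 1) = U (p + 1) * T (g0⁻¹ * g0) := cup_mul (cup_inv y1u) t4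
        have h6 := cup_inv h5
        rw [hB, ← mul_assoc, h6]
        simp
    · refine ⟨(γ3 * y1⁻¹)⁻¹, ?_, y0⁻¹ * γ3, ?_, 1, one_mem _, ?_, ?_, by group⟩
      · rw [hM]; exact inv_mem (mul_mem hγ3 (inv_mem y1m))
      · rw [hM]; exact mul_mem (inv_mem y0m) hγ3
      · have h5 : C (p + 1) * T (γ3 * y1⁻¹) = T (g0 * g0⁻¹) * C (p + 1) := cap_mul t2 (cap_inv y1c)
        have h6 := cap_inv h5
        rw [hA, mul_assoc, h6]
        simp
      · rw [hB, ← mul_assoc, cup_mul (cup_inv y0u) t3, inv_mul_cancel, T_one, mul_one]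
  -- comparison with c and c'
  have hcM : c ∈ BN (M + 2) := hM ▸ hc
  have hcM' : c' ∈ BN (M + 2) := hM ▸ hc'
  have hc0' : c0 ∈ BN (M + 2) := BN_mono (by omega) hc0
  obtain ⟨q1, hq1, e1⟩ := class_indep hk hcM (mul_mem z1m hc0') (by omega : n ≤ M + 2) (by
    intro x hx
    have h4 := hnp x hx
    have h5 := hlt x hx
    rw [map_mul, Equiv.Perm.mul_apply, hp0 x hx, perm_zv]
    split_ifs <;> omega) hγ
  obtain ⟨q2, hq2, e2⟩ := class_indep hk (mul_mem z0m hc0') hcM' (by omega : n ≤ M + 2) (by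
    intro x hx
    have h4 := hnp x hx
    have h5 := hlt x hx
    rw [map_mul, Equiv.Perm.mul_apply, hp0 x hx, perm_zv]
    by_cases e : x = a
    · subst e
      rw [h2, h1]
      split_ifs <;> omega
    · have h6 := h3 x hx e
      rw [h6.1]
      have h7 : perm c x ≠ p := fun h => e ((perm c).injective (h.trans h1.symm))
      split_ifs <;> omega) hγ
  have f1 : Eqv r k (c * γ * c⁻¹) y1 := by
    refine Eqv.of_mul (q := q1) (hM ▸ hq1) ?_
    rw [e1, hy1, hg0def]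
    group
  have f2 : Eqv r k y0 (c' * γ * c'⁻¹) := by
    refine Eqv.of_mul (q := q2) (hM ▸ hq2) ?_
    rw [← e2, hy0, hg0def]
    group
  exact (f1.trans key).trans f2

end SLC
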