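import Pool.Agent.SLC.Top3

/-!
String links: closures and their composition.
-/

set_option autoImplicit false

namespace SLC

/-- families of tangles which can be shifted over minima and maxima on their left -/
structure Sh (X : ℕ → Tangle) : Prop where
  c : ∀ i k, i ≤ k → C i * X (k + 2) = X k * C i
  u : ∀ i k, i ≤ k → X (k + 2) * U i = U i * X k

theorem Sh.C : Sh C := ⟨fun _ _ h => CC h, fun _ _ h => CU h⟩
theorem Sh.U : Sh U := ⟨fun _ _ h => UC h, fun _ _ h => UU h⟩
theorem Sh.one : Sh fun _ => 1 := ⟨fun _ _ _ => by simp, fun _ _ _ => by simp⟩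

theorem Sh.mul {X Y : ℕ → Tangle} (hX : Sh X) (hY : Sh Y) (e f : ℕ) : Sh fun k => X (k + e) * Y (k + f) := by
  refine ⟨fun i k h => ?_, fun i k h => ?_⟩
  · have h1 : k + 2 + e = k + e + 2 := by omega
    have h2 : k + 2 + f = k + f + 2 := by omega
    rw [h1, h2, ← mul_assoc, hX.c i _ (by omega), mul_assoc, hY.c i _ (by omega), mul_assoc]
  · have h1 : k + 2 + e = k + e + 2 := by omega
    have h2 : k + 2 + f = k + f + 2 := by omega
    rw [h1, h2, mul_assoc, hY.u i _ (by omega), ← mul_assoc, hX.u i _ (by omega), mul_assoc]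

theorem Sh.capRow (a : ℕ) : Sh fun o => SLC.capRow o a := by
  induction a with
  | zero => exact Sh.one
  | succ a ih => exact Sh.C.mul ih 0 2

theorem Sh.cupRow (a : ℕ) : Sh fun o => SLC.cupRow o a := by
  induction a with
  | zero => exact Sh.one
  | succ a ih => exact ih.mul Sh.U 2 0

theorem Sh.caps (r : List ℕ) : Sh fun o => SLC.caps o r := by
  induction r with
  | nil => exact Sh.one
  | cons a r ih => exact (Sh.capRow a).mul ih 0 (2 * a + 1)

theorem Sh.cups (r : List ℕ) : Sh fun o => SLC.cups o r := by
  induction r with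
  | nil => exact Sh.one
  | cons a r ih => exact ih.mul (Sh.cupRow a) (2 * a + 1) 1

theorem Sh.row_c {X : ℕ → Tangle} (hX : Sh X) (a : ℕ) : ∀ o k, o ≤ k →
    SLC.capRow o a * X (k + 2 * a) = X k * SLC.capRow o a := by
  induction a with
  | zero => intro o k _; simp [SLC.capRow]
  | succ a ih =>
    intro o k h
    have e : k + 2 * (a + 1) = k + 2 + 2 * a := by omega
    rw [SLC.capRow, e, mul_assoc, ih (o + 2) (k + 2) (by omega), ← mul_assoc, hX.c o k h, mul_assoc]

theorem Sh.row_u {X : ℕ → Tangle} (hX : Sh X) (a : ℕ) : ∀ o k, o ≤ k →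
    X (k + 2 * a) * SLC.cupRow o a = SLC.cupRow o a * X k := by
  induction a with
  | zero => intro o k _; simp [SLC.cupRow]
  | succ a ih =>
    intro o k h
    have e : k + 2 * (a + 1) = k + 2 + 2 * a := by omega
    rw [SLC.cupRow, e, ← mul_assoc, ih (o + 2) (k + 2) (by omega), mul_assoc, hX.u o k h, mul_assoc]

theorem capRow_add (o a b : ℕ) : capRow o (a + b) = capRow o a * capRow (o + 2 * a) b := by
  induction a generalizing o with
  | zero => simp [capRow]
  | succ a ih =>
    have e : a + 1 + b = a + b + 1 := by omega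
    have e2 : o + 2 * (a + 1) = o + 2 + 2 * a := by omega
    rw [e, capRow, ih, capRow, e2, mul_assoc]

theorem cupRow_add (o a b : ℕ) : cupRow o (a + b) = cupRow (o + 2 * a) b * cupRow o a := by
  induction a generalizing o with
  | zero => simp [cupRow]
  | succ a ih =>
    have e : a + 1 + b = a + b + 1 := by omega
    have e2 : o + 2 * (a + 1) = o + 2 + 2 * a := by omega
    rw [e, cupRow, ih, cupRow, e2, mul_assoc]

theorem capRow_cupRow (o a : ℕ) : capRow o a * cupRow (o + 1) a = 1 := by
  induction a generalizing o with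
  | zero => simp [capRow, cupRow]
  | succ a ih =>
    rw [capRow, cupRow, mul_assoc, ← mul_assoc (capRow (o + 2) a)]
    have e : o + 1 + 2 = o + 2 + 1 := by omega
    rw [e, ih, one_mul, zig]

theorem caps_cups (r : List ℕ) : ∀ o, caps o r * cups o r = 1 := by
  induction r with
  | nil => intro o; simp [caps, cups]
  | cons a r ih =>
    intro o
    rw [caps, cups, mul_assoc, ← mul_assoc (caps (o + (2 * a + 1)) r), ih, one_mul, capRow_cupRow]

theorem cl_one (r : List ℕ) : cl r 1 = 1 := by
  rw [cl, map_one, Units.val_one, mul_one, caps_cups]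

theorem cl_def (r : List ℕ) (g : Br) : cl r g = caps 0 r * T g * cups 0 r := rfl

theorem capRow_BN {n m : ℕ} (a : ℕ) (hm : n ≤ m) {g : Br} (hg : g ∈ BN n) : capRow m a * T g = T g * capRow m a := by
  induction a generalizing m with
  | zero => simp [capRow]
  | succ a ih => rw [capRow, mul_assoc, ih (by omega), ← mul_assoc, C_BN hm hg, mul_assoc]

theorem cupRow_BN {n m : ℕ} (a : ℕ) (hm : n ≤ m) {g : Br} (hg : g ∈ BN n) : T g * cupRow m a = cupRow m a * T g := by
  induction a generalizing m with
  | zero => simp [cupRow]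
  | succ a ih => rw [cupRow, ← mul_assoc, ih (by omega), mul_assoc, U_BN hm hg, mul_assoc]

/-- maxima on the first strands of the blocks -/
def KK : ℕ → List ℕ → List ℕ → Tangle
  | o, a' :: r', a :: r => capRow o a * KK (o + (2 * (a' + a) + 1)) r' r
  | _, _, _ => 1

/-- minima on the last strands of the blocks -/
def JJ : ℕ → List ℕ → List ℕ → Tangle
  | o, a' :: r', a :: r => JJ (o + (2 * (a' + a) + 1)) r' r * cupRow (o + (2 * a + 1)) a'
  | _, _, _ => 1

theorem caps_add (r' r : List ℕ) (h : r'.length = r.length) : ∀ o,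
    caps o (List.zipWith (· + ·) r' r) = caps o r' * KK o r' r := by
  induction r' generalizing r with
  | nil =>
    intro o
    cases r with
    | nil => simp [caps, KK]
    | cons a r => simp at h
  | cons a' r' ih =>
    cases r with
    | nil => simp at h
    | cons a r =>
      intro o
      rw [List.zipWith_cons_cons, caps, ih r (by simpa using h), caps, KK]
      have e : o + (2 * (a' + a) + 1) = o + (2 * a' + 1) + 2 * a := by omega
      have h1 := (Sh.caps r').row_c a o (o + (2 * a' + 1)) (by omega)
      have h2 := (Sh.capRow a').row_c a o o le_rfl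
      calc capRow o (a' + a) * (caps (o + (2 * (a' + a) + 1)) r' * KK (o + (2 * (a' + a) + 1)) r' r)
          = capRow o a * capRow (o + 2 * a) a' * (caps (o + (2 * a' + 1) + 2 * a) r' *
              KK (o + (2 * (a' + a) + 1)) r' r) := by rw [Nat.add_comm a' a, capRow_add, Nat.add_comm a a', e]
        _ = capRow o a' * (capRow o a * caps (o + (2 * a' + 1) + 2 * a) r') * KK (o + (2 * (a' + a) + 1)) r' r := by
            rw [h2]; simp only [mul_assoc]
        _ = capRow o a' * caps (o + (2 * a' + 1)) r' * (capRow o a * KK (o + (2 * (a' + a) + 1)) r' r) := by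
            rw [h1]; simp only [mul_assoc]

theorem cups_add (r' r : List ℕ) (h : r'.length = r.length) : ∀ o,
    cups o (List.zipWith (· + ·) r' r) = JJ o r' r * cups o r := by
  induction r' generalizing r with
  | nil =>
    intro o
    cases r with
    | nil => simp [cups, JJ]
    | cons a r => simp at h
  | cons a' r' ih =>
    cases r with
    | nil => simp at h
    | cons a r =>
      intro o
      rw [List.zipWith_cons_cons, cups, ih r (by simpa using h), cups, JJ]
      have e : o + (2 * (a' + a) + 1) = o + (2 * a + 1) + 2 * a' := by omega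
      have h1 := (Sh.cups r).row_u a' (o + (2 * a + 1)) (o + (2 * a + 1)) le_rfl
      have e2 : o + 1 + 2 * a = o + (2 * a + 1) := by omega
      calc JJ (o + (2 * (a' + a) + 1)) r' r * cups (o + (2 * (a' + a) + 1)) r * cupRow (o + 1) (a' + a)
          = JJ (o + (2 * (a' + a) + 1)) r' r * (cups (o + (2 * a + 1) + 2 * a') r * cupRow (o + (2 * a + 1)) a') *
              cupRow (o + 1) a := by
            rw [Nat.add_comm a' a, cupRow_add, Nat.add_comm a a', e, e2]; simp only [mul_assoc]
        _ = JJ (o + (2 * (a' + a) + 1)) r' r * cupRow (o + (2 * a + 1)) a' *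
              (cups (o + (2 * a + 1)) r * cupRow (o + 1) a) := by rw [h1]; simp only [mul_assoc]

theorem KK_JJ (r' r : List ℕ) (h : r'.length = r.length) : ∀ o,
    KK o r' r * JJ o r' r = cups o r' * caps o r := by
  induction r' generalizing r with
  | nil =>
    intro o
    cases r with
    | nil => simp [caps, cups, KK, JJ]
    | cons a r => simp at h
  | cons a' r' ih =>
    cases r with
    | nil => simp at h
    | cons a r =>
      intro o
      rw [KK, JJ, cups, caps]
      have e : o + (2 * (a' + a) + 1) = o + (2 * a + 1) + 2 * a' := by omega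
      have e' : o + (2 * (a' + a) + 1) = o + (2 * a' + 1) + 2 * a := by omega
      have h1 := (Sh.caps r).row_u a' (o + (2 * a + 1)) (o + (2 * a + 1)) le_rfl
      have h2 := (Sh.cups r').row_c a o (o + (2 * a' + 1)) (by omega)
      have h3 := (Sh.cupRow a').row_c a o (o + 1) (by omega)
      have e3 : o + 1 + 2 * a = o + (2 * a + 1) := by omega
      rw [e3] at h3
      calc capRow o a * KK (o + (2 * (a' + a) + 1)) r' r * (JJ (o + (2 * (a' + a) + 1)) r' r *
            cupRow (o + (2 * a + 1)) a')
          = capRow o a * (KK (o + (2 * (a' + a) + 1)) r' r * JJ (o + (2 * (a' + a) + 1)) r' r) *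
            cupRow (o + (2 * a + 1)) a' := by simp only [mul_assoc]
        _ = capRow o a * (cups (o + (2 * (a' + a) + 1)) r' * caps (o + (2 * (a' + a) + 1)) r) *
            cupRow (o + (2 * a + 1)) a' := by rw [ih r (by simpa using h)]
        _ = (capRow o a * cups (o + (2 * a' + 1) + 2 * a) r') * (caps (o + (2 * a + 1) + 2 * a') r *
            cupRow (o + (2 * a + 1)) a') := by rw [← e, ← e']; simp only [mul_assoc]
        _ = cups (o + (2 * a' + 1)) r' * (capRow o a * cupRow (o + (2 * a + 1)) a') * caps (o + (2 * a + 1)) r := by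
            rw [h1, h2]; simp only [mul_assoc]
        _ = cups (o + (2 * a' + 1)) r' * cupRow (o + 1) a' * (capRow o a * caps (o + (2 * a + 1)) r) := by
            rw [h3]; simp only [mul_assoc]

/-- positions of the lower strands in the composition -/
def lpos : List ℕ → List ℕ → ℕ → ℕ
  | a' :: r', a :: r, x => if x < 2 * a + 1 then x else 2 * (a' + a) + 1 + lpos r' r (x - (2 * a + 1))
  | _, _, x => x

/-- positions of the upper strands in the composition -/
def upos : List ℕ → List ℕ → ℕ → ℕ
  | a' :: r', a :: r, x => if x < 2 * a' + 1 then 2 * a + x else 2 * (a' + a) + 1 + upos r' r (x - (2 * a' + 1))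
  | _, _, x => x

theorem capRow_far (a q j : ℕ) : ∃ d ∈ BN (q + j + 2 * a), capRow q a = capRow (q + j) a * T d ∧
    (∀ x < q, perm d x = x) ∧ ∀ x, q ≤ x → x < q + j → perm d (x + 2 * a) = x := by
  induction a generalizing q with
  | zero => exact ⟨1, one_mem _, by simp [capRow], by simp, by simp⟩
  | succ a ih =>
    obtain ⟨d, hd, h1, h2, h3⟩ := ih (q + 2)
    have hz : zv q j ∈ BN (q + j + 2) := zv_mem q j le_rfl
    refine ⟨(zv q j)⁻¹ * d, mul_mem (inv_mem (BN_mono (by omega) hz)) (BN_mono (by omega) hd), ?_, ?_, ?_⟩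
    · have e1 : q + 2 + j = q + j + 2 := by omega
      rw [e1] at h1
      have e2 : C q = C (q + j) * T (zv q j)⁻¹ := by rw [← C_zv, mul_assoc, T_mul_inv, mul_one]
      rw [capRow, h1, capRow, e2, T_mul]
      have e3 := capRow_BN a (le_refl (q + j + 2)) (inv_mem hz)
      calc C (q + j) * T (zv q j)⁻¹ * (capRow (q + j + 2) a * T d)
          = C (q + j) * (T (zv q j)⁻¹ * capRow (q + j + 2) a) * T d := by simp only [mul_assoc]
        _ = C (q + j) * capRow (q + j + 2) a * (T (zv q j)⁻¹ * T d) := by rw [← e3]; simp only [mul_assoc]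
    · intro x hx
      rw [map_mul, Equiv.Perm.mul_apply, h2 x (by omega), map_inv, Equiv.Perm.inv_eq_iff_eq, perm_zv, if_pos hx]
    · intro x hx1 hx2
      have e4 : x + 2 * (a + 1) = x + 2 + 2 * a := by omega
      rw [map_mul, Equiv.Perm.mul_apply, e4, h3 (x + 2) (by omega) (by omega), map_inv, Equiv.Perm.inv_eq_iff_eq,
        perm_zv, if_neg (by omega), if_pos (by omega)]

theorem cupRow_far (a q j : ℕ) : ∃ d ∈ BN (q + j + 2 * a), cupRow q a = T d * cupRow (q + j) a ∧
    (∀ x < q, perm d x = x) ∧ ∀ x, q ≤ x → x < q + j → perm d x = x + 2 * a := by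
  induction a generalizing q with
  | zero => exact ⟨1, one_mem _, by simp [cupRow], by simp, by simp⟩
  | succ a ih =>
    obtain ⟨d, hd, h1, h2, h3⟩ := ih (q + 2)
    have hz : zv q j ∈ BN (q + j + 2) := zv_mem q j le_rfl
    refine ⟨d * zv q j, mul_mem (BN_mono (by omega) hd) (BN_mono (by omega) hz), ?_, ?_, ?_⟩
    · have e1 : q + 2 + j = q + j + 2 := by omega
      rw [e1] at h1
      rw [cupRow, h1, cupRow, ← zv_U q j, T_mul]
      have e3 := cupRow_BN a (le_refl (q + j + 2)) hz
      calc T d * cupRow (q + j + 2) a * (T (zv q j) * U (q + j))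
          = T d * (cupRow (q + j + 2) a * T (zv q j)) * U (q + j) := by simp only [mul_assoc]
        _ = T d * T (zv q j) * (cupRow (q + j + 2) a * U (q + j)) := by rw [← e3]; simp only [mul_assoc]
    · intro x hx
      rw [map_mul, Equiv.Perm.mul_apply, perm_zv, if_pos hx, h2 x (by omega)]
    · intro x hx1 hx2
      rw [map_mul, Equiv.Perm.mul_apply, perm_zv, if_neg (by omega), if_pos (by omega),
        h3 (x + 2) (by omega) (by omega)]
      omega

theorem KK_far (r' r : List ℕ) (h : r'.length = r.length) : ∀ o, ∃ d ∈ BN (o + width r' + 2 * r.sum),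
    KK o r' r = capRow (o + width r') r.sum * T d ∧ (∀ x < o, perm d x = x) ∧
    ∀ x < width r', perm d (o + upos r' r x) = o + x := by
  induction r' generalizing r with
  | nil =>
    intro o
    cases r with
    | nil => exact ⟨1, one_mem _, by simp [KK, capRow], by simp, by simp [width]⟩
    | cons a r => simp at h
  | cons a' r' ih =>
    cases r with
    | nil => simp at h
    | cons a r =>
      intro o
      obtain ⟨d2, m2, e2, p2, q2⟩ := ih r (by simpa using h) (o + (2 * (a' + a) + 1))
      obtain ⟨d1, m1, e1, p1, q1⟩ := capRow_far a o (2 * a' + 1 + width r')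
      have hN : o + (2 * (a' + a) + 1) + width r' = o + (2 * a' + 1 + width r') + 2 * a := by omega
      rw [hN] at m2 e2
      have hN2 : o + width (a' :: r') + 2 * (a :: r).sum = o + (2 * a' + 1 + width r') + 2 * a + 2 * r.sum := by
        rw [width, List.sum_cons]; omega
      refine ⟨d1 * d2, ?_, ?_, ?_, ?_⟩
      · rw [hN2]
        exact mul_mem (BN_mono (by omega) m1) m2
      · have e3 := capRow_BN r.sum (le_refl _) m1
        rw [KK, e2, e1, width, List.sum_cons, capRow_add, T_mul]
        simp only [mul_assoc]
        rw [← mul_assoc (T d1), ← e3, mul_assoc]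
      · intro x hx
        rw [map_mul, Equiv.Perm.mul_apply, p2 x (by omega), p1 x hx]
      · intro x hx
        rw [width] at hx
        rw [map_mul, Equiv.Perm.mul_apply, upos]
        split_ifs with hc
        · rw [p2 _ (by omega)]
          have e4 : o + (2 * a + x) = o + x + 2 * a := by omega
          rw [e4, q1 _ (by omega) (by omega)]
        · have e4 : o + (2 * (a' + a) + 1 + upos r' r (x - (2 * a' + 1))) =
              o + (2 * (a' + a) + 1) + upos r' r (x - (2 * a' + 1)) := by omega
          rw [e4, q2 _ (by omega)]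
          have e5 : o + (2 * (a' + a) + 1) + (x - (2 * a' + 1)) = o + x + 2 * a := by omega
          rw [e5, q1 _ (by omega) (by omega)]

theorem JJ_far (r' r : List ℕ) (h : r'.length = r.length) : ∀ o, ∃ d ∈ BN (o + width r + 2 * r'.sum),
    JJ o r' r = T d * cupRow (o + width r) r'.sum ∧ (∀ x < o, perm d x = x) ∧
    ∀ x < width r, perm d (o + x) = o + lpos r' r x := by
  induction r' generalizing r with
  | nil =>
    intro o
    cases r with
    | nil => exact ⟨1, one_mem _, by simp [JJ, cupRow], by simp, by simp [width]⟩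
    | cons a r => simp at h
  | cons a' r' ih =>
    cases r with
    | nil => simp at h
    | cons a r =>
      intro o
      obtain ⟨d2, m2, e2, p2, q2⟩ := ih r (by simpa using h) (o + (2 * (a' + a) + 1))
      obtain ⟨d1, m1, e1, p1, q1⟩ := cupRow_far a' (o + (2 * a + 1)) (width r)
      have hN : o + (2 * (a' + a) + 1) + width r = o + (2 * a + 1) + width r + 2 * a' := by omega
      rw [hN] at m2 e2
      have hN2 : o + width (a :: r) + 2 * (a' :: r').sum = o + (2 * a + 1) + width r + 2 * a' + 2 * r'.sum := by
        rw [width, List.sum_cons]; omega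
      refine ⟨d2 * d1, ?_, ?_, ?_, ?_⟩
      · rw [hN2]
        exact mul_mem m2 (BN_mono (by omega) m1)
      · have e3 := cupRow_BN r'.sum (le_refl _) m1
        have e4 : o + (2 * a + 1) + width r = o + (2 * a + 1 + width r) := by omega
        rw [JJ, e2, e1, width, List.sum_cons, cupRow_add, T_mul, ← e4]
        simp only [mul_assoc]
        rw [← mul_assoc (cupRow _ r'.sum), ← e3, mul_assoc]
      · intro x hx
        rw [map_mul, Equiv.Perm.mul_apply, p1 x (by omega), p2 x (by omega)]
      · intro x hx
        rw [width] at hx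
        rw [map_mul, Equiv.Perm.mul_apply, lpos]
        split_ifs with hc
        · rw [p1 _ (by omega), p2 _ (by omega)]
        · rw [q1 _ (by omega) (by omega)]
          have e5 : o + x + 2 * a' = o + (2 * (a' + a) + 1) + (x - (2 * a + 1)) := by omega
          rw [e5, q2 _ (by omega)]
          omega

end SLC
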