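import Pool.Agent.SLC.Top4
import Pool.Agent.SLC.Abs

/-!
String links: the system of closures.
-/

set_option autoImplicit false

namespace SLC

theorem caps_C {o b e : ℕ} (r : List ℕ) (he : e < b) : ∃ A, caps o (b :: r) = A * C (o + 2 * e) := by
  obtain ⟨c, rfl⟩ : ∃ c, b = e + (1 + c) := ⟨b - e - 1, by omega⟩
  have h1 := (Sh.capRow c).c (o + 2 * e) (o + 2 * e) le_rfl
  have h2 := (Sh.caps r).c (o + 2 * e) (o + 2 * (e + (1 + c)) - 1) (by omega)
  have e2 : o + 2 * (e + (1 + c)) - 1 + 2 = o + (2 * (e + (1 + c)) + 1) := by omega
  rw [e2] at h2
  refine ⟨capRow o e * capRow (o + 2 * e) c * caps (o + 2 * (e + (1 + c)) - 1) r, ?_⟩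
  rw [caps, capRow_add, Nat.add_comm 1 c, capRow]
  rw [Nat.add_comm 1 c] at h2
  rw [h1]
  simp only [mul_assoc]
  rw [h2]

theorem cups_U {o b e : ℕ} (r : List ℕ) (he : e < b) : ∃ B, cups o (b :: r) = U (o + 1 + 2 * e) * B := by
  obtain ⟨c, rfl⟩ : ∃ c, b = e + (1 + c) := ⟨b - e - 1, by omega⟩
  have h1 := (Sh.cupRow c).u (o + 1 + 2 * e) (o + 1 + 2 * e) le_rfl
  have h2 := (Sh.cups r).u (o + 1 + 2 * e) (o + 2 * (e + (1 + c)) - 1) (by omega)
  have e2 : o + 2 * (e + (1 + c)) - 1 + 2 = o + (2 * (e + (1 + c)) + 1) := by omega
  rw [e2] at h2
  refine ⟨cups (o + 2 * (e + (1 + c)) - 1) r * (cupRow (o + 1 + 2 * e) c * cupRow (o + 1) e), ?_⟩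
  rw [cups, cupRow_add, Nat.add_comm 1 c, cupRow]
  rw [Nat.add_comm 1 c] at h2
  rw [h1]
  simp only [← mul_assoc]
  rw [h2]

/-- p, p + 1, p + 2 lie in one block -/
def inBlk : List ℕ → ℕ → Prop
  | [], _ => False
  | b :: r, p => p + 2 ≤ 2 * b ∨ (2 * b + 1 ≤ p ∧ inBlk r (p - (2 * b + 1)))

theorem pos_of_inBlk (r : List ℕ) : ∀ p, inBlk r p → p + 2 < width r ∧ ∀ o,
    (((∃ A, caps o r = A * C (o + p)) ∧ ∃ B, cups o r = U (o + p + 1) * B) ∨
    ((∃ A, caps o r = A * C (o + p + 1)) ∧ ∃ B, cups o r = U (o + p) * B)) := by
  induction r with
  | nil => intro p hp; exact hp.elim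
  | cons b r ih =>
    rintro p (hp | ⟨hp1, hp2⟩)
    · refine ⟨by rw [width]; omega, fun o => ?_⟩
      rcases Nat.even_or_odd p with ⟨e, he⟩ | ⟨e, he⟩
      · left
        obtain ⟨A, hA⟩ := caps_C (o := o) r (show e < b by omega)
        obtain ⟨B, hB⟩ := cups_U (o := o) r (show e < b by omega)
        have e1 : o + 2 * e = o + p := by omega
        have e2 : o + 1 + 2 * e = o + p + 1 := by omega
        rw [e1] at hA
        rw [e2] at hB
        exact ⟨⟨A, hA⟩, ⟨B, hB⟩⟩
      · right
        obtain ⟨A, hA⟩ := caps_C (o := o) r (show e + 1 < b by omega)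
        obtain ⟨B, hB⟩ := cups_U (o := o) r (show e < b by omega)
        have e1 : o + 2 * (e + 1) = o + p + 1 := by omega
        have e2 : o + 1 + 2 * e = o + p := by omega
        rw [e1] at hA
        rw [e2] at hB
        exact ⟨⟨A, hA⟩, ⟨B, hB⟩⟩
    · obtain ⟨h1, h2⟩ := ih _ hp2
      refine ⟨by rw [width]; omega, fun o => ?_⟩
      have e1 : o + (2 * b + 1) + (p - (2 * b + 1)) = o + p := by omega
      rcases h2 (o + (2 * b + 1)) with ⟨⟨A, hA⟩, ⟨B, hB⟩⟩ | ⟨⟨A, hA⟩, ⟨B, hB⟩⟩
      · left
        rw [e1] at hA hB
        exact ⟨⟨capRow o b * A, by rw [caps, hA, mul_assoc]⟩, ⟨B * cupRow (o + 1) b, by rw [cups, hB, mul_assoc]⟩⟩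
      · right
        rw [e1] at hA hB
        exact ⟨⟨capRow o b * A, by rw [caps, hA, mul_assoc]⟩, ⟨B * cupRow (o + 1) b, by rw [cups, hB, mul_assoc]⟩⟩

theorem Pos_of_inBlk {r : List ℕ} {p : ℕ} (h : inBlk r p) : Pos r p := by
  obtain ⟨h1, h2⟩ := pos_of_inBlk r p h
  refine ⟨h1, ?_⟩
  have := h2 0
  simpa using this

/-- number of returns of the block of the strand x -/
def blk : List ℕ → ℕ → ℕ
  | [], _ => 0
  | a :: r, x => if x < 2 * a + 1 then a else blk r (x - (2 * a + 1))

theorem blk_le (r : List ℕ) : ∀ x, blk r x ≤ r.sum := by
  induction r with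
  | nil => intro x; simp [blk]
  | cons a r ih =>
    intro x
    rw [blk, List.sum_cons]
    have := ih (x - (2 * a + 1))
    split_ifs <;> omega

theorem upos_eq (r : List ℕ) : ∀ x, upos r r x = lpos r r x + 2 * blk r x := by
  induction r with
  | nil => intro x; simp [upos, lpos, blk]
  | cons a r ih =>
    intro x
    rw [upos, lpos, blk]
    have := ih (x - (2 * a + 1))
    split_ifs <;> omega

theorem lpos_mono (r' r : List ℕ) (h : r'.length = r.length) : ∀ x y, x < y → lpos r' r x < lpos r' r y := by
  induction r' generalizing r with
  | nil =>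
    intro x y hxy
    cases r with
    | nil => simpa [lpos] using hxy
    | cons a r => simp at h
  | cons a' r' ih =>
    cases r with
    | nil => simp at h
    | cons a r =>
      intro x y hxy
      rw [lpos, lpos]
      split_ifs with h1 h2
      · exact hxy
      · omega
      · omega
      · have := ih r (by simpa using h) (x - (2 * a + 1)) (y - (2 * a + 1)) (by omega)
        omega

theorem upos_mono (r' r : List ℕ) (h : r'.length = r.length) : ∀ x y, x < y → upos r' r x < upos r' r y := by
  induction r' generalizing r with
  | nil =>
    intro x y hxy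
    cases r with
    | nil => simpa [upos] using hxy
    | cons a r => simp at h
  | cons a' r' ih =>
    cases r with
    | nil => simp at h
    | cons a r =>
      intro x y hxy
      rw [upos, upos]
      split_ifs with h1 h2
      · omega
      · omega
      · omega
      · have := ih r (by simpa using h) (x - (2 * a' + 1)) (y - (2 * a' + 1)) (by omega)
        omega

theorem inBlk_lpos (r : List ℕ) : ∀ x s, x < width r → s < blk r x →
    inBlk (List.zipWith (· + ·) r r) (lpos r r x + 2 * s) := by
  induction r with
  | nil => intro x s hx; simp [width] at hx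
  | cons a r ih =>
    intro x s hx hs
    rw [width] at hx
    rw [List.zipWith_cons_cons, inBlk, lpos]
    rw [blk] at hs
    split_ifs at hs ⊢ with h1
    · left; omega
    · right
      refine ⟨by omega, ?_⟩
      have e : 2 * (a + a) + 1 + lpos r r (x - (2 * a + 1)) + 2 * s - (2 * (a + a) + 1) =
          lpos r r (x - (2 * a + 1)) + 2 * s := by omega
      rw [e]
      exact ih _ _ (by omega) hs

theorem width_add (r' r : List ℕ) (h : r'.length = r.length) :
    width (List.zipWith (· + ·) r' r) = width r + 2 * r'.sum := by
  induction r' generalizing r with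
  | nil =>
    cases r with
    | nil => simp [width]
    | cons a r => simp at h
  | cons a' r' ih =>
    cases r with
    | nil => simp at h
    | cons a r =>
      rw [List.zipWith_cons_cons, width, width, ih r (by simpa using h), List.sum_cons]
      omega

theorem width_add' (r' r : List ℕ) (h : r'.length = r.length) :
    width (List.zipWith (· + ·) r' r) = width r' + 2 * r.sum := by
  induction r' generalizing r with
  | nil =>
    cases r with
    | nil => simp [width]
    | cons a r => simp at h
  | cons a' r' ih =>
    cases r with
    | nil => simp at h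
    | cons a r =>
      rw [List.zipWith_cons_cons, width, width, ih r (by simpa using h), List.sum_cons]
      omega

/-- the lower copy of a pure braid can be moved to the upper copy -/
theorem chain {r : List ℕ} {k : ℕ} (hk : 1 ≤ k) {γ : Br} (hγ : γ ∈ Gam k (width r)) :
    ∀ t, t ≤ width r → ∀ c ∈ BN (width (List.zipWith (· + ·) r r)),
      (∀ x < width r, perm c x = if x < t then lpos r r x else upos r r x) →
      ∀ c1 ∈ BN (width (List.zipWith (· + ·) r r)), (∀ x < width r, perm c1 x = upos r r x) →
      Eqv (List.zipWith (· + ·) r r) k (c * γ * c⁻¹) (c1 * γ * c1⁻¹) := by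
  have hw := width_add r r rfl
  have hl := lpos_mono r r rfl
  have hu := upos_mono r r rfl
  intro t
  induction t with
  | zero =>
    intro _ c hc hpc c1 hc1 hpc1
    obtain ⟨q, hq, e⟩ := class_indep hk hc hc1 (by omega) (fun x hx => by
      rw [hpc x hx, hpc1 x hx, if_neg (Nat.not_lt_zero x)]) hγ
    exact Eqv.of_mul hq e
  | succ t ih =>
    intro ht c hc hpc c1 hc1 hpc1
    -- the strand t moves from lpos t + 2 s to upos t
    have inner : ∀ j s, s + j = blk r t → ∀ c ∈ BN (width (List.zipWith (· + ·) r r)),
        (∀ x < width r, perm c x = if x = t then lpos r r t + 2 * s else if x < t then lpos r r x else upos r r x) →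
        Eqv (List.zipWith (· + ·) r r) k (c * γ * c⁻¹) (c1 * γ * c1⁻¹) := by
      intro j
      induction j with
      | zero =>
        intro s hs c hc hpc
        refine ih (by omega) c hc (fun x hx => ?_) c1 hc1 hpc1
        rw [hpc x hx]
        by_cases hxt : x = t
        · subst hxt
          rw [if_pos rfl, if_neg (lt_irrefl _), upos_eq]
          have : s = blk r x := by omega
          rw [this]
        · rw [if_neg hxt]
      | succ j ihj =>
        intro s hs c hc hpc
        have hup := upos_eq r t
        have hb := blk_le r t
        have hbl := inBlk_lpos r t s (by omega) (by omega)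
        have hP := Pos_of_inBlk hbl
        have hP1 := hP.1
        have hval : ∀ x < width r, x ≠ t → (x < t ∧ lpos r r x < lpos r r t) ∨ (t < x ∧ upos r r t < upos r r x) := by
          intro x _ hxt
          rcases Nat.lt_or_ge x t with h | h
          · exact Or.inl ⟨h, hl x t h⟩
          · exact Or.inr ⟨by omega, hu t x (by omega)⟩
        have hlt : ∀ x < width r, upos r r x < width (List.zipWith (· + ·) r r) := by
          intro x hx
          rw [← hpc1 x hx]
          exact (perm_lt hc1).1 _ (by omega)
        obtain ⟨c', hc', hpc'⟩ := exists_inj (width r) (width (List.zipWith (· + ·) r r))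
          (fun x => if x = t then lpos r r t + 2 * (s + 1) else if x < t then lpos r r x else upos r r x) (by
            intro x hx
            have h2 := hlt x hx
            have h3 := upos_eq r x
            have h4 := hlt t (by omega)
            split_ifs <;> omega) (by
            intro x hx y hy h
            by_contra hxy
            rcases Nat.lt_or_gt_of_ne hxy with hlt' | hlt'
            · have a1 := hl x y hlt'
              have a2 := hu x y hlt'
              have a3 := hval x hx
              have a4 := hval y hy
              have a5 := upos_eq r x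
              have a6 := upos_eq r y
              by_cases hxt : x = t
              · subst hxt
                have a4' := a4 (by omega)
                rw [if_pos rfl, if_neg (by omega), if_neg (by omega)] at h
                omega
              · by_cases hyt : y = t
                · subst hyt
                  have a3' := a3 (by omega)
                  rw [if_neg hxt, if_pos (by omega), if_pos rfl] at h
                  omega
                · rw [if_neg hxt, if_neg hyt] at h
                  split_ifs at h <;> omega
            · have a1 := hl y x hlt'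
              have a2 := hu y x hlt'
              have a3 := hval x hx
              have a4 := hval y hy
              have a5 := upos_eq r x
              have a6 := upos_eq r y
              by_cases hyt : y = t
              · subst hyt
                have a3' := a3 (by omega)
                rw [if_neg (by omega), if_neg (by omega), if_pos rfl] at h
                omega
              · by_cases hxt : x = t
                · subst hxt
                  have a4' := a4 (by omega)
                  rw [if_pos rfl, if_neg hyt, if_pos (by omega)] at h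
                  omega
                · rw [if_neg hxt, if_neg hyt] at h
                  split_ifs at h <;> omega)
        have hstep : Eqv (List.zipWith (· + ·) r r) k (c * γ * c⁻¹) (c' * γ * c'⁻¹) := by
          refine one_step hk hP (by omega) hc hc' (show t < width r by omega) ?_ ?_ ?_ hγ
          · rw [hpc t (by omega), if_pos rfl]
          · rw [hpc' t (by omega), if_pos rfl]; omega
          · intro x hx hxt
            have a3 := hval x hx hxt
            rw [hpc' x hx, hpc x hx, if_neg hxt, if_neg hxt]
            refine ⟨rfl, ?_, ?_⟩
            · split_ifs <;> omega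
            · split_ifs <;> omega
        exact hstep.trans (ihj (s + 1) (by omega) c' hc' hpc')
    refine inner (blk r t) 0 (by omega) c hc (fun x hx => ?_)
    rw [hpc x hx]
    by_cases hxt : x = t
    · subst hxt
      rw [if_pos (by omega), if_pos rfl, Nat.mul_zero, Nat.add_zero]
    · rw [if_neg hxt]
      by_cases hlt : x < t
      · rw [if_pos (by omega), if_pos hlt]
      · rw [if_neg (by omega), if_neg hlt]

end SLC
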