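import Pool.Agent.SLC.Red3
import Pool.Agent.SLC.Gens3

/-!
String links, degree 3: the trilinear function of three pure braids.
-/

set_option autoImplicit false

namespace SLC

open CSys

theorem hall_witt (x y z : Br) : y * cm (cm y⁻¹ x) z * y⁻¹ * (z * cm (cm z⁻¹ y) x * z⁻¹) *
    (x * cm (cm x⁻¹ z) y * x⁻¹) = 1 := by
  unfold cm
  group

theorem Gam_cm {i j n : ℕ} (hi : 1 ≤ i) (hj : 1 ≤ j) {x y : Br} (hx : x ∈ Gam i n) (hy : y ∈ Gam j n) :
    cm x y ∈ Gam (i + j) n := by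
  obtain ⟨i, rfl⟩ : ∃ i', i = i' + 1 := ⟨i - 1, by omega⟩
  obtain ⟨j, rfl⟩ : ∃ j', j = j' + 1 := ⟨j - 1, by omega⟩
  let X : PN n := ⟨x, Gam_le_PN hx⟩
  let Y : PN n := ⟨y, Gam_le_PN hy⟩
  have hX : X ∈ Gm (PN n) (i + 1) := (mem_Gm_iff X).2 hx
  have hY : Y ∈ Gm (PN n) (j + 1) := (mem_Gm_iff Y).2 hy
  have h := Gm_comm (PN n) i j (Subgroup.commutator_mem_commutator hX hY)
  have h2 := (mem_Gm_iff (n := n) _).1 h
  exact h2

section

variable {m k : ℕ} {G : Type} [Group G] {A : Type} [AddCommGroup A]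

/-- q is the reduction of the last term of the filtration modulo H -/
structure Qm (π : (sys m).Quo (k + 1) G) (H : Subgroup G) (q : G → A) : Prop where
  add : ∀ x ∈ π.FF k, ∀ y ∈ π.FF k, q (x * y) = q x + q y
  ker : ∀ x ∈ π.FF k, q x = 0 → x ∈ H
  of_mem : ∀ x ∈ π.FF k, x ∈ H → q x = 0

theorem FF_comm (hk : 1 ≤ k) (π : (sys m).Quo (k + 1) G) {x y : G} (hx : x ∈ π.FF k) (hy : y ∈ π.FF k) :
    x * y = y * x := by
  have h1 := (π.FF_filt (by omega)).comm k k (Subgroup.commutator_mem_commutator hx hy)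
  have h2 : π.FF (k + k) = ⊥ := π.FF_bot (by omega)
  rw [h2, Subgroup.mem_bot, commutatorElement_def] at h1
  have h3 : x * y * x⁻¹ = y := by
    have := mul_inv_eq_one.1 h1
    exact this
  calc x * y = x * y * x⁻¹ * x := by group
    _ = y * x := by rw [h3]

theorem exists_Qm (hk : 1 ≤ k) (π : (sys m).Quo (k + 1) G) (H : Subgroup G) :
    ∃ (A : Type) (_ : AddCommGroup A) (q : G → A), Qm π H q := by
  classical
  let iC : CommGroup (π.FF k) := { (inferInstance : Group (π.FF k)) with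
    mul_comm := fun a b => Subtype.ext (FF_comm hk π a.2 b.2) }
  let S : Subgroup (π.FF k) := H.subgroupOf (π.FF k)
  refine ⟨Additive (π.FF k ⧸ S), inferInstance,
    fun g => if h : g ∈ π.FF k then Additive.ofMul (QuotientGroup.mk (⟨g, h⟩ : π.FF k)) else 0, ?_, ?_, ?_⟩
  · intro x hx y hy
    rw [dif_pos hx, dif_pos hy, dif_pos (mul_mem hx hy)]
    rfl
  · intro x hx h
    rw [dif_pos hx] at h
    have h1 : (QuotientGroup.mk (⟨x, hx⟩ : π.FF k) : π.FF k ⧸ S) = 1 := h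
    rw [QuotientGroup.eq_one_iff] at h1
    exact h1
  · intro x hx h
    rw [dif_pos hx]
    have h1 : (QuotientGroup.mk (⟨x, hx⟩ : π.FF k) : π.FF k ⧸ S) = 1 := by
      rw [QuotientGroup.eq_one_iff]
      exact h
    exact h1

theorem th_FF (π : (sys m).Quo (k + 1) G) {r : List ℕ} (hr : r.length = m) {g : Br} (hg : g ∈ Gam k (width r)) :
    th π r g ∈ π.FF k := by
  have h := π.cls_S_mem (k := k) (l := (⟨r, hr⟩ : Lv m)) (a := (⟨g, Gam_le_PN hg⟩ : PN (width r)))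
    ((mem_Gm_iff (n := width r) _).2 hg)
  exact h

variable {π : (sys m).Quo (k + 1) G} {H : Subgroup G} {q : G → A}

theorem Qm.one (hq : Qm π H q) : q 1 = 0 := by
  have h := hq.add 1 (one_mem _) 1 (one_mem _)
  rw [mul_one] at h
  exact left_eq_add.1 h

theorem Qm.mul (hq : Qm π H q) (hk : 1 ≤ k) {r : List ℕ} (hr : r.length = m) {g h : Br} (hg : g ∈ Gam k (width r))
    (hh : h ∈ Gam k (width r)) : q (th π r (g * h)) = q (th π r g) + q (th π r h) := by
  rw [th_mul π hk hr hg hh, hq.add _ (th_FF π hr hg) _ (th_FF π hr hh)]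

omit [AddCommGroup A] in
theorem Qm.eqm (hk : 1 ≤ k) {r : List ℕ} (hr : r.length = m) {g h : Br} (hg : g ∈ Gam k (width r))
    (he : Eqm (k + 1) (width r) g h) : q (th π r g) = q (th π r h) := by
  rw [th_eqm π hk hr hg he]

theorem Qm.low (hq : Qm π H q) {r : List ℕ} (hr : r.length = m) {g : Br} (hg : g ∈ Gam (k + 1) (width r)) :
    q (th π r g) = 0 := by
  rw [th_one π hr hg, hq.one]

theorem Qm.inv (hq : Qm π H q) (hk : 1 ≤ k) {r : List ℕ} (hr : r.length = m) {g : Br} (hg : g ∈ Gam k (width r)) :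
    q (th π r g⁻¹) = - q (th π r g) := by
  have h := hq.mul hk hr (inv_mem hg) hg
  rw [inv_mul_cancel, hq.low hr (one_mem _)] at h
  exact eq_neg_of_add_eq_zero_left h.symm

end

section

variable {m : ℕ} {G : Type} [Group G] {A : Type} [AddCommGroup A] {π : (sys m).Quo (3 + 1) G} {H : Subgroup G}
  {q : G → A} {r : List ℕ}

/-- class of the triple commutator -/
def tf (π : (sys m).Quo (3 + 1) G) (q : G → A) (r : List ℕ) (u v w : Br) : A := q (th π r (cm u (cm v w)))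

theorem cm_add_left {n : ℕ} {u u' x : Br} (hu : u ∈ PN n) (hu' : u' ∈ PN n) (hx : x ∈ Gam 2 n) :
    Eqm 4 n (cm (u * u') x) (cm u x * cm u' x) := by
  have h1 : cm u' x ∈ Gam 3 n := Gam_cm (i := 1) le_rfl (by omega) hu' hx
  have h2 : cm u x ∈ Gam 3 n := Gam_cm (i := 1) le_rfl (by omega) hu hx
  have e : cm (u * u') x = u * cm u' x * u⁻¹ * cm u x := by unfold cm; group
  rw [e]
  refine (Eqm.mul (Gam_le_PN h2) (Eqm.central (by omega) h1 hu) (Eqm.refl _)).trans ?_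
  have h3 := Gam_cm (i := 3) (j := 3) (by omega) (by omega) (inv_mem h2) (inv_mem h1)
  have e2 : (cm u' x * cm u x)⁻¹ * (cm u x * cm u' x) = cm (cm u x)⁻¹ (cm u' x)⁻¹ := by
    unfold cm
    group
  rw [Eqm, e2]
  exact Gam_anti (by omega) h3

theorem cm_add_right {n : ℕ} {u x y : Br} (hu : u ∈ PN n) (hx : x ∈ Gam 2 n) (hy : y ∈ Gam 2 n) :
    Eqm 4 n (cm u (x * y)) (cm u x * cm u y) := by
  have h1 : cm u y ∈ Gam 3 n := Gam_cm (i := 1) le_rfl (by omega) hu hy
  have e : cm u (x * y) = cm u x * (x * cm u y * x⁻¹) := by unfold cm; group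
  rw [e]
  exact Eqm.mul_left _ (Eqm.central (by omega) h1 (Gam_le_PN hx))

theorem tf_add1 (hq : Qm π H q) (hr : r.length = m) {u u' v w : Br} (hu : u ∈ PN (width r)) (hu' : u' ∈ PN (width r))
    (hv : v ∈ PN (width r)) (hw : w ∈ PN (width r)) : tf π q r (u * u') v w = tf π q r u v w + tf π q r u' v w := by
  have hx : cm v w ∈ Gam 2 (width r) := Gam_cm (i := 1) (j := 1) le_rfl le_rfl hv hw
  have h1 := Gam_cm (i := 1) (j := 2) le_rfl (by omega) hu hx
  have h2 := Gam_cm (i := 1) (j := 2) le_rfl (by omega) hu' hx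
  have h3 := Gam_cm (i := 1) (j := 2) le_rfl (by omega) (mul_mem hu hu') hx
  rw [tf, tf, tf, ← hq.mul (by omega) hr h1 h2]
  exact Qm.eqm (by omega) hr h3 (cm_add_left hu hu' hx)

theorem tf_low (hq : Qm π H q) (hr : r.length = m) {u v w : Br} (hu : u ∈ PN (width r))
    (h : cm v w ∈ Gam 3 (width r)) : tf π q r u v w = 0 :=
  hq.low hr (Gam_cm (i := 1) (j := 3) le_rfl (by omega) hu h)

theorem tf_low1 (hq : Qm π H q) (hr : r.length = m) {u v w : Br} (hu : u ∈ Gam 2 (width r))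
    (hv : v ∈ PN (width r)) (hw : w ∈ PN (width r)) : tf π q r u v w = 0 :=
  hq.low hr (Gam_cm (i := 2) (j := 2) (by omega) (by omega) hu (Gam_cm (i := 1) (j := 1) le_rfl le_rfl hv hw))

omit [AddCommGroup A] in
theorem tf_eq (hr : r.length = m) {u v w v' w' : Br} (hu : u ∈ PN (width r)) (hx : cm v w ∈ Gam 2 (width r))
    (h : Eqm 3 (width r) (cm v w) (cm v' w')) : tf π q r u v w = tf π q r u v' w' := by
  have h1 := Gam_cm (i := 1) (j := 2) le_rfl (by omega) hu hx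
  refine Qm.eqm (by omega) hr h1 ?_
  have e : cm v' w' = cm v w * ((cm v w)⁻¹ * cm v' w') := by group
  rw [e]
  have h2 : (cm v w)⁻¹ * cm v' w' ∈ Gam 3 (width r) := h
  have h3 := cm_add_right hu hx (Gam_anti (by omega) h2)
  refine Eqm.symm (h3.trans ?_)
  have h4 : cm u ((cm v w)⁻¹ * cm v' w') ∈ Gam 4 (width r) := Gam_cm (i := 1) (j := 3) le_rfl (by omega) hu h2
  exact Eqm.of_mul h4 rfl

theorem cm_add_mid {n : ℕ} {v v' w : Br} (hv : v ∈ PN n) (hv' : v' ∈ PN n) (hw : w ∈ PN n) :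
    Eqm 3 n (cm (v * v') w) (cm v w * cm v' w) := by
  have h1 : cm v' w ∈ Gam 2 n := Gam_cm (i := 1) (j := 1) le_rfl le_rfl hv' hw
  have h2 : cm v w ∈ Gam 2 n := Gam_cm (i := 1) (j := 1) le_rfl le_rfl hv hw
  have e : cm (v * v') w = v * cm v' w * v⁻¹ * cm v w := by unfold cm; group
  rw [e]
  exact (Eqm.mul (Gam_le_PN h2) (Eqm.central (by omega) h1 hv) (Eqm.refl _)).trans (Eqm.comm2 h1 h2)

theorem tf_add2 (hq : Qm π H q) (hr : r.length = m) {u v v' w : Br} (hu : u ∈ PN (width r)) (hv : v ∈ PN (width r))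
    (hv' : v' ∈ PN (width r)) (hw : w ∈ PN (width r)) :
    tf π q r u (v * v') w = tf π q r u v w + tf π q r u v' w := by
  have x1 : cm v w ∈ Gam 2 (width r) := Gam_cm (i := 1) (j := 1) le_rfl le_rfl hv hw
  have x2 : cm v' w ∈ Gam 2 (width r) := Gam_cm (i := 1) (j := 1) le_rfl le_rfl hv' hw
  have x3 : cm (v * v') w ∈ Gam 2 (width r) := Gam_cm (i := 1) (j := 1) le_rfl le_rfl (mul_mem hv hv') hw
  have y1 := Gam_cm (i := 1) (j := 2) le_rfl (by omega) hu x1
  have y2 := Gam_cm (i := 1) (j := 2) le_rfl (by omega) hu x2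
  have y3 := Gam_cm (i := 1) (j := 2) le_rfl (by omega) hu x3
  have h := cm_add_mid hv hv' hw
  rw [tf, tf, tf, ← hq.mul (by omega) hr y1 y2]
  refine Qm.eqm (by omega) hr y3 ?_
  have e : cm (v * v') w = (cm v w * cm v' w) * ((cm v w * cm v' w)⁻¹ * cm (v * v') w) := by group
  have h2 : (cm v w * cm v' w)⁻¹ * cm (v * v') w ∈ Gam 3 (width r) := h.symm
  rw [e]
  refine (cm_add_right hu (mul_mem x1 x2) (Gam_anti (by omega) h2)).trans ?_
  have h4 : cm u ((cm v w * cm v' w)⁻¹ * cm (v * v') w) ∈ Gam 4 (width r) :=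
    Gam_cm (i := 1) (j := 3) le_rfl (by omega) hu h2
  exact (Eqm.of_mul h4 rfl).trans (cm_add_right hu x1 x2)

theorem tf_anti (hq : Qm π H q) (hr : r.length = m) {u v w : Br} (hu : u ∈ PN (width r)) (hv : v ∈ PN (width r))
    (hw : w ∈ PN (width r)) : tf π q r u w v = - tf π q r u v w := by
  have x1 : cm v w ∈ Gam 2 (width r) := Gam_cm (i := 1) (j := 1) le_rfl le_rfl hv hw
  have y1 := Gam_cm (i := 1) (j := 2) le_rfl (by omega) hu x1
  have y2 := Gam_cm (i := 1) (j := 2) le_rfl (by omega) hu (inv_mem x1)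
  rw [tf, tf, ← cm_inv v w]
  have h1 := cm_add_right hu x1 (inv_mem x1)
  have e : cm u 1 = 1 := by unfold cm; group
  rw [mul_inv_cancel, e] at h1
  have h2 := Qm.eqm (q := q) (π := π) (by omega) hr (one_mem _) h1
  rw [hq.mul (by omega) hr y1 y2, hq.low hr (one_mem _)] at h2
  exact eq_neg_of_add_eq_zero_right h2.symm

theorem tf_add3 (hq : Qm π H q) (hr : r.length = m) {u v w w' : Br} (hu : u ∈ PN (width r)) (hv : v ∈ PN (width r))
    (hw : w ∈ PN (width r)) (hw' : w' ∈ PN (width r)) :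
    tf π q r u v (w * w') = tf π q r u v w + tf π q r u v w' := by
  rw [tf_anti hq hr hu (mul_mem hw hw') hv, tf_add2 hq hr hu hw hw' hv, tf_anti hq hr hu hv hw,
    tf_anti hq hr hu hv hw']
  abel

theorem tf_self (hq : Qm π H q) (hr : r.length = m) {u v : Br} (hu : u ∈ PN (width r)) : tf π q r u v v = 0 := by
  have e : cm v v = 1 := by unfold cm; group
  refine tf_low hq hr hu ?_
  rw [e]
  exact one_mem _

theorem tf_congr1 (hq : Qm π H q) (hr : r.length = m) {u u' v w : Br} (hu : u ∈ PN (width r))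
    (h : Eqm 2 (width r) u u') (hv : v ∈ PN (width r)) (hw : w ∈ PN (width r)) :
    tf π q r u v w = tf π q r u' v w := by
  have e : u' = u * (u⁻¹ * u') := by group
  have h2 : u⁻¹ * u' ∈ Gam 2 (width r) := h
  rw [e, tf_add1 hq hr hu (Gam_le_PN h2) hv hw, tf_low1 hq hr h2 hv hw, add_zero]

theorem tf_congr (hq : Qm π H q) (hr : r.length = m) {u u' v v' w w' : Br} (hu : u ∈ PN (width r))
    (hu' : Eqm 2 (width r) u u') (hv : v ∈ PN (width r)) (hv' : Eqm 2 (width r) v v') (hw : w ∈ PN (width r))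
    (hw' : Eqm 2 (width r) w w') : tf π q r u v w = tf π q r u' v' w' := by
  have x1 : cm v w ∈ Gam 2 (width r) := Gam_cm (i := 1) (j := 1) le_rfl le_rfl hv hw
  have pu : u' ∈ PN (width r) := by
    have e : u' = u * (u⁻¹ * u') := by group
    rw [e]
    exact mul_mem hu (Gam_le_PN hu')
  rw [tf_congr1 hq hr hu hu' hv hw]
  exact tf_eq hr pu x1 (cm_eqm hv hw hv' hw')

theorem tf_inv1 (hq : Qm π H q) (hr : r.length = m) {u v w : Br} (hu : u ∈ PN (width r)) (hv : v ∈ PN (width r))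
    (hw : w ∈ PN (width r)) : tf π q r u⁻¹ v w = - tf π q r u v w := by
  have h := tf_add1 hq hr (inv_mem hu) hu hv hw
  have e : cm (u⁻¹ * u) (cm v w) = 1 := by unfold cm; group
  have e1 : tf π q r (u⁻¹ * u) v w = 0 := by
    rw [tf, e]
    exact hq.low hr (one_mem _)
  rw [e1] at h
  exact eq_neg_of_add_eq_zero_left h.symm

theorem tf_inv2 (hq : Qm π H q) (hr : r.length = m) {u v w : Br} (hu : u ∈ PN (width r)) (hv : v ∈ PN (width r))
    (hw : w ∈ PN (width r)) : tf π q r u v⁻¹ w = - tf π q r u v w := by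
  have h := tf_add2 hq hr hu (inv_mem hv) hv hw
  have e : cm (v⁻¹ * v) w = 1 := by unfold cm; group
  have e1 : tf π q r u (v⁻¹ * v) w = 0 := by
    refine tf_low hq hr hu ?_
    rw [e]
    exact one_mem _
  rw [e1] at h
  exact eq_neg_of_add_eq_zero_left h.symm

theorem tf_jac (hq : Qm π H q) (hr : r.length = m) {u v w : Br} (hu : u ∈ PN (width r)) (hv : v ∈ PN (width r))
    (hw : w ∈ PN (width r)) : tf π q r u v w + tf π q r v w u + tf π q r w u v = 0 := by
  have key : ∀ {x y z : Br}, x ∈ PN (width r) → y ∈ PN (width r) → z ∈ PN (width r) →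
      (y * cm (cm y⁻¹ x) z * y⁻¹ ∈ Gam 3 (width r)) ∧
        q (th π r (y * cm (cm y⁻¹ x) z * y⁻¹)) = tf π q r z y x := by
    intro x y z hx hy hz
    have h1 : cm y⁻¹ x ∈ Gam 2 (width r) := Gam_cm (i := 1) (j := 1) le_rfl le_rfl (inv_mem hy) hx
    have h2 : cm z (cm y⁻¹ x) ∈ Gam 3 (width r) := Gam_cm (i := 1) (j := 2) le_rfl (by omega) hz h1
    have h3 : cm (cm y⁻¹ x) z ∈ Gam 3 (width r) := Gam_cm (i := 2) (j := 1) (by omega) le_rfl h1 hz
    have h4 : y * cm (cm y⁻¹ x) z * y⁻¹ ∈ Gam 3 (width r) := Gam_conj (PN_iff.1 hy).1 h3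
    refine ⟨h4, ?_⟩
    rw [Qm.eqm (q := q) (π := π) (by omega) hr h4 (Eqm.central (by omega) h3 hy), ← cm_inv z,
      hq.inv (by omega) hr h2]
    change - tf π q r z y⁻¹ x = _
    rw [tf_inv2 hq hr hz hy hx, neg_neg]
  obtain ⟨a1, a2⟩ := key hu hv hw
  obtain ⟨b1, b2⟩ := key hv hw hu
  obtain ⟨c1, c2⟩ := key hw hu hv
  have h : q (th π r (v * cm (cm v⁻¹ u) w * v⁻¹ * (w * cm (cm w⁻¹ v) u * w⁻¹) * (u * cm (cm u⁻¹ w) v * u⁻¹))) =
      q (th π r 1) := by rw [hall_witt]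
  rw [hq.mul (by omega) hr (mul_mem a1 b1) c1, hq.mul (by omega) hr a1 b1, hq.low hr (one_mem _), a2, b2, c2,
    tf_anti hq hr hw hu hv, tf_anti hq hr hu hv hw, tf_anti hq hr hv hw hu] at h
  have h2 := congrArg Neg.neg h
  rw [neg_zero] at h2
  rw [← h2]
  abel

end

end SLC
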