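import Pool.Agent.SLC.Tri0

/-!
String links, degree 3: triple commutators on positions.
-/

set_option autoImplicit false

namespace SLC

open CSys

abbrev D2 (N x y : ℕ) : Prop := x < N ∧ y < N ∧ x ≠ y
abbrev D3 (N x y z : ℕ) : Prop := x < N ∧ y < N ∧ z < N ∧ x ≠ y ∧ x ≠ z ∧ y ≠ z

/-- insertion of a pair of parallel strands -/
theorem pair_ins {N n p : ℕ} (hp : p + 1 < N) (hn : n + 2 ≤ N) (f : ℕ → ℕ) (h1 : ∀ x < n, f x < N)
    (h2 : ∀ x < n, ∀ y < n, f x = f y → x = y) (h3 : ∀ x < n, f x ≠ p ∧ f x ≠ p + 1) :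
    ∃ e ∈ BN N, ∃ t : Br, C p * T e = T t * C 0 ∧ T e * U 0 = U p * T t ∧ perm e 0 = p ∧ perm e 1 = p + 1 ∧
      ∀ x < n, perm e (x + 2) = f x := by
  obtain ⟨M, hM⟩ : ∃ M, N = M + 2 := ⟨N - 2, by omega⟩
  obtain ⟨j, hj⟩ : ∃ j, M = p + j := ⟨M - p, by omega⟩
  obtain ⟨c0, hc0, hp0⟩ := exists_inj n M (fun x => if f x < p then f x else f x - 2) (by
    intro x hx
    have := h1 x hx
    have := h3 x hx
    split_ifs <;> omega) (by
    intro x hx y hy h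
    have h4 := h3 x hx
    have h5 := h3 y hy
    apply h2 x hx y hy
    split_ifs at h <;> omega)
  have z1 : zv p j ∈ BN N := zv_mem _ _ (by omega)
  have z0 : zv 0 M ∈ BN N := zv_mem _ _ (by omega)
  have e1 : C p * T (zv p j) = T 1 * C M := by rw [C_zv, T_one, one_mul, hj]
  have e2 : C M * T c0 = T c0 * C M := C_BN le_rfl hc0
  have e3 : C 0 * T (zv 0 M) = T 1 * C M := by rw [C_zv, T_one, one_mul, Nat.zero_add]
  have b1 : T (zv p j) * U M = U p * T 1 := by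
    have := zv_U p j
    rw [← hj] at this
    rw [this, T_one, mul_one]
  have b2 : T c0 * U M = U M * T c0 := U_BN le_rfl hc0
  have b3 : T (zv 0 M) * U M = U 0 * T 1 := by
    have := zv_U 0 M
    rw [Nat.zero_add] at this
    rw [this, T_one, mul_one]
  have q0 : ∀ x, perm (zv 0 M)⁻¹ x = if x = 0 then M else if x = 1 then M + 1 else if x < M + 2 then x - 2 else x := by
    intro x
    rw [map_inv, Equiv.Perm.inv_eq_iff_eq, perm_zv]
    split_ifs <;> omega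
  have c0f := (perm_lt hc0).2
  refine ⟨zv p j * c0 * (zv 0 M)⁻¹, mul_mem (mul_mem z1 (BN_mono (by omega) hc0)) (inv_mem z0), 1 * c0 * 1⁻¹,
    cap_mul (cap_mul e1 e2) (cap_inv e3), cup_mul (cup_mul b1 b2) (cup_inv b3), ?_, ?_, fun x hx => ?_⟩
  · rw [map_mul, map_mul, Equiv.Perm.mul_apply, Equiv.Perm.mul_apply, q0, if_pos rfl, c0f M le_rfl, perm_zv]
    split_ifs <;> omega
  · rw [map_mul, map_mul, Equiv.Perm.mul_apply, Equiv.Perm.mul_apply, q0, if_neg (by omega), if_pos rfl,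
      c0f (M + 1) (by omega), perm_zv]
    split_ifs <;> omega
  · rw [map_mul, map_mul, Equiv.Perm.mul_apply, Equiv.Perm.mul_apply, q0, if_neg (by omega), if_neg (by omega),
      if_pos (by omega), Nat.add_sub_cancel, hp0 x hx, perm_zv]
    have := h1 x hx
    have := h3 x hx
    split_ifs <;> omega

/-- four positions -/
def fourf (x y z w : ℕ) : ℕ → ℕ
  | 0 => x
  | 1 => y
  | 2 => z
  | _ => w

theorem exists_four {N x y z w : ℕ} (h : D3 N x y z) (hw : w < N) (h1 : w ≠ x) (h2 : w ≠ y) (h3 : w ≠ z) :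
    ∃ c ∈ BN N, perm c 0 = x ∧ perm c 1 = y ∧ perm c 2 = z ∧ perm c 3 = w := by
  obtain ⟨a1, a2, a3, a4, a5, a6⟩ := h
  obtain ⟨c, hc, h⟩ := exists_inj 4 N (fourf x y z w) (by
    intro a ha
    interval_cases a <;> assumption) (by
    intro a ha b hb hab
    interval_cases a <;> interval_cases b <;> simp only [fourf] at hab <;> omega)
  exact ⟨c, hc, h 0 (by omega), h 1 (by omega), h 2 (by omega), h 3 (by omega)⟩

theorem exists_tau (N : ℕ) : ∃ τ : ℕ → ℕ → Br, ∀ x y, D2 N x y →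
    ∃ c ∈ BN N, perm c 0 = x ∧ perm c 1 = y ∧ τ x y = c * σ 0 ^ 2 * c⁻¹ := by
  classical
  have h : ∀ x y, ∃ t : Br, D2 N x y → ∃ c ∈ BN N, perm c 0 = x ∧ perm c 1 = y ∧ t = c * σ 0 ^ 2 * c⁻¹ := by
    intro x y
    by_cases hxy : D2 N x y
    · obtain ⟨c, hc, h0, h1⟩ := exists_two hxy.1 hxy.2.1 hxy.2.2
      exact ⟨_, fun _ => ⟨c, hc, h0, h1, rfl⟩⟩
    · exact ⟨1, fun h => absurd h hxy⟩
  choose τ hτ using h
  exact ⟨τ, hτ⟩

/-- a pure braid in which the strands x and y twist once -/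
noncomputable def tau (N : ℕ) : ℕ → ℕ → Br := Classical.choose (exists_tau N)

theorem tau_spec {N x y : ℕ} (h : D2 N x y) : ∃ c ∈ BN N, perm c 0 = x ∧ perm c 1 = y ∧ tau N x y = c * σ 0 ^ 2 * c⁻¹ :=
  Classical.choose_spec (exists_tau N) x y h

theorem tau_mem {N x y : ℕ} (h : D2 N x y) : tau N x y ∈ PN N := by
  obtain ⟨c, hc, _, _, e⟩ := tau_spec h
  rw [e]
  exact PN_conj hc (sq_mem_PN (by omega))

theorem tau_rep {N x y : ℕ} (h : D2 N x y) {c : Br} (hc : c ∈ BN N)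
    (hp : (perm c 0 = x ∧ perm c 1 = y) ∨ (perm c 0 = y ∧ perm c 1 = x)) :
    Eqm 2 N (c * σ 0 ^ 2 * c⁻¹) (tau N x y) := by
  obtain ⟨c', hc', h0, h1, e⟩ := tau_spec h
  obtain ⟨q, hq, he⟩ := sq_class (by omega) hc hc' (by rw [h0, h1]; exact hp)
  rw [e]
  exact Eqm.of_mul hq he

theorem tau_rep' {N i : ℕ} (hi : i + 1 < N) {c : Br} (hc : c ∈ BN N) {x y : ℕ} (h : D2 N x y)
    (hp : (perm c i = x ∧ perm c (i + 1) = y) ∨ (perm c i = y ∧ perm c (i + 1) = x)) :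
    Eqm 2 N (c * σ i ^ 2 * c⁻¹) (tau N x y) := by
  obtain ⟨c', hc', e, h0, h1⟩ := sq_rep hc hi
  rw [e]
  exact tau_rep h hc' (by rw [h0, h1]; exact hp)

theorem tau_symm {N x y : ℕ} (h : D2 N x y) : Eqm 2 N (tau N x y) (tau N y x) := by
  obtain ⟨c, hc, h0, h1, e⟩ := tau_spec h
  rw [e]
  exact tau_rep ⟨h.2.1, h.1, h.2.2.symm⟩ hc (Or.inr ⟨h0, h1⟩)

theorem cm_comm {a b : Br} (h : a * b = b * a) : cm a b = 1 := by
  rw [cm, h]
  group

theorem Eqm.mem {k n : ℕ} {b : Br} (h : Eqm k n 1 b) : b ∈ Gam k n := by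
  rwa [Eqm, inv_one, one_mul] at h

/-- disjoint pairs -/
theorem tau_disj {N x y z w : ℕ} (h : D3 N x y z) (hw : w < N) (h1 : w ≠ x) (h2 : w ≠ y) (h3 : w ≠ z) :
    cm (tau N x y) (tau N z w) ∈ Gam 3 N := by
  obtain ⟨c, hc, p0, p1, p2, p3⟩ := exists_four h hw h1 h2 h3
  have hN : 4 ≤ N := by omega
  have e1 := tau_rep (N := N) (x := x) (y := y) (by omega) hc (Or.inl ⟨p0, p1⟩)
  have e2 := tau_rep' (N := N) (i := 2) (by omega) hc (x := z) (y := w) (by omega) (Or.inl ⟨p2, p3⟩)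
  have h02 : σ 0 * σ 2 = σ 2 * σ 0 := σ_far (i := 0) (k := 2) le_rfl
  have h02' : σ 0 ^ 2 * σ 2 ^ 2 = σ 2 ^ 2 * σ 0 ^ 2 := ((show Commute (σ 0) (σ 2) from h02).pow_pow 2 2)
  have e3 := cm_eqm (PN_conj hc (sq_mem_PN (by omega))) (PN_conj hc (sq_mem_PN (by omega))) e1 e2
  rw [cm_conj, cm_comm h02', mul_one, mul_inv_cancel] at e3
  exact e3.mem

/-- the relation of three strands -/
theorem tau_four {N x y z : ℕ} (h : D3 N x y z) : cm (tau N x y) (tau N x z * tau N y z) ∈ Gam 3 N := by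
  obtain ⟨a1, a2, a3, a4, a5, a6⟩ := h
  obtain ⟨c, hc, p0, p1, p2⟩ := exists_tri a1 a2 a3 a4 a5 a6
  have hN : 3 ≤ N := by omega
  have b1 : σ 1 ∈ BN N := σ_mem (by omega)
  have s0 : σ 0 ^ 2 ∈ PN N := sq_mem_PN (by omega)
  have s1 : σ 1 ^ 2 ∈ PN N := sq_mem_PN (by omega)
  have e1 := tau_rep (N := N) (x := x) (y := y) ⟨a1, a2, a4⟩ hc (Or.inl ⟨p0, p1⟩)
  have e2 := tau_rep (N := N) (x := x) (y := z) ⟨a1, a3, a5⟩ (mul_mem hc b1) (Or.inl ⟨by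
    rw [map_mul, Equiv.Perm.mul_apply, perm_σ, Equiv.swap_apply_of_ne_of_ne (by omega) (by omega), p0], by
    rw [map_mul, Equiv.Perm.mul_apply, perm_σ, Equiv.swap_apply_left]; exact p2⟩)
  have e3 := tau_rep' (N := N) (i := 1) (by omega) hc (x := y) (y := z) ⟨a2, a3, a6⟩ (Or.inl ⟨p1, p2⟩)
  have e4 : c * σ 1 * σ 0 ^ 2 * (c * σ 1)⁻¹ * (c * σ 1 ^ 2 * c⁻¹) =
      c * ((σ 1 * σ 0 ^ 2 * (σ 1)⁻¹) * σ 1 ^ 2) * c⁻¹ := by group
  have m1 : (σ 1 * σ 0 ^ 2 * (σ 1)⁻¹) * σ 1 ^ 2 ∈ PN N := mul_mem (PN_conj b1 s0) s1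
  have e5 := Eqm.mul (PN_conj hc s1) e2 e3
  rw [e4] at e5
  have e6 := cm_eqm (PN_conj hc s0) (PN_conj hc m1) e1 e5
  have e7 : σ 0 ^ 2 * ((σ 1 * σ 0 ^ 2 * (σ 1)⁻¹) * σ 1 ^ 2) = ((σ 1 * σ 0 ^ 2 * (σ 1)⁻¹) * σ 1 ^ 2) * σ 0 ^ 2 := by
    have h1 : σ 0 ^ 2 * tw3 = tw3 * σ 0 ^ 2 := ((show Commute (σ 0) tw3 from tw3_comm0).pow_left 2)
    unfold tw3 at h1
    simp only [mul_assoc] at h1 ⊢
    exact mul_left_cancel h1
  rw [cm_conj, cm_comm e7, mul_one, mul_inv_cancel] at e6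
  exact e6.mem

/-- braids absorbed by the cap and the cup at p -/
def Kp (p : ℕ) : Subgroup Br := stT (C p) ⊓ stB (U p)

/-- braids which pass the cap and the cup at p -/
def Spa (p : ℕ) (g : Br) : Prop := ∃ t : Br, C p * T g = T t * C p ∧ T g * U p = U p * T t

theorem Kp_Sp {p : ℕ} {g : Br} (h : g ∈ Kp p) : Spa p g := by
  refine ⟨1, ?_, ?_⟩
  · rw [T_one, one_mul]; exact h.1
  · rw [T_one, mul_one]; exact h.2

theorem Kp_conj {p : ℕ} {g k : Br} (hg : Spa p g) (hk : k ∈ Kp p) : g * k * g⁻¹ ∈ Kp p := by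
  obtain ⟨t, h1, h2⟩ := hg
  exact ⟨stT_conj h1 hk.1, stB_conj h2 hk.2⟩

theorem Spa.mul {p : ℕ} {g h : Br} (hg : Spa p g) (hh : Spa p h) : Spa p (g * h) := by
  obtain ⟨t, h1, h2⟩ := hg
  obtain ⟨s, h3, h4⟩ := hh
  exact ⟨t * s, cap_mul h1 h3, cup_mul h2 h4⟩

theorem Spa.inv {p : ℕ} {g : Br} (hg : Spa p g) : Spa p g⁻¹ := by
  obtain ⟨t, h1, h2⟩ := hg
  exact ⟨t⁻¹, cap_inv h1, cup_inv h2⟩

theorem Spa.cm {p : ℕ} {g h : Br} (hg : Spa p g) (hh : Spa p h) : Spa p (cm g h) := by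
  unfold SLC.cm
  exact ((hg.mul hh).mul hg.inv).mul hh.inv

theorem Kp_cm_right {p : ℕ} {g k : Br} (hg : Spa p g) (hk : k ∈ Kp p) : cm g k ∈ Kp p := by
  unfold cm
  exact mul_mem (Kp_conj hg hk) (inv_mem hk)

theorem Kp_cm_left {p : ℕ} {g k : Br} (hg : Spa p g) (hk : k ∈ Kp p) : cm k g ∈ Kp p := by
  rw [← cm_inv]
  exact inv_mem (Kp_cm_right hg hk)

/-- the strand y goes around the pair p, p + 1 -/
theorem exists_kappa {N p y : ℕ} (h : D3 N p (p + 1) y) : ∃ g ∈ PN N, g ∈ Kp p ∧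
    Eqm 2 N g (tau N p y * tau N (p + 1) y) := by
  obtain ⟨e, he, t, h1, h2, p0, p1, px⟩ := pair_ins (N := N) (n := 1) (p := p) (by omega) (by omega) (fun _ => y)
    (fun x hx => by omega) (fun x hx y hy _ => by omega) (fun x hx => by omega)
  have p2 : perm e 2 = y := px 0 (by omega)
  have b1 : σ 1 ∈ BN N := σ_mem (by omega)
  have e2 := tau_rep (N := N) (x := p) (y := y) (by omega) (mul_mem he b1) (Or.inl ⟨by
    rw [map_mul, Equiv.Perm.mul_apply, perm_σ, Equiv.swap_apply_of_ne_of_ne (by omega) (by omega), p0], by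
    rw [map_mul, Equiv.Perm.mul_apply, perm_σ, Equiv.swap_apply_left]; exact p2⟩)
  have e3 := tau_rep' (N := N) (i := 1) (by omega) he (x := p + 1) (y := y) (by omega) (Or.inl ⟨p1, p2⟩)
  refine ⟨e * rh * e⁻¹, PN_conj he (rh_mem (by omega)), ⟨stT_conj h1 rh_T, stB_conj h2 rh_B⟩, ?_⟩
  have e4 : e * rh * e⁻¹ = e * σ 1 * σ 0 ^ 2 * (e * σ 1)⁻¹ * (e * σ 1 ^ 2 * e⁻¹) := by
    rw [rh_eq]
    group
  rw [e4]
  exact Eqm.mul (PN_conj he (sq_mem_PN (by omega))) e2 e3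

/-- the twist of the pair p, p + 1 -/
theorem exists_lambda {N p : ℕ} (h : p + 1 < N) : ∃ g ∈ PN N, g ∈ Kp p ∧ Eqm 2 N g (tau N p (p + 1)) := by
  obtain ⟨e, he, t, h1, h2, p0, p1, -⟩ := pair_ins (N := N) (n := 0) (p := p) h (by omega) (fun x => x)
    (fun x hx => by omega) (fun x hx y hy _ => by omega) (fun x hx => by omega)
  have a1 : σ 0 ^ 2 ∈ stT (C 0) := by rw [mem_stT, pow_two, T_mul, ← mul_assoc, C_σ, C_σ]
  have a2 : σ 0 ^ 2 ∈ stB (U 0) := by rw [mem_stB, pow_two, T_mul, mul_assoc, σ_U, σ_U]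
  exact ⟨e * σ 0 ^ 2 * e⁻¹, PN_conj he (sq_mem_PN (by omega)), ⟨stT_conj h1 a1, stB_conj h2 a2⟩,
    tau_rep (by omega) he (Or.inl ⟨p0, p1⟩)⟩

/-- strands y, z away from the pair p, p + 1 -/
theorem exists_pass {N p y z : ℕ} (h : D3 N p (p + 1) y) (hz : z < N) (h1 : z ≠ p) (h2 : z ≠ p + 1) (h3 : z ≠ y) :
    ∃ g ∈ PN N, Spa p g ∧ Eqm 2 N g (tau N y z) := by
  obtain ⟨e, he, t, h1, h2, p0, p1, px⟩ := pair_ins (N := N) (n := 2) (p := p) (by omega) (by omega)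
    (fun x => if x = 0 then y else z) (fun x hx => by split_ifs <;> omega)
    (fun x hx y hy h => by split_ifs at h <;> omega)
    (fun x hx => by split_ifs <;> omega)
  have p2 : perm e 2 = y := px 0 (by omega)
  have p3 : perm e 3 = z := px 1 (by omega)
  have a1 : C 0 * T (σ 2 ^ 2) = T (σ 0 ^ 2) * C 0 := by
    rw [pow_two, pow_two]
    exact cap_mul (Cσ_right le_rfl) (Cσ_right le_rfl)
  have a2 : T (σ 2 ^ 2) * U 0 = U 0 * T (σ 0 ^ 2) := by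
    rw [pow_two, pow_two]
    exact cup_mul (σU_right le_rfl) (σU_right le_rfl)
  refine ⟨e * σ 2 ^ 2 * e⁻¹, PN_conj he (sq_mem_PN (by omega)), ⟨_, cap_mul (cap_mul h1 a1) (cap_inv h1),
    cup_mul (cup_mul h2 a2) (cup_inv h2)⟩, ?_⟩
  exact tau_rep' (N := N) (i := 2) (by omega) he (x := y) (y := z) (by omega) (Or.inl ⟨p2, p3⟩)

end SLC
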