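import Pool.Agent.SLC.Tri1

/-!
String links, degree 3: relations between the triple commutators on positions.
-/

set_option autoImplicit false

namespace SLC

open CSys

/-- the strands x, x + 1 are joined at the top -/
def CapAt (r : List ℕ) (x : ℕ) : Prop := x + 1 < width r ∧ ∃ A, caps 0 r = A * C x

/-- relations between the classes of the triple commutators [t_ab, [t_xy, t_yz]] -/
structure TriY (r : List ℕ) {A : Type} [AddCommGroup A] (Y : ℕ → ℕ → ℕ → ℕ → ℕ → A) : Prop where
  symm : ∀ {a b x y z : ℕ}, D2 (width r) a b → D3 (width r) x y z → Y b a x y z = Y a b x y z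
  swap0 : ∀ {a b x y z : ℕ}, D2 (width r) a b → D3 (width r) x y z → Y a b y x z = - Y a b x y z
  swap1 : ∀ {a b x y z : ℕ}, D2 (width r) a b → D3 (width r) x y z → Y a b x z y = - Y a b x y z
  disj : ∀ {a b x y z : ℕ}, D2 (width r) a b → D3 (width r) x y z → a ≠ x → a ≠ y → a ≠ z → b ≠ x → b ≠ y → b ≠ z →
    Y a b x y z = 0
  ihx : ∀ {x y z w : ℕ}, D3 (width r) x y z → w < width r → w ≠ x → w ≠ y → w ≠ z →
    Y x w x y z + Y y w x y z + Y z w x y z = 0
  bsum : ∀ {x y z : ℕ}, D3 (width r) x y z → Y x y x y z + Y y z x y z + Y z x x y z = 0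
  asym : ∀ {x y z w : ℕ}, D3 (width r) x y z → w < width r → w ≠ x → w ≠ y → w ≠ z → Y z w x y z + Y z w x y w = 0
  arev : ∀ {x y z w : ℕ}, D3 (width r) x y z → w < width r → w ≠ x → w ≠ y → w ≠ z → Y x y z w x = Y z w x y z
  fl1 : ∀ {p a b y z : ℕ}, adjB r p → D3 (width r) p y z → p + 1 ≠ y → p + 1 ≠ z → D2 (width r) a b →
    a ≠ p → a ≠ p + 1 → b ≠ p → b ≠ p + 1 → Y a b p y z + Y a b (p + 1) y z = 0
  fl2 : ∀ {p b x y z : ℕ}, adjB r p → D3 (width r) x y z → b < width r → b ≠ p → b ≠ p + 1 → x ≠ p → x ≠ p + 1 →
    y ≠ p → y ≠ p + 1 → z ≠ p → z ≠ p + 1 → Y p b x y z + Y (p + 1) b x y z = 0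
  fl3 : ∀ {p b y z : ℕ}, adjB r p → D3 (width r) p y z → p + 1 ≠ y → p + 1 ≠ z → b < width r → b ≠ p → b ≠ p + 1 →
    Y p b p y z + Y (p + 1) b (p + 1) y z + Y p b (p + 1) y z + Y (p + 1) b p y z = 0
  tt3 : ∀ {x y z : ℕ}, CapAt r x → CapAt r y → D3 (width r) x y z → x + 1 ≠ y → y + 1 ≠ x → z ≠ x + 1 → z ≠ y + 1 →
    Y x z y x (y + 1) + Y x z (x + 1) y x + Y (x + 1) z (x + 1) y x = 0
  tt4 : ∀ {x y z : ℕ}, CapAt r x → CapAt r y → D3 (width r) x y z → x + 1 ≠ y → y + 1 ≠ x → z ≠ x + 1 → z ≠ y + 1 →
    Y x y y x z + Y x y y (x + 1) z + Y x (y + 1) y x z = 0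

section

variable {m : ℕ} {G : Type} [Group G] {A : Type} [AddCommGroup A] {π : (sys m).Quo (3 + 1) G} {H : Subgroup G}
  {q : G → A} {r : List ℕ}

theorem tf_Kp (hq : Qm π H q) {p : ℕ} (hp : adjB r p) {u v w : Br} (hu : Spa p u) (hv : Spa p v) (hw : Spa p w)
    (h : u ∈ Kp p ∨ v ∈ Kp p ∨ w ∈ Kp p) : tf π q r u v w = 0 := by
  have h1 : cm u (cm v w) ∈ Kp p := by
    rcases h with h | h | h
    · exact Kp_cm_left (hv.cm hw) h
    · exact Kp_cm_right hu (Kp_cm_left hw h)
    · exact Kp_cm_right hu (Kp_cm_right hv h)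
  rw [tf, th_turn π hp h1.1 h1.2, hq.one]

theorem tf_top (hq : Qm π H q) {u v w : Br} (hu : u ∈ stT (caps 0 r)) (hv : v ∈ stT (caps 0 r))
    (hw : w ∈ stT (caps 0 r)) : tf π q r u v w = 0 := by
  have h1 : cm u (cm v w) ∈ stT (caps 0 r) := by
    unfold cm
    exact mul_mem (mul_mem (mul_mem hu (mul_mem (mul_mem (mul_mem hv hw) (inv_mem hv)) (inv_mem hw))) (inv_mem hu))
      (inv_mem (mul_mem (mul_mem (mul_mem hv hw) (inv_mem hv)) (inv_mem hw)))
  rw [tf, th, cl_top h1, π.cls_one, hq.one]

/-- the class of [t_ab, [t_xy, t_yz]] -/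
noncomputable def Yf (π : (sys m).Quo (3 + 1) G) (q : G → A) (r : List ℕ) (a b x y z : ℕ) : A :=
  tf π q r (tau (width r) a b) (tau (width r) x y) (tau (width r) y z)

variable (hq : Qm π H q) (hr : r.length = m)

include hq hr

theorem tf_disj {u : Br} (hu : u ∈ PN (width r)) {x y z w : ℕ} (h : D3 (width r) x y z) (hw : w < width r)
    (h1 : w ≠ x) (h2 : w ≠ y) (h3 : w ≠ z) : tf π q r u (tau (width r) x y) (tau (width r) z w) = 0 :=
  tf_low hq hr hu (tau_disj h hw h1 h2 h3)

theorem tf_four {u : Br} (hu : u ∈ PN (width r)) {x y z : ℕ} (h : D3 (width r) x y z) :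
    tf π q r u (tau (width r) x y) (tau (width r) x z) + tf π q r u (tau (width r) x y) (tau (width r) y z) = 0 := by
  have m1 := tau_mem (N := width r) (x := x) (y := y) (by omega)
  have m2 := tau_mem (N := width r) (x := x) (y := z) (by omega)
  have m3 := tau_mem (N := width r) (x := y) (y := z) (by omega)
  rw [← tf_add3 hq hr hu m1 m2 m3]
  exact tf_low hq hr hu (tau_four h)

theorem tf_symm1 {v w : Br} (hv : v ∈ PN (width r)) (hw : w ∈ PN (width r)) {a b : ℕ} (h : D2 (width r) a b) :
    tf π q r (tau (width r) b a) v w = tf π q r (tau (width r) a b) v w :=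
  tf_congr1 hq hr (tau_mem (by omega)) (tau_symm (by omega)) hv hw

theorem tf_symm2 {u w : Br} (hu : u ∈ PN (width r)) (hw : w ∈ PN (width r)) {a b : ℕ} (h : D2 (width r) a b) :
    tf π q r u (tau (width r) b a) w = tf π q r u (tau (width r) a b) w :=
  tf_congr hq hr hu (Eqm.refl _) (tau_mem (by omega)) (tau_symm (by omega)) hw (Eqm.refl _)

theorem tf_symm3 {u v : Br} (hu : u ∈ PN (width r)) (hv : v ∈ PN (width r)) {a b : ℕ} (h : D2 (width r) a b) :
    tf π q r u v (tau (width r) b a) = tf π q r u v (tau (width r) a b) :=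
  tf_congr hq hr hu (Eqm.refl _) hv (Eqm.refl _) (tau_mem (by omega)) (tau_symm (by omega))

/-- swap of the first two strands -/
theorem tf_sw0 {u : Br} (hu : u ∈ PN (width r)) {x y z : ℕ} (h : D3 (width r) x y z) :
    tf π q r u (tau (width r) y x) (tau (width r) x z) = - tf π q r u (tau (width r) x y) (tau (width r) y z) := by
  rw [tf_symm2 hq hr hu (tau_mem (by omega)) (by omega)]
  exact eq_neg_of_add_eq_zero_left (tf_four hq hr hu h)

/-- reversal -/
theorem tf_rev {u : Br} (hu : u ∈ PN (width r)) {x y z : ℕ} (h : D3 (width r) x y z) :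
    tf π q r u (tau (width r) z y) (tau (width r) y x) = - tf π q r u (tau (width r) x y) (tau (width r) y z) := by
  rw [tf_symm2 hq hr hu (tau_mem (by omega)) (by omega), tf_symm3 hq hr hu (tau_mem (by omega)) (by omega)]
  exact tf_anti hq hr hu (tau_mem (by omega)) (tau_mem (by omega))

theorem tf_sw1 {u : Br} (hu : u ∈ PN (width r)) {x y z : ℕ} (h : D3 (width r) x y z) :
    tf π q r u (tau (width r) x z) (tau (width r) z y) = - tf π q r u (tau (width r) x y) (tau (width r) y z) := by
  rw [tf_sw0 hq hr hu (x := z) (y := x) (z := y) (by omega), tf_rev hq hr hu (x := y) (y := x) (z := z) (by omega),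
    tf_sw0 hq hr hu h]
  abel

theorem Yf_TriY : TriY r (Yf π q r) where
  symm := by
    intro a b x y z h h'
    exact tf_symm1 hq hr (tau_mem (by omega)) (tau_mem (by omega)) h
  swap0 := by
    intro a b x y z h h'
    exact tf_sw0 hq hr (tau_mem h) h'
  swap1 := by
    intro a b x y z h h'
    exact tf_sw1 hq hr (tau_mem h) h'
  disj := by
    intro a b x y z h h' h1 h2 h3 h4 h5 h6
    have m0 := tau_mem h
    have m1 := tau_mem (N := width r) (x := x) (y := y) (by omega)
    have m2 := tau_mem (N := width r) (x := y) (y := z) (by omega)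
    have j := tf_jac hq hr m0 m1 m2
    rw [tf_disj hq hr m1 (x := y) (y := z) (z := a) (w := b) (by omega) (by omega) (by omega) (by omega) (by omega),
      tf_disj hq hr m2 (x := a) (y := b) (z := x) (w := y) (by omega) (by omega) (by omega) (by omega) (by omega),
      add_zero, add_zero] at j
    exact j
  ihx := by
    intro x y z w h hw h1 h2 h3
    have m1 := tau_mem (N := width r) (x := x) (y := y) (by omega)
    have m2 := tau_mem (N := width r) (x := y) (y := z) (by omega)
    have n1 := tau_mem (N := width r) (x := x) (y := w) (by omega)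
    have n2 := tau_mem (N := width r) (x := y) (y := w) (by omega)
    have n3 := tau_mem (N := width r) (x := z) (y := w) (by omega)
    have j1 := tf_jac hq hr n1 m1 m2
    have j2 := tf_jac hq hr n2 m1 m2
    have j3 := tf_jac hq hr n3 m1 m2
    -- [t_yz, t_xw] = 0, [t_zw, t_xy] = 0
    have d1 := tf_disj hq hr m1 (x := y) (y := z) (z := x) (w := w) (by omega) (by omega) (by omega) (by omega)
      (by omega)
    have d2 := tf_disj hq hr m2 (x := z) (y := w) (z := x) (w := y) (by omega) (by omega) (by omega) (by omega)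
      (by omega)
    -- [t_yz, t_yw + t_zw] = 0, [t_xy, t_xw + t_yw] = 0
    have f1 := tf_four hq hr m1 (x := y) (y := z) (z := w) (by omega)
    have f2 := tf_four hq hr m2 (x := x) (y := y) (z := w) (by omega)
    have a1 := tf_anti hq hr m2 n1 m1
    have a2 := tf_anti hq hr m2 n2 m1
    change tf π q r _ _ _ + tf π q r _ _ _ + tf π q r _ _ _ = 0
    rw [d1] at j1
    rw [d2] at j3
    rw [a1, a2] at f2
    have e1 := eq_neg_of_add_eq_zero_left f1
    have e2 := eq_neg_of_add_eq_zero_left f2
    rw [e1] at j2
    have s : tf π q r (tau (width r) x w) (tau (width r) x y) (tau (width r) y z) =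
        - tf π q r (tau (width r) y z) (tau (width r) x w) (tau (width r) x y) := by
      rw [add_zero] at j1
      exact eq_neg_of_add_eq_zero_left j1
    have s2 : tf π q r (tau (width r) y w) (tau (width r) x y) (tau (width r) y z) =
        tf π q r (tau (width r) x y) (tau (width r) y z) (tau (width r) z w) -
          tf π q r (tau (width r) y z) (tau (width r) y w) (tau (width r) x y) := by
      have := eq_neg_of_add_eq_zero_left (show tf π q r (tau (width r) y w) (tau (width r) x y) (tau (width r) y z) +
        (- tf π q r (tau (width r) x y) (tau (width r) y z) (tau (width r) z w) +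
          tf π q r (tau (width r) y z) (tau (width r) y w) (tau (width r) x y)) = 0 by rw [← j2]; abel)
      rw [this]
      abel
    have s3 : tf π q r (tau (width r) z w) (tau (width r) x y) (tau (width r) y z) =
        - tf π q r (tau (width r) x y) (tau (width r) y z) (tau (width r) z w) := by
      rw [add_zero] at j3
      exact eq_neg_of_add_eq_zero_left j3
    have s4 : tf π q r (tau (width r) y z) (tau (width r) x w) (tau (width r) x y) =
        - tf π q r (tau (width r) y z) (tau (width r) y w) (tau (width r) x y) := by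
      have := congrArg Neg.neg e2
      rw [neg_neg, neg_neg] at this
      rw [this]
    rw [s, s2, s3, s4]
    abel
  bsum := by
    intro x y z h
    have m1 := tau_mem (N := width r) (x := x) (y := y) (by omega)
    have m2 := tau_mem (N := width r) (x := y) (y := z) (by omega)
    have m3 := tau_mem (N := width r) (x := z) (y := x) (by omega)
    have j1 := tf_jac hq hr m1 m1 m2
    have j2 := tf_jac hq hr m2 m1 m2
    have j3 := tf_jac hq hr m3 m1 m2
    have z1 := tf_self hq hr m2 (v := tau (width r) x y)
    have z2 := tf_self hq hr m1 (v := tau (width r) y z)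
    have f1 := tf_four hq hr m1 (x := y) (y := z) (z := x) (by omega)
    have f2 := tf_four hq hr m2 (x := x) (y := y) (z := z) (by omega)
    rw [tf_symm3 hq hr m1 m2 (a := x) (b := y) (by omega)] at f1
    rw [tf_symm3 hq hr m2 m1 (a := z) (b := x) (by omega)] at f2
    have a2 := tf_anti hq hr m2 m3 m1
    change tf π q r _ _ _ + tf π q r _ _ _ + tf π q r _ _ _ = 0
    rw [z1] at j1
    rw [z2] at j2
    have e1 := eq_neg_of_add_eq_zero_left f1
    have e2 := eq_neg_of_add_eq_zero_left f2
    have e3 : tf π q r (tau (width r) z x) (tau (width r) x y) (tau (width r) y z) =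
        - (tf π q r (tau (width r) x y) (tau (width r) y z) (tau (width r) z x)) -
          tf π q r (tau (width r) y z) (tau (width r) z x) (tau (width r) x y) := by
      have := eq_neg_of_add_eq_zero_left (show tf π q r (tau (width r) z x) (tau (width r) x y) (tau (width r) y z) +
        (tf π q r (tau (width r) x y) (tau (width r) y z) (tau (width r) z x) +
          tf π q r (tau (width r) y z) (tau (width r) z x) (tau (width r) x y)) = 0 by rw [← j3]; abel)
      rw [this]
      abel
    have e4 : tf π q r (tau (width r) x y) (tau (width r) x y) (tau (width r) y z) =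
        - tf π q r (tau (width r) x y) (tau (width r) y z) (tau (width r) x y) := by
      rw [add_zero] at j1
      exact eq_neg_of_add_eq_zero_left j1
    have e5 : tf π q r (tau (width r) y z) (tau (width r) x y) (tau (width r) y z) =
        - tf π q r (tau (width r) y z) (tau (width r) y z) (tau (width r) x y) := by
      rw [add_zero] at j2
      exact eq_neg_of_add_eq_zero_left j2
    have a3 := tf_anti hq hr m2 m1 m2
    rw [e4, e3, e1]
    rw [a2] at e2
    have e6 : tf π q r (tau (width r) y z) (tau (width r) z x) (tau (width r) x y) =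
        tf π q r (tau (width r) y z) (tau (width r) x y) (tau (width r) y z) := by
      have := congrArg Neg.neg e2
      rwa [neg_neg, neg_neg] at this
    rw [e6]
    abel
  asym := by
    intro x y z w h hw h1 h2 h3
    have m1 := tau_mem (N := width r) (x := x) (y := y) (by omega)
    have m2 := tau_mem (N := width r) (x := y) (y := z) (by omega)
    have m3 := tau_mem (N := width r) (x := y) (y := w) (by omega)
    have m4 := tau_mem (N := width r) (x := z) (y := w) (by omega)
    have j1 := tf_jac hq hr m4 m1 m2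
    have j2 := tf_jac hq hr m4 m1 m3
    have d1 := tf_disj hq hr m2 (x := z) (y := w) (z := x) (w := y) (by omega) (by omega) (by omega) (by omega)
      (by omega)
    have d2 := tf_disj hq hr m3 (x := z) (y := w) (z := x) (w := y) (by omega) (by omega) (by omega) (by omega)
      (by omega)
    have f1 := tf_four hq hr m1 (x := z) (y := w) (z := y) (by omega)
    rw [tf_symm3 hq hr m1 m4 (a := y) (b := z) (by omega), tf_symm3 hq hr m1 m4 (a := y) (b := w) (by omega),
      tf_anti hq hr m1 m2 m4, tf_anti hq hr m1 m3 m4] at f1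
    rw [d1, add_zero] at j1
    rw [d2, add_zero] at j2
    change tf π q r _ _ _ + tf π q r _ _ _ = 0
    rw [eq_neg_of_add_eq_zero_left j1, eq_neg_of_add_eq_zero_left j2]
    exact f1
  arev := by
    intro x y z w h hw h1 h2 h3
    have m1 := tau_mem (N := width r) (x := x) (y := y) (by omega)
    have m2 := tau_mem (N := width r) (x := y) (y := z) (by omega)
    have m4 := tau_mem (N := width r) (x := z) (y := w) (by omega)
    have m5 := tau_mem (N := width r) (x := w) (y := x) (by omega)
    have j1 := tf_jac hq hr m4 m1 m2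
    have d1 := tf_disj hq hr m2 (x := z) (y := w) (z := x) (w := y) (by omega) (by omega) (by omega) (by omega)
      (by omega)
    rw [d1, add_zero] at j1
    have j2 := tf_jac hq hr m1 m4 m5
    have j3 := tf_jac hq hr m1 m4 (tau_mem (N := width r) (x := w) (y := y) (by omega))
    have f1 := tf_four hq hr m1 (x := z) (y := w) (z := y) (by omega)
    have f2 := tf_four hq hr m4 (x := x) (y := y) (z := w) (by omega)
    have d2 := tf_disj hq hr (tau_mem (N := width r) (x := w) (y := x) (by omega)) (x := x) (y := y) (z := z) (w := w)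
      (by omega) (by omega) (by omega) (by omega) (by omega)
    have d3 := tf_disj hq hr (tau_mem (N := width r) (x := w) (y := y) (by omega)) (x := x) (y := y) (z := z) (w := w)
      (by omega) (by omega) (by omega) (by omega) (by omega)
    have n1 := tau_mem (N := width r) (x := w) (y := x) (by omega)
    have n2 := tau_mem (N := width r) (x := w) (y := y) (by omega)
    rw [d2, add_zero, tf_anti hq hr m4 m1 n1] at j2
    rw [d3, add_zero, tf_anti hq hr m4 m1 n2] at j3
    rw [tf_symm3 hq hr m4 m1 (a := w) (b := x) (by omega), tf_symm3 hq hr m4 m1 (a := w) (b := y) (by omega)] at f2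
    rw [tf_symm3 hq hr m1 m4 (a := y) (b := z) (by omega), tf_anti hq hr m1 m2 m4] at f1
    change tf π q r _ _ _ = tf π q r _ _ _
    have e1 := eq_neg_of_add_eq_zero_left j1
    have e2 := eq_neg_of_add_eq_zero_left j2
    have e3 := eq_neg_of_add_eq_zero_left j3
    have e4 := eq_neg_of_add_eq_zero_left f2
    have e5 := eq_neg_of_add_eq_zero_left f1
    rw [neg_neg] at e2 e3
    rw [e2, e4, e1, e5, e3]
  fl1 := by
    intro p a b y z hp h h1 h2 hab h3 h4 h5 h6
    have hpw := (adjB_turn r p hp).1
    obtain ⟨s, s1, s2, s3⟩ := exists_pass (N := width r) (p := p) (y := a) (z := b) (by omega) (by omega) (by omega)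
      (by omega) (by omega)
    obtain ⟨t, t1, t2, t3⟩ := exists_pass (N := width r) (p := p) (y := y) (z := z) (by omega) (by omega) (by omega)
      (by omega) (by omega)
    obtain ⟨k, k1, k2, k3⟩ := exists_kappa (N := width r) (p := p) (y := y) (by omega)
    have h0 := tf_Kp hq hp s2 (Kp_Sp k2) t2 (Or.inr (Or.inl k2))
    have e := tf_congr hq hr s1 s3 k1 k3 t1 t3
    rw [h0, tf_add2 hq hr (tau_mem hab) (tau_mem (by omega)) (tau_mem (by omega)) (tau_mem (by omega))] at e
    exact e.symm
  fl2 := by
    intro p b x y z hp h hb h1 h2 h3 h4 h5 h6 h7 h8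
    have hpw := (adjB_turn r p hp).1
    obtain ⟨s, s1, s2, s3⟩ := exists_pass (N := width r) (p := p) (y := x) (z := y) (by omega) (by omega) (by omega)
      (by omega) (by omega)
    obtain ⟨t, t1, t2, t3⟩ := exists_pass (N := width r) (p := p) (y := y) (z := z) (by omega) (by omega) (by omega)
      (by omega) (by omega)
    obtain ⟨k, k1, k2, k3⟩ := exists_kappa (N := width r) (p := p) (y := b) (by omega)
    have h0 := tf_Kp hq hp (Kp_Sp k2) s2 t2 (Or.inl k2)
    have e := tf_congr hq hr k1 k3 s1 s3 t1 t3
    rw [h0, tf_add1 hq hr (tau_mem (by omega)) (tau_mem (by omega)) (tau_mem (by omega)) (tau_mem (by omega))] at e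
    exact e.symm
  fl3 := by
    intro p b y z hp h h1 h2 hb h3 h4
    have hpw := (adjB_turn r p hp).1
    obtain ⟨t, t1, t2, t3⟩ := exists_pass (N := width r) (p := p) (y := y) (z := z) (by omega) (by omega) (by omega)
      (by omega) (by omega)
    obtain ⟨k, k1, k2, k3⟩ := exists_kappa (N := width r) (p := p) (y := y) (by omega)
    obtain ⟨l, l1, l2, l3⟩ := exists_kappa (N := width r) (p := p) (y := b) (by omega)
    have h0 := tf_Kp hq hp (Kp_Sp l2) (Kp_Sp k2) t2 (Or.inl l2)
    have e := tf_congr hq hr l1 l3 k1 k3 t1 t3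
    have m1 := tau_mem (N := width r) (x := p) (y := b) (by omega)
    have m2 := tau_mem (N := width r) (x := p + 1) (y := b) (by omega)
    have m3 := tau_mem (N := width r) (x := p) (y := y) (by omega)
    have m4 := tau_mem (N := width r) (x := p + 1) (y := y) (by omega)
    have m5 := tau_mem (N := width r) (x := y) (y := z) (by omega)
    rw [h0, tf_add1 hq hr m1 m2 (mul_mem m3 m4) m5, tf_add2 hq hr m1 m3 m4 m5, tf_add2 hq hr m2 m3 m4 m5] at e
    change tf π q r _ _ _ + tf π q r _ _ _ + tf π q r _ _ _ + tf π q r _ _ _ = 0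
    rw [e]
    abel
  tt3 := by
    intro x y z hx hy h h1 h2 h3 h4
    obtain ⟨hx1, A1, hA1⟩ := hx
    obtain ⟨hy1, A2, hA2⟩ := hy
    obtain ⟨k, k1, k2, k3⟩ := exists_kappa (N := width r) (p := x) (y := y) (by omega)
    obtain ⟨l, l1, l2, l3⟩ := exists_kappa (N := width r) (p := y) (y := x) (by omega)
    obtain ⟨t, t1, t2, t3⟩ := exists_kappa (N := width r) (p := x) (y := z) (by omega)
    have h0 := tf_top (π := π) hq (stT_le hA1 t2.1) (stT_le hA1 k2.1) (stT_le hA2 l2.1)
    have e := tf_congr hq hr t1 t3 k1 k3 l1 l3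
    have m1 := tau_mem (N := width r) (x := x) (y := z) (by omega)
    have m2 := tau_mem (N := width r) (x := x + 1) (y := z) (by omega)
    have m3 := tau_mem (N := width r) (x := x) (y := y) (by omega)
    have m4 := tau_mem (N := width r) (x := x + 1) (y := y) (by omega)
    have m5 := tau_mem (N := width r) (x := y) (y := x) (by omega)
    have m6 := tau_mem (N := width r) (x := y + 1) (y := x) (by omega)
    rw [h0, tf_add1 hq hr m1 m2 (mul_mem m3 m4) (mul_mem m5 m6), tf_add2 hq hr m1 m3 m4 (mul_mem m5 m6),
      tf_add2 hq hr m2 m3 m4 (mul_mem m5 m6), tf_add3 hq hr m1 m3 m5 m6, tf_add3 hq hr m1 m4 m5 m6,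
      tf_add3 hq hr m2 m3 m5 m6, tf_add3 hq hr m2 m4 m5 m6,
      tf_symm3 hq hr m1 m3 (a := x) (b := y) (by omega), tf_symm3 hq hr m2 m3 (a := x) (b := y) (by omega),
      tf_self hq hr m1, tf_self hq hr m2,
      tf_disj hq hr m1 (x := x + 1) (y := y) (z := y + 1) (w := x) (by omega) (by omega) (by omega) (by omega)
        (by omega),
      tf_disj hq hr m2 (x := x + 1) (y := y) (z := y + 1) (w := x) (by omega) (by omega) (by omega) (by omega)
        (by omega)] at e
    -- [t_xy, t_y'x] with the chord x'z
    have d1 : tf π q r (tau (width r) (x + 1) z) (tau (width r) x y) (tau (width r) (y + 1) x) = 0 := by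
      have n1 := tau_mem (N := width r) (x := x + 1) (y := z) (by omega)
      have j := tf_jac hq hr n1 m3 m6
      rw [tf_disj hq hr m3 (x := y + 1) (y := x) (z := x + 1) (w := z) (by omega) (by omega) (by omega) (by omega)
        (by omega), tf_disj hq hr m6 (x := x + 1) (y := z) (z := x) (w := y) (by omega) (by omega) (by omega)
        (by omega) (by omega), add_zero, add_zero] at j
      exact j
    rw [d1] at e
    -- Y(y, x, y')
    have c1 : tf π q r (tau (width r) x z) (tau (width r) y x) (tau (width r) x (y + 1)) =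
        tf π q r (tau (width r) x z) (tau (width r) x y) (tau (width r) (y + 1) x) := by
      rw [tf_symm2 hq hr m1 (tau_mem (by omega)) (a := x) (b := y) (by omega),
        tf_symm3 hq hr m1 m3 (a := y + 1) (b := x) (by omega)]
    have c2 : tf π q r (tau (width r) x z) (tau (width r) (x + 1) y) (tau (width r) x y) =
        tf π q r (tau (width r) x z) (tau (width r) (x + 1) y) (tau (width r) y x) :=
      tf_symm3 hq hr m1 m4 (a := y) (b := x) (by omega)
    have c3 : tf π q r (tau (width r) (x + 1) z) (tau (width r) (x + 1) y) (tau (width r) y x) =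
        tf π q r (tau (width r) (x + 1) z) (tau (width r) (x + 1) y) (tau (width r) y x) := rfl
    change tf π q r _ _ _ + tf π q r _ _ _ + tf π q r _ _ _ = 0
    rw [c1, e]
    abel
  tt4 := by
    intro x y z hx hy h h1 h2 h3 h4
    obtain ⟨hx1, A1, hA1⟩ := hx
    obtain ⟨hy1, A2, hA2⟩ := hy
    obtain ⟨k, k1, k2, k3⟩ := exists_kappa (N := width r) (p := x) (y := y) (by omega)
    obtain ⟨l, l1, l2, l3⟩ := exists_kappa (N := width r) (p := y) (y := x) (by omega)
    obtain ⟨t, t1, t2, t3⟩ := exists_kappa (N := width r) (p := x) (y := z) (by omega)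
    have h0 := tf_top (π := π) hq (stT_le hA2 l2.1) (stT_le hA1 k2.1) (stT_le hA1 t2.1)
    have e := tf_congr hq hr l1 l3 k1 k3 t1 t3
    have m1 := tau_mem (N := width r) (x := y) (y := x) (by omega)
    have m2 := tau_mem (N := width r) (x := y + 1) (y := x) (by omega)
    have m3 := tau_mem (N := width r) (x := x) (y := y) (by omega)
    have m4 := tau_mem (N := width r) (x := x + 1) (y := y) (by omega)
    have m5 := tau_mem (N := width r) (x := x) (y := z) (by omega)
    have m6 := tau_mem (N := width r) (x := x + 1) (y := z) (by omega)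
    rw [h0, tf_add1 hq hr m1 m2 (mul_mem m3 m4) (mul_mem m5 m6), tf_add2 hq hr m1 m3 m4 (mul_mem m5 m6),
      tf_add2 hq hr m2 m3 m4 (mul_mem m5 m6), tf_add3 hq hr m1 m3 m5 m6, tf_add3 hq hr m1 m4 m5 m6,
      tf_add3 hq hr m2 m3 m5 m6, tf_add3 hq hr m2 m4 m5 m6,
      tf_disj hq hr m1 (x := x) (y := y) (z := x + 1) (w := z) (by omega) (by omega) (by omega) (by omega) (by omega),
      tf_disj hq hr m2 (x := x) (y := y) (z := x + 1) (w := z) (by omega) (by omega) (by omega) (by omega) (by omega),
      tf_disj hq hr m1 (x := x + 1) (y := y) (z := x) (w := z) (by omega) (by omega) (by omega) (by omega) (by omega),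
      tf_disj hq hr m2 (x := x + 1) (y := y) (z := x) (w := z) (by omega) (by omega) (by omega) (by omega)
        (by omega)] at e
    have d1 : tf π q r (tau (width r) (y + 1) x) (tau (width r) (x + 1) y) (tau (width r) (x + 1) z) = 0 := by
      have j := tf_jac hq hr m2 m4 m6
      rw [tf_disj hq hr m4 (x := x + 1) (y := z) (z := y + 1) (w := x) (by omega) (by omega) (by omega) (by omega)
        (by omega), tf_disj hq hr m6 (x := y + 1) (y := x) (z := x + 1) (w := y) (by omega) (by omega) (by omega)
        (by omega) (by omega), add_zero, add_zero] at j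
      exact j
    rw [d1] at e
    have c1 : tf π q r (tau (width r) x y) (tau (width r) y x) (tau (width r) x z) =
        tf π q r (tau (width r) y x) (tau (width r) x y) (tau (width r) x z) := by
      rw [tf_symm1 hq hr m1 m5 (a := y) (b := x) (by omega), tf_symm2 hq hr m1 m5 (a := x) (b := y) (by omega)]
    have c2 : tf π q r (tau (width r) x y) (tau (width r) y (x + 1)) (tau (width r) (x + 1) z) =
        tf π q r (tau (width r) y x) (tau (width r) (x + 1) y) (tau (width r) (x + 1) z) := by
      rw [tf_symm1 hq hr (tau_mem (by omega)) m6 (a := y) (b := x) (by omega),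
        tf_symm2 hq hr m1 m6 (a := x + 1) (b := y) (by omega)]
    have c3 : tf π q r (tau (width r) x (y + 1)) (tau (width r) y x) (tau (width r) x z) =
        tf π q r (tau (width r) (y + 1) x) (tau (width r) x y) (tau (width r) x z) := by
      rw [tf_symm1 hq hr m1 m5 (a := y + 1) (b := x) (by omega), tf_symm2 hq hr m2 m5 (a := x) (b := y) (by omega)]
    change tf π q r _ _ _ + tf π q r _ _ _ + tf π q r _ _ _ = 0
    rw [c1, c2, c3, e]
    abel

end

end SLC
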