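import Pool.Agent.SLC.Tri2

/-!
String links, degree 3: all triple commutators vanish if the generators vanish.
-/

set_option autoImplicit false

namespace SLC

theorem slide_iff {r : List ℕ} {P : ℕ → Prop} {L : ℕ} : ∀ x, L ≤ x → x < width r →
    (∀ p, L ≤ p → p < x → adjB r p → (P p ↔ P (p + 1))) → (P (max L (W r (bl r x))) ↔ P x) := by
  intro x
  induction x with
  | zero =>
    intro h1 _ _
    have := W_bl_le r 0
    have e : max L (W r (bl r 0)) = 0 := by omega
    rw [e]
  | succ x ih =>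
    intro h1 h2 hf
    rcases Nat.lt_or_ge x (max L (W r (bl r (x + 1)))) with h3 | h3
    · have := W_bl_le r (x + 1)
      have e : max L (W r (bl r (x + 1))) = x + 1 := by omega
      rw [e]
    · obtain ⟨h4, h5⟩ := adjB_W r x h2 (by omega)
      rw [← hf x (by omega) (by omega) h4, ← h5]
      exact ih (by omega) (by omega) (fun p hp1 hp2 => hf p hp1 (by omega))

abbrev So4 (N a b c d : ℕ) : Prop := a < b ∧ b < c ∧ c < d ∧ d < N
abbrev So3 (N a b c : ℕ) : Prop := a < b ∧ b < c ∧ c < N

/-- P does not change when a strand moves to a free neighbour in its block -/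
structure Flip4 (r : List ℕ) (P : ℕ → ℕ → ℕ → ℕ → Prop) : Prop where
  f0 : ∀ p b c d, adjB r p → So4 (width r) (p + 1) b c d → (P p b c d ↔ P (p + 1) b c d)
  f1 : ∀ a p c d, adjB r p → a < p → So4 (width r) a (p + 1) c d → (P a p c d ↔ P a (p + 1) c d)
  f2 : ∀ a b p d, adjB r p → b < p → So4 (width r) a b (p + 1) d → (P a b p d ↔ P a b (p + 1) d)
  f3 : ∀ a b c p, adjB r p → c < p → So4 (width r) a b c (p + 1) → (P a b c p ↔ P a b c (p + 1))

structure Flip3 (r : List ℕ) (P : ℕ → ℕ → ℕ → Prop) : Prop where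
  f0 : ∀ p b c, adjB r p → So3 (width r) (p + 1) b c → (P p b c ↔ P (p + 1) b c)
  f1 : ∀ a p c, adjB r p → a < p → So3 (width r) a (p + 1) c → (P a p c ↔ P a (p + 1) c)
  f2 : ∀ a b p, adjB r p → b < p → So3 (width r) a b (p + 1) → (P a b p ↔ P a b (p + 1))

theorem Flip4.canon {r : List ℕ} {P : ℕ → ℕ → ℕ → ℕ → Prop} (hP : Flip4 r P) {a b c d : ℕ}
    (h : So4 (width r) a b c d) : (P (max 0 (W r (bl r a))) (max (max 0 (W r (bl r a)) + 1) (W r (bl r b)))
      (max (max (max 0 (W r (bl r a)) + 1) (W r (bl r b)) + 1) (W r (bl r c)))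
      (max (max (max (max 0 (W r (bl r a)) + 1) (W r (bl r b)) + 1) (W r (bl r c)) + 1) (W r (bl r d)))) ↔
        P a b c d := by
  have b1 := W_bl_le r a
  have b2 := W_bl_le r b
  have b3 := W_bl_le r c
  have b4 := W_bl_le r d
  rw [← slide_iff (r := r) (P := fun a => P a b c d) (L := 0) a (Nat.zero_le _) (by omega)
    (fun p _ hp hadj => hP.f0 p b c d hadj (by omega))]
  obtain ⟨a', ha'⟩ : ∃ a', a' = max 0 (W r (bl r a)) := ⟨_, rfl⟩
  rw [← ha']
  have h1 : a' ≤ a := by omega
  rw [← slide_iff (r := r) (P := fun b => P a' b c d) (L := a' + 1) b (by omega) (by omega)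
    (fun p hp1 hp hadj => hP.f1 a' p c d hadj (by omega) (by omega))]
  obtain ⟨b', hb'⟩ : ∃ b', b' = max (a' + 1) (W r (bl r b)) := ⟨_, rfl⟩
  rw [← hb']
  have h2 : b' ≤ b := by omega
  rw [← slide_iff (r := r) (P := fun c => P a' b' c d) (L := b' + 1) c (by omega) (by omega)
    (fun p hp1 hp hadj => hP.f2 a' b' p d hadj (by omega) (by omega))]
  obtain ⟨c', hc'⟩ : ∃ c', c' = max (b' + 1) (W r (bl r c)) := ⟨_, rfl⟩
  rw [← hc']
  have h3 : c' ≤ c := by omega
  rw [← slide_iff (r := r) (P := fun d => P a' b' c' d) (L := c' + 1) d (by omega) (by omega)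
    (fun p hp1 hp hadj => hP.f3 a' b' c' p hadj (by omega) (by omega))]

theorem Flip4.iff {r : List ℕ} {P : ℕ → ℕ → ℕ → ℕ → Prop} (hP : Flip4 r P) {a b c d a' b' c' d' : ℕ}
    (h : So4 (width r) a b c d) (h' : So4 (width r) a' b' c' d') (ea : bl r a = bl r a') (eb : bl r b = bl r b')
    (ec : bl r c = bl r c') (ed : bl r d = bl r d') : P a b c d ↔ P a' b' c' d' := by
  rw [← hP.canon h, ← hP.canon h', ea, eb, ec, ed]

theorem Flip3.canon {r : List ℕ} {P : ℕ → ℕ → ℕ → Prop} (hP : Flip3 r P) {a b c : ℕ}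
    (h : So3 (width r) a b c) : (P (max 0 (W r (bl r a))) (max (max 0 (W r (bl r a)) + 1) (W r (bl r b)))
      (max (max (max 0 (W r (bl r a)) + 1) (W r (bl r b)) + 1) (W r (bl r c)))) ↔ P a b c := by
  have b1 := W_bl_le r a
  have b2 := W_bl_le r b
  have b3 := W_bl_le r c
  rw [← slide_iff (r := r) (P := fun a => P a b c) (L := 0) a (Nat.zero_le _) (by omega)
    (fun p _ hp hadj => hP.f0 p b c hadj (by omega))]
  obtain ⟨a', ha'⟩ : ∃ a', a' = max 0 (W r (bl r a)) := ⟨_, rfl⟩
  rw [← ha']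
  have h1 : a' ≤ a := by omega
  rw [← slide_iff (r := r) (P := fun b => P a' b c) (L := a' + 1) b (by omega) (by omega)
    (fun p hp1 hp hadj => hP.f1 a' p c hadj (by omega) (by omega))]
  obtain ⟨b', hb'⟩ : ∃ b', b' = max (a' + 1) (W r (bl r b)) := ⟨_, rfl⟩
  rw [← hb']
  have h2 : b' ≤ b := by omega
  rw [← slide_iff (r := r) (P := fun c => P a' b' c) (L := b' + 1) c (by omega) (by omega)
    (fun p hp1 hp hadj => hP.f2 a' b' p hadj (by omega) (by omega))]

theorem Flip3.iff {r : List ℕ} {P : ℕ → ℕ → ℕ → Prop} (hP : Flip3 r P) {a b c a' b' c' : ℕ}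
    (h : So3 (width r) a b c) (h' : So3 (width r) a' b' c') (ea : bl r a = bl r a') (eb : bl r b = bl r b')
    (ec : bl r c = bl r c') : P a b c ↔ P a' b' c' := by
  rw [← hP.canon h, ← hP.canon h', ea, eb, ec]

/-- positions in the block i -/
theorem bl_W (r : List ℕ) (h3 : ∀ a ∈ r, 3 ≤ a) : ∀ i, i < r.length → ∀ e, e ≤ 6 → bl r (W r i + e) = i := by
  induction r with
  | nil => intro i hi; exact absurd hi (Nat.not_lt_zero _)
  | cons a r ih =>
    intro i hi e he
    have ha := h3 a List.mem_cons_self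
    rcases i with _ | i
    · rw [W_zero, bl, if_pos (by omega)]
    · rw [W_succ, bl, if_neg (by omega)]
      have e1 : 2 * a + 1 + W r i + e - (2 * a + 1) = W r i + e := by omega
      rw [e1, ih (fun b hb => h3 b (List.mem_cons_of_mem _ hb)) i (by simpa using hi) e he]

theorem W_gap3 (r : List ℕ) (h3 : ∀ a ∈ r, 3 ≤ a) : ∀ i j, i < j → j ≤ r.length → W r i + 7 ≤ W r j := by
  induction r with
  | nil =>
    intro i j h1 h2
    rw [List.length_nil] at h2
    omega
  | cons a r ih =>
    intro i j hij hj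
    have ha := h3 a List.mem_cons_self
    obtain ⟨j, rfl⟩ : ∃ j', j = j' + 1 := ⟨j - 1, by omega⟩
    rw [List.length_cons] at hj
    rcases i with _ | i
    · rw [W_zero, W_succ]
      omega
    · rw [W_succ, W_succ]
      have := ih (fun b hb => h3 b (List.mem_cons_of_mem _ hb)) i j (by omega) (by omega)
      omega

theorem W_lt3 (r : List ℕ) (h3 : ∀ a ∈ r, 3 ≤ a) : ∀ i, i < r.length → W r i + 6 < width r := by
  intro i hi
  have h := W_gap3 r h3 i r.length hi le_rfl
  rw [W, W, List.take_length] at h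
  rw [W]
  omega

theorem capAt_W (r : List ℕ) (h3 : ∀ a ∈ r, 3 ≤ a) {i e : ℕ} (hi : i < r.length) (he : e ≤ 2) :
    CapAt r (W r i + 2 * e) := by
  have key : ∀ (r : List ℕ), (∀ a ∈ r, 3 ≤ a) → ∀ i, i < r.length → ∀ o, ∃ A, caps o r = A * C (o + (W r i + 2 * e)) := by
    intro r
    induction r with
    | nil => intro _ i hi; exact absurd hi (Nat.not_lt_zero _)
    | cons a r ih =>
      intro h3 i hi o
      rcases i with _ | i
      · rw [W_zero, Nat.zero_add]
        exact caps_C (e := e) r (by have := h3 a List.mem_cons_self; omega)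
      · obtain ⟨A, hA⟩ := ih (fun b hb => h3 b (List.mem_cons_of_mem _ hb)) i (by simpa using hi) (o + (2 * a + 1))
        refine ⟨capRow o a * A, ?_⟩
        rw [caps, hA, W_succ, mul_assoc]
        congr 3
        omega
  refine ⟨by have := W_lt3 r h3 i hi; omega, ?_⟩
  obtain ⟨A, hA⟩ := key r h3 i hi 0
  rw [Nat.zero_add] at hA
  exact ⟨A, hA⟩

section

variable {r : List ℕ} {A : Type} [AddCommGroup A] {Y : ℕ → ℕ → ℕ → ℕ → ℕ → A}

abbrev D4 (N x y z w : ℕ) : Prop := D3 N x y z ∧ w < N ∧ w ≠ x ∧ w ≠ y ∧ w ≠ z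

/-- the tree with the leaves x, y | z, w vanishes -/
def Az (Y : ℕ → ℕ → ℕ → ℕ → ℕ → A) (x y z w : ℕ) : Prop := Y z w x y z = 0

variable (hY : TriY r Y)

include hY

theorem TriY.cyc {a b x y z : ℕ} (h : D2 (width r) a b) (h' : D3 (width r) x y z) : Y a b y z x = Y a b x y z := by
  rw [hY.swap1 (x := y) (y := x) (z := z) h (by omega), hY.swap0 (x := x) (y := y) (z := z) h h', neg_neg]

theorem Az.xy {x y z w : ℕ} (h : D4 (width r) x y z w) : Az Y x y z w ↔ Az Y y x z w := by
  rw [Az, Az, hY.swap0 (a := z) (b := w) (x := x) (y := y) (z := z) (by omega) (by omega), neg_eq_zero]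

theorem Az.zw {x y z w : ℕ} (h : D4 (width r) x y z w) : Az Y x y z w ↔ Az Y x y w z := by
  obtain ⟨h1, h2, h3, h4, h5⟩ := h
  have e := hY.asym h1 h2 h3 h4 h5
  rw [Az, Az, hY.symm (a := z) (b := w) (x := x) (y := y) (z := w) (by omega) (by omega), eq_neg_of_add_eq_zero_left e,
    neg_eq_zero]

theorem Az.rev {x y z w : ℕ} (h : D4 (width r) x y z w) : Az Y x y z w ↔ Az Y z w x y := by
  obtain ⟨h1, h2, h3, h4, h5⟩ := h
  rw [Az, Az, hY.arev h1 h2 h3 h4 h5]

/-- IHX -/
theorem TriY.ihx' {x y z w : ℕ} (h : D4 (width r) x y z w) : Y z w x y z + Y x w y z x + Y y w z x y = 0 := by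
  obtain ⟨h1, h2, h3, h4, h5⟩ := h
  have e := hY.ihx h1 h2 h3 h4 h5
  have c1 := hY.cyc (a := x) (b := w) (x := x) (y := y) (z := z) (by omega) h1
  have c2 := hY.cyc (a := y) (b := w) (x := z) (y := x) (z := y) (by omega) (by omega)
  rw [c1, ← c2, ← e]
  abel

/-- two of the three pairings vanish: so does the third -/
theorem Az.third {x y z w : ℕ} (h : D4 (width r) x y z w) (h1 : Az Y x y z w) (h2 : Az Y x z y w) : Az Y x w y z := by
  have e := hY.ihx' h
  have h3 : Az Y z x y w := (Az.xy hY (by omega)).1 h2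
  rw [Az] at h1 h3
  rw [h1, h3, add_zero, zero_add] at e
  have h4 : Az Y y z x w := e
  exact (Az.rev hY (by omega)).1 h4

theorem Az.third' {x y z w : ℕ} (h : D4 (width r) x y z w) (h1 : Az Y x y z w) (h2 : Az Y x w y z) : Az Y x z y w := by
  have e := hY.ihx' h
  have h3 : Az Y y z x w := (Az.rev hY (by omega)).1 h2
  rw [Az] at h1 h3
  rw [h1, h3, add_zero, zero_add] at e
  have h4 : Az Y z x y w := e
  exact (Az.xy hY (by omega)).1 h4

theorem Az.third'' {x y z w : ℕ} (h : D4 (width r) x y z w) (h1 : Az Y x z y w) (h2 : Az Y x w y z) : Az Y x y z w := by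
  have e := hY.ihx' h
  have h3 : Az Y z x y w := (Az.xy hY (by omega)).1 h1
  have h4 : Az Y y z x w := (Az.rev hY (by omega)).1 h2
  rw [Az] at h3 h4
  rw [h3, h4, add_zero, add_zero] at e
  exact e

theorem Az.flip {p y z w : ℕ} (hp : adjB r p) (h : D4 (width r) p y z w) (h1 : y ≠ p + 1) (h2 : z ≠ p + 1)
    (h3 : w ≠ p + 1) : Az Y p y z w ↔ Az Y (p + 1) y z w := by
  have e := hY.fl1 (a := z) (b := w) hp (y := y) (z := z) (by omega) (by omega) (by omega) (by omega) (by omega)
    (by omega) (by omega) (by omega)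
  rw [Az, Az, eq_neg_of_add_eq_zero_left e, neg_eq_zero]

theorem flip_P1 : Flip4 r (fun a b c d => Az Y a b c d) where
  f0 p b c d hp h := by
    have := (adjB_turn r p hp).1
    exact Az.flip hY hp (by omega) (by omega) (by omega) (by omega)
  f1 a p c d hp h1 h := by
    have := (adjB_turn r p hp).1
    rw [Az.xy hY (x := a) (y := p) (by omega), Az.xy hY (x := a) (y := p + 1) (by omega)]
    exact Az.flip hY hp (by omega) (by omega) (by omega) (by omega)
  f2 a b p d hp h1 h := by
    have := (adjB_turn r p hp).1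
    rw [Az.rev hY (z := p) (by omega), Az.rev hY (z := p + 1) (by omega)]
    exact Az.flip hY hp (by omega) (by omega) (by omega) (by omega)
  f3 a b c p hp h1 h := by
    have := (adjB_turn r p hp).1
    rw [Az.rev hY (w := p) (by omega), Az.rev hY (w := p + 1) (by omega), Az.xy hY (y := p) (by omega),
      Az.xy hY (y := p + 1) (by omega)]
    exact Az.flip hY hp (by omega) (by omega) (by omega) (by omega)

theorem flip_P2 : Flip4 r (fun a b c d => Az Y a c b d) where
  f0 p b c d hp h := by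
    have := (adjB_turn r p hp).1
    exact Az.flip hY hp (by omega) (by omega) (by omega) (by omega)
  f2 a b p d hp h1 h := by
    have := (adjB_turn r p hp).1
    rw [Az.xy hY (x := a) (y := p) (by omega), Az.xy hY (x := a) (y := p + 1) (by omega)]
    exact Az.flip hY hp (by omega) (by omega) (by omega) (by omega)
  f1 a p c d hp h1 h := by
    have := (adjB_turn r p hp).1
    rw [Az.rev hY (z := p) (by omega), Az.rev hY (z := p + 1) (by omega)]
    exact Az.flip hY hp (by omega) (by omega) (by omega) (by omega)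
  f3 a b c p hp h1 h := by
    have := (adjB_turn r p hp).1
    rw [Az.rev hY (w := p) (by omega), Az.rev hY (w := p + 1) (by omega), Az.xy hY (y := p) (by omega),
      Az.xy hY (y := p + 1) (by omega)]
    exact Az.flip hY hp (by omega) (by omega) (by omega) (by omega)

theorem flip_P3 : Flip4 r (fun a b c d => Az Y a d b c) where
  f0 p b c d hp h := by
    have := (adjB_turn r p hp).1
    exact Az.flip hY hp (by omega) (by omega) (by omega) (by omega)
  f3 a b c p hp h1 h := by
    have := (adjB_turn r p hp).1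
    rw [Az.xy hY (x := a) (y := p) (by omega), Az.xy hY (x := a) (y := p + 1) (by omega)]
    exact Az.flip hY hp (by omega) (by omega) (by omega) (by omega)
  f1 a p c d hp h1 h := by
    have := (adjB_turn r p hp).1
    rw [Az.rev hY (z := p) (by omega), Az.rev hY (z := p + 1) (by omega)]
    exact Az.flip hY hp (by omega) (by omega) (by omega) (by omega)
  f2 a b p d hp h1 h := by
    have := (adjB_turn r p hp).1
    rw [Az.rev hY (w := p) (by omega), Az.rev hY (w := p + 1) (by omega), Az.xy hY (y := p) (by omega),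
      Az.xy hY (y := p + 1) (by omega)]
    exact Az.flip hY hp (by omega) (by omega) (by omega) (by omega)

/-- the relation of two turns -/
theorem Az.turn {x y z : ℕ} (hx : CapAt r x) (hy : CapAt r y) (h : D3 (width r) x y z) (h1 : x + 1 ≠ y)
    (h2 : y + 1 ≠ x) (h3 : z ≠ x + 1) (h4 : z ≠ y + 1) : Az Y x (x + 1) y z ↔ Az Y y (y + 1) x z := by
  have hx1 := hx.1
  have hy1 := hy.1
  have e := hY.tt3 hx hy h h1 h2 h3 h4
  have i := hY.ihx' (x := x + 1) (y := y) (z := x) (w := z) (by omega)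
  -- Y x z (x+1) y x + Y (x+1) z y x (x+1) + Y y z x (x+1) y = 0
  have c1 := hY.cyc (a := x + 1) (b := z) (x := x + 1) (y := y) (z := x) (by omega) (by omega)
  have c2 := hY.swap1 (a := x) (b := z) (x := y) (y := y + 1) (z := x) (by omega) (by omega)
  rw [c1] at i
  rw [c2] at e
  have e1 : Y x z y (y + 1) x = - Y y z x (x + 1) y := by
    have h5 : Y x z (x + 1) y x + Y (x + 1) z (x + 1) y x = Y x z y (y + 1) x := by
      have : - Y x z y (y + 1) x + (Y x z (x + 1) y x + Y (x + 1) z (x + 1) y x) = 0 := by rw [← e]; abel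
      exact (neg_add_eq_zero.1 this).symm
    have h6 : (Y x z (x + 1) y x + Y (x + 1) z (x + 1) y x) + Y y z x (x + 1) y = 0 := i
    rw [h5] at h6
    exact eq_neg_of_add_eq_zero_left h6
  rw [Az, Az, e1, neg_eq_zero]

end

end SLC
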