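import Pool.Agent.SLC.Tri3

/-!
String links, degree 3: all triple commutators vanish if the generators vanish (conclusion).
-/

set_option autoImplicit false

namespace SLC

section

variable {r : List ℕ} {A : Type} [AddCommGroup A] {Y : ℕ → ℕ → ℕ → ℕ → ℕ → A}

/-- the generators vanish -/
structure Can (r : List ℕ) (Y : ℕ → ℕ → ℕ → ℕ → ℕ → A) : Prop where
  h1 : ∀ i, i < r.length → Az Y (W r i) (W r i + 1) (W r i + 2) (W r i + 3)
  h2a : ∀ i j, i < j → j < r.length → Az Y (W r i) (W r i + 1) (W r j) (W r j + 1)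
  h2b : ∀ i j, i < j → j < r.length → Az Y (W r i) (W r j) (W r i + 1) (W r j + 1)
  h3u : ∀ i j k, i < j → j < k → k < r.length → Az Y (W r i) (W r i + 1) (W r j) (W r k)
  h3v : ∀ p q q', q < q' → q' < r.length → p < r.length → p ≠ q → p ≠ q' → Az Y (W r p) (W r q) (W r p + 1) (W r q')
  h4a : ∀ i j k l, i < j → j < k → k < l → l < r.length → Az Y (W r i) (W r j) (W r k) (W r l)
  h4b : ∀ i j k l, i < j → j < k → k < l → l < r.length → Az Y (W r i) (W r k) (W r j) (W r l)

variable (hY : TriY r Y) (h3 : ∀ a ∈ r, 3 ≤ a) (hC : Can r Y)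

include hY h3 hC

/-- the three pairings of four strands -/
def PP (Y : ℕ → ℕ → ℕ → ℕ → ℕ → A) (a b c d : ℕ) : Prop := Az Y a b c d ∧ Az Y a c b d ∧ Az Y a d b c

omit h3 hC in
theorem PP.iff {a b c d a' b' c' d' : ℕ} (h : So4 (width r) a b c d) (h' : So4 (width r) a' b' c' d')
    (ea : bl r a = bl r a') (eb : bl r b = bl r b') (ec : bl r c = bl r c') (ed : bl r d = bl r d') :
    PP Y a b c d ↔ PP Y a' b' c' d' := by
  rw [PP, PP, (flip_P1 hY).iff h h' ea eb ec ed, (flip_P2 hY).iff h h' ea eb ec ed,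
    (flip_P3 hY).iff h h' ea eb ec ed]

omit h3 in
theorem pp1111 {i j k l : ℕ} (h1 : i < j) (h2 : j < k) (h4 : k < l) (hl : l < r.length)
    (g1 : W r i + 7 ≤ W r j) (g2 : W r j + 7 ≤ W r k) (g3 : W r k + 7 ≤ W r l) (g4 : W r l + 6 < width r) :
    PP Y (W r i) (W r j) (W r k) (W r l) := by
  have a := hC.h4a i j k l h1 h2 h4 hl
  have b := hC.h4b i j k l h1 h2 h4 hl
  exact ⟨a, b, Az.third hY (by omega) a b⟩

theorem pp211 {i j k : ℕ} (h1 : i < j) (h2 : j < k) (hk : k < r.length) :
    PP Y (W r i) (W r i + 1) (W r j) (W r k) := by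
  have g1 := W_gap3 r h3 i j h1 (by omega)
  have g2 := W_gap3 r h3 j k h2 (by omega)
  have g3 := W_lt3 r h3 k hk
  have a := hC.h3u i j k h1 h2 hk
  have b := hC.h3v i j k h2 hk (by omega) (by omega) (by omega)
  exact ⟨a, b, Az.third hY (by omega) a b⟩

theorem pp121 {i j k : ℕ} (h1 : i < j) (h2 : j < k) (hk : k < r.length) :
    PP Y (W r i) (W r j) (W r j + 1) (W r k) := by
  have g1 := W_gap3 r h3 i j h1 (by omega)
  have g2 := W_gap3 r h3 j k h2 (by omega)
  have g3 := W_lt3 r h3 k hk
  have ci := capAt_W r h3 (i := i) (e := 0) (by omega) (by omega)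
  have cj := capAt_W r h3 (i := j) (e := 0) (by omega) (by omega)
  rw [Nat.mul_zero, Nat.add_zero] at ci cj
  have u := hC.h3u i j k h1 h2 hk
  have a : Az Y (W r i) (W r j) (W r j + 1) (W r k) := by
    rw [Az.xy hY (by omega)]
    exact hC.h3v j i k (by omega) hk (by omega) (by omega) (by omega)
  have c : Az Y (W r i) (W r k) (W r j) (W r j + 1) := by
    rw [Az.rev hY (by omega), Az.turn hY cj ci (by omega) (by omega) (by omega) (by omega) (by omega)]
    exact u
  exact ⟨a, Az.third' hY (by omega) a c, c⟩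

theorem pp112 {i j k : ℕ} (h1 : i < j) (h2 : j < k) (hk : k < r.length) :
    PP Y (W r i) (W r j) (W r k) (W r k + 1) := by
  have g1 := W_gap3 r h3 i j h1 (by omega)
  have g2 := W_gap3 r h3 j k h2 (by omega)
  have g3 := W_lt3 r h3 k hk
  have ci := capAt_W r h3 (i := i) (e := 0) (by omega) (by omega)
  have ck := capAt_W r h3 (i := k) (e := 0) (by omega) (by omega)
  rw [Nat.mul_zero, Nat.add_zero] at ci ck
  have u := hC.h3u i j k h1 h2 hk
  have a : Az Y (W r i) (W r j) (W r k) (W r k + 1) := by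
    rw [Az.rev hY (by omega), Az.turn hY ck ci (by omega) (by omega) (by omega) (by omega) (by omega),
      Az.zw hY (by omega)]
    exact u
  have b : Az Y (W r i) (W r k) (W r j) (W r k + 1) := by
    rw [Az.xy hY (by omega), Az.zw hY (by omega)]
    exact hC.h3v k i j h1 (by omega) (by omega) (by omega) (by omega)
  exact ⟨a, b, Az.third hY (by omega) a b⟩

theorem pp22 {i j : ℕ} (h1 : i < j) (hj : j < r.length) :
    PP Y (W r i) (W r i + 1) (W r j) (W r j + 1) := by
  have g1 := W_gap3 r h3 i j h1 (by omega)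
  have g3 := W_lt3 r h3 j hj
  have a := hC.h2a i j h1 hj
  have b := hC.h2b i j h1 hj
  exact ⟨a, b, Az.third hY (by omega) a b⟩

theorem pp31 {i j : ℕ} (h1 : i < j) (hj : j < r.length) :
    PP Y (W r i) (W r i + 1) (W r i + 2) (W r j) := by
  have g1 := W_gap3 r h3 i j h1 (by omega)
  have g3 := W_lt3 r h3 j hj
  have ci := capAt_W r h3 (i := i) (e := 0) (by omega) (by omega)
  have ci2 := capAt_W r h3 (i := i) (e := 1) (by omega) (by omega)
  have cj := capAt_W r h3 (i := j) (e := 0) (by omega) (by omega)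
  rw [Nat.mul_zero, Nat.add_zero] at ci cj
  rw [Nat.mul_one] at ci2
  have b0 : bl r (W r i) = i := bl_W r h3 i (by omega) 0 (by omega)
  have b1 : bl r (W r i + 1) = i := bl_W r h3 i (by omega) 1 (by omega)
  have b2 : bl r (W r i + 2) = i := bl_W r h3 i (by omega) 2 (by omega)
  have b3 : bl r (W r i + 3) = i := bl_W r h3 i (by omega) 3 (by omega)
  have u := (PP.iff hY (a := W r i) (b := W r i + 1) (c := W r j) (d := W r j + 1) (a' := W r i) (b' := W r i + 2)
    (c' := W r j) (d' := W r j + 1) (by omega) (by omega) rfl (by rw [b1, b2]) rfl rfl).1 (pp22 hY h3 hC h1 hj)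
  have a : Az Y (W r i) (W r i + 1) (W r i + 2) (W r j) := by
    rw [Az.zw hY (by omega), Az.turn hY ci cj (by omega) (by omega) (by omega) (by omega) (by omega),
      Az.rev hY (by omega)]
    exact u.1
  have c : Az Y (W r i) (W r j) (W r i + 1) (W r i + 2) := by
    have h := ((flip_P3 hY).iff (a := W r i) (b := W r i + 1) (c := W r i + 2) (d := W r j) (a' := W r i)
      (b' := W r i + 2) (c' := W r i + 3) (d' := W r j) (by omega) (by omega) rfl (by rw [b1, b2])
      (by rw [b2, b3]) rfl)
    refine h.2 ?_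
    rw [Az.rev hY (by omega), Az.zw hY (by omega),
      Az.turn hY ci2 cj (by omega) (by omega) (by omega) (by omega) (by omega), Az.rev hY (by omega),
      Az.xy hY (by omega)]
    exact u.1
  exact ⟨a, Az.third' hY (by omega) a c, c⟩

theorem pp13 {i j : ℕ} (h1 : i < j) (hj : j < r.length) :
    PP Y (W r i) (W r j) (W r j + 1) (W r j + 2) := by
  have g1 := W_gap3 r h3 i j h1 (by omega)
  have g3 := W_lt3 r h3 j hj
  have ci := capAt_W r h3 (i := i) (e := 0) (by omega) (by omega)
  have cj := capAt_W r h3 (i := j) (e := 0) (by omega) (by omega)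
  have cj2 := capAt_W r h3 (i := j) (e := 1) (by omega) (by omega)
  rw [Nat.mul_zero, Nat.add_zero] at ci cj
  rw [Nat.mul_one] at cj2
  have b1 : bl r (W r j + 1) = j := bl_W r h3 j (by omega) 1 (by omega)
  have b2 : bl r (W r j + 2) = j := bl_W r h3 j (by omega) 2 (by omega)
  have b3 : bl r (W r j + 3) = j := bl_W r h3 j (by omega) 3 (by omega)
  have u := (PP.iff hY (a := W r i) (b := W r i + 1) (c := W r j) (d := W r j + 1) (a' := W r i) (b' := W r i + 1)
    (c' := W r j) (d' := W r j + 2) (by omega) (by omega) rfl rfl rfl (by rw [b1, b2])).1 (pp22 hY h3 hC h1 hj)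
  have c : Az Y (W r i) (W r j + 2) (W r j) (W r j + 1) := by
    rw [Az.rev hY (by omega), Az.turn hY cj ci (by omega) (by omega) (by omega) (by omega) (by omega)]
    exact u.1
  have a : Az Y (W r i) (W r j) (W r j + 1) (W r j + 2) := by
    have h := ((flip_P1 hY).iff (a := W r i) (b := W r j) (c := W r j + 1) (d := W r j + 2) (a' := W r i)
      (b' := W r j) (c' := W r j + 2) (d' := W r j + 3) (by omega) (by omega) rfl rfl (by rw [b1, b2])
      (by rw [b2, b3]))
    refine h.2 ?_
    rw [Az.rev hY (by omega), Az.turn hY cj2 ci (by omega) (by omega) (by omega) (by omega) (by omega),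
      Az.zw hY (by omega)]
    exact u.1
  exact ⟨a, Az.third' hY (by omega) a c, c⟩

theorem pp4 {i : ℕ} (hi : i < r.length) : PP Y (W r i) (W r i + 1) (W r i + 2) (W r i + 3) := by
  have g3 := W_lt3 r h3 i hi
  have ci := capAt_W r h3 (i := i) (e := 0) hi (by omega)
  have ci2 := capAt_W r h3 (i := i) (e := 1) hi (by omega)
  rw [Nat.mul_zero, Nat.add_zero] at ci
  rw [Nat.mul_one] at ci2
  have b1 : bl r (W r i + 1) = i := bl_W r h3 i hi 1 (by omega)
  have b2 : bl r (W r i + 2) = i := bl_W r h3 i hi 2 (by omega)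
  have b3 : bl r (W r i + 3) = i := bl_W r h3 i hi 3 (by omega)
  have b4 : bl r (W r i + 4) = i := bl_W r h3 i hi 4 (by omega)
  have a := hC.h1 i hi
  have a2 : Az Y (W r i) (W r i + 1) (W r i + 2) (W r i + 4) :=
    ((flip_P1 hY).iff (a := W r i) (b := W r i + 1) (c := W r i + 2) (d := W r i + 3) (a' := W r i)
      (b' := W r i + 1) (c' := W r i + 2) (d' := W r i + 4) (by omega) (by omega) rfl rfl rfl (by rw [b3, b4])).1 a
  have c : Az Y (W r i) (W r i + 3) (W r i + 1) (W r i + 2) := by
    have h := ((flip_P3 hY).iff (a := W r i) (b := W r i + 1) (c := W r i + 2) (d := W r i + 3) (a' := W r i)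
      (b' := W r i + 2) (c' := W r i + 3) (d' := W r i + 4) (by omega) (by omega) rfl (by rw [b1, b2])
      (by rw [b2, b3]) (by rw [b3, b4]))
    refine h.2 ?_
    rw [Az.rev hY (by omega), Az.turn hY ci2 ci (by omega) (by omega) (by omega) (by omega) (by omega)]
    exact a2
  exact ⟨a, Az.third' hY (by omega) a c, c⟩

theorem pp_all {a b c d : ℕ} (h : So4 (width r) a b c d) : PP Y a b c d := by
  have la := bl_lt r a (by omega)
  have lb := bl_lt r b (by omega)
  have lc := bl_lt r c (by omega)
  have ld := bl_lt r d (by omega)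
  have m1 := bl_mono r a b (by omega)
  have m2 := bl_mono r b c (by omega)
  have m3 := bl_mono r c d (by omega)
  have B : ∀ i, i < r.length → ∀ e, e ≤ 6 → bl r (W r i + e) = i := bl_W r h3
  have B0 : ∀ i, i < r.length → bl r (W r i) = i := fun i hi => B i hi 0 (by omega)
  have ga := W_lt3 r h3 _ la
  have gb := W_lt3 r h3 _ lb
  have gc := W_lt3 r h3 _ lc
  have gd := W_lt3 r h3 _ ld
  rcases m1.lt_or_eq with h1 | h1 <;> rcases m2.lt_or_eq with h2 | h2 <;> rcases m3.lt_or_eq with h4 | h4
  · have g1 := W_gap3 r h3 _ _ h1 lb.le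
    have g2 := W_gap3 r h3 _ _ h2 lc.le
    have g3 := W_gap3 r h3 _ _ h4 ld.le
    rw [PP.iff hY h (a' := W r (bl r a)) (b' := W r (bl r b)) (c' := W r (bl r c)) (d' := W r (bl r d)) (by omega)
      (B0 _ la).symm (B0 _ lb).symm (B0 _ lc).symm (B0 _ ld).symm]
    exact pp1111 hY hC h1 h2 h4 ld g1 g2 g3 gd
  · have g1 := W_gap3 r h3 _ _ h1 lb.le
    have g2 := W_gap3 r h3 _ _ h2 lc.le
    rw [PP.iff hY h (a' := W r (bl r a)) (b' := W r (bl r b)) (c' := W r (bl r c)) (d' := W r (bl r c) + 1) (by omega)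
      (B0 _ la).symm (B0 _ lb).symm (B0 _ lc).symm (by rw [B _ lc 1 (by omega), h4])]
    exact pp112 hY h3 hC h1 h2 lc
  · have g1 := W_gap3 r h3 _ _ h1 lb.le
    have g3 := W_gap3 r h3 _ _ h4 ld.le
    rw [← h2] at g3
    rw [PP.iff hY h (a' := W r (bl r a)) (b' := W r (bl r b)) (c' := W r (bl r b) + 1) (d' := W r (bl r d)) (by omega)
      (B0 _ la).symm (B0 _ lb).symm (by rw [B _ lb 1 (by omega), h2]) (B0 _ ld).symm]
    exact pp121 hY h3 hC h1 (by omega) ld
  · have g1 := W_gap3 r h3 _ _ h1 lb.le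
    rw [PP.iff hY h (a' := W r (bl r a)) (b' := W r (bl r b)) (c' := W r (bl r b) + 1) (d' := W r (bl r b) + 2)
      (by omega) (B0 _ la).symm (B0 _ lb).symm (by rw [B _ lb 1 (by omega), h2])
      (by rw [B _ lb 2 (by omega), h2, h4])]
    exact pp13 hY h3 hC h1 lb
  · have g2 := W_gap3 r h3 _ _ h2 lc.le
    have g3 := W_gap3 r h3 _ _ h4 ld.le
    rw [← h1] at g2
    rw [PP.iff hY h (a' := W r (bl r a)) (b' := W r (bl r a) + 1) (c' := W r (bl r c)) (d' := W r (bl r d)) (by omega)
      (B0 _ la).symm (by rw [B _ la 1 (by omega), h1]) (B0 _ lc).symm (B0 _ ld).symm]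
    exact pp211 hY h3 hC (by omega) h4 ld
  · have g2 := W_gap3 r h3 _ _ h2 lc.le
    rw [← h1] at g2
    rw [PP.iff hY h (a' := W r (bl r a)) (b' := W r (bl r a) + 1) (c' := W r (bl r c)) (d' := W r (bl r c) + 1)
      (by omega) (B0 _ la).symm (by rw [B _ la 1 (by omega), h1]) (B0 _ lc).symm (by rw [B _ lc 1 (by omega), h4])]
    exact pp22 hY h3 hC (by omega) lc
  · have g3 := W_gap3 r h3 _ _ h4 ld.le
    rw [← h2, ← h1] at g3
    rw [PP.iff hY h (a' := W r (bl r a)) (b' := W r (bl r a) + 1) (c' := W r (bl r a) + 2) (d' := W r (bl r d))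
      (by omega) (B0 _ la).symm (by rw [B _ la 1 (by omega), h1]) (by rw [B _ la 2 (by omega), h1, h2])
      (B0 _ ld).symm]
    exact pp31 hY h3 hC (by omega) ld
  · rw [PP.iff hY h (a' := W r (bl r a)) (b' := W r (bl r a) + 1) (c' := W r (bl r a) + 2) (d' := W r (bl r a) + 3)
      (by omega) (B0 _ la).symm (by rw [B _ la 1 (by omega), h1]) (by rw [B _ la 2 (by omega), h1, h2])
      (by rw [B _ la 3 (by omega), h1, h2, h4])]
    exact pp4 hY h3 hC la

/-- all trees with four different leaves vanish -/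
theorem Az_all {x y z w : ℕ} (h : D4 (width r) x y z w) : Az Y x y z w := by
  have key : ∀ x y z w, D4 (width r) x y z w → x < y → x < z → z < w → Az Y x y z w := by
    intro x y z w h h1 h2 h4
    rcases lt_trichotomy y z with h5 | h5 | h5
    · exact (pp_all hY h3 hC (a := x) (b := y) (c := z) (d := w) (by omega)).1
    · omega
    · rcases lt_trichotomy y w with h6 | h6 | h6
      · exact (pp_all hY h3 hC (a := x) (b := z) (c := y) (d := w) (by omega)).2.1
      · omega
      · exact (pp_all hY h3 hC (a := x) (b := z) (c := w) (d := y) (by omega)).2.2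
  have key2 : ∀ x y z w, D4 (width r) x y z w → x < y → z < w → Az Y x y z w := by
    intro x y z w h h1 h4
    rcases lt_trichotomy x z with h5 | h5 | h5
    · exact key x y z w h h1 h5 h4
    · omega
    · rw [Az.rev hY h]
      exact key z w x y (by omega) h4 h5 h1
  have key3 : ∀ x y z w, D4 (width r) x y z w → x < y → Az Y x y z w := by
    intro x y z w h h1
    rcases lt_trichotomy z w with h5 | h5 | h5
    · exact key2 x y z w h h1 h5
    · omega
    · rw [Az.zw hY h]
      exact key2 x y w z (by omega) h1 h5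
  rcases lt_trichotomy x y with h5 | h5 | h5
  · exact key3 x y z w h h5
  · omega
  · rw [Az.xy hY h]
    exact key3 y x z w (by omega) h5

/-- [t_xy, [t_xy, t_yz]] vanishes -/
def Bz (Y : ℕ → ℕ → ℕ → ℕ → ℕ → A) (x y z : ℕ) : Prop := Y x y x y z = 0

omit h3 hC in
theorem Bz.xy {x y z : ℕ} (h : D3 (width r) x y z) : Bz Y x y z ↔ Bz Y y x z := by
  rw [Bz, Bz, hY.symm (a := x) (b := y) (x := y) (y := x) (z := z) (by omega) (by omega),
    hY.swap0 (a := x) (b := y) (x := x) (y := y) (z := z) (by omega) h, neg_eq_zero]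

omit h3 hC in
theorem Bz.flipz {x y p : ℕ} (hp : adjB r p) (h : D3 (width r) x y p) (h1 : x ≠ p + 1) (h2 : y ≠ p + 1) :
    Bz Y x y p ↔ Bz Y x y (p + 1) := by
  have hpw := (adjB_turn r p hp).1
  have e := hY.fl1 (a := x) (b := y) hp (y := x) (z := y) (by omega) (by omega) (by omega) (by omega) (by omega)
    (by omega) (by omega) (by omega)
  have c1 := hY.cyc (a := x) (b := y) (x := p) (y := x) (z := y) (by omega) (by omega)
  have c2 := hY.cyc (a := x) (b := y) (x := p + 1) (y := x) (z := y) (by omega) (by omega)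
  rw [Bz, Bz, c1, c2, eq_neg_of_add_eq_zero_left e, neg_eq_zero]

theorem Bz.flip {p y z : ℕ} (hp : adjB r p) (h : D3 (width r) p y z) (h1 : y ≠ p + 1) (h2 : z ≠ p + 1) :
    Bz Y p y z ↔ Bz Y (p + 1) y z := by
  have hpw := (adjB_turn r p hp).1
  have e := hY.fl3 (b := y) hp (y := y) (z := z) (by omega) (by omega) (by omega) (by omega) (by omega) (by omega)
  have a1 : Y p y (p + 1) y z = 0 := by
    have h := Az_all hY h3 hC (x := z) (y := p + 1) (z := y) (w := p) (by omega)
    rw [Az] at h
    have c1 := hY.cyc (a := y) (b := p) (x := z) (y := p + 1) (z := y) (by omega) (by omega)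
    rw [hY.symm (a := y) (b := p) (by omega) (by omega), c1, h]
  have a2 : Y (p + 1) y p y z = 0 := by
    have h := Az_all hY h3 hC (x := z) (y := p) (z := y) (w := p + 1) (by omega)
    rw [Az] at h
    have c1 := hY.cyc (a := y) (b := p + 1) (x := z) (y := p) (z := y) (by omega) (by omega)
    rw [hY.symm (a := y) (b := p + 1) (by omega) (by omega), c1, h]
  rw [a1, a2, add_zero, add_zero] at e
  rw [Bz, Bz, eq_neg_of_add_eq_zero_left e, neg_eq_zero]

theorem Bz.turn {x y z : ℕ} (hx : CapAt r x) (hy : CapAt r y) (h : D3 (width r) x y z) (h1 : x + 1 ≠ y)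
    (h2 : y + 1 ≠ x) (h4 : z ≠ x + 1) (h5 : z ≠ y + 1) : Bz Y x y z := by
  have hx1 := hx.1
  have hy1 := hy.1
  have e := hY.tt4 hx hy h h1 h2 h4 h5
  have a1 : Y x y y (x + 1) z = 0 := by
    have h := Az_all hY h3 hC (x := x + 1) (y := z) (z := y) (w := x) (by omega)
    rw [Az] at h
    have c1 := hY.cyc (a := y) (b := x) (x := y) (y := x + 1) (z := z) (by omega) (by omega)
    rw [hY.symm (a := y) (b := x) (by omega) (by omega), ← c1, h]
  have a2 : Y x (y + 1) y x z = 0 := by
    have h := Az_all hY h3 hC (x := z) (y := y) (z := x) (w := y + 1) (by omega)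
    rw [Az] at h
    have c1 := hY.cyc (a := x) (b := y + 1) (x := z) (y := y) (z := x) (by omega) (by omega)
    rw [c1, h]
  rw [a1, a2, add_zero, add_zero, hY.swap0 (a := x) (b := y) (x := x) (y := y) (z := z) (by omega) h, neg_eq_zero] at e
  exact e

omit h3 hC in
theorem Bz.third {x y z : ℕ} (h : D3 (width r) x y z) (h1 : Bz Y x y z) (h2 : Bz Y x z y) : Bz Y y z x := by
  have e := hY.bsum h
  have h4 : Bz Y z x y := (Bz.xy hY (by omega)).1 h2
  rw [Bz] at h1 h4
  have c1 := hY.cyc (a := z) (b := x) (x := z) (y := x) (z := y) (by omega) (by omega)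
  have c2 := hY.cyc (a := y) (b := z) (x := x) (y := y) (z := z) (by omega) (by omega)
  rw [h1, c1, h4, add_zero, zero_add, ← c2] at e
  exact e

theorem Bz_all {x y z : ℕ} (h : D3 (width r) x y z) : Bz Y x y z := by
  have F1 : Flip3 r (fun a b c => Bz Y a b c) := ⟨fun p b c hp h => by
      have := (adjB_turn r p hp).1
      exact Bz.flip hY h3 hC hp (by omega) (by omega) (by omega), fun a p c hp h1 h => by
      have := (adjB_turn r p hp).1
      rw [Bz.xy hY (x := a) (y := p) (by omega), Bz.xy hY (x := a) (y := p + 1) (by omega)]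
      exact Bz.flip hY h3 hC hp (by omega) (by omega) (by omega), fun a b p hp h1 h => by
      have := (adjB_turn r p hp).1
      exact Bz.flipz hY hp (by omega) (by omega) (by omega)⟩
  have F2 : Flip3 r (fun a b c => Bz Y a c b) := ⟨fun p b c hp h => by
      have := (adjB_turn r p hp).1
      exact Bz.flip hY h3 hC hp (by omega) (by omega) (by omega), fun a p c hp h1 h => by
      have := (adjB_turn r p hp).1
      exact Bz.flipz hY hp (by omega) (by omega) (by omega), fun a b p hp h1 h => by
      have := (adjB_turn r p hp).1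
      rw [Bz.xy hY (x := a) (y := p) (by omega), Bz.xy hY (x := a) (y := p + 1) (by omega)]
      exact Bz.flip hY h3 hC hp (by omega) (by omega) (by omega)⟩
  have key : ∀ a b c, So3 (width r) a b c → Bz Y a b c ∧ Bz Y a c b ∧ Bz Y b c a := by
    intro a b c h
    have la := bl_lt r a (by omega)
    have lb := bl_lt r b (by omega)
    have lc := bl_lt r c (by omega)
    have m1 := bl_mono r a b (by omega)
    have m2 := bl_mono r b c (by omega)
    have ga := W_lt3 r h3 _ la
    have gb := W_lt3 r h3 _ lb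
    have gc := W_lt3 r h3 _ lc
    have k1 : W r (bl r a) ≤ W r (bl r b) := by
      rcases m1.lt_or_eq with h1 | h1
      · have := W_gap3 r h3 _ _ h1 lb.le
        omega
      · rw [h1]
    have k2 : W r (bl r b) ≤ W r (bl r c) := by
      rcases m2.lt_or_eq with h1 | h1
      · have := W_gap3 r h3 _ _ h1 lc.le
        omega
      · rw [h1]
    have ca := capAt_W r h3 (i := bl r a) (e := 0) la (by omega)
    have cb := capAt_W r h3 (i := bl r b) (e := 1) lb (by omega)
    have cc := capAt_W r h3 (i := bl r c) (e := 2) lc (by omega)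
    rw [Nat.mul_zero, Nat.add_zero] at ca
    have e0 : bl r a = bl r (W r (bl r a)) := (bl_W r h3 _ la 0 (by omega)).symm
    have e1 : bl r b = bl r (W r (bl r b) + 2 * 1) := (bl_W r h3 _ lb 2 (by omega)).symm
    have e2 : bl r c = bl r (W r (bl r c) + 2 * 2) := (bl_W r h3 _ lc 4 (by omega)).symm
    have q1 : Bz Y a b c := by
      rw [F1.iff h (a' := W r (bl r a)) (b' := W r (bl r b) + 2 * 1) (c' := W r (bl r c) + 2 * 2) (by omega) e0 e1 e2]
      exact Bz.turn hY h3 hC ca cb (by omega) (by omega) (by omega) (by omega) (by omega)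
    have q2 : Bz Y a c b := by
      rw [F2.iff h (a' := W r (bl r a)) (b' := W r (bl r b) + 2 * 1) (c' := W r (bl r c) + 2 * 2) (by omega) e0 e1 e2]
      exact Bz.turn hY h3 hC ca cc (by omega) (by omega) (by omega) (by omega) (by omega)
    exact ⟨q1, q2, Bz.third hY (by omega) q1 q2⟩
  have key2 : ∀ x y z, D3 (width r) x y z → x < y → Bz Y x y z := by
    intro x y z h h1
    rcases lt_trichotomy z x with h5 | h5 | h5
    · exact (key z x y (by omega)).2.2
    · omega
    · rcases lt_trichotomy z y with h6 | h6 | h6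
      · exact (key x z y (by omega)).2.1
      · omega
      · exact (key x y z (by omega)).1
  rcases lt_trichotomy x y with h5 | h5 | h5
  · exact key2 x y z h h5
  · omega
  · rw [Bz.xy hY h]
    exact key2 y x z (by omega) h5

/-- everything vanishes -/
theorem Y_all {a b x y z : ℕ} (hab : D2 (width r) a b) (h : D3 (width r) x y z) : Y a b x y z = 0 := by
  -- chords with one end z, the other end outside
  have A1 : ∀ {x y z w : ℕ}, D4 (width r) x y z w → Y z w x y z = 0 := fun h => Az_all hY h3 hC h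
  have A2 : ∀ {x y z w : ℕ}, D4 (width r) x y z w → Y x w x y z = 0 := fun {x y z w} h => by
    have c := hY.cyc (a := x) (b := w) (x := x) (y := y) (z := z) (by omega) (by omega)
    rw [← c]
    exact A1 (by omega)
  have A3 : ∀ {x y z w : ℕ}, D4 (width r) x y z w → Y y w x y z = 0 := fun {x y z w} h => by
    have c := hY.cyc (a := y) (b := w) (x := z) (y := x) (z := y) (by omega) (by omega)
    rw [c]
    exact A1 (by omega)
  have B1 : ∀ {x y z : ℕ}, D3 (width r) x y z → Y x y x y z = 0 := fun h => Bz_all hY h3 hC h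
  have B2 : ∀ {x y z : ℕ}, D3 (width r) x y z → Y y z x y z = 0 := fun {x y z} h => by
    have c := hY.cyc (a := y) (b := z) (x := x) (y := y) (z := z) (by omega) (by omega)
    rw [← c]
    exact B1 (by omega)
  have B3 : ∀ {x y z : ℕ}, D3 (width r) x y z → Y x z x y z = 0 := fun {x y z} h => by
    have c := hY.cyc (a := z) (b := x) (x := z) (y := x) (z := y) (by omega) (by omega)
    rw [hY.symm (a := z) (b := x) (by omega) (by omega), c]
    exact B1 (by omega)
  have s := hY.symm (a := b) (b := a) (x := x) (y := y) (z := z) (by omega) h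
  by_cases ax : a = x
  · subst ax
    by_cases bx : b = y
    · subst bx; exact B1 (by omega)
    by_cases bz : b = z
    · subst bz; exact B3 (by omega)
    exact A2 (by omega)
  by_cases ay : a = y
  · subst ay
    by_cases bx : b = x
    · subst bx; rw [s]; exact B1 (by omega)
    by_cases bz : b = z
    · subst bz; exact B2 (by omega)
    exact A3 (by omega)
  by_cases az : a = z
  · subst az
    by_cases bx : b = x
    · subst bx; rw [s]; exact B3 (by omega)
    by_cases bz : b = y
    · subst bz; rw [s]; exact B2 (by omega)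
    exact A1 (by omega)
  by_cases bx : b = x
  · subst bx; rw [s]; exact A2 (by omega)
  by_cases by' : b = y
  · subst by'; rw [s]; exact A3 (by omega)
  by_cases bz : b = z
  · subst bz; rw [s]; exact A1 (by omega)
  exact hY.disj hab h ax ay az bx by' bz

end

end SLC
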