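import Pool.Agent.SLC.Fo0
import Pool.Agent.SLC.Frg
import Pool.Agent.SLC.Ins
import Pool.Agent.SLC.Sup
import Pool.Agent.SLC.Red3

/-!
String links: the mark which forgets one component; positions of the strands; the closures which avoid one component
generate.
-/

set_option autoImplicit false

namespace SLC

open CSys

/-- all components except the component j are kept -/
def mj (j : ℕ) : ℕ → Bool := fun k => decide (k ≠ j)

theorem mj_true {j k : ℕ} : mj j k = true ↔ k ≠ j := by simp [mj]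

theorem mj_shift (n : ℕ) : (fun j => mj (n + 1) (j + 1)) = mj n := by
  funext j
  simp [mj]

theorem keep_true (r : List ℕ) : ∀ c : ℕ → Bool, (∀ k, c k = true) → keep r c = r := by
  induction r with
  | nil => intro c _; rfl
  | cons a r ih =>
    intro c hc
    rw [keep, if_pos (hc 0), ih _ fun k => hc (k + 1)]

theorem keep_mj (r₁ : List ℕ) (a : ℕ) (r₂ : List ℕ) : keep (r₁ ++ a :: r₂) (mj r₁.length) = r₁ ++ r₂ := by
  induction r₁ with
  | nil =>
    change keep (a :: r₂) (mj 0) = r₂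
    rw [keep, if_neg (by simp [mj]), keep_true _ _ fun k => by simp [mj]]
  | cons b r₁ ih =>
    rw [List.cons_append, List.length_cons, keep, if_pos (by simp [mj]), mj_shift, ih, List.cons_append]

theorem spread_cons (a : ℕ) (r : List ℕ) (c : ℕ → Bool) (x : ℕ) : spread (a :: r) c x =
    if x < 2 * a + 1 then c 0 else spread r (fun j => c (j + 1)) (x - (2 * a + 1)) := rfl

theorem spread_true (r : List ℕ) : ∀ (c : ℕ → Bool), (∀ k, c k = true) → ∀ x, spread r c x = true := by
  induction r with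
  | nil => intro c hc x; exact hc x
  | cons a r ih =>
    intro c hc x
    rw [spread_cons]
    split_ifs
    · exact hc 0
    · exact ih _ (fun k => hc (k + 1)) _

theorem spread_mj (r₁ : List ℕ) (a : ℕ) (r₂ : List ℕ) : ∀ x, spread (r₁ ++ a :: r₂) (mj r₁.length) x = true ↔
    x < width r₁ ∨ width r₁ + (2 * a + 1) ≤ x := by
  induction r₁ with
  | nil =>
    intro x
    change spread (a :: r₂) (mj 0) x = true ↔ x < 0 ∨ 0 + (2 * a + 1) ≤ x
    rw [spread_cons]
    split_ifs with h
    · rw [mj_true]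
      omega
    · rw [spread_true _ _ fun k => by simp [mj]]
      simp only [true_iff]
      omega
  | cons b r₁ ih =>
    intro x
    rw [List.cons_append, List.length_cons, spread_cons, mj_shift, width]
    split_ifs with h
    · rw [mj_true]
      omega
    · rw [ih]
      omega

theorem spread_bl (r : List ℕ) : ∀ (c : ℕ → Bool) (x : ℕ), x < width r → spread r c x = c (bl r x) := by
  induction r with
  | nil => intro c x hx; exact absurd hx (Nat.not_lt_zero x)
  | cons a r ih =>
    intro c x hx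
    rw [width] at hx
    rw [spread_cons, bl]
    split_ifs with h
    · rfl
    · rw [ih _ _ (by omega)]

theorem cnt_gap {s : ℕ → Bool} {A B : ℕ} (hs : ∀ x, s x = true ↔ x < A ∨ A + B ≤ x) : ∀ p,
    cnt s p = if p ≤ A then p else if p ≤ A + B then A else p - B := by
  intro p
  induction p with
  | zero => simp [cnt]
  | succ p ih =>
    rw [cnt, ih]
    by_cases h : s p = true
    · rw [if_pos h]
      rw [hs] at h
      split_ifs <;> omega
    · rw [if_neg h]
      rw [hs] at h
      split_ifs <;> omega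

theorem perm_upv_lt {n k p : ℕ} (h : p < n) : perm (upv n k)⁻¹ p = p := by
  rw [map_inv, Equiv.Perm.inv_eq_iff_eq, perm_upv, if_pos h]

theorem perm_upv_ge {n k p : ℕ} (h : n ≤ p) (h' : p < n + k) : perm (upv n k)⁻¹ p = p + 1 := by
  rw [map_inv, Equiv.Perm.inv_eq_iff_eq, perm_upv, if_neg (by omega), if_neg (by omega), if_pos (by omega)]
  omega

/-- position of a kept strand after the replacement of the block number i by one strand -/
def pp (r₁ : List ℕ) (a : ℕ) (r₂ : List ℕ) (p : ℕ) : ℕ :=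
  perm (upv (width r₁) (width r₂))⁻¹ (cnt (spread (r₁ ++ a :: r₂) (mj r₁.length)) p)

theorem pp_lt {r₁ : List ℕ} {a : ℕ} {r₂ : List ℕ} {p : ℕ} (h : p < width r₁) : pp r₁ a r₂ p = p := by
  rw [pp, cnt_gap (spread_mj r₁ a r₂), if_pos (by omega), perm_upv_lt h]

theorem width_cons' (r₁ : List ℕ) (a : ℕ) (r₂ : List ℕ) : width (r₁ ++ a :: r₂) = width r₁ + (2 * a + 1 + width r₂) := by
  rw [width_app, width]

theorem pp_ge {r₁ : List ℕ} {a : ℕ} {r₂ : List ℕ} {p : ℕ} (h : width r₁ + (2 * a + 1) ≤ p)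
    (h' : p < width (r₁ ++ a :: r₂)) : pp r₁ a r₂ p = p - 2 * a := by
  rw [width_cons'] at h'
  rw [pp, cnt_gap (spread_mj r₁ a r₂), if_neg (by omega)]
  split_ifs with h1
  · rw [perm_upv_ge le_rfl (by omega)]
    omega
  · rw [perm_upv_ge (by omega) (by omega)]
    omega

theorem bl_app_lt (r₁ r₂ : List ℕ) : ∀ x, x < width r₁ → bl (r₁ ++ r₂) x = bl r₁ x := by
  induction r₁ with
  | nil => intro x hx; exact absurd hx (Nat.not_lt_zero x)
  | cons a r₁ ih =>
    intro x hx
    rw [width] at hx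
    rw [List.cons_append, bl, bl]
    split_ifs with h
    · rfl
    · rw [ih _ (by omega)]

theorem bl_app_ge (r₁ r₂ : List ℕ) : ∀ x, width r₁ ≤ x → bl (r₁ ++ r₂) x = r₁.length + bl r₂ (x - width r₁) := by
  induction r₁ with
  | nil => intro x _; simp [width]
  | cons a r₁ ih =>
    intro x hx
    rw [width] at hx
    rw [List.cons_append, bl, if_neg (by omega), ih _ (by omega), List.length_cons, width]
    have e : x - (2 * a + 1) - width r₁ = x - (2 * a + 1 + width r₁) := by omega
    rw [e]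
    omega

theorem bl_pp {r₁ : List ℕ} {a : ℕ} {r₂ : List ℕ} {p : ℕ} (hp : p < width (r₁ ++ a :: r₂))
    (h : spread (r₁ ++ a :: r₂) (mj r₁.length) p = true) :
    bl (r₁ ++ 0 :: r₂) (pp r₁ a r₂ p) = bl (r₁ ++ a :: r₂) p := by
  rw [spread_mj] at h
  rcases h with h | h
  · rw [pp_lt h, bl_app_lt _ _ _ h, bl_app_lt _ _ _ h]
  · rw [pp_ge h hp, bl_app_ge _ _ _ (by omega), bl_app_ge _ _ _ (by omega), bl, bl, if_neg (by omega),
      if_neg (by omega)]
    have e : p - 2 * a - width r₁ - (2 * 0 + 1) = p - width r₁ - (2 * a + 1) := by omega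
    rw [e]

theorem lpos_bz (r : List ℕ) : ∀ x, lpos (bz r.length) r x = x := by
  induction r with
  | nil => intro x; rfl
  | cons a r ih =>
    intro x
    rw [List.length_cons, bz_succ, lpos, ih]
    split_ifs <;> omega

theorem zip_bz (r : List ℕ) : List.zipWith (· + ·) (bz r.length) r = r := by
  induction r with
  | nil => rfl
  | cons a r ih => rw [List.length_cons, bz_succ, List.zipWith_cons_cons, ih, Nat.zero_add]

theorem zip_ins (r₁ : List ℕ) (a : ℕ) (r₂ : List ℕ) :
    List.zipWith (· + ·) (bz r₁.length ++ a :: bz r₂.length) (r₁ ++ 0 :: r₂) = r₁ ++ a :: r₂ := by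
  rw [List.zipWith_append (by rw [bz_len]), zip_bz, List.zipWith_cons_cons, zip_bz, Nat.add_zero]

theorem lpos_ins (r₁ : List ℕ) (a : ℕ) (r₂ : List ℕ) : ∀ x, x ≠ width r₁ →
    lpos (bz r₁.length ++ a :: bz r₂.length) (r₁ ++ 0 :: r₂) x = if x < width r₁ then x else x + 2 * a := by
  induction r₁ with
  | nil =>
    intro x hx
    rw [width] at hx
    change lpos (a :: bz r₂.length) (0 :: r₂) x = _
    rw [lpos, if_neg (by omega), lpos_bz, width, if_neg (by omega)]
    omega
  | cons b r₁ ih =>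
    intro x hx
    rw [width] at hx
    rw [List.length_cons, bz_succ, List.cons_append, List.cons_append, lpos, width]
    split_ifs with h1 h2
    · rfl
    · omega
    · rw [ih _ (by omega), if_pos (by omega)]
      omega
    · rw [ih _ (by omega), if_neg (by omega)]
      omega

/-- the old position -/
theorem lpos_pp {r₁ : List ℕ} {a : ℕ} {r₂ : List ℕ} {p : ℕ} (hp : p < width (r₁ ++ a :: r₂))
    (h : spread (r₁ ++ a :: r₂) (mj r₁.length) p = true) :
    lpos (bz r₁.length ++ a :: bz r₂.length) (r₁ ++ 0 :: r₂) (pp r₁ a r₂ p) = p ∧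
      pp r₁ a r₂ p < width (r₁ ++ 0 :: r₂) := by
  rw [spread_mj] at h
  rw [width_cons'] at hp ⊢
  rcases h with h | h
  · rw [pp_lt h, lpos_ins _ _ _ _ (by omega), if_pos h]
    omega
  · rw [pp_ge h (by rw [width_cons']; omega), lpos_ins _ _ _ _ (by omega), if_neg (by omega)]
    omega

/-- closures of conjugates of elements of the term k, away from the component j -/
def Av (m j k : ℕ) (y : Tangle) : Prop := ∃ r : List ℕ, r.length = m ∧ ∃ c ∈ BN (width r), ∃ s, s ≤ width r ∧
  ∃ w ∈ Gam k s, (∀ x < s, bl r (perm c x) ≠ j) ∧ y = cl r (c * w * c⁻¹)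

theorem S_mul_ceq {M : Type} [Monoid M] {Q : CSys M} [Nonempty Q.Lev] {k : ℕ} (hk : 1 ≤ k) {l : Q.Lev} {q : Q.P l}
    (hq : q ∈ Gm (Q.P l) k) (z : Q.P l) : Q.Ceq (k + 1) (Q.S l (q * z)) (Q.S l q * Q.S l z) := by
  obtain ⟨c, hc, h⟩ := CSys.split (Q := Q) (k + 1) 1 k hk rfl l 1 q hq
  have h1 := h 1 le_rfl 1 (one_mem _)
  have h2 := h 1 le_rfl z trivial
  rw [min_self] at h1 h2
  rw [one_mul, mul_one, one_mul, Q.S_one, mul_one] at h1
  rw [one_mul, one_mul] at h2
  exact h2.trans (CSys.Ceq.mul_right h1.symm (Q.isCl_S _ _))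

/-- the elements of the term k whose classes lie in H -/
def inHd {m d k : ℕ} {G : Type} [Group G] (hd : 1 ≤ d) (hk : 1 ≤ k) (hkd : k < d) (π : (sys m).Quo d G)
    (H : Subgroup G) (hH : π.FF (k + 1) ≤ H) {r : List ℕ} (hr : r.length = m) : Subgroup Br :=
  have key : ∀ a ∈ Gam k (width r), ∀ b ∈ Gam k (width r), ∃ t ∈ π.FF (k + 1),
      π.cls (cl r (a * b)) = t * (π.cls (cl r a) * π.cls (cl r b)) := by
    intro a ha b hb
    let l : (sys m).Lev := ⟨r, hr⟩
    let a' : (sys m).P l := ⟨a, Gam_le_PN ha⟩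
    let b' : (sys m).P l := ⟨b, Gam_le_PN hb⟩
    have h1 := S_mul_ceq (Q := sys m) hk (l := l) (q := a') ((mem_Gm_iff (n := width r) _).2 ha) b'
    have h2 := π.mem_of_Ceq (by omega) (by omega) h1 ((sys m).isCl_S _ _)
    rw [π.cls_mul _ _ ((sys m).isCl_S _ _) ((sys m).isCl_S _ _)] at h2
    exact ⟨_, h2, (inv_mul_cancel_right _ _).symm⟩
  { carrier := {g | g ∈ Gam k (width r) ∧ π.cls (cl r g) ∈ H}
    one_mem' := ⟨one_mem _, by rw [cl_one, π.cls_one]; exact one_mem H⟩
    mul_mem' := by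
      rintro a b ⟨ha, ha'⟩ ⟨hb, hb'⟩
      obtain ⟨t, ht, e⟩ := key a ha b hb
      refine ⟨mul_mem ha hb, ?_⟩
      rw [e]
      exact mul_mem (hH ht) (mul_mem ha' hb')
    inv_mem' := by
      rintro a ⟨ha, ha'⟩
      obtain ⟨t, ht, e⟩ := key a⁻¹ (inv_mem ha) a ha
      rw [inv_mul_cancel, cl_one, π.cls_one] at e
      refine ⟨inv_mem ha, ?_⟩
      have e2 : π.cls (cl r a⁻¹) = t⁻¹ * (π.cls (cl r a))⁻¹ := by
        rw [eq_mul_inv_iff_mul_eq]
        exact (inv_eq_of_mul_eq_one_right e.symm).symm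
      rw [e2]
      exact mul_mem (inv_mem (hH ht)) (inv_mem ha') }

theorem exists_free_block {m k : ℕ} (hm : k < m) (f : ℕ → ℕ) : ∃ j < m, ∀ x < k, f x ≠ j := by
  by_contra h
  push Not at h
  have h1 : Finset.range m ⊆ (Finset.range k).image f := by
    intro j hj
    obtain ⟨x, hx, rfl⟩ := h j (Finset.mem_range.1 hj)
    exact Finset.mem_image_of_mem f (Finset.mem_range.2 hx)
  have h2 := (Finset.card_le_card h1).trans Finset.card_image_le
  rw [Finset.card_range, Finset.card_range] at h2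
  omega

theorem len_le_width (r : List ℕ) : r.length ≤ width r := by
  induction r with
  | nil => exact le_rfl
  | cons a r ih => rw [List.length_cons, width]; omega

theorem hgen {m d : ℕ} (hm : d < m) {G : Type} [Group G] (π : (sys m).Quo d G) {k : ℕ} (hk : 1 ≤ k) (hkd : k < d)
    (l : (sys m).Lev) (a : (sys m).P l) (ha : a ∈ Gm ((sys m).P l) k) :
    π.cls ((sys m).S l a) ∈ Subgroup.closure {g | ∃ j < m, ∃ y, Av m j k y ∧ g = π.cls y} ⊔ π.FF (k + 1) := by
  obtain ⟨r, hr⟩ := l
  let a' : PN (width r) := a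
  have ha' : (a' : Br) ∈ Gam k (width r) := (mem_Gm_iff (n := width r) _).1 ha
  have hle : Gam k (width r) ≤ inHd (by omega) hk hkd π _ (le_sup_right (a := Subgroup.closure {g | ∃ j < m, ∃ y,
      Av m j k y ∧ g = π.cls y})) hr := by
    refine (Gam_supp1 k hk (width r)).trans (sup_le ((Subgroup.closure_le _).2 ?_) ?_)
    · rintro _ ⟨c, hc, w, hw, rfl⟩
      have hwr : r.length ≤ width r := by
        exact len_le_width r
      obtain ⟨j, hj, hjx⟩ := exists_free_block (k := k + 1) (m := m) (by omega) (fun x => bl r (perm c x))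
      refine ⟨Gam_conj hc (Gam_mono (by rw [hr] at hwr; omega) hw), Subgroup.mem_sup_left (Subgroup.subset_closure ?_)⟩
      exact ⟨j, hj, _, ⟨r, hr, c, hc, k + 1, by rw [hr] at hwr; omega, w, hw, hjx, rfl⟩, rfl⟩
    · intro q hq
      refine ⟨Gam_anti (by omega) hq, Subgroup.mem_sup_right ?_⟩
      exact π.cls_S_mem (l := ⟨r, hr⟩) (a := ⟨q, Gam_le_PN hq⟩) ((mem_Gm_iff (n := width r) _).2 hq)
  exact (hle ha').2

end SLC
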