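import Pool.Agent.SLC.Uni1

/-!
String links: C_d-equivalence is detected by the sublinks with m - 1 components, if m > d.
-/

set_option autoImplicit false

namespace SLC

open CSys

/-- the properties of restricted braids -/
structure ResFacts : Prop where
  bn : ∀ (n : ℕ) (g : Br) (s : ℕ → Bool), g ∈ BN n → res g s ∈ BN (cnt s n)
  gam : ∀ (k n : ℕ) (g : Br) (s : ℕ → Bool), g ∈ Gam k n → res g s ∈ Gam k (cnt s n)
  perm : ∀ (g : Br) (s : ℕ → Bool) (x : ℕ), s x = true → perm (res g s) (cnt s x) = cnt (mk g s) (SLC.perm g x)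
  cmk : ∀ (n : ℕ) (g : Br) (s : ℕ → Bool), g ∈ BN n → cnt (mk g s) n = cnt s n
  width : ∀ (r : List ℕ) (c : ℕ → Bool), cnt (spread r c) (SLC.width r) = SLC.width (keep r c)
  id : ∀ (n : ℕ) (g : Br) (s : ℕ → Bool), g ∈ BN n → (∀ x < n, s x = true) → res g s = g

theorem mk_pure {g : Br} {n : ℕ} (hg : g ∈ PN n) (s : ℕ → Bool) : mk g s = s := by
  funext x
  rw [mk, (PN_iff.1 (inv_mem hg)).2]

theorem mk_inv_apply (g : Br) (s : ℕ → Bool) (x : ℕ) : mk g⁻¹ s x = s (perm g x) := by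
  rw [mk, inv_inv]

theorem res_conj {n : ℕ} {c w : Br} (hw : w ∈ PN n) (s : ℕ → Bool) :
    res (c * w * c⁻¹) s = res c (mk c⁻¹ s) * res w (mk c⁻¹ s) * (res c (mk c⁻¹ s))⁻¹ := by
  rw [res_mul, res_mul, mk_pure hw, res_inv]

theorem res_mul_pure {n : ℕ} {g h : Br} (hh : h ∈ PN n) (s : ℕ → Bool) : res (g * h) s = res g s * res h s := by
  rw [res_mul, mk_pure hh]

theorem exists_cnt (s : ℕ → Bool) : ∀ n y, y < cnt s n → ∃ x < n, s x = true ∧ cnt s x = y := by
  intro n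
  induction n with
  | zero => intro y hy; exact absurd hy (Nat.not_lt_zero y)
  | succ n ih =>
    intro y hy
    rw [cnt] at hy
    by_cases h : y < cnt s n
    · obtain ⟨x, hx, h1, h2⟩ := ih y h
      exact ⟨x, by omega, h1, h2⟩
    · split_ifs at hy with h1
      · exact ⟨n, by omega, h1, by omega⟩
      · omega

theorem cnt_full {s : ℕ → Bool} {n : ℕ} (h : ∀ x < n, s x = true) : cnt s n = n := by
  induction n with
  | zero => rfl
  | succ n ih => rw [cnt, ih fun x hx => h x (by omega), if_pos (h n (by omega))]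

/-- forget the component j, and insert a trivial component there -/
def EE (f : ℕ → Tangle → Tangle) (m j : ℕ) (x : Tangle) : Tangle :=
  T (upv j (m - 1 - j))⁻¹ * f j x * T (upv j (m - 1 - j))

/-- the value of the forgetful maps on closures -/
def Fval (f : ℕ → Tangle → Tangle) (m : ℕ) : Prop := ∀ j < m, ∀ r : List ℕ, r.length = m → ∀ g ∈ PN (width r),
  f j (cl r g) = cl (keep r (mj j)) (res g (spread r (mj j)))

/-- the forgetful maps are multiplicative -/
def Fmul (f : ℕ → Tangle → Tangle) (m : ℕ) : Prop := ∀ j < m, ∀ x y, IsStringLink m x → IsStringLink m y →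
  f j (x * y) = f j x * f j y

theorem split_at {r : List ℕ} {m j : ℕ} (hr : r.length = m) (hj : j < m) : ∃ r₁ a r₂, r = r₁ ++ a :: r₂ ∧
    r₁.length = j ∧ r₂.length = m - 1 - j := by
  subst hr
  refine ⟨r.take j, r[j], r.drop (j + 1), ?_, ?_, ?_⟩
  · rw [← List.drop_eq_getElem_cons, List.take_append_drop]
  · rw [List.length_take, min_eq_left hj.le]
  · rw [List.length_drop]
    omega

/-- the braid which puts the new strand in its place -/
theorem ins_mem (r₁ r₂ : List ℕ) : upv (width r₁) (width r₂) ∈ BN (width (r₁ ++ 0 :: r₂)) := by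
  refine BU_le (n := width r₁) (upv_mem _ ?_)
  rw [width_cons']
  omega

theorem ins_le (r₁ r₂ : List ℕ) : width (r₁ ++ r₂) ≤ width (r₁ ++ 0 :: r₂) := by
  rw [width_cons', width_app]
  omega

section

variable (R : ResFacts) {f : ℕ → Tangle → Tangle} {m : ℕ} (hf : Fval f m)

include hf in
theorem EE_cl {r₁ r₂ : List ℕ} {a : ℕ} (hr : (r₁ ++ a :: r₂).length = m) {g : Br} (hg : g ∈ PN (width (r₁ ++ a :: r₂))) :
    EE f m r₁.length (cl (r₁ ++ a :: r₂) g) = cl (r₁ ++ 0 :: r₂) ((upv (width r₁) (width r₂))⁻¹ *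
      res g (spread (r₁ ++ a :: r₂) (mj r₁.length)) * upv (width r₁) (width r₂)) := by
  have e : m - 1 - r₁.length = r₂.length := by
    rw [List.length_append, List.length_cons] at hr
    omega
  rw [EE, hf r₁.length (by rw [List.length_append, List.length_cons] at hr; omega) _ hr g hg, keep_mj, e, cl_ins]

include R in
theorem res_Gam_ins {r₁ r₂ : List ℕ} {a k : ℕ} {g : Br} (hg : g ∈ Gam k (width (r₁ ++ a :: r₂))) :
    (upv (width r₁) (width r₂))⁻¹ * res g (spread (r₁ ++ a :: r₂) (mj r₁.length)) * upv (width r₁) (width r₂) ∈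
      Gam k (width (r₁ ++ 0 :: r₂)) := by
  have h1 := R.gam _ _ _ (spread (r₁ ++ a :: r₂) (mj r₁.length)) hg
  rw [R.width, keep_mj] at h1
  have h2 := Gam_conj (inv_mem (ins_mem r₁ r₂)) (Gam_mono (ins_le r₁ r₂) h1)
  rwa [inv_inv] at h2

theorem PN_Gam {n : ℕ} : PN n = Gam 1 n := rfl

include R hf in
theorem EE_IsStringLink {j : ℕ} (hj : j < m) {x : Tangle} (hx : IsStringLink m x) : IsStringLink m (EE f m j x) := by
  obtain ⟨r, hr, g, hg, rfl⟩ := hx
  obtain ⟨r₁, a, r₂, rfl, rfl, _⟩ := split_at hr hj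
  rw [EE_cl hf hr hg]
  refine ⟨_, ?_, _, res_Gam_ins (k := 1) R hg, rfl⟩
  rw [← hr]
  simp

theorem EE_mul (hfm : Fmul f m) {j : ℕ} (hj : j < m) {x y : Tangle} (hx : IsStringLink m x) (hy : IsStringLink m y) :
    EE f m j (x * y) = EE f m j x * EE f m j y := by
  rw [EE, EE, EE, hfm j hj x y hx hy]
  set D := upv j (m - 1 - j)
  calc T D⁻¹ * (f j x * f j y) * T D = T D⁻¹ * f j x * 1 * (f j y * T D) := by simp only [mul_assoc, one_mul]
    _ = T D⁻¹ * f j x * (T D * T D⁻¹) * (f j y * T D) := by rw [T_mul_inv]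
    _ = T D⁻¹ * f j x * T D * (T D⁻¹ * f j y * T D) := by simp only [mul_assoc]

include R hf in
theorem EE_CEquiv {j : ℕ} (hj : j < m) {k : ℕ} {x y : Tangle} (h : CEquiv m k x y) :
    CEquiv m k (EE f m j x) (EE f m j y) := by
  induction h with
  | rel x y h =>
    obtain ⟨r, hr, g, hg, γ, hγ, rfl, rfl⟩ := h
    obtain ⟨r₁, a, r₂, rfl, rfl, _⟩ := split_at hr hj
    rw [EE_cl hf hr hg, EE_cl hf hr (mul_mem hg (Gam_le_PN hγ)), res_mul_pure (Gam_le_PN hγ)]
    refine Relation.EqvGen.rel _ _ ⟨_, ?_, _, res_Gam_ins (k := 1) R hg, _, res_Gam_ins R hγ, rfl, ?_⟩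
    · rw [← hr]
      simp
    · congr 1
      group
  | refl x => exact Relation.EqvGen.refl _
  | symm _ _ _ ih => exact Relation.EqvGen.symm _ _ ih
  | trans _ _ _ _ _ ih ih' => exact Relation.EqvGen.trans _ _ _ ih ih'

theorem Av_ceq {j k : ℕ} {y : Tangle} (h : Av m j k y) : (sys m).IsCl y ∧ (sys m).Ceq k y 1 := by
  obtain ⟨r, hr, c, hc, s, hs, w, hw, _, rfl⟩ := h
  have h1 : c * w * c⁻¹ ∈ Gam k (width r) := Gam_conj hc (Gam_mono hs hw)
  refine ⟨⟨⟨r, hr⟩, ⟨_, Gam_le_PN h1⟩, rfl⟩, ?_⟩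
  have h2 := Ceq.of (Q := sys m) (l := ⟨r, hr⟩) (γ := (⟨_, Gam_le_PN h1⟩ : PN (width r))) 1
    ((mem_Gm_iff (n := width r) _).2 h1)
  rw [one_mul, (sys m).S_one] at h2
  exact h2.symm

include R hf in
theorem EE_stab {i j : ℕ} (hi : i < m) {k : ℕ} {y : Tangle} (h : Av m j k y) : Av m j k (EE f m i y) := by
  obtain ⟨r, hr, c, hc, s, hs, w, hw, hx, rfl⟩ := h
  obtain ⟨r₁, a, r₂, rfl, rfl, _⟩ := split_at hr hi
  have h1 : c * w * c⁻¹ ∈ Gam k (width (r₁ ++ a :: r₂)) := Gam_conj hc (Gam_mono hs hw)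
  rw [EE_cl hf hr (Gam_le_PN h1), res_conj (Gam_le_PN hw)]
  set S := spread (r₁ ++ a :: r₂) (mj r₁.length) with hS
  set S' := mk c⁻¹ S with hS'
  set D := upv (width r₁) (width r₂) with hD
  have hw1 : cnt S' (width (r₁ ++ a :: r₂)) = width (r₁ ++ r₂) := by
    rw [hS', R.cmk _ _ _ (inv_mem hc), hS, R.width, keep_mj]
  have hc' : res c S' ∈ BN (width (r₁ ++ 0 :: r₂)) := by
    have := R.bn _ c S' hc
    rw [hw1] at this
    exact BN_mono (ins_le r₁ r₂) this
  refine ⟨r₁ ++ 0 :: r₂, ?_, D⁻¹ * res c S', mul_mem (inv_mem (ins_mem r₁ r₂)) hc', cnt S' s, ?_, res w S',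
    R.gam _ _ _ _ hw, ?_, ?_⟩
  · rw [← hr]
    simp
  · have := cnt_mono S' hs
    rw [hw1] at this
    exact this.trans (ins_le r₁ r₂)
  · intro y hy
    obtain ⟨x, hxs, hx1, rfl⟩ := exists_cnt S' s y hy
    have e1 : S (perm c x) = true := by
      rw [hS', mk_inv_apply] at hx1
      exact hx1
    have hpx : perm c x < width (r₁ ++ a :: r₂) := (perm_lt hc).1 x (by omega)
    have e2 : perm (D⁻¹ * res c S') (cnt S' x) = pp r₁ a r₂ (perm c x) := by
      rw [map_mul, Equiv.Perm.mul_apply, R.perm c S' x hx1, pp]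
      congr 2
      rw [hS', ← mk_mul, mul_inv_cancel, mk_one]
    rw [e2, bl_pp hpx e1]
    exact hx x hxs
  · congr 1
    group

include R hf in
theorem EE_fix {j : ℕ} (hj : j < m) {k : ℕ} (hk : 1 ≤ k) {y : Tangle} (h : Av m j k y) :
    (sys m).Ceq (k + 1) (EE f m j y) y := by
  obtain ⟨r, hr, c, hc, s, hs, w, hw, hx, rfl⟩ := h
  obtain ⟨r₁, a, r₂, rfl, rfl, _⟩ := split_at hr hj
  have h1 : c * w * c⁻¹ ∈ Gam k (width (r₁ ++ a :: r₂)) := Gam_conj hc (Gam_mono hs hw)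
  rw [EE_cl hf hr (Gam_le_PN h1), res_conj (Gam_le_PN hw)]
  have hpx : ∀ x < s, perm c x < width (r₁ ++ a :: r₂) := fun x hx => (perm_lt hc).1 x (by omega)
  have hS1 : ∀ x < s, spread (r₁ ++ a :: r₂) (mj r₁.length) (perm c x) = true := by
    intro x hxs
    rw [spread_bl _ _ _ (hpx x hxs), mj_true]
    exact hx x hxs
  set S := spread (r₁ ++ a :: r₂) (mj r₁.length) with hS
  set S' := mk c⁻¹ S with hS'
  set D := upv (width r₁) (width r₂) with hD
  have hS2 : ∀ x < s, S' x = true := by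
    intro x hxs
    rw [hS', mk_inv_apply]
    exact hS1 x hxs
  have hw1 : cnt S' (width (r₁ ++ a :: r₂)) = width (r₁ ++ r₂) := by
    rw [hS', R.cmk _ _ _ (inv_mem hc), hS, R.width, keep_mj]
  have hc' : res c S' ∈ BN (width (r₁ ++ 0 :: r₂)) := by
    have := R.bn _ c S' hc
    rw [hw1] at this
    exact BN_mono (ins_le r₁ r₂) this
  rw [R.id _ _ _ (Gam_le_PN hw).1 hS2]
  have e1 : D⁻¹ * (res c S' * w * (res c S')⁻¹) * D = (D⁻¹ * res c S') * w * (D⁻¹ * res c S')⁻¹ := by group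
  have hs' : s ≤ width (r₁ ++ 0 :: r₂) := by
    have := cnt_mono S' hs
    rw [hw1, cnt_full hS2] at this
    exact this.trans (ins_le r₁ r₂)
  have hcD : D⁻¹ * res c S' ∈ BN (width (r₁ ++ 0 :: r₂)) := mul_mem (inv_mem (ins_mem r₁ r₂)) hc'
  obtain ⟨d, hd, hdp, hdcl⟩ := lev (r' := bz r₁.length ++ a :: bz r₂.length) (b := r₁ ++ 0 :: r₂) (by simp [bz_len])
  rw [zip_ins] at hd hdcl
  rw [e1, ← hdcl _ (PN_conj hcD (PN_mono hs' (Gam_le_PN hw)))]
  have e2 : d * ((D⁻¹ * res c S') * w * (D⁻¹ * res c S')⁻¹) * d⁻¹ =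
      (d * (D⁻¹ * res c S')) * w * (d * (D⁻¹ * res c S'))⁻¹ := by group
  have hwm : width (r₁ ++ 0 :: r₂) ≤ width (r₁ ++ a :: r₂) := by
    rw [width_cons', width_cons']
    omega
  have hperm : ∀ x < s, perm (d * (D⁻¹ * res c S')) x = perm c x := by
    intro x hxs
    have e4 : perm (D⁻¹ * res c S') x = pp r₁ a r₂ (perm c x) := by
      have h3 := R.perm c S' x (hS2 x hxs)
      rw [cnt_full fun z hz => hS2 z (by omega)] at h3
      rw [map_mul, Equiv.Perm.mul_apply, h3, pp]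
      congr 2
      rw [hS', ← mk_mul, mul_inv_cancel, mk_one]
    obtain ⟨h4, h5⟩ := lpos_pp (hpx x hxs) (hS1 x hxs)
    rw [map_mul, Equiv.Perm.mul_apply, e4, hdp _ h5, h4]
  obtain ⟨q, hq, e3⟩ := class_indep hk (mul_mem hd (BN_mono hwm hcD)) hc hs hperm hw
  rw [e2, e3]
  have h2 := Ceq.of (Q := sys m) (l := ⟨r₁ ++ a :: r₂, hr⟩) (γ := (⟨_, Gam_le_PN hq⟩ : PN (width (r₁ ++ a :: r₂))))
    (⟨_, Gam_le_PN h1⟩ : PN (width (r₁ ++ a :: r₂))) ((mem_Gm_iff (n := width (r₁ ++ a :: r₂)) _).2 hq)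
  exact h2.symm

include R hf in
/-- C_d-equivalence of string links with more than d components is detected by the sublinks -/
theorem uni_step (hfm : Fmul f m) {d : ℕ} (hd : 1 ≤ d) (hm : d < m) {x y : Tangle} (hx : IsStringLink m x)
    (hy : IsStringLink m y) (h : ∀ j < m, CEquiv m d (EE f m j x) (EE f m j y)) : CEquiv m d x y := by
  rw [← sys_Ceq]
  refine CSys.forget (Q := sys m) hd m (EE f m) ?_ ?_ ?_ (Av m) ?_ ?_ ?_ ?_ ((sys_IsCl m x).2 hx) ((sys_IsCl m y).2 hy) ?_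
  · intro j hj x hx
    exact (sys_IsCl m _).2 (EE_IsStringLink R hf hj ((sys_IsCl m x).1 hx))
  · intro j hj x y hx hy
    exact EE_mul hfm hj ((sys_IsCl m x).1 hx) ((sys_IsCl m y).1 hy)
  · intro j hj k x y _ hxy
    rw [sys_Ceq] at hxy ⊢
    exact EE_CEquiv R hf hj hxy
  · intro j _ k y hy
    exact Av_ceq hy
  · intro G _ π k hk hkd l a ha
    exact hgen hm π hk hkd l a ha
  · intro j hj k hk _ y hy
    exact EE_fix R hf hj hk hy
  · intro i hi j _ k _ _ y hy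
    exact EE_stab R hf hi hy
  · intro j hj
    rw [sys_Ceq]
    exact h j hj

end

end SLC
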