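import Pool.Agent.SLC.Uni2

/-!
String links: reduction of the comparison of finite type invariants and C_d-equivalence to at most d components.
-/

set_option autoImplicit false

namespace SLC

open CSys

theorem resolve_zero {A : Type} [AddCommGroup A] (F : Br → A) {n : ℕ} {N : ℕ}
    (h : ∀ (g : Br) (l : List (ℕ × Br)), l.length = N → g ∈ BN n → (∀ p ∈ l, p.1 + 1 < n ∧ p.2 ∈ BN n) →
      g * (l.map fun p => σ p.1 * p.2).prod ∈ PN n → resolve F g l = 0) :
    ∀ (g : Br) (l : List (ℕ × Br)), l.length = N + 1 → g ∈ BN n → (∀ p ∈ l, p.1 + 1 < n ∧ p.2 ∈ BN n) →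
      g * (l.map fun p => σ p.1 * p.2).prod ∈ PN n → resolve F g l = 0 := by
  intro g l hl hg hp hpure
  rcases l with _ | ⟨p, l⟩
  · simp at hl
  rw [List.length_cons] at hl
  have hp1 := hp p List.mem_cons_self
  have hp2 : ∀ q ∈ l, q.1 + 1 < n ∧ q.2 ∈ BN n := fun q hq => hp q (List.mem_cons_of_mem _ hq)
  rw [List.map_cons, List.prod_cons] at hpure
  have e1 : g * σ p.1 * p.2 * (l.map fun p => σ p.1 * p.2).prod ∈ PN n := by
    have : g * σ p.1 * p.2 * (l.map fun p => σ p.1 * p.2).prod = g * (σ p.1 * p.2 * (l.map fun p => σ p.1 * p.2).prod) := by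
      group
    rwa [this]
  have e2 : g * (σ p.1)⁻¹ * p.2 * (l.map fun p => σ p.1 * p.2).prod ∈ PN n := by
    have h1 : g * (σ p.1)⁻¹ * p.2 * (l.map fun p => σ p.1 * p.2).prod =
        (g * ((σ p.1)⁻¹ * (σ p.1)⁻¹) * g⁻¹) * (g * (σ p.1 * p.2 * (l.map fun p => σ p.1 * p.2).prod)) := by group
    rw [h1]
    exact mul_mem (PN_conj hg (sq_mem hp1.1)) hpure
  rw [resolve, h _ l (by omega) (mul_mem (mul_mem hg (σ_mem hp1.1)) hp1.2) hp2 e1,
    h _ l (by omega) (mul_mem (mul_mem hg (inv_mem (σ_mem hp1.1))) hp1.2) hp2 e2, sub_zero]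

theorem FiniteType.mono {A : Type} [AddCommGroup A] {m N N' : ℕ} (h : N ≤ N') {v : Tangle → A}
    (hv : FiniteType m N v) : FiniteType m N' v := by
  induction N', h using Nat.le_induction with
  | base => exact hv
  | succ N' _ ih =>
    intro r g l hr hl hg hp hpure
    exact resolve_zero (fun b => v (cl r b)) (fun g l hl hg hp hpure => ih r g l hr hl hg hp hpure) g l hl hg hp hpure

theorem ins_CEquiv {m j : ℕ} (hj : j < m) {k : ℕ} {x y : Tangle} (h : CEquiv (m - 1) k x y) :
    CEquiv m k (T (upv j (m - 1 - j))⁻¹ * x * T (upv j (m - 1 - j))) (T (upv j (m - 1 - j))⁻¹ * y * T (upv j (m - 1 - j))) := by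
  induction h with
  | rel x y h =>
    obtain ⟨r, hr, g, hg, γ, hγ, rfl, rfl⟩ := h
    have e1 : (r.take j).length = j := by rw [List.length_take, hr, min_eq_left (by omega)]
    have e2 : (r.drop j).length = m - 1 - j := by rw [List.length_drop, hr]
    obtain ⟨r₁, r₂, rfl, rfl, h2⟩ : ∃ r₁ r₂, r = r₁ ++ r₂ ∧ r₁.length = j ∧ r₂.length = m - 1 - j :=
      ⟨r.take j, r.drop j, (List.take_append_drop j r).symm, e1, e2⟩
    rw [← h2, cl_ins, cl_ins]
    have h3 := PN_conj (inv_mem (ins_mem r₁ r₂)) (PN_mono (ins_le r₁ r₂) hg)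
    have h4 := Gam_conj (inv_mem (ins_mem r₁ r₂)) (Gam_mono (ins_le r₁ r₂) hγ)
    rw [inv_inv] at h3 h4
    refine Relation.EqvGen.rel _ _ ⟨_, ?_, _, h3, _, h4, rfl, ?_⟩
    · rw [List.length_append] at hr
      rw [List.length_append, List.length_cons]
      omega
    · congr 1
      group
  | refl x => exact Relation.EqvGen.refl _
  | symm _ _ _ ih => exact Relation.EqvGen.symm _ _ ih
  | trans _ _ _ _ _ ih ih' => exact Relation.EqvGen.trans _ _ _ ih ih'

theorem keep_mj_length {r : List ℕ} {m j : ℕ} (hr : r.length = m) (hj : j < m) : (keep r (mj j)).length = m - 1 := by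
  obtain ⟨r₁, a, r₂, rfl, rfl, h⟩ := split_at hr hj
  rw [keep_mj, List.length_append]
  omega

/-- the forgetful maps pull finite type invariants back -/
def Fft (f : ℕ → Tangle → Tangle) (m : ℕ) : Prop := ∀ j < m, ∀ (N : ℕ) (A : Type) [AddCommGroup A] (v : Tangle → A),
  FiniteType (m - 1) N v → FiniteType m N fun x => v (f j x)

theorem sub_IsStringLink (R : ResFacts) {f : ℕ → Tangle → Tangle} {m : ℕ} (hf : Fval f m) {j : ℕ} (hj : j < m)
    {x : Tangle} (hx : IsStringLink m x) : IsStringLink (m - 1) (f j x) := by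
  obtain ⟨r, hr, g, hg, rfl⟩ := hx
  rw [hf j hj r hr g hg]
  refine ⟨_, keep_mj_length hr hj, _, ?_, rfl⟩
  have h1 := R.gam 1 _ g (spread r (mj j)) hg
  rwa [R.width] at h1

/-- string links with m components which agree on all finite type invariants of degree < N are C_d-equivalent -/
def Agr (m d N : ℕ) : Prop := ∀ x y : Tangle, IsStringLink m x → IsStringLink m y →
  (∀ (A : Type) [AddCommGroup A] (v : Tangle → A), FiniteType m N v → v x = v y) → CEquiv m d x y

theorem Agr.mono {m d N N' : ℕ} (h : N ≤ N') (hA : Agr m d N) : Agr m d N' :=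
  fun x y hx hy hv => hA x y hx hy fun A _ v hft => hv A v (hft.mono h)

theorem Agr_of_le (R : ResFacts) (f : ℕ → ℕ → Tangle → Tangle) (hf : ∀ m, Fval (f m) m) (hfm : ∀ m, Fmul (f m) m)
    (hft : ∀ m, Fft (f m) m) {d N : ℕ} (hd : 1 ≤ d) (h : ∀ m ≤ d, Agr m d N) : ∀ m, Agr m d N := by
  intro m
  induction m with
  | zero => exact h 0 (by omega)
  | succ m ih =>
    by_cases hm : m + 1 ≤ d
    · exact h _ hm
    · intro x y hx hy hv
      refine uni_step R (hf (m + 1)) (hfm (m + 1)) hd (by omega) hx hy fun j hj => ?_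
      refine ins_CEquiv hj ?_
      refine ih _ _ (sub_IsStringLink R (hf _) hj hx) (sub_IsStringLink R (hf _) hj hy) fun A _ v hv' => ?_
      exact hv A _ (hft (m + 1) j hj N A v hv')

/-- a bound for the degrees which works for all numbers of components -/
theorem uniform_of (R : ResFacts) (f : ℕ → ℕ → Tangle → Tangle) (hf : ∀ m, Fval (f m) m) (hfm : ∀ m, Fmul (f m) m)
    (hft : ∀ m, Fft (f m) m) {d : ℕ} (hd : 1 ≤ d) (h : ∀ m, ∃ N, Agr m d N) : ∃ N, ∀ m, Agr m d N := by
  choose N hN using h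
  refine ⟨(Finset.range (d + 1)).sup N, Agr_of_le R f hf hfm hft hd fun m hm => ?_⟩
  exact (hN m).mono (Finset.le_sup (f := N) (Finset.mem_range.2 (by omega)))

end SLC
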