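import Pool.Agent.SLC.Uni3
import Pool.Agent.SLC.Re1
import Pool.Agent.SLC.Cof6

/-!
String links: finite type invariants of large degree determine the C_d-equivalence class, with a bound for the degrees
which does not depend on the number of components.
-/

set_option autoImplicit false

namespace SLC

theorem resFacts : ResFacts where
  bn _ _ s hg := Re.res_mem hg s
  gam _ _ _ s hg := Re.res_Gam' hg s
  perm g s x hx := Re.perm_res g s x hx
  cmk _ _ s hg := Re.cnt_mk hg s
  width r c := Re.cnt_spread r c
  id _ _ s hg hs := Re.res_true hg s hs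

theorem uniform (d : ℕ) (hd : 1 ≤ d) : ∃ N : ℕ, ∀ m : ℕ, ∀ x y : Tangle, IsStringLink m x → IsStringLink m y →
    (∀ (A : Type) [AddCommGroup A] (v : Tangle → A), FiniteType m N v → v x = v y) → CEquiv m d x y := by
  refine uniform_of resFacts (fun _ j => fgt (mj j)) ?_ ?_ ?_ hd fun m => cofinal m d hd
  · intro m j _ r _ g hg
    exact fgt_cl _ r (Re.perm_of_PN hg)
  · intro m j _ x y hx hy
    exact fgt_mul _ hx hy
  · intro m j hj N A _ v hv
    have h : cnt (mj j) m = m - 1 := by
      have h1 := Re.cnt_ne j m
      rw [if_pos hj] at h1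
      exact h1
    rw [← h] at hv
    exact Re.fgt_FiniteType (mj j) hv

end SLC
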