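import Pool.Agent.SLC.Uni5

/-!
String links: the comparison for at most d components implies the comparison for all numbers of components.
-/

set_option autoImplicit false

namespace SLC

theorem reduce (d N : ℕ) (hd : 1 ≤ d)
    (h : ∀ m ≤ d, ∀ x y : Tangle, IsStringLink m x → IsStringLink m y →
      (∀ (A : Type) [AddCommGroup A] (v : Tangle → A), FiniteType m N v → v x = v y) → CEquiv m d x y) :
    ∀ m : ℕ, ∀ x y : Tangle, IsStringLink m x → IsStringLink m y →
      (∀ (A : Type) [AddCommGroup A] (v : Tangle → A), FiniteType m N v → v x = v y) → CEquiv m d x y := by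
  refine Agr_of_le resFacts (fun _ j => fgt (mj j)) ?_ ?_ ?_ hd h
  · intro m j _ r _ g hg
    exact fgt_cl _ r (Re.perm_of_PN hg)
  · intro m j _ x y hx hy
    exact fgt_mul _ hx hy
  · intro m j hj N A _ v hv
    have h : cnt (mj j) m = m - 1 := by
      have h1 := Re.cnt_ne j m
      rw [if_pos hj] at h1
      exact h1
    rw [← h] at hv
    exact Re.fgt_FiniteType (mj j) hv

end SLC
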